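import Pool.Agent.Work.MP_2b4d3b_al.NE.Core

/-!
The elements of the Leavitt path algebra, its involution as a relation, isomorphisms.
-/

set_option linter.unusedVariables false

namespace Pool.Agent.Work.MP_2b4d3b_al.NE

universe u v w u' v' w'

/-- `x` is an element of the Leavitt path algebra `L_K(G)`: it is obtained from the vertices, edges
and ghost edges by sums, products and multiplication by scalars. -/
inductive InL (K : Type u) [CommRing K] {V : Type v} {E : Type w} (G : Gr V E) : UA K G → Prop
  | gen (a : Gen V E) : InL K G (gn K G a)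
  | zero : InL K G 0
  | add {x y : UA K G} : InL K G x → InL K G y → InL K G (x + y)
  | mul {x y : UA K G} : InL K G x → InL K G y → InL K G (x * y)
  | smul (k : K) {x : UA K G} : InL K G x → InL K G (k • x)

/-- `Inv K G x y`: `y` is the image of the element `x` of `L_K(G)` under the involution, which fixes
the vertices, exchanges edges and ghost edges, is additive, reverses products and conjugates
scalars. -/
inductive Inv (K : Type u) [CommRing K] [StarRing K] {V : Type v} {E : Type w} (G : Gr V E) :
    UA K G → UA K G → Prop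
  | vx (x : V) : Inv K G (gn K G (.vx x)) (gn K G (.vx x))
  | ed (e : E) : Inv K G (gn K G (.ed e)) (gn K G (.gh e))
  | gh (e : E) : Inv K G (gn K G (.gh e)) (gn K G (.ed e))
  | zero : Inv K G 0 0
  | add {x x' y y' : UA K G} : Inv K G x x' → Inv K G y y' → Inv K G (x + y) (x' + y')
  | mul {x x' y y' : UA K G} : Inv K G x x' → Inv K G y y' → Inv K G (x * y) (y' * x')
  | smul (k : K) {x x' : UA K G} : Inv K G x x' → Inv K G (k • x) (star k • x')

/-- `f` restricts to a ring isomorphism from `L_K(G)` to `L_{K'}(F)`. -/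
def IsRingIso (K : Type u) [CommRing K] {V : Type v} {E : Type w} (G : Gr V E)
    (K' : Type u') [CommRing K'] {V' : Type v'} {E' : Type w'} (F : Gr V' E')
    (f : UA K G → UA K' F) : Prop :=
  Set.BijOn f {x | InL K G x} {y | InL K' F y} ∧
    (∀ x y, InL K G x → InL K G y → f (x + y) = f x + f y) ∧
    ∀ x y, InL K G x → InL K G y → f (x * y) = f x * f y

/-- `f` restricts to a `K`-linear ring isomorphism from `L_K(G)` to `L_K(F)` which preserves the
involution. -/
def IsStarIso (K : Type u) [CommRing K] [StarRing K] {V : Type v} {E : Type w} (G : Gr V E)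
    {V' : Type v'} {E' : Type w'} (F : Gr V' E') (f : UA K G → UA K F) : Prop :=
  IsRingIso K G K F f ∧ (∀ (k : K) (x : UA K G), InL K G x → f (k • x) = k • f x) ∧
    ∀ x y, Inv K G x y → Inv K F (f x) (f y)

section

variable {K : Type u} [CommRing K] {V : Type v} {E : Type w} {G : Gr V E}

theorem inL_iff {x : UA K G} : InL K G x ↔ x ∈ LP K G := by
  constructor
  · intro h
    induction h with
    | gen a => exact NonUnitalAlgebra.subset_adjoin K ⟨a, rfl⟩
    | zero => exact zero_mem _
    | add _ _ h1 h2 => exact add_mem h1 h2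
    | mul _ _ h1 h2 => exact mul_mem h1 h2
    | smul k _ h => exact (LP K G).smul_mem k h
  · intro h
    induction h using NonUnitalAlgebra.adjoin_induction with
    | mem x hx => obtain ⟨g, rfl⟩ := hx; exact .gen g
    | add x y _ _ h1 h2 => exact .add h1 h2
    | zero => exact .zero
    | mul x y _ _ h1 h2 => exact .mul h1 h2
    | smul k x _ h => exact .smul k h

theorem inv_iff [StarRing K] {x y : UA K G} : Inv K G x y ↔ x ∈ LP K G ∧ y = star x := by
  constructor
  · intro h
    induction h with
    | vx x => exact ⟨NonUnitalAlgebra.subset_adjoin K ⟨_, rfl⟩, (star_vx (K := K) (G := G) x).symm⟩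
    | ed e => exact ⟨NonUnitalAlgebra.subset_adjoin K ⟨_, rfl⟩, (star_ed (K := K) (G := G) e).symm⟩
    | gh e => exact ⟨NonUnitalAlgebra.subset_adjoin K ⟨_, rfl⟩, (star_gh (K := K) (G := G) e).symm⟩
    | zero => exact ⟨zero_mem _, (star_zero _).symm⟩
    | add _ _ h1 h2 => exact ⟨add_mem h1.1 h2.1, by rw [h1.2, h2.2, star_add]⟩
    | mul _ _ h1 h2 => exact ⟨mul_mem h1.1 h2.1, by rw [h1.2, h2.2, star_mul]⟩
    | smul k _ h => exact ⟨(LP K G).smul_mem k h.1, by rw [h.2, star_smul']⟩
  · rintro ⟨h, rfl⟩
    induction h using NonUnitalAlgebra.adjoin_induction with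
    | mem x hx =>
      obtain ⟨g, rfl⟩ := hx
      cases g with
      | vx x =>
        have := Inv.vx (K := K) (G := G) x
        rwa [show star (gn K G (.vx x)) = gn K G (.vx x) from star_vx x]
      | ed e =>
        have := Inv.ed (K := K) (G := G) e
        rwa [show star (gn K G (.ed e)) = gn K G (.gh e) from star_ed e]
      | gh e =>
        have := Inv.gh (K := K) (G := G) e
        rwa [show star (gn K G (.gh e)) = gn K G (.ed e) from star_gh e]
    | add x y _ _ h1 h2 => rw [star_add]; exact .add h1 h2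
    | zero => rw [star_zero]; exact .zero
    | mul x y _ _ h1 h2 => rw [star_mul]; exact .mul h1 h2
    | smul k x _ h => rw [star_smul']; exact .smul k h

variable {K' : Type u'} [CommRing K'] {V' : Type v'} {E' : Type w'} {F : Gr V' E'}

theorem IsRingIso.equiv {f : UA K G → UA K' F} (h : IsRingIso K G K' F f) :
    Nonempty (LP K G ≃+* LP K' F) := by
  obtain ⟨hb, ha, hm⟩ := h
  have hs : ∀ a : LP K G, f a.1 ∈ LP K' F := fun a => inL_iff.1 (hb.1 (inL_iff.2 a.2))
  let g : LP K G → LP K' F := fun a => ⟨f a.1, hs a⟩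
  have hg : Function.Bijective g := by
    constructor
    · intro a b hab
      exact Subtype.ext (hb.2.1 (inL_iff.2 a.2) (inL_iff.2 b.2) (congrArg Subtype.val hab))
    · intro b
      obtain ⟨a, ha1, ha2⟩ := hb.2.2 (inL_iff.2 b.2)
      exact ⟨⟨a, inL_iff.1 ha1⟩, Subtype.ext ha2⟩
  refine ⟨RingEquiv.mk (Equiv.ofBijective g hg) ?_ ?_⟩
  · intro a b
    exact Subtype.ext (hm a.1 b.1 (inL_iff.2 a.2) (inL_iff.2 b.2))
  · intro a b
    exact Subtype.ext (ha a.1 b.1 (inL_iff.2 a.2) (inL_iff.2 b.2))

open Classical in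
theorem isStarIso_of [StarRing K] {F : Gr V' E'} (f : LP K G ≃+* LP K F)
    (hf : ∀ (k : K) (a : LP K G), f (k • a) = k • f a)
    (hs : ∀ a b : LP K G, (b : UA K G) = star (a : UA K G) →
      ((f b : LP K F) : UA K F) = star ((f a : LP K F) : UA K F)) :
    ∃ g : UA K G → UA K F, IsStarIso K G F g := by
  let g : UA K G → UA K F := fun x => if h : x ∈ LP K G then (f ⟨x, h⟩).1 else 0
  have hg : ∀ x (h : x ∈ LP K G), g x = (f ⟨x, h⟩).1 := fun x h => dif_pos h
  refine ⟨g, ⟨⟨?_, ?_, ?_⟩, ?_, ?_⟩, ?_, ?_⟩
  · intro x hx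
    have hx' : x ∈ LP K G := inL_iff.1 hx
    rw [hg x hx']
    exact inL_iff.2 (f ⟨x, hx'⟩).2
  · intro x hx y hy hxy
    have hx' : x ∈ LP K G := inL_iff.1 hx
    have hy' : y ∈ LP K G := inL_iff.1 hy
    rw [hg x hx', hg y hy'] at hxy
    exact congrArg Subtype.val (f.injective (Subtype.ext hxy))
  · intro y hy
    have hy' : y ∈ LP K F := inL_iff.1 hy
    refine ⟨(f.symm ⟨y, hy'⟩).1, inL_iff.2 (f.symm ⟨y, hy'⟩).2, ?_⟩
    rw [hg _ (f.symm ⟨y, hy'⟩).2]
    exact congrArg Subtype.val (f.apply_symm_apply ⟨y, hy'⟩)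
  · intro x y hx hy
    have hx' : x ∈ LP K G := inL_iff.1 hx
    have hy' : y ∈ LP K G := inL_iff.1 hy
    rw [hg x hx', hg y hy', hg _ (add_mem hx' hy')]
    exact congrArg Subtype.val (f.map_add ⟨x, hx'⟩ ⟨y, hy'⟩)
  · intro x y hx hy
    have hx' : x ∈ LP K G := inL_iff.1 hx
    have hy' : y ∈ LP K G := inL_iff.1 hy
    rw [hg x hx', hg y hy', hg _ (mul_mem hx' hy')]
    exact congrArg Subtype.val (f.map_mul ⟨x, hx'⟩ ⟨y, hy'⟩)
  · intro k x hx
    have hx' : x ∈ LP K G := inL_iff.1 hx
    rw [hg x hx', hg _ ((LP K G).smul_mem k hx')]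
    exact congrArg Subtype.val (hf k ⟨x, hx'⟩)
  · intro x y hxy
    obtain ⟨hx, rfl⟩ := inv_iff.1 hxy
    have hx2 : star x ∈ LP K G := by
      have h1 : Inv K G (star x) x := by
        clear hxy
        induction hx using NonUnitalAlgebra.adjoin_induction with
        | mem x hx =>
          obtain ⟨g, rfl⟩ := hx
          cases g with
          | vx x =>
            have := Inv.vx (K := K) (G := G) x
            rwa [show star (gn K G (.vx x)) = gn K G (.vx x) from star_vx x]
          | ed e =>
            have := Inv.gh (K := K) (G := G) e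
            rwa [show star (gn K G (.ed e)) = gn K G (.gh e) from star_ed e]
          | gh e =>
            have := Inv.ed (K := K) (G := G) e
            rwa [show star (gn K G (.gh e)) = gn K G (.ed e) from star_gh e]
        | add x y _ _ h1 h2 => rw [star_add]; exact .add h1 h2
        | zero => rw [star_zero]; exact .zero
        | mul x y _ _ h1 h2 => rw [star_mul]; exact .mul h2 h1
        | smul k x _ h =>
          rw [star_smul']
          have := Inv.smul (star k) h
          rwa [star_star] at this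
      exact (inv_iff.1 h1).1
    refine inv_iff.2 ⟨?_, ?_⟩
    · rw [hg x hx]; exact (f ⟨x, hx⟩).2
    · rw [hg x hx, hg _ hx2]
      exact hs ⟨x, hx⟩ ⟨star x, hx2⟩ rfl

end

end Pool.Agent.Work.MP_2b4d3b_al.NE
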