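import Pool.Agent.Work.MP_2b4d3b_al.NE.Defs

/-
Basic facts on generators, the ideal LP, the involution and the map io.
PROOF. Generators belong to LP by subset_adjoin. LP_ind is NonUnitalAlgebra.adjoin_induction (cases on the generator).
UA_dec: UA.ind (products: (k + b)(k' + b') = k k' + (k b' + k' b + b b')). mul_mem_left, mul_mem_right: write the arbitrary
factor as k + b. The products of generators: insert the vertex, e.g. vx x * ed e = vx x * vx (s e) * ed e, which is 0 if
x differs from s e. star: the star of each generator is a generator, LP_ind. io: Fam.lift_vx etc; io_mem by LP_ind; io_star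
by UA.ind (scalars: star of an integer is the integer; algebraMap Z). wd: induction on the list (star reverses products,
List.prod_append for the reverse).
-/

set_option linter.unusedVariables false
set_option linter.style.longLine false
set_option linter.unusedSectionVars false

namespace Pool.Agent.Work.MP_2b4d3b_al.NE

universe u v w u' v' w'

open Finset

variable {K : Type u} [CommRing K] {V : Type v} {E : Type w} {G : Gr V E}

theorem vx_mem (x : V) : vx K G x ∈ LP K G := by
  exact NonUnitalAlgebra.subset_adjoin K ⟨.vx x, rfl⟩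

theorem ed_mem (e : E) : ed K G e ∈ LP K G := by
  exact NonUnitalAlgebra.subset_adjoin K ⟨.ed e, rfl⟩

theorem gh_mem (e : E) : gh K G e ∈ LP K G := by
  exact NonUnitalAlgebra.subset_adjoin K ⟨.gh e, rfl⟩

/-- induction in LP -/
theorem LP_ind {P : UA K G → Prop} (hv : ∀ x, P (vx K G x)) (he : ∀ e, P (ed K G e))
    (hg : ∀ e, P (gh K G e)) (h0 : P 0) (hadd : ∀ a b, P a → P b → P (a + b))
    (hmul : ∀ a b, P a → P b → P (a * b)) (hsmul : ∀ (k : K) a, P a → P (k • a)) {a : UA K G}
    (ha : a ∈ LP K G) : P a := by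
  refine NonUnitalAlgebra.adjoin_induction (p := fun a _ => P a) ?_ ?_ h0 ?_ ?_ ha
  · rintro _ ⟨g, rfl⟩
    cases g with
    | vx x => exact hv x
    | ed e => exact he e
    | gh e => exact hg e
  · intro x y _ _ hx hy
    exact hadd x y hx hy
  · intro x y _ _ hx hy
    exact hmul x y hx hy
  · intro k x _ hx
    exact hsmul k x hx

/-- scalars plus LP is everything -/
theorem UA_dec (a : UA K G) : ∃ k : K, ∃ b ∈ LP K G, a = algebraMap K _ k + b := by
  induction a using UA.ind with
  | hK k => exact ⟨k, 0, (LP K G).zero_mem, (add_zero _).symm⟩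
  | hv x => exact ⟨0, _, vx_mem x, by rw [map_zero, zero_add]⟩
  | he e => exact ⟨0, _, ed_mem e, by rw [map_zero, zero_add]⟩
  | hg e => exact ⟨0, _, gh_mem e, by rw [map_zero, zero_add]⟩
  | hadd a b ha hb =>
    obtain ⟨k, c, hc, rfl⟩ := ha
    obtain ⟨k', c', hc', rfl⟩ := hb
    refine ⟨k + k', c + c', (LP K G).add_mem hc hc', ?_⟩
    rw [map_add]
    abel
  | hmul a b ha hb =>
    obtain ⟨k, c, hc, rfl⟩ := ha
    obtain ⟨k', c', hc', rfl⟩ := hb
    refine ⟨k * k', k • c' + k' • c + c * c', ?_, ?_⟩
    · exact (LP K G).add_mem ((LP K G).add_mem ((LP K G).smul_mem k hc')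
        ((LP K G).smul_mem k' hc)) ((LP K G).mul_mem hc hc')
    · rw [map_mul, Algebra.smul_def, Algebra.smul_def, Algebra.commutes k' c]
      noncomm_ring

theorem mul_mem_LP_left (a : UA K G) {b : UA K G} (hb : b ∈ LP K G) : a * b ∈ LP K G := by
  obtain ⟨k, c, hc, rfl⟩ := UA_dec a
  rw [add_mul, ← Algebra.smul_def]
  exact (LP K G).add_mem ((LP K G).smul_mem k hb) ((LP K G).mul_mem hc hb)

theorem mul_mem_LP_right {a : UA K G} (ha : a ∈ LP K G) (b : UA K G) : a * b ∈ LP K G := by
  obtain ⟨k, c, hc, rfl⟩ := UA_dec b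
  rw [mul_add, ← Algebra.commutes, ← Algebra.smul_def]
  exact (LP K G).add_mem ((LP K G).smul_mem k ha) ((LP K G).mul_mem ha hc)

open Classical in
theorem vx_ed (x : V) (e : E) : vx K G x * ed K G e = if x = G.s e then ed K G e else 0 := by
  split_ifs with h
  · rw [h, s_ed]
  · rw [← s_ed e, ← mul_assoc, vx_ne h, zero_mul]

open Classical in
theorem ed_vx (e : E) (x : V) : ed K G e * vx K G x = if x = G.r e then ed K G e else 0 := by
  split_ifs with h
  · rw [h, ed_r]
  · rw [← ed_r e, mul_assoc, vx_ne (Ne.symm h), mul_zero]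

open Classical in
theorem vx_gh (x : V) (e : E) : vx K G x * gh K G e = if x = G.r e then gh K G e else 0 := by
  split_ifs with h
  · rw [h, r_gh]
  · rw [← r_gh e, ← mul_assoc, vx_ne h, zero_mul]

open Classical in
theorem gh_vx (e : E) (x : V) : gh K G e * vx K G x = if x = G.s e then gh K G e else 0 := by
  split_ifs with h
  · rw [h, gh_s]
  · rw [← gh_s e, mul_assoc, vx_ne (Ne.symm h), mul_zero]

open Classical in
theorem gh_ed_ite (e f : E) : gh K G e * ed K G f = if e = f then vx K G (G.r e) else 0 := by
  split_ifs with h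
  · rw [← h, gh_ed]
  · exact gh_ed_ne h

theorem star_mem_LP [StarRing K] {a : UA K G} (ha : a ∈ LP K G) : star a ∈ LP K G := by
  refine LP_ind (P := fun a => star a ∈ LP K G) ?_ ?_ ?_ ?_ ?_ ?_ ?_ ha
  · intro x
    rw [star_vx]
    exact vx_mem x
  · intro e
    rw [star_ed]
    exact gh_mem e
  · intro e
    rw [star_gh]
    exact ed_mem e
  · rw [star_zero]
    exact (LP K G).zero_mem
  · intro a b ha hb
    rw [star_add]
    exact (LP K G).add_mem ha hb
  · intro a b ha hb
    rw [star_mul]
    exact (LP K G).mul_mem hb ha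
  · intro k a ha
    rw [star_smul']
    exact (LP K G).smul_mem _ ha

@[simp] theorem io_vx (x : V) : io K G (vx ℤ G x) = vx K G x := by
  rw [io, Fam.lift_vx]

@[simp] theorem io_ed (e : E) : io K G (ed ℤ G e) = ed K G e := by
  rw [io, Fam.lift_ed]

@[simp] theorem io_gh (e : E) : io K G (gh ℤ G e) = gh K G e := by
  rw [io, Fam.lift_gh]

theorem io_mem {a : UA ℤ G} (ha : a ∈ LP ℤ G) : io K G a ∈ LP K G := by
  refine LP_ind (P := fun a => io K G a ∈ LP K G) ?_ ?_ ?_ ?_ ?_ ?_ ?_ ha
  · intro x
    rw [io_vx]
    exact vx_mem x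
  · intro e
    rw [io_ed]
    exact ed_mem e
  · intro e
    rw [io_gh]
    exact gh_mem e
  · rw [map_zero]
    exact (LP K G).zero_mem
  · intro a b ha hb
    rw [map_add]
    exact (LP K G).add_mem ha hb
  · intro a b ha hb
    rw [map_mul]
    exact (LP K G).mul_mem ha hb
  · intro k a ha
    rw [map_smul, ← Int.cast_smul_eq_zsmul K k]
    exact (LP K G).smul_mem _ ha

theorem io_star [StarRing K] (a : UA ℤ G) : io K G (star a) = star (io K G a) := by
  induction a using UA.ind with
  | hK k => rw [star_alg, star_trivial, AlgHom.commutes, eq_intCast, star_intCast]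
  | hv x => rw [star_vx, io_vx, star_vx]
  | he e => rw [star_ed, io_gh, io_ed, star_ed]
  | hg e => rw [star_gh, io_gh, io_ed, star_gh]
  | hadd a b ha hb => rw [star_add, map_add, map_add, star_add, ha, hb]
  | hmul a b ha hb => rw [star_mul, map_mul, map_mul, star_mul, ha, hb]

theorem io_wd (l : List E) : io K G (wd (ed ℤ G) l) = wd (ed K G) l := by
  induction l with
  | nil => rw [wd, wd, List.map_nil, List.map_nil, List.prod_nil, List.prod_nil, map_one]
  | cons e l ih =>
    rw [wd, wd] at ih ⊢
    rw [List.map_cons, List.map_cons, List.prod_cons, List.prod_cons, map_mul, io_ed, ih]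

theorem wd_star [StarRing K] (l : List E) : star (wd (ed K G) l) = wd (gh K G) l.reverse := by
  induction l with
  | nil => rw [wd, wd, List.reverse_nil, List.map_nil, List.map_nil, List.prod_nil, star_one]
  | cons e l ih =>
    rw [wd, wd] at ih ⊢
    rw [List.map_cons, List.prod_cons, star_mul, ih, star_ed, List.reverse_cons, List.map_append,
      List.prod_append, List.map_cons, List.map_nil, List.prod_cons, List.prod_nil, mul_one]

end Pool.Agent.Work.MP_2b4d3b_al.NE
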