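import Pool.Agent.Work.MP_2b4d3b_al.NE.Defs

/-
Powers of the unitaries and Laurent polynomials in a system. o is a base index (σ.b o = o).
PROOF. c_base: cc at i = o: star (c o) * c o = c (b o) = c o, so c o is selfadjoint and idempotent. From xs, sx, cx (at i = o,
rewriting b o = o): c x = x, x x* = c = x* x, so x c = x x* x = c x = x; taking stars the same for x*. Hence c * x^n = x^n for
n >= 1 etc. xp_add: cases on the signs (or: the powers of the unit x + (1 - c), whose inverse is x* + (1 - c), times c: c * u^n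
for u in units; zp c x n = c * u^n; this gives xp_add and xp_star at once). lv is additive and k-linear in f (Finsupp.sum),
lv (single n a) = a • xp n; lv_mul by bilinearity (LaurentPolynomial.induction_on' or sum expansions), lv_star for k = Z:
star (n • a) = n • star a for integers, star (xp n) = xp (-n).
-/

set_option linter.unusedVariables false
set_option linter.style.longLine false
set_option linter.unusedSectionVars false

namespace Pool.Agent.Work.MP_2b4d3b_al.NE

universe u v w u' v' w'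

open Finset

variable {R : Type u} [Ring R] [StarRing R] {k : Type v} [CommRing k] [Algebra k R] (σ : Sys R)

private theorem x_c' {o : σ.I} (ho : σ.b o = o) : star (σ.c o) * σ.c o = σ.c o := by
  have h := σ.cc o
  rwa [ho] at h

private theorem c_star {o : σ.I} (ho : σ.b o = o) : star (σ.c o) = σ.c o := by
  have h := x_c' σ ho
  have h2 := congrArg star h
  rw [star_mul, star_star, h] at h2
  exact h2.symm

private theorem c_sq {o : σ.I} (ho : σ.b o = o) : σ.c o * σ.c o = σ.c o := by
  have h := x_c' σ ho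
  rwa [c_star σ ho] at h

private theorem c_x {o : σ.I} (ho : σ.b o = o) : σ.c o * σ.x o = σ.x o := by
  have h := σ.cx o
  rwa [ho] at h

private theorem x_sx {o : σ.I} (ho : σ.b o = o) : σ.x o * star (σ.x o) = σ.c o := by
  have h := σ.xs o
  rwa [ho] at h

private theorem sx_x {o : σ.I} (ho : σ.b o = o) : star (σ.x o) * σ.x o = σ.c o := by
  have h := σ.sx o
  rwa [ho] at h

private theorem x_c {o : σ.I} (ho : σ.b o = o) : σ.x o * σ.c o = σ.x o := by
  rw [← sx_x σ ho, ← mul_assoc, x_sx σ ho, c_x σ ho]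

private theorem sx_c {o : σ.I} (ho : σ.b o = o) : star (σ.x o) * σ.c o = star (σ.x o) := by
  have h := congrArg star (c_x σ ho)
  rwa [star_mul, c_star σ ho] at h

private theorem c_sx {o : σ.I} (ho : σ.b o = o) : σ.c o * star (σ.x o) = star (σ.x o) := by
  have h := congrArg star (x_c σ ho)
  rwa [star_mul, c_star σ ho] at h

private theorem pow_aux {c y v : R} (hc : c * c = c) (hy : y * c = y) (hv : c * v = y) (n : ℕ) :
    c * v ^ n = c * y ^ n := by
  have h1 : ∀ m : ℕ, c * y ^ m * c = c * y ^ m := by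
    intro m
    rcases m with _ | m
    · rw [pow_zero, mul_one, hc]
    · rw [pow_succ, mul_assoc, mul_assoc, hy]
  induction n with
  | zero => rw [pow_zero, pow_zero]
  | succ n ih =>
    rw [pow_succ, ← mul_assoc, ih, ← h1 n, mul_assoc, hv, mul_assoc, ← pow_succ]

/-- the unit -/
private def un {o : σ.I} (ho : σ.b o = o) : Rˣ where
  val := σ.x o + (1 - σ.c o)
  inv := star (σ.x o) + (1 - σ.c o)
  val_inv := by
    have h1 := c_sq σ ho
    have h2 := x_sx σ ho
    have h3 := x_c σ ho
    have h4 := c_sx σ ho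
    have : (σ.x o + (1 - σ.c o)) * (star (σ.x o) + (1 - σ.c o))
        = σ.x o * star (σ.x o) + (σ.x o - σ.x o * σ.c o) + (star (σ.x o) - σ.c o * star (σ.x o))
          + (1 - σ.c o - σ.c o + σ.c o * σ.c o) := by noncomm_ring
    rw [this, h1, h2, h3, h4]
    noncomm_ring
  inv_val := by
    have h1 := c_sq σ ho
    have h2 := sx_x σ ho
    have h3 := sx_c σ ho
    have h4 := c_x σ ho
    have : (star (σ.x o) + (1 - σ.c o)) * (σ.x o + (1 - σ.c o))
        = star (σ.x o) * σ.x o + (star (σ.x o) - star (σ.x o) * σ.c o)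
          + (σ.x o - σ.c o * σ.x o) + (1 - σ.c o - σ.c o + σ.c o * σ.c o) := by noncomm_ring
    rw [this, h1, h2, h3, h4]
    noncomm_ring

private theorem c_un {o : σ.I} (ho : σ.b o = o) : σ.c o * (un σ ho : R) = σ.x o := by
  show σ.c o * (σ.x o + (1 - σ.c o)) = σ.x o
  rw [mul_add, mul_sub, mul_one, c_sq σ ho, c_x σ ho, sub_self, add_zero]

private theorem un_c {o : σ.I} (ho : σ.b o = o) : (un σ ho : R) * σ.c o = σ.x o := by
  show (σ.x o + (1 - σ.c o)) * σ.c o = σ.x o
  rw [add_mul, sub_mul, one_mul, c_sq σ ho, x_c σ ho, sub_self, add_zero]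

private theorem c_uninv {o : σ.I} (ho : σ.b o = o) :
    σ.c o * (((un σ ho)⁻¹ : Rˣ) : R) = star (σ.x o) := by
  show σ.c o * (star (σ.x o) + (1 - σ.c o)) = star (σ.x o)
  rw [mul_add, mul_sub, mul_one, c_sq σ ho, c_sx σ ho, sub_self, add_zero]

private theorem un_comm {o : σ.I} (ho : σ.b o = o) (n : ℤ) :
    σ.c o * (((un σ ho) ^ n : Rˣ) : R) = (((un σ ho) ^ n : Rˣ) : R) * σ.c o := by
  have h : Commute (σ.c o) (un σ ho : R) := by
    rw [Commute, SemiconjBy, c_un, un_c]
  exact (h.units_zpow_right n)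

private theorem xp_un {o : σ.I} (ho : σ.b o = o) (n : ℤ) :
    σ.xp o n = σ.c o * (((un σ ho) ^ n : Rˣ) : R) := by
  rcases n with n | n
  · show σ.c o * σ.x o ^ n = _
    rw [Int.ofNat_eq_natCast, zpow_natCast, Units.val_pow_eq_pow_val,
      pow_aux (c_sq σ ho) (x_c σ ho) (c_un σ ho)]
  · show σ.c o * star (σ.x o) ^ (n + 1) = _
    rw [zpow_negSucc, ← inv_pow, Units.val_pow_eq_pow_val,
      pow_aux (c_sq σ ho) (sx_c σ ho) (c_uninv σ ho)]

private theorem un_star {o : σ.I} (ho : σ.b o = o) : star (un σ ho) = (un σ ho)⁻¹ := by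
  apply Units.ext
  rw [Units.coe_star]
  show star (σ.x o + (1 - σ.c o)) = star (σ.x o) + (1 - σ.c o)
  rw [star_add, star_sub, star_one, c_star σ ho]

private theorem lv_single' (o : σ.I) (n : ℤ) (a : k) :
    σ.lv k o (AddMonoidAlgebra.single n a) = a • σ.xp o n := by
  rw [Sys.lv, AddMonoidAlgebra.coeff_single]
  exact Finsupp.sum_single_index (zero_smul _ _)

private theorem lv_add' (o : σ.I) (f g : LaurentPolynomial k) :
    σ.lv k o (f + g) = σ.lv k o f + σ.lv k o g := by
  rw [Sys.lv, Sys.lv, Sys.lv, AddMonoidAlgebra.coeff_add]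
  exact Finsupp.sum_add_index' (fun _ => zero_smul _ _) (fun _ _ _ => add_smul _ _ _)

private theorem ind_single {P : LaurentPolynomial k → Prop} (f : LaurentPolynomial k)
    (hadd : ∀ p q, P p → P q → P (p + q)) (hs : ∀ (n : ℤ) (a : k), P (AddMonoidAlgebra.single n a)) :
    P f := by
  refine LaurentPolynomial.induction_on' f hadd fun n a => ?_
  rw [← LaurentPolynomial.single_eq_C_mul_T]
  exact hs n a

private theorem xp_add' {o : σ.I} (ho : σ.b o = o) (m n : ℤ) :
    σ.xp o m * σ.xp o n = σ.xp o (m + n) := by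
  rw [xp_un σ ho, xp_un σ ho, xp_un σ ho, zpow_add, Units.val_mul]
  calc σ.c o * (((un σ ho) ^ m : Rˣ) : R) * (σ.c o * (((un σ ho) ^ n : Rˣ) : R))
      = σ.c o * ((((un σ ho) ^ m : Rˣ) : R) * σ.c o) * (((un σ ho) ^ n : Rˣ) : R) := by
        noncomm_ring
    _ = (σ.c o * σ.c o) * ((((un σ ho) ^ m : Rˣ) : R) * (((un σ ho) ^ n : Rˣ) : R)) := by
        rw [← un_comm]
        noncomm_ring
    _ = _ := by rw [c_sq σ ho]

private theorem xp_star' {o : σ.I} (ho : σ.b o = o) (n : ℤ) : star (σ.xp o n) = σ.xp o (-n) := by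
  rw [xp_un σ ho, xp_un σ ho, star_mul, c_star σ ho, un_comm, ← Units.coe_star, star_zpow,
    un_star, inv_zpow']

private theorem c_xp' {o : σ.I} (ho : σ.b o = o) (n : ℤ) :
    σ.c o * σ.xp o n = σ.xp o n ∧ σ.xp o n * σ.c o = σ.xp o n := by
  rw [xp_un σ ho]
  refine ⟨by rw [← mul_assoc, c_sq σ ho], ?_⟩
  rw [mul_assoc, ← un_comm, ← mul_assoc, c_sq σ ho]

theorem c_base {o : σ.I} (ho : σ.b o = o) : star (σ.c o) = σ.c o ∧ σ.c o * σ.c o = σ.c o := ⟨c_star σ ho, c_sq σ ho⟩

theorem xp_zero {o : σ.I} (ho : σ.b o = o) : σ.xp o 0 = σ.c o := by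
  rw [xp_un σ ho, zpow_zero, Units.val_one, mul_one]

theorem xp_one {o : σ.I} (ho : σ.b o = o) : σ.xp o 1 = σ.x o := by
  rw [xp_un σ ho, zpow_one, c_un]

theorem xp_neg_one {o : σ.I} (ho : σ.b o = o) : σ.xp o (-1) = star (σ.x o) := by
  rw [xp_un σ ho, zpow_neg_one, c_uninv]

theorem xp_add {o : σ.I} (ho : σ.b o = o) (m n : ℤ) :
    σ.xp o m * σ.xp o n = σ.xp o (m + n) := xp_add' σ ho m n

theorem xp_star {o : σ.I} (ho : σ.b o = o) (n : ℤ) : star (σ.xp o n) = σ.xp o (-n) := xp_star' σ ho n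

theorem c_xp {o : σ.I} (ho : σ.b o = o) (n : ℤ) :
    σ.c o * σ.xp o n = σ.xp o n ∧ σ.xp o n * σ.c o = σ.xp o n := c_xp' σ ho n

theorem xp_nonlau {o : σ.I} (ho : σ.b o = o) (hl : ¬ σ.lau o) (n : ℤ) : σ.xp o n = σ.c o := by
  have hx : σ.x o = σ.c o := by
    have h := σ.xl o (by rwa [ho])
    rwa [ho] at h
  have hu : un σ ho = 1 := by
    apply Units.ext
    show σ.x o + (1 - σ.c o) = 1
    rw [hx]
    noncomm_ring
  rw [xp_un σ ho, hu, one_zpow, Units.val_one, mul_one]

theorem lv_zero (o : σ.I) : σ.lv k o 0 = 0 := by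
  rw [Sys.lv, AddMonoidAlgebra.coeff_zero, Finsupp.sum_zero_index]

theorem lv_add (o : σ.I) (f g : LaurentPolynomial k) :
    σ.lv k o (f + g) = σ.lv k o f + σ.lv k o g := lv_add' σ o f g

theorem lv_smul (o : σ.I) (a : k) (f : LaurentPolynomial k) :
    σ.lv k o (a • f) = a • σ.lv k o f := by
  refine ind_single (P := fun f => σ.lv k o (a • f) = a • σ.lv k o f) f ?_ ?_
  · intro p q hp hq
    show σ.lv k o (a • (p + q)) = a • σ.lv k o (p + q)
    rw [smul_add, lv_add', lv_add', smul_add, hp, hq]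
  · intro n b
    show σ.lv k o (a • AddMonoidAlgebra.single n b) = a • σ.lv k o (AddMonoidAlgebra.single n b)
    rw [AddMonoidAlgebra.smul_single, lv_single', lv_single', smul_eq_mul, mul_smul]

theorem lv_C {o : σ.I} (ho : σ.b o = o) (a : k) :
    σ.lv k o (LaurentPolynomial.C a) = a • σ.c o := by
  rw [← LaurentPolynomial.single_eq_C, lv_single', xp_un σ ho, zpow_zero, Units.val_one, mul_one]

theorem lv_T (o : σ.I) (n : ℤ) : σ.lv k o (LaurentPolynomial.T n) = σ.xp o n := by
  rw [LaurentPolynomial.T, lv_single', one_smul]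

theorem lv_single (o : σ.I) (n : ℤ) (a : k) :
    σ.lv k o (AddMonoidAlgebra.single n a) = a • σ.xp o n := lv_single' σ o n a

theorem lv_mul {o : σ.I} (ho : σ.b o = o) (f g : LaurentPolynomial k) :
    σ.lv k o (f * g) = σ.lv k o f * σ.lv k o g := by
  refine ind_single (P := fun f => σ.lv k o (f * g) = σ.lv k o f * σ.lv k o g) f ?_ ?_
  · intro p q hp hq
    show σ.lv k o ((p + q) * g) = σ.lv k o (p + q) * σ.lv k o g
    rw [add_mul, lv_add', lv_add', add_mul, hp, hq]
  · intro m a
    refine ind_single (P := fun g => σ.lv k o (AddMonoidAlgebra.single m a * g)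
      = σ.lv k o (AddMonoidAlgebra.single m a) * σ.lv k o g) g ?_ ?_
    · intro p q hp hq
      show σ.lv k o (AddMonoidAlgebra.single m a * (p + q))
        = σ.lv k o (AddMonoidAlgebra.single m a) * σ.lv k o (p + q)
      rw [mul_add, lv_add', lv_add', mul_add, hp, hq]
    · intro n b
      show σ.lv k o (AddMonoidAlgebra.single m a * AddMonoidAlgebra.single n b)
        = σ.lv k o (AddMonoidAlgebra.single m a) * σ.lv k o (AddMonoidAlgebra.single n b)
      rw [AddMonoidAlgebra.single_mul_single, lv_single', lv_single', lv_single',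
        smul_mul_smul_comm, xp_add' σ ho]

theorem c_lv {o : σ.I} (ho : σ.b o = o) (f : LaurentPolynomial k) :
    σ.c o * σ.lv k o f = σ.lv k o f ∧ σ.lv k o f * σ.c o = σ.lv k o f := by
  refine ind_single (P := fun f => σ.c o * σ.lv k o f = σ.lv k o f ∧ σ.lv k o f * σ.c o
    = σ.lv k o f) f ?_ ?_
  · intro p q hp hq
    show σ.c o * σ.lv k o (p + q) = σ.lv k o (p + q) ∧ σ.lv k o (p + q) * σ.c o
      = σ.lv k o (p + q)
    rw [lv_add', mul_add, add_mul, hp.1, hq.1, hp.2, hq.2]
    exact ⟨rfl, rfl⟩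
  · intro n a
    show σ.c o * σ.lv k o (AddMonoidAlgebra.single n a) = σ.lv k o (AddMonoidAlgebra.single n a) ∧
      σ.lv k o (AddMonoidAlgebra.single n a) * σ.c o = σ.lv k o (AddMonoidAlgebra.single n a)
    have h := c_xp' σ ho n
    rw [lv_single', mul_smul_comm, smul_mul_assoc, h.1, h.2]
    exact ⟨rfl, rfl⟩

theorem lv_star [Algebra ℤ R] {o : σ.I} (ho : σ.b o = o) (f : LaurentPolynomial ℤ) :
    star (σ.lv ℤ o f) = σ.lv ℤ o (LaurentPolynomial.invert f) := by
  have hz : ∀ (a : ℤ) (y : R), star (algebraMap ℤ R a * y) = algebraMap ℤ R a * star y := by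
    intro a y
    rw [star_mul, eq_intCast, star_intCast]
    exact (Int.cast_commute a (star y)).symm
  refine ind_single (P := fun f => star (σ.lv ℤ o f) = σ.lv ℤ o (LaurentPolynomial.invert f))
    f ?_ ?_
  · intro p q hp hq
    show star (σ.lv ℤ o (p + q)) = σ.lv ℤ o (LaurentPolynomial.invert (p + q))
    rw [map_add, lv_add', lv_add', star_add, hp, hq]
  · intro n a
    show star (σ.lv ℤ o (AddMonoidAlgebra.single n a))
      = σ.lv ℤ o (LaurentPolynomial.invert (AddMonoidAlgebra.single n a))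
    have h1 : LaurentPolynomial.invert (AddMonoidAlgebra.single n a : LaurentPolynomial ℤ)
        = AddMonoidAlgebra.single (-n) a := by
      rw [LaurentPolynomial.single_eq_C_mul_T, LaurentPolynomial.single_eq_C_mul_T, map_mul,
        LaurentPolynomial.invert_C, LaurentPolynomial.invert_T]
    rw [h1, lv_single', lv_single', Algebra.smul_def, Algebra.smul_def, hz, xp_star' σ ho]

end Pool.Agent.Work.MP_2b4d3b_al.NE
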