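import Pool.Agent.Work.MP_2b4d3b_al.NE.Defs
import Pool.Agent.Work.MP_2b4d3b_al.NE.SysA

/-
The value map of block matrices is a homomorphism.
PROOF. BM: entries of products of block matrices: (A B) i j = sum_l A i l * B l j, a nonzero term needs b i = b l = b j and in a
block not of Laurent type both are constants (the sum of constants is a constant). ev_add, ev_smul: lv is linear. ev_single: one
term. ev_mul: expand ev A * ev B = sum c_i lv(A i j) c_j* c_l lv(B l m) c_m*; c_j* c_l = 0 unless l = j, where it is c_(b j);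
for A i j nonzero b j = b i, so c_i lv_(b i)(A i j) c_(b i) lv_(b i)(B j m) c_m* (lv over b j = b i), = c_i lv(A i j * B j m) c_m*
by c_lv, lv_mul; sum over j. ev_star: star (c_i lv(f) c_j*) = c_j lv_(b i)(invert f) c_i*, b i = b j when f is nonzero.
ev_diag: diagonal entries 1: c_i lv(1) c_i* = c_i c_(b i) c_i* = c_i c_i*.
-/

set_option linter.unusedVariables false
set_option linter.style.longLine false
set_option linter.unusedSectionVars false

namespace Pool.Agent.Work.MP_2b4d3b_al.NE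

universe u v w u' v' w'

open Finset

variable {R : Type u} [Ring R] [StarRing R] {k : Type v} [CommRing k] [Algebra k R] (σ : Sys R)

private theorem bm_iff {A : Matrix σ.I σ.I (LaurentPolynomial k)} :
    A ∈ σ.BM k ↔ (∀ i j, σ.b i ≠ σ.b j → A i j = 0) ∧
      (∀ i j, ¬ σ.lau (σ.b i) → ∃ a : k, A i j = LaurentPolynomial.C a) := by
  constructor
  · intro h
    refine ⟨fun i j hb => ?_, fun i j hl => ?_⟩
    · by_contra hne
      exact hb (h i j hne).1
    · by_cases hne : A i j = 0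
      · exact ⟨0, by rw [hne, map_zero]⟩
      · rcases (h i j hne).2 with h1 | h1
        · exact absurd h1 hl
        · exact h1
  · rintro ⟨h1, h2⟩ i j hne
    refine ⟨?_, ?_⟩
    · by_contra hb
      exact hne (h1 i j hb)
    · by_cases hl : σ.lau (σ.b i)
      · exact Or.inl hl
      · exact Or.inr (h2 i j hl)

private theorem lv_sum (o : σ.I) {ι : Type} (S : Finset ι) (f : ι → LaurentPolynomial k) :
    σ.lv k o (∑ l ∈ S, f l) = ∑ l ∈ S, σ.lv k o (f l) := by
  classical
  induction S using Finset.induction_on with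
  | empty => rw [Finset.sum_empty, Finset.sum_empty, lv_zero]
  | insert a S ha ih => rw [Finset.sum_insert ha, Finset.sum_insert ha, lv_add, ih]

private theorem lv_one {o : σ.I} (ho : σ.b o = o) : σ.lv k o 1 = σ.c o := by
  rw [← LaurentPolynomial.T_zero, lv_T, xp_zero σ ho]

private theorem sum_C {ι : Type} (S : Finset ι) (f : ι → LaurentPolynomial k)
    (h : ∀ l, ∃ a : k, f l = LaurentPolynomial.C a) :
    ∃ a : k, ∑ l ∈ S, f l = LaurentPolynomial.C a := by
  choose g hg using h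
  exact ⟨∑ l ∈ S, g l, by rw [map_sum]; exact Finset.sum_congr rfl fun l _ => hg l⟩

theorem BM_zero : (0 : Matrix σ.I σ.I (LaurentPolynomial k)) ∈ σ.BM k := by
  rw [bm_iff]
  exact ⟨fun i j _ => rfl, fun i j _ => ⟨0, by rw [map_zero]; rfl⟩⟩

theorem BM_one : (1 : Matrix σ.I σ.I (LaurentPolynomial k)) ∈ σ.BM k := by
  rw [bm_iff]
  refine ⟨fun i j hb => ?_, fun i j _ => ?_⟩
  · exact Matrix.one_apply_ne fun h => hb (by rw [h])
  · by_cases h : i = j
    · exact ⟨1, by rw [h, Matrix.one_apply_eq, map_one]⟩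
    · exact ⟨0, by rw [Matrix.one_apply_ne h, map_zero]⟩

theorem BM_add {A B : Matrix σ.I σ.I (LaurentPolynomial k)} (hA : A ∈ σ.BM k) (hB : B ∈ σ.BM k) :
    A + B ∈ σ.BM k := by
  rw [bm_iff] at *
  refine ⟨fun i j hb => ?_, fun i j hl => ?_⟩
  · rw [Matrix.add_apply, hA.1 i j hb, hB.1 i j hb, add_zero]
  · obtain ⟨a, ha⟩ := hA.2 i j hl
    obtain ⟨b, hb⟩ := hB.2 i j hl
    exact ⟨a + b, by rw [Matrix.add_apply, ha, hb, map_add]⟩

theorem BM_neg {A : Matrix σ.I σ.I (LaurentPolynomial k)} (hA : A ∈ σ.BM k) : -A ∈ σ.BM k := by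
  rw [bm_iff] at *
  refine ⟨fun i j hb => ?_, fun i j hl => ?_⟩
  · rw [Matrix.neg_apply, hA.1 i j hb, neg_zero]
  · obtain ⟨a, ha⟩ := hA.2 i j hl
    exact ⟨-a, by rw [Matrix.neg_apply, ha, map_neg]⟩

theorem BM_smul (a : k) {A : Matrix σ.I σ.I (LaurentPolynomial k)} (hA : A ∈ σ.BM k) :
    a • A ∈ σ.BM k := by
  rw [bm_iff] at *
  refine ⟨fun i j hb => ?_, fun i j hl => ?_⟩
  · rw [Matrix.smul_apply, hA.1 i j hb, smul_zero]
  · obtain ⟨c, hc⟩ := hA.2 i j hl
    exact ⟨a * c, by rw [Matrix.smul_apply, hc, LaurentPolynomial.smul_eq_C_mul, map_mul]⟩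

theorem BM_mul {A B : Matrix σ.I σ.I (LaurentPolynomial k)} (hA : A ∈ σ.BM k) (hB : B ∈ σ.BM k) :
    A * B ∈ σ.BM k := by
  rw [bm_iff] at *
  refine ⟨fun i j hb => ?_, fun i j hl => ?_⟩
  · rw [Matrix.mul_apply]
    refine Finset.sum_eq_zero fun l _ => ?_
    by_cases h : σ.b i = σ.b l
    · rw [hB.1 l j (h ▸ hb), mul_zero]
    · rw [hA.1 i l h, zero_mul]
  · rw [Matrix.mul_apply]
    refine sum_C _ _ fun l => ?_
    by_cases h : σ.b i = σ.b l
    · obtain ⟨a, ha⟩ := hA.2 i l hl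
      obtain ⟨b, hb⟩ := hB.2 l j (h ▸ hl)
      exact ⟨a * b, by rw [ha, hb, map_mul]⟩
    · exact ⟨0, by rw [hA.1 i l h, zero_mul, map_zero]⟩

theorem BM_diag (D : Finset σ.I) :
    (Matrix.diagonal fun i => if i ∈ D then (1 : LaurentPolynomial k) else 0) ∈ σ.BM k := by
  rw [bm_iff]
  refine ⟨fun i j hb => ?_, fun i j _ => ?_⟩
  · exact Matrix.diagonal_apply_ne _ fun h => hb (by rw [h])
  · by_cases h : i = j
    · subst h
      by_cases hD : i ∈ D
      · exact ⟨1, by rw [Matrix.diagonal_apply_eq, if_pos hD, map_one]⟩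
      · exact ⟨0, by rw [Matrix.diagonal_apply_eq, if_neg hD, map_zero]⟩
    · exact ⟨0, by rw [Matrix.diagonal_apply_ne _ h, map_zero]⟩

theorem BM_single {i j : σ.I} (hb : σ.b i = σ.b j) {f : LaurentPolynomial k}
    (hf : σ.lau (σ.b i) ∨ ∃ a : k, f = LaurentPolynomial.C a) :
    Matrix.single i j f ∈ σ.BM k := by
  intro i' j' hne
  rw [Matrix.single_apply] at hne ⊢
  by_cases h : i = i' ∧ j = j'
  · obtain ⟨rfl, rfl⟩ := h
    refine ⟨hb, ?_⟩
    rw [if_pos ⟨rfl, rfl⟩]
    exact hf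
  · exact absurd (if_neg h) hne

theorem BM_star {A : Matrix σ.I σ.I (LaurentPolynomial k)} (hA : A ∈ σ.BM k) :
    (A.map LaurentPolynomial.invert).transpose ∈ σ.BM k := by
  rw [bm_iff] at *
  refine ⟨fun i j hb => ?_, fun i j hl => ?_⟩
  · rw [Matrix.transpose_apply, Matrix.map_apply, hA.1 j i (Ne.symm hb), map_zero]
  · rw [Matrix.transpose_apply, Matrix.map_apply]
    by_cases h : σ.b i = σ.b j
    · obtain ⟨a, ha⟩ := hA.2 j i (h ▸ hl)
      exact ⟨a, by rw [ha, LaurentPolynomial.invert_C]⟩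
    · exact ⟨0, by rw [hA.1 j i (Ne.symm h), map_zero, map_zero]⟩

theorem ev_zero : σ.ev k 0 = 0 := by
  unfold Sys.ev
  refine Finset.sum_eq_zero fun i _ => Finset.sum_eq_zero fun j _ => ?_
  rw [Matrix.zero_apply, lv_zero, mul_zero, zero_mul]

theorem ev_add (A B : Matrix σ.I σ.I (LaurentPolynomial k)) :
    σ.ev k (A + B) = σ.ev k A + σ.ev k B := by
  unfold Sys.ev
  rw [← Finset.sum_add_distrib]
  refine Finset.sum_congr rfl fun i _ => ?_
  rw [← Finset.sum_add_distrib]
  refine Finset.sum_congr rfl fun j _ => ?_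
  rw [Matrix.add_apply, lv_add, mul_add, add_mul]

theorem ev_smul (a : k) (A : Matrix σ.I σ.I (LaurentPolynomial k)) :
    σ.ev k (a • A) = a • σ.ev k A := by
  unfold Sys.ev
  rw [Finset.smul_sum]
  refine Finset.sum_congr rfl fun i _ => ?_
  rw [Finset.smul_sum]
  refine Finset.sum_congr rfl fun j _ => ?_
  rw [Matrix.smul_apply, lv_smul, mul_smul_comm, smul_mul_assoc]

theorem ev_single (i j : σ.I) (f : LaurentPolynomial k) :
    σ.ev k (Matrix.single i j f) = σ.c i * σ.lv k (σ.b i) f * star (σ.c j) := by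
  unfold Sys.ev
  rw [Finset.sum_eq_single i, Finset.sum_eq_single j]
  · rw [Matrix.single_apply, if_pos ⟨rfl, rfl⟩]
  · intro j' _ hj
    rw [Matrix.single_apply, if_neg fun h => hj h.2.symm, lv_zero, mul_zero, zero_mul]
  · intro h
    exact absurd (Finset.mem_univ _) h
  · intro i' _ hi
    refine Finset.sum_eq_zero fun j' _ => ?_
    rw [Matrix.single_apply, if_neg fun h => hi h.1.symm, lv_zero, mul_zero, zero_mul]
  · intro h
    exact absurd (Finset.mem_univ _) h

theorem ev_mul {A B : Matrix σ.I σ.I (LaurentPolynomial k)} (hA : A ∈ σ.BM k)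
    (hB : B ∈ σ.BM k) : σ.ev k (A * B) = σ.ev k A * σ.ev k B := by
  rw [bm_iff] at hA hB
  have key : ∀ i j l m, (σ.c i * σ.lv k (σ.b i) (A i j) * star (σ.c j)) *
      (σ.c l * σ.lv k (σ.b l) (B l m) * star (σ.c m)) =
      if l = j then σ.c i * σ.lv k (σ.b i) (A i j * B j m) * star (σ.c m) else 0 := by
    intro i j l m
    by_cases hlj : l = j
    · subst hlj
      rw [if_pos rfl]
      by_cases hb : σ.b i = σ.b l
      · have e1 : (σ.c i * σ.lv k (σ.b i) (A i l) * star (σ.c l)) *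
            (σ.c l * σ.lv k (σ.b l) (B l m) * star (σ.c m)) =
            σ.c i * (σ.lv k (σ.b i) (A i l) * ((star (σ.c l) * σ.c l) *
              σ.lv k (σ.b l) (B l m))) * star (σ.c m) := by
          simp only [mul_assoc]
        rw [e1, σ.cc, (c_lv σ (σ.bb l) (B l m)).1, ← hb, ← lv_mul σ (σ.bb i)]
      · rw [hA.1 i l hb, lv_zero, zero_mul, lv_zero]
        simp only [mul_zero, zero_mul]
    · rw [if_neg hlj]
      have e1 : (σ.c i * σ.lv k (σ.b i) (A i j) * star (σ.c j)) *
            (σ.c l * σ.lv k (σ.b l) (B l m) * star (σ.c m)) =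
            σ.c i * (σ.lv k (σ.b i) (A i j) * ((star (σ.c j) * σ.c l) *
              σ.lv k (σ.b l) (B l m))) * star (σ.c m) := by
          simp only [mul_assoc]
      rw [e1, σ.co j l (Ne.symm hlj)]
      simp only [mul_zero, zero_mul]
  unfold Sys.ev
  rw [Finset.sum_mul]
  refine Finset.sum_congr rfl fun i _ => ?_
  rw [Finset.sum_mul]
  have e2 : ∀ j, (σ.c i * σ.lv k (σ.b i) (A i j) * star (σ.c j)) *
      (∑ l, ∑ m, σ.c l * σ.lv k (σ.b l) (B l m) * star (σ.c m)) =
      ∑ m, σ.c i * σ.lv k (σ.b i) (A i j * B j m) * star (σ.c m) := by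
    intro j
    rw [Finset.mul_sum, Finset.sum_eq_single j]
    · rw [Finset.mul_sum]
      refine Finset.sum_congr rfl fun m _ => ?_
      rw [key, if_pos rfl]
    · intro l _ hl
      rw [Finset.mul_sum]
      refine Finset.sum_eq_zero fun m _ => ?_
      rw [key, if_neg hl]
    · intro h
      exact absurd (Finset.mem_univ _) h
  rw [Finset.sum_congr rfl fun j _ => e2 j, Finset.sum_comm]
  refine Finset.sum_congr rfl fun m _ => ?_
  rw [Matrix.mul_apply, lv_sum, Finset.mul_sum, Finset.sum_mul]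

theorem ev_diag (D : Finset σ.I) :
    σ.ev k (Matrix.diagonal fun i => if i ∈ D then (1 : LaurentPolynomial k) else 0) =
      σ.dg D := by
  unfold Sys.ev Sys.dg
  have e1 : ∀ i, (∑ j, σ.c i * σ.lv k (σ.b i)
      ((Matrix.diagonal fun i => if i ∈ D then (1 : LaurentPolynomial k) else 0) i j) *
      star (σ.c j)) = if i ∈ D then σ.c i * star (σ.c i) else 0 := by
    intro i
    rw [Finset.sum_eq_single i]
    · rw [Matrix.diagonal_apply_eq]
      by_cases h : i ∈ D
      · rw [if_pos h, if_pos h, lv_one σ (σ.bb i), σ.cb]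
      · rw [if_neg h, if_neg h, lv_zero, mul_zero, zero_mul]
    · intro j _ hj
      rw [Matrix.diagonal_apply_ne _ (Ne.symm hj), lv_zero, mul_zero, zero_mul]
    · intro h
      exact absurd (Finset.mem_univ _) h
  rw [Finset.sum_congr rfl fun i _ => e1 i, Finset.sum_ite_mem, Finset.univ_inter]

theorem ev_star [Algebra ℤ R] {A : Matrix σ.I σ.I (LaurentPolynomial ℤ)} (hA : A ∈ σ.BM ℤ) :
    star (σ.ev ℤ A) = σ.ev ℤ (A.map LaurentPolynomial.invert).transpose := by
  rw [bm_iff] at hA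
  unfold Sys.ev
  rw [star_sum, Finset.sum_congr rfl fun i _ => star_sum _ _, Finset.sum_comm]
  refine Finset.sum_congr rfl fun i _ => Finset.sum_congr rfl fun j _ => ?_
  rw [star_mul, star_mul, star_star, Matrix.transpose_apply, Matrix.map_apply,
    lv_star σ (σ.bb j), ← mul_assoc]
  by_cases h : σ.b j = σ.b i
  · rw [h]
  · rw [hA.1 j i h, map_zero, lv_zero, lv_zero]

end Pool.Agent.Work.MP_2b4d3b_al.NE
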