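import Pool.Agent.Work.MP_2b4d3b_al.NE.Defs
import Pool.Agent.Work.MP_2b4d3b_al.NE.SysB

/-
Spans, independence. PROOF. mem_spn_iff: every basis element w (i, j, n) is ev (single i j (T n)) (for a block not of Laurent type
n = 0 and T 0 = 1 is constant), values of block matrices are closed under sums and scalars; conversely a block matrix is the sum of
its entries single i j (A i j) and each entry is a finite sum of a T n (only n = 0 in blocks not of Laurent type).
ind_of_bind: multiply a relation sum f_t w_t = 0 on the left by c_i* and on the right by c_j (b i = b j): only the t = (i, j, n)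
remain and give c_(b i) (sum f xp n) c_(b i) = sum f_(i,j,n) xp_(b i) n = 0 (xp n lies in the corner of c_(b i)), so BInd applies.
ev_inj: (Ind) ev is linear; for A in BM with ev A = 0 write ev A as a combination of the w_t with coefficients (A i j).coeff n;
by independence all coefficients vanish (also directly from BInd; note ind gives bind: the relation a • c_(b i) = 0 is a relation
for w (b i, b i, 0), since w (b i, b i, n) = xp (b i) n). spn_mul, spn_star by mem_spn_iff, ev_mul, ev_star.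
rng_iff: generators of rng: c i = w (i, b i, 0), x (b i) = w (b i, b i, 1) or c (b i) when not lau, stars by spn_star; conversely
every w_t is a product of c_i, powers of x or star x, and star c_j, and a Z-combination is in the subring (the Z-algebra structure on R is an
arbitrary instance: n • a is the integer multiple, e.g. by Subsingleton (Algebra Z R), or algebraMap n = (n : R) eq_intCast). rng_le: the
generators of rng are in spn k, spn_mul. rng_star: the set of generators is star closed.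
-/

set_option linter.unusedVariables false
set_option linter.style.longLine false
set_option linter.unusedSectionVars false

namespace Pool.Agent.Work.MP_2b4d3b_al.NE

universe u v w u' v' w'

open Finset

variable {R : Type u} [Ring R] [StarRing R] {k : Type v} [CommRing k] [Algebra k R] (σ : Sys R)

private theorem term_mem {i j : σ.I} (hb : σ.b i = σ.b j) {f : LaurentPolynomial k}
    (hf : σ.lau (σ.b i) ∨ ∃ a : k, f = LaurentPolynomial.C a) :
    σ.c i * σ.lv k (σ.b i) f * star (σ.c j) ∈ σ.spn k := by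
  rcases hf with hl | ⟨a, rfl⟩
  · refine LaurentPolynomial.induction_on' (motive := fun f =>
      σ.c i * σ.lv k (σ.b i) f * star (σ.c j) ∈ σ.spn k) f ?_ ?_
    · intro p q hp hq
      show σ.c i * σ.lv k (σ.b i) (p + q) * star (σ.c j) ∈ σ.spn k
      rw [lv_add, mul_add, add_mul]
      exact (σ.spn k).add_mem hp hq
    · intro n a
      show σ.c i * σ.lv k (σ.b i) (LaurentPolynomial.C a * LaurentPolynomial.T n) * star (σ.c j)
        ∈ σ.spn k
      rw [← LaurentPolynomial.single_eq_C_mul_T, lv_single, mul_smul_comm, smul_mul_assoc]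
      refine (σ.spn k).smul_mem a (Submodule.subset_span ⟨⟨(i, j, n), hb, Or.inl hl⟩, rfl⟩)
  · rw [lv_C σ (σ.bb i), ← xp_zero σ (σ.bb i), mul_smul_comm, smul_mul_assoc]
    refine (σ.spn k).smul_mem a (Submodule.subset_span ⟨⟨(i, j, 0), hb, Or.inr rfl⟩, rfl⟩)

private theorem spn_iff' {a : R} : a ∈ σ.spn k ↔ ∃ A ∈ σ.BM k, σ.ev k A = a := by
  constructor
  · intro h
    refine Submodule.span_induction (p := fun a _ => ∃ A ∈ σ.BM k, σ.ev k A = a) ?_ ?_ ?_ ?_ h
    · rintro _ ⟨⟨⟨i, j, n⟩, hb, hn⟩, rfl⟩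
      refine ⟨Matrix.single i j (LaurentPolynomial.T n), BM_single σ hb ?_, ?_⟩
      · rcases hn with hl | hn
        · exact Or.inl hl
        · right
          have hn' : n = 0 := hn
          exact ⟨1, by rw [hn', LaurentPolynomial.T_zero, map_one]⟩
      · rw [ev_single, lv_T]
        rfl
    · exact ⟨0, BM_zero σ, ev_zero σ⟩
    · rintro _ _ _ _ ⟨A, hA, rfl⟩ ⟨B, hB, rfl⟩
      exact ⟨A + B, BM_add σ hA hB, ev_add σ A B⟩
    · rintro a _ _ ⟨A, hA, rfl⟩
      exact ⟨a • A, BM_smul σ a hA, ev_smul σ a A⟩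
  · rintro ⟨A, hA, rfl⟩
    rw [Sys.ev]
    refine (σ.spn k).sum_mem fun i _ => (σ.spn k).sum_mem fun j _ => ?_
    by_cases h0 : A i j = 0
    · rw [h0, lv_zero, mul_zero, zero_mul]
      exact (σ.spn k).zero_mem
    · obtain ⟨h1, h2⟩ := hA i j h0
      exact term_mem σ h1 h2

open Classical in
private theorem wcut {i j : σ.I} (hb : σ.b i = σ.b j) (t : σ.Bx) :
    star (σ.c i) * σ.w t * σ.c j
      = if t.1.1 = i ∧ t.1.2.1 = j then σ.xp (σ.b i) t.1.2.2 else 0 := by
  obtain ⟨⟨i', j', n⟩, hb', hn⟩ := t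
  show star (σ.c i) * (σ.c i' * σ.xp (σ.b i') n * star (σ.c j')) * σ.c j
    = if i' = i ∧ j' = j then σ.xp (σ.b i) n else 0
  by_cases h1 : i' = i
  · by_cases h2 : j' = j
    · rw [if_pos ⟨h1, h2⟩]
      subst h1
      subst h2
      calc star (σ.c i') * (σ.c i' * σ.xp (σ.b i') n * star (σ.c j')) * σ.c j'
          = (star (σ.c i') * σ.c i') * σ.xp (σ.b i') n * (star (σ.c j') * σ.c j') := by
            noncomm_ring
        _ = σ.xp (σ.b i') n := by
            rw [σ.cc, σ.cc, ← hb, (c_xp σ (σ.bb i') n).1, (c_xp σ (σ.bb i') n).2]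
    · rw [if_neg (fun h => h2 h.2)]
      calc star (σ.c i) * (σ.c i' * σ.xp (σ.b i') n * star (σ.c j')) * σ.c j
          = star (σ.c i) * σ.c i' * σ.xp (σ.b i') n * (star (σ.c j') * σ.c j) := by
            noncomm_ring
        _ = 0 := by rw [σ.co j' j h2, mul_zero]
  · rw [if_neg (fun h => h1 h.1)]
    calc star (σ.c i) * (σ.c i' * σ.xp (σ.b i') n * star (σ.c j')) * σ.c j
        = (star (σ.c i) * σ.c i') * σ.xp (σ.b i') n * (star (σ.c j') * σ.c j) := by
          noncomm_ring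
      _ = 0 := by rw [σ.co i i' (Ne.symm h1), zero_mul, zero_mul]

private theorem Bx_ext {t t' : σ.Bx} (h1 : t.1.1 = t'.1.1) (h2 : t.1.2.1 = t'.1.2.1)
    (h3 : t.1.2.2 = t'.1.2.2) : t = t' :=
  Subtype.ext (Prod.ext h1 (Prod.ext h2 h3))

/-- the cut map -/
private noncomputable def cut (k : Type v) [CommRing k] [Algebra k R] (σ : Sys R) (i j : σ.I) :
    R →ₗ[k] R := (LinearMap.mulRight k (σ.c j)).comp (LinearMap.mulLeft k (star (σ.c i)))

private theorem cut_apply (i j : σ.I) (a : R) : cut k σ i j a = star (σ.c i) * a * σ.c j := rfl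

private theorem lc_eq (f : σ.Bx →₀ k) :
    (f.sum fun t a => a • σ.w t) = Finsupp.linearCombination k σ.w f := rfl

open Classical in
/-- the projection to the coefficients at i, j -/
private noncomputable def prj (k : Type v) [CommRing k] (σ : Sys R) (i j : σ.I) :
    (σ.Bx →₀ k) →ₗ[k] (ℤ →₀ k) :=
  Finsupp.linearCombination k fun t : σ.Bx =>
    if t.1.1 = i ∧ t.1.2.1 = j then Finsupp.single t.1.2.2 (1 : k) else 0

private theorem ind_of_bind' (h : σ.BInd k) : σ.Ind k := by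
  classical
  intro f hf
  rw [lc_eq] at hf
  ext t0
  have hb' : σ.b t0.1.1 = σ.b t0.1.2.1 := t0.2.1
  have hcut := congrArg (cut k σ t0.1.1 t0.1.2.1) hf
  rw [map_zero] at hcut
  by_cases hl : σ.lau (σ.b t0.1.1)
  · have h1 : (cut k σ t0.1.1 t0.1.2.1).comp (Finsupp.linearCombination k σ.w)
        = (Finsupp.linearCombination k (σ.xp (σ.b t0.1.1))).comp (prj k σ t0.1.1 t0.1.2.1) := by
      refine Finsupp.lhom_ext fun t a => ?_
      rw [LinearMap.comp_apply, LinearMap.comp_apply, prj, Finsupp.linearCombination_single,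
        Finsupp.linearCombination_single, map_smul, map_smul, cut_apply, wcut σ hb']
      by_cases hc : t.1.1 = t0.1.1 ∧ t.1.2.1 = t0.1.2.1
      · rw [if_pos hc, if_pos hc, Finsupp.linearCombination_single, one_smul]
      · rw [if_neg hc, if_neg hc, map_zero]
    have h2 : Finsupp.linearCombination k (σ.xp (σ.b t0.1.1))
        (prj k σ t0.1.1 t0.1.2.1 f) = 0 := by
      rw [← LinearMap.comp_apply, ← h1]
      exact hcut
    have h3 : prj k σ t0.1.1 t0.1.2.1 f = 0 := h.2 t0.1.1 hl _ h2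
    have h4 : (Finsupp.lapply t0.1.2.2).comp (prj k σ t0.1.1 t0.1.2.1)
        = Finsupp.lapply (R := k) (M := k) t0 := by
      refine Finsupp.lhom_ext fun t a => ?_
      rw [LinearMap.comp_apply, prj, Finsupp.linearCombination_single, map_smul,
        Finsupp.lapply_apply, Finsupp.lapply_apply]
      by_cases hc : t.1.1 = t0.1.1 ∧ t.1.2.1 = t0.1.2.1
      · rw [if_pos hc]
        by_cases hn' : t.1.2.2 = t0.1.2.2
        · have ht : t = t0 := Bx_ext σ hc.1 hc.2 hn'
          rw [hn', Finsupp.single_eq_same, ht, Finsupp.single_eq_same, smul_eq_mul, mul_one]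
        · have ht : t0 ≠ t := by
            rintro rfl
            exact hn' rfl
          rw [Finsupp.single_eq_of_ne (Ne.symm hn'), Finsupp.single_eq_of_ne ht, smul_zero]
      · have ht : t0 ≠ t := by
          rintro rfl
          exact hc ⟨rfl, rfl⟩
        rw [if_neg hc, Finsupp.single_eq_of_ne ht, Finsupp.zero_apply, smul_zero]
    have h5 := LinearMap.congr_fun h4 f
    rw [LinearMap.comp_apply, h3, map_zero] at h5
    exact h5.symm
  · have h1 : (cut k σ t0.1.1 t0.1.2.1).comp (Finsupp.linearCombination k σ.w)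
        = (LinearMap.toSpanSingleton k R (σ.c (σ.b t0.1.1))).comp
          (Finsupp.lapply (R := k) (M := k) t0) := by
      refine Finsupp.lhom_ext fun t a => ?_
      rw [LinearMap.comp_apply, LinearMap.comp_apply, Finsupp.linearCombination_single,
        map_smul, cut_apply, wcut σ hb', Finsupp.lapply_apply, LinearMap.toSpanSingleton_apply]
      have hn0 : t0.1.2.2 = 0 := by
        rcases t0.2.2 with h | h
        · exact absurd h hl
        · exact h
      by_cases hc : t.1.1 = t0.1.1 ∧ t.1.2.1 = t0.1.2.1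
      · have htn : t.1.2.2 = 0 := by
          rcases t.2.2 with h | h
          · rw [hc.1] at h
            exact absurd h hl
          · exact h
        have ht : t = t0 := Bx_ext σ hc.1 hc.2 (htn.trans hn0.symm)
        rw [if_pos hc, htn, xp_zero σ (σ.bb _), ht, Finsupp.single_eq_same]
      · have ht : t0 ≠ t := by
          rintro rfl
          exact hc ⟨rfl, rfl⟩
        rw [if_neg hc, Finsupp.single_eq_of_ne ht, smul_zero, zero_smul]
    have h2 := LinearMap.congr_fun h1 f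
    rw [LinearMap.comp_apply, hcut, LinearMap.comp_apply, Finsupp.lapply_apply,
      LinearMap.toSpanSingleton_apply] at h2
    exact h.1 t0.1.1 _ h2.symm

private theorem cbb (i : σ.I) : star (σ.c (σ.b i)) = σ.c (σ.b i) := (c_base σ (σ.bb i)).1

private theorem xp_bb (i : σ.I) (n : ℤ) :
    σ.c (σ.b i) * σ.xp (σ.b (σ.b i)) n * star (σ.c (σ.b i)) = σ.xp (σ.b i) n := by
  have h : ∀ o, σ.b o = o → σ.c o * σ.xp (σ.b o) n * star (σ.c o) = σ.xp o n := by
    intro o ho
    rw [ho, (c_base σ ho).1, (c_xp σ ho n).1, (c_xp σ ho n).2]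
  exact h _ (σ.bb i)

private theorem bind_of_ind' (h : σ.Ind k) : σ.BInd k := by
  constructor
  · intro i a ha
    let t : σ.Bx := ⟨(σ.b i, σ.b i, 0), rfl, Or.inr rfl⟩
    have h1 : ((Finsupp.single t a).sum fun t a => a • σ.w t) = 0 := by
      refine (Finsupp.sum_single_index (h := fun t a => a • σ.w t) (zero_smul k _)).trans ?_
      show a • (σ.c (σ.b i) * σ.xp (σ.b (σ.b i)) 0 * star (σ.c (σ.b i))) = 0
      rw [xp_bb, xp_zero σ (σ.bb i), ha]
    exact Finsupp.single_eq_zero.mp (h _ h1)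
  · intro i hl f hf
    have hl' : σ.lau (σ.b (σ.b i)) := by rwa [σ.bb]
    let e : ℤ → σ.Bx := fun n => ⟨(σ.b i, σ.b i, n), rfl, Or.inl hl'⟩
    have he : Function.Injective e := by
      intro m n hmn
      have := congrArg (fun t : σ.Bx => t.1.2.2) hmn
      exact this
    have h1 : ((Finsupp.mapDomain e f).sum fun t a => a • σ.w t) = 0 := by
      refine (Finsupp.sum_mapDomain_index (h := fun t a => a • σ.w t) (fun _ => zero_smul _ _)
        (fun _ _ _ => add_smul _ _ _)).trans ?_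
      have h2 : ∀ n, σ.w (e n) = σ.xp (σ.b i) n := fun n => xp_bb σ i n
      simp only [h2]
      exact hf
    have h3 := h _ h1
    exact Finsupp.mapDomain_injective he (by rw [h3, Finsupp.mapDomain_zero])

private theorem lv_inj' (h : σ.Ind k) (i : σ.I) {f : LaurentPolynomial k}
    (hf : σ.lau (σ.b i) ∨ ∃ a : k, f = LaurentPolynomial.C a)
    (h0 : σ.lv k (σ.b i) f = 0) : f = 0 := by
  have hB := bind_of_ind' σ h
  rcases hf with hl | ⟨a, rfl⟩
  · exact AddMonoidAlgebra.coeff_eq_zero.mp (hB.2 i hl _ h0)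
  · rw [lv_C σ (σ.bb i)] at h0
    rw [hB.1 i a h0, map_zero]

private theorem ev_cut {A : Matrix σ.I σ.I (LaurentPolynomial k)} {i j : σ.I}
    (hb : σ.b i = σ.b j) : star (σ.c i) * σ.ev k A * σ.c j = σ.lv k (σ.b i) (A i j) := by
  rw [Sys.ev, Finset.mul_sum, Finset.sum_mul, Finset.sum_eq_single i]
  · rw [Finset.mul_sum, Finset.sum_mul, Finset.sum_eq_single j]
    · calc star (σ.c i) * (σ.c i * σ.lv k (σ.b i) (A i j) * star (σ.c j)) * σ.c j
          = (star (σ.c i) * σ.c i) * σ.lv k (σ.b i) (A i j) * (star (σ.c j) * σ.c j) := by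
            noncomm_ring
        _ = σ.lv k (σ.b i) (A i j) := by
            rw [σ.cc, σ.cc, ← hb, (c_lv σ (σ.bb i) _).1, (c_lv σ (σ.bb i) _).2]
    · intro j' _ hj
      calc star (σ.c i) * (σ.c i * σ.lv k (σ.b i) (A i j') * star (σ.c j')) * σ.c j
          = star (σ.c i) * σ.c i * σ.lv k (σ.b i) (A i j') * (star (σ.c j') * σ.c j) := by
            noncomm_ring
        _ = 0 := by rw [σ.co j' j hj, mul_zero]
    · intro hj
      exact absurd (Finset.mem_univ j) hj
  · intro i' _ hi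
    rw [Finset.mul_sum, Finset.sum_mul]
    refine Finset.sum_eq_zero fun j' _ => ?_
    calc star (σ.c i) * (σ.c i' * σ.lv k (σ.b i') (A i' j') * star (σ.c j')) * σ.c j
        = (star (σ.c i) * σ.c i') * σ.lv k (σ.b i') (A i' j') * (star (σ.c j') * σ.c j) := by
          noncomm_ring
      _ = 0 := by rw [σ.co i i' (Ne.symm hi), zero_mul, zero_mul]
  · intro hi
    exact absurd (Finset.mem_univ i) hi

private theorem lv_sub' (o : σ.I) (f g : LaurentPolynomial k) :
    σ.lv k o (f - g) = σ.lv k o f - σ.lv k o g := by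
  have h := lv_add σ o (f - g) g
  rw [sub_add_cancel] at h
  rw [h, add_sub_cancel_right]

private theorem ev_inj' (h : σ.Ind k) {A B : Matrix σ.I σ.I (LaurentPolynomial k)}
    (hA : A ∈ σ.BM k) (hB : B ∈ σ.BM k) (he : σ.ev k A = σ.ev k B) : A = B := by
  ext1 i j
  by_cases hb : σ.b i = σ.b j
  · have h1 : σ.lv k (σ.b i) (A i j - B i j) = 0 := by
      rw [lv_sub', ← ev_cut σ hb, ← ev_cut σ hb, he, sub_self]
    have h2 : σ.lau (σ.b i) ∨ ∃ a : k, A i j - B i j = LaurentPolynomial.C a := by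
      by_cases hl : σ.lau (σ.b i)
      · exact Or.inl hl
      · right
        have hc : ∀ D ∈ σ.BM k, ∃ a : k, D i j = LaurentPolynomial.C a := by
          intro D hD
          by_cases h0 : D i j = 0
          · exact ⟨0, by rw [h0, map_zero]⟩
          · rcases (hD i j h0).2 with h3 | h3
            · exact absurd h3 hl
            · exact h3
        obtain ⟨a, ha⟩ := hc A hA
        obtain ⟨b, hb'⟩ := hc B hB
        exact ⟨a - b, by rw [ha, hb', map_sub]⟩
    exact sub_eq_zero.mp (lv_inj' σ h i h2 h1)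
  · have h1 : ∀ D ∈ σ.BM k, D i j = 0 := by
      intro D hD
      by_contra h0
      exact hb (hD i j h0).1
    rw [h1 A hA, h1 B hB]

private theorem spn_mul' {a b : R} (ha : a ∈ σ.spn k) (hb : b ∈ σ.spn k) : a * b ∈ σ.spn k := by
  obtain ⟨A, hA, rfl⟩ := (spn_iff' σ).mp ha
  obtain ⟨B, hB, rfl⟩ := (spn_iff' σ).mp hb
  exact (spn_iff' σ).mpr ⟨A * B, BM_mul σ hA hB, ev_mul σ hA hB⟩

private theorem c_mem' (i : σ.I) : σ.c i ∈ σ.spn k ∧ star (σ.c i) ∈ σ.spn k := by
  constructor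
  · refine Submodule.subset_span ⟨⟨(i, σ.b i, 0), (σ.bb i).symm, Or.inr rfl⟩, ?_⟩
    show σ.c i * σ.xp (σ.b i) 0 * star (σ.c (σ.b i)) = σ.c i
    rw [xp_zero σ (σ.bb i), cbb, σ.cb, σ.cb]
  · refine Submodule.subset_span ⟨⟨(σ.b i, i, 0), σ.bb i, Or.inr rfl⟩, ?_⟩
    show σ.c (σ.b i) * σ.xp (σ.b (σ.b i)) 0 * star (σ.c i) = star (σ.c i)
    have h : ∀ o, σ.b o = o → σ.c o * σ.xp (σ.b o) 0 = σ.c o := by
      intro o ho
      rw [ho, xp_zero σ ho, (c_base σ ho).2]
    rw [h _ (σ.bb i), ← cbb, ← star_mul, σ.cb]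

private theorem x_mem' (i : σ.I) :
    σ.x (σ.b i) ∈ σ.spn k ∧ star (σ.x (σ.b i)) ∈ σ.spn k := by
  by_cases hl : σ.lau (σ.b i)
  · have hl' : σ.lau (σ.b (σ.b i)) := by rwa [σ.bb]
    constructor
    · refine Submodule.subset_span ⟨⟨(σ.b i, σ.b i, 1), rfl, Or.inl hl'⟩, ?_⟩
      show σ.c (σ.b i) * σ.xp (σ.b (σ.b i)) 1 * star (σ.c (σ.b i)) = σ.x (σ.b i)
      rw [xp_bb, xp_one σ (σ.bb i)]
    · refine Submodule.subset_span ⟨⟨(σ.b i, σ.b i, -1), rfl, Or.inl hl'⟩, ?_⟩
      show σ.c (σ.b i) * σ.xp (σ.b (σ.b i)) (-1) * star (σ.c (σ.b i)) = star (σ.x (σ.b i))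
      rw [xp_bb, xp_neg_one σ (σ.bb i)]
  · rw [σ.xl i hl]
    exact c_mem' σ (σ.b i)

private theorem rng_le' {a : R} (ha : a ∈ σ.rng) : a ∈ σ.spn k := by
  refine NonUnitalSubring.closure_induction (p := fun a _ => a ∈ σ.spn k) ?_ ?_ ?_ ?_ ?_ ha
  · rintro a ⟨i, rfl | rfl | rfl | rfl⟩
    · exact (c_mem' σ i).1
    · exact (c_mem' σ i).2
    · exact (x_mem' σ i).1
    · exact (x_mem' σ i).2
  · exact (σ.spn k).zero_mem
  · intro a b _ _ ha hb
    exact (σ.spn k).add_mem ha hb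
  · intro a _ ha
    exact (σ.spn k).neg_mem ha
  · intro a b _ _ ha hb
    exact spn_mul' σ ha hb

private theorem c_rng (i : σ.I) : σ.c i ∈ σ.rng ∧ star (σ.c i) ∈ σ.rng :=
  ⟨NonUnitalSubring.subset_closure ⟨i, Or.inl rfl⟩,
    NonUnitalSubring.subset_closure ⟨i, Or.inr (Or.inl rfl)⟩⟩

private theorem x_rng (i : σ.I) : σ.x (σ.b i) ∈ σ.rng ∧ star (σ.x (σ.b i)) ∈ σ.rng :=
  ⟨NonUnitalSubring.subset_closure ⟨i, Or.inr (Or.inr (Or.inl rfl))⟩,
    NonUnitalSubring.subset_closure ⟨i, Or.inr (Or.inr (Or.inr rfl))⟩⟩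

private theorem mul_pow_rng {c y : R} (hc : c ∈ σ.rng) (hy : y ∈ σ.rng) (n : ℕ) :
    c * y ^ n ∈ σ.rng := by
  induction n with
  | zero => rw [pow_zero, mul_one]; exact hc
  | succ n ih => rw [pow_succ, ← mul_assoc]; exact σ.rng.mul_mem ih hy

private theorem xp_rng (i : σ.I) (n : ℤ) : σ.xp (σ.b i) n ∈ σ.rng := by
  rcases n with n | n
  · exact mul_pow_rng σ (c_rng σ (σ.b i)).1 (x_rng σ i).1 n
  · exact mul_pow_rng σ (c_rng σ (σ.b i)).1 (x_rng σ i).2 (n + 1)

private theorem spn_sub (S : NonUnitalSubring R) (hs : ∀ a : k, ∀ y ∈ S, a • y ∈ S)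
    (hw : ∀ t, σ.w t ∈ S) {a : R} (h : a ∈ σ.spn k) : a ∈ S := by
  refine Submodule.span_induction (p := fun a _ => a ∈ S) ?_ ?_ ?_ ?_ h
  · rintro _ ⟨t, rfl⟩
    exact hw t
  · exact S.zero_mem
  · intro a b _ _ ha hb
    exact S.add_mem ha hb
  · intro m a _ ha
    exact hs m a ha

private theorem rng_iff' [Algebra ℤ R] {a : R} : a ∈ σ.rng ↔ a ∈ σ.spn ℤ := by
  refine ⟨rng_le' σ, fun h => ?_⟩
  refine spn_sub σ σ.rng ?_ ?_ h
  · intro m a ha
    rw [Algebra.smul_def, eq_intCast, ← zsmul_eq_mul]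
    exact zsmul_mem ha m
  · rintro ⟨⟨i, j, n⟩, hb, hn⟩
    exact σ.rng.mul_mem (σ.rng.mul_mem (c_rng σ i).1 (xp_rng σ i n)) (c_rng σ j).2

theorem mem_spn_iff {a : R} : a ∈ σ.spn k ↔ ∃ A ∈ σ.BM k, σ.ev k A = a := spn_iff' σ

theorem ind_of_bind (h : σ.BInd k) : σ.Ind k := ind_of_bind' σ h

theorem bind_of_ind (h : σ.Ind k) : σ.BInd k := bind_of_ind' σ h

theorem ev_inj (h : σ.Ind k) {A B : Matrix σ.I σ.I (LaurentPolynomial k)} (hA : A ∈ σ.BM k)
    (hB : B ∈ σ.BM k) (he : σ.ev k A = σ.ev k B) : A = B := ev_inj' σ h hA hB he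

theorem lv_inj (h : σ.Ind k) (i : σ.I) {f : LaurentPolynomial k}
    (hf : σ.lau (σ.b i) ∨ ∃ a : k, f = LaurentPolynomial.C a)
    (h0 : σ.lv k (σ.b i) f = 0) : f = 0 := lv_inj' σ h i hf h0

theorem spn_mul {a b : R} (ha : a ∈ σ.spn k) (hb : b ∈ σ.spn k) : a * b ∈ σ.spn k := spn_mul' σ ha hb

theorem spn_star [Algebra ℤ R] {a : R} (ha : a ∈ σ.spn ℤ) : star a ∈ σ.spn ℤ := by
  obtain ⟨A, hA, rfl⟩ := (spn_iff' σ).mp ha
  exact (spn_iff' σ).mpr ⟨_, BM_star σ hA, (ev_star σ hA).symm⟩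

theorem c_mem_spn (i : σ.I) : σ.c i ∈ σ.spn k ∧ star (σ.c i) ∈ σ.spn k := c_mem' σ i

theorem x_mem_spn (i : σ.I) : σ.x (σ.b i) ∈ σ.spn k ∧ star (σ.x (σ.b i)) ∈ σ.spn k := x_mem' σ i

theorem rng_iff [Algebra ℤ R] {a : R} : a ∈ σ.rng ↔ a ∈ σ.spn ℤ := rng_iff' σ

theorem mem_rng_iff [Algebra ℤ R] {a : R} : a ∈ σ.rng ↔ ∃ A ∈ σ.BM ℤ, σ.ev ℤ A = a := (rng_iff' σ).trans (spn_iff' σ)

theorem rng_star {a : R} (ha : a ∈ σ.rng) : star a ∈ σ.rng := by
  refine NonUnitalSubring.closure_induction (p := fun a _ => star a ∈ σ.rng) ?_ ?_ ?_ ?_ ?_ ha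
  · rintro a ⟨i, rfl | rfl | rfl | rfl⟩
    · exact (c_rng σ i).2
    · rw [star_star]
      exact (c_rng σ i).1
    · exact (x_rng σ i).2
    · rw [star_star]
      exact (x_rng σ i).1
  · rw [star_zero]
    exact σ.rng.zero_mem
  · intro a b _ _ ha hb
    rw [star_add]
    exact σ.rng.add_mem ha hb
  · intro a _ ha
    rw [star_neg]
    exact σ.rng.neg_mem ha
  · intro a b _ _ ha hb
    rw [star_mul]
    exact σ.rng.mul_mem hb ha

theorem rng_le {a : R} (ha : a ∈ σ.rng) : a ∈ σ.spn k := rng_le' σ ha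

end Pool.Agent.Work.MP_2b4d3b_al.NE
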