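import Pool.Agent.Work.MP_2b4d3b_al.NE.Defs
import Pool.Agent.Work.MP_2b4d3b_al.NE.SysC

/-
Diagonal projections and maps. PROOF. dg_mul: c_i c_i* c_j c_j* = 0 for i <> j and c_i c_(b i) c_i* = c_i c_i* for i = j.
dg_c: c_i c_i* c_i = c_i c_(b i) = c_i. dg_inj: D is recovered from the matrix diag (ev_diag, ev_inj, 1 <> 0).
corner_elt: p = c_i c_i* = ev (single i i 1); a = ev A, then p a p = ev (single i i 1 * A * single i i 1) =
ev (single i i (A i i)). rng_map, rng_map_surj: closure induction, φ maps the generators of σ.rng onto those of the mapped system. ev_map: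
φ (xp o n) = xp o n of the mapped system (zp: products, powers, star), additive. The cases φ = RingHom.fst / snd are Sys.fst, Sys.snd
(defined by map; (σ.map φ hφ).I is defeq to σ.I).
-/

set_option linter.unusedVariables false
set_option linter.style.longLine false
set_option linter.unusedSectionVars false

namespace Pool.Agent.Work.MP_2b4d3b_al.NE

universe u v w u' v' w'

open Finset

section
variable {R : Type u} [Ring R] [StarRing R] {k : Type v} [CommRing k] [Algebra k R] (σ : Sys R)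

private theorem pc (i : σ.I) : σ.c i * star (σ.c i) * σ.c i = σ.c i := by
  rw [mul_assoc, σ.cc, σ.cb]

private theorem pp (i j : σ.I) : (σ.c i * star (σ.c i)) * (σ.c j * star (σ.c j)) =
    if i = j then σ.c i * star (σ.c i) else 0 := by
  split_ifs with h
  · subst h
    rw [← mul_assoc, pc]
  · rw [mul_assoc, ← mul_assoc (star (σ.c i)), σ.co i j h, zero_mul, mul_zero]

theorem dg_mul (D D' : Finset σ.I) : σ.dg D * σ.dg D' = σ.dg (D ∩ D') := by
  unfold Sys.dg
  rw [Finset.sum_mul_sum, ← Finset.sum_ite_mem]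
  refine Finset.sum_congr rfl fun i _ => ?_
  rw [Finset.sum_congr rfl fun j _ => pp σ i j, Finset.sum_ite_eq]

theorem dg_star (D : Finset σ.I) : star (σ.dg D) = σ.dg D := by
  unfold Sys.dg
  rw [star_sum]
  refine Finset.sum_congr rfl fun i _ => ?_
  rw [star_mul, star_star]

theorem dg_prj (D : Finset σ.I) : IsPrj (σ.dg D) := by
  have h := dg_mul σ D D
  rw [Finset.inter_self] at h
  exact ⟨h, dg_star σ D⟩

theorem dg_mem (D : Finset σ.I) : σ.dg D ∈ σ.spn k := by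
  unfold Sys.dg
  refine Submodule.sum_mem _ fun i _ => Submodule.subset_span ?_
  refine ⟨⟨(i, i, 0), rfl, Or.inr rfl⟩, ?_⟩
  show σ.c i * σ.xp (σ.b i) 0 * star (σ.c i) = _
  rw [xp_zero σ (σ.bb i), σ.cb]

theorem dg_c {D : Finset σ.I} {i : σ.I} (h : i ∈ D) : σ.dg D * σ.c i = σ.c i := by
  unfold Sys.dg
  rw [Finset.sum_mul, Finset.sum_eq_single i]
  · exact pc σ i
  · intro j _ hj
    rw [mul_assoc, σ.co j i hj, mul_zero]
  · intro hi
    exact absurd h hi

theorem dg_c_zero {D : Finset σ.I} {i : σ.I} (h : i ∉ D) :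
    σ.dg D * σ.c i = 0 ∧ star (σ.c i) * σ.dg D = 0 := by
  unfold Sys.dg
  constructor
  · rw [Finset.sum_mul]
    refine Finset.sum_eq_zero fun j hj => ?_
    have hji : j ≠ i := fun e => h (e ▸ hj)
    rw [mul_assoc, σ.co j i hji, mul_zero]
  · rw [Finset.mul_sum]
    refine Finset.sum_eq_zero fun j hj => ?_
    have hij : i ≠ j := fun e => h (e ▸ hj)
    rw [← mul_assoc, σ.co i j hij, zero_mul]

theorem dg_union {D D' : Finset σ.I} (h : Disjoint D D') : σ.dg (D ∪ D') = σ.dg D + σ.dg D' := by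
  exact Finset.sum_union h

theorem dg_sdiff {D D' : Finset σ.I} (h : D' ⊆ D) : σ.dg (D \ D') = σ.dg D - σ.dg D' := by
  exact eq_sub_of_add_eq (Finset.sum_sdiff h)

theorem dg_rng (D : Finset σ.I) : σ.dg D ∈ σ.rng := by
  unfold Sys.dg
  refine sum_mem fun i _ => ?_
  exact mul_mem (NonUnitalSubring.subset_closure ⟨i, Or.inl rfl⟩)
    (NonUnitalSubring.subset_closure ⟨i, Or.inr (Or.inl rfl)⟩)

theorem dg_inj [Nontrivial k] (h : σ.Ind k) {D D' : Finset σ.I} (hd : σ.dg D = σ.dg D') :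
    D = D' := by
  have h1 := ev_inj σ h (BM_diag σ D) (BM_diag σ D')
    (by rw [ev_diag (k := k) σ D, ev_diag (k := k) σ D', hd])
  ext i
  have h2 := congrFun (congrFun h1 i) i
  rw [Matrix.diagonal_apply_eq, Matrix.diagonal_apply_eq] at h2
  by_cases hi : i ∈ D
  · by_cases hi' : i ∈ D'
    · exact ⟨fun _ => hi', fun _ => hi⟩
    · rw [if_pos hi, if_neg hi'] at h2
      exact absurd h2 one_ne_zero
  · by_cases hi' : i ∈ D'
    · rw [if_neg hi, if_pos hi'] at h2
      exact absurd h2.symm one_ne_zero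
    · exact ⟨fun h => absurd h hi, fun h => absurd h hi'⟩

/-- elements of the corner of one index -/
theorem corner_elt (i : σ.I) {a : R} (ha : a ∈ σ.spn k) :
    ∃ f : LaurentPolynomial k, (σ.lau (σ.b i) ∨ ∃ z : k, f = LaurentPolynomial.C z) ∧
      (σ.c i * star (σ.c i)) * a * (σ.c i * star (σ.c i)) =
        σ.c i * σ.lv k (σ.b i) f * star (σ.c i) := by
  obtain ⟨A, hA, rfl⟩ := (mem_spn_iff σ).1 ha
  refine ⟨A i i, ?_, ?_⟩
  · by_cases h0 : A i i = 0
    · exact Or.inr ⟨0, by rw [h0, map_zero]⟩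
    · exact (hA i i h0).2
  · have h1 : Matrix.single i i (1 : LaurentPolynomial k) ∈ σ.BM k :=
      BM_single σ rfl (Or.inr ⟨1, (map_one _).symm⟩)
    have h2 : σ.c i * star (σ.c i) = σ.ev k (Matrix.single i i (1 : LaurentPolynomial k)) := by
      rw [ev_single, ← map_one (LaurentPolynomial.C : k →+* LaurentPolynomial k),
        lv_C σ (σ.bb i), one_smul, σ.cb]
    rw [h2, ← ev_mul σ h1 hA, ← ev_mul σ (BM_mul σ h1 hA) h1, Matrix.single_mul_mul_single,
      one_mul, mul_one, ev_single]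

theorem corner_mul (i : σ.I) (f g : LaurentPolynomial k) :
    (σ.c i * σ.lv k (σ.b i) f * star (σ.c i)) * (σ.c i * σ.lv k (σ.b i) g * star (σ.c i)) =
      σ.c i * σ.lv k (σ.b i) (f * g) * star (σ.c i) := by
  have h1 : star (σ.c i) * (σ.c i * σ.lv k (σ.b i) g * star (σ.c i)) =
      σ.lv k (σ.b i) g * star (σ.c i) := by
    rw [← mul_assoc, ← mul_assoc, σ.cc, (c_lv σ (σ.bb i) g).1]
  rw [mul_assoc, h1, lv_mul σ (σ.bb i)]
  simp only [mul_assoc]

end

section
variable {R : Type u} [Ring R] [StarRing R] {R' : Type v} [Ring R'] [StarRing R'] (σ : Sys R)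
  (φ : R →+* R') (hφ : ∀ a, φ (star a) = star (φ a))

theorem rng_map {a : R} (ha : a ∈ σ.rng) : φ a ∈ (σ.map φ hφ).rng := by
  have h1 : σ.rng ≤ (σ.map φ hφ).rng.comap (φ : R →ₙ+* R') := by
    refine NonUnitalSubring.closure_le.2 ?_
    rintro a ⟨i, h⟩
    show φ a ∈ (σ.map φ hφ).rng
    refine NonUnitalSubring.subset_closure ⟨i, ?_⟩
    rcases h with rfl | rfl | rfl | rfl
    · exact Or.inl rfl
    · exact Or.inr (Or.inl (hφ _))
    · exact Or.inr (Or.inr (Or.inl rfl))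
    · exact Or.inr (Or.inr (Or.inr (hφ _)))
  exact h1 ha

theorem rng_map_surj {a' : R'} (ha : a' ∈ (σ.map φ hφ).rng) : ∃ a ∈ σ.rng, φ a = a' := by
  have h1 : (σ.map φ hφ).rng ≤ σ.rng.map (φ : R →ₙ+* R') := by
    refine NonUnitalSubring.closure_le.2 ?_
    rintro a ⟨i, h⟩
    show a ∈ σ.rng.map (φ : R →ₙ+* R')
    rcases h with rfl | rfl | rfl | rfl
    · exact ⟨σ.c i, NonUnitalSubring.subset_closure ⟨i, Or.inl rfl⟩, rfl⟩
    · exact ⟨star (σ.c i), NonUnitalSubring.subset_closure ⟨i, Or.inr (Or.inl rfl)⟩, hφ _⟩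
    · exact ⟨σ.x (σ.b i), NonUnitalSubring.subset_closure ⟨i, Or.inr (Or.inr (Or.inl rfl))⟩, rfl⟩
    · exact ⟨star (σ.x (σ.b i)),
        NonUnitalSubring.subset_closure ⟨i, Or.inr (Or.inr (Or.inr rfl))⟩, hφ _⟩
  obtain ⟨a, ha, e⟩ := h1 ha
  exact ⟨a, ha, e⟩

theorem dg_map (D : Finset σ.I) : (σ.map φ hφ).dg D = φ (σ.dg D) := by
  show ∑ i ∈ D, φ (σ.c i) * star (φ (σ.c i)) = φ (∑ i ∈ D, σ.c i * star (σ.c i))
  rw [map_sum]
  refine Finset.sum_congr rfl fun i _ => ?_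
  rw [map_mul, hφ]

include hφ in
private theorem zp_map (p x : R) (n : ℤ) : zp (φ p) (φ x) n = φ (zp p x n) := by
  cases n with
  | ofNat n =>
    show φ p * φ x ^ n = φ (p * x ^ n)
    rw [map_mul, map_pow]
  | negSucc n =>
    show φ p * star (φ x) ^ (n + 1) = φ (p * star x ^ (n + 1))
    rw [map_mul, map_pow, hφ]

private theorem lv_map [Algebra ℤ R] [Algebra ℤ R'] (o : σ.I) (f : LaurentPolynomial ℤ) :
    (σ.map φ hφ).lv ℤ o f = φ (σ.lv ℤ o f) := by
  unfold Sys.lv Sys.xp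
  rw [map_finsuppSum]
  refine Finsupp.sum_congr fun n _ => ?_
  have h1 : zp ((σ.map φ hφ).c o) ((σ.map φ hφ).x o) n = φ (zp (σ.c o) (σ.x o) n) :=
    zp_map φ hφ _ _ _
  rw [h1, Algebra.smul_def, Algebra.smul_def, map_mul, eq_intCast (algebraMap ℤ R'),
    eq_intCast (algebraMap ℤ R), map_intCast]

theorem ev_map [Algebra ℤ R] [Algebra ℤ R'] (A : Matrix σ.I σ.I (LaurentPolynomial ℤ)) :
    (σ.map φ hφ).ev ℤ A = φ (σ.ev ℤ A) := by
  show (∑ i : σ.I, ∑ j : σ.I, φ (σ.c i) * (σ.map φ hφ).lv ℤ (σ.b i) (A i j) * star (φ (σ.c j))) =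
    φ (∑ i : σ.I, ∑ j : σ.I, σ.c i * σ.lv ℤ (σ.b i) (A i j) * star (σ.c j))
  rw [map_sum]
  refine Finset.sum_congr rfl fun i _ => ?_
  rw [map_sum]
  refine Finset.sum_congr rfl fun j _ => ?_
  rw [lv_map, map_mul, map_mul, hφ]

end

end Pool.Agent.Work.MP_2b4d3b_al.NE
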