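import Pool.Agent.Work.MP_2b4d3b_al.NE.Defs
import Pool.Agent.Work.MP_2b4d3b_al.NE.SysD

/-
Basics of the equivalence Mv. PROOF. refl: a = b = p. symm: exchange a, b. trans: a a', b' b (p = a b, q = b a = a' b', ...; a a' b' b =
a q b = a b = p). Mv_idem: p p = p a b = a b = p. Mv_add: (a + a')(b + b') = a b + a' b' since a b' = a q q' b' = 0, a' b = 0; likewise the
other order; p (a + a') with p a' = p p' a' = 0. Mv_map: apply a ring homomorphism. Mv_graph: S the graph of a map, C in the domain: choose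
images a1, b1 of a, b; products: (a b, a1 b1) in S and (p, p1) in S, so (0, p1 - a1 b1) in S, hence equal by z2. Mv_star: a = p s q,
b = q s* p: (p s q)(q s* p) = p s q s* p = p s s* s s* p = p; similarly the other. std_fix: t = p s q: p t = t = t q, t t* = p s q s* p =
p (s s*)(s s*) p = p, t* t = q. Mv_zero: p = a b with a = p a = 0.
-/

set_option linter.unusedVariables false
set_option linter.style.longLine false
set_option linter.unusedSectionVars false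

namespace Pool.Agent.Work.MP_2b4d3b_al.NE

universe u v w u' v' w'

open Finset

section
variable {R : Type u} [Ring R]

theorem Mv_refl {C : Set R} {p : R} (hp : p ∈ C) (hpp : p * p = p) : Mv C p p :=
  ⟨p, hp, p, hp, hpp, hpp, hpp, hpp, hpp, hpp⟩

theorem Mv_symm {C : Set R} {p q : R} (h : Mv C p q) : Mv C q p := by
  obtain ⟨a, ha, b, hb, h1, h2, h3, h4, h5, h6⟩ := h
  exact ⟨b, hb, a, ha, h2, h1, h5, h6, h3, h4⟩

theorem Mv_trans {C : Set R} (hC : ∀ a ∈ C, ∀ b ∈ C, a * b ∈ C) {p q r : R} (h : Mv C p q)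
    (h' : Mv C q r) : Mv C p r := by
  obtain ⟨a, ha, b, hb, h1, h2, h3, h4, h5, h6⟩ := h
  obtain ⟨a', ha', b', hb', h1', h2', h3', h4', h5', h6'⟩ := h'
  refine ⟨a * a', hC _ ha _ ha', b' * b, hC _ hb' _ hb, ?_, ?_, ?_, ?_, ?_, ?_⟩
  · rw [mul_assoc, ← mul_assoc a', h1', ← mul_assoc, h4, h1]
  · rw [mul_assoc, ← mul_assoc b, h2, ← mul_assoc, h6', h2']
  · rw [← mul_assoc, h3]
  · rw [mul_assoc, h4']
  · rw [← mul_assoc, h5']
  · rw [mul_assoc, h6]

theorem Mv_mono {C C' : Set R} (hC : C ⊆ C') {p q : R} (h : Mv C p q) : Mv C' p q := by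
  obtain ⟨a, ha, b, hb, h1⟩ := h
  exact ⟨a, hC ha, b, hC hb, h1⟩

theorem Mv_idem {C : Set R} {p q : R} (h : Mv C p q) : p * p = p ∧ q * q = q := by
  obtain ⟨a, ha, b, hb, h1, h2, h3, h4, h5, h6⟩ := h
  constructor
  · nth_rewrite 2 [← h1]
    rw [← mul_assoc, h3, h1]
  · nth_rewrite 2 [← h2]
    rw [← mul_assoc, h5, h2]

theorem Mv_add {C : Set R} (hC : ∀ a ∈ C, ∀ b ∈ C, a + b ∈ C) {p q p' q' : R} (h : Mv C p q)
    (h' : Mv C p' q') (hp : p * p' = 0 ∧ p' * p = 0) (hq : q * q' = 0 ∧ q' * q = 0) :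
    Mv C (p + p') (q + q') := by
  obtain ⟨a, ha, b, hb, h1, h2, h3, h4, h5, h6⟩ := h
  obtain ⟨a', ha', b', hb', h1', h2', h3', h4', h5', h6'⟩ := h'
  have e1 : a * b' = 0 := by
    rw [← h4, ← h5', mul_assoc, ← mul_assoc q, hq.1, zero_mul, mul_zero]
  have e2 : a' * b = 0 := by
    rw [← h4', ← h5, mul_assoc, ← mul_assoc q', hq.2, zero_mul, mul_zero]
  have e3 : b * a' = 0 := by
    rw [← h6, ← h3', mul_assoc, ← mul_assoc p, hp.1, zero_mul, mul_zero]
  have e4 : b' * a = 0 := by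
    rw [← h6', ← h3, mul_assoc, ← mul_assoc p', hp.2, zero_mul, mul_zero]
  have e5 : p * a' = 0 := by rw [← h3', ← mul_assoc, hp.1, zero_mul]
  have e6 : p' * a = 0 := by rw [← h3, ← mul_assoc, hp.2, zero_mul]
  have e7 : a * q' = 0 := by rw [← h4, mul_assoc, hq.1, mul_zero]
  have e8 : a' * q = 0 := by rw [← h4', mul_assoc, hq.2, mul_zero]
  have e9 : q * b' = 0 := by rw [← h5', ← mul_assoc, hq.1, zero_mul]
  have e10 : q' * b = 0 := by rw [← h5, ← mul_assoc, hq.2, zero_mul]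
  have e11 : b * p' = 0 := by rw [← h6, mul_assoc, hp.1, mul_zero]
  have e12 : b' * p = 0 := by rw [← h6', mul_assoc, hp.2, mul_zero]
  refine ⟨a + a', hC _ ha _ ha', b + b', hC _ hb _ hb', ?_, ?_, ?_, ?_, ?_, ?_⟩
  · rw [add_mul, mul_add, mul_add, e1, e2, h1, h1', add_zero, zero_add]
  · rw [add_mul, mul_add, mul_add, e3, e4, h2, h2', add_zero, zero_add]
  · rw [add_mul, mul_add, mul_add, e5, e6, h3, h3', add_zero, zero_add]
  · rw [add_mul, mul_add, mul_add, e7, e8, h4, h4', add_zero, zero_add]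
  · rw [add_mul, mul_add, mul_add, e9, e10, h5, h5', add_zero, zero_add]
  · rw [add_mul, mul_add, mul_add, e11, e12, h6, h6', add_zero, zero_add]

theorem Mv_zero {C : Set R} {q : R} (h : Mv C 0 q) : q = 0 := by
  obtain ⟨a, ha, b, hb, h1, h2, h3, h4, h5, h6⟩ := h
  rw [zero_mul] at h3
  rw [← h2, ← h3, mul_zero]

theorem Mv_map {R' : Type u'} [Ring R'] (φ : R →+* R') {C : Set R} {C' : Set R'}
    (hC : ∀ a ∈ C, φ a ∈ C') {p q : R} (h : Mv C p q) : Mv C' (φ p) (φ q) := by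
  obtain ⟨a, ha, b, hb, h1, h2, h3, h4, h5, h6⟩ := h
  refine ⟨φ a, hC a ha, φ b, hC b hb, ?_, ?_, ?_, ?_, ?_, ?_⟩
  · rw [← map_mul, h1]
  · rw [← map_mul, h2]
  · rw [← map_mul, h3]
  · rw [← map_mul, h4]
  · rw [← map_mul, h5]
  · rw [← map_mul, h6]

end

/-- transport of an equivalence along the graph of an isomorphism -/
theorem Mv_graph {R : Type u} [Ring R] {R' : Type u'} [Ring R'] {S : NonUnitalSubring (R × R')}
    {C : Set R} {C' : Set R'} (h : GIso S C C') {p q : R} {p' q' : R'} (hp : (p, p') ∈ S)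
    (hq : (q, q') ∈ S) (hm : Mv C p q) : Mv C' p' q' := by
  have uniq : ∀ x y y', (x, y) ∈ S → (x, y') ∈ S → y = y' := by
    intro x y y' h1 h2
    have h3 := S.sub_mem h1 h2
    rw [Prod.mk_sub_mk, sub_self] at h3
    exact sub_eq_zero.1 (h.z2 _ h3)
  have hmul : ∀ x y x' y', (x, x') ∈ S → (y, y') ∈ S → (x * y, x' * y') ∈ S := by
    intro x y x' y' h1 h2
    exact S.mul_mem h1 h2
  obtain ⟨a, ha, b, hb, h1, h2, h3, h4, h5, h6⟩ := hm
  obtain ⟨a1, ha1⟩ := h.t1 a ha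
  obtain ⟨b1, hb1⟩ := h.t1 b hb
  refine ⟨a1, h.m2 _ _ ha1, b1, h.m2 _ _ hb1, ?_, ?_, ?_, ?_, ?_, ?_⟩
  · exact uniq _ _ _ (h1 ▸ hmul _ _ _ _ ha1 hb1) hp
  · exact uniq _ _ _ (h2 ▸ hmul _ _ _ _ hb1 ha1) hq
  · have h7 := hmul _ _ _ _ hp ha1
    rw [h3] at h7
    exact uniq _ _ _ h7 ha1
  · have h7 := hmul _ _ _ _ ha1 hq
    rw [h4] at h7
    exact uniq _ _ _ h7 ha1
  · have h7 := hmul _ _ _ _ hq hb1
    rw [h5] at h7
    exact uniq _ _ _ h7 hb1
  · have h7 := hmul _ _ _ _ hb1 hp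
    rw [h6] at h7
    exact uniq _ _ _ h7 hb1

/-- a *-equivalence can be normalized -/
theorem std_fix {R : Type u} [Ring R] [StarRing R] {p q s : R} (hp : IsPrj p) (hq : IsPrj q)
    (h1 : s * star s = p) (h2 : star s * s = q) :
    (p * s * q) * star (p * s * q) = p ∧ star (p * s * q) * (p * s * q) = q ∧
      p * (p * s * q) = p * s * q ∧ (p * s * q) * q = p * s * q ∧ s * q = p * s := by
  have hpp := hp.1
  have hqq := hq.1
  have hst : star (p * s * q) = q * star s * p := by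
    rw [star_mul, star_mul, hp.2, hq.2, mul_assoc]
  have h5 : s * q = p * s := by rw [← h2, ← h1, mul_assoc]
  have h6 : q * star s = star s * p := by rw [← h2, ← h1, mul_assoc]
  have h7 : p * s * q = p * s := by rw [mul_assoc, h5, ← mul_assoc, hpp]
  have h8 : q * star s * p = star s * p := by rw [h6, mul_assoc, hpp]
  refine ⟨?_, ?_, ?_, ?_, h5⟩
  · rw [hst, h7, h8, mul_assoc, ← mul_assoc s, h1, hpp, hpp]
  · rw [hst, h7, h8, mul_assoc, ← mul_assoc p, hpp, ← h5, ← mul_assoc, h2, hqq]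
  · rw [← mul_assoc, ← mul_assoc, hpp]
  · rw [mul_assoc, hqq]

theorem Mv_star {R : Type u} [Ring R] [StarRing R] {C : Set R}
    (hC : ∀ a ∈ C, ∀ b, a * b ∈ C ∧ b * a ∈ C) (hs : ∀ a ∈ C, star a ∈ C) {p q s : R}
    (hp : IsPrj p) (hq : IsPrj q) (hS : s ∈ C) (h1 : s * star s = p) (h2 : star s * s = q) :
    Mv C p q := by
  obtain ⟨h3, h4, h5, h6, _⟩ := std_fix hp hq h1 h2
  have hm : p * s * q ∈ C := (hC _ (hC _ hS p).2 q).1
  refine ⟨p * s * q, hm, star (p * s * q), hs _ hm, h3, h4, h5, h6, ?_, ?_⟩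
  · nth_rewrite 1 [← hq.2]
    rw [← star_mul, h6]
  · nth_rewrite 2 [← hp.2]
    rw [← star_mul, h5]

end Pool.Agent.Work.MP_2b4d3b_al.NE
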