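import Pool.Agent.Work.MP_2b4d3b_al.NE.Defs
import Pool.Agent.Work.MP_2b4d3b_al.NE.Bas

/-
Corners. PROOF. eW: products of distinct vertices vanish (Finset.sum_mul_sum, vx_vx, vx_ne). For a in LP there is a finite W
with eW W * a = a = a * eW W (LP_ind: for generators take the ends; for sums and products unions, using eW W * eW W' = eW W
for W a subset of W'). So LP = Cor univ. mem_Cor_iff: if a = eW W * a * eW W with W in N then a is in LP (eW W is in LP,
mul_mem_LP) and vx x kills a for x outside N. Conversely a = eW W * a * eW W for a finite W and the vertices of W outside N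
kill a, so W can be replaced by its part in N (Finset.sum_filter). All closure properties, Cor_inter and Cor_mono follow from
mem_Cor_iff. Cor_fin: union of the finitely many W (induction on the finset), then eW W * a = eW W * eW W_a * a = a.
-/

set_option linter.unusedVariables false
set_option linter.style.longLine false
set_option linter.unusedSectionVars false

namespace Pool.Agent.Work.MP_2b4d3b_al.NE

universe u v w u' v' w'

open Finset

variable {K : Type u} [CommRing K] {V : Type v} {E : Type w} {G : Gr V E}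

open Classical in
private theorem vW (x : V) (W : Finset V) : vx K G x * eW K G W = if x ∈ W then vx K G x else 0 := by
  rw [eW, Finset.mul_sum]
  split_ifs with h
  · rw [Finset.sum_eq_single x, vx_vx]
    · intro y _ hy
      exact vx_ne (Ne.symm hy)
    · intro h1
      exact absurd h h1
  · refine Finset.sum_eq_zero fun y hy => vx_ne ?_
    rintro rfl
    exact h hy

open Classical in
private theorem Wv (x : V) (W : Finset V) : eW K G W * vx K G x = if x ∈ W then vx K G x else 0 := by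
  rw [eW, Finset.sum_mul]
  split_ifs with h
  · rw [Finset.sum_eq_single x, vx_vx]
    · intro y _ hy
      exact vx_ne hy
    · intro h1
      exact absurd h h1
  · refine Finset.sum_eq_zero fun y hy => vx_ne ?_
    rintro rfl
    exact h hy

private theorem eW_sub' {W W' : Finset V} (h : W ⊆ W') :
    eW K G W * eW K G W' = eW K G W ∧ eW K G W' * eW K G W = eW K G W := by
  constructor
  · have h1 : eW K G W * eW K G W' = ∑ x ∈ W, vx K G x * eW K G W' := Finset.sum_mul _ _ _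
    rw [h1]
    refine Finset.sum_congr rfl fun x hx => ?_
    rw [vW, if_pos (h hx)]
  · have h1 : eW K G W' * eW K G W = ∑ x ∈ W, eW K G W' * vx K G x := Finset.mul_sum _ _ _
    rw [h1]
    refine Finset.sum_congr rfl fun x hx => ?_
    rw [Wv, if_pos (h hx)]

private theorem mono_l {W W' : Finset V} (h : W ⊆ W') {a : UA K G} (ha : eW K G W * a = a) :
    eW K G W' * a = a := by
  rw [← ha, ← mul_assoc, (eW_sub' h).2]

private theorem mono_r {W W' : Finset V} (h : W ⊆ W') {a : UA K G} (ha : a * eW K G W = a) :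
    a * eW K G W' = a := by
  rw [← ha, mul_assoc, (eW_sub' h).1]

private theorem loc_u {a : UA K G} (ha : a ∈ LP K G) :
    ∃ W : Finset V, eW K G W * a = a ∧ a * eW K G W = a := by
  classical
  refine LP_ind (P := fun a => ∃ W : Finset V, eW K G W * a = a ∧ a * eW K G W = a)
    ?_ ?_ ?_ ?_ ?_ ?_ ?_ ha
  · intro x
    refine ⟨{x}, ?_, ?_⟩
    · rw [Wv, if_pos (Finset.mem_singleton_self x)]
    · rw [vW, if_pos (Finset.mem_singleton_self x)]
  · intro e
    refine ⟨{G.s e, G.r e}, ?_, ?_⟩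
    · rw [← s_ed e, ← mul_assoc, Wv, if_pos (by simp)]
    · rw [← ed_r e, mul_assoc, vW, if_pos (by simp)]
  · intro e
    refine ⟨{G.s e, G.r e}, ?_, ?_⟩
    · rw [← r_gh e, ← mul_assoc, Wv, if_pos (by simp)]
    · rw [← gh_s e, mul_assoc, vW, if_pos (by simp)]
  · exact ⟨∅, by rw [mul_zero], by rw [zero_mul]⟩
  · rintro a b ⟨W, h1, h2⟩ ⟨W', h3, h4⟩
    refine ⟨W ∪ W', ?_, ?_⟩
    · rw [mul_add, mono_l Finset.subset_union_left h1, mono_l Finset.subset_union_right h3]
    · rw [add_mul, mono_r Finset.subset_union_left h2, mono_r Finset.subset_union_right h4]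
  · rintro a b ⟨W, h1, h2⟩ ⟨W', h3, h4⟩
    refine ⟨W ∪ W', ?_, ?_⟩
    · rw [← mul_assoc, mono_l Finset.subset_union_left h1]
    · rw [mul_assoc, mono_r Finset.subset_union_right h4]
  · rintro k a ⟨W, h1, h2⟩
    refine ⟨W, ?_, ?_⟩
    · rw [mul_smul_comm, h1]
    · rw [smul_mul_assoc, h2]

theorem eW_mul_self (W : Finset V) : eW K G W * eW K G W = eW K G W := by
  exact (eW_sub' (Finset.Subset.refl W)).1

theorem eW_sub {W W' : Finset V} (h : W ⊆ W') :
    eW K G W * eW K G W' = eW K G W ∧ eW K G W' * eW K G W = eW K G W := by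
  exact eW_sub' h

theorem eW_star [StarRing K] (W : Finset V) : star (eW K G W) = eW K G W := by
  rw [eW, star_sum]
  exact Finset.sum_congr rfl fun x _ => star_vx x

theorem eW_mem_LP (W : Finset V) : eW K G W ∈ LP K G := by
  exact sum_mem fun x _ => vx_mem x

theorem eW_mem_Cor {N : Set V} {W : Finset V} (h : ∀ x ∈ W, x ∈ N) : eW K G W ∈ Cor K G N := by
  exact ⟨W, h, by rw [eW_mul_self, eW_mul_self]⟩

theorem vx_mul_eW {x : V} {W : Finset V} (h : x ∈ W) :
    vx K G x * eW K G W = vx K G x ∧ eW K G W * vx K G x = vx K G x := by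
  rw [vW, Wv, if_pos h]
  exact ⟨rfl, rfl⟩

theorem vx_mul_eW_zero {x : V} {W : Finset V} (h : x ∉ W) :
    vx K G x * eW K G W = 0 ∧ eW K G W * vx K G x = 0 := by
  rw [vW, Wv, if_neg h]
  exact ⟨rfl, rfl⟩

/-- membership in a corner -/
theorem mem_Cor_iff {N : Set V} {a : UA K G} :
    a ∈ Cor K G N ↔ a ∈ LP K G ∧ ∀ x, x ∉ N → vx K G x * a = 0 ∧ a * vx K G x = 0 := by
  classical
  constructor
  · rintro ⟨W, hW, ha⟩
    refine ⟨?_, fun x hx => ?_⟩
    · rw [← ha]
      exact mul_mem_LP_left _ (eW_mem_LP W)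
    · have h1 : x ∉ W := fun h => hx (hW x h)
      constructor
      · rw [← ha, mul_assoc, ← mul_assoc, (vx_mul_eW_zero h1).1, zero_mul]
      · rw [← ha, mul_assoc, (vx_mul_eW_zero h1).2, mul_zero]
  · rintro ⟨ha, hx⟩
    obtain ⟨W, h1, h2⟩ := loc_u ha
    refine ⟨W.filter (fun x => x ∈ N), fun x hx' => (Finset.mem_filter.1 hx').2, ?_⟩
    have hs : eW K G W = eW K G (W.filter (fun x => x ∈ N)) +
        eW K G (W.filter (fun x => ¬ x ∈ N)) :=
      (Finset.sum_filter_add_sum_filter_not W (fun x => x ∈ N) _).symm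
    have h3 : eW K G (W.filter (fun x => ¬ x ∈ N)) * a = 0 := by
      rw [eW, Finset.sum_mul]
      exact Finset.sum_eq_zero fun x hx' => (hx x (Finset.mem_filter.1 hx').2).1
    have h4 : a * eW K G (W.filter (fun x => ¬ x ∈ N)) = 0 := by
      rw [eW, Finset.mul_sum]
      exact Finset.sum_eq_zero fun x hx' => (hx x (Finset.mem_filter.1 hx').2).2
    have h5 : eW K G (W.filter (fun x => x ∈ N)) * a = a := by
      rw [hs, add_mul, h3, add_zero] at h1
      exact h1
    have h6 : a * eW K G (W.filter (fun x => x ∈ N)) = a := by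
      rw [hs, mul_add, h4, add_zero] at h2
      exact h2
    rw [h5, h6]

theorem LP_eq_Cor : (LP K G : Set (UA K G)) = Cor K G Set.univ := by
  ext a
  rw [SetLike.mem_coe, mem_Cor_iff]
  exact ⟨fun h => ⟨h, fun x hx => absurd (Set.mem_univ x) hx⟩, fun h => h.1⟩

theorem Cor_le_LP {N : Set V} {a : UA K G} (h : a ∈ Cor K G N) : a ∈ LP K G := by
  exact (mem_Cor_iff.1 h).1

theorem Cor_mono {N M : Set V} (h : N ⊆ M) {a : UA K G} (ha : a ∈ Cor K G N) : a ∈ Cor K G M := by
  rw [mem_Cor_iff] at ha ⊢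
  exact ⟨ha.1, fun x hx => ha.2 x fun h1 => hx (h h1)⟩

theorem Cor_inter {N M : Set V} {a : UA K G} :
    a ∈ Cor K G (N ∩ M) ↔ a ∈ Cor K G N ∧ a ∈ Cor K G M := by
  rw [mem_Cor_iff, mem_Cor_iff, mem_Cor_iff]
  constructor
  · rintro ⟨h1, h2⟩
    exact ⟨⟨h1, fun x hx => h2 x fun h => hx h.1⟩, ⟨h1, fun x hx => h2 x fun h => hx h.2⟩⟩
  · rintro ⟨⟨h1, h2⟩, -, h3⟩
    refine ⟨h1, fun x hx => ?_⟩
    by_cases hN : x ∈ N
    · exact h3 x fun h => hx ⟨hN, h⟩
    · exact h2 x hN

theorem Cor_zero {N : Set V} : (0 : UA K G) ∈ Cor K G N := by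
  exact mem_Cor_iff.2 ⟨(LP K G).zero_mem, fun x _ => ⟨mul_zero _, zero_mul _⟩⟩

theorem Cor_add {N : Set V} {a b : UA K G} (ha : a ∈ Cor K G N) (hb : b ∈ Cor K G N) :
    a + b ∈ Cor K G N := by
  rw [mem_Cor_iff] at ha hb ⊢
  refine ⟨(LP K G).add_mem ha.1 hb.1, fun x hx => ⟨?_, ?_⟩⟩
  · rw [mul_add, (ha.2 x hx).1, (hb.2 x hx).1, add_zero]
  · rw [add_mul, (ha.2 x hx).2, (hb.2 x hx).2, add_zero]

theorem Cor_neg {N : Set V} {a : UA K G} (ha : a ∈ Cor K G N) : -a ∈ Cor K G N := by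
  have h1 : (-1 : K) • a ∈ Cor K G N := by
    rw [mem_Cor_iff] at ha ⊢
    refine ⟨(LP K G).smul_mem (-1) ha.1, fun x hx => ⟨?_, ?_⟩⟩
    · rw [mul_smul_comm, (ha.2 x hx).1, smul_zero]
    · rw [smul_mul_assoc, (ha.2 x hx).2, smul_zero]
  have h2 : (-1 : K) • a = -a := neg_one_smul K a
  exact h2 ▸ h1

theorem Cor_mul {N : Set V} {a b : UA K G} (ha : a ∈ Cor K G N) (hb : b ∈ Cor K G N) :
    a * b ∈ Cor K G N := by
  rw [mem_Cor_iff] at ha hb ⊢
  refine ⟨(LP K G).mul_mem ha.1 hb.1, fun x hx => ⟨?_, ?_⟩⟩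
  · rw [← mul_assoc, (ha.2 x hx).1, zero_mul]
  · rw [mul_assoc, (hb.2 x hx).2, mul_zero]

/-- corners are hereditary: a * c * b is in the corner for every c -/
theorem Cor_mid {N : Set V} {a b : UA K G} (ha : a ∈ Cor K G N) (c : UA K G)
    (hb : b ∈ Cor K G N) : a * c * b ∈ Cor K G N := by
  rw [mem_Cor_iff] at ha hb ⊢
  refine ⟨mul_mem_LP_left _ hb.1, fun x hx => ⟨?_, ?_⟩⟩
  · rw [← mul_assoc, ← mul_assoc, (ha.2 x hx).1, zero_mul, zero_mul]
  · rw [mul_assoc, (hb.2 x hx).2, mul_zero]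

theorem Cor_smul {N : Set V} {a : UA K G} (k : K) (ha : a ∈ Cor K G N) : k • a ∈ Cor K G N := by
  rw [mem_Cor_iff] at ha ⊢
  refine ⟨(LP K G).smul_mem k ha.1, fun x hx => ⟨?_, ?_⟩⟩
  · rw [mul_smul_comm, (ha.2 x hx).1, smul_zero]
  · rw [smul_mul_assoc, (ha.2 x hx).2, smul_zero]

theorem Cor_sum {N : Set V} {I : Type u'} (S : Finset I) (f : I → UA K G)
    (h : ∀ i ∈ S, f i ∈ Cor K G N) : ∑ i ∈ S, f i ∈ Cor K G N := by
  exact Finset.sum_induction f (fun a => a ∈ Cor K G N) (fun a b ha hb => Cor_add ha hb) Cor_zero h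

theorem Cor_star [StarRing K] {N : Set V} {a : UA K G} (ha : a ∈ Cor K G N) :
    star a ∈ Cor K G N := by
  rw [mem_Cor_iff] at ha ⊢
  refine ⟨star_mem_LP ha.1, fun x hx => ⟨?_, ?_⟩⟩
  · have h1 := congrArg star (ha.2 x hx).2
    rwa [star_mul, star_vx, star_zero] at h1
  · have h1 := congrArg star (ha.2 x hx).1
    rwa [star_mul, star_vx, star_zero] at h1

theorem vx_mem_Cor {N : Set V} {x : V} (h : x ∈ N) : vx K G x ∈ Cor K G N := by
  refine mem_Cor_iff.2 ⟨vx_mem x, fun y hy => ?_⟩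
  have h1 : y ≠ x := fun h2 => hy (h2 ▸ h)
  exact ⟨vx_ne h1, vx_ne h1.symm⟩

theorem ed_mem_Cor {N : Set V} (hN : Her G N) {e : E} (h : G.s e ∈ N) :
    ed K G e ∈ Cor K G N ∧ gh K G e ∈ Cor K G N := by
  have hr : G.r e ∈ N := hN e h
  refine ⟨mem_Cor_iff.2 ⟨ed_mem e, fun x hx => ?_⟩, mem_Cor_iff.2 ⟨gh_mem e, fun x hx => ?_⟩⟩
  · have h1 : x ≠ G.s e := fun h2 => hx (h2 ▸ h)
    have h2 : x ≠ G.r e := fun h3 => hx (h3 ▸ hr)
    rw [vx_ed, ed_vx, if_neg h1, if_neg h2]
    exact ⟨rfl, rfl⟩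
  · have h1 : x ≠ G.s e := fun h2 => hx (h2 ▸ h)
    have h2 : x ≠ G.r e := fun h3 => hx (h3 ▸ hr)
    rw [vx_gh, gh_vx, if_neg h1, if_neg h2]
    exact ⟨rfl, rfl⟩

/-- elements of the corners of disjoint sets annihilate each other -/
theorem Cor_disj {N M : Set V} (h : Disjoint N M) {a b : UA K G} (ha : a ∈ Cor K G N)
    (hb : b ∈ Cor K G M) : a * b = 0 := by
  obtain ⟨W, hW, ha'⟩ := ha
  have h1 : eW K G W * b = 0 := by
    rw [eW, Finset.sum_mul]
    refine Finset.sum_eq_zero fun x hx => ((mem_Cor_iff.1 hb).2 x ?_).1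
    exact fun h2 => Set.disjoint_left.1 h (hW x hx) h2
  rw [← ha', mul_assoc, h1, mul_zero]

/-- finitely many elements of a corner have a common local unit -/
theorem Cor_fin {N : Set V} (A : Finset (UA K G)) (hA : ∀ a ∈ A, a ∈ Cor K G N) :
    ∃ W : Finset V, (∀ x ∈ W, x ∈ N) ∧ ∀ a ∈ A, eW K G W * a = a ∧ a * eW K G W = a := by
  classical
  induction A using Finset.induction_on with
  | empty => exact ⟨∅, fun x hx => absurd hx (Finset.notMem_empty x),
      fun a ha => absurd ha (Finset.notMem_empty a)⟩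
  | insert a A _ ih =>
    obtain ⟨W, hW, h1⟩ := ih fun b hb => hA b (Finset.mem_insert_of_mem hb)
    obtain ⟨W', hW', h2⟩ := hA a (Finset.mem_insert_self a A)
    have h3 : eW K G W' * a = a := by
      rw [← h2, ← mul_assoc, ← mul_assoc, eW_mul_self]
    have h4 : a * eW K G W' = a := by
      rw [← h2, mul_assoc, eW_mul_self]
    refine ⟨W ∪ W', fun x hx => ?_, fun b hb => ?_⟩
    · rcases Finset.mem_union.1 hx with h | h
      · exact hW x h
      · exact hW' x h
    · rcases Finset.mem_insert.1 hb with rfl | hb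
      · exact ⟨mono_l Finset.subset_union_right h3, mono_r Finset.subset_union_right h4⟩
      · exact ⟨mono_l Finset.subset_union_left (h1 b hb).1,
          mono_r Finset.subset_union_left (h1 b hb).2⟩

theorem io_Cor {N : Set V} {a : UA ℤ G} (ha : a ∈ Cor ℤ G N) : io K G a ∈ Cor K G N := by
  obtain ⟨W, hW, h⟩ := ha
  refine ⟨W, hW, ?_⟩
  have h1 : io K G (eW ℤ G W) = eW K G W := by
    rw [eW, map_sum]
    exact Finset.sum_congr rfl fun x _ => io_vx x
  rw [← h1, ← map_mul, ← map_mul, h]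

end Pool.Agent.Work.MP_2b4d3b_al.NE
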