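import Pool.Agent.Work.MP_2b4d3b_al.NE.Defs
import Pool.Agent.Work.MP_2b4d3b_al.NE.Corn

/-
The corner of a hereditary set is generated by the generators inside.
PROOF. (1) Monomials: LP is the K-span of the elements wd (ed) l * vx x * wd (gh) m.reverse. The span contains the generators
(ed e = wd [e] * vx (r e), gh e = vx (r e) * wd [e].reverse) and is stable under right multiplication by generators:
if m = [] use vx x * vx y (0 or vx x), vx x * ed e (if x = s e: wd (l ++ [e]) * vx (r e), else 0), vx x * gh e (m = [e] or 0);
if m = h :: m', then wd (gh) m.reverse = wd (gh) m'.reverse * gh h and gh h * vx y, gh h * ed e = vx (r h) or 0 (then use the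
vertex rule for m', induction on m) and gh h * gh e: list e :: m. So it contains LP (LP_ind does not directly give it: prove for
a in LP that the span is stable under right multiplication by a, by LP_ind; then a = eW W * a).
(2) A := adjoin (gensOf N). For y in N: vx y * (wd (ed) l * vx x) is in A, by induction on l generalizing y (vx y * ed e is ed e
with s e = y in N, then r e is in N; or 0; for l = [] vx y * vx x = vx y or 0). In the same way (wd (gh) m.reverse mirrored)
(vx x * wd (gh) m.reverse) * vx y is in A. (3) a in Cor N: a = e a e with e = eW W, W in N; expand a in monomials and e in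
vertices; vx x = vx x * vx x in the middle of the monomial; every term is in A. Conversely gensOf N is contained in Cor N
(ed_mem_Cor) and Cor N is closed under the operations. cor_union: gensOf (N union M) is in gensOf N union gensOf M.
-/

set_option linter.unusedVariables false
set_option linter.style.longLine false
set_option linter.unusedSectionVars false

namespace Pool.Agent.Work.MP_2b4d3b_al.NE

universe u v w u' v' w'

open Finset

variable {K : Type u} [CommRing K] {V : Type v} {E : Type w} {G : Gr V E}

/-- the algebra generated by the generators inside N -/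
private noncomputable abbrev hA (K : Type u) [CommRing K] (G : Gr V E) (N : Set V) :
    NonUnitalSubalgebra K (UA K G) := NonUnitalAlgebra.adjoin K (gensOf K G N)

private theorem h_vx {N : Set V} {x : V} (h : x ∈ N) : vx K G x ∈ hA K G N :=
  NonUnitalAlgebra.subset_adjoin K (Or.inl ⟨x, h, rfl⟩)

private theorem h_ed {N : Set V} {e : E} (h : G.s e ∈ N) : ed K G e ∈ hA K G N :=
  NonUnitalAlgebra.subset_adjoin K (Or.inr ⟨e, h, Or.inl rfl⟩)

private theorem h_gh {N : Set V} {e : E} (h : G.s e ∈ N) : gh K G e ∈ hA K G N :=
  NonUnitalAlgebra.subset_adjoin K (Or.inr ⟨e, h, Or.inr rfl⟩)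

/-- A is stable under right multiplication by vertices -/
private theorem h_mulvx {N : Set V} {c : UA K G} (hc : c ∈ hA K G N) (x : V) :
    c * vx K G x ∈ hA K G N := by
  classical
  induction hc using NonUnitalAlgebra.adjoin_induction with
  | mem z hz =>
    rcases hz with ⟨y, hy, rfl⟩ | ⟨e, he, rfl | rfl⟩
    · by_cases hxy : y = x
      · subst hxy
        rw [vx_vx]
        exact h_vx hy
      · rw [vx_ne hxy]
        exact zero_mem _
    · rw [ed_vx]
      split_ifs
      · exact h_ed he
      · exact zero_mem _
    · rw [gh_vx]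
      split_ifs
      · exact h_gh he
      · exact zero_mem _
  | add a b _ _ h1 h2 =>
    rw [add_mul]
    exact add_mem h1 h2
  | zero =>
    rw [zero_mul]
    exact zero_mem _
  | mul a b ha _ _ h2 =>
    rw [mul_assoc]
    exact mul_mem ha h2
  | smul k a _ h1 =>
    rw [smul_mul_assoc]
    exact SMulMemClass.smul_mem k h1

/-- A is stable under right multiplication by edges -/
private theorem h_muled {N : Set V} (hN : Her G N) {c : UA K G} (hc : c ∈ hA K G N) (e : E) :
    c * ed K G e ∈ hA K G N := by
  classical
  induction hc using NonUnitalAlgebra.adjoin_induction with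
  | mem z hz =>
    rcases hz with ⟨y, hy, rfl⟩ | ⟨f, hf, rfl | rfl⟩
    · rw [vx_ed]
      split_ifs with h
      · subst h
        exact h_ed hy
      · exact zero_mem _
    · by_cases h : G.r f = G.s e
      · have h1 : G.s e ∈ N := by
          rw [← h]
          exact hN f hf
        exact mul_mem (h_ed hf) (h_ed h1)
      · have h1 : ed K G f * ed K G e = 0 := by
          rw [← ed_r f, mul_assoc, vx_ed, if_neg h, mul_zero]
        rw [h1]
        exact zero_mem _
    · rw [gh_ed_ite]
      split_ifs
      · exact h_vx (hN f hf)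
      · exact zero_mem _
  | add a b _ _ h1 h2 =>
    rw [add_mul]
    exact add_mem h1 h2
  | zero =>
    rw [zero_mul]
    exact zero_mem _
  | mul a b ha _ _ h2 =>
    rw [mul_assoc]
    exact mul_mem ha h2
  | smul k a _ h1 =>
    rw [smul_mul_assoc]
    exact SMulMemClass.smul_mem k h1

/-- the span of the products of elements of A and words in the ghost edges -/
private noncomputable def hM (K : Type u) [CommRing K] (G : Gr V E) (N : Set V) :
    Submodule K (UA K G) :=
  Submodule.span K {z | ∃ c ∈ hA K G N, ∃ m : List E, z = c * wd (gh K G) m}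

private theorem wd_snoc (m : List E) (e : E) :
    wd (gh K G) (m ++ [e]) = wd (gh K G) m * gh K G e := by
  unfold wd
  simp

private theorem h_inM {N : Set V} {c : UA K G} (hc : c ∈ hA K G N) (m : List E) :
    c * wd (gh K G) m ∈ hM K G N :=
  Submodule.subset_span ⟨c, hc, m, rfl⟩

private theorem h_inM0 {N : Set V} {c : UA K G} (hc : c ∈ hA K G N) : c ∈ hM K G N := by
  have h1 := h_inM (m := []) hc
  simpa [wd] using h1

private theorem h_word_vx {N : Set V} {c : UA K G} (hc : c ∈ hA K G N) (m : List E) (x : V) :
    c * wd (gh K G) m * vx K G x ∈ hM K G N := by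
  classical
  induction m using List.reverseRecOn with
  | nil =>
    have h1 : c * wd (gh K G) ([] : List E) * vx K G x = c * vx K G x := by simp [wd]
    rw [h1]
    exact h_inM0 (h_mulvx hc x)
  | append_singleton m f _ =>
    rw [mul_assoc, wd_snoc, mul_assoc (wd (gh K G) m), gh_vx]
    split_ifs
    · rw [← wd_snoc]
      exact h_inM hc _
    · rw [mul_zero, mul_zero]
      exact Submodule.zero_mem _

private theorem h_step {N : Set V} (hN : Her G N) {z : UA K G} (hz : z ∈ hM K G N)
    (g : Gen V E) : z * gn K G g ∈ hM K G N := by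
  classical
  unfold hM at hz
  induction hz using Submodule.span_induction with
  | mem z hz =>
    obtain ⟨c, hc, m, rfl⟩ := hz
    cases g with
    | vx x => exact h_word_vx hc m x
    | ed e =>
      show c * wd (gh K G) m * ed K G e ∈ hM K G N
      induction m using List.reverseRecOn with
      | nil =>
        have h1 : c * wd (gh K G) ([] : List E) * ed K G e = c * ed K G e := by simp [wd]
        rw [h1]
        exact h_inM0 (h_muled hN hc e)
      | append_singleton m f _ =>
        rw [mul_assoc, wd_snoc, mul_assoc (wd (gh K G) m), gh_ed_ite]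
        split_ifs
        · rw [← mul_assoc]
          exact h_word_vx hc m _
        · rw [mul_zero, mul_zero]
          exact Submodule.zero_mem _
    | gh e =>
      show c * wd (gh K G) m * gh K G e ∈ hM K G N
      rw [mul_assoc, ← wd_snoc]
      exact h_inM hc _
  | zero =>
    rw [zero_mul]
    exact Submodule.zero_mem _
  | add a b _ _ h1 h2 =>
    rw [add_mul]
    exact Submodule.add_mem _ h1 h2
  | smul k a _ h1 =>
    rw [smul_mul_assoc]
    exact Submodule.smul_mem _ k h1

private theorem h_all {N : Set V} (hN : Her G N) (a : UA K G) :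
    ∀ z ∈ hM K G N, z * a ∈ hM K G N := by
  induction a using UA.ind with
  | hK k =>
    intro z hz
    rw [← Algebra.commutes, ← Algebra.smul_def]
    exact Submodule.smul_mem _ k hz
  | hv x => exact fun z hz => h_step hN hz (Gen.vx x)
  | he e => exact fun z hz => h_step hN hz (Gen.ed e)
  | hg e => exact fun z hz => h_step hN hz (Gen.gh e)
  | hadd a b h1 h2 =>
    intro z hz
    rw [mul_add]
    exact Submodule.add_mem _ (h1 z hz) (h2 z hz)
  | hmul a b h1 h2 =>
    intro z hz
    rw [← mul_assoc]
    exact h2 _ (h1 z hz)

private theorem h_word_in {N : Set V} (hN : Her G N) (m : List E) :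
    ∀ y ∈ N, ∀ c ∈ hA K G N, c * wd (gh K G) m * vx K G y ∈ hA K G N := by
  classical
  induction m using List.reverseRecOn with
  | nil =>
    intro y hy c hc
    have h1 : c * wd (gh K G) ([] : List E) * vx K G y = c * vx K G y := by simp [wd]
    rw [h1]
    exact h_mulvx hc y
  | append_singleton m f ih =>
    intro y hy c hc
    rw [mul_assoc, wd_snoc, mul_assoc (wd (gh K G) m), gh_vx]
    split_ifs with h
    · have h1 : G.s f ∈ N := by
        rw [← h]
        exact hy
      have h2 := ih (G.r f) (hN f h1) c hc
      have h3 : c * (wd (gh K G) m * gh K G f) =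
          c * wd (gh K G) m * vx K G (G.r f) * gh K G f := by
        rw [mul_assoc (c * wd (gh K G) m), r_gh, mul_assoc]
      rw [h3]
      exact mul_mem h2 (h_gh h1)
    · rw [mul_zero, mul_zero]
      exact zero_mem _

private theorem h_fin {N : Set V} (hN : Her G N) {y : V} (hy : y ∈ N) {z : UA K G}
    (hz : z ∈ hM K G N) : z * vx K G y ∈ hA K G N := by
  unfold hM at hz
  induction hz using Submodule.span_induction with
  | mem z hz =>
    obtain ⟨c, hc, m, rfl⟩ := hz
    exact h_word_in hN m y hy c hc
  | zero =>
    rw [zero_mul]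
    exact zero_mem _
  | add a b _ _ h1 h2 =>
    rw [add_mul]
    exact add_mem h1 h2
  | smul k a _ h1 =>
    rw [smul_mul_assoc]
    exact SMulMemClass.smul_mem k h1

theorem cor_eq_adjoin {N : Set V} (hN : Her G N) :
    Cor K G N = (NonUnitalAlgebra.adjoin K (gensOf K G N) : Set (UA K G)) := by
  apply Set.Subset.antisymm
  · rintro a ⟨W, hW, ha⟩
    show a ∈ hA K G N
    have h1 : eW K G W ∈ hA K G N := by
      unfold eW
      exact sum_mem fun x hx => h_vx (hW x hx)
    have h2 : eW K G W * a ∈ hM K G N := h_all hN a _ (h_inM0 h1)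
    rw [← ha]
    have h3 : eW K G W * a * eW K G W = ∑ y ∈ W, eW K G W * a * vx K G y := by
      have h4 : eW K G W = ∑ x ∈ W, vx K G x := rfl
      calc eW K G W * a * eW K G W = (eW K G W * a) * ∑ x ∈ W, vx K G x := by rw [← h4]
        _ = _ := Finset.mul_sum _ _ _
    rw [h3]
    exact sum_mem fun y hy => h_fin hN (hW y hy) h2
  · intro a ha
    have ha' : a ∈ NonUnitalAlgebra.adjoin K (gensOf K G N) := ha
    induction ha' using NonUnitalAlgebra.adjoin_induction with
    | mem z hz =>
      rcases hz with ⟨y, hy, rfl⟩ | ⟨e, he, rfl | rfl⟩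
      · exact vx_mem_Cor hy
      · exact (ed_mem_Cor hN he).1
      · exact (ed_mem_Cor hN he).2
    | add a b h1' h2' h1 h2 => exact Cor_add (h1 h1') (h2 h2')
    | zero => exact Cor_zero
    | mul a b h1' h2' h1 h2 => exact Cor_mul (h1 h1') (h2 h2')
    | smul k a h1' h1 => exact Cor_smul k (h1 h1')

theorem cor_union {N M : Set V} (hN : Her G N) (hM : Her G M) :
    Cor K G (N ∪ M) = (NonUnitalAlgebra.adjoin K (Cor K G N ∪ Cor K G M) : Set (UA K G)) := by
  have hNM : Her G (N ∪ M) := by
    intro e he
    rcases he with he | he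
    · exact Or.inl (hN e he)
    · exact Or.inr (hM e he)
  rw [cor_eq_adjoin hNM]
  apply Set.Subset.antisymm
  · refine NonUnitalAlgebra.adjoin_mono ?_
    rintro a (⟨x, hx | hx, rfl⟩ | ⟨e, he | he, rfl | rfl⟩)
    · exact Or.inl (vx_mem_Cor hx)
    · exact Or.inr (vx_mem_Cor hx)
    · exact Or.inl (ed_mem_Cor hN he).1
    · exact Or.inl (ed_mem_Cor hN he).2
    · exact Or.inr (ed_mem_Cor hM he).1
    · exact Or.inr (ed_mem_Cor hM he).2
  · refine NonUnitalAlgebra.adjoin_le ?_
    rw [← cor_eq_adjoin hNM]
    rintro a (ha | ha)
    · exact Cor_mono Set.subset_union_left ha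
    · exact Cor_mono Set.subset_union_right ha

/-- induction over the corner of a hereditary set -/
theorem cor_ind {N : Set V} (hN : Her G N) {P : UA K G → Prop} (hv : ∀ x ∈ N, P (vx K G x))
    (he : ∀ e, G.s e ∈ N → P (ed K G e)) (hg : ∀ e, G.s e ∈ N → P (gh K G e)) (h0 : P 0)
    (hadd : ∀ a b, P a → P b → P (a + b)) (hmul : ∀ a b, P a → P b → P (a * b))
    (hsmul : ∀ (k : K) a, P a → P (k • a)) {a : UA K G} (ha : a ∈ Cor K G N) : P a := by
  rw [cor_eq_adjoin hN] at ha
  have ha' : a ∈ NonUnitalAlgebra.adjoin K (gensOf K G N) := ha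
  induction ha' using NonUnitalAlgebra.adjoin_induction with
  | mem z hz =>
    rcases hz with ⟨y, hy, rfl⟩ | ⟨e, he', rfl | rfl⟩
    · exact hv y hy
    · exact he e he'
    · exact hg e he'
  | add a b h1' h2' h1 h2 => exact hadd _ _ (h1 h1') (h2 h2')
  | zero => exact h0
  | mul a b h1' h2' h1 h2 => exact hmul _ _ (h1 h1') (h2 h2')
  | smul k a h1' h1 => exact hsmul k _ (h1 h1')

end Pool.Agent.Work.MP_2b4d3b_al.NE
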