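import Pool.Agent.Work.MP_2b4d3b_al.NE.Defs

/-
Paths and cycles in graphs without exits.
PROOF. pth_append, rch_iff, her_rch: inductions. cyc_rch: induction on the reachability; one step: x cyclic, e with s e = x; x has
an edge f with s f = x and r f reaches x; by NoExit (f on a cycle: r f reaches s f = x) e = f, so r e reaches x and r e is cyclic
(r e reaches x by a path, which followed by e returns to r e; if the path is empty then r e = x).
pth_det: induction on l generalizing x m: l = e :: l', m nonempty since lengths, m = f :: m', both edges start at the cyclic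
vertex x, so e = f (there is an edge g at x on a cycle and e = g = f), r e is cyclic.
ret_exists: a nonempty closed path at x of minimal length (Nat.find): it does not return before its end.
ret_uniq: by pth_det one is a prefix of the other, l = m ++ k (say); if k is nonempty this contradicts Ret for l.
-/

set_option linter.unusedVariables false
set_option linter.style.longLine false
set_option linter.unusedSectionVars false

namespace Pool.Agent.Work.MP_2b4d3b_al.NE

universe u v w u' v' w'

open Finset

variable {V : Type v} {E : Type w} {G : Gr V E}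

theorem pth_append {x z : V} {l m : List E} :
    Pth G x (l ++ m) z ↔ ∃ y, Pth G x l y ∧ Pth G y m z := by
  induction l generalizing x with
  | nil =>
    constructor
    · intro h
      exact ⟨x, rfl, h⟩
    · rintro ⟨y, rfl, h⟩
      exact h
  | cons e l ih =>
    constructor
    · rintro ⟨h1, h2⟩
      obtain ⟨y, h3, h4⟩ := ih.1 h2
      exact ⟨y, ⟨h1, h3⟩, h4⟩
    · rintro ⟨y, ⟨h1, h3⟩, h4⟩
      exact ⟨h1, ih.2 ⟨y, h3, h4⟩⟩

theorem rch_iff {x y : V} : GRch G x y ↔ ∃ l, Pth G x l y := by
  constructor
  · intro h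
    induction h using Relation.ReflTransGen.head_induction_on with
    | refl => exact ⟨[], rfl⟩
    | head h1 h2 ih =>
      obtain ⟨e, h3, h4⟩ := h1
      obtain ⟨l, hl⟩ := ih
      refine ⟨e :: l, h3, ?_⟩
      rw [h4]
      exact hl
  · rintro ⟨l, hl⟩
    induction l generalizing x with
    | nil =>
      have h1 : x = y := hl
      rw [h1]
      exact Relation.ReflTransGen.refl
    | cons e l ih =>
      obtain ⟨h1, h2⟩ := hl
      exact Relation.ReflTransGen.head ⟨e, h1, rfl⟩ (ih h2)

theorem her_rch {N : Set V} (hN : Her G N) {x y : V} (hx : x ∈ N) (h : GRch G x y) : y ∈ N := by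
  induction h with
  | refl => exact hx
  | tail _ h2 ih =>
    obtain ⟨e, h3, h4⟩ := h2
    rw [← h4]
    apply hN
    rw [h3]
    exact ih

theorem cyc_rch (hG : NoExit G) {x y : V} (hx : Cyc G x) (h : GRch G x y) :
    Cyc G y ∧ GRch G y x := by
  induction h with
  | refl => exact ⟨hx, Relation.ReflTransGen.refl⟩
  | @tail b c _ h2 ih =>
    obtain ⟨e, h3, h4⟩ := h2
    obtain ⟨⟨f, h5, h6⟩, h7⟩ := ih
    have hef : e = f := by
      apply hG f e (h3.trans h5.symm)
      rw [h5]
      exact h6
    subst hef
    have h8 : GRch G c b := by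
      rw [← h4]
      exact h6
    refine ⟨?_, h8.trans h7⟩
    rcases Relation.ReflTransGen.cases_head h8 with h9 | ⟨d, ⟨g, h9, h10⟩, h11⟩
    · rw [h9]
      exact ⟨e, h5, h6⟩
    · refine ⟨g, h9, ?_⟩
      rw [h10]
      exact h11.tail ⟨e, h3, h4⟩

/-- the edge at a cyclic vertex is unique -/
theorem cyc_edge (hG : NoExit G) {x : V} (hx : Cyc G x) {e f : E} (he : G.s e = x)
    (hf : G.s f = x) : e = f := by
  obtain ⟨g, h1, h2⟩ := hx
  have h3 : GRch G (G.r g) (G.s g) := by
    rw [h1]
    exact h2
  rw [hG g e (he.trans h1.symm) h3, hG g f (hf.trans h1.symm) h3]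

theorem pth_det (hG : NoExit G) {x y z : V} (hx : Cyc G x) {l m : List E} (hl : Pth G x l y)
    (hm : Pth G x m z) (h : l.length ≤ m.length) : l <+: m := by
  induction l generalizing x m with
  | nil => exact List.nil_prefix
  | cons e l ih =>
    cases m with
    | nil => simp at h
    | cons f m =>
      obtain ⟨h1, h2⟩ := hl
      obtain ⟨h3, h4⟩ := hm
      have hef : e = f := cyc_edge hG hx h1 h3
      subst hef
      have h5 : Cyc G (G.r e) :=
        (cyc_rch hG hx (Relation.ReflTransGen.single ⟨e, h1, rfl⟩)).1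
      have h6 : l <+: m := ih h5 h2 h4 (by simpa using h)
      exact (List.prefix_cons_inj e).2 h6

theorem ret_exists {x : V} (hx : Cyc G x) : ∃ l, Ret G x l := by
  classical
  have h1 : ∃ n, ∃ l : List E, l.length = n ∧ l ≠ [] ∧ Pth G x l x := by
    obtain ⟨e, h1, h2⟩ := hx
    obtain ⟨l, hl⟩ := rch_iff.1 h2
    exact ⟨_, e :: l, rfl, by simp, h1, hl⟩
  obtain ⟨l, hl1, hl2, hl3⟩ := Nat.find_spec h1
  refine ⟨l, hl2, hl3, ?_⟩
  intro l1 l2 h2 h3 h4 h5
  have h6 : l1.length < Nat.find h1 := by
    rw [← hl1, h2, List.length_append]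
    have : 0 < l2.length := List.length_pos_iff.2 h4
    omega
  exact Nat.find_min h1 h6 ⟨l1, rfl, h3, h5⟩

theorem ret_cyc {x : V} {l : List E} (h : Ret G x l) : Cyc G x ∧ Pth G x l x := by
  obtain ⟨h1, h2, -⟩ := h
  refine ⟨?_, h2⟩
  cases l with
  | nil => exact absurd rfl h1
  | cons e l => exact ⟨e, h2.1, rch_iff.2 ⟨l, h2.2⟩⟩

theorem ret_uniq (hG : NoExit G) {x : V} {l m : List E} (hl : Ret G x l) (hm : Ret G x m) :
    l = m := by
  have key : ∀ l m : List E, Ret G x l → Ret G x m → l.length ≤ m.length → l = m := by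
    intro l m hl hm h
    obtain ⟨k, hk⟩ := pth_det hG (ret_cyc hl).1 hl.2.1 hm.2.1 h
    by_cases hk0 : k = []
    · rw [hk0, List.append_nil] at hk
      exact hk
    · exact absurd hl.2.1 (hm.2.2 l k hk.symm hl.1 hk0)
  rcases le_total l.length m.length with h | h
  · exact key l m hl hm h
  · exact (key m l hm hl h).symm

end Pool.Agent.Work.MP_2b4d3b_al.NE
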