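import Pool.Agent.Work.MP_2b4d3b_al.NE.Defs
import Pool.Agent.Work.MP_2b4d3b_al.NE.DynA

/-
PROOF. closed_pow: by strong induction on the length of the closed path l at the cyclic vertex x with cycle m (Ret G x m): if
l is empty take k = 0. Otherwise a shortest nonempty prefix of l which is closed at x is a Ret, so equal to m (ret_uniq); the rest
is a shorter closed path. pth_two: by pth_det (x cyclic) one of g, g' is a prefix of the other, say g' = g ++ h; then h is a closed
path at y, so a power of m. ret_comm: l ++ g and g ++ m are paths from x to y. pth_two for g and l ++ g: l ++ g = g ++ m^k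
(the other alternative g = l ++ g ++ m^k is impossible by length), so |l| = k |m|, k >= 1 as l is nonempty. With a path g' from y
to x (cyc_rch) in the same way |m| = k' |l|, so |l| = |m| and k = 1.
pth_edges: the edges of a path which starts in W (finite subgraph with CycSat, Ends) at a cyclic vertex belong to T, and its end
belongs to W: induction on the path (all its vertices are cyclic by cyc_rch).
-/

set_option linter.unusedVariables false
set_option linter.style.longLine false
set_option linter.unusedSectionVars false

namespace Pool.Agent.Work.MP_2b4d3b_al.NE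

universe u v w u' v' w'

open Finset

variable {V : Type v} {E : Type w} {G : Gr V E}

private theorem pth_end {x y z : V} {l : List E} (h : Pth G x l y) (h' : Pth G x l z) : y = z := by
  induction l generalizing x with
  | nil =>
    have h1 : x = y := h
    have h2 : x = z := h'
    rw [← h1, h2]
  | cons e l ih => exact ih h.2 h'.2

private theorem pth_two_aux (hG : NoExit G) {x y : V} (hx : Cyc G x) {m g g' : List E}
    (hm : Ret G y m) (hg : Pth G x g y) (hg' : Pth G x g' y) (h : g.length ≤ g'.length) :
    ∃ r, g' = g ++ r ∧ Pth G y r y := by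
  obtain ⟨r, hr⟩ := pth_det hG hx hg hg' h
  rw [← hr, pth_append] at hg'
  obtain ⟨z, h1, h2⟩ := hg'
  have h3 : y = z := pth_end hg h1
  subst h3
  exact ⟨r, hr.symm, h2⟩

theorem closed_pow (hG : NoExit G) {x : V} {l m : List E} (hm : Ret G x m) (hl : Pth G x l x) :
    ∃ k : ℕ, l = (List.replicate k m).flatten := by
  have hx := ret_cyc hm
  induction hn : l.length using Nat.strong_induction_on generalizing l with
  | _ n ih =>
    subst hn
    rcases lt_or_ge l.length m.length with h | h
    · obtain ⟨r, hr⟩ := pth_det hG hx.1 hl hm.2.1 h.le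
      by_cases h0 : l = []
      · exact ⟨0, by simp [h0]⟩
      · exfalso
        refine hm.2.2 l r hr.symm h0 ?_ hl
        intro h1
        rw [h1, List.append_nil] at hr
        rw [hr] at h
        exact lt_irrefl _ h
    · obtain ⟨r, hr⟩ := pth_det hG hx.1 hm.2.1 hl h
      rw [← hr, pth_append] at hl
      obtain ⟨y, h1, h2⟩ := hl
      have h3 : x = y := pth_end hm.2.1 h1
      subst h3
      have h4 : 0 < m.length := List.length_pos_iff.2 hm.1
      have h5 : r.length < l.length := by
        rw [← hr, List.length_append]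
        omega
      obtain ⟨k, hk⟩ := ih r.length h5 h2 rfl
      refine ⟨k + 1, ?_⟩
      rw [List.replicate_succ, List.flatten_cons, ← hk, hr]

theorem pth_two (hG : NoExit G) {x y : V} (hx : Cyc G x) {m g g' : List E} (hm : Ret G y m)
    (hg : Pth G x g y) (hg' : Pth G x g' y) :
    ∃ k : ℕ, g' = g ++ (List.replicate k m).flatten ∨ g = g' ++ (List.replicate k m).flatten := by
  rcases le_total g.length g'.length with h | h
  · obtain ⟨r, hr, h1⟩ := pth_two_aux hG hx hm hg hg' h
    obtain ⟨k, hk⟩ := closed_pow hG hm h1
    exact ⟨k, Or.inl (by rw [hr, hk])⟩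
  · obtain ⟨r, hr, h1⟩ := pth_two_aux hG hx hm hg' hg h
    obtain ⟨k, hk⟩ := closed_pow hG hm h1
    exact ⟨k, Or.inr (by rw [hr, hk])⟩

private theorem ret_comm_aux (hG : NoExit G) {x y : V} {l m g : List E} (hl : Ret G x l)
    (hm : Ret G y m) (hg : Pth G x g y) :
    ∃ k : ℕ, l ++ g = g ++ (List.replicate k m).flatten ∧ l.length = k * m.length := by
  have hx := ret_cyc hl
  have h1 : Pth G x (l ++ g) y := pth_append.2 ⟨x, hx.2, hg⟩
  obtain ⟨k, hk | hk⟩ := pth_two hG hx.1 hm hg h1
  · refine ⟨k, hk, ?_⟩
    have h2 := congrArg List.length hk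
    simp only [List.length_append, List.length_flatten, List.map_replicate, List.sum_replicate,
      smul_eq_mul] at h2
    omega
  · exfalso
    have h2 := congrArg List.length hk
    have h3 : 0 < l.length := List.length_pos_iff.2 hl.1
    simp only [List.length_append] at h2
    omega

theorem ret_comm (hG : NoExit G) {x y : V} {l m g : List E} (hl : Ret G x l) (hm : Ret G y m)
    (hg : Pth G x g y) : l ++ g = g ++ m := by
  obtain ⟨k, h1, h2⟩ := ret_comm_aux hG hl hm hg
  have hx := ret_cyc hl
  have hyx := cyc_rch hG hx.1 (rch_iff.2 ⟨g, hg⟩)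
  obtain ⟨g', hg'⟩ := rch_iff.1 hyx.2
  obtain ⟨k', -, h3⟩ := ret_comm_aux hG hm hl hg'
  have h4 : 0 < m.length := List.length_pos_iff.2 hm.1
  have h5 : k * k' = 1 := by
    have h6 : l.length = k * k' * l.length := by
      rw [mul_assoc, ← h3]
      exact h2
    have h7 : 0 < l.length := List.length_pos_iff.2 hl.1
    exact Nat.eq_of_mul_eq_mul_right h7 (by rw [one_mul]; exact h6.symm)
  have h8 : k = 1 := Nat.eq_one_of_mul_eq_one_right h5
  rw [h1, h8]
  simp

theorem pth_edges (hG : NoExit G) {W : Finset V} {T : Finset E} (hs : CycSat G W T)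
    (he : Ends G W T) {x y : V} (hx : x ∈ W) (hc : Cyc G x) {l : List E} (hl : Pth G x l y) :
    (∀ e ∈ l, e ∈ T) ∧ y ∈ W := by
  induction l generalizing x with
  | nil =>
    have h1 : x = y := hl
    subst h1
    exact ⟨by simp, hx⟩
  | cons e l ih =>
    obtain ⟨h1, h2⟩ := hl
    subst h1
    have h3 : e ∈ T := hs e hx hc
    have h4 := he e h3
    have h5 : GRch G (G.s e) (G.r e) := Relation.ReflTransGen.single ⟨e, rfl, rfl⟩
    obtain ⟨h6, h7⟩ := ih h4.2 (cyc_rch hG hc h5).1 h2
    refine ⟨fun f hf => ?_, h7⟩
    rcases List.mem_cons.1 hf with rfl | hf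
    · exact h3
    · exact h6 f hf

end Pool.Agent.Work.MP_2b4d3b_al.NE
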