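import Pool.Agent.Work.MP_2b4d3b_al.NE.Defs
import Pool.Agent.Work.MP_2b4d3b_al.NE.DynB

/-
Finite nice subgraphs. PROOF. nice_exists: let W1 = W0 together with the ends of the edges in T0 (in N since N is hereditary).
For every cyclic x in W1 add the vertices and the edges of its cycle (ret_exists: finitely many edges l; the edges e of l, their
sources and ranges); all of them are in N (reachable from x) . The result (W, T): Ends is clear; CycSat: a cyclic vertex of W is
a cyclic vertex of W1 or on one of these cycles (if x in W is the source or the range of an edge of T0 it is in W1), and its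
unique edge (cyc_edge) lies on the cycle and is in T. nice_mono: clear. nice_union: unions of nice subgraphs are nice.
-/

set_option linter.unusedVariables false
set_option linter.style.longLine false
set_option linter.unusedSectionVars false

namespace Pool.Agent.Work.MP_2b4d3b_al.NE

universe u v w u' v' w'

open Finset

variable {V : Type v} {E : Type w} {G : Gr V E}

private theorem pth_next {x y : V} {l : List E} (h : Pth G x l y) {g : E} (hg : g ∈ l) :
    G.r g = y ∨ ∃ f ∈ l, G.s f = G.r g := by
  induction l generalizing x with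
  | nil => simp at hg
  | cons e l ih =>
    obtain ⟨h1, h2⟩ := h
    rcases List.mem_cons.1 hg with rfl | hg
    · cases l with
      | nil => exact Or.inl h2
      | cons f l => exact Or.inr ⟨f, by simp, h2.1⟩
    · rcases ih h2 hg with h3 | ⟨f, hf, h3⟩
      · exact Or.inl h3
      · exact Or.inr ⟨f, List.mem_cons_of_mem _ hf, h3⟩

private theorem pth_src {x y : V} {l : List E} (h : Pth G x l y) {g : E} (hg : g ∈ l) :
    GRch G x (G.s g) := by
  induction l generalizing x with
  | nil => simp at hg
  | cons e l ih =>
    obtain ⟨h1, h2⟩ := h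
    rcases List.mem_cons.1 hg with rfl | hg
    · rw [h1]
      exact Relation.ReflTransGen.refl
    · exact Relation.ReflTransGen.head ⟨e, h1, rfl⟩ (ih h2 hg)

theorem nice_exists (hG : NoExit G) {N : Set V} (hN : Her G N) (W0 : Finset V) (T0 : Finset E)
    (hW : ∀ x ∈ W0, x ∈ N) (hT : ∀ e ∈ T0, G.s e ∈ N) :
    ∃ (W : Finset V) (T : Finset E), Nice G N W T ∧ W0 ⊆ W ∧ T0 ⊆ T := by
  classical
  have hex : ∀ x : V, ∃ l : List E, Cyc G x → Ret G x l := by
    intro x
    by_cases hx : Cyc G x
    · obtain ⟨l, hl⟩ := ret_exists hx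
      exact ⟨l, fun _ => hl⟩
    · exact ⟨[], fun h => absurd h hx⟩
  choose L0 hL0 using hex
  let L : V → List E := fun x => if Cyc G x then L0 x else []
  have hL : ∀ x, Cyc G x → L x = L0 x := fun x hx => if_pos hx
  have hLc : ∀ x e, e ∈ L x → Cyc G x := by
    intro x e he
    by_contra hx
    have h1 : L x = [] := if_neg hx
    rw [h1] at he
    simp at he
  let W1 : Finset V := W0 ∪ T0.image G.s ∪ T0.image G.r
  let T : Finset E := T0 ∪ W1.biUnion (fun x => (L x).toFinset)
  let W : Finset V := W1 ∪ T.image G.s ∪ T.image G.r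
  have hW1N : ∀ x ∈ W1, x ∈ N := by
    intro x hx
    rcases Finset.mem_union.1 hx with hx | hx
    · rcases Finset.mem_union.1 hx with hx | hx
      · exact hW x hx
      · obtain ⟨e, he, rfl⟩ := Finset.mem_image.1 hx
        exact hT e he
    · obtain ⟨e, he, rfl⟩ := Finset.mem_image.1 hx
      exact hN e (hT e he)
  have hTs : ∀ e ∈ T, G.s e ∈ N := by
    intro e he
    rcases Finset.mem_union.1 he with he | he
    · exact hT e he
    · obtain ⟨x, hx, he⟩ := Finset.mem_biUnion.1 he
      have he' : e ∈ L x := List.mem_toFinset.1 he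
      have hc := hLc x e he'
      rw [hL x hc] at he'
      exact her_rch hN (hW1N x hx) (pth_src (hL0 x hc).2.1 he')
  have hA : ∀ e, G.s e ∈ W1 → Cyc G (G.s e) → e ∈ T := by
    intro e he hc
    refine Finset.mem_union.2 (Or.inr (Finset.mem_biUnion.2 ⟨G.s e, he, ?_⟩))
    rw [List.mem_toFinset, hL _ hc]
    have h1 := hL0 _ hc
    cases h2 : L0 (G.s e) with
    | nil => exact absurd h2 h1.1
    | cons f l =>
      have h3 := h1.2.1
      rw [h2] at h3
      have h4 : e = f := cyc_edge hG hc rfl h3.1
      rw [h4]
      simp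
  refine ⟨W, T, ⟨?_, ?_, ?_⟩, ?_, ?_⟩
  · intro x hx
    rcases Finset.mem_union.1 hx with hx | hx
    · rcases Finset.mem_union.1 hx with hx | hx
      · exact hW1N x hx
      · obtain ⟨e, he, rfl⟩ := Finset.mem_image.1 hx
        exact hTs e he
    · obtain ⟨e, he, rfl⟩ := Finset.mem_image.1 hx
      exact hN e (hTs e he)
  · intro e he hc
    rcases Finset.mem_union.1 he with he | he
    · rcases Finset.mem_union.1 he with he | he
      · exact hA e he hc
      · obtain ⟨g, hg, hge⟩ := Finset.mem_image.1 he
        rw [cyc_edge hG hc rfl hge]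
        exact hg
    · obtain ⟨g, hg, hge⟩ := Finset.mem_image.1 he
      rcases Finset.mem_union.1 hg with hg0 | hg0
      · refine hA e ?_ hc
        rw [← hge]
        exact Finset.mem_union.2 (Or.inr (Finset.mem_image_of_mem _ hg0))
      · obtain ⟨x, hx, hgx⟩ := Finset.mem_biUnion.1 hg0
        have hgx' : g ∈ L x := List.mem_toFinset.1 hgx
        have hxc := hLc x g hgx'
        have hgx2 := hgx'
        rw [hL x hxc] at hgx2
        rcases pth_next (hL0 x hxc).2.1 hgx2 with h1 | ⟨f, hf, h1⟩
        · refine hA e ?_ hc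
          rw [← hge, h1]
          exact hx
        · rw [cyc_edge hG hc rfl (h1.trans hge)]
          refine Finset.mem_union.2 (Or.inr (Finset.mem_biUnion.2 ⟨x, hx, ?_⟩))
          rw [List.mem_toFinset, hL x hxc]
          exact hf
  · intro e he
    exact ⟨Finset.mem_union.2 (Or.inl (Finset.mem_union.2 (Or.inr (Finset.mem_image_of_mem _ he)))),
      Finset.mem_union.2 (Or.inr (Finset.mem_image_of_mem _ he))⟩
  · intro x hx
    exact Finset.mem_union.2 (Or.inl (Finset.mem_union.2 (Or.inl (Finset.mem_union.2 (Or.inl
      (Finset.mem_union.2 (Or.inl hx)))))))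
  · intro e he
    exact Finset.mem_union.2 (Or.inl he)

theorem nice_mono {N M : Set V} (h : N ⊆ M) {W : Finset V} {T : Finset E} (hn : Nice G N W T) :
    Nice G M W T :=
  ⟨fun x hx => h (hn.1 x hx), hn.2.1, hn.2.2⟩

open Classical in
theorem nice_union {N : Set V} {W W' : Finset V} {T T' : Finset E} (h : Nice G N W T)
    (h' : Nice G N W' T') : Nice G N (W ∪ W') (T ∪ T') := by
  obtain ⟨a1, a2, a3⟩ := h
  obtain ⟨b1, b2, b3⟩ := h'
  refine ⟨?_, ?_, ?_⟩
  · intro x hx
    rcases Finset.mem_union.1 hx with hx | hx
    · exact a1 x hx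
    · exact b1 x hx
  · intro e he hc
    rcases Finset.mem_union.1 he with he | he
    · exact Finset.mem_union_left _ (a2 e he hc)
    · exact Finset.mem_union_right _ (b2 e he hc)
  · intro e he
    rcases Finset.mem_union.1 he with he | he
    · exact ⟨Finset.mem_union_left _ (a3 e he).1, Finset.mem_union_left _ (a3 e he).2⟩
    · exact ⟨Finset.mem_union_right _ (b3 e he).1, Finset.mem_union_right _ (b3 e he).2⟩

end Pool.Agent.Work.MP_2b4d3b_al.NE
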