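import Pool.Agent.Work.MP_2b4d3b_al.NE.Defs

/-
A branching system. PROOF. Y = N x List E. For each vertex x choose an injective map f_x : {e // s e = x} x Y -> Y:
if x is regular, F = {e // s e = x} is finite and nonempty and Y ... take a bijection F x Y ≃ Y: F x N ≃ N (both countable and
infinite, e.g. nonempty_equiv_of_countable), so F x (N x List E) ≃ (F x N) x List E ≃ N x List E. If x is not regular take
f_x (e, (n, l)) = (n, e :: l), which misses (0, []). Put φ e y = f_(s e) (⟨e, rfl⟩, y).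
-/

set_option linter.unusedVariables false
set_option linter.style.longLine false
set_option linter.unusedSectionVars false

namespace Pool.Agent.Work.MP_2b4d3b_al.NE

universe u v w u' v' w'

open Finset

variable {V : Type v} {E : Type w}

private theorem lemX (G : Gr V E) (x : V) :
    ∃ f : {e // G.s e = x} × (ℕ × List E) → ℕ × List E, Function.Injective f ∧
      (Regu G x → Function.Surjective f) ∧ (¬ Regu G x → ∃ y, ∀ z, f z ≠ y) := by
  by_cases hr : Regu G x
  · obtain ⟨Q, hQ, hne⟩ := hr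
    haveI : Finite {e // G.s e = x} := by
      have hfin : Set.Finite {e | G.s e = x} :=
        Q.finite_toSet.subset (fun e he => (hQ e).2 he)
      exact hfin.to_subtype
    haveI : Nonempty {e // G.s e = x} := by
      obtain ⟨e, he⟩ := hne
      exact ⟨⟨e, (hQ e).1 he⟩⟩
    obtain ⟨g⟩ := (nonempty_equiv_of_countable : Nonempty (({e // G.s e = x} × ℕ) ≃ ℕ))
    let h : ({e // G.s e = x} × (ℕ × List E)) ≃ ℕ × List E :=
      (Equiv.prodAssoc _ _ _).symm.trans (Equiv.prodCongr g (Equiv.refl _))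
    exact ⟨h, h.injective, fun _ => h.surjective, fun hn => absurd ⟨Q, hQ, hne⟩ hn⟩
  · refine ⟨fun t => (t.2.1, t.1.1 :: t.2.2), ?_, fun h => absurd h hr, fun _ => ⟨(0, []), ?_⟩⟩
    · rintro ⟨⟨e, he⟩, n, l⟩ ⟨⟨f, hf⟩, m, k⟩ h
      simp only [Prod.mk.injEq, List.cons.injEq] at h
      obtain ⟨h1, h2, h3⟩ := h
      subst h1; subst h2; subst h3; rfl
    · rintro ⟨e, n, l⟩ h
      simp at h

theorem exists_br (G : Gr V E) : ∃ φ : E → (ℕ × List E) → (ℕ × List E),
    (∀ e, Function.Injective (φ e)) ∧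
    (∀ e f, G.s e = G.s f → e ≠ f → ∀ y z, φ e y ≠ φ f z) ∧
    (∀ x, Regu G x → ∀ y, ∃ e z, G.s e = x ∧ φ e z = y) ∧
    (∀ x, ¬ Regu G x → ∃ y, ∀ e z, G.s e = x → φ e z ≠ y) := by
  choose f hf using lemX G
  have key : ∀ (x : V) (e : E) (h : G.s e = x) (y : ℕ × List E),
      f (G.s e) (⟨e, rfl⟩, y) = f x (⟨e, h⟩, y) := by
    intro x e h y
    subst h
    rfl
  refine ⟨fun e y => f (G.s e) (⟨e, rfl⟩, y), ?_, ?_, ?_, ?_⟩
  · intro e y z h
    have := (hf (G.s e)).1 h
    simp only [Prod.mk.injEq, true_and] at this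
    exact this
  · intro e g hs hne y z h
    have h' : f (G.s e) (⟨e, rfl⟩, y) = f (G.s g) (⟨g, rfl⟩, z) := h
    rw [key (G.s e) g hs.symm z] at h'
    have := (hf (G.s e)).1 h'
    simp only [Prod.mk.injEq, Subtype.mk.injEq] at this
    exact hne this.1
  · intro x hx y
    obtain ⟨⟨⟨e, he⟩, z⟩, hz⟩ := (hf x).2.1 hx y
    exact ⟨e, z, he, by rw [← hz]; exact key x e he z⟩
  · intro x hx
    obtain ⟨y, hy⟩ := (hf x).2.2 hx
    refine ⟨y, fun e z he h => hy (⟨e, he⟩, z) ?_⟩
    rw [← h]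
    exact (key x e he z).symm

end Pool.Agent.Work.MP_2b4d3b_al.NE
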