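import Pool.Agent.Work.MP_2b4d3b_al.NE.Defs

/-
The representation of the branching system with a degree.
PROOF. M = (V x (N x List E) x Z) ->0 K. p x: Finsupp.lmapDomain-like maps are best defined by their values on the basis
(Finsupp.lsum or (Finsupp.basisSingleOne).constr): p x sends single t 1 to itself if t.1 = x, else to 0; a e sends single t 1 to
single (s e, φ e t.2.1, t.2.2 + 1) 1 if t.1 = r e, else 0; b e sends single t 1 to single (r e, y, t.2.2 - 1) 1 if t.1 = s e and
t.2.1 = φ e y (y is unique by injectivity: Classical.choose), else to 0. The relations of Fam are checked on basis vectors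
(Finsupp.lhom_ext'). ck: x regular with edge set S: on single t 1 with t.1 = x, t.2.1 = φ e z for exactly one edge e with s e = x
(surjectivity and disjointness), so exactly one term of the sum is nonzero and gives back single t 1.
-/

set_option linter.unusedVariables false
set_option linter.style.longLine false
set_option linter.unusedSectionVars false

namespace Pool.Agent.Work.MP_2b4d3b_al.NE

universe u v w u' v' w'

open Finset

private theorem endext {K : Type u} [CommRing K] {T : Type v}
    {f g : Module.End K (T →₀ K)}
    (h : ∀ t, f (Finsupp.single t 1) = g (Finsupp.single t 1)) : f = g := by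
  refine Finsupp.lhom_ext' fun t => LinearMap.ext_ring ?_
  exact h t

private noncomputable def op (K : Type u) [CommRing K] {T : Type v} (o : T → Option T) :
    Module.End K (T →₀ K) :=
  Finsupp.linearCombination K (fun t => (o t).elim 0 (fun t' => Finsupp.single t' 1))

private theorem op_single {K : Type u} [CommRing K] {T : Type v} (o : T → Option T) (t : T) :
    op K o (Finsupp.single t 1) = (o t).elim 0 (fun t' => Finsupp.single t' 1) := by
  simp [op, Finsupp.linearCombination_single]

private theorem op_mul {K : Type u} [CommRing K] {T : Type v} (o1 o2 : T → Option T) :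
    op K o1 * op K o2 = op K (fun t => (o2 t).bind o1) := by
  apply endext
  intro t
  rw [op_single, Module.End.mul_apply, op_single]
  cases h : o2 t with
  | none => simp
  | some t' =>
    simp only [Option.elim_some, Option.bind_some]
    rw [op_single]

private theorem op_none {K : Type u} [CommRing K] {T : Type v} (o : T → Option T)
    (h : ∀ t, o t = none) : op K o = 0 := by
  apply endext
  intro t
  rw [op_single, h t]
  rfl

private theorem op_congr {K : Type u} [CommRing K] {T : Type v} {o o' : T → Option T}
    (h : ∀ t, o t = o' t) : op K o = op K o' := by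
  rw [funext h]

open Classical in
theorem exists_rep (K : Type u) [CommRing K] {V : Type v} {E : Type w} (G : Gr V E)
    (φ : E → (ℕ × List E) → (ℕ × List E)) (h1 : ∀ e, Function.Injective (φ e))
    (h2 : ∀ e f, G.s e = G.s f → e ≠ f → ∀ y z, φ e y ≠ φ f z)
    (h3 : ∀ x, Regu G x → ∀ y, ∃ e z, G.s e = x ∧ φ e z = y) :
    ∃ F : Fam K G (Module.End K ((V × (ℕ × List E) × ℤ) →₀ K)),
      (∀ x t, F.p x (Finsupp.single t 1) = if t.1 = x then Finsupp.single t 1 else 0) ∧
      (∀ e t, F.a e (Finsupp.single t 1) =
        if t.1 = G.r e then Finsupp.single (G.s e, φ e t.2.1, t.2.2 + 1) 1 else 0) ∧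
      (∀ e y n, F.b e (Finsupp.single (G.s e, φ e y, n) 1) =
        Finsupp.single (G.r e, y, n - 1) 1) ∧
      (∀ e t, (∀ y, t.1 = G.s e → t.2.1 ≠ φ e y) → F.b e (Finsupp.single t 1) = 0) := by
  have hch : ∀ e : E, ∃ c : (ℕ × List E) → (ℕ × List E), ∀ y, c (φ e y) = y := by
    intro e
    exact ⟨Function.invFun (φ e), fun y => Function.leftInverse_invFun (h1 e) y⟩
  choose c hc using hch
  let P : V → (V × (ℕ × List E) × ℤ) → Option (V × (ℕ × List E) × ℤ) :=
    fun x t => if t.1 = x then some t else none
  let A : E → (V × (ℕ × List E) × ℤ) → Option (V × (ℕ × List E) × ℤ) :=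
    fun e t => if t.1 = G.r e then some (G.s e, φ e t.2.1, t.2.2 + 1) else none
  let B : E → (V × (ℕ × List E) × ℤ) → Option (V × (ℕ × List E) × ℤ) :=
    fun e t => if t.1 = G.s e ∧ ∃ y, t.2.1 = φ e y then some (G.r e, c e t.2.1, t.2.2 - 1) else none
  have hP : ∀ x t, P x t = if t.1 = x then some t else none := fun _ _ => rfl
  have hA : ∀ e t, A e t =
      if t.1 = G.r e then some (G.s e, φ e t.2.1, t.2.2 + 1) else none := fun _ _ => rfl
  have hB : ∀ e t, B e t = if t.1 = G.s e ∧ ∃ y, t.2.1 = φ e y then
      some (G.r e, c e t.2.1, t.2.2 - 1) else none := fun _ _ => rfl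
  have hPp : ∀ x t, t.1 = x → P x t = some t := fun x t h => by rw [hP, if_pos h]
  have hPn : ∀ x t, t.1 ≠ x → P x t = none := fun x t h => by rw [hP, if_neg h]
  have hAp : ∀ e t, t.1 = G.r e → A e t = some (G.s e, φ e t.2.1, t.2.2 + 1) :=
    fun e t h => by rw [hA, if_pos h]
  have hAn : ∀ e t, t.1 ≠ G.r e → A e t = none := fun e t h => by rw [hA, if_neg h]
  have hBp : ∀ e y n, B e (G.s e, φ e y, n) = some (G.r e, y, n - 1) := by
    intro e y n
    rw [hB, if_pos ⟨rfl, y, rfl⟩, hc e y]
  have hBn : ∀ e t, (∀ y, t.1 = G.s e → t.2.1 ≠ φ e y) → B e t = none := by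
    intro e t h
    rw [hB, if_neg]
    rintro ⟨h1, y, h2⟩
    exact h y h1 h2
  refine ⟨{ p := fun x => op K (P x), a := fun e => op K (A e), b := fun e => op K (B e),
            vv := ?_, vw := ?_, se := ?_, er := ?_, rg := ?_, gs := ?_, ge := ?_, gf := ?_,
            ck := ?_ }, ?_, ?_, ?_, ?_⟩
  · intro x
    rw [op_mul]
    apply op_congr
    intro t
    by_cases h : t.1 = x
    · rw [hPp x t h, Option.bind_some, hPp x t h]
    · rw [hPn x t h, Option.bind_none]
  · intro x y hxy
    rw [op_mul]
    apply op_none
    intro t
    by_cases h : t.1 = y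
    · rw [hPp y t h, Option.bind_some, hPn x t (fun h' => hxy (h'.symm.trans h))]
    · rw [hPn y t h, Option.bind_none]
  · intro e
    rw [op_mul]
    apply op_congr
    intro t
    by_cases h : t.1 = G.r e
    · rw [hAp e t h, Option.bind_some]
      exact hPp (G.s e) _ rfl
    · rw [hAn e t h, Option.bind_none]
  · intro e
    rw [op_mul]
    apply op_congr
    intro t
    by_cases h : t.1 = G.r e
    · rw [hPp _ t h, Option.bind_some]
    · rw [hPn _ t h, Option.bind_none, hAn e t h]
  · intro e
    rw [op_mul]
    apply op_congr
    intro t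
    by_cases h : ∃ y, t.1 = G.s e ∧ t.2.1 = φ e y
    · obtain ⟨y, h1, h2⟩ := h
      obtain ⟨t1, t2, n⟩ := t
      simp only at h1 h2
      subst h1; subst h2
      rw [hBp, Option.bind_some]
      exact hPp (G.r e) _ rfl
    · rw [hBn e t (fun y h1 h2 => h ⟨y, h1, h2⟩), Option.bind_none]
  · intro e
    rw [op_mul]
    apply op_congr
    intro t
    by_cases h : t.1 = G.s e
    · rw [hPp _ t h, Option.bind_some]
    · rw [hPn _ t h, Option.bind_none, hBn e t (fun y h1 _ => h h1)]
  · intro e
    rw [op_mul]
    apply op_congr
    intro t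
    by_cases h : t.1 = G.r e
    · rw [hAp e t h, Option.bind_some, hPp _ t h, hBp]
      obtain ⟨t1, t2, n⟩ := t
      simp only at h
      subst h
      simp
    · rw [hAn e t h, Option.bind_none, hPn _ t h]
  · intro e f hef
    rw [op_mul]
    apply op_none
    intro t
    by_cases h : t.1 = G.r f
    · rw [hAp f t h, Option.bind_some]
      apply hBn
      intro y h3 h4
      exact h2 e f (by simpa using h3.symm) hef y t.2.1 h4.symm
    · rw [hAn f t h, Option.bind_none]
  · intro x S hS hne
    apply endext
    intro t
    have hsum : (∑ e ∈ S, op K (A e) * op K (B e)) (Finsupp.single t 1)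
        = ∑ e ∈ S, op K (A e) (op K (B e) (Finsupp.single t 1)) := by
      rw [LinearMap.sum_apply]
      rfl
    rw [hsum, op_single]
    by_cases hx : t.1 = x
    · obtain ⟨e, z, he, hz⟩ := h3 x ⟨S, hS, hne⟩ t.2.1
      have heS : e ∈ S := (hS e).2 he
      rw [Finset.sum_eq_single e]
      · obtain ⟨t1, t2, n⟩ := t
        simp only at hx hz
        subst hx
        subst hz
        have hBe : B e (t1, φ e z, n) = some (G.r e, z, n - 1) := by
          have := hBp e z n
          rw [he] at this
          exact this
        rw [hPp _ _ rfl, op_single, hBe]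
        simp only [Option.elim_some]
        rw [op_single, hAp e _ rfl]
        simp [he]
      · intro f hf hfe
        have hfx : G.s f = x := (hS f).1 hf
        rw [op_single, hBn f t]
        · simp
        · intro y _ h5
          exact h2 f e (hfx.trans he.symm) hfe y z (h5.symm.trans hz.symm)
      · intro h
        exact absurd heS h
    · rw [hPn x t hx]
      symm
      apply Finset.sum_eq_zero
      intro e he
      rw [op_single, hBn e t]
      · simp
      · intro y h4 _
        exact hx (h4.trans ((hS e).1 he))
  · intro x t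
    show op K (P x) (Finsupp.single t 1) = _
    rw [op_single, hP]
    split_ifs <;> rfl
  · intro e t
    show op K (A e) (Finsupp.single t 1) = _
    rw [op_single, hA]
    split_ifs <;> rfl
  · intro e y n
    show op K (B e) (Finsupp.single _ 1) = _
    rw [op_single, hBp]
    rfl
  · intro e t h
    show op K (B e) (Finsupp.single t 1) = _
    rw [op_single, hBn e t h]
    rfl

end Pool.Agent.Work.MP_2b4d3b_al.NE
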