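import Pool.Agent.Work.MP_2b4d3b_al.NE.Defs
import Pool.Agent.Work.MP_2b4d3b_al.NE.Bas
import Pool.Agent.Work.MP_2b4d3b_al.NE.RepA
import Pool.Agent.Work.MP_2b4d3b_al.NE.RepB

/-
Consequences of the representation F.lift : UA K G -> End M (RepA, RepB).
PROOF. open_ne: let x with not Cl G T x. If x is not regular choose y outside all images (RepA, last clause), then
b g (single (x, y, 0) 1) = 0 for all g in T with s g = x. If x is regular, there is an edge g0 with s g0 = x, g0 not in T (else
Cl G T x); take y = φ g0 z; again b g (single (x, y, 0) 1) = 0 for g in T with s g = x by h2. So the element of the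
representation maps single (x, y, 0) 1 to a • single (x, y, 0) 1, which is 0, so a = 0. vx_torsion: apply to single (x, y, 0) 1.
cyc_ind: α = vx x * wd (ed) l, l a closed path of length L >= 1 at x. Let N bound the absolute values of the support of f. We
have star α * α = vx x (induction on the path: gh_ed), so zp n * α^N = α^(N + n) (times vx x) for n >= -N. Multiply the relation
on the right by α^N: sum f n • (vx x * α^(N+n)) = 0. Apply to v = single (x, (0, []), 0) 1: α^m v = single (x, y_m, m L) 1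
(induction), with different degrees m L, so all f n = 0 (evaluate at (x, y_m, m L)).
-/

set_option linter.unusedVariables false
set_option linter.style.longLine false
set_option linter.unusedSectionVars false

namespace Pool.Agent.Work.MP_2b4d3b_al.NE

universe u v w u' v' w'

open Finset

variable {K : Type u} [CommRing K] {V : Type v} {E : Type w} {G : Gr V E}

private theorem single_eq_zero {I : Type*} {t : I} {a : K}
    (h : a • (Finsupp.single t (1 : K)) = 0) : a = 0 := by
  have h1 := DFunLike.congr_fun h t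
  simpa using h1

open Classical in
theorem open_ne {x : V} {T : Finset E} (h : ¬ Cl G T x) (a : K)
    (h0 : a • (vx K G x - ∑ g ∈ T.filter (fun g => G.s g = x), ed K G g * gh K G g) = 0) :
    a = 0 := by
  obtain ⟨φ, h1, h2, h3, h4⟩ := exists_br G
  obtain ⟨F, f1, f2, f3, f4⟩ := exists_rep K G φ h1 h2 h3
  have hy : ∃ y, ∀ g ∈ T, G.s g = x → ∀ z, y ≠ φ g z := by
    by_cases hx : Regu G x
    · obtain ⟨Q, hQ, hQn⟩ := hx
      have hQT : ¬ Q ⊆ T := fun hs => h ⟨Q, hQ, hQn, hs⟩
      obtain ⟨g0, hg0, hg0T⟩ := Finset.not_subset.1 hQT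
      refine ⟨φ g0 (0, []), fun g hg hgx z => ?_⟩
      refine h2 g0 g (((hQ g0).1 hg0).trans hgx.symm) ?_ _ _
      rintro rfl
      exact hg0T hg
    · obtain ⟨y, hy⟩ := h4 x hx
      exact ⟨y, fun g _ hgx z => (hy g z hgx).symm⟩
  obtain ⟨y, hy⟩ := hy
  have h5 := congrArg (fun u => F.lift u (Finsupp.single (x, y, (0 : ℤ)) (1 : K))) h0
  simp only [map_smul, map_sub, map_sum, map_mul, Fam.lift_vx, Fam.lift_ed, Fam.lift_gh, map_zero,
    LinearMap.smul_apply, LinearMap.sub_apply, LinearMap.sum_apply, Module.End.mul_apply,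
    LinearMap.zero_apply] at h5
  have h6 : (∑ g ∈ T.filter (fun g => G.s g = x),
      F.a g (F.b g (Finsupp.single (x, y, (0 : ℤ)) (1 : K)))) = 0 := by
    refine Finset.sum_eq_zero fun g hg => ?_
    rw [Finset.mem_filter] at hg
    rw [f4 g (x, y, 0) (fun z _ => hy g hg.1 hg.2 z), map_zero]
  rw [h6, sub_zero, f1, if_pos rfl] at h5
  exact single_eq_zero h5

theorem vx_torsion (x : V) (a : K) (h0 : a • vx K G x = 0) : a = 0 := by
  obtain ⟨φ, h1, h2, h3, h4⟩ := exists_br G
  obtain ⟨F, f1, f2, f3, f4⟩ := exists_rep K G φ h1 h2 h3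
  have h5 := congrArg (fun u => F.lift u (Finsupp.single (x, (0, []), (0 : ℤ)) (1 : K))) h0
  simp only [map_smul, Fam.lift_vx, map_zero, LinearMap.smul_apply, LinearMap.zero_apply] at h5
  rw [f1, if_pos rfl] at h5
  exact single_eq_zero h5

private theorem zp_mul {R : Type*} [Ring R] [StarRing R] {p A : R} (hp : p * p = p)
    (hBA : star A * A = p) (hpA : p * A = A) (N : ℕ) (n : ℤ) (hn : -(N : ℤ) ≤ n) :
    zp p A n * A ^ N = p * A ^ ((N : ℤ) + n).toNat := by
  have key : ∀ j m : ℕ, p * star A ^ j * (p * A ^ (j + m)) = p * A ^ m := by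
    intro j
    induction j with
    | zero =>
      intro m
      rw [pow_zero, mul_one, zero_add, ← mul_assoc, hp]
    | succ j ih =>
      intro m
      have e1 : p * A ^ (j + 1 + m) = A * A ^ (j + m) := by
        rw [show j + 1 + m = (j + m) + 1 by omega, pow_succ', ← mul_assoc, hpA]
      rw [e1, pow_succ, mul_assoc, mul_assoc, ← mul_assoc (star A) A, hBA, ← mul_assoc]
      exact ih m
  cases n with
  | ofNat k =>
    have e1 : ((N : ℤ) + Int.ofNat k).toNat = k + N := by
      simp only [Int.ofNat_eq_natCast]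
      omega
    rw [e1]
    show p * A ^ k * A ^ N = _
    rw [mul_assoc, ← pow_add]
  | negSucc k =>
    have e0 : k + 1 ≤ N := by
      have : (Int.negSucc k : ℤ) = -((k : ℤ) + 1) := Int.negSucc_eq k
      rw [this] at hn
      omega
    obtain ⟨m, rfl⟩ := Nat.exists_eq_add_of_le e0
    have e1 : (((k + 1 + m : ℕ) : ℤ) + Int.negSucc k).toNat = m := by
      have : (Int.negSucc k : ℤ) = -((k : ℤ) + 1) := Int.negSucc_eq k
      rw [this]
      push_cast
      omega
    rw [e1]
    show p * star A ^ (k + 1) * A ^ (k + 1 + m) = _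
    have e2 : A ^ (k + 1 + m) = p * A ^ (k + 1 + m) := by
      rw [show k + 1 + m = (k + m) + 1 by omega, pow_succ', ← mul_assoc, hpA]
    rw [e2]
    exact key (k + 1) m

private theorem wd_cons (e : E) (l : List E) :
    wd (ed K G) (e :: l) = ed K G e * wd (ed K G) l := by
  simp [wd]

private theorem star_wd_mul [StarRing K] {x y : V} {l : List E} (h : Pth G x l y) :
    star (wd (ed K G) l) * vx K G x * wd (ed K G) l = vx K G y := by
  induction l generalizing x with
  | nil =>
    have h1 : x = y := h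
    subst h1
    simp [wd]
  | cons e l ih =>
    obtain ⟨h1, h2⟩ := h
    subst h1
    rw [wd_cons, star_mul, star_ed]
    have e1 : star (wd (ed K G) l) * gh K G e * vx K G (G.s e) * (ed K G e * wd (ed K G) l) =
        star (wd (ed K G) l) * (gh K G e * (vx K G (G.s e) * ed K G e)) * wd (ed K G) l := by
      simp only [mul_assoc]
    rw [e1, s_ed, gh_ed]
    exact ih h2

private theorem wd_act {M : Type*} [AddCommGroup M] [Module K M]
    (F : Fam K G (Module.End K M)) (v : V → (ℕ × List E) → ℤ → M)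
    (φ : E → (ℕ × List E) → (ℕ × List E))
    (f2 : ∀ e y n, F.a e (v (G.r e) y n) = v (G.s e) (φ e y) (n + 1))
    {x z : V} {l : List E} (h : Pth G x l z) (y : ℕ × List E) (n : ℤ) :
    ∃ y', F.lift (wd (ed K G) l) (v z y n) = v x y' (n + l.length) := by
  induction l generalizing x with
  | nil =>
    have h1 : x = z := h
    subst h1
    refine ⟨y, ?_⟩
    simp [wd]
  | cons e l ih =>
    obtain ⟨h1, h2⟩ := h
    subst h1
    obtain ⟨y', hy'⟩ := ih h2
    refine ⟨φ e y', ?_⟩
    rw [wd_cons, map_mul, Module.End.mul_apply, hy', Fam.lift_ed, f2, List.length_cons]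
    push_cast
    rw [add_assoc]

theorem cyc_ind [StarRing K] {x : V} {l : List E} (hl : l ≠ []) (hp : Pth G x l x) (f : ℤ →₀ K)
    (h0 : (f.sum fun n a => a • zp (vx K G x) (vx K G x * wd (ed K G) l) n) = 0) : f = 0 := by
  classical
  obtain ⟨φ, h1, h2, h3, h4⟩ := exists_br G
  obtain ⟨F, f1, f2, f3, f4⟩ := exists_rep K G φ h1 h2 h3
  set α : UA K G := vx K G x * wd (ed K G) l with hα
  have hpα : vx K G x * α = α := by
    rw [hα, ← mul_assoc, vx_vx]
  have hss : star α * α = vx K G x := by
    rw [hα, star_mul, star_vx, ← mul_assoc, mul_assoc (star (wd (ed K G) l)) (vx K G x), vx_vx]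
    exact star_wd_mul hp
  have hL : 0 < l.length := List.length_pos_iff.2 hl
  -- the action of α
  have hact : ∀ (y : ℕ × List E) (n : ℤ), ∃ y', F.lift α (Finsupp.single (x, y, n) (1 : K)) =
      Finsupp.single (x, y', n + l.length) (1 : K) := by
    intro y n
    obtain ⟨y', hy'⟩ := wd_act F (fun z y n => Finsupp.single (z, y, n) (1 : K)) φ
      (fun e y n => by rw [f2, if_pos rfl]) hp y n
    refine ⟨y', ?_⟩
    rw [hα, map_mul, Module.End.mul_apply, hy', Fam.lift_vx, f1, if_pos rfl]
  have hpow0 : ∀ (m : ℕ) (y : ℕ × List E) (n : ℤ), ∃ y', F.lift (vx K G x * α ^ m)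
      (Finsupp.single (x, y, n) (1 : K)) =
      Finsupp.single (x, y', n + (m : ℤ) * l.length) (1 : K) := by
    intro m
    induction m with
    | zero =>
      intro y n
      refine ⟨y, ?_⟩
      rw [pow_zero, mul_one, Fam.lift_vx, f1, if_pos rfl]
      simp
    | succ m ih =>
      intro y n
      obtain ⟨y', hy'⟩ := hact y n
      obtain ⟨y'', hy''⟩ := ih y' (n + l.length)
      refine ⟨y'', ?_⟩
      rw [pow_succ, ← mul_assoc, map_mul, Module.End.mul_apply, hy', hy'']
      push_cast
      rw [add_mul, one_mul, add_assoc, add_comm (l.length : ℤ)]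
  have hpow : ∀ m : ℕ, ∃ y', F.lift (vx K G x * α ^ m)
      (Finsupp.single (x, ((0, []) : ℕ × List E), (0 : ℤ)) (1 : K)) =
      Finsupp.single (x, y', (m : ℤ) * l.length) (1 : K) := by
    intro m
    obtain ⟨y', hy'⟩ := hpow0 m (0, []) 0
    rw [zero_add] at hy'
    exact ⟨y', hy'⟩
  choose y hy using hpow
  -- a bound for the support
  obtain ⟨N, hN⟩ : ∃ N : ℕ, ∀ n ∈ f.support, -(N : ℤ) ≤ n := by
    refine ⟨∑ n ∈ f.support, n.natAbs, fun n hn => ?_⟩
    have h5 : n.natAbs ≤ ∑ n ∈ f.support, n.natAbs :=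
      Finset.single_le_sum (f := fun n : ℤ => n.natAbs) (fun _ _ => Nat.zero_le _) hn
    have h6 : ((n.natAbs : ℕ) : ℤ) ≤ ((∑ n ∈ f.support, n.natAbs : ℕ) : ℤ) := by exact_mod_cast h5
    omega
  have h5 : (∑ n ∈ f.support, f n • (vx K G x * α ^ ((N : ℤ) + n).toNat)) = 0 := by
    have h6 := congrArg (fun u => u * α ^ N) h0
    simp only [Finsupp.sum, Finset.sum_mul, zero_mul, smul_mul_assoc] at h6
    rw [← h6]
    refine Finset.sum_congr rfl fun n hn => ?_
    rw [zp_mul (vx_vx x) hss hpα N n (hN n hn)]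
  have h6 := congrArg (fun u => F.lift u
    (Finsupp.single (x, ((0, []) : ℕ × List E), (0 : ℤ)) (1 : K))) h5
  simp only [map_sum, map_smul, LinearMap.sum_apply, LinearMap.smul_apply, map_zero,
    LinearMap.zero_apply, hy] at h6
  ext n₀
  by_contra hn₀
  have hn₀' : n₀ ∈ f.support := Finsupp.mem_support_iff.2 hn₀
  have h7 := DFunLike.congr_fun h6
    (x, y ((N : ℤ) + n₀).toNat, (((N : ℤ) + n₀).toNat : ℤ) * l.length)
  rw [Finsupp.finsetSum_apply, Finset.sum_eq_single n₀] at h7
  · apply hn₀
    simpa using h7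
  · intro n hn hne
    rw [Finsupp.smul_apply, Finsupp.single_apply, if_neg, smul_zero]
    intro h8
    have h9 := (Prod.ext_iff.1 (Prod.ext_iff.1 h8).2).2
    simp only at h9
    have h10 : (((N : ℤ) + n).toNat : ℤ) = (((N : ℤ) + n₀).toNat : ℤ) :=
      mul_right_cancel₀ (by exact_mod_cast hL.ne') h9
    have h11 := hN n hn
    have h12 := hN n₀ hn₀'
    omega
  · intro h8
    exact absurd hn₀' h8

end Pool.Agent.Work.MP_2b4d3b_al.NE
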