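import Pool.Agent.Work.MP_2b4d3b_al.NE.Defs
import Pool.Agent.Work.MP_2b4d3b_al.NE.Bas
import Pool.Agent.Work.MP_2b4d3b_al.NE.DynB

/-
Words in families. PROOF. fam_star: P (r e) * star (S e) = star (S e), star (S e) * P (s e) = star (S e) by taking stars.
fam_wd: induction on l generalizing x: for l = e :: l', P x * S e * wd l' = S e * (P (r e) * wd l'), so the first claim follows
from the induction hypothesis, and star(..)*(..) = star (P (r e) * wd l') * star (S e) * S e * (P (r e) * wd l')
= star (P (r e) wd l') * (P (r e) wd l') = P y. fam_wd_mul: (P x wd l) * P y = P x wd l and wd (l ++ m) = wd l * wd m.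
fam_cyc: x cyclic: the edges are in T (pth_edges); for an edge e at a cyclic vertex x, {e} is the set of all edges at x
(cyc_edge), so P x = S e * star (S e) by ck; induction on l. fam_mono: clear (ck for Q a subset of T' is ck for T).
fam_bi: all relations hold in both coordinates (Prod.ext; star of ed is gh).
-/

set_option linter.unusedVariables false
set_option linter.style.longLine false
set_option linter.unusedSectionVars false

namespace Pool.Agent.Work.MP_2b4d3b_al.NE

universe u v w u' v' w'

open Finset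

section
variable {R : Type u} [Ring R] [StarRing R] {V : Type v} {E : Type w} {G : Gr V E}
  {W : Finset V} {T : Finset E} {P : V → R} {S : E → R}

private theorem famil_wd_cons (hF : IsFam G W T P S) {e : E} (he : e ∈ T) (l : List E) :
    P (G.s e) * wd S (e :: l) = S e * (P (G.r e) * wd S l) := by
  have h1 : wd S (e :: l) = S e * wd S l := by
    simp [wd]
  rw [h1, ← mul_assoc, hF.sS e he, ← mul_assoc, hF.Sr e he]

private theorem famil_wd_nil (P : V → R) (S : E → R) (x : V) : P x * wd S [] = P x := by
  simp [wd]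

theorem fam_wd (hF : IsFam G W T P S) {x y : V} {l : List E} (hx : x ∈ W) (hl : ∀ e ∈ l, e ∈ T)
    (hp : Pth G x l y) : y ∈ W ∧ P x * wd S l * P y = P x * wd S l ∧
      star (P x * wd S l) * (P x * wd S l) = P y := by
  induction l generalizing x with
  | nil =>
    obtain rfl : x = y := hp
    rw [famil_wd_nil, hF.ps x hx, hF.pp x hx]
    exact ⟨hx, rfl, rfl⟩
  | cons e l ih =>
    obtain ⟨h1, h2⟩ := hp
    subst h1
    have heT : e ∈ T := hl e (by simp)
    have hr : G.r e ∈ W := (hF.ends e heT).2
    obtain ⟨i1, i2, i3⟩ := ih hr (fun g hg => hl g (by simp [hg])) h2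
    have hP : P (G.r e) * (P (G.r e) * wd S l) = P (G.r e) * wd S l := by
      rw [← mul_assoc, hF.pp _ hr]
    rw [famil_wd_cons hF heT]
    refine ⟨i1, by rw [mul_assoc, i2], ?_⟩
    rw [star_mul, mul_assoc, ← mul_assoc (star (S e)), hF.SS e heT, hP, i3]

theorem fam_wd_mul (hF : IsFam G W T P S) {x y : V} {l m : List E} (hx : x ∈ W)
    (hl : ∀ e ∈ l, e ∈ T) (hp : Pth G x l y) :
    (P x * wd S l) * (P y * wd S m) = P x * wd S (l ++ m) := by
  obtain ⟨-, h2, -⟩ := fam_wd hF hx hl hp
  have h1 : wd S (l ++ m) = wd S l * wd S m := by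
    simp [wd]
  rw [← mul_assoc, h2, h1, mul_assoc]

theorem fam_cyc (hG : NoExit G) (hF : IsFam G W T P S) (hs : CycSat G W T) {x y : V}
    {l : List E} (hx : x ∈ W) (hc : Cyc G x) (hp : Pth G x l y) :
    (∀ e ∈ l, e ∈ T) ∧ y ∈ W ∧ (P x * wd S l) * star (P x * wd S l) = P x := by
  obtain ⟨h1, h2⟩ := pth_edges hG hs hF.ends hx hc hp
  refine ⟨h1, h2, ?_⟩
  clear h1 h2
  induction l generalizing x with
  | nil => rw [famil_wd_nil, hF.ps x hx, hF.pp x hx]
  | cons e l ih =>
    obtain ⟨h1, h2⟩ := hp
    subst h1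
    have heT : e ∈ T := hs e hx hc
    have hr : G.r e ∈ W := (hF.ends e heT).2
    have hcr : Cyc G (G.r e) :=
      (cyc_rch hG hc (Relation.ReflTransGen.single ⟨e, rfl, rfl⟩)).1
    have i3 := ih hr hcr h2
    have hck : P (G.s e) = S e * star (S e) := by
      have h3 := hF.ck (G.s e) hx {e} (fun g => by
        rw [Finset.mem_singleton]
        exact ⟨fun h => h ▸ rfl, fun h => cyc_edge hG hc h rfl⟩)
        (Finset.singleton_nonempty e) (Finset.singleton_subset_iff.2 heT)
      rwa [Finset.sum_singleton] at h3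
    rw [famil_wd_cons hF heT, star_mul, mul_assoc, ← mul_assoc (P (G.r e) * wd S l), i3,
      ← mul_assoc, hF.Sr e heT, ← hck]

theorem fam_mono (hF : IsFam G W T P S) {W' : Finset V} {T' : Finset E} (hW : W' ⊆ W)
    (hT : T' ⊆ T) (he : Ends G W' T') : IsFam G W' T' P S := by
  exact
    { ends := he
      pp := fun x hx => hF.pp x (hW hx)
      ps := fun x hx => hF.ps x (hW hx)
      pq := fun x hx y hy h => hF.pq x (hW hx) y (hW hy) h
      sS := fun e he => hF.sS e (hT he)
      Sr := fun e he => hF.Sr e (hT he)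
      SS := fun e he => hF.SS e (hT he)
      Sg := fun e he g hg h => hF.Sg e (hT he) g (hT hg) h
      ck := fun x hx Q h1 h2 h3 => hF.ck x (hW hx) Q h1 h2 (h3.trans hT) }

end

variable {V : Type v} {E : Type w} {G : Gr V E}

theorem fam_LP (K : Type u) [CommRing K] [StarRing K] {W : Finset V} {T : Finset E}
    (he : Ends G W T) : IsFam G W T (vx K G) (ed K G) := by
  exact
    { ends := he
      pp := fun x _ => vx_vx x
      ps := fun x _ => star_vx x
      pq := fun x _ y _ h => vx_ne h
      sS := fun e _ => s_ed e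
      Sr := fun e _ => ed_r e
      SS := fun e _ => by rw [star_ed, gh_ed]
      Sg := fun e _ g _ h => by rw [star_ed, gh_ed_ne h]
      ck := fun x _ Q h1 h2 _ => by
        rw [ck_sum x Q h1 h2]
        exact Finset.sum_congr rfl fun e _ => by rw [star_ed] }

theorem fam_bi (K : Type u) [CommRing K] [StarRing K] {W : Finset V} {T : Finset E}
    (he : Ends G W T) : IsFam G W T (bP K G) (bS K G) := by
  have h1 := fam_LP (G := G) ℤ he
  have h2 := fam_LP (G := G) K he
  exact
    { ends := he
      pp := fun x hx => Prod.ext (h1.pp x hx) (h2.pp x hx)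
      ps := fun x hx => Prod.ext (h1.ps x hx) (h2.ps x hx)
      pq := fun x hx y hy h => Prod.ext (h1.pq x hx y hy h) (h2.pq x hx y hy h)
      sS := fun e he => Prod.ext (h1.sS e he) (h2.sS e he)
      Sr := fun e he => Prod.ext (h1.Sr e he) (h2.Sr e he)
      SS := fun e he => Prod.ext (h1.SS e he) (h2.SS e he)
      Sg := fun e he g hg h => Prod.ext (h1.Sg e he g hg h) (h2.Sg e he g hg h)
      ck := fun x hx Q a1 a2 a3 => by
        refine Prod.ext ?_ ?_
        · rw [Prod.fst_sum]
          exact h1.ck x hx Q a1 a2 a3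
        · rw [Prod.snd_sum]
          exact h2.ck x hx Q a1 a2 a3 }

end Pool.Agent.Work.MP_2b4d3b_al.NE
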