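import Pool.Agent.Work.MP_2b4d3b_al.NE.Defs
import Pool.Agent.Work.MP_2b4d3b_al.NE.Famil
import Pool.Agent.Work.MP_2b4d3b_al.NE.SysC

/-
The stage with only cyclic edges. PROOF. Index type Fin W.card, identified with W by W.equivFin (st i = the vertex). Base of a vertex x:
if x is not cyclic, x itself, c = P x, x-value P x, not lau. If x is cyclic: let A_x = {y | GRch G x y}, the same set for all vertices
on the cycle (cyc_rch), contained in W (pth_edges); rep x = an element of A_x chosen depending only on the set A_x (Classical.choose of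
A.Nonempty as a function of the set), so rep is constant on cycles. Let g_x be a path from x to rep x (g = [] for x = rep x: choose
by cases), c_x = P x * wd S g_x, base = index of rep x, lau = cyclic, x-value at the base: P y * wd S l_y, y = rep x, l_y its cycle
(ret_exists). Sys axioms: cc: fam_wd; co: c_x* c_y = .. P x P y .. = 0 for x <> y; cb: fam_wd; cx; xs, sx: fam_wd, fam_cyc (l_y closed);
xl: not lau: both P x. Other x-values (not at bases) are arbitrary.
Stg: sum: exactly one index with st i = x, c_x c_x* = P x (fam_cyc; for non cyclic x trivially). rch: g_x. lauB: by definition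
(for the base c = P y * wd S [] = P y). opB: base not lau: the vertex x is not cyclic; T has no edge with source x (all edges of T have
cyclic sources), so not Cl G T x (Q would be nonempty) and the sum over the empty filter is 0. opU, opE clear. cyc: i = index of x; for
l with Ret G x l: ret_comm l g_x l_y: l ++ g = g ++ l_y, so P x wd l * c_x = c_x * x_y (fam_wd_mul), multiply by c_x* on the right:
P x wd l * P x = P x wd l (fam_wd, l closed). edge: e in T, x = s e, x' = r e cyclic (cyc_rch), same rep y; the paths e :: g_x' and g_x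
from x to y: pth_two: e :: g_x' = g_x ++ l_y^n or g_x = (e :: g_x') ++ l_y^n. First case: S e * c_x' = c_x * x_y^n, so
S e = S e P x' = S e c_x' c_x'* = c_x x_y^n c_x'*, in rng. Second case: c_x = S e c_x' x_y^n, so S e = c_x (x_y*)^n c_x'*. gen: products of generators.
-/

set_option linter.unusedVariables false
set_option linter.style.longLine false
set_option linter.unusedSectionVars false

namespace Pool.Agent.Work.MP_2b4d3b_al.NE

universe u v w u' v' w'

open Finset

variable {R : Type u} [Ring R] [StarRing R] {V : Type v} {E : Type w} {G : Gr V E}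
  {W : Finset V} {T : Finset E} {P : V → R} {S : E → R}

open Classical in
/-- the representative of the cycle of a vertex -/
private noncomputable def rp (G : Gr V E) (x : V) : V :=
  if Cyc G x then @Classical.epsilon V ⟨x⟩ (fun y => GRch G x y) else x

private theorem rp_non {x : V} (h : ¬ Cyc G x) : rp G x = x := by
  unfold rp
  rw [if_neg h]

private theorem rp_rch (x : V) : GRch G x (rp G x) := by
  unfold rp
  by_cases h : Cyc G x
  · rw [if_pos h]
    exact @Classical.epsilon_spec V (fun y => GRch G x y) ⟨x, Relation.ReflTransGen.refl⟩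
  · rw [if_neg h]
    exact Relation.ReflTransGen.refl

private theorem rp_eq (hG : NoExit G) {x y : V} (hx : Cyc G x) (hxy : GRch G x y) :
    rp G y = rp G x := by
  obtain ⟨hy, hyx⟩ := cyc_rch hG hx hxy
  unfold rp
  rw [if_pos hx, if_pos hy]
  have h1 : (fun z => GRch G y z) = fun z => GRch G x z := by
    funext z
    exact propext ⟨fun h => hxy.trans h, fun h => hyx.trans h⟩
  rw [h1]

private theorem rp_rp (hG : NoExit G) (x : V) : rp G (rp G x) = rp G x := by
  by_cases h : Cyc G x
  · exact rp_eq hG h (rp_rch x)
  · rw [rp_non h, rp_non h]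

open Classical in
/-- the path to the representative -/
private noncomputable def gp (G : Gr V E) (x : V) : List E :=
  if x = rp G x then [] else Classical.choose (rch_iff.1 (rp_rch (G := G) x))

private theorem gp_pth (x : V) : Pth G x (gp G x) (rp G x) := by
  unfold gp
  by_cases h : x = rp G x
  · rw [if_pos h]
    exact h
  · rw [if_neg h]
    exact Classical.choose_spec (rch_iff.1 (rp_rch (G := G) x))

private theorem gp_rp (hG : NoExit G) (x : V) : gp G (rp G x) = [] := by
  unfold gp
  rw [if_pos (rp_rp hG x).symm]

private theorem gp_non {x : V} (h : ¬ Cyc G x) : gp G x = [] := by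
  unfold gp
  rw [if_pos (rp_non h).symm]

open Classical in
/-- the cycle at a vertex -/
private noncomputable def lp (G : Gr V E) (x : V) : List E :=
  if h : Cyc G x then Classical.choose (ret_exists h) else []

private theorem lp_ret {x : V} (h : Cyc G x) : Ret G x (lp G x) := by
  unfold lp
  rw [dif_pos h]
  exact Classical.choose_spec (ret_exists h)

private theorem wd_nil (S : E → R) : wd S [] = 1 := by simp [wd]

private theorem gp_T (hG : NoExit G) (hF : IsFam G W T P S) (hs : CycSat G W T) {x : V}
    (hx : x ∈ W) : ∀ e ∈ gp G x, e ∈ T := by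
  by_cases h : Cyc G x
  · exact (pth_edges hG hs hF.ends hx h (gp_pth x)).1
  · rw [gp_non h]
    intro e he
    exact absurd he List.not_mem_nil

private theorem rp_W (hG : NoExit G) (hF : IsFam G W T P S) (hs : CycSat G W T) {x : V}
    (hx : x ∈ W) : rp G x ∈ W :=
  (fam_wd hF hx (gp_T hG hF hs hx) (gp_pth x)).1

/-- the elements of the system -/
private noncomputable def cv (G : Gr V E) (P : V → R) (S : E → R) (x : V) : R :=
  P x * wd S (gp G x)

open Classical in
/-- the unitaries of the system -/
private noncomputable def xv (G : Gr V E) (P : V → R) (S : E → R) (x : V) : R :=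
  if Cyc G x then P x * wd S (lp G x) else P x

private theorem cv_c (hG : NoExit G) (hF : IsFam G W T P S) (hs : CycSat G W T) {x : V}
    (hx : x ∈ W) : star (cv G P S x) * cv G P S x = P (rp G x) :=
  (fam_wd hF hx (gp_T hG hF hs hx) (gp_pth x)).2.2

private theorem cv_b (hG : NoExit G) (hF : IsFam G W T P S) (hs : CycSat G W T) {x : V}
    (hx : x ∈ W) : cv G P S x * P (rp G x) = cv G P S x :=
  (fam_wd hF hx (gp_T hG hF hs hx) (gp_pth x)).2.1

private theorem cv_l (hG : NoExit G) (hF : IsFam G W T P S) {x : V}
    (hx : x ∈ W) : P x * cv G P S x = cv G P S x := by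
  unfold cv
  rw [← mul_assoc, hF.pp x hx]

private theorem cv_s (hG : NoExit G) (hF : IsFam G W T P S) (hs : CycSat G W T) {x : V}
    (hx : x ∈ W) : cv G P S x * star (cv G P S x) = P x := by
  by_cases h : Cyc G x
  · exact (fam_cyc hG hF hs hx h (gp_pth x)).2.2
  · unfold cv
    rw [gp_non h, wd_nil, mul_one, hF.ps x hx, hF.pp x hx]

private theorem cv_rp (hG : NoExit G) (P : V → R) (S : E → R) (x : V) :
    cv G P S (rp G x) = P (rp G x) := by
  unfold cv
  rw [gp_rp hG, wd_nil, mul_one]

private theorem xv_l (hF : IsFam G W T P S) {x : V} (hx : x ∈ W) :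
    P x * xv G P S x = xv G P S x := by
  unfold xv
  by_cases h : Cyc G x
  · rw [if_pos h, ← mul_assoc, hF.pp x hx]
  · rw [if_neg h, hF.pp x hx]

private theorem xv_s (hG : NoExit G) (hF : IsFam G W T P S) (hs : CycSat G W T) {x : V}
    (hx : x ∈ W) : xv G P S x * star (xv G P S x) = P x := by
  unfold xv
  by_cases h : Cyc G x
  · rw [if_pos h]
    exact (fam_cyc hG hF hs hx h (lp_ret h).2.1).2.2
  · rw [if_neg h, hF.ps x hx, hF.pp x hx]

private theorem xv_c (hG : NoExit G) (hF : IsFam G W T P S) (hs : CycSat G W T) {x : V}
    (hx : x ∈ W) : star (xv G P S x) * xv G P S x = P x := by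
  unfold xv
  by_cases h : Cyc G x
  · rw [if_pos h]
    exact (fam_wd hF hx (fam_cyc hG hF hs hx h (lp_ret h).2.1).1 (lp_ret h).2.1).2.2
  · rw [if_neg h, hF.ps x hx, hF.pp x hx]

open Classical in
/-- the system -/
private noncomputable def sy (hG : NoExit G) (hF : IsFam G W T P S) (hs : CycSat G W T) :
    Sys R where
  I := Fin W.card
  fI := inferInstance
  dI := inferInstance
  b i := W.equivFin ⟨rp G (W.equivFin.symm i).1, rp_W hG hF hs (W.equivFin.symm i).2⟩
  lau i := Cyc G (W.equivFin.symm i).1
  c i := cv G P S (W.equivFin.symm i).1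
  x i := xv G P S (W.equivFin.symm i).1
  bb i := by
    simp only [Equiv.symm_apply_apply]
    congr 2
    exact rp_rp hG _
  cc i := by
    simp only [Equiv.symm_apply_apply]
    rw [cv_rp hG, cv_c hG hF hs (W.equivFin.symm i).2]
  co i j hij := by
    have h1 : (W.equivFin.symm i).1 ≠ (W.equivFin.symm j).1 := fun h =>
      hij (W.equivFin.symm.injective (Subtype.ext h))
    rw [← cv_l hG hF (W.equivFin.symm i).2, ← cv_l hG hF (W.equivFin.symm j).2, star_mul,
      hF.ps _ (W.equivFin.symm i).2, mul_assoc, ← mul_assoc (P _),
      hF.pq _ (W.equivFin.symm i).2 _ (W.equivFin.symm j).2 h1, zero_mul, mul_zero]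
  cb i := by
    simp only [Equiv.symm_apply_apply]
    rw [cv_rp hG, cv_b hG hF hs (W.equivFin.symm i).2]
  cx i := by
    simp only [Equiv.symm_apply_apply]
    rw [cv_rp hG, xv_l hF (rp_W hG hF hs (W.equivFin.symm i).2)]
  xs i := by
    simp only [Equiv.symm_apply_apply]
    rw [cv_rp hG, xv_s hG hF hs (rp_W hG hF hs (W.equivFin.symm i).2)]
  sx i := by
    simp only [Equiv.symm_apply_apply]
    rw [cv_rp hG, xv_c hG hF hs (rp_W hG hF hs (W.equivFin.symm i).2)]
  xl i hl := by
    simp only [Equiv.symm_apply_apply] at hl ⊢
    rw [cv_rp hG]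
    unfold xv
    rw [if_neg hl]

private theorem wd_app (S : E → R) (l m : List E) : wd S (l ++ m) = wd S l * wd S m := by
  simp [wd]

private theorem wd_gen {C : NonUnitalSubring R} (hC : gset W T P S ⊆ C) {a : R} (ha : a ∈ C)
    {l : List E} (hl : ∀ e ∈ l, e ∈ T) : a * wd S l ∈ C := by
  induction l generalizing a with
  | nil => rwa [wd_nil, mul_one]
  | cons e l ih =>
    have h1 : wd S (e :: l) = S e * wd S l := by simp [wd]
    rw [h1, ← mul_assoc]
    exact ih (C.mul_mem ha (hC (Or.inr (Or.inl ⟨e, hl e (by simp), rfl⟩))))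
      fun g hg => hl g (by simp [hg])

theorem stage_zero (hG : NoExit G) (hF : IsFam G W T P S) (hs : CycSat G W T)
    (hT : ∀ e ∈ T, Cyc G (G.s e)) : ∃ (σ : Sys R) (st : σ.I → V), Stg G W T P S σ st := by
  classical
  set σ : Sys R := sy hG hF hs with hσ
  let st : σ.I → V := fun i => (W.equivFin.symm i).1
  have hst : ∀ i, st i ∈ W := fun i => (W.equivFin.symm i).2
  have hstb : ∀ i, st (σ.b i) = rp G (st i) := by
    intro i
    show (W.equivFin.symm (W.equivFin ⟨rp G (W.equivFin.symm i).1, _⟩)).1 = _
    rw [Equiv.symm_apply_apply]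
  have hinj : Function.Injective st := fun i j h => W.equivFin.symm.injective (Subtype.ext h)
  have hsurj : ∀ x ∈ W, ∃ i, st i = x := fun x hx =>
    ⟨W.equivFin ⟨x, hx⟩, by show (W.equivFin.symm _).1 = x; rw [Equiv.symm_apply_apply]⟩
  have hlau : ∀ i, σ.lau i = Cyc G (st i) := fun _ => rfl
  have hc : ∀ i, σ.c i = cv G P S (st i) := fun _ => rfl
  have hx : ∀ i, σ.x i = xv G P S (st i) := fun _ => rfl
  have hcb : ∀ i, σ.c (σ.b i) = P (st (σ.b i)) := by
    intro i
    rw [hc, hstb, cv_rp hG]
  have hsub : gset W T P S ⊆ NonUnitalSubring.closure (gset W T P S) :=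
    NonUnitalSubring.subset_closure
  have hPg : ∀ x ∈ W, P x ∈ NonUnitalSubring.closure (gset W T P S) := fun x hx =>
    hsub (Or.inl ⟨x, hx, rfl⟩)
  have hlT : ∀ x ∈ W, Cyc G x → ∀ e ∈ lp G x, e ∈ T := fun x hx hc =>
    (fam_cyc hG hF hs hx hc (lp_ret hc).2.1).1
  refine ⟨σ, st, ?_⟩
  exact
    { stW := hst
      sum := by
        intro x hxW
        obtain ⟨i, rfl⟩ := hsurj x hxW
        have h1 : (Finset.univ.filter fun j => st j = st i) = {i} := by
          ext j
          rw [Finset.mem_filter, Finset.mem_singleton]
          exact ⟨fun h => hinj h.2, fun h => ⟨Finset.mem_univ _, by rw [h]⟩⟩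
        rw [h1]
        unfold Sys.dg
        rw [Finset.sum_singleton, hc, cv_s hG hF hs (hst i)]
      rch := by
        intro i
        rw [hstb]
        exact rp_rch _
      lauB := by
        intro i hl
        rw [hlau] at hl
        refine ⟨hcb i, lp G (st (σ.b i)), lp_ret hl, ?_⟩
        rw [hx]
        unfold xv
        rw [if_pos hl]
      opB := by
        intro i hl
        rw [hlau] at hl
        refine ⟨hl, ?_, ?_⟩
        · rintro ⟨Q, hQ, ⟨e, he⟩, hQT⟩
          have h1 := hT e (hQT he)
          rw [(hQ e).1 he] at h1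
          exact hl h1
        · have h1 : T.filter (fun g => G.s g = st (σ.b i)) = ∅ := by
            rw [Finset.filter_eq_empty_iff]
            intro g hg h2
            have h3 := hT g hg
            rw [h2] at h3
            exact hl h3
          rw [h1, Finset.sum_empty, sub_zero, hcb]
      opU := fun i j _ _ h => hinj h
      opE := by
        intro x hxW hcyc _
        obtain ⟨i, rfl⟩ := hsurj x hxW
        refine ⟨i, hinj ?_, hcyc, rfl⟩
        rw [hstb, rp_non hcyc]
      cyc := by
        intro x hxW hcyc
        obtain ⟨i, rfl⟩ := hsurj x hxW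
        have hy : Cyc G (rp G (st i)) := (cyc_rch hG hcyc (rp_rch _)).1
        refine ⟨i, rfl, ?_, ?_, ?_⟩
        · rw [hlau, hstb]
          exact hy
        · rw [hc, cv_s hG hF hs hxW]
        · intro l hl
          have h1 := ret_comm hG hl (lp_ret hy) (gp_pth (st i))
          have hlE := (fam_cyc hG hF hs hxW hcyc hl.2.1).1
          have h2 : P (st i) * wd S l * cv G P S (st i) =
              cv G P S (st i) * (P (rp G (st i)) * wd S (lp G (rp G (st i)))) := by
            unfold cv
            rw [fam_wd_mul hF hxW hlE hl.2.1, h1,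
              fam_wd_mul hF hxW (gp_T hG hF hs hxW) (gp_pth _)]
          have h3 : xv G P S (rp G (st i)) = P (rp G (st i)) * wd S (lp G (rp G (st i))) := by
            unfold xv
            rw [if_pos hy]
          rw [hc, hx, hstb, h3, ← h2, mul_assoc, cv_s hG hF hs hxW]
          exact ((fam_wd hF hxW hlE hl.2.1).2.1).symm
      edge := by
        intro e heT
        obtain ⟨hsW, hrW⟩ := hF.ends e heT
        have hcs : Cyc G (G.s e) := hT e heT
        have hre : GRch G (G.s e) (G.r e) := Relation.ReflTransGen.single ⟨e, rfl, rfl⟩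
        have hcr : Cyc G (G.r e) := (cyc_rch hG hcs hre).1
        have hrp : rp G (G.r e) = rp G (G.s e) := rp_eq hG hcs hre
        have hcy : Cyc G (rp G (G.s e)) := (cyc_rch hG hcs (rp_rch _)).1
        have hyW : rp G (G.s e) ∈ W := rp_W hG hF hs hsW
        obtain ⟨i, hi⟩ := hsurj _ hsW
        obtain ⟨j, hj⟩ := hsurj _ hrW
        have hbi : st (σ.b i) = rp G (G.s e) := by rw [hstb, hi]
        have hci : σ.c i = cv G P S (G.s e) := by rw [hc, hi]
        have hcj : σ.c j = cv G P S (G.r e) := by rw [hc, hj]
        have m1 : cv G P S (G.s e) ∈ σ.rng :=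
          NonUnitalSubring.subset_closure ⟨i, Or.inl hci.symm⟩
        have m2 : star (cv G P S (G.r e)) ∈ σ.rng :=
          NonUnitalSubring.subset_closure ⟨j, Or.inr (Or.inl (by rw [hcj]))⟩
        have m3 : P (rp G (G.s e)) ∈ σ.rng := by
          refine NonUnitalSubring.subset_closure ⟨σ.b i, Or.inl ?_⟩
          rw [hcb, hbi]
        have hxb : σ.x (σ.b i) = P (rp G (G.s e)) * wd S (lp G (rp G (G.s e))) := by
          rw [hx, hbi]
          unfold xv
          rw [if_pos hcy]
        have m4 : P (rp G (G.s e)) * wd S (lp G (rp G (G.s e))) ∈ σ.rng :=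
          NonUnitalSubring.subset_closure ⟨i, Or.inr (Or.inr (Or.inl hxb.symm))⟩
        have m5 : star (P (rp G (G.s e)) * wd S (lp G (rp G (G.s e)))) ∈ σ.rng :=
          NonUnitalSubring.subset_closure ⟨i, Or.inr (Or.inr (Or.inr (by rw [hxb])))⟩
        set y := rp G (G.s e) with hy
        have hly : Pth G y (lp G y) y := (lp_ret hcy).2.1
        have hlyT := hlT y hyW hcy
        have hpow : ∀ k : ℕ, Pth G y (List.replicate k (lp G y)).flatten y ∧
            (∀ f ∈ (List.replicate k (lp G y)).flatten, f ∈ T) ∧
            P y * wd S (List.replicate k (lp G y)).flatten ∈ σ.rng ∧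
            star (P y * wd S (List.replicate k (lp G y)).flatten) ∈ σ.rng := by
          intro k
          induction k with
          | zero =>
            refine ⟨rfl, ?_, ?_, ?_⟩
            · intro f hf
              simp at hf
            · rw [List.replicate_zero, List.flatten_nil, wd_nil, mul_one]
              exact m3
            · rw [List.replicate_zero, List.flatten_nil, wd_nil, mul_one, hF.ps y hyW]
              exact m3
          | succ k ih =>
            obtain ⟨i1, i2, i3, i4⟩ := ih
            rw [List.replicate_succ, List.flatten_cons]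
            refine ⟨pth_append.2 ⟨y, hly, i1⟩, ?_, ?_, ?_⟩
            · intro f hf
              rcases List.mem_append.1 hf with hf | hf
              · exact hlyT f hf
              · exact i2 f hf
            · rw [← fam_wd_mul hF hyW hlyT hly]
              exact σ.rng.mul_mem m4 i3
            · rw [← fam_wd_mul hF hyW hlyT hly, star_mul]
              exact σ.rng.mul_mem i4 m5
        have hgr : Pth G (G.r e) (gp G (G.r e)) y := by
          have hgr0 := gp_pth (G := G) (G.r e)
          rw [hrp] at hgr0
          exact hgr0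
        have hpe : Pth G (G.s e) (e :: gp G (G.r e)) y := ⟨rfl, hgr⟩
        have hSc : P (G.s e) * wd S (e :: gp G (G.r e)) = S e * cv G P S (G.r e) := by
          have h1 : wd S (e :: gp G (G.r e)) = S e * wd S (gp G (G.r e)) := by simp [wd]
          unfold cv
          rw [h1, ← mul_assoc, hF.sS e heT, ← mul_assoc, hF.Sr e heT]
        have hSe : S e = S e * cv G P S (G.r e) * star (cv G P S (G.r e)) := by
          rw [mul_assoc, cv_s hG hF hs hrW, hF.Sr e heT]
        have hgT := gp_T hG hF hs hsW
        have heT' : ∀ f ∈ e :: gp G (G.r e), f ∈ T := by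
          intro f hf
          rcases List.mem_cons.1 hf with rfl | hf
          · exact heT
          · exact gp_T hG hF hs hrW f hf
        obtain ⟨k, hk | hk⟩ := pth_two hG hcs (lp_ret hcy) (gp_pth (G.s e)) hpe
        · obtain ⟨i1, i2, i3, i4⟩ := hpow k
          have h1 : S e * cv G P S (G.r e) = cv G P S (G.s e) *
              (P y * wd S (List.replicate k (lp G y)).flatten) := by
            rw [← hSc, hk]
            unfold cv
            rw [fam_wd_mul hF hsW hgT (gp_pth _)]
          rw [hSe, h1]
          exact σ.rng.mul_mem (σ.rng.mul_mem m1 i3) m2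
        · obtain ⟨i1, i2, i3, i4⟩ := hpow k
          have h1 : cv G P S (G.s e) = S e * cv G P S (G.r e) *
              (P y * wd S (List.replicate k (lp G y)).flatten) := by
            rw [← hSc]
            unfold cv
            rw [hk, fam_wd_mul hF hsW heT' hpe]
          have h2 := (fam_cyc hG hF hs hyW hcy i1).2.2
          have h3 : S e * cv G P S (G.r e) * P y = S e * cv G P S (G.r e) := by
            have h4 := cv_b hG hF hs hrW
            rw [hrp] at h4
            rw [mul_assoc, h4]
          have h5 : S e * cv G P S (G.r e) = cv G P S (G.s e) *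
              star (P y * wd S (List.replicate k (lp G y)).flatten) := by
            rw [h1, mul_assoc, h2, h3]
          rw [hSe, h5]
          exact σ.rng.mul_mem (σ.rng.mul_mem m1 i4) m2
      gen := by
        intro i
        refine ⟨?_, ?_⟩
        · rw [hc]
          exact wd_gen hsub (hPg _ (hst i)) (gp_T hG hF hs (hst i))
        · rw [hx]
          unfold xv
          by_cases h : Cyc G (st (σ.b i))
          · rw [if_pos h]
            exact wd_gen hsub (hPg _ (hst _)) (hlT _ (hst _) h)
          · rw [if_neg h]
            exact hPg _ (hst _) }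

end Pool.Agent.Work.MP_2b4d3b_al.NE
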