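import Pool.Agent.Work.MP_2b4d3b_al.NE.Defs
import Pool.Agent.Work.MP_2b4d3b_al.NE.SysA

/-
Adding a non cyclic edge to a system: the new system. The DATA of stepSys are FIXED; prove the axioms.
PROOF. c o is a projection (c_base). Put q = c o - t t*: q is a projection, since c o t = t and (t t*)^2 = t dg J t* = t t* (tJ). cc: for inl i: old. For inr (inl α): star (c α * (c o * q)) * .. with
c α* c α = c o gives q c o q = q = c o * q. For p = (α, j): star (c α t c j) (c α t c j) = c j* t* c o t c j = c j* (t* t) c j =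
c j* dg J c j = c j* c j = c (b j). co: different α: c α* c α' = 0. Same α: open part against (α, j): q t = c o t - t t* t = 0.
(α, j) against (α, j'): c j* t* t c j' = c j* dg J c j' = c j* c j' = 0. inl i against the others: c i* c α = 0. cb, cx, xs, sx, xl:
direct (base of the open block: c = c o * (c o * q) = q as element).
-/

set_option linter.unusedVariables false
set_option linter.style.longLine false
set_option linter.unusedSectionVars false

namespace Pool.Agent.Work.MP_2b4d3b_al.NE

universe u v w u' v' w'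

open Finset

variable {R : Type u} [Ring R] [StarRing R]

/-- the data for adding an edge with element t at the open base o, whose range has the indices J;
cl says that the vertex becomes closed -/
structure StepData (σ : Sys R) (o : σ.I) (J : Finset σ.I) (t : R) (cl : Prop) : Prop where
  ho : σ.b o = o
  hl : ¬ σ.lau o
  hJ : ∀ j ∈ J, σ.b j ≠ o
  ht : σ.c o * t = t
  tJ : t * σ.dg J = t
  tt : star t * t = σ.dg J
  cl : cl → t * star t = σ.c o

section help

variable {σ : Sys R} {o : σ.I} {J : Finset σ.I} {t : R} {cl : Prop}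

private theorem sd_st (h : StepData σ o J t cl) : star t * σ.c o = star t := by
  have h1 := congrArg star h.ht
  rwa [star_mul, (c_base σ h.ho).1] at h1

private theorem sd_dgs (D : Finset σ.I) : star (σ.dg D) = σ.dg D := by
  unfold Sys.dg
  rw [star_sum]
  exact Finset.sum_congr rfl fun i _ => by rw [star_mul, star_star]

private theorem sd_dgc {D : Finset σ.I} {j : σ.I} (hj : j ∈ D) : σ.dg D * σ.c j = σ.c j := by
  unfold Sys.dg
  rw [Finset.sum_mul, Finset.sum_eq_single_of_mem j hj]
  · rw [mul_assoc, σ.cc, σ.cb]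
  · intro i _ hij
    rw [mul_assoc, σ.co i j hij, mul_zero]

private theorem sd_Jt (h : StepData σ o J t cl) : σ.dg J * star t = star t := by
  have h1 := congrArg star h.tJ
  rwa [star_mul, sd_dgs] at h1

private theorem sd_q (h : StepData σ o J t cl) :
    star (σ.c o - t * star t) = σ.c o - t * star t ∧
    σ.c o * (σ.c o - t * star t) = σ.c o - t * star t ∧
    (σ.c o - t * star t) * σ.c o = σ.c o - t * star t ∧
    (σ.c o - t * star t) * (σ.c o - t * star t) = σ.c o - t * star t ∧
    (σ.c o - t * star t) * t = 0 ∧ star t * (σ.c o - t * star t) = 0 := by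
  obtain ⟨h1, h2⟩ := c_base σ h.ho
  have h3 : σ.c o * (σ.c o - t * star t) = σ.c o - t * star t := by
    rw [mul_sub, h2, ← mul_assoc, h.ht]
  have h4 : (σ.c o - t * star t) * t = 0 := by
    rw [sub_mul, h.ht, mul_assoc, h.tt, h.tJ, sub_self]
  refine ⟨?_, h3, ?_, ?_, h4, ?_⟩
  · rw [star_sub, star_mul, star_star, h1]
  · rw [sub_mul, h2, mul_assoc, sd_st h]
  · calc (σ.c o - t * star t) * (σ.c o - t * star t)
        = (σ.c o - t * star t) * σ.c o - (σ.c o - t * star t) * t * star t := by
          rw [mul_sub, mul_assoc]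
      _ = σ.c o - t * star t := by rw [h4, zero_mul, sub_zero, sub_mul, h2, mul_assoc, sd_st h]
  · rw [mul_sub, sd_st h, ← mul_assoc, h.tt, sd_Jt h, sub_self]

private theorem sd_pp (h : StepData σ o J t cl) {a a' : σ.I} (ha : σ.b a = o) (j j' : σ.I)
    (hj : j' ∈ J) : star (σ.c a * t * σ.c j) * (σ.c a' * t * σ.c j') =
      if a = a' then star (σ.c j) * σ.c j' else 0 := by
  by_cases e : a = a'
  · subst e
    rw [if_pos rfl, star_mul, star_mul]
    have h1 : star t * star (σ.c a) * (σ.c a * t) = σ.dg J := by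
      rw [mul_assoc, ← mul_assoc (star (σ.c a)), σ.cc, ha, h.ht, h.tt]
    calc star (σ.c j) * (star t * star (σ.c a)) * (σ.c a * t * σ.c j')
        = star (σ.c j) * ((star t * star (σ.c a) * (σ.c a * t)) * σ.c j') := by
          simp only [mul_assoc]
      _ = _ := by rw [h1, sd_dgc hj]
  · rw [if_neg e, star_mul, star_mul]
    calc star (σ.c j) * (star t * star (σ.c a)) * (σ.c a' * t * σ.c j')
        = star (σ.c j) * (star t * (star (σ.c a) * σ.c a' * (t * σ.c j'))) := by
          simp only [mul_assoc]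
      _ = _ := by rw [σ.co _ _ e, zero_mul, mul_zero, mul_zero]

private theorem sd_qq (h : StepData σ o J t cl) {a a' : σ.I} (ha : σ.b a = o) :
    star (σ.c a * (σ.c o - t * star t)) * (σ.c a' * (σ.c o - t * star t)) =
      if a = a' then σ.c o * (σ.c o - t * star t) else 0 := by
  obtain ⟨q1, q2, q3, q4, q5, q6⟩ := sd_q h
  rw [star_mul, q1]
  by_cases e : a = a'
  · subst e
    rw [if_pos rfl, mul_assoc, ← mul_assoc (star (σ.c a)), σ.cc, ha, q2, q4]
  · rw [if_neg e, mul_assoc, ← mul_assoc (star (σ.c a)), σ.co _ _ e, zero_mul, mul_zero]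

private theorem sd_qp (h : StepData σ o J t cl) {a a' : σ.I} (ha : σ.b a = o) (j : σ.I) :
    star (σ.c a * (σ.c o - t * star t)) * (σ.c a' * t * σ.c j) = 0 := by
  obtain ⟨q1, q2, q3, q4, q5, q6⟩ := sd_q h
  rw [star_mul, q1]
  by_cases e : a = a'
  · subst e
    rw [mul_assoc, ← mul_assoc (star (σ.c a)), ← mul_assoc (star (σ.c a)), σ.cc, ha, h.ht,
      ← mul_assoc, q5, zero_mul]
  · rw [mul_assoc, ← mul_assoc (star (σ.c a)), ← mul_assoc (star (σ.c a)), σ.co _ _ e, zero_mul,
      zero_mul, mul_zero]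

private theorem sd_pq (h : StepData σ o J t cl) {a a' : σ.I} (ha : σ.b a = o) (j : σ.I) :
    star (σ.c a' * t * σ.c j) * (σ.c a * (σ.c o - t * star t)) = 0 := by
  have h1 := congrArg star (sd_qp h (a' := a') ha j)
  rwa [star_mul, star_star, star_zero] at h1

private theorem sd_ne {i a : σ.I} (hi : σ.b i ≠ o) (ha : σ.b a = o) : i ≠ a := fun e =>
  hi (e ▸ ha)

end help

open Classical in
/-- the new system: indices outside the block of o; the indices of the block of o if the vertex stays
open; pairs of an index in the block of o and an index in J. -/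
noncomputable def stepSys (σ : Sys R) (o : σ.I) (J : Finset σ.I) (t : R) (cl : Prop)
    (h : StepData σ o J t cl) : Sys R where
  I := {i : σ.I // σ.b i ≠ o} ⊕ {a : σ.I // σ.b a = o ∧ ¬ cl} ⊕ {p : σ.I × σ.I // σ.b p.1 = o ∧ p.2 ∈ J}
  fI := Fintype.ofFinite _
  dI := Classical.decEq _
  b := fun
    | .inl i => .inl ⟨σ.b i.1, by rw [σ.bb]; exact i.2⟩
    | .inr (.inl a) => .inr (.inl ⟨o, h.ho, a.2.2⟩)
    | .inr (.inr p) => .inl ⟨σ.b p.1.2, by rw [σ.bb]; exact h.hJ _ p.2.2⟩
  lau := fun
    | .inl i => σ.lau i.1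
    | .inr _ => False
  c := fun
    | .inl i => σ.c i.1
    | .inr (.inl a) => σ.c a.1 * (σ.c o - t * star t)
    | .inr (.inr p) => σ.c p.1.1 * t * σ.c p.1.2
  x := fun
    | .inl i => σ.x i.1
    | .inr (.inl a) => σ.c o * (σ.c o - t * star t)
    | .inr (.inr p) => 0
  bb := by
    rintro (i | a | p)
    · exact congrArg Sum.inl (Subtype.ext (σ.bb _))
    · rfl
    · exact congrArg Sum.inl (Subtype.ext (σ.bb _))
  cc := by
    rintro (i | a | p)
    · exact σ.cc _
    · have h1 := sd_qq h (a' := a.1) a.2.1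
      rw [if_pos rfl] at h1
      exact h1
    · have h1 := sd_pp h (a' := p.1.1) p.2.1 p.1.2 p.1.2 p.2.2
      rw [if_pos rfl, σ.cc] at h1
      exact h1
  co := by
    rintro (i | a | p) (j | a' | p') hne
    · exact σ.co _ _ fun e => hne (congrArg Sum.inl (Subtype.ext e))
    · show star (σ.c i.1) * (σ.c a'.1 * (σ.c o - t * star t)) = 0
      rw [← mul_assoc, σ.co _ _ (sd_ne i.2 a'.2.1), zero_mul]
    · show star (σ.c i.1) * (σ.c p'.1.1 * t * σ.c p'.1.2) = 0
      rw [mul_assoc, ← mul_assoc, σ.co _ _ (sd_ne i.2 p'.2.1), zero_mul]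
    · show star (σ.c a.1 * (σ.c o - t * star t)) * σ.c j.1 = 0
      rw [star_mul, mul_assoc, σ.co _ _ (sd_ne j.2 a.2.1).symm, mul_zero]
    · have h1 := sd_qq h (a' := a'.1) a.2.1
      rw [if_neg fun e => hne (congrArg (fun z => Sum.inr (Sum.inl z)) (Subtype.ext e))] at h1
      exact h1
    · exact sd_qp h a.2.1 _
    · show star (σ.c p.1.1 * t * σ.c p.1.2) * σ.c j.1 = 0
      rw [mul_assoc, star_mul, mul_assoc, σ.co _ _ (sd_ne j.2 p.2.1).symm, mul_zero]
    · exact sd_pq h a'.2.1 _
    · have h1 := sd_pp h (a' := p'.1.1) p.2.1 p.1.2 p'.1.2 p'.2.2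
      by_cases e : p.1.1 = p'.1.1
      · have e2 : p.1.2 ≠ p'.1.2 := fun e2 =>
          hne (congrArg (fun z => Sum.inr (Sum.inr z)) (Subtype.ext (Prod.ext e e2)))
        rw [if_pos e, σ.co _ _ e2] at h1
        exact h1
      · rw [if_neg e] at h1
        exact h1
  cb := by
    obtain ⟨q1, q2, q3, q4, q5, q6⟩ := sd_q h
    rintro (i | a | p)
    · exact σ.cb _
    · show σ.c a.1 * (σ.c o - t * star t) * (σ.c o * (σ.c o - t * star t)) = _
      rw [q2, mul_assoc, q4]
    · show σ.c p.1.1 * t * σ.c p.1.2 * σ.c (σ.b p.1.2) = _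
      rw [mul_assoc, σ.cb]
  cx := by
    obtain ⟨q1, q2, q3, q4, q5, q6⟩ := sd_q h
    rintro (i | a | p)
    · exact σ.cx _
    · show σ.c o * (σ.c o - t * star t) * (σ.c o * (σ.c o - t * star t)) =
        σ.c o * (σ.c o - t * star t)
      rw [q2, q4]
    · exact σ.cx _
  xs := by
    obtain ⟨q1, q2, q3, q4, q5, q6⟩ := sd_q h
    rintro (i | a | p)
    · exact σ.xs _
    · show σ.c o * (σ.c o - t * star t) * star (σ.c o * (σ.c o - t * star t)) =
        σ.c o * (σ.c o - t * star t)
      rw [q2, q1, q4]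
    · exact σ.xs _
  sx := by
    obtain ⟨q1, q2, q3, q4, q5, q6⟩ := sd_q h
    rintro (i | a | p)
    · exact σ.sx _
    · show star (σ.c o * (σ.c o - t * star t)) * (σ.c o * (σ.c o - t * star t)) =
        σ.c o * (σ.c o - t * star t)
      rw [q2, q1, q4]
    · exact σ.sx _
  xl := by
    rintro (i | a | p) hl
    · exact σ.xl _ hl
    · rfl
    · exact σ.xl _ hl

end Pool.Agent.Work.MP_2b4d3b_al.NE
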