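import Pool.Agent.Work.MP_2b4d3b_al.NE.Defs
import Pool.Agent.Work.MP_2b4d3b_al.NE.Famil
import Pool.Agent.Work.MP_2b4d3b_al.NE.SysD
import Pool.Agent.Work.MP_2b4d3b_al.NE.StepDef

/-
Adding a non cyclic edge e : v -> w to a stage. PROOF. v = s e is not cyclic and e is not in T, so v is not closed in T (Cl G T v would
need all edges at v in T). By opE there is a base o, not lau, st o = v; by opB (at i = o) c o = P v - sum over g in T, s g = v of
S g S g*. J = {j | st j = w}, t = S e, cl = Cl G (insert e T) v. StepData: hJ: if b j = o with st j = w then w reaches v (rch) and e would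
be on a cycle, v cyclic. ht: (P v - sum S g S g*) S e = S e. tt: S e* S e = P w = dg J (sum). tJ: S e P w = S e. cl: if closed, P v = the
sum over all edges at v (Q in insert e T, by ck of hF), Q = (T.filter ..) with e inserted (all edges of T at v are in Q and conversely),
so c o = S e S e*. σ' = stepSys, st' (inl i) = st i, st' (inr (inl a)) = st a, st' (inr (inr p)) = st p.1.
Stg: stW, rch (st a reaches st o = v by rch at a, then e, then st p.2 = w reaches its base). sum: P x = sum over st i = x of c_i c_i*; for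
b a = o: c_a c_a* = c_a c_o c_a* = c_a (c_o - t t*) c_a* + sum_{j in J} c_a t c_j c_j* t* c_a* (t t* = t dg J t*); if cl holds the first
term vanishes; (c_o - t t*) is a projection q and (c_a q)(c_a q)* = c_a q c_a*. Sum over the sum type. lauB: bases which are lau are
inl. opB for inl bases o1 <> o: st o1 <> v by opU (b o1 = o1: st (b i) = st (b o) would give b i = b o = o); so the filter over insert e T
at st o1 and Cl at st o1 are as for T. For the base inr (inl o): st = v, not cyclic, not Cl since not cl, c = c_o (c_o - t t*) =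
P v - sum over insert e T. opU: both inl: old; one of them the new open base: st (b i) = v only for it. opE: x <> v: old base (not o);
x = v: not Cl G (insert e T) v, the new base. cyc: x cyclic, index i with st i = x, lau (b i), so b i <> o, inl i. edge: first the old ring is
contained in the new one: c_i with b i <> o and x_(b i): the same elements. b i = o: c_i = c_i c_o = c_i q + c_i t t*, and c_i q is a new entry (or
0 if cl), c_i t t* = sum_{l in J} (c_i t c_l)(t c_l)* with t c_l = c_o t c_l a new entry; x_(b i) = c_o. New edge: S e = c_o t dg J =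
sum_{l in J} (c_o t c_l) c_l*. gen: products of
generators (old c_i are in the closure for T, contained in the closure for insert e T; t = S e).
-/

set_option linter.unusedVariables false
set_option linter.style.longLine false
set_option linter.unusedSectionVars false

namespace Pool.Agent.Work.MP_2b4d3b_al.NE

universe u v w u' v' w'

open Finset

variable {R : Type u} [Ring R] [StarRing R] {V : Type v} {E : Type w} {G : Gr V E}
  {W : Finset V} {T : Finset E} {P : V → R} {S : E → R}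

section aux
variable {σ : Sys R} {o : σ.I} {J : Finset σ.I} {t : R} {cl : Prop}

private theorem ax_prj (hD : StepData σ o J t cl) :
    star (σ.c o) = σ.c o ∧ σ.c o * σ.c o = σ.c o := c_base σ hD.ho

private theorem ax_ts (hD : StepData σ o J t cl) : star t * σ.c o = star t := by
  have := congrArg star hD.ht
  rwa [star_mul, (ax_prj hD).1] at this

private theorem ax_q (hD : StepData σ o J t cl) :
    star (σ.c o - t * star t) = σ.c o - t * star t ∧
    (σ.c o - t * star t) * (σ.c o - t * star t) = σ.c o - t * star t ∧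
    σ.c o * (σ.c o - t * star t) = σ.c o - t * star t := by
  have h1 := hD.ht
  have h2 := ax_ts hD
  have h3 : t * star t * (t * star t) = t * star t := by
    rw [mul_assoc, ← mul_assoc (star t) t, hD.tt, ← mul_assoc, hD.tJ]
  have h4 : σ.c o * (t * star t) = t * star t := by rw [← mul_assoc, h1]
  have h5 : t * star t * σ.c o = t * star t := by rw [mul_assoc, h2]
  refine ⟨by rw [star_sub, star_mul, star_star, (ax_prj hD).1], ?_, ?_⟩
  · rw [sub_mul, mul_sub, mul_sub, (ax_prj hD).2, h4, h5, h3]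
    abel
  · rw [mul_sub, (ax_prj hD).2, h4]

private theorem ax_J (hD : StepData σ o J t cl) (a : σ.I) :
    ∑ j ∈ J, (σ.c a * t * σ.c j) * star (σ.c a * t * σ.c j) =
      σ.c a * (t * star t) * star (σ.c a) := by
  have : ∀ j, (σ.c a * t * σ.c j) * star (σ.c a * t * σ.c j) =
      σ.c a * t * (σ.c j * star (σ.c j)) * (star t * star (σ.c a)) := by
    intro j; simp only [star_mul, mul_assoc]
  simp_rw [this]
  rw [← Finset.sum_mul, ← Finset.mul_sum]
  change σ.c a * t * σ.dg J * _ = _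
  rw [mul_assoc (σ.c a), hD.tJ]
  simp only [mul_assoc]

private theorem ax_star (hD : StepData σ o J t cl) {a : σ.I} (ha : σ.b a = o) :
    σ.c a * star (σ.c a) =
      (σ.c a * (σ.c o - t * star t)) * star (σ.c a * (σ.c o - t * star t)) +
      ∑ j ∈ J, (σ.c a * t * σ.c j) * star (σ.c a * t * σ.c j) := by
  rw [ax_J hD]
  have e3 : σ.c a * σ.c o = σ.c a := by rw [← ha]; exact σ.cb a
  rw [star_mul, (ax_q hD).1, mul_assoc (σ.c a), ← mul_assoc (σ.c o - t * star t) (σ.c o - t * star t),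
    (ax_q hD).2.1, ← mul_assoc, ← add_mul, ← mul_add, sub_add_cancel, e3]

open Classical in
private theorem ax_sum (hD : StepData σ o J t cl) (f : (stepSys σ o J t cl hD).I → R)
    (g1 g2 : σ.I → R) (g3 : σ.I × σ.I → R)
    (h1 : ∀ i : {i : σ.I // σ.b i ≠ o}, f (.inl i) = g1 i.1)
    (h2 : ∀ a : {a : σ.I // σ.b a = o ∧ ¬ cl}, f (.inr (.inl a)) = g2 a.1)
    (h3 : ∀ p : {p : σ.I × σ.I // σ.b p.1 = o ∧ p.2 ∈ J}, f (.inr (.inr p)) = g3 p.1) :
    ∑ i, f i = (∑ i ∈ Finset.univ.filter (fun i => σ.b i ≠ o), g1 i) +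
      ((∑ a ∈ Finset.univ.filter (fun a => σ.b a = o ∧ ¬ cl), g2 a) +
       (∑ a ∈ Finset.univ.filter (fun a => σ.b a = o), ∑ j ∈ J, g3 (a, j))) := by
  let F1 : Fintype {i : σ.I // σ.b i ≠ o} := Fintype.ofFinite _
  let F2 : Fintype {a : σ.I // σ.b a = o ∧ ¬ cl} := Fintype.ofFinite _
  let F3 : Fintype {p : σ.I × σ.I // σ.b p.1 = o ∧ p.2 ∈ J} := Fintype.ofFinite _
  have e0 : ∀ (inst : Fintype ({i : σ.I // σ.b i ≠ o} ⊕ {a : σ.I // σ.b a = o ∧ ¬ cl} ⊕
      {p : σ.I × σ.I // σ.b p.1 = o ∧ p.2 ∈ J})) (f' : ({i : σ.I // σ.b i ≠ o} ⊕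
      {a : σ.I // σ.b a = o ∧ ¬ cl} ⊕ {p : σ.I × σ.I // σ.b p.1 = o ∧ p.2 ∈ J}) → R),
      (@Finset.sum ({i : σ.I // σ.b i ≠ o} ⊕ {a : σ.I // σ.b a = o ∧ ¬ cl} ⊕
      {p : σ.I × σ.I // σ.b p.1 = o ∧ p.2 ∈ J}) R _ (@Finset.univ _ inst) f') =
      (∑ i : {i : σ.I // σ.b i ≠ o}, f' (.inl i)) +
      ((∑ a : {a : σ.I // σ.b a = o ∧ ¬ cl}, f' (.inr (.inl a))) +
       (∑ p : {p : σ.I × σ.I // σ.b p.1 = o ∧ p.2 ∈ J}, f' (.inr (.inr p)))) := by
    intro inst f'
    rw [Subsingleton.elim inst (instFintypeSum _ _), Fintype.sum_sum_type, Fintype.sum_sum_type]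
  refine (e0 _ f).trans ?_
  rw [Finset.sum_congr rfl fun i _ => h1 i, Finset.sum_congr rfl fun i _ => h2 i,
    Finset.sum_congr rfl fun i _ => h3 i]
  rw [← Finset.sum_product' (Finset.univ.filter (fun a => σ.b a = o)) J (fun a j => g3 (a, j))]
  rw [← Finset.sum_subtype (Finset.univ.filter (fun i => σ.b i ≠ o)) (by simp) g1,
    ← Finset.sum_subtype (Finset.univ.filter (fun a => σ.b a = o ∧ ¬ cl)) (by simp) g2,
    ← Finset.sum_subtype ((Finset.univ.filter (fun a => σ.b a = o)) ×ˢ J) (by simp) g3]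

private theorem ax_rc (hD : StepData σ o J t cl) {i : σ.I} (hi : σ.b i ≠ o) :
    σ.c i ∈ (stepSys σ o J t cl hD).rng :=
  NonUnitalSubring.subset_closure ⟨.inl ⟨i, hi⟩, Or.inl rfl⟩

private theorem ax_rx (hD : StepData σ o J t cl) {i : σ.I} (hi : σ.b i ≠ o) :
    σ.x (σ.b i) ∈ (stepSys σ o J t cl hD).rng :=
  NonUnitalSubring.subset_closure ⟨.inl ⟨i, hi⟩, Or.inr (Or.inr (Or.inl rfl))⟩

private theorem ax_rq (hD : StepData σ o J t cl) {a : σ.I} (ha : σ.b a = o) :
    σ.c a * (σ.c o - t * star t) ∈ (stepSys σ o J t cl hD).rng := by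
  by_cases hc : cl
  · rw [hD.cl hc, sub_self, mul_zero]
    exact zero_mem _
  · exact NonUnitalSubring.subset_closure ⟨.inr (.inl ⟨a, ha, hc⟩), Or.inl rfl⟩

private theorem ax_rp (hD : StepData σ o J t cl) {a j : σ.I} (ha : σ.b a = o) (hj : j ∈ J) :
    σ.c a * t * σ.c j ∈ (stepSys σ o J t cl hD).rng :=
  NonUnitalSubring.subset_closure ⟨.inr (.inr ⟨(a, j), ha, hj⟩), Or.inl rfl⟩

private theorem ax_rs (τ : Sys R) {a : R} (ha : a ∈ τ.rng) : star a ∈ τ.rng := by
  unfold Sys.rng at ha ⊢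
  induction ha using NonUnitalSubring.closure_induction with
  | mem a ha =>
    obtain ⟨i, hi⟩ := ha
    refine NonUnitalSubring.subset_closure ⟨i, ?_⟩
    rcases hi with rfl | rfl | rfl | rfl
    · exact Or.inr (Or.inl rfl)
    · exact Or.inl (star_star _)
    · exact Or.inr (Or.inr (Or.inr rfl))
    · exact Or.inr (Or.inr (Or.inl (star_star _)))
  | zero => rw [star_zero]; exact zero_mem _
  | add a b _ _ ha hb => rw [star_add]; exact add_mem ha hb
  | neg a _ ha => rw [star_neg]; exact neg_mem ha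
  | mul a b _ _ ha hb => rw [star_mul]; exact mul_mem hb ha

private theorem ax_rt (hD : StepData σ o J t cl) {a : σ.I} (ha : σ.b a = o) :
    σ.c a * t ∈ (stepSys σ o J t cl hD).rng := by
  have e1 : σ.c a * t = ∑ j ∈ J, (σ.c a * t * σ.c j) * star (σ.c j) := by
    have : ∀ j, (σ.c a * t * σ.c j) * star (σ.c j) = σ.c a * (t * (σ.c j * star (σ.c j))) := by
      intro j; simp only [mul_assoc]
    simp_rw [this]
    rw [← Finset.mul_sum, ← Finset.mul_sum]
    change _ = σ.c a * (t * σ.dg J)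
    rw [hD.tJ]
  rw [e1]
  exact sum_mem fun j hj => mul_mem (ax_rp hD ha hj) (ax_rs _ (ax_rc hD (hD.hJ j hj)))

private theorem ax_ro (hD : StepData σ o J t cl) {a : σ.I} (ha : σ.b a = o) :
    σ.c a ∈ (stepSys σ o J t cl hD).rng := by
  have e3 : σ.c a * σ.c o = σ.c a := by rw [← ha]; exact σ.cb a
  have e4 : σ.c a = σ.c a * (σ.c o - t * star t) + (σ.c a * t) * star (σ.c o * t) := by
    rw [hD.ht, mul_assoc (σ.c a) t, ← mul_add, sub_add_cancel, e3]
  rw [e4]
  exact add_mem (ax_rq hD ha) (mul_mem (ax_rt hD ha) (ax_rs _ (ax_rt hD hD.ho)))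

private theorem ax_rall (hD : StepData σ o J t cl) (i : σ.I) :
    σ.c i ∈ (stepSys σ o J t cl hD).rng ∧ σ.x (σ.b i) ∈ (stepSys σ o J t cl hD).rng := by
  by_cases hi : σ.b i = o
  · refine ⟨ax_ro hD hi, ?_⟩
    rw [σ.xl i (by rw [hi]; exact hD.hl)]
    exact ax_ro hD (by rw [σ.bb]; exact hi)
  · exact ⟨ax_rc hD hi, ax_rx hD hi⟩

private theorem ax_rle (hD : StepData σ o J t cl) {a : R} (ha : a ∈ σ.rng) :
    a ∈ (stepSys σ o J t cl hD).rng := by
  have : σ.rng ≤ (stepSys σ o J t cl hD).rng := by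
    rw [Sys.rng, NonUnitalSubring.closure_le]
    rintro a ⟨i, rfl | rfl | rfl | rfl⟩
    · exact (ax_rall hD i).1
    · exact ax_rs _ (ax_rall hD i).1
    · exact (ax_rall hD i).2
    · exact ax_rs _ (ax_rall hD i).2
  exact this ha

end aux

private def ax_st {σ : Sys R} {o : σ.I} {J : Finset σ.I} {t : R} {cl : Prop}
    (hD : StepData σ o J t cl) (st : σ.I → V) : (stepSys σ o J t cl hD).I → V
  | .inl i => st i.1
  | .inr (.inl a) => st a.1
  | .inr (.inr p) => st p.1.1

open Classical in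
theorem stage_step {e : E} (he : e ∉ T) (hc : ¬ Cyc G (G.s e))
    (hF : IsFam G W (insert e T) P S) {σ : Sys R} {st : σ.I → V} (h : Stg G W T P S σ st) :
    ∃ (σ' : Sys R) (st' : σ'.I → V), Stg G W (insert e T) P S σ' st' := by
  have hvW : G.s e ∈ W := (hF.ends e (Finset.mem_insert_self _ _)).1
  have hwW : G.r e ∈ W := (hF.ends e (Finset.mem_insert_self _ _)).2
  have hopen : ¬ Cl G T (G.s e) := by
    rintro ⟨Q, hQ, -, hQT⟩
    exact he (hQT ((hQ e).2 rfl))
  obtain ⟨o, ho, hlo, hst⟩ := h.opE _ hvW hc hopen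
  have hco : σ.c o = P (G.s e) - ∑ g ∈ T.filter (fun g => G.s g = G.s e), S g * star (S g) := by
    have h1 := (h.opB o (by rw [ho]; exact hlo)).2.2
    rw [ho, hst] at h1
    exact h1
  have hJb : ∀ j ∈ Finset.univ.filter (fun j => st j = G.r e), σ.b j ≠ o := by
    intro j hj hb
    have h1 := h.rch j
    rw [(Finset.mem_filter.1 hj).2, hb, hst] at h1
    exact hc ⟨e, rfl, h1⟩
  have hdJ : σ.dg (Finset.univ.filter (fun j => st j = G.r e)) = P (G.r e) := (h.sum _ hwW).symm
  have hne : ∀ g ∈ T, e ≠ g := fun g hg h1 => he (h1 ▸ hg)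
  have hfil : (insert e T).filter (fun g => G.s g = G.s e) =
      insert e (T.filter (fun g => G.s g = G.s e)) := by
    rw [Finset.filter_insert, if_pos rfl]
  have hni : e ∉ T.filter (fun g => G.s g = G.s e) := fun h1 => he (Finset.mem_filter.1 h1).1
  have hD : StepData σ o (Finset.univ.filter (fun j => st j = G.r e)) (S e)
      (Cl G (insert e T) (G.s e)) := by
    refine ⟨ho, hlo, hJb, ?_, ?_, ?_, ?_⟩
    · rw [hco, sub_mul, hF.sS e (Finset.mem_insert_self _ _), Finset.sum_mul, Finset.sum_eq_zero,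
        sub_zero]
      intro g hg
      have hgT := (Finset.mem_filter.1 hg).1
      rw [mul_assoc, hF.Sg g (Finset.mem_insert_of_mem hgT) e (Finset.mem_insert_self _ _)
        (Ne.symm (hne g hgT)), mul_zero]
    · rw [hdJ, hF.Sr e (Finset.mem_insert_self _ _)]
    · rw [hdJ, hF.SS e (Finset.mem_insert_self _ _)]
    · rintro ⟨Q, hQ, hQn, hQT⟩
      have hQe : Q = insert e (T.filter (fun g => G.s g = G.s e)) := by
        ext g
        rw [Finset.mem_insert, Finset.mem_filter]
        constructor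
        · intro hg
          rcases Finset.mem_insert.1 (hQT hg) with h1 | h1
          · exact Or.inl h1
          · exact Or.inr ⟨h1, (hQ g).1 hg⟩
        · rintro (h1 | h1)
          · rw [h1, hQ]
          · rw [hQ]; exact h1.2
      rw [hco, hF.ck _ hvW Q hQ hQn hQT, hQe, Finset.sum_insert hni, add_sub_cancel_right]
  have hq := ax_q hD
  have hcq : σ.c o * (σ.c o - S e * star (S e)) = P (G.s e) -
      ∑ g ∈ (insert e T).filter (fun g => G.s g = G.s e), S g * star (S g) := by
    rw [hq.2.2, hfil, Finset.sum_insert hni, hco]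
    abel
  -- facts on other base vertices
  have hbv : ∀ i, σ.b i ≠ o → ¬ σ.lau (σ.b i) → st (σ.b i) ≠ G.s e := by
    intro i hi hl h1
    have h2 := h.opU i o hl (by rw [ho]; exact hlo) (by rw [h1, ho, hst])
    rw [ho] at h2
    exact hi h2
  have hClx : ∀ x, x ≠ G.s e → Cl G (insert e T) x → Cl G T x := by
    rintro x hx ⟨Q, hQ, hQn, hQT⟩
    refine ⟨Q, hQ, hQn, fun g hg => ?_⟩
    rcases Finset.mem_insert.1 (hQT hg) with h1 | h1
    · exact absurd ((hQ g).1 hg).symm (by rw [h1]; exact hx)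
    · exact h1
  have hClx' : ∀ x, Cl G T x → Cl G (insert e T) x := by
    rintro x ⟨Q, hQ, hQn, hQT⟩
    exact ⟨Q, hQ, hQn, hQT.trans (Finset.subset_insert _ _)⟩
  have hopb : ∀ i, σ.b i ≠ o → ¬ σ.lau (σ.b i) → ¬ Cyc G (st (σ.b i)) ∧
      ¬ Cl G (insert e T) (st (σ.b i)) ∧ σ.c (σ.b i) = P (st (σ.b i)) -
        ∑ g ∈ (insert e T).filter (fun g => G.s g = st (σ.b i)), S g * star (S g) := by
    intro i hi hl
    have h1 := hbv i hi hl
    obtain ⟨h2, h3, h4⟩ := h.opB i hl
    refine ⟨h2, fun h5 => h3 (hClx _ h1 h5), ?_⟩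
    rw [Finset.filter_insert, if_neg (fun h6 => h1 h6.symm)]
    exact h4
  have hgm : NonUnitalSubring.closure (gset W T P S) ≤
      NonUnitalSubring.closure (gset W (insert e T) P S) := by
    refine NonUnitalSubring.closure_mono ?_
    rintro a (⟨x, hx, rfl⟩ | ⟨g, hg, rfl⟩ | ⟨g, hg, rfl⟩)
    · exact Or.inl ⟨x, hx, rfl⟩
    · exact Or.inr (Or.inl ⟨g, Finset.mem_insert_of_mem hg, rfl⟩)
    · exact Or.inr (Or.inr ⟨g, Finset.mem_insert_of_mem hg, rfl⟩)
  have hgt : S e ∈ NonUnitalSubring.closure (gset W (insert e T) P S) ∧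
      star (S e) ∈ NonUnitalSubring.closure (gset W (insert e T) P S) :=
    ⟨NonUnitalSubring.subset_closure (Or.inr (Or.inl ⟨e, Finset.mem_insert_self _ _, rfl⟩)),
      NonUnitalSubring.subset_closure (Or.inr (Or.inr ⟨e, Finset.mem_insert_self _ _, rfl⟩))⟩
  refine ⟨stepSys σ o _ (S e) _ hD, ax_st hD st, ?_⟩
  refine { stW := ?_, sum := ?_, rch := ?_, lauB := ?_, opB := ?_, opU := ?_, opE := ?_, cyc := ?_,
           edge := ?_, gen := ?_ }
  · rintro (i | a | p)
    · exact h.stW _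
    · exact h.stW _
    · exact h.stW _
  · intro x hx
    rw [h.sum x hx]
    unfold Sys.dg
    rw [Finset.sum_filter, Finset.sum_filter]
    rw [ax_sum hD _ (fun i => if st i = x then σ.c i * star (σ.c i) else 0)
      (fun a => if st a = x then (σ.c a * (σ.c o - S e * star (S e))) *
        star (σ.c a * (σ.c o - S e * star (S e))) else 0)
      (fun p => if st p.1 = x then (σ.c p.1 * S e * σ.c p.2) * star (σ.c p.1 * S e * σ.c p.2) else 0)
      (fun _ => rfl) (fun _ => rfl) (fun _ => rfl)]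
    rw [← Finset.sum_filter_add_sum_filter_not Finset.univ (fun i => σ.b i = o), add_comm]
    congr 1
    have e1 : ∀ a ∈ Finset.univ.filter (fun a => σ.b a = o),
        (if st a = x then σ.c a * star (σ.c a) else 0) =
        (if st a = x then (σ.c a * (σ.c o - S e * star (S e))) *
          star (σ.c a * (σ.c o - S e * star (S e))) else 0) +
        ∑ j ∈ Finset.univ.filter (fun j => st j = G.r e),
          (if st a = x then (σ.c a * S e * σ.c j) * star (σ.c a * S e * σ.c j) else 0) := by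
      intro a ha
      split_ifs
      · exact ax_star hD (Finset.mem_filter.1 ha).2
      · simp
    rw [Finset.sum_congr rfl e1, Finset.sum_add_distrib]
    congr 1
    by_cases hcl : Cl G (insert e T) (G.s e)
    · rw [Finset.sum_eq_zero, Finset.sum_eq_zero]
      · intro a ha
        exact absurd hcl (Finset.mem_filter.1 ha).2.2
      · intro a ha
        rw [hD.cl hcl, sub_self, mul_zero, zero_mul, ite_self]
    · refine Finset.sum_congr ?_ fun _ _ => rfl
      ext a
      simp [hcl]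
  · rintro (i | a | p)
    · exact h.rch i.1
    · have h1 := h.rch a.1
      rw [a.2.1] at h1
      exact h1
    · have h1 := h.rch p.1.1
      rw [p.2.1, hst] at h1
      have h2 := h.rch p.1.2
      rw [(Finset.mem_filter.1 p.2.2).2] at h2
      exact h1.trans (Relation.ReflTransGen.head ⟨e, rfl, rfl⟩ h2)
  · rintro (i | a | p) hl
    · exact h.lauB i.1 hl
    · exact hl.elim
    · exact h.lauB p.1.2 hl
  · rintro (i | a | p) hl
    · exact hopb i.1 i.2 hl
    · change ¬ Cyc G (st o) ∧ ¬ Cl G (insert e T) (st o) ∧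
        σ.c o * (σ.c o - S e * star (S e)) = P (st o) -
          ∑ g ∈ (insert e T).filter (fun g => G.s g = st o), S g * star (S g)
      rw [hst]
      exact ⟨hc, a.2.2, hcq⟩
    · exact hopb p.1.2 (hJb _ p.2.2) hl
  · have key : ∀ i : (stepSys σ o _ (S e) _ hD).I, ¬ (stepSys σ o _ (S e) _ hD).lau
        ((stepSys σ o _ (S e) _ hD).b i) →
        (∃ (k : σ.I) (hk : σ.b (σ.b k) ≠ o), σ.b k ≠ o ∧ ¬ σ.lau (σ.b k) ∧
          (stepSys σ o _ (S e) _ hD).b i = .inl ⟨σ.b k, hk⟩) ∨
        ∃ hk, (stepSys σ o _ (S e) _ hD).b i = .inr (.inl ⟨o, hk⟩) := by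
      rintro (i | a | p) hl
      · exact Or.inl ⟨i.1, _, i.2, hl, rfl⟩
      · exact Or.inr ⟨⟨ho, a.2.2⟩, rfl⟩
      · exact Or.inl ⟨p.1.2, _, hJb _ p.2.2, hl, rfl⟩
    intro i j hi hj hij
    rcases key i hi with ⟨k, hk, h1, h2, h3⟩ | ⟨hk, h3⟩ <;>
      rcases key j hj with ⟨k', hk', h1', h2', h3'⟩ | ⟨hk', h3'⟩
    · rw [h3, h3'] at hij ⊢
      have h4 : σ.b k = σ.b k' := h.opU k k' h2 h2' hij
      congr 2
    · rw [h3, h3'] at hij
      exact absurd (hij.trans hst) (hbv k h1 h2)
    · rw [h3, h3'] at hij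
      exact absurd (hij.symm.trans hst) (hbv k' h1' h2')
    · rw [h3, h3']
  · intro x hx hxc hxo
    by_cases hxv : x = G.s e
    · exact ⟨.inr (.inl ⟨o, ho, by rw [← hxv]; exact hxo⟩), rfl, fun h => h, hst.trans hxv.symm⟩
    · obtain ⟨i, hi, hli, hsti⟩ := h.opE x hx hxc (fun h1 => hxo (hClx' _ h1))
      have hio : i ≠ o := by
        rintro rfl
        exact hxv (hsti.symm.trans hst)
      refine ⟨.inl ⟨i, by rw [hi]; exact hio⟩, ?_, hli, hsti⟩
      change Sum.inl _ = Sum.inl _
      congr 2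
  · intro x hx hxc
    obtain ⟨i, hi, hli, hP, hR⟩ := h.cyc x hx hxc
    exact ⟨.inl ⟨i, fun h1 => hlo (h1 ▸ hli)⟩, hi, hli, hP, hR⟩
  · intro g hg
    rcases Finset.mem_insert.1 hg with rfl | h1
    · have h2 := ax_rt hD ho
      rw [hD.ht] at h2
      exact h2
    · exact ax_rle hD (h.edge g h1)
  · rintro (i | a | p)
    · exact ⟨hgm (h.gen i.1).1, hgm (h.gen i.1).2⟩
    · exact ⟨mul_mem (hgm (h.gen a.1).1) (sub_mem (hgm (h.gen o).1) (mul_mem hgt.1 hgt.2)),
        mul_mem (hgm (h.gen o).1) (sub_mem (hgm (h.gen o).1) (mul_mem hgt.1 hgt.2))⟩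
    · exact ⟨mul_mem (mul_mem (hgm (h.gen p.1.1).1) hgt.1) (hgm (h.gen p.1.2).1),
        hgm (h.gen p.1.2).2⟩

end Pool.Agent.Work.MP_2b4d3b_al.NE
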