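import Pool.Agent.Work.MP_2b4d3b_al.NE.Defs
import Pool.Agent.Work.MP_2b4d3b_al.NE.Stage0
import Pool.Agent.Work.MP_2b4d3b_al.NE.StepStg

/-
PROOF. Let T0 = edges of T with cyclic source: stage_zero for (W, T0) (fam_mono; CycSat holds for T0). Then add the other edges one by
one: induction on the finset T \ T0 (Finset.induction_on for subsets D of T \ T0: stage for T0 union D), by stage_step (fam_mono for
the intermediate edge sets).
-/

set_option linter.unusedVariables false
set_option linter.style.longLine false
set_option linter.unusedSectionVars false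

namespace Pool.Agent.Work.MP_2b4d3b_al.NE

universe u v w u' v' w'

open Finset

variable {R : Type u} [Ring R] [StarRing R] {V : Type v} {E : Type w} {G : Gr V E}
  {W : Finset V} {T : Finset E} {P : V → R} {S : E → R}

theorem stage_exists (hG : NoExit G) (hF : IsFam G W T P S) (hs : CycSat G W T) :
    ∃ (σ : Sys R) (st : σ.I → V), Stg G W T P S σ st := by
  classical
  have hT0 : T.filter (fun e => Cyc G (G.s e)) ⊆ T := Finset.filter_subset _ _
  have hsub : ∀ U : Finset E, U ⊆ T → IsFam G W U P S := fun U hU =>
    fam_mono hF (Finset.Subset.refl W) hU (fun e he => hF.ends e (hU he))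
  have key : ∀ D : Finset E, D ⊆ T.filter (fun e => ¬ Cyc G (G.s e)) →
      ∃ (σ : Sys R) (st : σ.I → V), Stg G W (T.filter (fun e => Cyc G (G.s e)) ∪ D) P S σ st := by
    intro D
    induction D using Finset.induction_on with
    | empty =>
      intro _
      rw [Finset.union_empty]
      refine stage_zero hG (hsub _ hT0) ?_ ?_
      · intro e he hc
        exact Finset.mem_filter.2 ⟨hs e he hc, hc⟩
      · intro e he
        exact (Finset.mem_filter.1 he).2
    | insert e D he ih =>
      intro hD
      have hD' : D ⊆ T.filter (fun e => ¬ Cyc G (G.s e)) :=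
        fun g hg => hD (Finset.mem_insert_of_mem hg)
      obtain ⟨σ, st, hst⟩ := ih hD'
      have h1 := Finset.mem_filter.1 (hD (Finset.mem_insert_self e D))
      have h2 : e ∉ T.filter (fun e => Cyc G (G.s e)) ∪ D := by
        intro h3
        rcases Finset.mem_union.1 h3 with h4 | h4
        · exact h1.2 (Finset.mem_filter.1 h4).2
        · exact he h4
      have h3 : insert e (T.filter (fun e => Cyc G (G.s e)) ∪ D) ⊆ T := by
        intro g hg
        rcases Finset.mem_insert.1 hg with rfl | hg
        · exact h1.1
        · rcases Finset.mem_union.1 hg with h4 | h4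
          · exact hT0 h4
          · exact (Finset.mem_filter.1 (hD' h4)).1
      rw [Finset.union_insert]
      exact stage_step h2 h1.2 (hsub _ h3) hst
  obtain ⟨σ, st, hst⟩ := key _ (Finset.Subset.refl _)
  rw [Finset.filter_union_filter_not_eq] at hst
  exact ⟨σ, st, hst⟩

end Pool.Agent.Work.MP_2b4d3b_al.NE
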