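import Pool.Agent.Work.MP_2b4d3b_al.NE.Defs
import Pool.Agent.Work.MP_2b4d3b_al.NE.RepC
import Pool.Agent.Work.MP_2b4d3b_al.NE.SysD
import Pool.Agent.Work.MP_2b4d3b_al.NE.StageThm



/-
Stages in Leavitt path algebras are independent. PROOF. stg_bind: for a base b i of Laurent type c = vx x (x = st (b i)) and x-value
vx x * wd l with Ret G x l, so xp n = zp (vx x) (vx x wd l) n and cyc_ind gives both parts (the first: f = single 0 a, zp 0 = vx x,
or vx_torsion). For a base not of Laurent type c = vx x - sum over T at x of ed g gh g (star (ed g) = gh g) with not Cl G T x: open_ne.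
Then σ.Ind by ind_of_bind. stg_map: all clauses map: gen by map of closures (closure_induction), edge by rng_map. bstg_exists: stage_exists
for fam_bi; indZ, indK from stg_map with RingHom.fst, RingHom.snd and stg_bind. bstg_fst, bstg_snd: stg_map. bstg_io: c i is in the
closure of gset; the property io (a.1) = a.2 holds for the generators (io_vx, io_ed, io_star) and is preserved.
-/

set_option linter.unusedVariables false
set_option linter.style.longLine false
set_option linter.unusedSectionVars false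

namespace Pool.Agent.Work.MP_2b4d3b_al.NE

universe u v w u' v' w'

open Finset

variable {V : Type v} {E : Type w} {G : Gr V E}

private theorem wd_map_aux {R : Type u} [Ring R] {R' : Type u'} [Ring R'] {E : Type w}
    (S : E → R) (φ : R →+* R') (l : List E) : wd (fun e => φ (S e)) l = φ (wd S l) := by
  simp only [wd, map_list_prod, List.map_map]
  rfl

private theorem clo_map_aux {R : Type u} [Ring R] [StarRing R] {R' : Type u'} [Ring R']
    [StarRing R'] {V : Type v} {E : Type w}
    {W : Finset V} {T : Finset E} {P : V → R} {S : E → R}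
    (φ : R →+* R') (hφ : ∀ a, φ (star a) = star (φ a)) {a : R}
    (ha : a ∈ NonUnitalSubring.closure (gset W T P S)) :
    φ a ∈ NonUnitalSubring.closure (gset W T (fun x => φ (P x)) (fun e => φ (S e))) := by
  induction ha using NonUnitalSubring.closure_induction with
  | mem x hx =>
    apply NonUnitalSubring.subset_closure
    rcases hx with ⟨y, hy, rfl⟩ | ⟨e, he, rfl⟩ | ⟨e, he, rfl⟩
    · exact Or.inl ⟨y, hy, rfl⟩
    · exact Or.inr (Or.inl ⟨e, he, rfl⟩)
    · exact Or.inr (Or.inr ⟨e, he, hφ _⟩)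
  | zero => rw [map_zero]; exact zero_mem _
  | add x y _ _ hx hy => rw [map_add]; exact add_mem hx hy
  | neg x _ hx => rw [map_neg]; exact neg_mem hx
  | mul x y _ _ hx hy => rw [map_mul]; exact mul_mem hx hy

theorem stg_bind (K : Type u) [CommRing K] [StarRing K] (hG : NoExit G) {W : Finset V} {T : Finset E}
    {σ : Sys (UA K G)} {st : σ.I → V} (h : Stg G W T (vx K G) (ed K G) σ st) :
    σ.BInd K ∧ σ.Ind K := by
  have hb : σ.BInd K := by
    refine ⟨fun i a ha => ?_, fun i hl f hf => ?_⟩
    · by_cases hl : σ.lau (σ.b i)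
      · rw [(h.lauB i hl).1] at ha
        exact vx_torsion _ _ ha
      · obtain ⟨h1, h2, h3⟩ := h.opB i hl
        rw [h3] at ha
        apply open_ne h2 a
        simpa only [star_ed] using ha
    · obtain ⟨h1, l, h2, h3⟩ := h.lauB i hl
      simp only [Sys.xp] at hf
      rw [h1, h3] at hf
      exact cyc_ind h2.1 h2.2.1 f hf
  exact ⟨hb, ind_of_bind σ hb⟩

theorem stg_map {R : Type u} [Ring R] [StarRing R] {R' : Type u'} [Ring R'] [StarRing R']
    {W : Finset V} {T : Finset E} {P : V → R} {S : E → R} {σ : Sys R} {st : σ.I → V}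
    (h : Stg G W T P S σ st) (φ : R →+* R') (hφ : ∀ a, φ (star a) = star (φ a)) :
    Stg G W T (fun x => φ (P x)) (fun e => φ (S e)) (σ.map φ hφ) st := by
  exact
  { stW := h.stW
    sum := fun x hx => (congrArg φ (h.sum x hx)).trans (dg_map σ φ hφ _).symm
    rch := h.rch
    lauB := fun i hi => by
      obtain ⟨h1, l, h2, h3⟩ := h.lauB i hi
      refine ⟨congrArg φ h1, l, h2, ?_⟩
      rw [wd_map_aux, ← map_mul]
      exact congrArg φ h3
    opB := fun i hi => by
      obtain ⟨h1, h2, h3⟩ := h.opB i hi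
      refine ⟨h1, h2, (congrArg φ h3).trans ?_⟩
      rw [map_sub, map_sum]
      refine congrArg₂ _ rfl (Finset.sum_congr rfl fun g _ => ?_)
      rw [map_mul, hφ]
    opU := h.opU
    opE := h.opE
    cyc := fun x hx hc => by
      obtain ⟨i, h1, h2, h3, h4⟩ := h.cyc x hx hc
      refine ⟨i, h1, h2, ?_, fun l hl => ?_⟩
      · refine (congrArg φ h3).trans ?_
        rw [map_mul, hφ]
        rfl
      · rw [wd_map_aux, ← map_mul]
        refine (congrArg φ (h4 l hl)).trans ?_
        rw [map_mul, map_mul, hφ]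
        rfl
    edge := fun e he => rng_map σ φ hφ (h.edge e he)
    gen := fun i => ⟨clo_map_aux φ hφ (h.gen i).1, clo_map_aux φ hφ (h.gen i).2⟩ }

theorem bstg_exists (K : Type u) [CommRing K] [StarRing K] (hG : NoExit G) {W : Finset V}
    {T : Finset E} (hs : CycSat G W T) (he : Ends G W T) :
    ∃ (σ : Sys (UA ℤ G × UA K G)) (st : σ.I → V), BStg K G W T σ st := by
  obtain ⟨σ, st, h⟩ := stage_exists hG (fam_bi K he) hs
  refine ⟨σ, st, hs, he, h, ?_, ?_⟩
  · have h1 : Stg G W T (vx ℤ G) (ed ℤ G) σ.fst st :=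
      stg_map h (RingHom.fst (UA ℤ G) (UA K G)) fun _ => rfl
    exact (stg_bind ℤ hG h1).2
  · have h1 : Stg G W T (vx K G) (ed K G) σ.snd st :=
      stg_map h (RingHom.snd (UA ℤ G) (UA K G)) fun _ => rfl
    exact (stg_bind K hG h1).2

theorem bstg_fst {K : Type u} [CommRing K] [StarRing K] {W : Finset V} {T : Finset E}
    {σ : Sys (UA ℤ G × UA K G)} {st : σ.I → V} (h : BStg K G W T σ st) :
    Stg G W T (vx ℤ G) (ed ℤ G) σ.fst st := by
  exact stg_map h.stg (RingHom.fst (UA ℤ G) (UA K G)) fun _ => rfl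

theorem bstg_snd {K : Type u} [CommRing K] [StarRing K] {W : Finset V} {T : Finset E}
    {σ : Sys (UA ℤ G × UA K G)} {st : σ.I → V} (h : BStg K G W T σ st) :
    Stg G W T (vx K G) (ed K G) σ.snd st := by
  exact stg_map h.stg (RingHom.snd (UA ℤ G) (UA K G)) fun _ => rfl

private theorem io_clo_aux {K : Type u} [CommRing K] [StarRing K] {W : Finset V} {T : Finset E}
    {a : UA ℤ G × UA K G} (ha : a ∈ NonUnitalSubring.closure (gset W T (bP K G) (bS K G))) :
    io K G a.1 = a.2 := by
  induction ha using NonUnitalSubring.closure_induction with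
  | mem x hx =>
    rcases hx with ⟨y, hy, rfl⟩ | ⟨e, he, rfl⟩ | ⟨e, he, rfl⟩
    · exact io_vx y
    · exact io_ed e
    · change io K G (star (ed ℤ G e)) = star (ed K G e)
      rw [star_ed, star_ed, io_gh]
  | zero => exact map_zero _
  | add x y _ _ hx hy =>
    change io K G (x.1 + y.1) = x.2 + y.2
    rw [map_add, hx, hy]
  | neg x _ hx =>
    change io K G (-x.1) = -x.2
    rw [map_neg, hx]
  | mul x y _ _ hx hy =>
    change io K G (x.1 * y.1) = x.2 * y.2
    rw [map_mul, hx, hy]

theorem bstg_io {K : Type u} [CommRing K] [StarRing K] {W : Finset V} {T : Finset E}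
    {σ : Sys (UA ℤ G × UA K G)} {st : σ.I → V} (h : BStg K G W T σ st) (i : σ.I) :
    io K G (σ.c i).1 = (σ.c i).2 ∧ io K G (σ.x (σ.b i)).1 = (σ.x (σ.b i)).2 := by
  exact ⟨io_clo_aux (h.stg.gen i).1, io_clo_aux (h.stg.gen i).2⟩

private theorem io_rng_aux {K : Type u} [CommRing K] [StarRing K] {W : Finset V} {T : Finset E}
    {σ : Sys (UA ℤ G × UA K G)} {st : σ.I → V} (h : BStg K G W T σ st)
    {a : UA ℤ G × UA K G} (ha : a ∈ σ.rng) : io K G a.1 = a.2 := by
  unfold Sys.rng at ha
  induction ha using NonUnitalSubring.closure_induction with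
  | mem x hx =>
    rcases hx with ⟨i, rfl | rfl | rfl | rfl⟩
    · exact (bstg_io h i).1
    · change io K G (star (σ.c i).1) = star (σ.c i).2
      rw [io_star, (bstg_io h i).1]
    · exact (bstg_io h i).2
    · change io K G (star (σ.x (σ.b i)).1) = star (σ.x (σ.b i)).2
      rw [io_star, (bstg_io h i).2]
  | zero => exact map_zero _
  | add x y _ _ hx hy =>
    change io K G (x.1 + y.1) = x.2 + y.2
    rw [map_add, hx, hy]
  | neg x _ hx =>
    change io K G (-x.1) = -x.2
    rw [map_neg, hx]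
  | mul x y _ _ hx hy =>
    change io K G (x.1 * y.1) = x.2 * y.2
    rw [map_mul, hx, hy]

theorem bstg_io_spn {K : Type u} [CommRing K] [StarRing K] {W : Finset V} {T : Finset E}
    {σ : Sys (UA ℤ G × UA K G)} {st : σ.I → V} (h : BStg K G W T σ st) {a : UA ℤ G}
    (ha : a ∈ σ.fst.rng) : io K G a ∈ σ.snd.spn K := by
  obtain ⟨z, hz, rfl⟩ := rng_map_surj σ (RingHom.fst (UA ℤ G) (UA K G)) (fun _ => rfl) ha
  have h1 : io K G z.1 = z.2 := io_rng_aux h hz
  have h2 : z.2 ∈ σ.snd.rng :=
    rng_map σ (RingHom.snd (UA ℤ G) (UA K G)) (fun _ => rfl) hz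
  change io K G z.1 ∈ σ.snd.spn K
  rw [h1]
  exact rng_le σ.snd h2

theorem bstg_io_dg {K : Type u} [CommRing K] [StarRing K] {W : Finset V} {T : Finset E}
    {σ : Sys (UA ℤ G × UA K G)} {st : σ.I → V} (h : BStg K G W T σ st) (D : Finset σ.I) :
    io K G (σ.fst.dg D) = σ.snd.dg D := by
  change io K G (∑ i ∈ D, (σ.c i).1 * star (σ.c i).1) = ∑ i ∈ D, (σ.c i).2 * star (σ.c i).2
  rw [map_sum]
  refine Finset.sum_congr rfl fun i _ => ?_
  rw [map_mul, io_star, (bstg_io h i).1]

end Pool.Agent.Work.MP_2b4d3b_al.NE
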