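import Pool.Agent.Work.MP_2b4d3b_al.NE.Defs
import Pool.Agent.Work.MP_2b4d3b_al.NE.Corn
import Pool.Agent.Work.MP_2b4d3b_al.NE.DynA
import Pool.Agent.Work.MP_2b4d3b_al.NE.SysD
import Pool.Agent.Work.MP_2b4d3b_al.NE.SysD

/-
Elements of stages. PROOF. stg_vx: P (st i) = dg of {j | st j = st i} (Stg.sum), dg_c: P (st i) * c i = c i. For x = st (b i):
c_(b i) = P x c_(b i), taking stars c_(b i) P x = c_(b i) (c_base, P x is selfadjoint since dg is), so c_i P x = c_i c_(b i) P x = c_i.
stg_mem: vertices by sum and dg_rng, edges by edge, ghost edges by rng_star; σ.rng is contained in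
closure (gset) by gen (the closure of gset is star closed: gset is, since P x is selfadjoint), and gset is contained in σ.rng.
stg_cor: c_i is in LP K G (gen; closure of generators), x_(b i) too; c_i = vx (st i) c_i vx (st (b i)) with both vertices in N (rch, her_rch);
x_(b i) = c_(b i) x_(b i) c_(b i) (cx, xs, sx: x = x x* x = x c). mem_Cor_iff or Cor_mid. stg_cor_prj: c_i c_i* = vx (st i) c_i c_i* vx (st i).
stg_eW: sum over x in W0 of P x = dg {i | st i = x} (disjoint unions, dg_union), D = {i | st i in W0}.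
-/

set_option linter.unusedVariables false
set_option linter.style.longLine false
set_option linter.unusedSectionVars false

namespace Pool.Agent.Work.MP_2b4d3b_al.NE

universe u v w u' v' w'

open Finset

variable {V : Type v} {E : Type w} {G : Gr V E}

private theorem aux_dstar {R : Type u} [Ring R] [StarRing R] (σ : Sys R) (D : Finset σ.I) :
    star (σ.dg D) = σ.dg D := by
  unfold Sys.dg
  rw [star_sum]
  exact Finset.sum_congr rfl fun i _ => by rw [star_mul, star_star]

private theorem aux_Pstar {R : Type u} [Ring R] [StarRing R] {W : Finset V} {T : Finset E} {P : V → R}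
    {S : E → R} {σ : Sys R} {st : σ.I → V} (h : Stg G W T P S σ st) {x : V} (hx : x ∈ W) :
    star (P x) = P x := by
  rw [h.sum x hx, aux_dstar]

private theorem aux_gstar {R : Type u} [Ring R] [StarRing R] {W : Finset V} {T : Finset E} {P : V → R}
    {S : E → R} {σ : Sys R} {st : σ.I → V} (h : Stg G W T P S σ st) {a : R}
    (ha : a ∈ NonUnitalSubring.closure (gset W T P S)) :
    star a ∈ NonUnitalSubring.closure (gset W T P S) := by
  induction ha using NonUnitalSubring.closure_induction with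
  | mem a ha =>
    rcases ha with ⟨x, hx, rfl⟩ | ⟨e, he, rfl⟩ | ⟨e, he, rfl⟩
    · rw [aux_Pstar h hx]
      exact NonUnitalSubring.subset_closure (Or.inl ⟨x, hx, rfl⟩)
    · exact NonUnitalSubring.subset_closure (Or.inr (Or.inr ⟨e, he, rfl⟩))
    · rw [star_star]
      exact NonUnitalSubring.subset_closure (Or.inr (Or.inl ⟨e, he, rfl⟩))
  | zero => rw [star_zero]; exact zero_mem _
  | add a b _ _ ha hb => rw [star_add]; exact add_mem ha hb
  | neg a _ ha => rw [star_neg]; exact neg_mem ha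
  | mul a b _ _ ha hb => rw [star_mul]; exact mul_mem hb ha

private theorem aux_xc {R : Type u} [Ring R] [StarRing R] (σ : Sys R) (i : σ.I) :
    σ.x (σ.b i) * σ.c (σ.b i) = σ.x (σ.b i) := by
  rw [← σ.sx i, ← mul_assoc, σ.xs i, σ.cx i]

theorem stg_mem {R : Type u} [Ring R] [StarRing R] {W : Finset V} {T : Finset E} {P : V → R}
    {S : E → R} {σ : Sys R} {st : σ.I → V} (h : Stg G W T P S σ st) :
    (∀ x ∈ W, P x ∈ σ.rng) ∧ (∀ e ∈ T, S e ∈ σ.rng ∧ star (S e) ∈ σ.rng) ∧
      σ.rng = NonUnitalSubring.closure (gset W T P S) := by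
  have h1 : ∀ x ∈ W, P x ∈ σ.rng := fun x hx => by
    rw [h.sum x hx]
    exact dg_rng σ _
  have h2 : ∀ e ∈ T, S e ∈ σ.rng ∧ star (S e) ∈ σ.rng := fun e he =>
    ⟨h.edge e he, rng_star σ (h.edge e he)⟩
  refine ⟨h1, h2, le_antisymm ?_ ?_⟩
  · unfold Sys.rng
    rw [NonUnitalSubring.closure_le]
    rintro a ⟨i, rfl | rfl | rfl | rfl⟩
    · exact (h.gen i).1
    · exact aux_gstar h (h.gen i).1
    · exact (h.gen i).2
    · exact aux_gstar h (h.gen i).2
  · rw [NonUnitalSubring.closure_le]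
    rintro a (⟨x, hx, rfl⟩ | ⟨e, he, rfl⟩ | ⟨e, he, rfl⟩)
    · exact h1 x hx
    · exact (h2 e he).1
    · exact (h2 e he).2

theorem stg_vx {R : Type u} [Ring R] [StarRing R] {W : Finset V} {T : Finset E} {P : V → R}
    {S : E → R} {σ : Sys R} {st : σ.I → V} (h : Stg G W T P S σ st) (i : σ.I) :
    P (st i) * σ.c i = σ.c i ∧ σ.c i * P (st (σ.b i)) = σ.c i := by
  have h1 : ∀ i, P (st i) * σ.c i = σ.c i := fun i => by
    rw [h.sum (st i) (h.stW i)]
    exact dg_c σ (by simp)
  refine ⟨h1 i, ?_⟩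
  have h2 : σ.c (σ.b i) * P (st (σ.b i)) = σ.c (σ.b i) := by
    have h3 := congrArg star (h1 (σ.b i))
    rw [star_mul, aux_Pstar h (h.stW _), (c_base σ (σ.bb i)).1] at h3
    exact h3
  calc σ.c i * P (st (σ.b i)) = σ.c i * σ.c (σ.b i) * P (st (σ.b i)) := by rw [σ.cb]
    _ = σ.c i * (σ.c (σ.b i) * P (st (σ.b i))) := by rw [mul_assoc]
    _ = σ.c i := by rw [h2, σ.cb]

theorem stg_cor {K : Type u} [CommRing K] [StarRing K] {W : Finset V} {T : Finset E}
    {σ : Sys (UA K G)} {st : σ.I → V} (h : Stg G W T (vx K G) (ed K G) σ st) {N : Set V}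
    (hN : Her G N) {i : σ.I} (hi : st i ∈ N) : σ.c i ∈ Cor K G N ∧ σ.x (σ.b i) ∈ Cor K G N := by
  have h1 : ∀ j : σ.I, st j ∈ N → σ.c j ∈ Cor K G N := fun j hj => by
    have h2 := Cor_mid (vx_mem_Cor (K := K) (G := G) hj) (σ.c j)
      (vx_mem_Cor (K := K) (G := G) (her_rch hN hj (h.rch j)))
    rw [(stg_vx h j).1, (stg_vx h j).2] at h2
    exact h2
  refine ⟨h1 i hi, ?_⟩
  have h3 := h1 (σ.b i) (her_rch hN hi (h.rch i))
  have h4 := Cor_mid h3 (σ.x (σ.b i)) h3
  rw [σ.cx, aux_xc] at h4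
  exact h4

theorem stg_cor_prj {K : Type u} [CommRing K] [StarRing K] {W : Finset V} {T : Finset E}
    {σ : Sys (UA K G)} {st : σ.I → V} (h : Stg G W T (vx K G) (ed K G) σ st) {N : Set V} {i : σ.I}
    (hi : st i ∈ N) : σ.c i * star (σ.c i) ∈ Cor K G N := by
  have h2 := Cor_mid (vx_mem_Cor (K := K) (G := G) hi) (σ.c i * star (σ.c i))
      (vx_mem_Cor (K := K) (G := G) hi)
  have h3 : star (σ.c i) * vx K G (st i) = star (σ.c i) := by
    have h4 := congrArg star (stg_vx h i).1
    rw [star_mul, star_vx] at h4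
    exact h4
  rw [← mul_assoc, (stg_vx h i).1, mul_assoc, h3] at h2
  exact h2

theorem stg_eW {K : Type u} [CommRing K] [StarRing K] {W : Finset V} {T : Finset E}
    {σ : Sys (UA K G)} {st : σ.I → V} (h : Stg G W T (vx K G) (ed K G) σ st) {W0 : Finset V}
    (hW : W0 ⊆ W) : ∃ D : Finset σ.I, (∀ i, i ∈ D ↔ st i ∈ W0) ∧ eW K G W0 = σ.dg D := by
  classical
  refine ⟨Finset.univ.filter fun i => st i ∈ W0, fun i => by simp, ?_⟩
  unfold eW Sys.dg
  rw [← Finset.sum_fiberwise_of_maps_to (t := W0) (g := st)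
    (s := Finset.univ.filter fun i => st i ∈ W0) (fun i hi => (Finset.mem_filter.1 hi).2)]
  refine Finset.sum_congr rfl fun x hx => ?_
  rw [h.sum x (hW hx)]
  unfold Sys.dg
  refine Finset.sum_congr ?_ fun _ _ => rfl
  ext i
  simp only [Finset.mem_filter, Finset.mem_univ, true_and]
  constructor
  · intro hi; exact ⟨hi ▸ hx, hi⟩
  · intro hi; exact hi.2

end Pool.Agent.Work.MP_2b4d3b_al.NE
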