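import Pool.Agent.Work.MP_2b4d3b_al.NE.Defs
import Pool.Agent.Work.MP_2b4d3b_al.NE.HerC
import Pool.Agent.Work.MP_2b4d3b_al.NE.NiceS
import Pool.Agent.Work.MP_2b4d3b_al.NE.StageInd
import Pool.Agent.Work.MP_2b4d3b_al.NE.StageM

/-
Finitely many elements of a corner lie in one stage. PROOF. For a in Cor Z G N (HerC.cor_ind) there are finite W_a in N, T_a (sources in
N) such that for every stage (W, T) with W_a in W, T_a in T (Nice) and every BStg σ, a is in σ.fst.rng: for generators by stg_mem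
(bstg_fst), sums, products, integer multiples, zero (a subring). In the same way for b in Cor K G N and σ.snd.spn K
(rng_le for the generators, spn_mul). Take the union of all W_a, T_a and W0, nice_exists, bstg_exists.
-/

set_option linter.unusedVariables false
set_option linter.style.longLine false
set_option linter.unusedSectionVars false

namespace Pool.Agent.Work.MP_2b4d3b_al.NE

universe u v w u' v' w'

open Finset

variable {V : Type v} {E : Type w} {G : Gr V E}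

/-- Q holds for all sufficiently large stages -/
private def LQ (K : Type u) [CommRing K] [StarRing K] (G : Gr V E) (N : Set V)
    (Q : Sys (UA ℤ G × UA K G) → Prop) : Prop :=
  ∃ (Wa : Finset V) (Ta : Finset E), (∀ x ∈ Wa, x ∈ N) ∧ (∀ e ∈ Ta, G.s e ∈ N) ∧
    ∀ (W : Finset V) (T : Finset E) (σ : Sys (UA ℤ G × UA K G)) (st : σ.I → V), Wa ⊆ W → Ta ⊆ T →
      BStg K G W T σ st → Q σ

private theorem LQ_and {K : Type u} [CommRing K] [StarRing K] {N : Set V}
    {Q1 Q2 Q3 : Sys (UA ℤ G × UA K G) → Prop} (h1 : LQ K G N Q1) (h2 : LQ K G N Q2)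
    (h3 : ∀ σ, Q1 σ → Q2 σ → Q3 σ) : LQ K G N Q3 := by
  classical
  obtain ⟨W1, T1, a1, b1, c1⟩ := h1
  obtain ⟨W2, T2, a2, b2, c2⟩ := h2
  refine ⟨W1 ∪ W2, T1 ∪ T2, ?_, ?_, ?_⟩
  · intro x hx
    rcases Finset.mem_union.1 hx with h | h
    · exact a1 x h
    · exact a2 x h
  · intro e he
    rcases Finset.mem_union.1 he with h | h
    · exact b1 e h
    · exact b2 e h
  · intro W T σ st hW hT hb
    exact h3 σ (c1 W T σ st (Finset.union_subset_left hW) (Finset.union_subset_left hT) hb)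
      (c2 W T σ st (Finset.union_subset_right hW) (Finset.union_subset_right hT) hb)

private theorem LQ_true (K : Type u) [CommRing K] [StarRing K] (N : Set V)
    {Q : Sys (UA ℤ G × UA K G) → Prop} (h : ∀ σ, Q σ) : LQ K G N Q :=
  ⟨∅, ∅, fun x hx => absurd hx (Finset.notMem_empty x),
    fun x hx => absurd hx (Finset.notMem_empty x), fun _ _ σ _ _ _ _ => h σ⟩

private theorem LQ_imp {K : Type u} [CommRing K] [StarRing K] {N : Set V}
    {Q1 Q2 : Sys (UA ℤ G × UA K G) → Prop} (h1 : LQ K G N Q1)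
    (h2 : ∀ σ, Q1 σ → Q2 σ) : LQ K G N Q2 := by
  obtain ⟨W1, T1, a1, b1, c1⟩ := h1
  exact ⟨W1, T1, a1, b1, fun W T σ st hW hT hb => h2 σ (c1 W T σ st hW hT hb)⟩

private theorem LQ_all {K : Type u} [CommRing K] [StarRing K] {N : Set V} {α : Type v'}
    {Q : α → Sys (UA ℤ G × UA K G) → Prop} (A : Finset α) (h : ∀ a ∈ A, LQ K G N (Q a)) :
    LQ K G N fun σ => ∀ a ∈ A, Q a σ := by
  classical
  induction A using Finset.induction_on with
  | empty => exact LQ_true K N fun σ a ha => absurd ha (Finset.notMem_empty a)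
  | insert a S ha ih =>
    refine LQ_and (h a (Finset.mem_insert_self a S))
      (ih fun b hb => h b (Finset.mem_insert_of_mem hb)) ?_
    intro σ h1 h2 b hb
    rcases Finset.mem_insert.1 hb with e | e
    · rw [e]
      exact h1
    · exact h2 b e

private theorem LQ_Z (K : Type u) [CommRing K] [StarRing K] {N : Set V} (hN : Her G N)
    {a : UA ℤ G} (ha : a ∈ Cor ℤ G N) :
    LQ K G N fun σ => a ∈ σ.fst.rng := by
  refine cor_ind hN (P := fun a => LQ K G N fun σ => a ∈ σ.fst.rng) ?_ ?_ ?_ ?_ ?_ ?_ ?_ ha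
  · intro x hx
    refine ⟨{x}, ∅, fun y hy => (Finset.mem_singleton.1 hy).symm ▸ hx,
      fun x hx => absurd hx (Finset.notMem_empty x), fun W T σ st hW hT hb => ?_⟩
    exact (stg_mem (bstg_fst hb)).1 x (hW (Finset.mem_singleton_self x))
  · intro e he
    refine ⟨∅, {e}, fun x hx => absurd hx (Finset.notMem_empty x),
      fun y hy => (Finset.mem_singleton.1 hy).symm ▸ he, fun W T σ st hW hT hb => ?_⟩
    exact ((stg_mem (bstg_fst hb)).2.1 e (hT (Finset.mem_singleton_self e))).1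
  · intro e he
    refine ⟨∅, {e}, fun x hx => absurd hx (Finset.notMem_empty x),
      fun y hy => (Finset.mem_singleton.1 hy).symm ▸ he, fun W T σ st hW hT hb => ?_⟩
    have h1 := ((stg_mem (bstg_fst hb)).2.1 e (hT (Finset.mem_singleton_self e))).2
    rwa [star_ed] at h1
  · exact LQ_true K N fun σ => σ.fst.rng.zero_mem
  · intro a b h1 h2
    exact LQ_and h1 h2 fun σ h3 h4 => σ.fst.rng.add_mem h3 h4
  · intro a b h1 h2
    exact LQ_and h1 h2 fun σ h3 h4 => σ.fst.rng.mul_mem h3 h4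
  · intro k a h1
    refine LQ_imp h1 fun σ h3 => ?_
    have h4 : algebraMap ℤ (UA ℤ G) k * a ∈ σ.fst.rng := by
      rw [eq_intCast, ← zsmul_eq_mul]
      exact zsmul_mem h3 k
    rw [Algebra.smul_def]
    exact h4

private theorem LQ_K {K : Type u} [CommRing K] [StarRing K] {N : Set V} (hN : Her G N)
    {a : UA K G} (ha : a ∈ Cor K G N) :
    LQ K G N fun σ => a ∈ σ.snd.spn K := by
  refine cor_ind hN (P := fun a => LQ K G N fun σ => a ∈ σ.snd.spn K) ?_ ?_ ?_ ?_ ?_ ?_ ?_ ha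
  · intro x hx
    refine ⟨{x}, ∅, fun y hy => (Finset.mem_singleton.1 hy).symm ▸ hx,
      fun x hx => absurd hx (Finset.notMem_empty x), fun W T σ st hW hT hb => ?_⟩
    exact rng_le _ ((stg_mem (bstg_snd hb)).1 x (hW (Finset.mem_singleton_self x)))
  · intro e he
    refine ⟨∅, {e}, fun x hx => absurd hx (Finset.notMem_empty x),
      fun y hy => (Finset.mem_singleton.1 hy).symm ▸ he, fun W T σ st hW hT hb => ?_⟩
    exact rng_le _ ((stg_mem (bstg_snd hb)).2.1 e (hT (Finset.mem_singleton_self e))).1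
  · intro e he
    refine ⟨∅, {e}, fun x hx => absurd hx (Finset.notMem_empty x),
      fun y hy => (Finset.mem_singleton.1 hy).symm ▸ he, fun W T σ st hW hT hb => ?_⟩
    have h1 := ((stg_mem (bstg_snd hb)).2.1 e (hT (Finset.mem_singleton_self e))).2
    rw [star_ed] at h1
    exact rng_le _ h1
  · exact LQ_true K N fun σ => (σ.snd.spn K).zero_mem
  · intro a b h1 h2
    exact LQ_and h1 h2 fun σ h3 h4 => (σ.snd.spn K).add_mem h3 h4
  · intro a b h1 h2
    exact LQ_and h1 h2 fun σ h3 h4 => spn_mul _ h3 h4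
  · intro k a h1
    exact LQ_imp h1 fun σ h3 => (σ.snd.spn K).smul_mem k h3

theorem loc (K : Type u) [CommRing K] [StarRing K] (hG : NoExit G) {N : Set V} (hN : Her G N)
    (W0 : Finset V) (hW : ∀ x ∈ W0, x ∈ N) (A : Finset (UA ℤ G)) (hA : ∀ a ∈ A, a ∈ Cor ℤ G N)
    (B : Finset (UA K G)) (hB : ∀ b ∈ B, b ∈ Cor K G N) :
    ∃ (W : Finset V) (T : Finset E) (σ : Sys (UA ℤ G × UA K G)) (st : σ.I → V),
      Nice G N W T ∧ W0 ⊆ W ∧ BStg K G W T σ st ∧ (∀ a ∈ A, a ∈ σ.fst.rng) ∧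
        ∀ b ∈ B, b ∈ σ.snd.spn K := by
  classical
  obtain ⟨Wa, Ta, h1, h2, h3⟩ := LQ_and (LQ_all A fun a ha => LQ_Z K hN (hA a ha))
    (LQ_all B fun b hb => LQ_K hN (hB b hb)) (Q3 := fun σ => (∀ a ∈ A, a ∈ σ.fst.rng) ∧
      ∀ b ∈ B, b ∈ σ.snd.spn K) fun σ h1 h2 => ⟨h1, h2⟩
  obtain ⟨W, T, h4, h5, h6⟩ := nice_exists hG hN (W0 ∪ Wa) Ta (by
    intro x hx
    rcases Finset.mem_union.1 hx with h | h
    · exact hW x h
    · exact h1 x h) h2
  obtain ⟨σ, st, h7⟩ := bstg_exists K hG h4.2.1 h4.2.2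
  exact ⟨W, T, σ, st, h4, Finset.union_subset_left h5, h7,
    h3 W T σ st (Finset.union_subset_right h5) h6 h7⟩

/-- the version for rings of stages -/
theorem loc_gtp (hG : NoExit G) {N : Set V} (hN : Her G N) (A : Finset (UA ℤ G))
    (hA : ∀ a ∈ A, a ∈ Cor ℤ G N) : ∃ B : Set (UA ℤ G), GTp G N B ∧ (∀ a ∈ A, a ∈ B) ∧
      (∀ b ∈ B, b ∈ Cor ℤ G N) := by
  obtain ⟨W, T, σ, st, h1, h2, h3, h4, h5⟩ := loc ℤ hG hN ∅
    (fun x hx => absurd hx (Finset.notMem_empty x)) A hA ∅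
    (fun x hx => absurd hx (Finset.notMem_empty x))
  refine ⟨(σ.fst.rng : Set (UA ℤ G)), ⟨W, T, σ.fst, st, h1, bstg_fst h3, h3.indZ, rfl⟩, h4, ?_⟩
  intro b hb
  have hc : ∀ i, σ.fst.c i ∈ Cor ℤ G N ∧ σ.fst.x (σ.fst.b i) ∈ Cor ℤ G N := fun i =>
    stg_cor (bstg_fst h3) hN (h1.1 _ ((bstg_fst h3).stW i))
  refine NonUnitalSubring.closure_induction (p := fun b _ => b ∈ Cor ℤ G N) ?_ Cor_zero
    (fun x y _ _ hx hy => Cor_add hx hy) (fun x _ hx => Cor_neg hx)
    (fun x y _ _ hx hy => Cor_mul hx hy) hb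
  rintro x ⟨i, rfl | rfl | rfl | rfl⟩
  · exact (hc i).1
  · exact Cor_star (hc i).1
  · exact (hc i).2
  · exact Cor_star (hc i).2

end Pool.Agent.Work.MP_2b4d3b_al.NE
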