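import Pool.Agent.Work.MP_2b4d3b_al.NE.Defs
import Pool.Agent.Work.MP_2b4d3b_al.NE.SysD

/-
All projections over Z are diagonal. PROOF. Let p = ev A, A in BM Z (mem_rng_iff). By ev_mul, ev_star and ev_inj A * A = A and
A = (A.map invert).transpose. So A i i = sum_j A i j * A j i = sum_j A i j * invert (A i j) (as A j i = invert (A i j)).
Take the coefficient of T^0: the constant coefficient of f * invert f is sum_n (f_n)^2 (LaurentPolynomial / AddMonoidAlgebra mul,
finite sum over the support). With t = (A i i).coeff 0 in Z: t = sum_j sum_n ((A i j).coeff n)^2 >= t^2, all other terms are >= 0.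
So t = 0 or 1 (t <= t^2 for integers with equality only then: t = t^2 + rest, rest >= 0, t^2 >= t), rest = 0, so A i j = 0 for
j <> i and (A i i).coeff n = 0 for n <> 0: A = diagonal of 0 and 1. D = the set of i with A i i = 1; ev_diag.
-/

set_option linter.unusedVariables false
set_option linter.style.longLine false
set_option linter.unusedSectionVars false

namespace Pool.Agent.Work.MP_2b4d3b_al.NE

universe u v w u' v' w'

open Finset

variable {R : Type u} [Ring R] [StarRing R] [Algebra ℤ R] (σ : Sys R)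

private theorem pd_coeff (f : LaurentPolynomial ℤ) :
    (f * LaurentPolynomial.invert f).coeff 0 = ∑ n ∈ f.coeff.support, f.coeff n ^ 2 := by
  classical
  rw [AddMonoidAlgebra.coeff_mul, Finsupp.sum]
  refine Finset.sum_congr rfl fun n hn => ?_
  rw [Finsupp.sum, Finset.sum_eq_single (-n)]
  · rw [if_pos (add_neg_cancel n), LaurentPolynomial.invert_apply, neg_neg, sq]
  · intro m _ hm
    rw [if_neg]
    intro h
    exact hm (eq_neg_of_add_eq_zero_right h)
  · intro hm
    rw [Finsupp.notMem_support_iff.1 hm, mul_zero, ite_self]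

private theorem pd_split (f : ℤ →₀ ℤ) :
    ∑ n ∈ f.support, f n ^ 2 = f 0 ^ 2 + ∑ n ∈ f.support.erase 0, f n ^ 2 := by
  by_cases h0 : (0 : ℤ) ∈ f.support
  · exact (Finset.add_sum_erase _ (fun n => f n ^ 2) h0).symm
  · rw [Finset.erase_eq_of_notMem h0, Finsupp.notMem_support_iff.1 h0]
    simp

private theorem pd_key {ι : Type} [Fintype ι] [DecidableEq ι]
    (A : Matrix ι ι (LaurentPolynomial ℤ)) (h1 : A * A = A)
    (h2 : ∀ i j, LaurentPolynomial.invert (A i j) = A j i) (i : ι) :
    (∀ j, j ≠ i → A i j = 0) ∧ (A i i = 1 ∨ A i i = 0) := by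
  classical
  have hrow : A i i = ∑ j, A i j * LaurentPolynomial.invert (A i j) := by
    have h3 : (A * A) i i = A i i := by rw [h1]
    rw [Matrix.mul_apply] at h3
    rw [← h3]
    exact Finset.sum_congr rfl fun j _ => by rw [h2]
  have ht : (A i i).coeff 0 = ∑ j, ∑ n ∈ (A i j).coeff.support, (A i j).coeff n ^ 2 := by
    have h3 := congrArg (fun f : LaurentPolynomial ℤ => f.coeff 0) hrow
    simp only [AddMonoidAlgebra.coeff_sum, Finsupp.finsetSum_apply, pd_coeff] at h3
    exact h3
  have hS0 : ∀ j, 0 ≤ ∑ n ∈ (A i j).coeff.support, (A i j).coeff n ^ 2 :=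
    fun j => Finset.sum_nonneg fun n _ => sq_nonneg _
  have hsp : ∑ j, ∑ n ∈ (A i j).coeff.support, (A i j).coeff n ^ 2 =
      (∑ n ∈ (A i i).coeff.support, (A i i).coeff n ^ 2) +
        ∑ j ∈ Finset.univ.erase i, ∑ n ∈ (A i j).coeff.support, (A i j).coeff n ^ 2 :=
    (Finset.add_sum_erase _ (fun j => ∑ n ∈ (A i j).coeff.support, (A i j).coeff n ^ 2)
      (Finset.mem_univ i)).symm
  have hE0 : 0 ≤ ∑ j ∈ Finset.univ.erase i, ∑ n ∈ (A i j).coeff.support, (A i j).coeff n ^ 2 :=
    Finset.sum_nonneg fun j _ => hS0 j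
  have hF0 : 0 ≤ ∑ n ∈ (A i i).coeff.support.erase 0, (A i i).coeff n ^ 2 :=
    Finset.sum_nonneg fun n _ => sq_nonneg _
  have hsq := Int.le_self_sq ((A i i).coeff 0)
  have hs := pd_split (A i i).coeff
  have e1 : ∑ j ∈ Finset.univ.erase i, ∑ n ∈ (A i j).coeff.support, (A i j).coeff n ^ 2 = 0 := by
    linarith
  have e2 : ∑ n ∈ (A i i).coeff.support.erase 0, (A i i).coeff n ^ 2 = 0 := by
    linarith
  have e3 : (A i i).coeff 0 = (A i i).coeff 0 ^ 2 := by
    linarith
  constructor
  · intro j hj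
    have h4 := (Finset.sum_eq_zero_iff_of_nonneg (fun j _ => hS0 j)).1 e1 j
      (Finset.mem_erase.2 ⟨hj, Finset.mem_univ j⟩)
    have h5 := (Finset.sum_eq_zero_iff_of_nonneg (fun n _ => sq_nonneg _)).1 h4
    refine LaurentPolynomial.ext fun n => ?_
    by_cases hn : n ∈ (A i j).coeff.support
    · rw [pow_eq_zero_iff two_ne_zero |>.1 (h5 n hn)]
      rfl
    · rw [Finsupp.notMem_support_iff.1 hn]
      rfl
  · have h5 := (Finset.sum_eq_zero_iff_of_nonneg (fun n _ => sq_nonneg _)).1 e2
    have h6 : A i i = LaurentPolynomial.C ((A i i).coeff 0) := by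
      refine LaurentPolynomial.ext fun n => ?_
      rw [LaurentPolynomial.C_apply]
      by_cases hn0 : n = 0
      · rw [if_pos hn0, hn0]
      · rw [if_neg hn0]
        by_cases hn : n ∈ (A i i).coeff.support
        · exact pow_eq_zero_iff two_ne_zero |>.1 (h5 n (Finset.mem_erase.2 ⟨hn0, hn⟩))
        · exact Finsupp.notMem_support_iff.1 hn
    have h7 : (A i i).coeff 0 * ((A i i).coeff 0 - 1) = 0 := by
      linear_combination -e3
    rcases mul_eq_zero.1 h7 with h8 | h8
    · right
      rw [h6, h8, map_zero]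
    · left
      rw [h6, sub_eq_zero.1 h8, map_one]

theorem prj_diag (h : σ.Ind ℤ) {p : R} (hp : p ∈ σ.rng) (hpp : IsPrj p) :
    ∃ D : Finset σ.I, p = σ.dg D := by
  classical
  obtain ⟨A, hA, rfl⟩ := (mem_rng_iff σ).1 hp
  have h1 : A * A = A := ev_inj σ h (BM_mul σ hA hA) hA (by rw [ev_mul σ hA hA, hpp.1])
  have h2 : (A.map LaurentPolynomial.invert).transpose = A :=
    ev_inj σ h (BM_star σ hA) hA (by rw [← ev_star σ hA, hpp.2])
  have h3 : ∀ i j, LaurentPolynomial.invert (A i j) = A j i := fun i j => by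
    have h4 : (A.map LaurentPolynomial.invert).transpose j i = A j i := by rw [h2]
    exact h4
  have key := pd_key A h1 h3
  refine ⟨Finset.univ.filter fun i => A i i = 1, ?_⟩
  rw [← ev_diag (k := ℤ) σ]
  have h5 : A = Matrix.diagonal fun i =>
      if i ∈ Finset.univ.filter (fun i => A i i = 1) then (1 : LaurentPolynomial ℤ) else 0 := by
    ext1 i j
    by_cases hij : i = j
    · subst hij
      rw [Matrix.diagonal_apply_eq]
      by_cases h6 : A i i = 1
      · rw [if_pos (Finset.mem_filter.2 ⟨Finset.mem_univ i, h6⟩), h6]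
      · have h8 : i ∉ Finset.univ.filter (fun i => A i i = 1) :=
          fun h7 => h6 (Finset.mem_filter.1 h7).2
        rw [if_neg h8]
        exact (key i).2.resolve_left h6
    · rw [Matrix.diagonal_apply_ne _ hij]
      exact (key i).1 j (Ne.symm hij)
  exact congrArg (σ.ev ℤ) h5

end Pool.Agent.Work.MP_2b4d3b_al.NE
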