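import Pool.Agent.Work.MP_2b4d3b_al.NE.Defs
import Pool.Agent.Work.MP_2b4d3b_al.NE.SysD

/-
Equivalent diagonal projections have equal block cardinalities; direct finiteness.
PROOF. rank_eq: a = ev A, b = ev B with A, B in BM, by ev_mul, ev_inj: A * B = diag D, B * A = diag D', diag D * A = A = A * diag D',
etc. For a base o let D_o, D'_o be the indices of block o. The submatrices A_o (rows D_o, columns D'_o), B_o satisfy
A_o * B_o = 1, B_o * A_o = 1 (block matrices: entries between different blocks vanish; entries of A vanish outside D x D').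
Matrix.square_of_invertible (LaurentPolynomial k is commutative and nontrivial, so has the invariant basis number) gives equal
cardinalities. (Alternative: map T to 1 first.)
fin_sys: b * a = e, e idempotent, a = a e = e a, b = e b = b e, all in spn: in matrices: B A = Em, Em idempotent. A' = A + (1 - Em),
B' = B + (1 - Em): B' * A' = B A + (1 - Em) = 1, so A' * B' = 1 (Matrix.mul_eq_one_comm_of_... / mul_eq_one_comm for square
matrices over a commutative ring), and A' * B' = A B + 1 - Em, so A B = Em.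
-/

set_option linter.unusedVariables false
set_option linter.style.longLine false
set_option linter.unusedSectionVars false

namespace Pool.Agent.Work.MP_2b4d3b_al.NE

universe u v w u' v' w'

open Finset

variable {R : Type u} [Ring R] [StarRing R] {k : Type v} [CommRing k] [Algebra k R] (σ : Sys R)

private theorem rks_sub {D D' : Finset σ.I} {A B : Matrix σ.I σ.I (LaurentPolynomial k)}
    (hA : A ∈ σ.BM k)
    (hAB : A * B = Matrix.diagonal fun i => if i ∈ D then (1 : LaurentPolynomial k) else 0)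
    (hAD : A * (Matrix.diagonal fun i => if i ∈ D' then (1 : LaurentPolynomial k) else 0) = A)
    (o : σ.I) :
    (Matrix.of fun (i : {i // i ∈ D.filter fun i => σ.b i = o})
        (j : {j // j ∈ D'.filter fun j => σ.b j = o}) => A i.1 j.1) *
      (Matrix.of fun (i : {i // i ∈ D'.filter fun i => σ.b i = o})
        (j : {j // j ∈ D.filter fun j => σ.b j = o}) => B i.1 j.1) = 1 := by
  refine Matrix.ext fun i j => ?_
  rw [Matrix.mul_apply]
  have h1 : ∑ l : {l // l ∈ D'.filter fun l => σ.b l = o},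
      (Matrix.of fun (i : {i // i ∈ D.filter fun i => σ.b i = o})
        (j : {j // j ∈ D'.filter fun j => σ.b j = o}) => A i.1 j.1) i l *
      (Matrix.of fun (i : {i // i ∈ D'.filter fun i => σ.b i = o})
        (j : {j // j ∈ D.filter fun j => σ.b j = o}) => B i.1 j.1) l j =
      ∑ l ∈ D'.filter (fun l => σ.b l = o), A i.1 l * B l j.1 :=
    Finset.sum_coe_sort (D'.filter fun l => σ.b l = o) (fun l => A i.1 l * B l j.1)
  rw [h1]
  have h2 : ∑ l ∈ D'.filter (fun l => σ.b l = o), A i.1 l * B l j.1 =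
      ∑ l, A i.1 l * B l j.1 := by
    apply Finset.sum_subset (Finset.subset_univ _)
    intro l _ hl
    have h3 : A i.1 l = 0 := by
      by_contra hne
      apply hl
      rw [Finset.mem_filter]
      constructor
      · by_contra hlD
        apply hne
        rw [← hAD, Matrix.mul_diagonal, if_neg hlD, mul_zero]
      · rw [← (hA i.1 l hne).1]
        exact (Finset.mem_filter.1 i.2).2
    rw [h3, zero_mul]
  rw [h2, ← Matrix.mul_apply, hAB, Matrix.diagonal_apply, Matrix.one_apply]
  by_cases hij : i = j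
  · subst hij
    rw [if_pos rfl, if_pos rfl, if_pos (Finset.mem_filter.1 i.2).1]
  · rw [if_neg hij, if_neg fun h => hij (Subtype.ext h)]

theorem rank_eq [Nontrivial k] (h : σ.Ind k) {D D' : Finset σ.I}
    (hm : Mv (σ.spn k : Set R) (σ.dg D) (σ.dg D')) (o : σ.I) :
    (D.filter fun i => σ.b i = o).card = (D'.filter fun i => σ.b i = o).card := by
  obtain ⟨a, ha, b, hb, h1, h2, h3, h4, h5, h6⟩ := hm
  obtain ⟨A, hA, rfl⟩ := (mem_spn_iff σ).1 ha
  obtain ⟨B, hB, rfl⟩ := (mem_spn_iff σ).1 hb
  have hD := BM_diag (k := k) σ D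
  have hD' := BM_diag (k := k) σ D'
  rw [← ev_diag (k := k)] at h1 h2 h3 h4 h5 h6
  have e1 : A * B = Matrix.diagonal fun i => if i ∈ D then (1 : LaurentPolynomial k) else 0 :=
    ev_inj σ h (BM_mul σ hA hB) hD (by rw [ev_mul σ hA hB, h1])
  have e2 : B * A = Matrix.diagonal fun i => if i ∈ D' then (1 : LaurentPolynomial k) else 0 :=
    ev_inj σ h (BM_mul σ hB hA) hD' (by rw [ev_mul σ hB hA, h2])
  have e4 : A * (Matrix.diagonal fun i => if i ∈ D' then (1 : LaurentPolynomial k) else 0) = A :=
    ev_inj σ h (BM_mul σ hA hD') hA (by rw [ev_mul σ hA hD', h4])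
  have e6 : B * (Matrix.diagonal fun i => if i ∈ D then (1 : LaurentPolynomial k) else 0) = B :=
    ev_inj σ h (BM_mul σ hB hD) hB (by rw [ev_mul σ hB hD, h6])
  have f1 := rks_sub σ hA e1 e4 o
  have f2 := rks_sub σ hB e2 e6 o
  have h7 := Matrix.square_of_invertible _ _ f1 f2
  rw [Fintype.card_coe, Fintype.card_coe] at h7
  exact h7

theorem fin_sys (h : σ.Ind k) {a b e : R} (ha : a ∈ σ.spn k) (hb : b ∈ σ.spn k)
    (he : e ∈ σ.spn k) (hba : b * a = e) (hee : e * e = e) (h1 : e * a = a) (h2 : a * e = a)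
    (h3 : e * b = b) (h4 : b * e = b) : a * b = e := by
  obtain ⟨A, hA, rfl⟩ := (mem_spn_iff σ).1 ha
  obtain ⟨B, hB, rfl⟩ := (mem_spn_iff σ).1 hb
  obtain ⟨M, hM, rfl⟩ := (mem_spn_iff σ).1 he
  have e1 : B * A = M := ev_inj σ h (BM_mul σ hB hA) hM (by rw [ev_mul σ hB hA, hba])
  have e2 : M * M = M := ev_inj σ h (BM_mul σ hM hM) hM (by rw [ev_mul σ hM hM, hee])
  have e3 : M * A = A := ev_inj σ h (BM_mul σ hM hA) hA (by rw [ev_mul σ hM hA, h1])
  have e4 : A * M = A := ev_inj σ h (BM_mul σ hA hM) hA (by rw [ev_mul σ hA hM, h2])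
  have e5 : M * B = B := ev_inj σ h (BM_mul σ hM hB) hB (by rw [ev_mul σ hM hB, h3])
  have e6 : B * M = B := ev_inj σ h (BM_mul σ hB hM) hB (by rw [ev_mul σ hB hM, h4])
  have h7 : (B + (1 - M)) * (A + (1 - M)) = 1 := by
    have h10 : (B + (1 - M)) * (A + (1 - M)) =
        B * A + (B - B * M) + (A - M * A) + (1 - M - M + M * M) := by noncomm_ring
    rw [h10, e1, e2, e3, e6]
    abel
  have h8 : (A + (1 - M)) * (B + (1 - M)) = 1 := mul_eq_one_comm.1 h7
  have h9 : A * B = M := by
    have h10 : (A + (1 - M)) * (B + (1 - M)) =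
        A * B + (A - A * M) + (B - M * B) + (1 - M - M + M * M) := by noncomm_ring
    rw [h10, e2, e4, e5] at h8
    have h11 : A * B = A * B + (A - A) + (B - B) + (1 - M - M + M) - (1 - M) := by abel
    rw [h11, h8]
    abel
  rw [← ev_mul σ hA hB, h9]

end Pool.Agent.Work.MP_2b4d3b_al.NE
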