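import Pool.Agent.Work.MP_2b4d3b_al.NE.Defs
import Pool.Agent.Work.MP_2b4d3b_al.NE.Loc
import Pool.Agent.Work.MP_2b4d3b_al.NE.PrjD
import Pool.Agent.Work.MP_2b4d3b_al.NE.RankS
import Pool.Agent.Work.MP_2b4d3b_al.NE.MvB

/-
Equivalence over K implies *-equivalence over Z. PROOF. letI : StarRing K := starRingOfComm. p, q in LP Z G = Cor univ, the two
elements a, b of LP K G giving Mv: by Loc.loc (N = univ) one stage σ with p, q in σ.fst.rng and a, b in σ.snd.spn K. PrjD: p = dg D,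
q = dg D' (fst). io p = σ.snd.dg D (bstg_io_dg), so rank_eq for σ.snd over K: equal block cardinalities of D, D'. Choose a bijection
β : D -> D' respecting the blocks (Finset bijections blockwise: cards of the fibers of b on D and D' agree; e.g. Equiv.ofFiberEquiv or
Finset.exists_... on each fiber) and s = sum_{i in D} c_i c_{β i}* in UA Z G: s s* = sum c_i c_{β i}* c_{β j} c_j* = sum c_i c_(b i) c_i*
= dg D, s* s = dg D', dg D * s = s = s * dg D'. s is in LP (Stg.gen, c_i in the closure of generators).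
mv_cancel: R0, Q1, Q0 and a, b in one stage; R0 = dg D, Q1 = dg D1, Q0 = dg D0 with D1, D0 in D (dg_mul, dg_inj), equal block
cardinalities of D1, D0, so of D \ D1, D \ D0; dg (D \ D1) = R0 - Q1; as before.
prj_torsion: p = dg D in a stage, D nonempty, i in D: n • (c_i c_i*) = c_i c_i* (n • p) = 0 gives n • c_(b i) = 0, n = 0 (BInd Z).
io_prj_ne: io p = snd.dg D is not 0 (dg_inj over K). prj_fin: several projections.
-/

set_option linter.unusedVariables false
set_option linter.style.longLine false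
set_option linter.unusedSectionVars false

namespace Pool.Agent.Work.MP_2b4d3b_al.NE

universe u v w u' v' w'

open Finset

variable {V : Type v} {E : Type w} {G : Gr V E}

private theorem fiber_equiv {R : Type u} [Ring R] [StarRing R] (σ : Sys R) (D D' : Finset σ.I)
    (h : ∀ o, (D.filter fun i => σ.b i = o).card = (D'.filter fun i => σ.b i = o).card) :
    ∃ e : {i // i ∈ D} ≃ {i // i ∈ D'}, ∀ i, σ.b (e i).1 = σ.b i.1 := by
  classical
  have key : ∀ o : σ.I, Nonempty ({a : {i // i ∈ D} // σ.b a.1 = o} ≃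
      {a : {i // i ∈ D'} // σ.b a.1 = o}) := by
    intro o
    rw [← Fintype.card_eq]
    have h1 : ∀ C : Finset σ.I, Fintype.card {a : {i // i ∈ C} // σ.b a.1 = o} =
        (C.filter fun i => σ.b i = o).card := by
      intro C
      rw [Fintype.card_subtype]
      rw [← Finset.card_map ⟨Subtype.val, Subtype.val_injective⟩]
      congr 1
      ext i
      simp only [Finset.mem_map, Finset.mem_filter, Finset.mem_univ, true_and,
        Function.Embedding.coeFn_mk]
      constructor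
      · rintro ⟨a, ha, rfl⟩
        exact ⟨a.2, ha⟩
      · rintro ⟨h1, h2⟩
        exact ⟨⟨i, h1⟩, h2, rfl⟩
    rw [h1, h1, h o]
  refine ⟨Equiv.ofFiberEquiv (f := fun a : {i // i ∈ D} => σ.b a.1)
    (g := fun a : {i // i ∈ D'} => σ.b a.1) fun o => Classical.choice (key o), fun i => ?_⟩
  exact Equiv.ofFiberEquiv_map (f := fun a : {i // i ∈ D} => σ.b a.1)
    (g := fun a : {i // i ∈ D'} => σ.b a.1) (fun o => Classical.choice (key o)) i

private theorem sys_equiv {R : Type u} [Ring R] [StarRing R] (σ : Sys R) (D D' : Finset σ.I)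
    (h : ∀ o, (D.filter fun i => σ.b i = o).card = (D'.filter fun i => σ.b i = o).card) :
    ∃ s ∈ σ.rng, s * star s = σ.dg D ∧ star s * s = σ.dg D' ∧ σ.dg D * s = s ∧
      s * σ.dg D' = s := by
  classical
  obtain ⟨e, he⟩ := fiber_equiv σ D D' h
  have hc : ∀ i : σ.I, σ.c i ∈ σ.rng := fun i => NonUnitalSubring.subset_closure ⟨i, Or.inl rfl⟩
  have hcs : ∀ i : σ.I, star (σ.c i) ∈ σ.rng := fun i =>
    NonUnitalSubring.subset_closure ⟨i, Or.inr (Or.inl rfl)⟩
  have hstar : star (∑ i : {i // i ∈ D}, σ.c i.1 * star (σ.c (e i).1)) =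
      ∑ i : {i // i ∈ D}, σ.c (e i).1 * star (σ.c i.1) := by
    rw [star_sum]
    exact Finset.sum_congr rfl fun i _ => by rw [star_mul, star_star]
  have hdg : ∀ C : Finset σ.I, σ.dg C = ∑ i : {i // i ∈ C}, σ.c i.1 * star (σ.c i.1) := by
    intro C
    rw [Sys.dg, ← Finset.sum_attach]
    rfl
  refine ⟨∑ i : {i // i ∈ D}, σ.c i.1 * star (σ.c (e i).1), ?_, ?_, ?_, ?_, ?_⟩
  · exact sum_mem fun i _ => mul_mem (hc _) (hcs _)
  · rw [hstar, Finset.sum_mul_sum, hdg]
    refine Finset.sum_congr rfl fun i _ => ?_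
    rw [Finset.sum_eq_single i]
    · have h1 : star (σ.c (e i).1) * σ.c (e i).1 = σ.c (σ.b i.1) := by rw [σ.cc, he]
      calc σ.c i.1 * star (σ.c (e i).1) * (σ.c (e i).1 * star (σ.c i.1))
          = σ.c i.1 * (star (σ.c (e i).1) * σ.c (e i).1) * star (σ.c i.1) := by
            simp only [mul_assoc]
        _ = σ.c i.1 * star (σ.c i.1) := by rw [h1, σ.cb]
    · intro j _ hj
      have h1 : star (σ.c (e i).1) * σ.c (e j).1 = 0 :=
        σ.co _ _ fun h2 => hj (e.injective (Subtype.ext h2)).symm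
      calc σ.c i.1 * star (σ.c (e i).1) * (σ.c (e j).1 * star (σ.c j.1))
          = σ.c i.1 * (star (σ.c (e i).1) * σ.c (e j).1) * star (σ.c j.1) := by
            simp only [mul_assoc]
        _ = 0 := by rw [h1, mul_zero, zero_mul]
    · intro h1
      exact absurd (Finset.mem_univ _) h1
  · rw [hstar, Finset.sum_mul_sum, hdg, ← Equiv.sum_comp e]
    refine Finset.sum_congr rfl fun i _ => ?_
    rw [Finset.sum_eq_single i]
    · have h1 : star (σ.c i.1) * σ.c i.1 = σ.c (σ.b (e i).1) := by rw [σ.cc, he]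
      calc σ.c (e i).1 * star (σ.c i.1) * (σ.c i.1 * star (σ.c (e i).1))
          = σ.c (e i).1 * (star (σ.c i.1) * σ.c i.1) * star (σ.c (e i).1) := by
            simp only [mul_assoc]
        _ = σ.c (e i).1 * star (σ.c (e i).1) := by rw [h1, σ.cb]
    · intro j _ hj
      have h1 : star (σ.c i.1) * σ.c j.1 = 0 :=
        σ.co _ _ fun h2 => hj (Subtype.ext h2).symm
      calc σ.c (e i).1 * star (σ.c i.1) * (σ.c j.1 * star (σ.c (e j).1))
          = σ.c (e i).1 * (star (σ.c i.1) * σ.c j.1) * star (σ.c (e j).1) := by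
            simp only [mul_assoc]
        _ = 0 := by rw [h1, mul_zero, zero_mul]
    · intro h1
      exact absurd (Finset.mem_univ _) h1
  · rw [Finset.mul_sum]
    refine Finset.sum_congr rfl fun i _ => ?_
    rw [← mul_assoc, dg_c σ i.2]
  · rw [Finset.sum_mul]
    refine Finset.sum_congr rfl fun i _ => ?_
    have h1 : star (σ.c (e i).1) * σ.dg D' = star (σ.c (e i).1) := by
      have h2 := congrArg star (dg_c σ (e i).2)
      rwa [star_mul, dg_star] at h2
    rw [mul_assoc, h1]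

private theorem rng_le_LP {W : Finset V} {T : Finset E} {σ : Sys (UA ℤ G)} {st : σ.I → V}
    (h : Stg G W T (vx ℤ G) (ed ℤ G) σ st) {a : UA ℤ G} (ha : a ∈ σ.rng) : a ∈ LP ℤ G := by
  rw [(stg_mem h).2.2] at ha
  have h1 : NonUnitalSubring.closure (gset W T (vx ℤ G) (ed ℤ G)) ≤ (LP ℤ G).toNonUnitalSubring := by
    rw [NonUnitalSubring.closure_le]
    rintro x (⟨y, _, rfl⟩ | ⟨e, _, rfl⟩ | ⟨e, _, rfl⟩)
    · exact vx_mem y
    · exact ed_mem e
    · rw [star_ed]
      exact gh_mem e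
  exact h1 ha

private theorem prj_both {K : Type u} [CommRing K] [StarRing K] {W : Finset V} {T : Finset E}
    {σ : Sys (UA ℤ G × UA K G)} {st : σ.I → V} (h : BStg K G W T σ st) {p : UA ℤ G}
    (hp : p ∈ σ.fst.rng) (pp : IsPrj p) :
    ∃ D : Finset σ.I, p = σ.fst.dg D ∧ io K G p = σ.snd.dg D := by
  obtain ⟨D, hD⟩ := prj_diag σ.fst h.indZ hp pp
  refine ⟨D, hD, ?_⟩
  rw [hD]
  exact bstg_io_dg h D

theorem mv_std (hG : NoExit G) (K : Type u) [Field K] {p q : UA ℤ G} (hp : p ∈ LP ℤ G)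
    (hq : q ∈ LP ℤ G) (pp : IsPrj p) (qq : IsPrj q)
    (h : Mv (LP K G : Set (UA K G)) (io K G p) (io K G q)) :
    ∃ s ∈ LP ℤ G, s * star s = p ∧ star s * s = q ∧ p * s = s ∧ s * q = s := by
  classical
  let _ : StarRing K := starRingOfComm
  obtain ⟨a, ha, b, hb, h1, h2, h3, h4, h5, h6⟩ := h
  have toC : ∀ x ∈ LP ℤ G, x ∈ Cor ℤ G Set.univ := fun x hx => by
    rw [← LP_eq_Cor]; exact hx
  have toCK : ∀ x ∈ LP K G, x ∈ Cor K G Set.univ := fun x hx => by
    rw [← LP_eq_Cor]; exact hx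
  obtain ⟨W, T, σ, st, hn, _, hBS, hA, hB⟩ := loc K hG (N := Set.univ) (fun _ _ => trivial) ∅
    (by simp) {p, q} (by
      intro x hx
      rw [Finset.mem_insert, Finset.mem_singleton] at hx
      rcases hx with rfl | rfl
      · exact toC _ hp
      · exact toC _ hq) {a, b} (by
      intro x hx
      rw [Finset.mem_insert, Finset.mem_singleton] at hx
      rcases hx with rfl | rfl
      · exact toCK _ ha
      · exact toCK _ hb)
  obtain ⟨D, hD, hDK⟩ := prj_both hBS (hA p (by simp)) pp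
  obtain ⟨D', hD', hDK'⟩ := prj_both hBS (hA q (by simp)) qq
  rw [hDK] at h1 h3 h6
  rw [hDK'] at h2 h4 h5
  have hm : Mv (σ.snd.spn K : Set (UA K G)) (σ.snd.dg D) (σ.snd.dg D') :=
    ⟨a, hB a (by simp), b, hB b (by simp), h1, h2, h3, h4, h5, h6⟩
  obtain ⟨s, hs, e1, e2, e3, e4⟩ := sys_equiv σ.fst D D' (rank_eq σ.snd hBS.indK hm)
  rw [← hD] at e1 e3
  rw [← hD'] at e2 e4
  exact ⟨s, rng_le_LP (bstg_fst hBS) hs, e1, e2, e3, e4⟩

theorem mv_cancel (hG : NoExit G) (K : Type u) [Field K] {R0 Q1 Q0 : UA ℤ G} (h0 : R0 ∈ LP ℤ G)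
    (h1 : Q1 ∈ LP ℤ G) (h2 : Q0 ∈ LP ℤ G) (p0 : IsPrj R0) (p1 : IsPrj Q1) (p2 : IsPrj Q0)
    (hQ1 : R0 * Q1 = Q1) (hQ0 : R0 * Q0 = Q0)
    (h : Mv (LP K G : Set (UA K G)) (io K G Q1) (io K G Q0)) :
    ∃ s ∈ LP ℤ G, s * star s = R0 - Q1 ∧ star s * s = R0 - Q0 ∧ (R0 - Q1) * s = s ∧
      s * (R0 - Q0) = s := by
  classical
  let _ : StarRing K := starRingOfComm
  obtain ⟨a, ha, b, hb, g1, g2, g3, g4, g5, g6⟩ := h
  have toC : ∀ x ∈ LP ℤ G, x ∈ Cor ℤ G Set.univ := fun x hx => by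
    rw [← LP_eq_Cor]; exact hx
  have toCK : ∀ x ∈ LP K G, x ∈ Cor K G Set.univ := fun x hx => by
    rw [← LP_eq_Cor]; exact hx
  obtain ⟨W, T, σ, st, hn, _, hBS, hA, hB⟩ := loc K hG (N := Set.univ) (fun _ _ => trivial) ∅
    (by simp) {R0, Q1, Q0} (by
      intro x hx
      rw [Finset.mem_insert, Finset.mem_insert, Finset.mem_singleton] at hx
      rcases hx with rfl | rfl | rfl
      · exact toC _ h0
      · exact toC _ h1
      · exact toC _ h2) {a, b} (by
      intro x hx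
      rw [Finset.mem_insert, Finset.mem_singleton] at hx
      rcases hx with rfl | rfl
      · exact toCK _ ha
      · exact toCK _ hb)
  obtain ⟨D, hD, hDK⟩ := prj_both hBS (hA R0 (by simp)) p0
  obtain ⟨D1, hD1, hDK1⟩ := prj_both hBS (hA Q1 (by simp)) p1
  obtain ⟨D0, hD0, hDK0⟩ := prj_both hBS (hA Q0 (by simp)) p2
  rw [hDK1] at g1 g3 g6
  rw [hDK0] at g2 g4 g5
  have hm : Mv (σ.snd.spn K : Set (UA K G)) (σ.snd.dg D1) (σ.snd.dg D0) :=
    ⟨a, hB a (by simp), b, hB b (by simp), g1, g2, g3, g4, g5, g6⟩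
  have sub : ∀ C : Finset σ.I, σ.fst.dg D * σ.fst.dg C = σ.fst.dg C → C ⊆ D := by
    intro C hC
    rw [dg_mul] at hC
    have h3 := dg_inj σ.fst hBS.indZ hC
    intro i hi
    have h4 : i ∈ (D ∩ C : Finset σ.fst.I) := by rw [h3]; exact hi
    exact (Finset.mem_inter.mp h4).1
  have s1 : D1 ⊆ D := sub D1 (by rw [← hD, ← hD1]; exact hQ1)
  have s0 : D0 ⊆ D := sub D0 (by rw [← hD, ← hD0]; exact hQ0)
  have hcard : ∀ o, ((D \ D1).filter fun i => σ.b i = o).card =
      ((D \ D0).filter fun i => σ.b i = o).card := by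
    intro o
    have h3 : (D1.filter fun i => σ.b i = o).card = (D0.filter fun i => σ.b i = o).card :=
      rank_eq σ.snd hBS.indK hm o
    have h4 : ∀ C : Finset σ.I, C ⊆ D → ((D \ C).filter fun i => σ.b i = o).card =
        (D.filter fun i => σ.b i = o).card - (C.filter fun i => σ.b i = o).card := by
      intro C hC
      have h5 : (D \ C).filter (fun i => σ.b i = o) =
          D.filter (fun i => σ.b i = o) \ C.filter (fun i => σ.b i = o) := by
        ext i
        simp only [Finset.mem_filter, Finset.mem_sdiff]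
        tauto
      rw [h5, Finset.card_sdiff_of_subset (Finset.filter_subset_filter _ hC)]
    rw [h4 D1 s1, h4 D0 s0, h3]
  obtain ⟨s, hs, e1, e2, e3, e4⟩ := sys_equiv σ.fst (D \ D1) (D \ D0) hcard
  have t1 : σ.fst.dg (D \ D1) = R0 - Q1 := by
    rw [hD, hD1]; exact dg_sdiff σ.fst s1
  have t0 : σ.fst.dg (D \ D0) = R0 - Q0 := by
    rw [hD, hD0]; exact dg_sdiff σ.fst s0
  rw [t1] at e1 e3
  rw [t0] at e2 e4
  exact ⟨s, rng_le_LP (bstg_fst hBS) hs, e1, e2, e3, e4⟩

theorem prj_torsion (hG : NoExit G) {p : UA ℤ G} (hp : p ∈ LP ℤ G) (pp : IsPrj p) (hne : p ≠ 0)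
    {n : ℤ} (h : n • p = 0) : n = 0 := by
  classical
  have toC : ∀ x ∈ LP ℤ G, x ∈ Cor ℤ G Set.univ := fun x hx => by
    rw [← LP_eq_Cor]; exact hx
  obtain ⟨W, T, σ, st, hn, _, hBS, hA, _⟩ := loc ℤ hG (N := Set.univ) (fun _ _ => trivial) ∅
    (by simp) {p} (by
      intro x hx
      rw [Finset.mem_singleton] at hx
      rw [hx]
      exact toC _ hp) ∅ (by simp)
  obtain ⟨D, hD, _⟩ := prj_both hBS (hA p (by simp)) pp
  have hDne : D.Nonempty := by
    rw [Finset.nonempty_iff_ne_empty]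
    intro h1
    apply hne
    rw [hD, h1]
    exact Finset.sum_empty
  obtain ⟨i, hi⟩ := hDne
  have hb := (bind_of_ind σ.fst hBS.indZ).1 i n
  apply hb
  have h2 : (star (σ.fst.c i) * p) * σ.fst.c i = σ.fst.c (σ.fst.b i) := by
    have h3 := dg_c σ.fst hi
    rw [mul_assoc, hD, h3, σ.fst.cc]
  have h4 : n • ((star (σ.fst.c i) * p) * σ.fst.c i) = 0 := by
    have h5 : n • ((star (σ.fst.c i) * p) * σ.fst.c i) =
        (star (σ.fst.c i) * (n • p)) * σ.fst.c i := by
      rw [mul_smul_comm, smul_mul_assoc]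
    rw [h5, h, mul_zero, zero_mul]
  rw [h2] at h4
  exact h4

theorem io_prj_ne (hG : NoExit G) (K : Type u) [Field K] {p : UA ℤ G} (hp : p ∈ LP ℤ G)
    (pp : IsPrj p) (h : io K G p = 0) : p = 0 := by
  classical
  let _ : StarRing K := starRingOfComm
  have toC : ∀ x ∈ LP ℤ G, x ∈ Cor ℤ G Set.univ := fun x hx => by
    rw [← LP_eq_Cor]; exact hx
  obtain ⟨W, T, σ, st, hn, _, hBS, hA, _⟩ := loc K hG (N := Set.univ) (fun _ _ => trivial) ∅
    (by simp) {p} (by
      intro x hx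
      rw [Finset.mem_singleton] at hx
      rw [hx]
      exact toC _ hp) ∅ (by simp)
  obtain ⟨D, hD, hDK⟩ := prj_both hBS (hA p (by simp)) pp
  have h1 : σ.snd.dg D = σ.snd.dg (∅ : Finset σ.I) := by
    rw [← hDK, h]
    exact Finset.sum_empty.symm
  have h2 := dg_inj σ.snd hBS.indK h1
  rw [hD, h2]
  exact Finset.sum_empty

end Pool.Agent.Work.MP_2b4d3b_al.NE
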