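import Pool.Agent.Work.MP_2b4d3b_al.NE.Defs
import Pool.Agent.Work.MP_2b4d3b_al.NE.StdL
import Pool.Agent.Work.MP_2b4d3b_al.NE.MvB

/-
Basics of Eqf. PROOF. eqf_add: (io (p + p'), r + r') in Φ; r r' = 0 since (io p io p', r r') = (0, r r') in Φ and z2; likewise r' r; Mv_add
with io q io q' = 0. eqf_eqv (change by *-equivalences): if p1 = t t*, p = t* t (t in LP): io: Mv (LP K1 G) (io p1)(io p) (Mv_star over Z,
Mv_map with io), let r1 be the image of io p1 (io p1 in LP K1 G): Mv_graph gives Mv r1 r; trans with r ~ io q ~ io q1. eqf_swap: let r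
be the image of io p and r' the preimage of io q under Φ: Mv r (io q) transports back (Mv_graph for sw Φ) to Mv (io p) r'.
eqf_uniq: both Mv with the image of the same io p (the image is unique by z2). eqf_uniq_left: from eqf_swap. eqf_zero: q projection,
p = 0: r = 0, Mv 0 (io q), so io q = 0, q = 0 by io_prj_ne. giso_sw: GIso for sw. giso_uniq: uniqueness of images.
-/

set_option linter.unusedVariables false
set_option linter.style.longLine false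
set_option linter.unusedSectionVars false

namespace Pool.Agent.Work.MP_2b4d3b_al.NE

universe u v w u' v' w'

open Finset

variable {K₁ : Type u} [Field K₁] {K₂ : Type u'} [Field K₂] {V : Type v} {E : Type w}
  {V' : Type v'} {E' : Type w'} {G : Gr V E} {F : Gr V' E'}
  {Φ : NonUnitalSubring (UA K₁ G × UA K₂ F)}

theorem giso_uniq {R : Type u} {R' : Type u'} [Ring R] [Ring R'] {S : NonUnitalSubring (R × R')}
    {A : Set R} {B : Set R'} (h : GIso S A B) {a a' : R} {b b' : R'} :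
    ((a, b) ∈ S → (a, b') ∈ S → b = b') ∧ ((a, b) ∈ S → (a', b) ∈ S → a = a') := by
  constructor
  · intro h1 h2
    have h3 := S.sub_mem h1 h2
    have h4 : (a, b) - (a, b') = ((0 : R), b - b') := by rw [Prod.mk_sub_mk, sub_self]
    rw [h4] at h3
    exact sub_eq_zero.mp (h.z2 _ h3)
  · intro h1 h2
    have h3 := S.sub_mem h1 h2
    have h4 : (a, b) - (a', b) = (a - a', (0 : R')) := by rw [Prod.mk_sub_mk, sub_self]
    rw [h4] at h3
    exact sub_eq_zero.mp (h.z1 _ h3)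

theorem giso_sw {R : Type u} {R' : Type u'} [Ring R] [Ring R'] {S : NonUnitalSubring (R × R')}
    {A : Set R} {B : Set R'} (h : GIso S A B) : GIso (sw S) B A where
  m1 a b hab := h.m2 b a hab
  m2 a b hab := h.m1 b a hab
  t1 a ha := h.t2 a ha
  t2 b hb := h.t1 b hb
  z1 a ha := h.z2 a ha
  z2 b hb := h.z1 b hb

private theorem eb_mv {K : Type u} [Field K] {V : Type v} {E : Type w} {G : Gr V E}
    {p p1 t : UA ℤ G} (hp : IsPrj p) (hp1 : IsPrj p1) (ht : t ∈ LP ℤ G)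
    (t1 : t * star t = p1) (t2 : star t * t = p) :
    Mv (LP K G : Set (UA K G)) (io K G p1) (io K G p) := by
  have h1 : Mv (LP ℤ G : Set (UA ℤ G)) p1 p :=
    Mv_star (fun a ha b => ⟨mul_mem_LP_right ha b, mul_mem_LP_left b ha⟩)
      (fun a ha => star_mem_LP ha) hp1 hp ht t1 t2
  exact Mv_map (io K G : UA ℤ G →+* UA K G) (fun a ha => io_mem ha) h1

private theorem eb_mul {K : Type u} [Field K] {V : Type v} {E : Type w} {G : Gr V E} :
    ∀ a ∈ (LP K G : Set (UA K G)), ∀ b ∈ (LP K G : Set (UA K G)),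
      a * b ∈ (LP K G : Set (UA K G)) := fun a ha b _ => mul_mem_LP_right ha b

theorem eqf_add (iso : GIso Φ (LP K₁ G : Set (UA K₁ G)) (LP K₂ F : Set (UA K₂ F)))
    {p p' : UA ℤ G} {q q' : UA ℤ F} (h : Eqf Φ p q) (h' : Eqf Φ p' q')
    (hp : p * p' = 0 ∧ p' * p = 0) (hq : q * q' = 0 ∧ q' * q = 0) :
    Eqf Φ (p + p') (q + q') := by
  obtain ⟨r, hr, hm⟩ := h
  obtain ⟨r', hr', hm'⟩ := h'
  refine ⟨r + r', ?_, ?_⟩
  · have h3 := Φ.add_mem hr hr'
    have h4 : (io K₁ G p, r) + (io K₁ G p', r') = (io K₁ G (p + p'), r + r') := by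
      rw [Prod.mk_add_mk, map_add]
    rw [h4] at h3
    exact h3
  · rw [map_add]
    refine Mv_add (fun a ha b hb => add_mem (S := NonUnitalSubalgebra K₂ (UA K₂ F)) ha hb) hm hm'
      ⟨?_, ?_⟩ ⟨?_, ?_⟩
    · have h3 := Φ.mul_mem hr hr'
      have h4 : (io K₁ G p, r) * (io K₁ G p', r') = (0, r * r') := by
        rw [Prod.mk_mul_mk, ← map_mul, hp.1, map_zero]
      rw [h4] at h3
      exact iso.z2 _ h3
    · have h3 := Φ.mul_mem hr' hr
      have h4 : (io K₁ G p', r') * (io K₁ G p, r) = (0, r' * r) := by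
        rw [Prod.mk_mul_mk, ← map_mul, hp.2, map_zero]
      rw [h4] at h3
      exact iso.z2 _ h3
    · rw [← map_mul, hq.1, map_zero]
    · rw [← map_mul, hq.2, map_zero]

theorem eqf_zero_zero (iso : GIso Φ (LP K₁ G : Set (UA K₁ G)) (LP K₂ F : Set (UA K₂ F))) :
    Eqf Φ (0 : UA ℤ G) (0 : UA ℤ F) := by
  refine ⟨0, ?_, ?_⟩
  · rw [map_zero]
    exact Φ.zero_mem
  · rw [map_zero]
    exact Mv_refl (LP K₂ F).zero_mem (mul_zero 0)

theorem eqf_eqv (iso : GIso Φ (LP K₁ G : Set (UA K₁ G)) (LP K₂ F : Set (UA K₂ F)))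
    {p p1 t : UA ℤ G} {q q1 s : UA ℤ F} (h : Eqf Φ p q) (hp : IsPrj p) (hp1 : IsPrj p1)
    (hq : IsPrj q) (hq1 : IsPrj q1) (ht : t ∈ LP ℤ G) (hs : s ∈ LP ℤ F)
    (t1 : t * star t = p1) (t2 : star t * t = p) (s1 : s * star s = q1) (s2 : star s * s = q) :
    Eqf Φ p1 q1 := by
  obtain ⟨r, hr, hm⟩ := h
  have hp1L : p1 ∈ LP ℤ G := by
    rw [← t1]
    exact mul_mem_LP_right ht _
  have hp1L' : io K₁ G p1 ∈ LP K₁ G := io_mem hp1L
  obtain ⟨r1, hr1⟩ := iso.t1 _ hp1L'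
  refine ⟨r1, hr1, ?_⟩
  have h1 : Mv (LP K₁ G : Set (UA K₁ G)) (io K₁ G p1) (io K₁ G p) := eb_mv hp hp1 ht t1 t2
  have h2 : Mv (LP K₂ F : Set (UA K₂ F)) r1 r := Mv_graph iso hr1 hr h1
  have h3 : Mv (LP K₂ F : Set (UA K₂ F)) (io K₂ F q1) (io K₂ F q) := eb_mv hq hq1 hs s1 s2
  exact Mv_trans eb_mul (Mv_trans eb_mul h2 hm) (Mv_symm h3)

theorem eqf_swap (iso : GIso Φ (LP K₁ G : Set (UA K₁ G)) (LP K₂ F : Set (UA K₂ F)))
    {p : UA ℤ G} {q : UA ℤ F} (hq : q ∈ LP ℤ F) (h : Eqf Φ p q) : Eqf (sw Φ) q p := by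
  obtain ⟨r, hr, hm⟩ := h
  have hq' : io K₂ F q ∈ LP K₂ F := io_mem hq
  obtain ⟨r', hr'⟩ := iso.t2 _ hq'
  refine ⟨r', hr', ?_⟩
  have h1 : Mv (LP K₁ G : Set (UA K₁ G)) (io K₁ G p) r' :=
    Mv_graph (giso_sw iso) (p := r) (q := io K₂ F q) (p' := io K₁ G p) (q' := r') hr hr' hm
  exact Mv_symm h1

theorem eqf_uniq (iso : GIso Φ (LP K₁ G : Set (UA K₁ G)) (LP K₂ F : Set (UA K₂ F)))
    {p : UA ℤ G} {q q' : UA ℤ F} (h : Eqf Φ p q) (h' : Eqf Φ p q') :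
    Mv (LP K₂ F : Set (UA K₂ F)) (io K₂ F q) (io K₂ F q') := by
  obtain ⟨r, hr, hm⟩ := h
  obtain ⟨r', hr', hm'⟩ := h'
  have h1 : r = r' := (giso_uniq (a' := 0) iso).1 hr hr'
  rw [← h1] at hm'
  exact Mv_trans eb_mul (Mv_symm hm) hm'

theorem eqf_uniq_left (iso : GIso Φ (LP K₁ G : Set (UA K₁ G)) (LP K₂ F : Set (UA K₂ F)))
    {p p' : UA ℤ G} {q : UA ℤ F} (hq : q ∈ LP ℤ F) (h : Eqf Φ p q) (h' : Eqf Φ p' q) :
    Mv (LP K₁ G : Set (UA K₁ G)) (io K₁ G p) (io K₁ G p') :=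
  eqf_uniq (giso_sw iso) (eqf_swap iso hq h) (eqf_swap iso hq h')

theorem eqf_zero (hG : NoExit G) (hF : NoExit F)
    (iso : GIso Φ (LP K₁ G : Set (UA K₁ G)) (LP K₂ F : Set (UA K₂ F)))
    {p : UA ℤ G} {q : UA ℤ F} (hp : p ∈ LP ℤ G) (hq : q ∈ LP ℤ F) (pp : IsPrj p) (qq : IsPrj q)
    (h : Eqf Φ p q) : p = 0 ↔ q = 0 := by
  constructor
  · intro h0
    obtain ⟨r, hr, hm⟩ := h
    rw [h0, map_zero] at hr
    rw [iso.z2 _ hr] at hm
    exact io_prj_ne hF K₂ hq qq (Mv_zero hm)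
  · intro h0
    obtain ⟨r, hr, hm⟩ := eqf_swap iso hq h
    rw [h0, map_zero] at hr
    rw [(giso_sw iso).z2 _ hr] at hm
    exact io_prj_ne hG K₁ hp pp (Mv_zero hm)

end Pool.Agent.Work.MP_2b4d3b_al.NE
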