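import Pool.Agent.Work.MP_2b4d3b_al.NE.Defs
import Pool.Agent.Work.MP_2b4d3b_al.NE.Bas
import Pool.Agent.Work.MP_2b4d3b_al.NE.EqfB

/-
Base change. PROOF. Let θ : LP Z G -> LP Z F be the ring isomorphism with graph S0 (choice functions; additive, multiplicative and star
preserving by uniqueness z2). Family in UA K F: P x = io K F (θ (vx x)), A e = io K F (θ (ed e)), B e = io K F (θ (gh e)): every relation of
Fam K G holds since it holds in LP Z G and io and θ are homomorphisms. f = Fam.lift. In the same way g from θ^-1. f (io K G a) =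
io K F (θ a) for a in LP Z G (LP_ind over Z), likewise g. f maps generators into LP K F (io_mem), so f (LP K G) in LP K F (LP_ind). g (f (vx x)) =
g (io (θ (vx x))) = io (θ^-1 (θ (vx x))) = vx x, likewise for ed, gh; g (f a) = a for a in LP K G by LP_ind. Star: f (star a) = star (f a)
by UA.ind: generators: θ commutes with star, io_star; scalars: star_alg.
-/

set_option linter.unusedVariables false
set_option linter.style.longLine false
set_option linter.unusedSectionVars false

namespace Pool.Agent.Work.MP_2b4d3b_al.NE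

universe u v w u' v' w'

open Finset

variable {V : Type v} {E : Type w} {V' : Type v'} {E' : Type w'} {G : Gr V E} {F : Gr V' E'}

private theorem bc_uniq {S : NonUnitalSubring (UA ℤ G × UA ℤ F)} (z2 : ∀ b, (0, b) ∈ S → b = 0)
    {a : UA ℤ G} {b b' : UA ℤ F} (h : (a, b) ∈ S) (h' : (a, b') ∈ S) : b = b' := by
  have h1 := S.sub_mem h h'
  rw [Prod.mk_sub_mk, sub_self] at h1
  exact sub_eq_zero.mp (z2 _ h1)

private theorem bc_mul {S : NonUnitalSubring (UA ℤ G × UA ℤ F)} {a a' : UA ℤ G} {b b' : UA ℤ F}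
    (h : (a, b) ∈ S) (h' : (a', b') ∈ S) : (a * a', b * b') ∈ S := S.mul_mem h h'

private theorem bc_sum {S : NonUnitalSubring (UA ℤ G × UA ℤ F)} {I : Type w} (Q : Finset I)
    (a : I → UA ℤ G) (b : I → UA ℤ F) (h : ∀ i, (a i, b i) ∈ S) :
    (∑ i ∈ Q, a i, ∑ i ∈ Q, b i) ∈ S := by
  classical
  induction Q using Finset.induction_on with
  | empty =>
    rw [Finset.sum_empty, Finset.sum_empty]
    exact S.zero_mem
  | insert i Q hi ih =>
    rw [Finset.sum_insert hi, Finset.sum_insert hi]
    exact S.add_mem (h i) ih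

private theorem bc_smul {K : Type u} [CommRing K] (k : K) (a : UA K G) :
    k • a = algebraMap K _ k * a := Algebra.smul_def k a

private theorem bc_half (S : NonUnitalSubring (UA ℤ G × UA ℤ F))
    (m1 : ∀ a b, (a, b) ∈ S → a ∈ LP ℤ G) (m2 : ∀ a b, (a, b) ∈ S → b ∈ LP ℤ F)
    (t1 : ∀ a ∈ LP ℤ G, ∃ b, (a, b) ∈ S) (z2 : ∀ b, (0, b) ∈ S → b = 0)
    (hst : ∀ a b, (a, b) ∈ S → (star a, star b) ∈ S) (K : Type u) [CommRing K] [StarRing K] :
    ∃ f : UA K G →ₐ[K] UA K F, (∀ a b, (a, b) ∈ S → f (io K G a) = io K F b) ∧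
      (∀ a ∈ LP K G, f a ∈ LP K F) ∧ ∀ a, f (star a) = star (f a) := by
  choose p hp using fun x : V => t1 _ (vx_mem (K := ℤ) (G := G) x)
  choose q hq using fun e : E => t1 _ (ed_mem (K := ℤ) (G := G) e)
  choose r hr using fun e : E => t1 _ (gh_mem (K := ℤ) (G := G) e)
  have hqr : ∀ e, star (q e) = r e := by
    intro e
    have h1 := hst _ _ (hq e)
    rw [star_ed] at h1
    exact bc_uniq z2 h1 (hr e)
  have hpp : ∀ x, star (p x) = p x := by
    intro x
    have h1 := hst _ _ (hp x)
    rw [star_vx] at h1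
    exact bc_uniq z2 h1 (hp x)
  let Φ : Fam K G (UA K F) :=
    { p := fun x => io K F (p x)
      a := fun e => io K F (q e)
      b := fun e => io K F (r e)
      vv := by
        intro x
        rw [← map_mul]
        congr 1
        have h1 := bc_mul (hp x) (hp x)
        rw [vx_vx] at h1
        exact bc_uniq z2 h1 (hp x)
      vw := by
        intro x y hxy
        rw [← map_mul]
        have h1 := bc_mul (hp x) (hp y)
        rw [vx_ne hxy] at h1
        rw [z2 _ h1, map_zero]
      se := by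
        intro e
        rw [← map_mul]
        congr 1
        have h1 := bc_mul (hp (G.s e)) (hq e)
        rw [s_ed] at h1
        exact bc_uniq z2 h1 (hq e)
      er := by
        intro e
        rw [← map_mul]
        congr 1
        have h1 := bc_mul (hq e) (hp (G.r e))
        rw [ed_r] at h1
        exact bc_uniq z2 h1 (hq e)
      rg := by
        intro e
        rw [← map_mul]
        congr 1
        have h1 := bc_mul (hp (G.r e)) (hr e)
        rw [r_gh] at h1
        exact bc_uniq z2 h1 (hr e)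
      gs := by
        intro e
        rw [← map_mul]
        congr 1
        have h1 := bc_mul (hr e) (hp (G.s e))
        rw [gh_s] at h1
        exact bc_uniq z2 h1 (hr e)
      ge := by
        intro e
        rw [← map_mul]
        congr 1
        have h1 := bc_mul (hr e) (hq e)
        rw [gh_ed] at h1
        exact bc_uniq z2 h1 (hp (G.r e))
      gf := by
        intro e f hef
        rw [← map_mul]
        have h1 := bc_mul (hr e) (hq f)
        rw [gh_ed_ne hef] at h1
        rw [z2 _ h1, map_zero]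
      ck := by
        intro x Q hQ hne
        have h1 := bc_sum Q (fun e => ed ℤ G e * gh ℤ G e) (fun e => q e * r e)
          (fun e => bc_mul (hq e) (hr e))
        rw [← ck_sum x Q hQ hne] at h1
        rw [bc_uniq z2 (hp x) h1, map_sum]
        exact Finset.sum_congr rfl fun e _ => map_mul _ _ _ }
  have fv : ∀ x, Φ.lift (vx K G x) = io K F (p x) := fun x => Φ.lift_vx x
  have fe : ∀ e, Φ.lift (ed K G e) = io K F (q e) := fun e => Φ.lift_ed e
  have fg : ∀ e, Φ.lift (gh K G e) = io K F (r e) := fun e => Φ.lift_gh e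
  refine ⟨Φ.lift, ?_, ?_, ?_⟩
  · have key : ∀ a ∈ LP ℤ G, ∃ b, (a, b) ∈ S ∧ Φ.lift (io K G a) = io K F b := by
      intro a ha
      refine LP_ind (P := fun a => ∃ b, (a, b) ∈ S ∧ Φ.lift (io K G a) = io K F b)
        ?_ ?_ ?_ ?_ ?_ ?_ ?_ ha
      · intro x
        exact ⟨p x, hp x, by rw [io_vx, fv]⟩
      · intro e
        exact ⟨q e, hq e, by rw [io_ed, fe]⟩
      · intro e
        exact ⟨r e, hr e, by rw [io_gh, fg]⟩
      · exact ⟨0, S.zero_mem, by rw [map_zero, map_zero, map_zero]⟩
      · rintro a a' ⟨b, hb, h1⟩ ⟨b', hb', h2⟩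
        exact ⟨b + b', S.add_mem hb hb', by rw [map_add, map_add, map_add, h1, h2]⟩
      · rintro a a' ⟨b, hb, h1⟩ ⟨b', hb', h2⟩
        exact ⟨b * b', S.mul_mem hb hb', by rw [map_mul, map_mul, map_mul, h1, h2]⟩
      · rintro k a ⟨b, hb, h1⟩
        have h3 : ((k : UA ℤ G) * a, (k : UA ℤ F) * b) ∈ S := by
          have h4 := zsmul_mem hb k
          have h5 : k • (a, b) = ((k : UA ℤ G) * a, (k : UA ℤ F) * b) :=
            Prod.ext (zsmul_eq_mul a k) (zsmul_eq_mul b k)
          rw [h5] at h4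
          exact h4
        refine ⟨(k : UA ℤ F) * b, ?_, ?_⟩
        · rw [bc_smul, eq_intCast]
          exact h3
        · rw [bc_smul, eq_intCast, map_mul, map_mul, map_mul, h1, map_intCast, map_intCast,
            map_intCast]
    intro a b hab
    obtain ⟨b', hb', h1⟩ := key a (m1 _ _ hab)
    rw [h1, bc_uniq z2 hb' hab]
  · intro a ha
    refine LP_ind (P := fun a => Φ.lift a ∈ LP K F) ?_ ?_ ?_ ?_ ?_ ?_ ?_ ha
    · intro x
      show Φ.lift _ ∈ _
      rw [fv]
      exact io_mem (m2 _ _ (hp x))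
    · intro e
      show Φ.lift _ ∈ _
      rw [fe]
      exact io_mem (m2 _ _ (hq e))
    · intro e
      show Φ.lift _ ∈ _
      rw [fg]
      exact io_mem (m2 _ _ (hr e))
    · show Φ.lift _ ∈ _
      rw [map_zero]
      exact (LP K F).zero_mem
    · intro a b h1 h2
      show Φ.lift _ ∈ _
      rw [map_add]
      exact (LP K F).add_mem h1 h2
    · intro a b h1 h2
      show Φ.lift _ ∈ _
      rw [map_mul]
      exact (LP K F).mul_mem h1 h2
    · intro k a h1
      show Φ.lift _ ∈ _
      rw [map_smul]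
      exact (LP K F).smul_mem k h1
  · intro a
    refine UA.ind (P := fun a => Φ.lift (star a) = star (Φ.lift a)) ?_ ?_ ?_ ?_ ?_ ?_ a
    · intro k
      show Φ.lift _ = star (Φ.lift _)
      rw [star_alg, AlgHom.commutes, AlgHom.commutes, star_alg]
    · intro x
      show Φ.lift _ = star (Φ.lift _)
      rw [star_vx, fv, ← io_star, hpp]
    · intro e
      show Φ.lift _ = star (Φ.lift _)
      rw [star_ed, fe, fg, ← io_star, hqr]
    · intro e
      show Φ.lift _ = star (Φ.lift _)
      rw [star_gh, fe, fg, ← io_star, ← hqr, star_star]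
    · intro a b h1 h2
      show Φ.lift _ = star (Φ.lift _)
      rw [star_add, map_add, map_add, star_add]
      exact congrArg₂ (· + ·) h1 h2
    · intro a b h1 h2
      show Φ.lift _ = star (Φ.lift _)
      rw [star_mul, map_mul, map_mul, star_mul]
      exact congrArg₂ (· * ·) h2 h1

private theorem bc_inv {S : NonUnitalSubring (UA ℤ G × UA ℤ F)}
    (t1 : ∀ a ∈ LP ℤ G, ∃ b, (a, b) ∈ S) (K : Type u) [CommRing K] [StarRing K]
    (f : UA K G →ₐ[K] UA K F) (g : UA K F →ₐ[K] UA K G)
    (hf : ∀ a b, (a, b) ∈ S → f (io K G a) = io K F b)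
    (hg : ∀ a b, (a, b) ∈ S → g (io K F b) = io K G a) (a : UA K G) (ha : a ∈ LP K G) :
    g (f a) = a := by
  refine LP_ind (P := fun a => g (f a) = a) ?_ ?_ ?_ ?_ ?_ ?_ ?_ ha
  · intro x
    obtain ⟨b, hb⟩ := t1 _ (vx_mem (K := ℤ) (G := G) x)
    have h1 := hf _ _ hb
    have h2 := hg _ _ hb
    rw [io_vx] at h1 h2
    show g (f _) = _
    rw [h1, h2]
  · intro e
    obtain ⟨b, hb⟩ := t1 _ (ed_mem (K := ℤ) (G := G) e)
    have h1 := hf _ _ hb
    have h2 := hg _ _ hb
    rw [io_ed] at h1 h2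
    show g (f _) = _
    rw [h1, h2]
  · intro e
    obtain ⟨b, hb⟩ := t1 _ (gh_mem (K := ℤ) (G := G) e)
    have h1 := hf _ _ hb
    have h2 := hg _ _ hb
    rw [io_gh] at h1 h2
    show g (f _) = _
    rw [h1, h2]
  · show g (f _) = _
    rw [map_zero, map_zero]
  · intro a b h1 h2
    show g (f _) = _
    rw [map_add, map_add]
    exact congrArg₂ (· + ·) h1 h2
  · intro a b h1 h2
    show g (f _) = _
    rw [map_mul, map_mul]
    exact congrArg₂ (· * ·) h1 h2
  · intro k a h1
    show g (f _) = _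
    rw [map_smul, map_smul]
    exact congrArg (k • ·) h1

theorem base_change {S0 : NonUnitalSubring (UA ℤ G × UA ℤ F)}
    (iso : GIso S0 (LP ℤ G : Set (UA ℤ G)) (LP ℤ F : Set (UA ℤ F)))
    (hst : ∀ a b, (a, b) ∈ S0 → (star a, star b) ∈ S0) (K : Type u) [CommRing K] [StarRing K] :
    ∃ (f : UA K G →ₐ[K] UA K F) (g : UA K F →ₐ[K] UA K G),
      (∀ a ∈ LP K G, f a ∈ LP K F ∧ g (f a) = a) ∧ (∀ b ∈ LP K F, g b ∈ LP K G ∧ f (g b) = b) ∧
      ∀ a, f (star a) = star (f a) := by
  obtain ⟨f, f1, f2, f3⟩ := bc_half S0 iso.m1 iso.m2 iso.t1 iso.z2 hst K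
  obtain ⟨g, g1, g2, g3⟩ := bc_half (sw S0) (fun a b h => iso.m2 b a h)
    (fun a b h => iso.m1 b a h) iso.t2 iso.z1 (fun a b h => hst b a h) K
  have g1' : ∀ a b, (a, b) ∈ S0 → g (io K F b) = io K G a := fun a b h => g1 b a h
  refine ⟨f, g, ?_, ?_, f3⟩
  · intro a ha
    exact ⟨f2 a ha, bc_inv iso.t1 K f g f1 g1' a ha⟩
  · intro b hb
    exact ⟨g2 b hb, bc_inv (S := sw S0) iso.t2 K g f g1 (fun b a h => f1 a b h) b hb⟩

end Pool.Agent.Work.MP_2b4d3b_al.NE
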