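import Pool.Agent.Work.MP_2b4d3b_al.NE.Defs

/-
PROOF: copy lau_pid from Pool/Agent/Work/MP_2b4d3b_al/WSc.lean (around line 302) and lau_not_field.
neg_unit: the K-algebra map T -> -1 (AddMonoidAlgebra.lift of the unit -1, or LaurentPolynomial.eval₂) sends 1 + T to 0, so
(1 + T) * g = 1 gives 0 = 1. one_add_ne: coefficient of T at 1.
-/

set_option linter.unusedVariables false
set_option linter.style.longLine false
set_option linter.unusedSectionVars false

namespace Pool.Agent.Work.MP_2b4d3b_al.NE

universe u v w u' v' w'

open Finset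

theorem lau_pid (K : Type u) [Field K] : IsPrincipalIdealRing (LaurentPolynomial K) := by
  refine ⟨fun I => ?_⟩
  have h := IsLocalization.map_under (Submonoid.powers (Polynomial.X : Polynomial K))
    (LaurentPolynomial K) I
  obtain ⟨f, hf⟩ := (IsPrincipalIdealRing.principal (I.under (Polynomial K))).principal
  refine ⟨algebraMap _ _ f, ?_⟩
  rw [← h, hf]
  exact (Ideal.map_span _ _).trans (by rw [Set.image_singleton])

theorem one_add_T_ne (K : Type u) [CommRing K] [Nontrivial K] :
    (1 + LaurentPolynomial.T 1 : LaurentPolynomial K) ≠ 0 := by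
  intro h0
  rw [← LaurentPolynomial.T_zero] at h0
  have := congrArg (fun f : LaurentPolynomial K => f.coeff 1) h0
  simp only [AddMonoidAlgebra.coeff_add, Finsupp.add_apply, LaurentPolynomial.T_apply] at this
  simp at this

theorem one_add_T_unit (K : Type u) [CommRing K] [Nontrivial K] (g : LaurentPolynomial K) :
    (1 + LaurentPolynomial.T 1) * g ≠ 1 := by
  intro hg
  let φ : LaurentPolynomial K →ₐ[K] K :=
    AddMonoidAlgebra.lift K K ℤ ((Units.coeHom K).comp (zpowersHom Kˣ (-1)))
  have h1 : φ (1 + LaurentPolynomial.T 1) = 0 := by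
    rw [map_add, map_one, LaurentPolynomial.T, AddMonoidAlgebra.lift_single]
    simp
  have h2 := congrArg φ hg
  rw [map_mul, h1, zero_mul, map_one] at h2
  exact zero_ne_one h2

end Pool.Agent.Work.MP_2b4d3b_al.NE
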