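import Pool.Agent.Work.MP_2b4d3b_al.NE.Defs

/-
Orthogonal idempotent matrices over a PID. PROOF. Let M = n -> A (free of rank |n|), F i = range of Matrix.toLin' (f i) (or
mulVecLin), F_last = range of 1 - sum f i (idempotent, orthogonal to all f i). M is the internal direct sum. Submodules of M are
free of finite rank over a PID: bases B_i : Fin (r i) of F i. The sum of the r i is at most |n| (the union of the bases is linearly
independent, or rank additivity: LinearMap.rank / finrank of direct sums; finrank of a submodule <= |n|, Submodule.finrank_le for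
the sum of the independent family). Choose pairwise disjoint D i in n with |D i| = r i (e.g. an injection from the sigma type
(Σ i, Fin (r i)) to n). Let a_i : n x n matrix with columns: the column of the index corresponding to the basis vector of B_i
is that vector, other columns 0 (so a_i e_j = basis vector for j in D i, 0 otherwise); b_i: x maps to the coordinates of f_i x in
B_i placed at D i. Then a_i b_i = f_i, b_i a_i = diag (D i), and the remaining equations are clear.
-/

set_option linter.unusedVariables false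
set_option linter.style.longLine false
set_option linter.unusedSectionVars false

namespace Pool.Agent.Work.MP_2b4d3b_al.NE

universe u v w u' v' w'

open Finset

private theorem so_abs {A : Type u} [CommRing A] [IsDomain A] [IsPrincipalIdealRing A] {n : Type}
    [Fintype n] [DecidableEq n] {m : ℕ} (φ : Fin m → (n → A) →ₗ[A] (n → A))
    (idem : ∀ i v, φ i (φ i v) = φ i v) (orth : ∀ i j, i ≠ j → ∀ v, φ i (φ j v) = 0) :
    ∃ (D : Fin m → Finset n) (a b : Fin m → (n → A) →ₗ[A] (n → A)),
      (∀ i j, i ≠ j → Disjoint (D i) (D j)) ∧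
      ∀ i, (∀ v, a i (b i v) = φ i v) ∧
        (∀ v, b i (a i v) = fun x => if x ∈ D i then v x else 0) ∧
        (∀ v, φ i (a i v) = a i v) ∧ (∀ v, a i (fun x => if x ∈ D i then v x else 0) = a i v) ∧
        (∀ v, (fun x => if x ∈ D i then b i v x else 0) = b i v) ∧
        (∀ v, b i (φ i v) = b i v) := by
  classical
  let M : Fin m → Submodule A (n → A) := fun i => LinearMap.range (φ i)
  let B : ∀ i, Σ k : ℕ, Module.Basis (Fin k) A (M i) :=
    fun i => Submodule.basisOfPid (Pi.basisFun A n) (M i)
  let e : ∀ i, (Fin (B i).1 → A) ≃ₗ[A] M i := fun i => (B i).2.equivFun.symm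
  have fix : ∀ i (v : M i), φ i (v : n → A) = v := by
    rintro i ⟨v, w, rfl⟩
    exact idem i w
  have kil : ∀ i j, i ≠ j → ∀ v : M j, φ i (v : n → A) = 0 := by
    rintro i j hij ⟨v, w, rfl⟩
    exact orth i j hij w
  -- the ranks
  let Ψ : (∀ i, Fin (B i).1 → A) →ₗ[A] (n → A) :=
    ∑ i, (M i).subtype ∘ₗ (e i).toLinearMap ∘ₗ LinearMap.proj i
  have hΨ : ∀ v, Ψ v = ∑ i, ((e i (v i) : M i) : n → A) := by
    intro v
    show (∑ i, (M i).subtype ∘ₗ (e i).toLinearMap ∘ₗ LinearMap.proj i) v = _
    rw [LinearMap.sum_apply]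
    rfl
  have hinj : Function.Injective Ψ := by
    rw [injective_iff_map_eq_zero]
    intro v hv
    funext j
    have h1 : φ j (Ψ v) = ((e j (v j) : M j) : n → A) := by
      rw [hΨ, map_sum, Finset.sum_eq_single j]
      · exact fix j _
      · intro i _ hij
        exact kil j i (Ne.symm hij) _
      · intro h
        exact absurd (Finset.mem_univ j) h
    rw [hv, map_zero] at h1
    have h2 : e j (v j) = 0 := Subtype.ext h1.symm
    exact (LinearEquiv.map_eq_zero_iff (e j)).1 h2
  have hcard : Fintype.card (Σ i, Fin (B i).1) ≤ Fintype.card n := by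
    have h1 := LinearMap.finrank_le_finrank_of_injective hinj
    rw [Module.finrank_pi_fintype, Module.finrank_fintype_fun_eq_card] at h1
    rw [Fintype.card_sigma]
    refine le_trans (le_of_eq (Finset.sum_congr rfl fun i _ => ?_)) h1
    rw [Module.finrank_fintype_fun_eq_card]
  obtain ⟨ι⟩ := Function.Embedding.nonempty_of_card_le hcard
  let D : Fin m → Finset n := fun i => Finset.univ.image fun k : Fin (B i).1 => ι ⟨i, k⟩
  have hD : ∀ i x, x ∈ D i ↔ ∃ k, ι ⟨i, k⟩ = x := by
    intro i x
    show x ∈ Finset.univ.image (fun k : Fin (B i).1 => ι ⟨i, k⟩) ↔ _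
    simp only [Finset.mem_image, Finset.mem_univ, true_and]
  let pr : ∀ i, (n → A) →ₗ[A] (Fin (B i).1 → A) := fun i => LinearMap.funLeft A A fun k => ι ⟨i, k⟩
  let inc : ∀ i, (Fin (B i).1 → A) →ₗ[A] (n → A) := fun i =>
    { toFun := fun w x => if h : ∃ k, ι ⟨i, k⟩ = x then w h.choose else 0
      map_add' := by
        intro w w'
        funext x
        by_cases h : ∃ k, ι ⟨i, k⟩ = x
        · simp only [Pi.add_apply, dif_pos h]
        · simp only [Pi.add_apply, dif_neg h, add_zero]
      map_smul' := by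
        intro c w
        funext x
        by_cases h : ∃ k, ι ⟨i, k⟩ = x
        · simp only [Pi.smul_apply, dif_pos h, RingHom.id_apply]
        · simp only [Pi.smul_apply, dif_neg h, smul_zero, RingHom.id_apply] }
  have hinc : ∀ i w k, inc i w (ι ⟨i, k⟩) = w k := by
    intro i w k
    have h : ∃ k', ι ⟨i, k'⟩ = ι ⟨i, k⟩ := ⟨k, rfl⟩
    show (if h : ∃ k', ι ⟨i, k'⟩ = ι ⟨i, k⟩ then w h.choose else 0) = w k
    rw [dif_pos h]
    have h1 := ι.injective h.choose_spec
    have h2 : h.choose = k := by
      simpa using h1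
    rw [h2]
  have hinc0 : ∀ i w x, x ∉ D i → inc i w x = 0 := by
    intro i w x hx
    show (if h : ∃ k', ι ⟨i, k'⟩ = x then w h.choose else 0) = 0
    rw [dif_neg (fun h => hx ((hD i x).2 h))]
  have hpi : ∀ i w, pr i (inc i w) = w := by
    intro i w
    funext k
    exact hinc i w k
  have hip : ∀ i v, inc i (pr i v) = fun x => if x ∈ D i then v x else 0 := by
    intro i v
    funext x
    by_cases hx : x ∈ D i
    · obtain ⟨k, rfl⟩ := (hD i x).1 hx
      rw [hinc]
      show v (ι ⟨i, k⟩) = _
      rw [if_pos hx]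
    · rw [hinc0 i _ x hx, if_neg hx]
  let rs : ∀ i, (n → A) →ₗ[A] M i := fun i => (φ i).rangeRestrict
  have hrs : ∀ i v, ((rs i v : M i) : n → A) = φ i v := fun i v => rfl
  refine ⟨D, fun i => (M i).subtype ∘ₗ (e i).toLinearMap ∘ₗ pr i,
    fun i => inc i ∘ₗ (e i).symm.toLinearMap ∘ₗ rs i, ?_, fun i => ⟨?_, ?_, ?_, ?_, ?_, ?_⟩⟩
  · intro i j hij
    rw [Finset.disjoint_left]
    intro x hx hx'
    obtain ⟨k, hk⟩ := (hD i x).1 hx
    obtain ⟨k', hk'⟩ := (hD j x).1 hx'
    have h1 := ι.injective (hk.trans hk'.symm)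
    exact hij (congrArg Sigma.fst h1)
  · intro v
    show ((e i (pr i (inc i ((e i).symm (rs i v)))) : M i) : n → A) = φ i v
    rw [hpi, LinearEquiv.apply_symm_apply, hrs]
  · intro v
    show inc i ((e i).symm (rs i ((e i (pr i v) : M i) : n → A))) = _
    have h1 : rs i ((e i (pr i v) : M i) : n → A) = e i (pr i v) := by
      apply Subtype.ext
      rw [hrs, fix]
    rw [h1, LinearEquiv.symm_apply_apply, hip]
  · intro v
    exact fix i _
  · intro v
    show ((e i (pr i _) : M i) : n → A) = ((e i (pr i v) : M i) : n → A)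
    rw [← hip, hpi]
  · intro v
    funext x
    show (if x ∈ D i then inc i ((e i).symm (rs i v)) x else 0) = inc i ((e i).symm (rs i v)) x
    by_cases hx : x ∈ D i
    · rw [if_pos hx]
    · rw [if_neg hx, hinc0 i _ x hx]
  · intro v
    show inc i ((e i).symm (rs i (φ i v))) = inc i ((e i).symm (rs i v))
    have h1 : rs i (φ i v) = rs i v := by
      apply Subtype.ext
      rw [hrs, hrs, idem]
    rw [h1]

theorem split_orth {A : Type u} [CommRing A] [IsDomain A] [IsPrincipalIdealRing A] {n : Type}
    [Fintype n] [DecidableEq n] {m : ℕ} (f : Fin m → Matrix n n A) (idem : ∀ i, f i * f i = f i)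
    (orth : ∀ i j, i ≠ j → f i * f j = 0) :
    ∃ (D : Fin m → Finset n) (a b : Fin m → Matrix n n A),
      (∀ i j, i ≠ j → Disjoint (D i) (D j)) ∧
      ∀ i, a i * b i = f i ∧ b i * a i = (Matrix.diagonal fun x => if x ∈ D i then (1 : A) else 0) ∧
        f i * a i = a i ∧ a i * (Matrix.diagonal fun x => if x ∈ D i then (1 : A) else 0) = a i ∧
        (Matrix.diagonal fun x => if x ∈ D i then (1 : A) else 0) * b i = b i ∧
        b i * f i = b i := by
  classical
  obtain ⟨D, a, b, hD, h⟩ := so_abs (fun i => Matrix.toLin' (f i))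
    (fun i v => by rw [← Matrix.toLin'_mul_apply, idem])
    (fun i j hij v => by rw [← Matrix.toLin'_mul_apply, orth i j hij]; simp)
  have hdiag : ∀ i v, Matrix.toLin' (Matrix.diagonal fun x => if x ∈ D i then (1 : A) else 0) v =
      fun x => if x ∈ D i then v x else 0 := by
    intro i v
    funext x
    rw [Matrix.toLin'_apply, Matrix.mulVec_diagonal]
    by_cases hx : x ∈ D i
    · rw [if_pos hx, if_pos hx, one_mul]
    · rw [if_neg hx, if_neg hx, zero_mul]
  have hext : ∀ {P Q : Matrix n n A}, (∀ v, Matrix.toLin' P v = Matrix.toLin' Q v) → P = Q :=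
    fun hPQ => Matrix.toLin'.injective (LinearMap.ext hPQ)
  have ha : ∀ i v, Matrix.toLin' (LinearMap.toMatrix' (a i)) v = a i v := fun i v => by
    rw [Matrix.toLin'_toMatrix']
  have hb : ∀ i v, Matrix.toLin' (LinearMap.toMatrix' (b i)) v = b i v := fun i v => by
    rw [Matrix.toLin'_toMatrix']
  refine ⟨D, fun i => LinearMap.toMatrix' (a i), fun i => LinearMap.toMatrix' (b i), hD,
    fun i => ?_⟩
  obtain ⟨h1, h2, h3, h4, h5, h6⟩ := h i
  refine ⟨hext fun v => ?_, hext fun v => ?_, hext fun v => ?_, hext fun v => ?_,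
    hext fun v => ?_, hext fun v => ?_⟩
  · rw [Matrix.toLin'_mul_apply, ha, hb, h1]
  · rw [Matrix.toLin'_mul_apply, ha, hb, h2, hdiag]
  · rw [Matrix.toLin'_mul_apply, ha, h3]
  · rw [Matrix.toLin'_mul_apply, hdiag, ha, ha, h4]
  · rw [Matrix.toLin'_mul_apply, hdiag, hb, h5]
  · rw [Matrix.toLin'_mul_apply, hb, hb, h6]

end Pool.Agent.Work.MP_2b4d3b_al.NE
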