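import Pool.Agent.Work.MP_2b4d3b_al.NE.Defs
import Pool.Agent.Work.MP_2b4d3b_al.NE.SysD
import Pool.Agent.Work.MP_2b4d3b_al.NE.Split
import Pool.Agent.Work.MP_2b4d3b_al.NE.LauPid

/-
Orthogonal idempotents in a system over a field are equivalent to diagonal ones.
PROOF. f i = ev (F i), F i in BM; by ev_mul, ev_inj the F i are orthogonal idempotents and diag Z * F i * diag Z = F i. For every base
o (element of the image of b) consider the index set n_o = {i in Z // b i = o}. If lau o: the blocks F i restricted to n_o x n_o are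
orthogonal idempotent matrices over LaurentPolynomial k (a domain and a PID, LauPid); split_orth gives D_o i, a_o i, b_o i. If not lau
o: the blocks have constant entries C z, take the matrices over k (C is injective), split_orth over k, map back by C. Put
together: D i = union over o of the images of D_o i, a i = the block matrix with blocks a_o i (zero outside Z), b i the same. They
are in BM and satisfy the matrix equations; apply ev. Disjointness: inside a block by split_orth, different blocks are disjoint.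
-/

set_option linter.unusedVariables false
set_option linter.style.longLine false
set_option linter.unusedSectionVars false

namespace Pool.Agent.Work.MP_2b4d3b_al.NE

universe u v w u' v' w'

open Finset

section aux

variable {A : Type u} [CommRing A] {I : Type} [Fintype I] [DecidableEq I]

/-- the diagonal matrix of a set -/
private def eD (A : Type u) [CommRing A] {I : Type} [Fintype I] [DecidableEq I] (D : Finset I) :
    Matrix I I A := Matrix.diagonal fun i => if i ∈ D then (1 : A) else 0

private theorem eD_mul (D D' : Finset I) : eD A D * eD A D' = eD A (D ∩ D') := by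
  unfold eD
  rw [Matrix.diagonal_mul_diagonal]
  congr 1
  funext i
  by_cases h1 : i ∈ D <;> by_cases h2 : i ∈ D' <;> simp [h1, h2]

private theorem eD_empty : eD A (∅ : Finset I) = 0 := by
  unfold eD
  simp

private theorem eD_left (D : Finset I) (M : Matrix I I A) (x y : I) :
    (eD A D * M) x y = if x ∈ D then M x y else 0 := by
  unfold eD
  rw [Matrix.diagonal_mul]
  by_cases h : x ∈ D <;> simp [h]

private theorem eD_right (D : Finset I) (M : Matrix I I A) (x y : I) :
    (M * eD A D) x y = if y ∈ D then M x y else 0 := by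
  unfold eD
  rw [Matrix.mul_diagonal]
  by_cases h : y ∈ D <;> simp [h]

/-- the inclusion matrix -/
private def inM (A : Type u) [CommRing A] {I : Type} [Fintype I] [DecidableEq I] (N : Finset I) :
    Matrix I {x // x ∈ N} A := fun x y => if x = y.1 then 1 else 0

private theorem inM_one (N : Finset I) : (inM A N).transpose * inM A N = 1 := by
  ext y y'
  rw [Matrix.mul_apply, Finset.sum_eq_single y.1]
  · by_cases h : y = y'
    · subst h
      simp [inM]
    · have h' : y.1 ≠ y'.1 := fun h' => h (Subtype.ext h')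
      simp [inM, h, h']
  · intro x _ hx
    simp [inM, hx]
  · intro h
    exact absurd (Finset.mem_univ _) h

private theorem inM_diag (N : Finset I) (D : Finset {x // x ∈ N}) :
    inM A N * (Matrix.diagonal fun x => if x ∈ D then (1 : A) else 0) * (inM A N).transpose =
      eD A (D.map (Function.Embedding.subtype _)) := by
  ext x x'
  rw [Matrix.mul_apply]
  have h1 : ∀ j : {x // x ∈ N}, (inM A N * (Matrix.diagonal fun x => if x ∈ D then (1 : A) else 0)) x j *
      (inM A N).transpose j x' = if x = j.1 ∧ x' = j.1 ∧ j ∈ D then 1 else 0 := by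
    intro j
    rw [Matrix.mul_diagonal]
    by_cases ha : x = j.1 <;> by_cases hb : x' = j.1 <;> by_cases hc : j ∈ D <;>
      simp [inM, ha, hb, hc]
  rw [Finset.sum_congr rfl fun j _ => h1 j]
  unfold eD
  by_cases hx : x ∈ D.map (Function.Embedding.subtype _)
  · obtain ⟨j, hj, hjx⟩ := Finset.mem_map.1 hx
    have hjx' : j.1 = x := hjx
    by_cases hxx : x = x'
    · subst hxx
      rw [Matrix.diagonal_apply_eq, if_pos hx, Finset.sum_eq_single j]
      · rw [if_pos ⟨hjx'.symm, hjx'.symm, hj⟩]
      · intro j' _ hne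
        rw [if_neg]
        rintro ⟨h2, -, -⟩
        exact hne (Subtype.ext (h2.symm.trans hjx'.symm))
      · intro h
        exact absurd (Finset.mem_univ _) h
    · rw [Matrix.diagonal_apply_ne _ hxx]
      refine Finset.sum_eq_zero fun j' _ => ?_
      rw [if_neg]
      rintro ⟨h2, h3, -⟩
      exact hxx (h2.trans h3.symm)
  · have h2 : ∀ j : {x // x ∈ N}, (if x = j.1 ∧ x' = j.1 ∧ j ∈ D then (1 : A) else 0) = 0 := by
      intro j
      rw [if_neg]
      rintro ⟨h3, -, h4⟩
      exact hx (Finset.mem_map.2 ⟨j, h4, h3.symm⟩)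
    rw [Finset.sum_congr rfl fun j _ => h2 j, Finset.sum_const_zero]
    by_cases hxx : x = x'
    · subst hxx
      rw [Matrix.diagonal_apply_eq, if_neg hx]
    · rw [Matrix.diagonal_apply_ne _ hxx]

private theorem inM_two (N : Finset I) : inM A N * (inM A N).transpose = eD A N := by
  have h := inM_diag (A := A) N Finset.univ
  have h1 : (Matrix.diagonal fun x : {x // x ∈ N} => if x ∈ (Finset.univ : Finset {x // x ∈ N}) then (1 : A) else 0) = 1 := by
    simp
  rw [h1, Matrix.mul_one] at h
  rw [h]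
  congr 1
  ext x
  simp

private theorem sp_ext [IsDomain A] [IsPrincipalIdealRing A] (N : Finset I) {m : ℕ}
    (G : Fin m → Matrix I I A) (hN : ∀ i, eD A N * G i * eD A N = G i)
    (idem : ∀ i, G i * G i = G i) (orth : ∀ i j, i ≠ j → G i * G j = 0) :
    ∃ (D : Fin m → Finset I) (a b : Fin m → Matrix I I A),
      (∀ i j, i ≠ j → Disjoint (D i) (D j)) ∧ ∀ i, D i ⊆ N ∧ eD A N * a i * eD A N = a i ∧
        eD A N * b i * eD A N = b i ∧ a i * b i = G i ∧ b i * a i = eD A (D i) ∧
        G i * a i = a i ∧ a i * eD A (D i) = a i ∧ eD A (D i) * b i = b i ∧ b i * G i = b i := by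
  set P := inM A N with hP
  have h1 : P.transpose * P = 1 := inM_one N
  have h2 : P * P.transpose = eD A N := inM_two N
  have hmul : ∀ X Y : Matrix I I A, eD A N * Y * eD A N = Y →
      (P.transpose * X * P) * (P.transpose * Y * P) = P.transpose * (X * Y) * P := by
    intro X Y hY
    calc (P.transpose * X * P) * (P.transpose * Y * P)
        = P.transpose * (X * ((P * P.transpose) * Y)) * P := by simp only [Matrix.mul_assoc]
      _ = P.transpose * (X * Y) * P := by
          rw [h2]
          have h3 : eD A N * Y = Y := by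
            conv_lhs => rw [← hY]
            rw [← Matrix.mul_assoc, ← Matrix.mul_assoc, eD_mul, Finset.inter_self, hY]
          rw [h3]
  have hPe : P.transpose * eD A N = P.transpose := by
    rw [← h2, ← Matrix.mul_assoc, h1, Matrix.one_mul]
  have heP : eD A N * P = P := by
    rw [← h2, Matrix.mul_assoc, h1, Matrix.mul_one]
  obtain ⟨D, a, b, hD, hab⟩ := split_orth (fun i => P.transpose * G i * P)
    (fun i => by
      show (P.transpose * G i * P) * (P.transpose * G i * P) = P.transpose * G i * P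
      rw [hmul _ _ (hN i), idem])
    (fun i j hij => by
      show (P.transpose * G i * P) * (P.transpose * G j * P) = 0
      rw [hmul _ _ (hN j), orth i j hij, Matrix.mul_zero, Matrix.zero_mul])
  have hbk : ∀ i, P * (P.transpose * G i * P) * P.transpose = G i := by
    intro i
    calc P * (P.transpose * G i * P) * P.transpose
        = (P * P.transpose) * G i * (P * P.transpose) := by simp only [Matrix.mul_assoc]
      _ = G i := by rw [h2, hN]
  have hpp : ∀ X Y : Matrix {x // x ∈ N} {x // x ∈ N} A,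
      (P * X * P.transpose) * (P * Y * P.transpose) = P * (X * Y) * P.transpose := by
    intro X Y
    calc (P * X * P.transpose) * (P * Y * P.transpose)
        = P * (X * ((P.transpose * P) * Y)) * P.transpose := by simp only [Matrix.mul_assoc]
      _ = P * (X * Y) * P.transpose := by rw [h1, Matrix.one_mul]
  have hee : ∀ X : Matrix {x // x ∈ N} {x // x ∈ N} A,
      eD A N * (P * X * P.transpose) * eD A N = P * X * P.transpose := by
    intro X
    calc eD A N * (P * X * P.transpose) * eD A N
        = (eD A N * P) * X * (P.transpose * eD A N) := by simp only [Matrix.mul_assoc]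
      _ = P * X * P.transpose := by rw [heP, hPe]
  refine ⟨fun i => (D i).map (Function.Embedding.subtype _), fun i => P * a i * P.transpose,
    fun i => P * b i * P.transpose, ?_, ?_⟩
  · intro i j hij
    exact (Finset.disjoint_map _).2 (hD i j hij)
  · intro i
    obtain ⟨e1, e2, e3, e4, e5, e6⟩ := hab i
    refine ⟨?_, hee _, hee _, ?_, ?_, ?_, ?_, ?_, ?_⟩
    · intro x hx
      obtain ⟨j, -, rfl⟩ := Finset.mem_map.1 hx
      exact j.2
    · rw [hpp, e1]
      exact hbk i
    · rw [hpp, e2]
      exact inM_diag N (D i)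
    · rw [← hbk i, hpp]
      exact congrArg (fun X => P * X * P.transpose) e3
    · rw [← inM_diag N (D i), hpp]
      exact congrArg (fun X => P * X * P.transpose) e4
    · rw [← inM_diag N (D i), hpp]
      exact congrArg (fun X => P * X * P.transpose) e5
    · rw [← hbk i, hpp]
      exact congrArg (fun X => P * X * P.transpose) e6

end aux

section blk

variable {R : Type u} [Ring R] [StarRing R] {k : Type v} [Field k] [Algebra k R] (σ : Sys R)

private theorem eD_supp {A : Type u} [CommRing A] {I : Type} [Fintype I] [DecidableEq I] {N : Finset I}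
    {M : Matrix I I A} (h : eD A N * M * eD A N = M) {x y : I} (hxy : M x y ≠ 0) :
    x ∈ N ∧ y ∈ N := by
  rw [← h, eD_right] at hxy
  by_cases hy : y ∈ N
  · rw [if_pos hy, eD_left] at hxy
    by_cases hx : x ∈ N
    · exact ⟨hx, hy⟩
    · rw [if_neg hx] at hxy
      exact absurd rfl hxy
  · rw [if_neg hy] at hxy
    exact absurd rfl hxy

private theorem eD_map {A : Type u} [CommRing A] {B : Type v} [CommRing B] {I : Type} [Fintype I]
    [DecidableEq I] (φ : A →+* B) (D : Finset I) : φ.mapMatrix (eD A D) = eD B D := by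
  unfold eD
  rw [RingHom.mapMatrix_apply]
  ext x y
  rw [Matrix.map_apply]
  by_cases h : x = y
  · subst h
    rw [Matrix.diagonal_apply_eq, Matrix.diagonal_apply_eq]
    by_cases hx : x ∈ D <;> simp [hx]
  · rw [Matrix.diagonal_apply_ne _ h, Matrix.diagonal_apply_ne _ h, map_zero]

private theorem blk_o {m : ℕ} (Z : Finset σ.I) (F : Fin m → Matrix σ.I σ.I (LaurentPolynomial k))
    (hB : ∀ i, F i ∈ σ.BM k) (hZ : ∀ i, eD _ Z * F i * eD _ Z = F i)
    (idem : ∀ i, F i * F i = F i) (orth : ∀ i j, i ≠ j → F i * F j = 0) (o : σ.I) :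
    ∃ (D : Fin m → Finset σ.I) (a b : Fin m → Matrix σ.I σ.I (LaurentPolynomial k)),
      (∀ i j, i ≠ j → Disjoint (D i) (D j)) ∧ ∀ i, D i ⊆ Z.filter (fun x => σ.b x = o) ∧
        eD _ (Z.filter (fun x => σ.b x = o)) * a i * eD _ (Z.filter (fun x => σ.b x = o)) = a i ∧
        eD _ (Z.filter (fun x => σ.b x = o)) * b i * eD _ (Z.filter (fun x => σ.b x = o)) = b i ∧
        a i * b i = F i * eD _ (Z.filter (fun x => σ.b x = o)) ∧ b i * a i = eD _ (D i) ∧
        F i * a i = a i ∧ a i * eD _ (D i) = a i ∧ eD _ (D i) * b i = b i ∧ b i * F i = b i ∧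
        a i ∈ σ.BM k ∧ b i ∈ σ.BM k := by
  set N : Finset σ.I := Z.filter (fun x => σ.b x = o) with hN
  have hcomm : ∀ i, eD _ N * F i = F i * eD _ N := by
    intro i
    ext x y : 2
    rw [eD_left, eD_right]
    by_cases h0 : F i x y = 0
    · rw [h0]
      simp
    · obtain ⟨hx, hy⟩ := eD_supp (hZ i) h0
      have hb := (hB i x y h0).1
      have hiff : x ∈ N ↔ y ∈ N := by
        rw [hN, mem_filter, mem_filter]
        constructor
        · rintro ⟨-, h1⟩
          exact ⟨hy, hb ▸ h1⟩
        · rintro ⟨-, h1⟩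
          exact ⟨hx, hb.trans h1⟩
      by_cases h1 : x ∈ N
      · rw [if_pos h1, if_pos (hiff.1 h1)]
      · rw [if_neg h1, if_neg fun h2 => h1 (hiff.2 h2)]
  have hNN : (eD (LaurentPolynomial k) N) * eD _ N = eD _ N := by rw [eD_mul, inter_self]
  have hFN : ∀ i, eD _ N * (F i * eD _ N) * eD _ N = F i * eD _ N := by
    intro i
    rw [← Matrix.mul_assoc, hcomm, Matrix.mul_assoc, Matrix.mul_assoc, hNN, hNN]
  have hFm : ∀ i j, (F i * eD _ N) * (F j * eD _ N) = F i * F j * eD _ N := by
    intro i j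
    rw [Matrix.mul_assoc, ← Matrix.mul_assoc (eD _ N), hcomm, Matrix.mul_assoc (F j), hNN,
      Matrix.mul_assoc]
  have hleft : ∀ X : Matrix σ.I σ.I (LaurentPolynomial k), eD _ N * X * eD _ N = X →
      eD _ N * X = X := by
    intro X hX
    conv_lhs => rw [← hX]
    rw [← Matrix.mul_assoc, ← Matrix.mul_assoc, hNN, hX]
  have hright : ∀ X : Matrix σ.I σ.I (LaurentPolynomial k), eD _ N * X * eD _ N = X →
      X * eD _ N = X := by
    intro X hX
    conv_lhs => rw [← hX]
    rw [Matrix.mul_assoc, hNN, hX]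
  -- the main claim
  suffices hmain : ∃ (D : Fin m → Finset σ.I) (a b : Fin m → Matrix σ.I σ.I (LaurentPolynomial k)),
      (∀ i j, i ≠ j → Disjoint (D i) (D j)) ∧ ∀ i, D i ⊆ N ∧ eD _ N * a i * eD _ N = a i ∧
        eD _ N * b i * eD _ N = b i ∧ a i * b i = F i * eD _ N ∧ b i * a i = eD _ (D i) ∧
        (F i * eD _ N) * a i = a i ∧ a i * eD _ (D i) = a i ∧ eD _ (D i) * b i = b i ∧
        b i * (F i * eD _ N) = b i ∧
        (∀ x y, σ.lau o ∨ ∃ z : k, a i x y = LaurentPolynomial.C z) ∧
        (∀ x y, σ.lau o ∨ ∃ z : k, b i x y = LaurentPolynomial.C z) by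
    obtain ⟨D, a, b, hD, h⟩ := hmain
    refine ⟨D, a, b, hD, fun i => ?_⟩
    obtain ⟨e0, e1, e2, e3, e4, e5, e6, e7, e8, e9, e10⟩ := h i
    have hBM : ∀ X : Matrix σ.I σ.I (LaurentPolynomial k), eD _ N * X * eD _ N = X →
        (∀ x y, σ.lau o ∨ ∃ z : k, X x y = LaurentPolynomial.C z) → X ∈ σ.BM k := by
      intro X hX hc x y hxy
      obtain ⟨hx, hy⟩ := eD_supp hX hxy
      rw [hN, mem_filter] at hx hy
      refine ⟨hx.2.trans hy.2.symm, ?_⟩
      rw [hx.2]
      exact hc x y
    refine ⟨e0, e1, e2, e3, e4, ?_, e6, e7, ?_, hBM _ e1 e9, hBM _ e2 e10⟩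
    · rw [Matrix.mul_assoc, hleft _ e1] at e5
      exact e5
    · rw [← hcomm, ← Matrix.mul_assoc, hright _ e2] at e8
      exact e8
  by_cases hl : σ.lau o
  · have := lau_pid k
    obtain ⟨D, a, b, hD, h⟩ := sp_ext N (fun i => F i * eD _ N) hFN
      (fun i => by rw [hFm, idem]) (fun i j hij => by rw [hFm, orth i j hij, Matrix.zero_mul])
    refine ⟨D, a, b, hD, fun i => ?_⟩
    obtain ⟨e0, e1, e2, e3, e4, e5, e6, e7, e8⟩ := h i
    exact ⟨e0, e1, e2, e3, e4, e5, e6, e7, e8, fun _ _ => Or.inl hl, fun _ _ => Or.inl hl⟩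
  · have hcst : ∀ i x y, ∃ z : k, (F i * eD (LaurentPolynomial k) N) x y = LaurentPolynomial.C z := by
      intro i x y
      rw [eD_right]
      by_cases hy : y ∈ N
      · rw [if_pos hy]
        by_cases h0 : F i x y = 0
        · exact ⟨0, by rw [h0, map_zero]⟩
        · obtain ⟨hb, h1⟩ := hB i x y h0
          rcases h1 with h1 | h1
          · rw [hN, mem_filter] at hy
            rw [hb, hy.2] at h1
            exact absurd h1 hl
          · exact h1
      · rw [if_neg hy]
        exact ⟨0, by rw [map_zero]⟩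
    choose g hg using hcst
    set φ : Matrix σ.I σ.I k →+* Matrix σ.I σ.I (LaurentPolynomial k) :=
      (LaurentPolynomial.C (R := k)).mapMatrix with hφ
    have hinj : Function.Injective φ := by
      intro X Y hXY
      ext x y
      have h1 := congrFun (congrFun hXY x) y
      exact (LaurentPolynomial.C (R := k)).injective h1
    have hG : ∀ i, φ (Matrix.of (g i)) = F i * eD _ N := by
      intro i
      refine Matrix.ext fun x y => ?_
      exact (hg i x y).symm
    have hφe : ∀ D : Finset σ.I, φ (eD k D) = eD _ D := fun D => eD_map _ D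
    obtain ⟨D, a, b, hD, h⟩ := sp_ext N (fun i => Matrix.of (g i))
      (fun i => hinj (by rw [map_mul, map_mul, hφe, hG, hFN]))
      (fun i => hinj (by rw [map_mul, hG, hFm, idem]))
      (fun i j hij => hinj (by rw [map_mul, hG, hG, hFm, orth i j hij, Matrix.zero_mul, map_zero]))
    refine ⟨D, fun i => φ (a i), fun i => φ (b i), hD, fun i => ?_⟩
    obtain ⟨e0, e1, e2, e3, e4, e5, e6, e7, e8⟩ := h i
    refine ⟨e0, ?_, ?_, ?_, ?_, ?_, ?_, ?_, ?_, fun x y => Or.inr ⟨a i x y, rfl⟩,
      fun x y => Or.inr ⟨b i x y, rfl⟩⟩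
    · rw [← hφe, ← map_mul, ← map_mul, e1]
    · rw [← hφe, ← map_mul, ← map_mul, e2]
    · rw [← hG, ← map_mul, e3]
    · rw [← hφe, ← map_mul, e4]
    · rw [← hG, ← map_mul, e5]
    · rw [← hφe, ← map_mul, e6]
    · rw [← hφe, ← map_mul, e7]
    · rw [← hG, ← map_mul, e8]

private theorem eD_union {A : Type u} [CommRing A] {I : Type} [Fintype I] [DecidableEq I] (Dd : I → Finset I)
    (h : ∀ o o', o ≠ o' → Disjoint (Dd o) (Dd o')) :
    eD A (Finset.univ.biUnion Dd) = ∑ o, eD A (Dd o) := by
  ext x y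
  rw [Matrix.sum_apply]
  unfold eD
  by_cases hxy : x = y
  · subst hxy
    simp only [Matrix.diagonal_apply_eq]
    by_cases hx : x ∈ Finset.univ.biUnion Dd
    · rw [if_pos hx]
      obtain ⟨o, -, ho⟩ := Finset.mem_biUnion.1 hx
      rw [Finset.sum_eq_single o, if_pos ho]
      · intro o' _ hne
        rw [if_neg]
        intro ho'
        exact (Finset.disjoint_left.1 (h o' o hne)) ho' ho
      · intro h'
        exact absurd (Finset.mem_univ _) h'
    · rw [if_neg hx]
      refine (Finset.sum_eq_zero fun o _ => ?_).symm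
      rw [if_neg]
      intro ho
      exact hx (Finset.mem_biUnion.2 ⟨o, Finset.mem_univ _, ho⟩)
  · simp only [Matrix.diagonal_apply_ne _ hxy, Finset.sum_const_zero]

end blk

variable {R : Type u} [Ring R] [StarRing R] {k : Type v} [Field k] [Algebra k R] (σ : Sys R)

theorem lift_sys (h : σ.Ind k) (Z : Finset σ.I) {m : ℕ} (f : Fin m → R)
    (hf : ∀ i, f i ∈ σ.spn k) (hZ : ∀ i, σ.dg Z * f i * σ.dg Z = f i)
    (idem : ∀ i, f i * f i = f i) (orth : ∀ i j, i ≠ j → f i * f j = 0) :
    ∃ D : Fin m → Finset σ.I, (∀ i j, i ≠ j → Disjoint (D i) (D j)) ∧ (∀ i, D i ⊆ Z) ∧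
      ∀ i, Mv (σ.spn k : Set R) (f i) (σ.dg (D i)) := by
  choose F hFB hFe using fun i => (mem_spn_iff σ).1 (hf i)
  have heB : ∀ D : Finset σ.I, eD (LaurentPolynomial k) D ∈ σ.BM k := fun D => BM_diag σ D
  have hee : ∀ D : Finset σ.I, σ.ev k (eD (LaurentPolynomial k) D) = σ.dg D := fun D => ev_diag σ D
  have hFZ : ∀ i, eD _ Z * F i * eD _ Z = F i := by
    intro i
    refine ev_inj σ h (BM_mul σ (BM_mul σ (heB Z) (hFB i)) (heB Z)) (hFB i) ?_
    rw [ev_mul σ (BM_mul σ (heB Z) (hFB i)) (heB Z), ev_mul σ (heB Z) (hFB i), hee, hFe, hZ]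
  have hFi : ∀ i, F i * F i = F i := by
    intro i
    refine ev_inj σ h (BM_mul σ (hFB i) (hFB i)) (hFB i) ?_
    rw [ev_mul σ (hFB i) (hFB i), hFe, idem]
  have hFo : ∀ i j, i ≠ j → F i * F j = 0 := by
    intro i j hij
    refine ev_inj σ h (BM_mul σ (hFB i) (hFB j)) (BM_zero σ) ?_
    rw [ev_mul σ (hFB i) (hFB j), hFe, hFe, orth i j hij, ev_zero]
  choose D a b hD hab using fun o => blk_o σ Z F hFB hFZ hFi hFo o
  set N : σ.I → Finset σ.I := fun o => Z.filter (fun x => σ.b x = o) with hN
  have hNd : ∀ o o', o ≠ o' → Disjoint (N o) (N o') := by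
    intro o o' hne
    rw [Finset.disjoint_left]
    intro x hx hx'
    rw [hN] at hx hx'
    simp only [mem_filter] at hx hx'
    exact hne (hx.2.symm.trans hx'.2)
  have hcross : ∀ (o o' : σ.I) (X Y : Matrix σ.I σ.I (LaurentPolynomial k)), o ≠ o' →
      eD _ (N o) * X * eD _ (N o) = X → eD _ (N o') * Y * eD _ (N o') = Y → X * Y = 0 := by
    intro o o' X Y hne hX hY
    rw [← hX, ← hY]
    have h1 : (eD (LaurentPolynomial k) (N o)) * eD _ (N o') = 0 := by
      rw [eD_mul, Finset.disjoint_iff_inter_eq_empty.1 (hNd o o' hne), eD_empty]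
    calc (eD _ (N o) * X * eD _ (N o)) * (eD _ (N o') * Y * eD _ (N o'))
        = eD _ (N o) * X * ((eD _ (N o) * eD _ (N o')) * (Y * eD _ (N o'))) := by
          simp only [Matrix.mul_assoc]
      _ = 0 := by rw [h1, Matrix.zero_mul, Matrix.mul_zero]
  have hprod : ∀ X Y : σ.I → Matrix σ.I σ.I (LaurentPolynomial k),
      (∀ o, eD _ (N o) * X o * eD _ (N o) = X o) → (∀ o, eD _ (N o) * Y o * eD _ (N o) = Y o) →
      (∑ o, X o) * (∑ o, Y o) = ∑ o, X o * Y o := by
    intro X Y hX hY
    rw [Finset.sum_mul]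
    refine Finset.sum_congr rfl fun o _ => ?_
    rw [Finset.mul_sum, Finset.sum_eq_single o]
    · intro o' _ hne
      exact hcross o o' _ _ hne.symm (hX o) (hY o')
    · intro h'
      exact absurd (Finset.mem_univ _) h'
  have hDN : ∀ o i, D o i ⊆ N o := fun o i => (hab o i).1
  have hDs : ∀ o i, eD (LaurentPolynomial k) (N o) * eD _ (D o i) * eD _ (N o) = eD _ (D o i) := by
    intro o i
    rw [eD_mul, eD_mul, Finset.inter_eq_right.2 (hDN o i), Finset.inter_eq_left.2 (hDN o i)]
  have hsumN : ∀ i, F i = ∑ o, F i * eD _ (N o) := by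
    intro i
    have h1 : F i * eD _ (Finset.univ.biUnion N) = F i := by
      ext x y : 2
      rw [eD_right]
      by_cases h0 : F i x y = 0
      · rw [h0]
        simp
      · rw [if_pos]
        refine Finset.mem_biUnion.2 ⟨σ.b y, Finset.mem_univ _, ?_⟩
        rw [hN]
        exact mem_filter.2 ⟨(eD_supp (hFZ i) h0).2, rfl⟩
    conv_lhs => rw [← h1]
    rw [eD_union N hNd, Finset.mul_sum]
  have hFs : ∀ i o, eD _ (N o) * (F i * eD _ (N o)) * eD _ (N o) = F i * eD _ (N o) := by
    intro i o
    obtain ⟨e0, e1, e2, e3, e4, e5, e6, e7, e8, e9, e10⟩ := hab o i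
    have hNN : (eD (LaurentPolynomial k) (N o)) * eD _ (N o) = eD _ (N o) := by
      rw [eD_mul, inter_self]
    rw [← e3]
    have h1 : eD _ (N o) * a o i = a o i := by
      conv_lhs => rw [← e1]
      rw [← Matrix.mul_assoc, ← Matrix.mul_assoc, hNN]
      exact e1
    have h2 : b o i * eD _ (N o) = b o i := by
      conv_lhs => rw [← e2]
      rw [Matrix.mul_assoc, hNN]
      exact e2
    rw [← Matrix.mul_assoc, h1, Matrix.mul_assoc, h2]
  have hsumB : ∀ X : σ.I → Matrix σ.I σ.I (LaurentPolynomial k), (∀ o, X o ∈ σ.BM k) →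
      ∀ s : Finset σ.I, ∑ o ∈ s, X o ∈ σ.BM k := by
    intro X hX s
    induction s using Finset.induction_on with
    | empty => exact BM_zero σ
    | insert o s ho ih =>
      rw [Finset.sum_insert ho]
      exact BM_add σ (hX o) ih
  have hAB : ∀ i, ∑ o, a o i ∈ σ.BM k := fun i => hsumB _ (fun o => (hab o i).2.2.2.2.2.2.2.2.2.1) _
  have hBB : ∀ i, ∑ o, b o i ∈ σ.BM k := fun i => hsumB _ (fun o => (hab o i).2.2.2.2.2.2.2.2.2.2) _
  have hDd : ∀ i, ∀ o o', o ≠ o' → Disjoint (D o i) (D o' i) := fun i o o' hne =>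
    Finset.disjoint_of_subset_left (hDN o i) (Finset.disjoint_of_subset_right (hDN o' i)
      (hNd o o' hne))
  refine ⟨fun i => Finset.univ.biUnion fun o => D o i, ?_, ?_, ?_⟩
  · intro i j hij
    rw [Finset.disjoint_left]
    intro x hx hx'
    obtain ⟨o, -, ho⟩ := Finset.mem_biUnion.1 hx
    obtain ⟨o', -, ho'⟩ := Finset.mem_biUnion.1 hx'
    by_cases hoo : o = o'
    · subst hoo
      exact (Finset.disjoint_left.1 (hD o i j hij)) ho ho'
    · exact (Finset.disjoint_left.1 (hNd o o' hoo)) (hDN o i ho) (hDN o' j ho')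
  · intro i x hx
    obtain ⟨o, -, ho⟩ := Finset.mem_biUnion.1 hx
    exact (mem_filter.1 (hDN o i ho)).1
  · intro i
    have heq : eD (LaurentPolynomial k) (Finset.univ.biUnion fun o => D o i) =
        ∑ o, eD _ (D o i) := eD_union (fun o => D o i) (hDd i)
    have m1 : (∑ o, a o i) * (∑ o, b o i) = F i := by
      rw [hprod _ _ (fun o => (hab o i).2.1) (fun o => (hab o i).2.2.1)]
      conv_rhs => rw [hsumN i]
      exact Finset.sum_congr rfl fun o _ => (hab o i).2.2.2.1
    have m2 : (∑ o, b o i) * (∑ o, a o i) = eD _ (Finset.univ.biUnion fun o => D o i) := by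
      rw [hprod _ _ (fun o => (hab o i).2.2.1) (fun o => (hab o i).2.1), heq]
      exact Finset.sum_congr rfl fun o _ => (hab o i).2.2.2.2.1
    have m3 : F i * (∑ o, a o i) = ∑ o, a o i := by
      rw [Finset.mul_sum]
      exact Finset.sum_congr rfl fun o _ => (hab o i).2.2.2.2.2.1
    have m4 : (∑ o, a o i) * eD _ (Finset.univ.biUnion fun o => D o i) = ∑ o, a o i := by
      rw [heq, hprod _ _ (fun o => (hab o i).2.1) (fun o => hDs o i)]
      exact Finset.sum_congr rfl fun o _ => (hab o i).2.2.2.2.2.2.1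
    have m5 : eD _ (Finset.univ.biUnion fun o => D o i) * (∑ o, b o i) = ∑ o, b o i := by
      rw [heq, hprod _ _ (fun o => hDs o i) (fun o => (hab o i).2.2.1)]
      exact Finset.sum_congr rfl fun o _ => (hab o i).2.2.2.2.2.2.2.1
    have m6 : (∑ o, b o i) * F i = ∑ o, b o i := by
      rw [Finset.sum_mul]
      exact Finset.sum_congr rfl fun o _ => (hab o i).2.2.2.2.2.2.2.2.1
    have heB' := heB (Finset.univ.biUnion fun o => D o i)
    refine ⟨σ.ev k (∑ o, a o i), (mem_spn_iff σ).2 ⟨_, hAB i, rfl⟩, σ.ev k (∑ o, b o i),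
      (mem_spn_iff σ).2 ⟨_, hBB i, rfl⟩, ?_, ?_, ?_, ?_, ?_, ?_⟩
    · rw [← ev_mul σ (hAB i) (hBB i), m1, hFe]
    · rw [← ev_mul σ (hBB i) (hAB i), m2, hee]
    · rw [← hFe i, ← ev_mul σ (hFB i) (hAB i), m3]
    · rw [← hee, ← ev_mul σ (hAB i) heB', m4]
    · rw [← hee, ← ev_mul σ heB' (hBB i), m5]
    · rw [← hFe i, ← ev_mul σ (hBB i) (hFB i), m6]

end Pool.Agent.Work.MP_2b4d3b_al.NE
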