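import Pool.Agent.Work.MP_2b4d3b_al.NE.Defs
import Pool.Agent.Work.MP_2b4d3b_al.NE.Loc
import Pool.Agent.Work.MP_2b4d3b_al.NE.LiftS
import Pool.Agent.Work.MP_2b4d3b_al.NE.MvB

/-
Lifting orthogonal idempotents to projections over Z. PROOF. letI : StarRing K := starRingOfComm. Cor_fin: a finite W0 in Z with
eW W0 * f i = f i = f i * eW W0. Loc.loc with N = univ, this W0 and B = the f i: stage σ with f i in σ.snd.spn K, W0 in W. stg_eW (for
σ.snd, bstg_snd): eW K G W0 = snd.dg Z0, Z0 = {i | st i in W0}. lift_sys (field K, σ.snd, indK): disjoint D i in Z0, Mv (snd.spn K) (f i)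
(snd.dg (D i)). q i = σ.fst.dg (D i): projections, orthogonal (dg_mul, disjoint), io (q i) = snd.dg (D i) (bstg_io_dg), q i in Cor Z G Z:
sum over i of c_i c_i* with st i in W0 (stg_cor_prj for bstg_fst). spn K in LP K G: every basis element is a product of elements of LP
(Stg.gen for bstg_snd: c_i and x_(b i) are in the closure of generators, so in LP). Mv_mono.
-/

set_option linter.unusedVariables false
set_option linter.style.longLine false
set_option linter.unusedSectionVars false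

namespace Pool.Agent.Work.MP_2b4d3b_al.NE

universe u v w u' v' w'

open Finset

variable {V : Type v} {E : Type w} {G : Gr V E}

theorem spn_le_LP (K : Type u) [CommRing K] [StarRing K] {W : Finset V} {T : Finset E}
    {σ : Sys (UA K G)} {st : σ.I → V} (h : Stg G W T (vx K G) (ed K G) σ st) {a : UA K G}
    (ha : a ∈ σ.spn K) : a ∈ LP K G := by
  have h2 : NonUnitalSubring.closure (gset W T (vx K G) (ed K G)) ≤
      (LP K G).toNonUnitalSubring := by
    rw [NonUnitalSubring.closure_le]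
    rintro a (⟨x, _, rfl⟩ | ⟨e, _, rfl⟩ | ⟨e, _, rfl⟩)
    · exact vx_mem x
    · exact ed_mem e
    · rw [star_ed]
      exact gh_mem e
  have hc : ∀ i, σ.c i ∈ LP K G := fun i => h2 (h.gen i).1
  have h3 : σ.spn K ≤ (LP K G).toSubmodule := by
    unfold Sys.spn
    rw [Submodule.span_le]
    rintro _ ⟨t, rfl⟩
    exact mul_mem_LP_right (mul_mem_LP_right (hc _) _) _
  exact h3 ha

theorem lift_orth (hG : NoExit G) (K : Type u) [Field K] {Z : Set V} {m : ℕ} (f : Fin m → UA K G)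
    (hf : ∀ i, f i ∈ Cor K G Z) (idem : ∀ i, f i * f i = f i)
    (orth : ∀ i j, i ≠ j → f i * f j = 0) :
    ∃ q : Fin m → UA ℤ G, (∀ i, q i ∈ Cor ℤ G Z ∧ IsPrj (q i)) ∧
      (∀ i j, i ≠ j → q i * q j = 0) ∧
      ∀ i, Mv (LP K G : Set (UA K G)) (f i) (io K G (q i)) := by
  classical
  letI : StarRing K := starRingOfComm
  have hmem : ∀ i, f i ∈ (Finset.univ : Finset (Fin m)).image f := fun i =>
    Finset.mem_image_of_mem f (Finset.mem_univ i)
  obtain ⟨W0, hWZ, hW0⟩ := Cor_fin (N := Z) ((Finset.univ : Finset (Fin m)).image f) (by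
    intro a ha
    obtain ⟨i, _, rfl⟩ := Finset.mem_image.1 ha
    exact hf i)
  have her : Her G (Set.univ : Set V) := fun _ _ => Set.mem_univ _
  obtain ⟨W, T, σ, st, _, hWW, hB, _, hs⟩ := loc K hG her W0 (fun _ _ => Set.mem_univ _) ∅
    (by simp) ((Finset.univ : Finset (Fin m)).image f) (by
      intro a ha
      obtain ⟨i, _, rfl⟩ := Finset.mem_image.1 ha
      exact Cor_mono (Set.subset_univ _) (hf i))
  have hS1 := bstg_fst hB
  have hS2 := bstg_snd hB
  obtain ⟨Z0, hZ0, heW⟩ := stg_eW hS2 hWW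
  obtain ⟨D, hDd, hDZ, hMv⟩ := lift_sys σ.snd hB.indK Z0 f (fun i => hs _ (hmem i)) (fun i => by
    rw [← heW, (hW0 _ (hmem i)).1, (hW0 _ (hmem i)).2]) idem orth
  refine ⟨fun i => σ.fst.dg (D i), fun i => ⟨?_, dg_prj _ _⟩, fun i j hij => ?_, fun i => ?_⟩
  · refine Cor_sum _ _ fun j hj => ?_
    exact stg_cor_prj hS1 (hWZ _ ((hZ0 j).1 (hDZ i hj)))
  · have h1 : σ.fst.dg (D i) * σ.fst.dg (D j) = σ.fst.dg (D i ∩ D j) := dg_mul σ.fst (D i) (D j)
    rw [h1]
    have h2 : D i ∩ D j = ∅ := Finset.disjoint_iff_inter_eq_empty.1 (hDd i j hij)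
    have h3 : σ.fst.dg (D i ∩ D j) = σ.fst.dg (∅ : Finset σ.fst.I) := congrArg σ.fst.dg h2
    rw [h3]
    simp [Sys.dg]
  · have h1 : io K G (σ.fst.dg (D i)) = σ.snd.dg (D i) := bstg_io_dg hB (D i)
    rw [h1]
    exact Mv_mono (fun a ha => spn_le_LP K hS2 ha) (hMv i)

end Pool.Agent.Work.MP_2b4d3b_al.NE
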