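import Pool.Agent.Work.MP_2b4d3b_al.NE.Defs
import Pool.Agent.Work.MP_2b4d3b_al.NE.Loc
import Pool.Agent.Work.MP_2b4d3b_al.NE.PrjD
import Pool.Agent.Work.MP_2b4d3b_al.NE.MvB
import Pool.Agent.Work.MP_2b4d3b_al.NE.LiftL

/-
The corner of a cyclic vertex over Z. PROOF. Let y be cyclic with cycle l, X = vx y * wd (ed) l. For finitely many elements of LP Z G there is a
stage (Loc.loc with K = Z, N = univ, W0 = {y}, A = the elements, LP_eq_Cor) containing them; by Stg.cyc (for bstg_fst) there is an index i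
with st i = y, lau (b i), vx y = c_i c_i* and X = c_i x_(b i) c_i*. cor_comm: by corner_elt, corner_mul the corner elements are
c_i lv(f) c_i*, commuting since Laurent polynomials commute. cor_prim: projections q1, q2 with q1 + q2 = vx y and q1 q2 = 0 are dg D1, dg D2
(PrjD) with dg (D1 ∪ D2) = dg {i}, disjoint (c_j c_j* <> 0 by dg_inj), so one of them is empty (dg_inj). ret_unit: from X = c_i x c_i*,
x x* = c = x* x. ret_ne: X = n • vx y would be a relation between zp 1 and zp 0: cyc_ind (RepC) with f = single 1 1 - single 0 n.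
star_proper: a = ev A in a stage: star a * a = 0 gives (A.map invert).transpose * A = 0, diagonal entries: sum_j invert (A j i) * A j i = 0,
its constant coefficient is the sum of the squares of all coefficients of the entries A j i, so A = 0.
-/

set_option linter.unusedVariables false
set_option linter.style.longLine false
set_option linter.unusedSectionVars false

namespace Pool.Agent.Work.MP_2b4d3b_al.NE

universe u v w u' v' w'

open Finset

variable {V : Type v} {E : Type w} {G : Gr V E}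

private theorem toC {x : UA ℤ G} (hx : x ∈ LP ℤ G) : x ∈ Cor ℤ G Set.univ := by
  rw [← LP_eq_Cor]; exact hx

/-- a stage containing the cyclic vertex and finitely many elements -/
private theorem stage_y (hG : NoExit G) {y : V} (hy : Cyc G y) (A : Finset (UA ℤ G))
    (hA : ∀ a ∈ A, a ∈ LP ℤ G) :
    ∃ (σ : Sys (UA ℤ G)), σ.Ind ℤ ∧ (∀ a ∈ A, a ∈ σ.rng) ∧
      ∃ i : σ.I, σ.lau (σ.b i) ∧ vx ℤ G y = σ.c i * star (σ.c i) ∧
        ∀ l, Ret G y l → vx ℤ G y * wd (ed ℤ G) l = σ.c i * σ.x (σ.b i) * star (σ.c i) := by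
  classical
  obtain ⟨W, T, σ, st, hn, hW, hBS, hA', _⟩ := loc ℤ hG (N := Set.univ) (fun _ _ => trivial) {y}
    (fun _ _ => trivial) A (fun a ha => toC (hA a ha)) ∅ (by simp)
  obtain ⟨i, _, h2, h3, h4⟩ := (bstg_fst hBS).cyc y (hW (Finset.mem_singleton_self y)) hy
  exact ⟨σ.fst, hBS.indZ, hA', i, h2, h3, h4⟩

theorem cor_comm (hG : NoExit G) {y : V} (hy : Cyc G y) {a b : UA ℤ G} (ha : a ∈ LP ℤ G)
    (hb : b ∈ LP ℤ G) :
    (vx ℤ G y * a * vx ℤ G y) * (vx ℤ G y * b * vx ℤ G y) =
      (vx ℤ G y * b * vx ℤ G y) * (vx ℤ G y * a * vx ℤ G y) := by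
  classical
  obtain ⟨σ, _, hA, i, _, hvx, _⟩ := stage_y hG hy {a, b} (by
    intro x hx
    rw [Finset.mem_insert, Finset.mem_singleton] at hx
    rcases hx with rfl | rfl
    · exact ha
    · exact hb)
  obtain ⟨f, _, hf⟩ := corner_elt (k := ℤ) σ i (rng_le σ (hA a (by simp)))
  obtain ⟨g, _, hg⟩ := corner_elt (k := ℤ) σ i (rng_le σ (hA b (by simp)))
  rw [hvx, hf, hg, corner_mul, corner_mul, mul_comm f g]

theorem cor_prim (hG : NoExit G) {y : V} (hy : Cyc G y) {q1 q2 : UA ℤ G} (h1 : q1 ∈ LP ℤ G)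
    (h2 : q2 ∈ LP ℤ G) (p1 : IsPrj q1) (p2 : IsPrj q2) (ho : q1 * q2 = 0)
    (hs : q1 + q2 = vx ℤ G y) : q1 = 0 ∨ q2 = 0 := by
  classical
  obtain ⟨σ, hI, hA, i, _, hvx, _⟩ := stage_y hG hy {q1, q2} (by
    intro x hx
    rw [Finset.mem_insert, Finset.mem_singleton] at hx
    rcases hx with rfl | rfl
    · exact h1
    · exact h2)
  obtain ⟨D1, hD1⟩ := prj_diag σ hI (hA q1 (by simp)) p1
  obtain ⟨D2, hD2⟩ := prj_diag σ hI (hA q2 (by simp)) p2
  have e0 : σ.dg ∅ = 0 := Finset.sum_empty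
  have h3 : D1 ∩ D2 = ∅ := by
    apply dg_inj σ hI
    rw [← dg_mul, ← hD1, ← hD2, ho, e0]
  have h4 : D1 ∪ D2 = {i} := by
    apply dg_inj σ hI
    rw [dg_union σ (Finset.disjoint_iff_inter_eq_empty.mpr h3), ← hD1, ← hD2, hs, hvx, Sys.dg,
      Finset.sum_singleton]
  by_cases hi : i ∈ D1
  · right
    have h5 : D2 = ∅ := by
      rw [Finset.eq_empty_iff_forall_notMem]
      intro j hj
      have h6 : j ∈ D1 ∪ D2 := Finset.mem_union_right _ hj
      rw [h4, Finset.mem_singleton] at h6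
      rw [h6] at hj
      have h7 : i ∈ D1 ∩ D2 := Finset.mem_inter.mpr ⟨hi, hj⟩
      rw [h3] at h7
      exact absurd h7 (Finset.notMem_empty _)
    rw [hD2, h5, e0]
  · left
    have h5 : D1 = ∅ := by
      rw [Finset.eq_empty_iff_forall_notMem]
      intro j hj
      have h6 : j ∈ D1 ∪ D2 := Finset.mem_union_left _ hj
      rw [h4, Finset.mem_singleton] at h6
      rw [h6] at hj
      exact hi hj
    rw [hD1, h5, e0]

theorem ret_unit (hG : NoExit G) {y : V} {l : List E} (hl : Ret G y l) :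
    (vx ℤ G y * wd (ed ℤ G) l) * star (vx ℤ G y * wd (ed ℤ G) l) = vx ℤ G y ∧
      star (vx ℤ G y * wd (ed ℤ G) l) * (vx ℤ G y * wd (ed ℤ G) l) = vx ℤ G y ∧
      vx ℤ G y * wd (ed ℤ G) l * vx ℤ G y = vx ℤ G y * wd (ed ℤ G) l := by
  classical
  obtain ⟨σ, hI, _, i, _, hvx, hX⟩ := stage_y hG (ret_cyc hl).1 ∅ (by simp)
  have hX := hX l hl
  rw [hX, hvx]
  have cc := σ.cc i
  have cb := σ.cb i
  have cx := σ.cx i
  have xs := σ.xs i
  have sx := σ.sx i
  obtain ⟨cs, c2⟩ := c_base σ (σ.bb i)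
  have xc : σ.x (σ.b i) * σ.c (σ.b i) = σ.x (σ.b i) := by
    rw [← sx, ← mul_assoc, xs, cx]
  have csb : σ.c (σ.b i) * star (σ.c i) = star (σ.c i) := by
    have h := congrArg star cb
    rwa [star_mul, cs] at h
  have sxc : star (σ.x (σ.b i)) * σ.c (σ.b i) = star (σ.x (σ.b i)) := by
    have h := congrArg star cx
    rwa [star_mul, cs] at h
  have st : star (σ.c i * σ.x (σ.b i) * star (σ.c i)) =
      σ.c i * star (σ.x (σ.b i)) * star (σ.c i) := by
    rw [star_mul, star_mul, star_star, mul_assoc]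
  rw [st]
  refine ⟨?_, ?_, ?_⟩
  · calc σ.c i * σ.x (σ.b i) * star (σ.c i) * (σ.c i * star (σ.x (σ.b i)) * star (σ.c i))
        = σ.c i * (σ.x (σ.b i) * (star (σ.c i) * σ.c i)) * star (σ.x (σ.b i)) *
            star (σ.c i) := by simp only [mul_assoc]
      _ = σ.c i * (σ.x (σ.b i) * star (σ.x (σ.b i))) * star (σ.c i) := by
          rw [cc, xc]; simp only [mul_assoc]
      _ = σ.c i * star (σ.c i) := by rw [xs, cb]
  · calc σ.c i * star (σ.x (σ.b i)) * star (σ.c i) * (σ.c i * σ.x (σ.b i) * star (σ.c i))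
        = σ.c i * (star (σ.x (σ.b i)) * (star (σ.c i) * σ.c i)) * σ.x (σ.b i) *
            star (σ.c i) := by simp only [mul_assoc]
      _ = σ.c i * (star (σ.x (σ.b i)) * σ.x (σ.b i)) * star (σ.c i) := by
          rw [cc, sxc]; simp only [mul_assoc]
      _ = σ.c i * star (σ.c i) := by rw [sx, cb]
  · calc σ.c i * σ.x (σ.b i) * star (σ.c i) * (σ.c i * star (σ.c i))
        = σ.c i * (σ.x (σ.b i) * (star (σ.c i) * σ.c i)) * star (σ.c i) := by
          simp only [mul_assoc]
      _ = σ.c i * σ.x (σ.b i) * star (σ.c i) := by rw [cc, xc]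

theorem ret_ne {y : V} {l : List E} (hl : Ret G y l) (n : ℤ) :
    vx ℤ G y * wd (ed ℤ G) l ≠ n • vx ℤ G y := by
  intro h
  have key := cyc_ind (K := ℤ) hl.1 (ret_cyc hl).2
    (Finsupp.single 1 1 - Finsupp.single 0 n) (by
      rw [Finsupp.sum_sub_index (fun _ _ _ => sub_smul _ _ _), Finsupp.sum_single_index,
        Finsupp.sum_single_index]
      · have z1 : zp (vx ℤ G y) (vx ℤ G y * wd (ed ℤ G) l) 1 = vx ℤ G y * wd (ed ℤ G) l := by
          change vx ℤ G y * (vx ℤ G y * wd (ed ℤ G) l) ^ 1 = _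
          rw [pow_one, ← mul_assoc, vx_vx]
        have z0 : zp (vx ℤ G y) (vx ℤ G y * wd (ed ℤ G) l) 0 = vx ℤ G y := by
          change vx ℤ G y * (vx ℤ G y * wd (ed ℤ G) l) ^ 0 = _
          rw [pow_zero, mul_one]
        rw [z1, z0]
        exact sub_eq_zero.mpr ((one_smul ℤ _).trans h)
      · exact zero_smul _ _
      · exact zero_smul _ _)
  have h1 := DFunLike.congr_fun key 1
  simp at h1

private theorem inv_mul_coeff (f g : LaurentPolynomial ℤ) :
    (LaurentPolynomial.invert f * g).coeff 0 = f.coeff.sum fun n a => a * g.coeff n := by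
  induction f using AddMonoidAlgebra.induction_linear with
  | zero => simp
  | add f1 f2 h1 h2 =>
    rw [map_add, add_mul, AddMonoidAlgebra.coeff_add, AddMonoidAlgebra.coeff_add,
      Finsupp.add_apply, h1, h2, Finsupp.sum_add_index']
    · intro a
      exact zero_mul _
    · intro a b1 b2
      exact add_mul _ _ _
  | single n a =>
    have h1 : LaurentPolynomial.invert (AddMonoidAlgebra.single n a : LaurentPolynomial ℤ) =
        AddMonoidAlgebra.single (-n) a := by
      ext m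
      rw [LaurentPolynomial.invert_apply, AddMonoidAlgebra.coeff_single,
        AddMonoidAlgebra.coeff_single, Finsupp.single_apply, Finsupp.single_apply]
      have : (n = -m) ↔ (-n = m) := by constructor <;> intro h <;> omega
      simp only [this]
    rw [h1, AddMonoidAlgebra.coeff_single, Finsupp.sum_single_index (by exact zero_mul _)]
    rw [AddMonoidAlgebra.coeff_single_mul_eq_mul_coeff n]
    intro m' _
    omega

theorem star_proper (hG : NoExit G) {a : UA ℤ G} (ha : a ∈ LP ℤ G) (h : star a * a = 0) :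
    a = 0 := by
  classical
  obtain ⟨W, T, σ, st, hn, _, hBS, hA, _⟩ := loc ℤ hG (N := Set.univ) (fun _ _ => trivial) ∅
    (by simp) {a} (by
      intro x hx
      rw [Finset.mem_singleton] at hx
      rw [hx]
      exact toC ha) ∅ (by simp)
  obtain ⟨A, hAB, hAe⟩ := (mem_rng_iff σ.fst).1 (hA a (by simp))
  have hI := hBS.indZ
  have h1 : σ.fst.ev ℤ ((A.map LaurentPolynomial.invert).transpose * A) = σ.fst.ev ℤ 0 := by
    rw [ev_mul σ.fst (BM_star σ.fst hAB) hAB, ← ev_star σ.fst hAB, hAe, h, ev_zero]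
  have h2 := ev_inj σ.fst hI (BM_mul σ.fst (BM_star σ.fst hAB) hAB) (BM_zero σ.fst) h1
  have h3 : A = 0 := by
    ext i j m
    have h4 := congrArg (fun B => (B j j).coeff 0) h2
    simp only [Matrix.mul_apply, Matrix.transpose_apply, Matrix.map_apply, Matrix.zero_apply,
      AddMonoidAlgebra.coeff_sum, Finsupp.finsetSum_apply, AddMonoidAlgebra.coeff_zero,
      Finsupp.zero_apply, inv_mul_coeff] at h4
    have h5 : ∀ x : σ.fst.I, 0 ≤ (A x j).coeff.sum fun n a => a * (A x j).coeff n := by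
      intro x
      exact Finset.sum_nonneg fun n _ => mul_self_nonneg _
    rw [Finset.sum_eq_zero_iff_of_nonneg fun x _ => h5 x] at h4
    have h6 := h4 i (Finset.mem_univ _)
    rw [Finsupp.sum, Finset.sum_eq_zero_iff_of_nonneg fun n _ => mul_self_nonneg _] at h6
    simp only [Matrix.zero_apply, AddMonoidAlgebra.coeff_zero, Finsupp.zero_apply]
    by_contra h7
    exact h7 (mul_self_eq_zero.mp (h6 m (Finsupp.mem_support_iff.mpr h7)))
  rw [← hAe, h3, ev_zero]

end Pool.Agent.Work.MP_2b4d3b_al.NE
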