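import Pool.Agent.Work.MP_2b4d3b_al.NE.Defs
import Pool.Agent.Work.MP_2b4d3b_al.NE.LauA
import Pool.Agent.Work.MP_2b4d3b_al.NE.RepC

/-
LauGen G p x: p = s s*, s* s = vx y, s (vx y) = s, x = s X s* with X = vx y * wd l, Ret G y l.
PROOF. lg_basic: p p = s (s* s) s* = s (vx y) s* = p; p s = s s* s = s; p, x in LP (ideal, s in LP, star); p x = x = x p;
x x* = s X s* s X* s* = s X (vx y) X* s* = s (vx y) s* = p; same for x* x (ret_unit). lg_ne: p = 0 would give vx y = s* s = s* p s = 0,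
contradiction to vx_torsion (a = 1). lg_prim: p = q1 + q2, q1 q2 = 0 (so q2 q1 = 0): s* q1 s, s* q2 s are orthogonal projections
(s* q1 s s* q1 s = s* q1 p q1 s = s* q1 s, as q1 p = q1) with sum s* p s = vx y: cor_prim, so say s* q1 s = 0, then
q1 = p q1 p = s (s* q1 s) s* = 0. lg_scal: x = n • p would give X = s* x s = n • vx y: ret_ne. lg_trans: s1 = r s: s1 s1* = r p r* = r r* r r* =
p' p' = p'; s1* s1 = s* p s = vx y; s1 (vx y) = s1; s1 X s1* = r x r*. lg_unit: s1 = u s (in LP). lg_ind: s* (zp p x n) s = zp (vx y) X n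
(powers: s* x^n s = X^n vx y), so a relation for x gives one for X: cyc_ind. lg_star: s = vx y.
-/

set_option linter.unusedVariables false
set_option linter.style.longLine false
set_option linter.unusedSectionVars false

namespace Pool.Agent.Work.MP_2b4d3b_al.NE

universe u v w u' v' w'

open Finset

variable {V : Type v} {E : Type w} {G : Gr V E}

private theorem lb_rch {x y : V} {l : List E} (h : Pth G x l y) : GRch G x y := by
  induction l generalizing x with
  | nil =>
    have h1 : x = y := h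
    rw [h1]
    exact Relation.ReflTransGen.refl
  | cons e l ih => exact Relation.ReflTransGen.head ⟨e, h.1, rfl⟩ (ih h.2)

private theorem lb_cyc {y : V} {l : List E} (hl : Ret G y l) : Cyc G y := by
  obtain ⟨h1, h2, -⟩ := hl
  cases l with
  | nil => exact absurd rfl h1
  | cons e l => exact ⟨e, h2.1, lb_rch h2.2⟩

private theorem lb_vs {s : UA ℤ G} {y : V} (h : s * vx ℤ G y = s) :
    vx ℤ G y * star s = star s := by
  have h1 := congrArg star h
  rw [star_mul, star_vx] at h1
  exact h1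

private theorem lb_vX (y : V) (l : List E) :
    vx ℤ G y * (vx ℤ G y * wd (ed ℤ G) l) = vx ℤ G y * wd (ed ℤ G) l := by
  rw [← mul_assoc, vx_vx]

private theorem lb_Xv {y : V} {l : List E}
    (h : vx ℤ G y * wd (ed ℤ G) l * vx ℤ G y = vx ℤ G y * wd (ed ℤ G) l) :
    vx ℤ G y * star (vx ℤ G y * wd (ed ℤ G) l) = star (vx ℤ G y * wd (ed ℤ G) l) ∧
      star (vx ℤ G y * wd (ed ℤ G) l) * vx ℤ G y = star (vx ℤ G y * wd (ed ℤ G) l) := by
  constructor
  · have h1 := congrArg star h
    rw [star_mul, star_vx] at h1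
    exact h1
  · have h1 := congrArg star (lb_vX (G := G) y l)
    rw [star_mul, star_vx] at h1
    exact h1

theorem lg_basic (hG : NoExit G) {p x : UA ℤ G} (h : LauGen G p x) :
    IsPrj p ∧ p ∈ LP ℤ G ∧ x ∈ LP ℤ G ∧ p * x = x ∧ x * p = x ∧ x * star x = p ∧
      star x * x = p := by
  obtain ⟨y, l, hl, s, hs, h1, h2, h3, h4⟩ := h
  obtain ⟨r1, r2, r3⟩ := ret_unit hG hl
  obtain ⟨r5, r6⟩ := lb_Xv r3
  have r4 := lb_vX (G := G) y l
  generalize vx ℤ G y * wd (ed ℤ G) l = X at r1 r2 r3 r4 r5 r6 h4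
  have hv := vx_vx (K := ℤ) (G := G) y
  have h5 := lb_vs h3
  generalize vx ℤ G y = v at r1 r2 r3 r4 r5 r6 h2 h3 h5 hv
  have hs' : star s ∈ LP ℤ G := star_mem_LP hs
  have hsx : star x = s * star X * star s := by
    rw [h4, star_mul, star_mul, star_star, mul_assoc]
  refine ⟨⟨?_, ?_⟩, ?_, ?_, ?_, ?_, ?_, ?_⟩
  · rw [← h1, mul_assoc, ← mul_assoc (star s), h2, h5]
  · rw [← h1, star_mul, star_star]
  · rw [← h1]
    exact mul_mem_LP_left _ hs'
  · rw [h4]
    exact mul_mem_LP_left _ hs'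
  · rw [h4, ← h1, mul_assoc s (star s), mul_assoc s X (star s), ← mul_assoc (star s) s, h2,
      ← mul_assoc v X, r4]
  · rw [h4, ← h1, mul_assoc (s * X) (star s), ← mul_assoc (star s) s, h2, h5]
  · rw [hsx, h4, mul_assoc (s * X) (star s), mul_assoc s (star X) (star s),
      ← mul_assoc (star s) s, h2, ← mul_assoc v, r5, ← mul_assoc, mul_assoc s X, r1, h3, h1]
  · rw [hsx, h4, mul_assoc (s * star X) (star s), mul_assoc s X (star s),
      ← mul_assoc (star s) s, h2, ← mul_assoc v, r4, ← mul_assoc, mul_assoc s (star X), r2, h3,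
      h1]

theorem lg_ne {p x : UA ℤ G} (h : LauGen G p x) : p ≠ 0 := by
  obtain ⟨y, l, hl, s, hs, h1, h2, h3, h4⟩ := h
  intro hp
  have h5 : vx ℤ G y = 0 := by
    rw [← vx_vx, ← h2, mul_assoc, ← mul_assoc s, h1, hp, zero_mul, mul_zero]
  have h6 : (1 : ℤ) = 0 := by
    refine vx_torsion (K := ℤ) (G := G) y 1 ?_
    rw [h5, smul_zero]
  exact one_ne_zero h6

theorem lg_prim (hG : NoExit G) {p x : UA ℤ G} (h : LauGen G p x) {q1 q2 : UA ℤ G}
    (h1 : q1 ∈ LP ℤ G) (h2 : q2 ∈ LP ℤ G) (p1 : IsPrj q1) (p2 : IsPrj q2) (ho : q1 * q2 = 0)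
    (hs : q1 + q2 = p) : q1 = 0 ∨ q2 = 0 := by
  obtain ⟨y, l, hl, s, hsL, e1, e2, e3, e4⟩ := h
  have ho' : q2 * q1 = 0 := by
    have h3 := congrArg star ho
    rw [star_mul, p1.2, p2.2, star_zero] at h3
    exact h3
  have a1 : q1 * p = q1 := by rw [← hs, mul_add, p1.1, ho, add_zero]
  have a2 : p * q1 = q1 := by rw [← hs, add_mul, p1.1, ho', add_zero]
  have b1 : q2 * p = q2 := by rw [← hs, mul_add, p2.1, ho', zero_add]
  have b2 : p * q2 = q2 := by rw [← hs, add_mul, p2.1, ho, zero_add]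
  have key : ∀ a b : UA ℤ G, a * p = a →
      (star s * a * s) * (star s * b * s) = star s * (a * b) * s := by
    intro a b ha
    have h3 : (star s * a * s) * (star s * b * s) = star s * (a * (s * star s) * b) * s := by
      simp only [mul_assoc]
    rw [h3, e1, ha]
  have hc := cor_prim hG (lb_cyc hl) (q1 := star s * q1 * s) (q2 := star s * q2 * s)
    (mul_mem_LP_left _ hsL) (mul_mem_LP_left _ hsL)
    ⟨by rw [key _ _ a1, p1.1], by rw [star_mul, star_mul, star_star, p1.2, mul_assoc]⟩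
    ⟨by rw [key _ _ b1, p2.1], by rw [star_mul, star_mul, star_star, p2.2, mul_assoc]⟩
    (by rw [key _ _ a1, ho, mul_zero, zero_mul])
    (by
      have h3 : star s * q1 * s + star s * q2 * s = star s * (q1 + q2) * s := by
        rw [mul_add, add_mul]
      rw [h3, hs, ← e1, ← mul_assoc, e2, mul_assoc, e2, vx_vx])
  have back : ∀ q : UA ℤ G, q * p = q → p * q = q → star s * q * s = 0 → q = 0 := by
    intro q c1 c2 c3
    have h3 : q = s * (star s * q * s) * star s := by
      have h4 : s * (star s * q * s) * star s = (s * star s) * q * (s * star s) := by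
        simp only [mul_assoc]
      rw [h4, e1, c2, c1]
    rw [h3, c3, mul_zero, zero_mul]
  rcases hc with hc | hc
  · exact Or.inl (back q1 a1 a2 hc)
  · exact Or.inr (back q2 b1 b2 hc)

theorem lg_scal (hG : NoExit G) {p x : UA ℤ G} (h : LauGen G p x) (n : ℤ) : x ≠ n • p := by
  obtain ⟨y, l, hl, s, hsL, e1, e2, e3, e4⟩ := h
  obtain ⟨r1, r2, r3⟩ := ret_unit hG hl
  intro hx
  refine ret_ne hl n ?_
  have h1 : star s * x * s = vx ℤ G y * wd (ed ℤ G) l := by
    have h2 : star s * x * s =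
        (star s * s) * (vx ℤ G y * wd (ed ℤ G) l) * (star s * s) := by
      rw [e4]
      simp only [mul_assoc]
    rw [h2, e2, lb_vX, r3]
  have h2 : star s * (n • p) * s = n • (star s * p * s) := by
    rw [mul_smul_comm, smul_mul_assoc]
  have h3 : star s * p * s = vx ℤ G y := by
    rw [← e1, ← mul_assoc, e2, mul_assoc, e2, vx_vx]
  rw [← h1, hx, h2, h3]

theorem lg_trans {p p' x r : UA ℤ G} (h : LauGen G p x) (hr : r ∈ LP ℤ G)
    (h1 : r * star r = p') (h2 : star r * r = p) (h3 : p' * p' = p') :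
    LauGen G p' (r * x * star r) := by
  obtain ⟨y, l, hl, s, hsL, e1, e2, e3, e4⟩ := h
  refine ⟨y, l, hl, r * s, mul_mem_LP_left _ hsL, ?_, ?_, ?_, ?_⟩
  · have h4 : r * s * star (r * s) = r * (s * star s) * star r := by
      rw [star_mul]
      simp only [mul_assoc]
    rw [h4, e1, ← h2]
    have h5 : r * (star r * r) * star r = (r * star r) * (r * star r) := by
      simp only [mul_assoc]
    rw [h5, h1, h3]
  · have h4 : star (r * s) * (r * s) = star s * (star r * r) * s := by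
      rw [star_mul]
      simp only [mul_assoc]
    rw [h4, h2, ← e1, ← mul_assoc, e2, mul_assoc, e2, vx_vx]
  · rw [mul_assoc, e3]
  · rw [e4, star_mul]
    simp only [mul_assoc]

/-- transport by a unitary -/
theorem lg_unit {p x u : UA ℤ G} (h : LauGen G p x) (h1 : u * star u = 1) (h2 : star u * u = 1) :
    LauGen G (u * p * star u) (u * x * star u) := by
  obtain ⟨y, l, hl, s, hsL, e1, e2, e3, e4⟩ := h
  refine ⟨y, l, hl, u * s, mul_mem_LP_left _ hsL, ?_, ?_, ?_, ?_⟩
  · rw [← e1, star_mul]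
    simp only [mul_assoc]
  · have h4 : star (u * s) * (u * s) = star s * (star u * u) * s := by
      rw [star_mul]
      simp only [mul_assoc]
    rw [h4, h2, mul_one, e2]
  · rw [mul_assoc, e3]
  · rw [e4, star_mul]
    simp only [mul_assoc]

theorem lg_ind (hG : NoExit G) {p x : UA ℤ G} (h : LauGen G p x) (f : ℤ →₀ ℤ)
    (h0 : (f.sum fun n a => a • zp p x n) = 0) : f = 0 := by
  obtain ⟨y, l, hl, s, hsL, e1, e2, e3, e4⟩ := h
  obtain ⟨r1, r2, r3⟩ := ret_unit hG hl
  obtain ⟨r5, r6⟩ := lb_Xv r3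
  have hxs : x * s = s * (vx ℤ G y * wd (ed ℤ G) l) := by
    rw [e4, mul_assoc (s * _), e2, mul_assoc s, r3]
  have hsx : star x = s * star (vx ℤ G y * wd (ed ℤ G) l) * star s := by
    rw [e4, star_mul, star_mul, star_star, mul_assoc]
  have hxs' : star x * s = s * star (vx ℤ G y * wd (ed ℤ G) l) := by
    rw [hsx, mul_assoc (s * _), e2, mul_assoc s, r6]
  have hpow : ∀ a b : UA ℤ G, a * s = s * b → ∀ n : ℕ, a ^ n * s = s * b ^ n := by
    intro a b hab n
    induction n with
    | zero => rw [pow_zero, pow_zero, one_mul, mul_one]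
    | succ n ih => rw [pow_succ, mul_assoc, hab, ← mul_assoc, ih, mul_assoc, ← pow_succ]
  have hps : star s * p * s = vx ℤ G y := by
    rw [← e1, ← mul_assoc, e2, mul_assoc, e2, vx_vx]
  have key : ∀ n : ℤ, star s * zp p x n * s =
      zp (vx ℤ G y) (vx ℤ G y * wd (ed ℤ G) l) n := by
    have key2 : ∀ a b : UA ℤ G, a * s = s * b → ∀ n : ℕ,
        star s * (p * a ^ n) * s = vx ℤ G y * b ^ n := by
      intro a b hab n
      rw [mul_assoc, mul_assoc, hpow a b hab n, ← mul_assoc, ← mul_assoc, hps]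
    intro n
    cases n with
    | ofNat n => exact key2 _ _ hxs n
    | negSucc n => exact key2 _ _ hxs' (n + 1)
  refine cyc_ind (K := ℤ) (G := G) hl.1 hl.2.1 f ?_
  have h1 : star s * (f.sum fun n a => a • zp p x n) * s = 0 := by
    rw [h0, mul_zero, zero_mul]
  rw [Finsupp.mul_sum, Finsupp.sum_mul] at h1
  rw [← h1]
  refine Finsupp.sum_congr fun n _ => ?_
  rw [← key n]
  have h2 : star s * (f n • zp p x n) * s = f n • (star s * zp p x n * s) := by
    rw [mul_smul_comm, smul_mul_assoc]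
  exact h2.symm

theorem lg_star (hG : NoExit G) {y : V} {l : List E} (hl : Ret G y l) :
    LauGen G (vx ℤ G y) (vx ℤ G y * wd (ed ℤ G) l) := by
  obtain ⟨r1, r2, r3⟩ := ret_unit hG hl
  refine ⟨y, l, hl, vx ℤ G y, vx_mem y, ?_, ?_, vx_vx y, ?_⟩
  · rw [star_vx, vx_vx]
  · rw [star_vx, vx_vx]
  · rw [star_vx, lb_vX, r3]

end Pool.Agent.Work.MP_2b4d3b_al.NE
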