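import Pool.Agent.Work.MP_2b4d3b_al.NE.Defs
import Pool.Agent.Work.MP_2b4d3b_al.NE.LauA
import Pool.Agent.Work.MP_2b4d3b_al.NE.RepC
import Pool.Agent.Work.MP_2b4d3b_al.NE.Famil
import Pool.Agent.Work.MP_2b4d3b_al.NE.Loc
import Pool.Agent.Work.MP_2b4d3b_al.NE.SysD
import Pool.Agent.Work.MP_2b4d3b_al.NE.StageInd
import Pool.Agent.Work.MP_2b4d3b_al.NE.NiceS
import Pool.Agent.Work.MP_2b4d3b_al.NE.DynB
import Pool.Agent.Work.MP_2b4d3b_al.NE.Corn
import Pool.Agent.Work.MP_2b4d3b_al.NE.Bas

/-
Uniqueness of the Laurent generator. PROOF. Two data (y, l, s), (y', l', s') for the same p: p = s s* = s' s'*, x = s X s*, x' = s' X' s'*.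
t = s* s' satisfies t t* = s* p s = vx y (p s = s s* s = s), vx y t = t = t vx y' (vx y s* = (s vx y)* = s*). t <> 0 as vx y <> 0.
A stage containing t with y, y' in W (Loc.loc, K = Z, N = univ): vx y = c_i c_i*, vx y' = c_j c_j* with lau (b i), lau (b j), st i = y,
st j = y' (Stg.cyc); t = (c_i c_i*) t (c_j c_j*) = ev (single i i 1 * A * single j j 1) <> 0 with A in BM, so A i j <> 0 and b i = b j. st (b i) is
reachable from y and from y' (rch), so y' reaches y (cyc_rch: st (b i) reaches y). Let g be a path from y' to y, u = vx y' * wd (ed) g: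
u u* = vx y', u* u = vx y (Famil.fam_cyc, fam_wd for fam_LP in a nice subgraph containing y', or the LP relations), X' u = u X where
X' = vx y' wd l' (ret_comm: l' ++ g = g ++ l; fam_wd_mul). Then s* x' s = s* s' X' s'* s = t X' t* = t X' (u u*) t* = t u X u* t* =
(t u) X (t u)*. t u = vx y (t u) vx y and X are in the corner of vx y, which is commutative (cor_comm): = X (t u) (t u)* = X t u u* t* = X t t* = X.
So x' = p x' p = s (s* x' s) s* = s X s* = x.
-/

set_option linter.unusedVariables false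
set_option linter.style.longLine false
set_option linter.unusedSectionVars false

namespace Pool.Agent.Work.MP_2b4d3b_al.NE

universe u v w u' v' w'

open Finset

variable {V : Type v} {E : Type w} {G : Gr V E}

private theorem lu_reach (hG : NoExit G) {y y' : V} (hy : Cyc G y) (hy' : Cyc G y') {t : UA ℤ G}
    (ht : t ∈ LP ℤ G) (h1 : vx ℤ G y * t = t) (h2 : t * vx ℤ G y' = t) (h0 : t ≠ 0) :
    GRch G y' y := by
  classical
  obtain ⟨W, T, σ, st, hN, hW, hB, hA, -⟩ := loc (G := G) ℤ hG (N := Set.univ)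
    (fun e _ => trivial) {y, y'} (fun _ _ => trivial) {t}
    (fun a ha => by
      rw [Finset.mem_singleton.mp ha]
      have : t ∈ (LP ℤ G : Set (UA ℤ G)) := ht
      rwa [LP_eq_Cor] at this) ∅ (fun b hb => absurd hb (Finset.notMem_empty b))
  have hS := bstg_fst hB
  have hyW : y ∈ W := hW (by simp)
  have hyW' : y' ∈ W := hW (by simp)
  obtain ⟨i, hi1, hi2, hi3, -⟩ := hS.cyc y hyW hy
  obtain ⟨j, hj1, hj2, hj3, -⟩ := hS.cyc y' hyW' hy'
  obtain ⟨A, hAB, hAt⟩ := (mem_rng_iff σ.fst).mp (hA t (Finset.mem_singleton_self t))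
  have ei : vx ℤ G y = σ.fst.dg {i} := by
    rw [hi3]
    unfold Sys.dg
    rw [Finset.sum_singleton]
  have ej : vx ℤ G y' = σ.fst.dg {j} := by
    rw [hj3]
    unfold Sys.dg
    rw [Finset.sum_singleton]
  have hb : σ.fst.b i = σ.fst.b j := by
    refine (hAB i j ?_).1
    intro hAij
    apply h0
    have e1 : t = σ.fst.dg {i} * t * σ.fst.dg {j} := by
      rw [← ei, ← ej, h1, h2]
    have hDi := BM_diag (k := ℤ) σ.fst {i}
    have hDj := BM_diag (k := ℤ) σ.fst {j}
    rw [e1, ← hAt, ← ev_diag (k := ℤ) σ.fst {i}, ← ev_diag (k := ℤ) σ.fst {j},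
      ← ev_mul σ.fst hDi hAB, ← ev_mul σ.fst (BM_mul σ.fst hDi hAB) hDj]
    rw [← ev_zero (k := ℤ) σ.fst]
    congr 1
    refine Matrix.ext fun a b => ?_
    rw [Matrix.mul_diagonal, Matrix.diagonal_mul]
    by_cases ha : a = i
    · by_cases hb : b = j
      · have h3 : A a b = 0 := by rw [ha, hb]; exact hAij
        rw [h3, mul_zero, zero_mul]
        rfl
      · have h3 : (if b ∈ ({j} : Finset σ.fst.I) then (1 : LaurentPolynomial ℤ) else 0) = 0 :=
          if_neg (fun hm => hb (Finset.mem_singleton.mp hm))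
        rw [h3, mul_zero]
        rfl
    · have h3 : (if a ∈ ({i} : Finset σ.fst.I) then (1 : LaurentPolynomial ℤ) else 0) = 0 :=
        if_neg (fun hm => ha (Finset.mem_singleton.mp hm))
      rw [h3, zero_mul, zero_mul]
      rfl
  have r1 := hS.rch i
  have r2 := hS.rch j
  rw [hi1] at r1
  rw [hj1, ← hb] at r2
  exact r2.trans (cyc_rch hG hy r1).2

theorem lg_uniq (hG : NoExit G) {p x x' : UA ℤ G} (h : LauGen G p x) (h' : LauGen G p x') :
    x = x' := by
  obtain ⟨y, l, hl, s, hs, hp, hv, hsv, hx⟩ := h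
  obtain ⟨y', l', hl', s', hs', hp', hv', hsv', hx'⟩ := h'
  have hcy := (ret_cyc hl).1
  have hcy' := (ret_cyc hl').1
  have hvs : vx ℤ G y * star s = star s := by
    have := congrArg star hsv
    rwa [star_mul, star_vx] at this
  have hvs' : vx ℤ G y' * star s' = star s' := by
    have := congrArg star hsv'
    rwa [star_mul, star_vx] at this
  -- the element t
  have ht1 : (star s * s') * star (star s * s') = vx ℤ G y := by
    rw [star_mul, star_star]
    calc star s * s' * (star s' * s) = star s * (s' * star s') * s := by noncomm_ring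
      _ = star s * (s * star s) * s := by rw [hp', hp]
      _ = (star s * s) * (star s * s) := by noncomm_ring
      _ = vx ℤ G y := by rw [hv, vx_vx]
  have htL : star s * s' ∈ LP ℤ G := mul_mem_LP_left _ hs'
  have htv : vx ℤ G y * (star s * s') = star s * s' := by rw [← mul_assoc, hvs]
  have htv' : (star s * s') * vx ℤ G y' = star s * s' := by rw [mul_assoc, hsv']
  have ht0 : star s * s' ≠ 0 := by
    intro h0
    rw [h0, zero_mul] at ht1
    have := vx_torsion (K := ℤ) (G := G) y 1 (by rw [← ht1, smul_zero])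
    exact one_ne_zero this
  have hr := lu_reach hG hcy hcy' htL htv htv' ht0
  obtain ⟨g, hg⟩ := rch_iff.mp hr
  -- the family
  obtain ⟨W, T, hN, hW, -⟩ := nice_exists hG (N := Set.univ) (fun e _ => trivial) {y'} ∅
    (fun _ _ => trivial) (fun e he => absurd he (Finset.notMem_empty e))
  have hyW : y' ∈ W := hW (Finset.mem_singleton_self _)
  have hF := fam_LP (G := G) ℤ hN.2.2
  obtain ⟨hgT, hyW2, hu1⟩ := fam_cyc hG hF hN.2.1 hyW hcy' hg
  obtain ⟨-, hu2, hu3⟩ := fam_wd hF hyW hgT hg
  have hlT' := (pth_edges hG hN.2.1 hN.2.2 hyW hcy' (ret_cyc hl').2).1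
  have e1 := fam_wd_mul hF (m := g) hyW hlT' (ret_cyc hl').2
  have e2 := fam_wd_mul hF (m := l) hyW hgT hg
  rw [ret_comm hG hl' hl hg] at e1
  have hXu := e1.trans e2.symm
  obtain ⟨-, -, hX3⟩ := ret_unit hG hl
  obtain ⟨-, -, hX3'⟩ := ret_unit hG hl'
  obtain ⟨u, hu⟩ : ∃ u, u = vx ℤ G y' * wd (ed ℤ G) g := ⟨_, rfl⟩
  obtain ⟨X, hX⟩ : ∃ X, X = vx ℤ G y * wd (ed ℤ G) l := ⟨_, rfl⟩
  obtain ⟨X', hX'⟩ : ∃ X', X' = vx ℤ G y' * wd (ed ℤ G) l' := ⟨_, rfl⟩
  obtain ⟨t, ht⟩ : ∃ t, t = star s * s' := ⟨_, rfl⟩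
  rw [← hu] at hu1 hu2 hu3 hXu
  rw [← hX] at hXu hx hX3
  rw [← hX'] at hXu hx' hX3'
  rw [← ht] at ht1 htL htv htv'
  have hXL : X ∈ LP ℤ G := by
    rw [hX]
    exact mul_mem_LP_right (vx_mem y) _
  have hvX : vx ℤ G y * X = X := by rw [hX, ← mul_assoc, vx_vx]
  -- X' = u X u*
  have c1 : X' = u * X * star u := by
    calc X' = X' * vx ℤ G y' := hX3'.symm
      _ = X' * (u * star u) := by rw [hu1]
      _ = (X' * u) * star u := by rw [mul_assoc]
      _ = u * X * star u := by rw [hXu]
  -- a = t u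
  have ha1 : vx ℤ G y * (t * u) * vx ℤ G y = t * u := by
    rw [← mul_assoc, htv, mul_assoc, hu2]
  have haL : t * u ∈ LP ℤ G := mul_mem_LP_right htL _
  have hXc : vx ℤ G y * X * vx ℤ G y = X := by rw [hvX, hX3]
  have hcomm := cor_comm hG hcy haL hXL
  rw [ha1, hXc] at hcomm
  have haa : (t * u) * star (t * u) = vx ℤ G y := by
    rw [star_mul]
    calc t * u * (star u * star t) = t * (u * star u) * star t := by noncomm_ring
      _ = (t * vx ℤ G y') * star t := by rw [hu1]
      _ = vx ℤ G y := by rw [htv', ht1]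
  have c2 : t * X' * star t = X := by
    calc t * X' * star t = (t * u) * X * (star u * star t) := by rw [c1]; noncomm_ring
      _ = (t * u) * X * star (t * u) := by rw [star_mul]
      _ = X * ((t * u) * star (t * u)) := by rw [hcomm, mul_assoc]
      _ = X := by rw [haa, hX3]
  have hps' : p * s' = s' := by rw [← hp', mul_assoc, hv', hsv']
  have hsp' : star s' * p = star s' := by
    have := congrArg star hps'
    rw [star_mul] at this
    have hpp : star p = p := by rw [← hp, star_mul, star_star]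
    rwa [hpp] at this
  have c3 : x' = s * (star s * x' * s) * star s := by
    calc x' = (p * s') * X' * (star s' * p) := by rw [hps', hsp', hx']
      _ = p * (s' * X' * star s') * p := by noncomm_ring
      _ = (s * star s) * x' * (s * star s) := by rw [← hx', hp]
      _ = s * (star s * x' * s) * star s := by noncomm_ring
  have c4 : star s * x' * s = X := by
    rw [← c2, hx', ht, star_mul, star_star]
    noncomm_ring
  rw [c3, c4, hx]

end Pool.Agent.Work.MP_2b4d3b_al.NE
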