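import Pool.Agent.Work.MP_2b4d3b_al.NE.Defs
import Pool.Agent.Work.MP_2b4d3b_al.NE.StdL
import Pool.Agent.Work.MP_2b4d3b_al.NE.LauB
import Pool.Agent.Work.MP_2b4d3b_al.NE.LauU
import Pool.Agent.Work.MP_2b4d3b_al.NE.StageInd
import Pool.Agent.Work.MP_2b4d3b_al.NE.StageM
import Pool.Agent.Work.MP_2b4d3b_al.NE.HerC

/-
The unitary. Everything in UA Z G; K is only used for Mv. See conj_unit.
-/

set_option linter.unusedVariables false
set_option linter.style.longLine false
set_option linter.unusedSectionVars false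

namespace Pool.Agent.Work.MP_2b4d3b_al.NE

universe u v w u' v' w'

open Finset

section abs

variable {R : Type u} [Ring R] [StarRing R]

/-- the local unitary -/
private theorem unit_alg {R0 t : R} (h1 : R0 * R0 = R0) (h2 : star R0 = R0) (h3 : R0 * t = t)
    (h4 : t * R0 = t) (h5 : t * star t = R0) (h6 : star t * t = R0) :
    (1 + (t - R0)) * star (1 + (t - R0)) = 1 ∧ star (1 + (t - R0)) * (1 + (t - R0)) = 1 := by
  have h7 : R0 * star t = star t := by
    have := congrArg star h4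
    rwa [star_mul, h2] at this
  have h8 : star t * R0 = star t := by
    have := congrArg star h3
    rwa [star_mul, h2] at this
  constructor
  · simp only [star_add, star_sub, star_one, h2]
    have : (1 + (t - R0)) * (1 + (star t - R0)) =
        1 + t + star t + t * star t - t * R0 - R0 * star t + R0 * R0 - R0 - R0 := by noncomm_ring
    rw [this, h1, h4, h5, h7]
    abel
  · simp only [star_add, star_sub, star_one, h2]
    have : (1 + (star t - R0)) * (1 + (t - R0)) =
        1 + t + star t + star t * t - star t * R0 - R0 * t + R0 * R0 - R0 - R0 := by noncomm_ring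
    rw [this, h1, h3, h6, h8]
    abel

variable {σ : Sys R} {d y : σ.I → R}

private theorem lf_dd (h : Lf σ d y) (i j : σ.I) :
    star (d i) * d j = if i = j then d (σ.b i) else 0 := by
  split_ifs with e
  · subst e; exact h.cc i
  · exact h.co i j e

private theorem lf_base (h : Lf σ d y) (i : σ.I) :
    star (d (σ.b i)) = d (σ.b i) ∧ d (σ.b i) * d (σ.b i) = d (σ.b i) := by
  have h1 : star (d (σ.b i)) * d (σ.b i) = d (σ.b i) := by
    have := h.cc (σ.b i)
    rwa [σ.bb] at this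
  have h2 : star (d (σ.b i)) = d (σ.b i) := by
    have := congrArg star h1
    rw [star_mul, star_star] at this
    rw [← this, h1]
  refine ⟨h2, ?_⟩
  rw [h2] at h1
  exact h1

/-- sum of the partial isometries with initial projections d_i and final projections c_i -/
private theorem sum_pi (h : Lf σ d y) {c' y' : σ.I → R} (h' : Lf σ c' y') (J : Finset σ.I)
    (S : σ.I → R) (s1 : ∀ i, S (σ.b i) * star (S (σ.b i)) = c' (σ.b i))
    (s4 : ∀ i, S (σ.b i) * d (σ.b i) = S (σ.b i)) :
    (∑ i ∈ J, c' i * S (σ.b i) * star (d i)) * star (∑ i ∈ J, c' i * S (σ.b i) * star (d i)) =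
      ∑ i ∈ J, c' i * star (c' i) := by
  rw [star_sum, Finset.sum_mul_sum]
  refine Finset.sum_congr rfl fun i hi => ?_
  rw [Finset.sum_eq_single i]
  · have e1 : c' i * S (σ.b i) * star (d i) * star (c' i * S (σ.b i) * star (d i)) =
        c' i * S (σ.b i) * (star (d i) * d i) * star (S (σ.b i)) * star (c' i) := by
      simp only [star_mul, star_star, mul_assoc]
    rw [e1, h.cc, mul_assoc (c' i), s4, mul_assoc (c' i), s1, h'.cb]
  · intro j _ hj
    have e1 : c' i * S (σ.b i) * star (d i) * star (c' j * S (σ.b j) * star (d j)) =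
        c' i * S (σ.b i) * (star (d i) * d j) * star (S (σ.b j)) * star (c' j) := by
      simp only [star_mul, star_star, mul_assoc]
    rw [e1, h.co i j (Ne.symm hj)]
    simp
  · intro hh; exact absurd hi hh

private theorem sum_pi_mul (h : Lf σ d y) {c' : σ.I → R} (J : Finset σ.I) (S : σ.I → R)
    (s4 : ∀ i, S (σ.b i) * d (σ.b i) = S (σ.b i)) {i : σ.I} (hi : i ∈ J) :
    (∑ i ∈ J, c' i * S (σ.b i) * star (d i)) * d i = c' i * S (σ.b i) := by
  rw [Finset.sum_mul, Finset.sum_eq_single i]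
  · rw [mul_assoc, h.cc, mul_assoc, s4]
  · intro j _ hj
    rw [mul_assoc, h.co j i hj, mul_zero]
  · intro hh; exact absurd hi hh

private theorem sum_prj_mul (h : Lf σ d y) (J : Finset σ.I) {i : σ.I} (hi : i ∈ J) :
    (∑ i ∈ J, d i * star (d i)) * d i = d i := by
  rw [Finset.sum_mul, Finset.sum_eq_single i]
  · rw [mul_assoc, h.cc, h.cb]
  · intro j _ hj
    rw [mul_assoc, h.co j i hj, mul_zero]
  · intro hh; exact absurd hi hh

private theorem sum_prj (h : Lf σ d y) (J : Finset σ.I) : IsPrj (∑ i ∈ J, d i * star (d i)) := by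
  constructor
  · nth_rewrite 2 [show (∑ i ∈ J, d i * star (d i)) = ∑ i ∈ J, d i * star (d i) from rfl]
    rw [Finset.mul_sum]
    refine Finset.sum_congr rfl fun i hi => ?_
    rw [← mul_assoc, sum_prj_mul h J hi]
  · rw [star_sum]
    refine Finset.sum_congr rfl fun i _ => ?_
    rw [star_mul, star_star]

end abs

variable {V : Type v} {E : Type w} {G : Gr V E}

private theorem base_s (hG : NoExit G) (K : Type u) [Field K] {N H : Set V} {W : Finset V}
    {T : Finset E} {σ : Sys (UA ℤ G)} {st : σ.I → V}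
    (hs : Stg G W T (vx ℤ G) (ed ℤ G) σ st) {d y : σ.I → UA ℤ G} (hd : CjData K N H σ st d y)
    (o : σ.I) (ho : σ.b o = o) : ∃ s ∈ LP ℤ G, s * star s = σ.c o ∧ star s * s = d o ∧
      σ.c o * s = s ∧ s * d o = s ∧ s * y o * star s = σ.x o ∧ (st o ∈ H → s = σ.c o) := by
  have hc := c_base σ ho
  have hcx : σ.c o * σ.x o = σ.x o := by have := σ.cx o; rwa [ho] at this
  have hxc : σ.x o * σ.c o = σ.x o := by
    have h1 := σ.sx o
    have h2 := σ.xs o
    rw [ho] at h1 h2
    rw [← h1, ← mul_assoc, h2, hcx]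
  have hcu : σ.c o ∈ LP ℤ G := by
    have := (stg_cor hs (N := Set.univ) (fun _ _ => trivial) (i := o) trivial).1
    exact Cor_le_LP this
  by_cases hH : st o ∈ H
  · have e1 : d o = σ.c o := hd.h1 o hH
    have e2 : y o = σ.x o := by
      have := hd.h2 o (by rw [ho]; exact hH)
      rwa [ho] at this
    refine ⟨σ.c o, hcu, ?_, ?_, ?_, ?_, ?_, fun _ => rfl⟩
    · rw [hc.1, hc.2]
    · rw [hc.1, hc.2, e1]
    · exact hc.2
    · rw [e1]; exact hc.2
    · rw [e2, hc.1, hcx, hxc]
  · have hdb := lf_base hd.lf o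
    rw [ho] at hdb
    have hdu : d o ∈ LP ℤ G := Cor_le_LP (hd.dN o).1
    have hm := hd.hm o
    rw [ho] at hm
    obtain ⟨s, hsl, s1, s2, s3, s4⟩ := mv_std hG K hcu hdu ⟨hc.2, hc.1⟩ ⟨hdb.2, hdb.1⟩ hm
    refine ⟨s, hsl, s1, s2, s3, s4, ?_, fun h => absurd h hH⟩
    by_cases hl : σ.lau o
    · have hL := hs.lauB o (by rw [ho]; exact hl)
      rw [ho] at hL
      obtain ⟨hc1, l, hl1, hl2⟩ := hL
      have g1 : LauGen G (σ.c o) (σ.x o) := by
        rw [hc1, hl2]
        exact lg_star hG hl1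
      have g2 : LauGen G (d o) (y o) := by
        have := hd.hl o (by rw [ho]; exact hl)
        rwa [ho] at this
      exact lg_uniq hG (lg_trans g2 hsl s1 s2 hc.2) g1
    · have e1 : y o = d o := by
        have := hd.lf.xl o (by rw [ho]; exact hl)
        rwa [ho] at this
      have e2 : σ.x o = σ.c o := by
        have := σ.xl o (by rw [ho]; exact hl)
        rwa [ho] at this
      rw [e1, s4, s1, e2]

theorem conj_unit (hG : NoExit G) (K : Type u) [Field K] {N H : Set V} (hN : Her G N)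
    (hH : Her G H) (HN : H ⊆ N) {W : Finset V} {T : Finset E} {σ : Sys (UA ℤ G)} {st : σ.I → V}
    (hn : Nice G N W T) (hs : Stg G W T (vx ℤ G) (ed ℤ G) σ st) {d y : σ.I → UA ℤ G}
    (hd : CjData K N H σ st d y) :
    ∃ z ∈ Cor ℤ G (N \ H), (1 + z) * star (1 + z) = 1 ∧ star (1 + z) * (1 + z) = 1 ∧
      ∀ i, (1 + z) * d i * star (1 + z) = σ.c i ∧
        (1 + z) * y (σ.b i) * star (1 + z) = σ.x (σ.b i) := by
  classical
  choose! S S0 S1 S2 S3 S4 S5 S6 using base_s hG K hs hd
  have bb := σ.bb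
  set J : Finset σ.I := Finset.univ.filter fun i => st i ∉ H with hJ
  have mJ : ∀ i, i ∈ J ↔ st i ∉ H := fun i => by simp [hJ]
  set w0 : UA ℤ G := ∑ i ∈ J, σ.c i * S (σ.b i) * star (d i) with hw0
  set Q1 : UA ℤ G := ∑ i ∈ J, σ.c i * star (σ.c i) with hQ1
  set Q0 : UA ℤ G := ∑ i ∈ J, d i * star (d i) with hQ0
  have s4 : ∀ i, S (σ.b i) * d (σ.b i) = S (σ.b i) := fun i => S4 _ (bb i)
  have s1 : ∀ i, S (σ.b i) * star (S (σ.b i)) = σ.c (σ.b i) := fun i => S1 _ (bb i)
  have s2 : ∀ i, star (S (σ.b i)) * star (star (S (σ.b i))) = d (σ.b i) := fun i => by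
    rw [star_star]; exact S2 _ (bb i)
  have s3 : ∀ i, star (S (σ.b i)) * σ.c (σ.b i) = star (S (σ.b i)) := fun i => by
    have := congrArg star (S3 _ (bb i))
    rwa [star_mul, (c_base σ (bb i)).1] at this
  have w1 : w0 * star w0 = Q1 := sum_pi hd.lf σ.lf J S s1 s4
  have w0s : star w0 = ∑ i ∈ J, d i * (fun i => star (S i)) (σ.b i) * star (σ.c i) := by
    rw [hw0, star_sum]
    refine Finset.sum_congr rfl fun i _ => ?_
    simp only [star_mul, star_star, mul_assoc]
  have w2 : star w0 * w0 = Q0 := by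
    have := sum_pi σ.lf hd.lf J (fun i => star (S i)) s2 s3
    rw [← w0s, star_star] at this
    exact this
  have pQ1 : IsPrj Q1 := sum_prj σ.lf J
  have pQ0 : IsPrj Q0 := sum_prj hd.lf J
  have cQ1 : Q1 ∈ Cor ℤ G (N \ H) := by
    refine Cor_sum _ _ fun i hi => stg_cor_prj hs ?_
    exact ⟨hn.1 _ (hs.stW i), (mJ i).1 hi⟩
  have cQ0 : Q0 ∈ Cor ℤ G (N \ H) := by
    refine Cor_sum _ _ fun i hi => ?_
    rw [Set.sdiff_eq]
    exact Cor_inter.2 ⟨Cor_mul (hd.dN i).1 (Cor_star (hd.dN i).1), hd.hd i ((mJ i).1 hi)⟩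
  obtain ⟨W1, hW1, hW1'⟩ := Cor_fin ({Q1, Q0} : Finset (UA ℤ G)) (N := N \ H) (by
    intro a ha
    simp only [Finset.mem_insert, Finset.mem_singleton] at ha
    rcases ha with rfl | rfl
    · exact cQ1
    · exact cQ0)
  set R0 : UA ℤ G := eW ℤ G W1 with hR0
  have r1 : R0 * R0 = R0 := eW_mul_self W1
  have r2 : star R0 = R0 := eW_star W1
  have rQ1 : R0 * Q1 = Q1 := (hW1' Q1 (by simp)).1
  have rQ0 : R0 * Q0 = Q0 := (hW1' Q0 (by simp)).1
  have rQ1' : Q1 * R0 = Q1 := (hW1' Q1 (by simp)).2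
  have rQ0' : Q0 * R0 = Q0 := (hW1' Q0 (by simp)).2
  have lw0 : w0 ∈ LP ℤ G := by
    refine sum_mem fun i _ => ?_
    exact mul_mem_LP_left _ (star_mem_LP (Cor_le_LP (hd.dN i).1))
  have mvZ : Mv (LP ℤ G : Set (UA ℤ G)) Q1 Q0 :=
    Mv_star (fun a ha b => ⟨mul_mem_LP_right ha b, mul_mem_LP_left b ha⟩)
      (fun a ha => star_mem_LP ha) pQ1 pQ0 lw0 w1 w2
  have mvK : Mv (LP K G : Set (UA K G)) (io K G Q1) (io K G Q0) :=
    Mv_map (io K G).toRingHom (fun a ha => io_mem ha) mvZ
  obtain ⟨w', lw', v1, v2, v3, v4⟩ := mv_cancel hG K (eW_mem_LP W1) (Cor_le_LP cQ1)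
    (Cor_le_LP cQ0) ⟨r1, r2⟩ pQ1 pQ0 rQ1 rQ0 mvK
  -- relations of w0
  have q1w : Q1 * w0 = w0 := by
    rw [hw0, Finset.mul_sum]
    refine Finset.sum_congr rfl fun i hi => ?_
    rw [← mul_assoc, ← mul_assoc, sum_prj_mul σ.lf J hi]
  have wq0 : w0 * Q0 = w0 := by
    rw [← w2, ← mul_assoc, w1, q1w]
  have rw0 : R0 * w0 = w0 := by rw [← q1w, ← mul_assoc, rQ1]
  have w0r : w0 * R0 = w0 := by rw [← wq0, mul_assoc, rQ0']
  have rw' : R0 * w' = w' := by
    rw [← v3, ← mul_assoc, mul_sub, r1, rQ1]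
  have w'r : w' * R0 = w' := by
    rw [← v4, mul_assoc, sub_mul, r1, rQ0']
  -- cross terms
  have x1 : w0 * star w' = 0 := by
    have : star w' = (R0 - Q0) * star w' := by
      have := congrArg star v4
      rw [star_mul, star_sub, r2, pQ0.2] at this
      exact this.symm
    rw [this, ← mul_assoc, mul_sub, w0r, wq0, sub_self, zero_mul]
  have x2 : w' * star w0 = 0 := by
    have := congrArg star x1
    rwa [star_mul, star_star, star_zero] at this
  have x3 : star w0 * w' = 0 := by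
    have e : star w0 * Q1 = star w0 := by
      have := congrArg star q1w
      rwa [star_mul, pQ1.2] at this
    have e' : star w0 * R0 = star w0 := by
      have := congrArg star rw0
      rwa [star_mul, r2] at this
    rw [← v3, ← mul_assoc, mul_sub, e', e, sub_self, zero_mul]
  have x4 : star w' * w0 = 0 := by
    have := congrArg star x3
    rwa [star_mul, star_star, star_zero] at this
  set t : UA ℤ G := w0 + w' with ht
  have t1 : t * star t = R0 := by
    rw [ht, star_add, add_mul, mul_add, mul_add, w1, x1, x2, v1]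
    abel
  have t2 : star t * t = R0 := by
    rw [ht, star_add, add_mul, mul_add, mul_add, w2, x3, x4, v2]
    abel
  have t3 : R0 * t = t := by rw [ht, mul_add, rw0, rw']
  have t4 : t * R0 = t := by rw [ht, add_mul, w0r, w'r]
  obtain ⟨u1, u2⟩ := unit_alg r1 r2 t3 t4 t1 t2
  have cR0 : R0 ∈ Cor ℤ G (N \ H) := eW_mem_Cor hW1
  have cz : t - R0 ∈ Cor ℤ G (N \ H) := by
    rw [sub_eq_add_neg]
    refine Cor_add ?_ (Cor_neg cR0)
    have : t = R0 * t * R0 := by rw [t3, t4]
    rw [this]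
    exact Cor_mid cR0 t cR0
  refine ⟨t - R0, cz, u1, u2, ?_⟩
  set z : UA ℤ G := t - R0 with hz
  have dis : Disjoint (N \ H) H := Set.disjoint_sdiff_left
  -- the action on d i, i in J
  have act : ∀ i ∈ J, (1 + z) * d i = σ.c i * S (σ.b i) := by
    intro i hi
    have q0d : Q0 * d i = d i := sum_prj_mul hd.lf J hi
    have r0d : R0 * d i = d i := by rw [← q0d, ← mul_assoc, rQ0]
    have w0d : w0 * d i = σ.c i * S (σ.b i) := sum_pi_mul hd.lf J S s4 hi
    have w'd : w' * d i = 0 := by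
      rw [← v4, mul_assoc, sub_mul, r0d, q0d, sub_self, mul_zero]
    rw [hz, ht]
    have : (1 + (w0 + w' - R0)) * d i = d i + (w0 * d i + w' * d i - R0 * d i) := by
      rw [add_mul, sub_mul, add_mul, one_mul]
    rw [this, w0d, w'd, r0d]
    abel
  have actH : ∀ a ∈ Cor ℤ G H, (1 + z) * a = a ∧ a * star (1 + z) = a := by
    intro a ha
    constructor
    · rw [add_mul, one_mul, Cor_disj dis cz ha, add_zero]
    · rw [star_add, star_one, mul_add, mul_one, Cor_disj dis.symm ha (Cor_star cz), add_zero]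
  have hbH : ∀ i, st i ∈ H → st (σ.b i) ∈ H := fun i hi => her_rch hH hi (hs.rch i)
  intro i
  have hdb := lf_base hd.lf i
  have hcb := c_base σ (bb i)
  by_cases hb : st (σ.b i) ∈ H
  · have e1 : d (σ.b i) = σ.c (σ.b i) := hd.h1 _ hb
    have cH := stg_cor hs hH (i := σ.b i) hb
    rw [bb] at cH
    have e2 : d i * star (1 + z) = d i := by
      have h1 := (actH _ cH.1).2
      have h2 : d i = d i * σ.c (σ.b i) := by rw [← e1, hd.lf.cb]
      rw [h2, mul_assoc, h1]
    constructor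
    · rw [mul_assoc, e2]
      by_cases hi : st i ∈ H
      · rw [hd.h1 i hi]
        exact (actH _ (stg_cor hs hH hi).1).1
      · rw [act i ((mJ i).2 hi), S6 _ (bb i) hb, σ.cb]
    · rw [hd.h2 i hb, (actH _ cH.2).1, (actH _ cH.2).2]
  · have hbJ : σ.b i ∈ J := (mJ _).2 hb
    have hiJ : i ∈ J := (mJ _).2 fun h => hb (hbH i h)
    have a1 := act i hiJ
    have a2 := act (σ.b i) hbJ
    rw [bb] at a2
    rw [S3 _ (bb i)] at a2
    have a3 : d (σ.b i) * star (1 + z) = star (S (σ.b i)) := by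
      have := congrArg star a2
      rwa [star_mul, hdb.1] at this
    constructor
    · have : d i = d i * d (σ.b i) := (hd.lf.cb i).symm
      rw [this, ← mul_assoc, a1, mul_assoc, a3, mul_assoc, s1, σ.cb]
    · have hy1 : d (σ.b i) * y (σ.b i) = y (σ.b i) := hd.lf.cx i
      have hy2 : y (σ.b i) * d (σ.b i) = y (σ.b i) := by
        rw [← hd.lf.sx i, ← mul_assoc, hd.lf.xs i, hy1]
      have : y (σ.b i) = d (σ.b i) * y (σ.b i) * d (σ.b i) := by rw [hy1, hy2]
      rw [this, ← mul_assoc, ← mul_assoc, a2, mul_assoc _ (d (σ.b i)), a3]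
      exact S5 _ (bb i)

end Pool.Agent.Work.MP_2b4d3b_al.NE
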