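import Pool.Agent.Work.MP_2b4d3b_al.NE.Defs
import Pool.Agent.Work.MP_2b4d3b_al.NE.EqfB

/-
Exchange of the two sides. PROOF. good_sw: Good.eq for sw: (q, p) in sw S, q a projection: p is a projection too (star and square of
(p, q): uniqueness by z1), so Eqf Φ p q by eq, then eqf_swap. All other clauses are symmetric. sw (sw S) = S by ext. cor_compl: let (a, b) in
Φ; a in Cor K1 G (N \ H) iff a in Cor N and a is killed on both sides by vx x, x in H (mem_Cor_iff). If so: for z in H', (r, vx z) in Φ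
for some r, r in Cor K1 G H by fH, so r a = 0 (r = r e, e = eW W, W in H) and (0, vx z * b) in Φ, so vx z * b = 0; likewise b * vx z = 0;
b in Cor M by fN; so b in Cor (M \ H'). Conversely by symmetry.
-/

set_option linter.unusedVariables false
set_option linter.style.longLine false
set_option linter.unusedSectionVars false

namespace Pool.Agent.Work.MP_2b4d3b_al.NE

universe u v w u' v' w'

open Finset

variable {K₁ : Type u} [Field K₁] {K₂ : Type u'} [Field K₂] {V : Type v} {E : Type w}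
  {V' : Type v'} {E' : Type w'} {G : Gr V E} {F : Gr V' E'}
  {Φ : NonUnitalSubring (UA K₁ G × UA K₂ F)} {N H : Set V} {M H' : Set V'}
  {S0 : NonUnitalSubring (UA ℤ G × UA ℤ F)}

theorem sw_sw {A : Type u} {B : Type u'} [NonUnitalNonAssocRing A] [NonUnitalNonAssocRing B]
    (S : NonUnitalSubring (A × B)) : sw (sw S) = S := by
  ext ⟨a, b⟩
  exact Iff.rfl

private theorem mem_sw {A : Type u} {B : Type u'} [NonUnitalNonAssocRing A]
    [NonUnitalNonAssocRing B] {S : NonUnitalSubring (A × B)} {a : A} {b : B} :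
    (b, a) ∈ sw S ↔ (a, b) ∈ S := Iff.rfl

theorem good_sw (iso : GIso Φ (LP K₁ G : Set (UA K₁ G)) (LP K₂ F : Set (UA K₂ F)))
    {S : NonUnitalSubring (UA ℤ G × UA ℤ F)} (h : Good Φ S) : Good (sw Φ) (sw S) where
  mL a b hab := ⟨(h.mL b a hab).2, (h.mL b a hab).1⟩
  st a b hab := h.st b a hab
  z1 a ha := h.z2 a ha
  z2 b hb := h.z1 b hb
  eq p q hpq hp := by
    have hS : (q, p) ∈ S := hpq
    have e1 : q * q = q := by
      have h1 : (q * q - q, (0 : UA ℤ F)) ∈ S := by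
        have h2 := S.sub_mem (S.mul_mem hS hS) hS
        have h3 : (q, p) * (q, p) - (q, p) = (q * q - q, (0 : UA ℤ F)) := by
          rw [Prod.mk_mul_mk, Prod.mk_sub_mk, hp.1, sub_self]
        rwa [h3] at h2
      exact sub_eq_zero.1 (h.z1 _ h1)
    have e2 : star q = q := by
      have h1 : (star q - q, (0 : UA ℤ F)) ∈ S := by
        have h2 := S.sub_mem (h.st _ _ hS) hS
        have h3 : (star q, star p) - (q, p) = (star q - q, (0 : UA ℤ F)) := by
          rw [Prod.mk_sub_mk, hp.2, sub_self]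
        rwa [h3] at h2
      exact sub_eq_zero.1 (h.z1 _ h1)
    exact eqf_swap iso (h.mL q p hS).2 (h.eq q p hS ⟨e1, e2⟩)
  lg p q x y hpq hxy := (h.lg q p y x hpq hxy).symm

theorem cpt_sw {S : NonUnitalSubring (UA ℤ G × UA ℤ F)} (h : Cpt H H' S0 S) :
    Cpt H' H (sw S0) (sw S) where
  c1 a b hab ha := h.c2 b a hab ha
  c2 a b hab hb := h.c1 b a hab hb
  c3 a b hab := (h.c3 b a hab).symm

theorem rel4_sw (h : Rel4 Φ N H M H' S0) : Rel4 (sw Φ) M H' N H (sw S0) where
  nG := h.nF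
  nF := h.nG
  iso := giso_sw h.iso
  hN := h.hM
  hH := h.hH'
  hM := h.hN
  hH' := h.hH
  HN := h.HM
  HM := h.HN
  fN a b hab := (h.fN b a hab).symm
  fH a b hab := (h.fH b a hab).symm
  good := good_sw h.iso h.good
  isoS := giso_sw h.isoS

private theorem cor_compl_aux (h : Rel4 Φ N H M H' S0) {a : UA K₁ G} {b : UA K₂ F}
    (hab : (a, b) ∈ Φ) (ha : a ∈ Cor K₁ G (N \ H)) : b ∈ Cor K₂ F (M \ H') := by
  have hbM : b ∈ Cor K₂ F M := (h.fN a b hab).1 (Cor_mono Set.sdiff_subset ha)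
  rw [mem_Cor_iff]
  refine ⟨Cor_le_LP hbM, fun x hx => ?_⟩
  by_cases hxM : x ∈ M
  · have hxH : x ∈ H' := by
      by_contra hn
      exact hx ⟨hxM, hn⟩
    have hv : vx K₂ F x ∈ Cor K₂ F H' := vx_mem_Cor hxH
    obtain ⟨r, hr⟩ := h.iso.t2 (vx K₂ F x) (vx_mem x)
    have hrH : r ∈ Cor K₁ G H := (h.fH r _ hr).2 hv
    have hd : Disjoint H (N \ H) := Set.disjoint_sdiff_right
    have h1 : r * a = 0 := Cor_disj hd hrH ha
    have h2 : a * r = 0 := Cor_disj hd.symm ha hrH
    constructor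
    · have h3 := Φ.mul_mem hr hab
      rw [Prod.mk_mul_mk, h1] at h3
      exact h.iso.z2 _ h3
    · have h3 := Φ.mul_mem hab hr
      rw [Prod.mk_mul_mk, h2] at h3
      exact h.iso.z2 _ h3
  · exact (mem_Cor_iff.1 hbM).2 x hxM

theorem cor_compl (h : Rel4 Φ N H M H' S0) {a : UA K₁ G} {b : UA K₂ F} (hab : (a, b) ∈ Φ) :
    a ∈ Cor K₁ G (N \ H) ↔ b ∈ Cor K₂ F (M \ H') :=
  ⟨cor_compl_aux h hab, cor_compl_aux (rel4_sw h) (mem_sw.2 hab)⟩

end Pool.Agent.Work.MP_2b4d3b_al.NE
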