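import Pool.Agent.Work.MP_2b4d3b_al.NE.Defs
import Pool.Agent.Work.MP_2b4d3b_al.NE.StageInd
import Pool.Agent.Work.MP_2b4d3b_al.NE.StageM
import Pool.Agent.Work.MP_2b4d3b_al.NE.SwL
import Pool.Agent.Work.MP_2b4d3b_al.NE.LauB

/-
The second copy of the system. PROOF. For every i let (c_i, b_i) in S (dS': c_i in A) and (d_i, b_i) in S1 (h12); for bases o = b i let
(x_o, z_o) in S and (y_o, z_o) in S1 (for other indices let y i = d i; y only matters at bases). S and S1 are injective in both directions, so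
every relation between the c, x (products, stars) holds for the b, z (z2 of S) and then for the d, y (z1 of S1). E.g. star (d i) * d i - d (b i)
is paired in S1 with star (b_i) * b_i - b_(b i), which is paired in S with 0. So Lf σ d y (for cb, cx etc. the same). dN by d1.
h1: st i in H: c_i in Cor H (stg_cor), so (c_i, b_i) in S0 (cS.c1), b_i in Cor H' (isoS.m2), so (d_i, b_i) in S0 (cS1.c2), d_i = c_i (good.z1).
h2: the same for x_o, y_o. hd: st i not in H: c_i c_i* in Cor (H compl) (stg_cor_prj), so b_i b_i* in Cor (H' compl) (cS.c3), d_i d_i* in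
Cor (H compl) (cS1.c3). hm: Eqf Φ c_o b_o (hS.eq, c_o projection by c_base), Eqf Φ d_o b_o (hS1.eq): eqf_uniq_left (b_o in LP by hS.mL).
hl: LauGen G c_o x_o (Stg.lauB, lg_star), LauGen F b_o z_o (hS.lg), LauGen G d_o y_o (hS1.lg).
-/

set_option linter.unusedVariables false
set_option linter.style.longLine false
set_option linter.unusedSectionVars false

namespace Pool.Agent.Work.MP_2b4d3b_al.NE

universe u v w u' v' w'

open Finset

variable {K₁ : Type u} [Field K₁] {K₂ : Type u'} [Field K₂] {V : Type v} {E : Type w}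
  {V' : Type v'} {E' : Type w'} {G : Gr V E} {F : Gr V' E'}
  {Φ : NonUnitalSubring (UA K₁ G × UA K₂ F)} {N H : Set V} {M H' : Set V'}
  {S0 : NonUnitalSubring (UA ℤ G × UA ℤ F)}

private theorem cb_uniq {S : NonUnitalSubring (UA ℤ G × UA ℤ F)} (hS : Good Φ S)
    {a : UA ℤ G} {b b' : UA ℤ F} (h : (a, b) ∈ S) (h' : (a, b') ∈ S) : b = b' := by
  have h1 := S.sub_mem h h'
  rw [Prod.mk_sub_mk, sub_self] at h1
  exact sub_eq_zero.mp (hS.z2 _ h1)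

private theorem cb_uniq_left {S : NonUnitalSubring (UA ℤ G × UA ℤ F)} (hS : Good Φ S)
    {a a' : UA ℤ G} {b : UA ℤ F} (h : (a, b) ∈ S) (h' : (a', b) ∈ S) : a = a' := by
  have h1 := S.sub_mem h h'
  rw [Prod.mk_sub_mk, sub_self] at h1
  exact sub_eq_zero.mp (hS.z1 _ h1)

/-- the pairs related through S and S1 -/
private def CbR (S S1 : NonUnitalSubring (UA ℤ G × UA ℤ F)) (a a' : UA ℤ G) : Prop :=
  ∃ b, (a, b) ∈ S ∧ (a', b) ∈ S1

private theorem cb_fun {S S1 : NonUnitalSubring (UA ℤ G × UA ℤ F)} (hS : Good Φ S)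
    (hS1 : Good Φ S1) {a a1 a2 : UA ℤ G} (h1 : CbR S S1 a a1) (h2 : CbR S S1 a a2) : a1 = a2 := by
  obtain ⟨b, h3, h4⟩ := h1
  obtain ⟨b', h5, h6⟩ := h2
  have h7 := cb_uniq hS h3 h5
  rw [← h7] at h6
  exact cb_uniq_left hS1 h4 h6

private theorem cb_mul {S S1 : NonUnitalSubring (UA ℤ G × UA ℤ F)} {a a' b b' : UA ℤ G}
    (h1 : CbR S S1 a a') (h2 : CbR S S1 b b') : CbR S S1 (a * b) (a' * b') := by
  obtain ⟨c, h3, h4⟩ := h1
  obtain ⟨c', h5, h6⟩ := h2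
  exact ⟨c * c', S.mul_mem h3 h5, S1.mul_mem h4 h6⟩

private theorem cb_star {S S1 : NonUnitalSubring (UA ℤ G × UA ℤ F)} (hS : Good Φ S)
    (hS1 : Good Φ S1) {a a' : UA ℤ G} (h1 : CbR S S1 a a') : CbR S S1 (star a) (star a') := by
  obtain ⟨c, h3, h4⟩ := h1
  exact ⟨star c, hS.st _ _ h3, hS1.st _ _ h4⟩

private theorem cb_zero (S S1 : NonUnitalSubring (UA ℤ G × UA ℤ F)) : CbR S S1 0 0 :=
  ⟨0, S.zero_mem, S1.zero_mem⟩

theorem conj_data (h : Rel4 Φ N H M H' S0) {W : Finset V} {T : Finset E} {σ : Sys (UA ℤ G)}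
    {st : σ.I → V} (hn : Nice G N W T) (hs : Stg G W T (vx ℤ G) (ed ℤ G) σ st)
    {S S1 : NonUnitalSubring (UA ℤ G × UA ℤ F)} (hS : Good Φ S) (cS : Cpt H H' S0 S)
    (dS' : ∀ a ∈ σ.rng, ∃ b, (a, b) ∈ S) (hS1 : Good Φ S1)
    (cS1 : Cpt H H' S0 S1) (d1 : ∀ a b, (a, b) ∈ S1 → a ∈ Cor ℤ G N)
    (h12 : ∀ a b, (a, b) ∈ S → ∃ a', (a', b) ∈ S1) :
    ∃ d y : σ.I → UA ℤ G, CjData K₁ N H σ st d y ∧
      (∀ i, ∃ b, (σ.c i, b) ∈ S ∧ (d i, b) ∈ S1) ∧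
      ∀ i, ∃ b, (σ.x (σ.b i), b) ∈ S ∧ (y (σ.b i), b) ∈ S1 := by
  have hc : ∀ i, σ.c i ∈ σ.rng := fun i => NonUnitalSubring.subset_closure ⟨i, Or.inl rfl⟩
  have hx : ∀ i, σ.x (σ.b i) ∈ σ.rng := fun i =>
    NonUnitalSubring.subset_closure ⟨i, Or.inr (Or.inr (Or.inl rfl))⟩
  choose β hβ using fun i => dS' _ (hc i)
  choose d hd using fun i => h12 _ _ (hβ i)
  choose ζ hζ using fun i => dS' _ (hx i)
  choose y hy using fun i => h12 _ _ (hζ i)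
  have hζb : ∀ i, (σ.x (σ.b i), ζ (σ.b i)) ∈ S := by
    intro i
    have h1 := hζ (σ.b i)
    rw [σ.bb] at h1
    exact h1
  have rc : ∀ i, CbR S S1 (σ.c i) (d i) := fun i => ⟨β i, hβ i, hd i⟩
  have rx : ∀ i, CbR S S1 (σ.x (σ.b i)) (y (σ.b i)) := fun i => ⟨ζ (σ.b i), hζb i, hy (σ.b i)⟩
  have fn : ∀ {a a1 a2 : UA ℤ G}, CbR S S1 a a1 → CbR S S1 a a2 → a1 = a2 :=
    fun h1 h2 => cb_fun hS hS1 h1 h2
  have rs : ∀ {a a' : UA ℤ G}, CbR S S1 a a' → CbR S S1 (star a) (star a') :=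
    fun h1 => cb_star hS hS1 h1
  have fH : ∀ {a a' : UA ℤ G}, CbR S S1 a a' → a ∈ Cor ℤ G H → a' = a := by
    rintro a a' ⟨b, h1, h2⟩ ha
    have h3 := cS.c1 _ _ h1 ha
    have h4 := h.isoS.m2 _ _ h3
    have h5 := cS1.c2 _ _ h2 h4
    exact (giso_uniq (a := a') (a' := a) (b := b) (b' := b) h.isoS).2 h5 h3
  have hcs : ∀ i, IsPrj (σ.c (σ.b i)) := fun i =>
    ⟨(c_base σ (σ.bb i)).2, (c_base σ (σ.bb i)).1⟩
  have hds : ∀ i, IsPrj (d (σ.b i)) := by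
    intro i
    constructor
    · have h1 := cb_mul (rc (σ.b i)) (rc (σ.b i))
      rw [(hcs i).1] at h1
      exact fn h1 (rc (σ.b i))
    · have h1 := rs (rc (σ.b i))
      rw [(hcs i).2] at h1
      exact fn h1 (rc (σ.b i))
  refine ⟨d, y, ⟨⟨?_, ?_, ?_, ?_, ?_, ?_, ?_⟩, ?_, ?_, ?_, ?_, ?_, ?_⟩, fun i => ⟨β i, hβ i, hd i⟩,
    fun i => ⟨ζ (σ.b i), hζb i, hy (σ.b i)⟩⟩
  · intro i
    have h1 := cb_mul (rs (rc i)) (rc i)
    rw [σ.cc] at h1
    exact fn h1 (rc (σ.b i))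
  · intro i j hij
    have h1 := cb_mul (rs (rc i)) (rc j)
    rw [σ.co i j hij] at h1
    exact fn h1 (cb_zero S S1)
  · intro i
    have h1 := cb_mul (rc i) (rc (σ.b i))
    rw [σ.cb] at h1
    exact fn h1 (rc i)
  · intro i
    have h1 := cb_mul (rc (σ.b i)) (rx i)
    rw [σ.cx] at h1
    exact fn h1 (rx i)
  · intro i
    have h1 := cb_mul (rx i) (rs (rx i))
    rw [σ.xs] at h1
    exact fn h1 (rc (σ.b i))
  · intro i
    have h1 := cb_mul (rs (rx i)) (rx i)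
    rw [σ.sx] at h1
    exact fn h1 (rc (σ.b i))
  · intro i hi
    have h1 := rx i
    rw [σ.xl i hi] at h1
    exact fn h1 (rc (σ.b i))
  · intro i
    exact ⟨d1 _ _ (hd i), d1 _ _ (hy (σ.b i))⟩
  · intro i hi
    exact fH (rc i) (stg_cor hs h.hH hi).1
  · intro i hi
    have h1 := (stg_cor hs h.hH hi).2
    rw [σ.bb] at h1
    exact fH (rx i) h1
  · intro i hi
    have h1 : σ.c i * star (σ.c i) ∈ Cor ℤ G Hᶜ := stg_cor_prj hs hi
    obtain ⟨b, h2, h3⟩ := cb_mul (rc i) (rs (rc i))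
    exact (cS1.c3 _ _ h3).2 ((cS.c3 _ _ h2).1 h1)
  · intro i
    exact eqf_uniq_left h.iso (hS.mL _ _ (hβ (σ.b i))).2
      (hS.eq _ _ (hβ (σ.b i)) (hcs i)) (hS1.eq _ _ (hd (σ.b i)) (hds i))
  · intro i hi
    obtain ⟨h1, l, hl, h2⟩ := hs.lauB i hi
    have h3 : LauGen G (σ.c (σ.b i)) (σ.x (σ.b i)) := by
      rw [h1, h2]
      exact lg_star h.nG hl
    have h4 := (hS.lg _ _ _ _ (hβ (σ.b i)) (hζb i)).1 h3
    exact (hS1.lg _ _ _ _ (hd (σ.b i)) (hy (σ.b i))).2 h4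

end Pool.Agent.Work.MP_2b4d3b_al.NE
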