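import Pool.Agent.Work.MP_2b4d3b_al.NE.Defs
import Pool.Agent.Work.MP_2b4d3b_al.NE.SwL
import Pool.Agent.Work.MP_2b4d3b_al.NE.LauB

/-
Conjugation of a good partial isomorphism by a unitary u = 1 + z, z in Cor (N \ H).
PROOF. S' = {(a, b) | (u* a u, b) in S1} (explicit carrier; closed under products since u u* = 1: u* a u u* a' u = u* a a' u).
Good: mL: a = u (u* a u) u* is in LP (ideal), st, z1 (u* a u = 0 gives a = 0), z2; eq: (p', q) in S', p' a projection: p = u* p' u is a
projection, Eqf Φ p q, and t = u p in LP: t t* = p', t* t = p: eqf_eqv with s = q (q a projection: by injectivity of S1, z2).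
lg: (p', q), (x', y) in S': p = u* p' u, x = u* x' u: LauGen G p x iff LauGen G p' x' (lg_unit for u and for star u), then hS1.lg.
Cpt: for a in Cor H: z a = 0 = a z, z* a = 0 = a z* (Cor_disj), so u a u* = a = u* a u. c1: a in Cor H: u* a u = a, (a, b) in S1, c1. c2: (u* a u, b) in
S1 with b in Cor H': (u* a u, b) in S0, so u* a u in Cor H (isoS.m1) and a = u (u* a u) u* = u* a u, (a, b) in S0. c3: a in Cor (H compl) iff
u* a u in Cor (H compl) (z in Cor (N \ H), contained in Cor (H compl); (1 + z) a (1 + z)* expands in products). Cor N: z in Cor N.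
-/

set_option linter.unusedVariables false
set_option linter.style.longLine false
set_option linter.unusedSectionVars false

namespace Pool.Agent.Work.MP_2b4d3b_al.NE

universe u v w u' v' w'

open Finset

variable {K₁ : Type u} [Field K₁] {K₂ : Type u'} [Field K₂] {V : Type v} {E : Type w}
  {V' : Type v'} {E' : Type w'} {G : Gr V E} {F : Gr V' E'}
  {Φ : NonUnitalSubring (UA K₁ G × UA K₂ F)} {N H : Set V} {M H' : Set V'}
  {S0 : NonUnitalSubring (UA ℤ G × UA ℤ F)}

private theorem cc_neg {R : Type u} [Ring R] (a b c : R) : a * (-b) * c = -(a * b * c) := by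
  rw [mul_neg, neg_mul]

private theorem cc_conj {M1 : Set V} {z a : UA ℤ G} (hz : z ∈ Cor ℤ G M1)
    (ha : a ∈ Cor ℤ G M1) : (1 + z) * a * star (1 + z) ∈ Cor ℤ G M1 := by
  have e : (1 + z) * a * star (1 + z) = a + z * a + (a * star z + z * a * star z) := by
    rw [star_add, star_one, add_mul, one_mul, mul_add, mul_one, add_mul]
  rw [e]
  exact Cor_add (Cor_add ha (Cor_mul hz ha))
    (Cor_add (Cor_mul ha (Cor_star hz)) (Cor_mul (Cor_mul hz ha) (Cor_star hz)))

private theorem cc_conj' {M1 : Set V} {z a : UA ℤ G} (hz : z ∈ Cor ℤ G M1)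
    (ha : a ∈ Cor ℤ G M1) : star (1 + z) * a * (1 + z) ∈ Cor ℤ G M1 := by
  have h1 := cc_conj (Cor_star hz) ha
  have e1 : (1 : UA ℤ G) + star z = star (1 + z) := by rw [star_add, star_one]
  rw [e1, star_star] at h1
  exact h1

private theorem cc_triv {M1 M2 : Set V} (hd : Disjoint M1 M2) {z a : UA ℤ G}
    (hz : z ∈ Cor ℤ G M1) (ha : a ∈ Cor ℤ G M2) :
    (1 + z) * a * star (1 + z) = a ∧ star (1 + z) * a * (1 + z) = a := by
  have h1 : z * a = 0 := Cor_disj hd hz ha
  have h2 : a * z = 0 := Cor_disj hd.symm ha hz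
  have h3 : star z * a = 0 := Cor_disj hd (Cor_star hz) ha
  have h4 : a * star z = 0 := Cor_disj hd.symm ha (Cor_star hz)
  constructor
  · rw [star_add, star_one, add_mul, one_mul, h1, add_zero, mul_add, mul_one, h4, add_zero]
  · rw [star_add, star_one, add_mul, one_mul, h3, add_zero, mul_add, mul_one, h2, add_zero]

private theorem cc_prj {S1 : NonUnitalSubring (UA ℤ G × UA ℤ F)} (hS1 : Good Φ S1)
    {p : UA ℤ G} {q : UA ℤ F} (hp : IsPrj p) (h : (p, q) ∈ S1) : IsPrj q := by
  constructor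
  · have h1 : (p * p, q * q) ∈ S1 := S1.mul_mem h h
    rw [hp.1] at h1
    have h2 : ((p, q * q) : UA ℤ G × UA ℤ F) - (p, q) ∈ S1 := S1.sub_mem h1 h
    rw [Prod.mk_sub_mk, sub_self] at h2
    exact sub_eq_zero.1 (hS1.z2 _ h2)
  · have h1 := hS1.st _ _ h
    rw [hp.2] at h1
    have h2 : ((p, star q) : UA ℤ G × UA ℤ F) - (p, q) ∈ S1 := S1.sub_mem h1 h
    rw [Prod.mk_sub_mk, sub_self] at h2
    exact sub_eq_zero.1 (hS1.z2 _ h2)

theorem conj_apply (h : Rel4 Φ N H M H' S0) {z : UA ℤ G} (hz : z ∈ Cor ℤ G (N \ H))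
    (u1 : (1 + z) * star (1 + z) = 1) (u2 : star (1 + z) * (1 + z) = 1)
    {S1 : NonUnitalSubring (UA ℤ G × UA ℤ F)} (hS1 : Good Φ S1) (cS1 : Cpt H H' S0 S1)
    (d1 : ∀ a b, (a, b) ∈ S1 → a ∈ Cor ℤ G N) :
    ∃ S' : NonUnitalSubring (UA ℤ G × UA ℤ F), Good Φ S' ∧ Cpt H H' S0 S' ∧
      (∀ a b, (a, b) ∈ S' → a ∈ Cor ℤ G N) ∧
      ∀ a b, (a, b) ∈ S' ↔ (star (1 + z) * a * (1 + z), b) ∈ S1 := by
  have hzN : z ∈ Cor ℤ G N := Cor_mono (fun x hx => hx.1) hz
  have hzc : z ∈ Cor ℤ G Hᶜ := Cor_mono (fun x hx => hx.2) hz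
  have hdis : Disjoint (N \ H) H := Set.disjoint_sdiff_left
  have tr := fun {a : UA ℤ G} (ha : a ∈ Cor ℤ G H) => cc_triv hdis hz ha
  have cN := fun {a : UA ℤ G} (ha : a ∈ Cor ℤ G N) => cc_conj hzN ha
  have cc1 := fun {a : UA ℤ G} (ha : a ∈ Cor ℤ G Hᶜ) => cc_conj hzc ha
  have cc2 := fun {a : UA ℤ G} (ha : a ∈ Cor ℤ G Hᶜ) => cc_conj' hzc ha
  generalize (1 : UA ℤ G) + z = u at u1 u2 tr cN cc1 cc2 ⊢
  have inv1 : ∀ a : UA ℤ G, u * (star u * a * u) * star u = a := by
    intro a
    have e : u * (star u * a * u) * star u = (u * star u) * a * (u * star u) := by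
      simp only [mul_assoc]
    rw [e, u1, one_mul, mul_one]
  have mulc : ∀ a a' : UA ℤ G, star u * (a * a') * u = star u * a * u * (star u * a' * u) := by
    intro a a'
    have e : star u * a * u * (star u * a' * u) = star u * a * (u * star u) * a' * u := by
      simp only [mul_assoc]
    rw [e, u1, mul_one, ← mul_assoc]
  have starc : ∀ a : UA ℤ G, star (star u * a * u) = star u * star a * u := by
    intro a
    rw [star_mul, star_mul, star_star, mul_assoc]
  let S' : NonUnitalSubring (UA ℤ G × UA ℤ F) :=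
    { carrier := {t | (star u * t.1 * u, t.2) ∈ S1}
      mul_mem' := fun {s t} hs ht => by
        have h1 : ((star u * s.1 * u, s.2) : UA ℤ G × UA ℤ F) * (star u * t.1 * u, t.2) ∈ S1 :=
          S1.mul_mem hs ht
        rw [Prod.mk_mul_mk, ← mulc] at h1
        exact h1
      add_mem' := fun {s t} hs ht => by
        have h1 : ((star u * s.1 * u, s.2) : UA ℤ G × UA ℤ F) + (star u * t.1 * u, t.2) ∈ S1 :=
          S1.add_mem hs ht
        rw [Prod.mk_add_mk, ← add_mul, ← mul_add] at h1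
        exact h1
      zero_mem' := by
        have h1 : ((0, 0) : UA ℤ G × UA ℤ F) ∈ S1 := S1.zero_mem
        show (star u * (0 : UA ℤ G) * u, (0 : UA ℤ F)) ∈ S1
        rw [mul_zero, zero_mul]
        exact h1
      neg_mem' := fun {s} hs => by
        have h1 : -((star u * s.1 * u, s.2) : UA ℤ G × UA ℤ F) ∈ S1 := S1.neg_mem hs
        have e : star u * (-s.1) * u = -(star u * s.1 * u) := cc_neg _ _ _
        show (star u * (-s.1) * u, -s.2) ∈ S1
        rw [e]
        exact h1 }
  have memS : ∀ a b, (a, b) ∈ S' ↔ (star u * a * u, b) ∈ S1 := fun a b => Iff.rfl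
  have prjc : ∀ a : UA ℤ G, IsPrj a → IsPrj (star u * a * u) := by
    intro a ha
    exact ⟨by rw [← mulc, ha.1], by rw [starc, ha.2]⟩
  refine ⟨S', ⟨?_, ?_, ?_, ?_, ?_, ?_⟩, ⟨?_, ?_, ?_⟩, ?_, memS⟩
  · intro a b hab
    have h1 := hS1.mL _ _ ((memS a b).1 hab)
    refine ⟨?_, h1.2⟩
    rw [← inv1 a]
    exact mul_mem_LP_right (mul_mem_LP_left _ h1.1) _
  · intro a b hab
    rw [memS, ← starc]
    exact hS1.st _ _ ((memS a b).1 hab)
  · intro a ha
    have h1 := hS1.z1 _ ((memS a 0).1 ha)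
    rw [← inv1 a, h1, mul_zero, zero_mul]
  · intro b hb
    have h1 := (memS 0 b).1 hb
    rw [mul_zero, zero_mul] at h1
    exact hS1.z2 _ h1
  · intro p q hpq hp
    have h1 := (memS p q).1 hpq
    have hp1 := prjc p hp
    have hq := cc_prj hS1 hp1 h1
    have hL := hS1.mL _ _ h1
    refine eqf_eqv h.iso (t := u * (star u * p * u)) (s := q) (hS1.eq _ _ h1 hp1) hp1 hp hq hq
      (mul_mem_LP_left _ hL.1) hL.2 ?_ ?_ ?_ ?_
    · rw [star_mul, hp1.2]
      have e : u * (star u * p * u) * (star u * p * u * star u) =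
          u * ((star u * p * u) * (star u * p * u)) * star u := by
        simp only [mul_assoc]
      rw [e, hp1.1, inv1]
    · rw [star_mul, hp1.2]
      have e : star u * p * u * star u * (u * (star u * p * u)) =
          star u * p * u * (star u * u) * (star u * p * u) := by
        simp only [mul_assoc]
      rw [e, u2, mul_one, hp1.1]
    · rw [hq.2, hq.1]
    · rw [hq.2, hq.1]
  · intro p q x y hpq hxy
    have h1 := (memS p q).1 hpq
    have h2 := (memS x y).1 hxy
    rw [← hS1.lg _ _ _ _ h1 h2]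
    constructor
    · intro h3
      have h4 := lg_unit h3 (u := star u) (by rw [star_star]; exact u2)
        (by rw [star_star]; exact u1)
      rw [star_star] at h4
      exact h4
    · intro h3
      have h4 := lg_unit h3 u1 u2
      rw [inv1, inv1] at h4
      exact h4
  · intro a b hab ha
    have h1 := (memS a b).1 hab
    rw [(tr ha).2] at h1
    exact cS1.c1 _ _ h1 ha
  · intro a b hab hb
    have h1 := cS1.c2 _ _ ((memS a b).1 hab) hb
    have h2 := h.isoS.m1 _ _ h1
    have h3 := (tr h2).1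
    rw [inv1] at h3
    rw [h3]
    exact h1
  · intro a b hab
    have h1 := (memS a b).1 hab
    rw [← cS1.c3 _ _ h1]
    constructor
    · intro ha
      exact cc2 ha
    · intro ha
      have h2 := cc1 ha
      rw [inv1] at h2
      exact h2
  · intro a b hab
    have h1 := cN (d1 _ _ ((memS a b).1 hab))
    rw [inv1] at h1
    exact h1

end Pool.Agent.Work.MP_2b4d3b_al.NE
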