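import Pool.Agent.Work.MP_2b4d3b_al.NE.Defs
import Pool.Agent.Work.MP_2b4d3b_al.NE.CjA
import Pool.Agent.Work.MP_2b4d3b_al.NE.CjB
import Pool.Agent.Work.MP_2b4d3b_al.NE.CjC

/-
Extension of S along S1. PROOF. A = σ.rng (GTp). conj_data gives d, y; conj_unit (h.nG, K1, h.hN, h.hH, h.HN) gives u = 1 + z; conj_apply gives S'.
Range: (a, b) in S' iff (u* a u, b) in S1, and every (a', b) in S1 comes from a = u a' u*. S in S': the set Q of a in A such that for all b, a'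
with (a, b) in S and (a', b) in S1 one has u a' u* = a. By uniqueness (z1 of S1, z2 of S) and since S is total on A and S1 on the range of S, Q is
closed under +, -, *, and contains c_i, star c_i, x_(b i), star x_(b i) (conj_unit, conj_data; stars by Good.st), so all of σ.rng = A (closure_induction). So for (a, b) in S, (a', b) in S1 (h12): u* a u = u* u a' u* u = a', (a, b) in S'.
-/

set_option linter.unusedVariables false
set_option linter.style.longLine false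
set_option linter.unusedSectionVars false

namespace Pool.Agent.Work.MP_2b4d3b_al.NE

universe u v w u' v' w'

open Finset

variable {K₁ : Type u} [Field K₁] {K₂ : Type u'} [Field K₂] {V : Type v} {E : Type w}
  {V' : Type v'} {E' : Type w'} {G : Gr V E} {F : Gr V' E'}
  {Φ : NonUnitalSubring (UA K₁ G × UA K₂ F)} {N H : Set V} {M H' : Set V'}
  {S0 : NonUnitalSubring (UA ℤ G × UA ℤ F)}

private theorem cjd_z2 {S : NonUnitalSubring (UA ℤ G × UA ℤ F)} (hS : Good Φ S) {a : UA ℤ G}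
    {b b' : UA ℤ F} (h1 : (a, b) ∈ S) (h2 : (a, b') ∈ S) : b = b' := by
  have h3 := S.sub_mem h1 h2
  have h4 : ((0 : UA ℤ G), b - b') ∈ S := by
    have h5 : ((0 : UA ℤ G), b - b') = (a, b) - (a, b') := Prod.ext (sub_self a).symm rfl
    rw [h5]
    exact h3
  exact sub_eq_zero.1 (hS.z2 _ h4)

private theorem cjd_z1 {S : NonUnitalSubring (UA ℤ G × UA ℤ F)} (hS : Good Φ S) {a a' : UA ℤ G}
    {b : UA ℤ F} (h1 : (a, b) ∈ S) (h2 : (a', b) ∈ S) : a = a' := by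
  have h3 := S.sub_mem h1 h2
  have h4 : (a - a', (0 : UA ℤ F)) ∈ S := by
    have h5 : (a - a', (0 : UA ℤ F)) = (a, b) - (a', b) := Prod.ext rfl (sub_self b).symm
    rw [h5]
    exact h3
  exact sub_eq_zero.1 (hS.z1 _ h4)

private theorem cjd_inv {R : Type u} [Ring R] [StarRing R] {u : R} (h : star u * u = 1) (a : R) :
    star u * (u * a * star u) * u = a := by
  calc star u * (u * a * star u) * u = star u * u * a * (star u * u) := by
        simp only [mul_assoc]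
    _ = a := by rw [h, one_mul, mul_one]

private theorem cjd_neg {R : Type u} [Ring R] [StarRing R] {u a b : R} (h : u * a * star u = b) :
    u * (-a) * star u = -b := by
  rw [mul_neg, neg_mul, h]

theorem conj_good (h : Rel4 Φ N H M H' S0) {A : Set (UA ℤ G)} (hA : GTp G N A)
    {S S1 : NonUnitalSubring (UA ℤ G × UA ℤ F)} (hS : Good Φ S) (cS : Cpt H H' S0 S)
    (dS : ∀ a b, (a, b) ∈ S → a ∈ A) (dS' : ∀ a ∈ A, ∃ b, (a, b) ∈ S) (hS1 : Good Φ S1)
    (cS1 : Cpt H H' S0 S1) (d1 : ∀ a b, (a, b) ∈ S1 → a ∈ Cor ℤ G N)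
    (h12 : ∀ a b, (a, b) ∈ S → ∃ a', (a', b) ∈ S1) :
    ∃ S' : NonUnitalSubring (UA ℤ G × UA ℤ F), Good Φ S' ∧ Cpt H H' S0 S' ∧
      (∀ a b, (a, b) ∈ S' → a ∈ Cor ℤ G N) ∧
      (∀ b, (∃ a, (a, b) ∈ S') ↔ ∃ a, (a, b) ∈ S1) ∧ ∀ a b, (a, b) ∈ S → (a, b) ∈ S' := by
  obtain ⟨W, T, σ, st, hn, hs, hi, rfl⟩ := hA
  obtain ⟨d, y, hd, k1, k2⟩ := conj_data h hn hs hS cS (fun a ha => dS' a ha) hS1 cS1 d1 h12
  obtain ⟨z, hz, u1, u2, k3⟩ := conj_unit h.nG K₁ h.hN h.hH h.HN hn hs hd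
  obtain ⟨S', g1, g2, g3, g4⟩ := conj_apply h hz u1 u2 hS1 cS1 d1
  have key : ∀ a ∈ σ.rng, ∀ b a', (a, b) ∈ S → (a', b) ∈ S1 →
      (1 + z) * a' * star (1 + z) = a := by
    have gen : ∀ (g g' : UA ℤ G) (b0 : UA ℤ F), (g, b0) ∈ S → (g', b0) ∈ S1 →
        (1 + z) * g' * star (1 + z) = g → ∀ b a', (g, b) ∈ S → (a', b) ∈ S1 →
        (1 + z) * a' * star (1 + z) = g := by
      intro g g' b0 e1 e2 e3 b a' e4 e5
      have e6 := cjd_z2 hS e4 e1
      rw [e6] at e5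
      rw [cjd_z1 hS1 e5 e2, e3]
    have gst : ∀ (g g' : UA ℤ G), (1 + z) * g' * star (1 + z) = g →
        (1 + z) * star g' * star (1 + z) = star g := by
      intro g g' e
      rw [← e, star_mul, star_mul, star_star, mul_assoc]
    intro a ha
    refine NonUnitalSubring.closure_induction (p := fun a _ => ∀ b a', (a, b) ∈ S →
      (a', b) ∈ S1 → (1 + z) * a' * star (1 + z) = a) ?_ ?_ ?_ ?_ ?_ ha
    · rintro g ⟨i, rfl | rfl | rfl | rfl⟩
      · obtain ⟨b0, e1, e2⟩ := k1 i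
        exact gen _ _ b0 e1 e2 (k3 i).1
      · obtain ⟨b0, e1, e2⟩ := k1 i
        exact gen _ _ (star b0) (hS.st _ _ e1) (hS1.st _ _ e2) (gst _ _ (k3 i).1)
      · obtain ⟨b0, e1, e2⟩ := k2 i
        exact gen _ _ b0 e1 e2 (k3 i).2
      · obtain ⟨b0, e1, e2⟩ := k2 i
        exact gen _ _ (star b0) (hS.st _ _ e1) (hS1.st _ _ e2) (gst _ _ (k3 i).2)
    · refine gen 0 0 0 S.zero_mem S1.zero_mem ?_
      rw [mul_zero, zero_mul]
    · intro a1 a2 m1 m2 e1 e2
      obtain ⟨b1, f1⟩ := dS' a1 m1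
      obtain ⟨b2, f2⟩ := dS' a2 m2
      obtain ⟨a1', f3⟩ := h12 _ _ f1
      obtain ⟨a2', f4⟩ := h12 _ _ f2
      refine gen (a1 + a2) (a1' + a2') (b1 + b2) (S.add_mem f1 f2) (S1.add_mem f3 f4) ?_
      rw [mul_add, add_mul, e1 _ _ f1 f3, e2 _ _ f2 f4]
    · intro a1 m1 e1
      obtain ⟨b1, f1⟩ := dS' a1 m1
      obtain ⟨a1', f3⟩ := h12 _ _ f1
      refine gen (-a1) (-a1') (-b1) (S.neg_mem f1) (S1.neg_mem f3) ?_
      exact cjd_neg (e1 _ _ f1 f3)
    · intro a1 a2 m1 m2 e1 e2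
      obtain ⟨b1, f1⟩ := dS' a1 m1
      obtain ⟨b2, f2⟩ := dS' a2 m2
      obtain ⟨a1', f3⟩ := h12 _ _ f1
      obtain ⟨a2', f4⟩ := h12 _ _ f2
      refine gen (a1 * a2) (a1' * a2') (b1 * b2) (S.mul_mem f1 f2) (S1.mul_mem f3 f4) ?_
      calc (1 + z) * (a1' * a2') * star (1 + z)
          = (1 + z) * a1' * (star (1 + z) * (1 + z)) * a2' * star (1 + z) := by
            rw [u2, mul_one]
            simp only [mul_assoc]
        _ = ((1 + z) * a1' * star (1 + z)) * ((1 + z) * a2' * star (1 + z)) := by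
            simp only [mul_assoc]
        _ = a1 * a2 := by rw [e1 _ _ f1 f3, e2 _ _ f2 f4]
  refine ⟨S', g1, g2, g3, ?_, ?_⟩
  · intro b
    constructor
    · rintro ⟨a, ha⟩
      exact ⟨_, (g4 a b).1 ha⟩
    · rintro ⟨a, ha⟩
      refine ⟨(1 + z) * a * star (1 + z), (g4 _ b).2 ?_⟩
      rw [cjd_inv u2]
      exact ha
  · intro a b hab
    obtain ⟨a', ha'⟩ := h12 a b hab
    refine (g4 a b).2 ?_
    have e := key a (dS a b hab) b a' hab ha'
    rw [← e, cjd_inv u2]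
    exact ha'

end Pool.Agent.Work.MP_2b4d3b_al.NE
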