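import Pool.Agent.Work.MP_2b4d3b_al.NE.Defs
import Pool.Agent.Work.MP_2b4d3b_al.NE.Corn
import Pool.Agent.Work.MP_2b4d3b_al.NE.DynA

/-
Countable hereditary sets matched by Φ and by S0. PROOF. Hereditary closure: for a countable set A the set {y | some x in A reaches y} is
countable (by induction on the length the set of vertices reached by paths of length n is countable: a union over the countably many edges
at countably many vertices) and hereditary. For x in V let (vx x, b_x) in Φ, b_x in LP K2 F: a finite set W_x of vertices with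
eW W_x * b_x = b_x = b_x * eW W_x (Cor_fin, LP_eq_Cor). For z in V' a finite set W_z in V for the preimage of vx z. For x in H let
(vx x, b) in S0, b in Cor Z F H' : a finite U_x in H' with eW U_x b = b = b eW U_x; for z in H' a finite U_z in H for the preimage.
N_0 = closure of {x}; M_k = closure of M_(k-1), the W_x (x in N_k) and the U_x (x in N_k ∩ H); N_(k+1) = closure of N_k, the W_z (z in M_k)
and the U_z (z in M_k ∩ H'). N, M the unions: countable, hereditary.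
(a, b) in Φ, a in Cor N: a = e a e with e = eW W, W in N; (e, e') in Φ with e' = sum of b_x, x in W, in Cor M, and b = e' b e' (by
uniqueness z2: (e a e, e' b e') in Φ), so b in Cor M (Cor_mid). The converse is symmetric. (a, b) in S0, a in Cor Z G (N ∩ H): the same with
e = eW W, W in N ∩ H, whose image e' under S0 is in Cor Z F (M ∩ H') because U_x is in M ∩ H'. Converse symmetric.
-/

set_option linter.unusedVariables false
set_option linter.style.longLine false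
set_option linter.unusedSectionVars false

namespace Pool.Agent.Work.MP_2b4d3b_al.NE

universe u v w u' v' w' z

open Finset

variable {K₁ : Type u} [Field K₁] {K₂ : Type u'} [Field K₂] {V : Type v} {E : Type w}
  {V' : Type v'} {E' : Type w'} {G : Gr V E} {F : Gr V' E'}
  {Φ : NonUnitalSubring (UA K₁ G × UA K₂ F)}

/-- closure of a countable set under countably many values -/
private theorem clos_aux {α : Type z} (D : α → Set α) (hD : ∀ a, (D a).Countable) {A : Set α}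
    (hA : A.Countable) : ∃ N : Set α, A ⊆ N ∧ N.Countable ∧ ∀ a ∈ N, D a ⊆ N := by
  let S : ℕ → Set α := fun n => Nat.rec A (fun _ s => ⋃ a ∈ s, D a) n
  have hS : ∀ n, (S n).Countable := by
    intro n
    induction n with
    | zero => exact hA
    | succ n ih => exact ih.biUnion fun a _ => hD a
  refine ⟨⋃ n, S n, Set.subset_iUnion S 0, Set.countable_iUnion hS, ?_⟩
  intro a ha b hb
  obtain ⟨n, hn⟩ := Set.mem_iUnion.1 ha
  refine Set.mem_iUnion.2 ⟨n + 1, ?_⟩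
  exact Set.mem_biUnion hn hb

private theorem tr_aux {K : Type u} [CommRing K] {K' : Type u'} [CommRing K']
    {S : NonUnitalSubring (UA K G × UA K' F)} (z2 : ∀ b, ((0 : UA K G), b) ∈ S → b = 0)
    {N : Set V} {M : Set V'}
    (h : ∀ x ∈ N, ∃ b, (vx K G x, b) ∈ S ∧ b ∈ Cor K' F M) {a : UA K G} {b : UA K' F}
    (hab : (a, b) ∈ S) (ha : a ∈ Cor K G N) : b ∈ Cor K' F M := by
  classical
  obtain ⟨W, hW, haW⟩ := ha
  choose! f hf1 hf2 using h
  have h1 : (eW K G W, ∑ x ∈ W, f x) ∈ S := by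
    have : (eW K G W, ∑ x ∈ W, f x) = ∑ x ∈ W, (vx K G x, f x) := by
      apply Prod.ext
      · rw [Prod.fst_sum]; rfl
      · rw [Prod.snd_sum]
    rw [this]
    exact sum_mem fun x hx => hf1 x (hW x hx)
  have h2 : (∑ x ∈ W, f x) ∈ Cor K' F M := Cor_sum W f fun x hx => hf2 x (hW x hx)
  have h3 : (eW K G W * a * eW K G W, (∑ x ∈ W, f x) * b * ∑ x ∈ W, f x) ∈ S :=
    S.mul_mem (S.mul_mem h1 hab) h1
  rw [haW] at h3
  have h4 := S.sub_mem hab h3
  have h5 : ((a, b) - (a, (∑ x ∈ W, f x) * b * ∑ x ∈ W, f x) : UA K G × UA K' F) =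
      (0, b - (∑ x ∈ W, f x) * b * ∑ x ∈ W, f x) := by
    apply Prod.ext
    · exact sub_self a
    · rfl
  rw [h5] at h4
  have h6 := sub_eq_zero.1 (z2 _ h4)
  rw [h6]
  exact Cor_mid h2 b h2

/-- the hereditary closure of a countable set of vertices is countable -/
theorem her_closure (rG : RowCountable G) {A : Set V} (hA : A.Countable) :
    ∃ N : Set V, A ⊆ N ∧ N.Countable ∧ Her G N := by
  obtain ⟨N, h1, h2, h3⟩ := clos_aux (fun x => G.r '' {e | G.s e = x})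
    (fun x => (rG x).image G.r) hA
  exact ⟨N, h1, h2, fun e he => h3 _ he ⟨e, rfl, rfl⟩⟩

theorem close_up (rG : RowCountable G) (rF : RowCountable F)
    (iso : GIso Φ (LP K₁ G : Set (UA K₁ G)) (LP K₂ F : Set (UA K₂ F))) {H : Set V} {H' : Set V'}
    {S0 : NonUnitalSubring (UA ℤ G × UA ℤ F)} (i0 : GIso S0 (Cor ℤ G H) (Cor ℤ F H')) (x : V) :
    ∃ (N : Set V) (M : Set V'), x ∈ N ∧ N.Countable ∧ M.Countable ∧ Her G N ∧ Her F M ∧
      (∀ a b, (a, b) ∈ Φ → (a ∈ Cor K₁ G N ↔ b ∈ Cor K₂ F M)) ∧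
      ∀ a b, (a, b) ∈ S0 → (a ∈ Cor ℤ G (N ∩ H) ↔ b ∈ Cor ℤ F (M ∩ H')) := by
  classical
  -- the partners of the vertices
  have p1 : ∀ x : V, ∃ (b : UA K₂ F) (W : Finset V'), (vx K₁ G x, b) ∈ Φ ∧
      ∀ M : Set V', (∀ z ∈ W, z ∈ M) → b ∈ Cor K₂ F M := by
    intro x
    obtain ⟨b, hb⟩ := iso.t1 (vx K₁ G x) (vx_mem x)
    have hb2 := iso.m2 _ _ hb
    rw [LP_eq_Cor] at hb2
    obtain ⟨W, -, hW⟩ := Cor_fin {b} (by simpa using hb2)
    have hW' := hW b (by simp)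
    refine ⟨b, W, hb, fun M hM => ⟨W, hM, ?_⟩⟩
    rw [hW'.1, hW'.2]
  have p2 : ∀ z : V', ∃ (a : UA K₁ G) (W : Finset V), (a, vx K₂ F z) ∈ Φ ∧
      ∀ N : Set V, (∀ x ∈ W, x ∈ N) → a ∈ Cor K₁ G N := by
    intro z
    obtain ⟨a, ha⟩ := iso.t2 (vx K₂ F z) (vx_mem z)
    have ha2 := iso.m1 _ _ ha
    rw [LP_eq_Cor] at ha2
    obtain ⟨W, -, hW⟩ := Cor_fin {a} (by simpa using ha2)
    have hW' := hW a (by simp)
    refine ⟨a, W, ha, fun M hM => ⟨W, hM, ?_⟩⟩
    rw [hW'.1, hW'.2]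
  have p3 : ∀ x : V, ∃ (b : UA ℤ F) (W : Finset V'), x ∈ H → (vx ℤ G x, b) ∈ S0 ∧
      (∀ z ∈ W, z ∈ H') ∧ ∀ M : Set V', (∀ z ∈ W, z ∈ M) → b ∈ Cor ℤ F M := by
    intro x
    by_cases hx : x ∈ H
    · obtain ⟨b, hb⟩ := i0.t1 (vx ℤ G x) (vx_mem_Cor hx)
      have hb2 := i0.m2 _ _ hb
      obtain ⟨W, hWH, hW⟩ := Cor_fin {b} (by simpa using hb2)
      have hW' := hW b (by simp)
      refine ⟨b, W, fun _ => ⟨hb, hWH, fun M hM => ⟨W, hM, ?_⟩⟩⟩
      rw [hW'.1, hW'.2]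
    · exact ⟨0, ∅, fun h => absurd h hx⟩
  have p4 : ∀ z : V', ∃ (a : UA ℤ G) (W : Finset V), z ∈ H' → (a, vx ℤ F z) ∈ S0 ∧
      (∀ x ∈ W, x ∈ H) ∧ ∀ N : Set V, (∀ x ∈ W, x ∈ N) → a ∈ Cor ℤ G N := by
    intro z
    by_cases hz : z ∈ H'
    · obtain ⟨a, ha⟩ := i0.t2 (vx ℤ F z) (vx_mem_Cor hz)
      have ha2 := i0.m1 _ _ ha
      obtain ⟨W, hWH, hW⟩ := Cor_fin {a} (by simpa using ha2)
      have hW' := hW a (by simp)
      refine ⟨a, W, fun _ => ⟨ha, hWH, fun M hM => ⟨W, hM, ?_⟩⟩⟩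
      rw [hW'.1, hW'.2]
    · exact ⟨0, ∅, fun h => absurd h hz⟩
  choose b1 W1 q1 r1 using p1
  choose b2 W2 q2 r2 using p2
  choose b3 W3 h3 using p3
  choose b4 W4 h4 using p4
  let D : V ⊕ V' → Set (V ⊕ V') := fun t => match t with
    | Sum.inl v => Sum.inl '' (G.r '' {e | G.s e = v}) ∪ Sum.inr '' ((W1 v : Set V') ∪ W3 v)
    | Sum.inr v => Sum.inr '' (F.r '' {e | F.s e = v}) ∪ Sum.inl '' ((W2 v : Set V) ∪ W4 v)
  have hD : ∀ t, (D t).Countable := by
    intro t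
    match t with
    | Sum.inl v =>
      exact (((rG v).image G.r).image _).union
        (((W1 v).countable_toSet.union (W3 v).countable_toSet).image _)
    | Sum.inr v =>
      exact (((rF v).image F.r).image _).union
        (((W2 v).countable_toSet.union (W4 v).countable_toSet).image _)
  obtain ⟨C, hC1, hC2, hC3⟩ := clos_aux D hD (A := {Sum.inl x}) (Set.countable_singleton _)
  have d1 : ∀ v, Sum.inl v ∈ C → (∀ e, G.s e = v → Sum.inl (G.r e) ∈ C) ∧
      (∀ z ∈ W1 v, Sum.inr z ∈ C) ∧ ∀ z ∈ W3 v, Sum.inr z ∈ C := by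
    intro v hv
    have := hC3 _ hv
    refine ⟨fun e he => this (Or.inl ⟨_, ⟨e, he, rfl⟩, rfl⟩), fun z hz => this (Or.inr ⟨z, Or.inl hz, rfl⟩),
      fun z hz => this (Or.inr ⟨z, Or.inr hz, rfl⟩)⟩
  have d2 : ∀ v, Sum.inr v ∈ C → (∀ e, F.s e = v → Sum.inr (F.r e) ∈ C) ∧
      (∀ z ∈ W2 v, Sum.inl z ∈ C) ∧ ∀ z ∈ W4 v, Sum.inl z ∈ C := by
    intro v hv
    have := hC3 _ hv
    refine ⟨fun e he => this (Or.inl ⟨_, ⟨e, he, rfl⟩, rfl⟩), fun z hz => this (Or.inr ⟨z, Or.inl hz, rfl⟩),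
      fun z hz => this (Or.inr ⟨z, Or.inr hz, rfl⟩)⟩
  refine ⟨Sum.inl ⁻¹' C, Sum.inr ⁻¹' C, hC1 rfl, hC2.preimage Sum.inl_injective,
    hC2.preimage Sum.inr_injective, fun e he => (d1 _ he).1 e rfl, fun e he => (d2 _ he).1 e rfl,
    ?_, ?_⟩
  · intro a b hab
    constructor
    · intro ha
      refine tr_aux iso.z2 (fun v hv => ⟨b1 v, q1 v, r1 v _ fun z hz => ?_⟩) hab ha
      exact (d1 v hv).2.1 z hz
    · intro hb
      refine tr_aux (S := sw Φ) (fun b hb => iso.z1 b hb)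
        (fun v hv => ⟨b2 v, q2 v, r2 v _ fun z hz => ?_⟩) (show (b, a) ∈ sw Φ from hab) hb
      exact (d2 v hv).2.1 z hz
  · intro a b hab
    constructor
    · intro ha
      refine tr_aux i0.z2 (fun v hv => ⟨b3 v, (h3 v hv.2).1, (h3 v hv.2).2.2 _ fun z hz => ?_⟩)
        hab ha
      exact ⟨(d1 v hv.1).2.2 z hz, (h3 v hv.2).2.1 z hz⟩
    · intro hb
      refine tr_aux (S := sw S0) (fun b hb => i0.z1 b hb)
        (fun v hv => ⟨b4 v, (h4 v hv.2).1, (h4 v hv.2).2.2 _ fun z hz => ?_⟩)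
        (show (b, a) ∈ sw S0 from hab) hb
      exact ⟨(d2 v hv.1).2.2 z hz, (h4 v hv.2).2.1 z hz⟩

end Pool.Agent.Work.MP_2b4d3b_al.NE
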