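import Mathlib

/-!
Leavitt path algebras of arbitrary graphs over a commutative ring, their involution, graphs without
exits.
-/

set_option linter.unusedVariables false
set_option linter.style.longLine false
set_option linter.unusedSectionVars false

namespace Pool.Agent.Work.MP_2b4d3b_al.NE

universe u v w u' v' w'

/-- A directed graph with vertex type V and edge type E; s is the source, r the range. -/
structure Gr (V : Type v) (E : Type w) where
  s : E → V
  r : E → V

/-- Generators: vertices, edges and ghost edges. -/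
inductive Gen (V : Type v) (E : Type w) : Type (max v w)
  | vx (x : V) : Gen V E
  | ed (e : E) : Gen V E
  | gh (e : E) : Gen V E

open FreeAlgebra in
/-- The defining relations of the Leavitt path algebra (no relation on the unit). -/
inductive Rel (K : Type u) [CommRing K] {V : Type v} {E : Type w} (G : Gr V E) :
    FreeAlgebra K (Gen V E) → FreeAlgebra K (Gen V E) → Prop
  | vv (x : V) : Rel K G (ι K (.vx x) * ι K (.vx x)) (ι K (.vx x))
  | vw (x y : V) (h : x ≠ y) : Rel K G (ι K (.vx x) * ι K (.vx y)) 0
  | se (e : E) : Rel K G (ι K (.vx (G.s e)) * ι K (.ed e)) (ι K (.ed e))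
  | er (e : E) : Rel K G (ι K (.ed e) * ι K (.vx (G.r e))) (ι K (.ed e))
  | rg (e : E) : Rel K G (ι K (.vx (G.r e)) * ι K (.gh e)) (ι K (.gh e))
  | gs (e : E) : Rel K G (ι K (.gh e) * ι K (.vx (G.s e))) (ι K (.gh e))
  | ge (e : E) : Rel K G (ι K (.gh e) * ι K (.ed e)) (ι K (.vx (G.r e)))
  | gf (e f : E) (h : e ≠ f) : Rel K G (ι K (.gh e) * ι K (.ed f)) 0
  | ck (x : V) (S : Finset E) (h : ∀ e, e ∈ S ↔ G.s e = x) (hne : S.Nonempty) :
      Rel K G (ι K (.vx x)) (∑ e ∈ S, ι K (.ed e) * ι K (.gh e))

/-- The unital algebra with these generators and relations. -/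
abbrev UA (K : Type u) [CommRing K] {V : Type v} {E : Type w} (G : Gr V E) := RingQuot (Rel K G)

section basic

variable {K : Type u} [CommRing K] {V : Type v} {E : Type w} {G : Gr V E}

/-- the generators as elements of the algebra -/
noncomputable def gn (K : Type u) [CommRing K] (G : Gr V E) (a : Gen V E) : UA K G :=
  RingQuot.mkAlgHom K (Rel K G) (FreeAlgebra.ι K a)

noncomputable def vx (K : Type u) [CommRing K] (G : Gr V E) (x : V) : UA K G := gn K G (.vx x)
noncomputable def ed (K : Type u) [CommRing K] (G : Gr V E) (e : E) : UA K G := gn K G (.ed e)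
noncomputable def gh (K : Type u) [CommRing K] (G : Gr V E) (e : E) : UA K G := gn K G (.gh e)

/-- The Leavitt path algebra `L_K(G)` of an arbitrary graph: the (non-unital) subalgebra generated
by the vertices, edges and ghost edges. -/
noncomputable def LP (K : Type u) [CommRing K] {V : Type v} {E : Type w} (G : Gr V E) :
    NonUnitalSubalgebra K (UA K G) := NonUnitalAlgebra.adjoin K (Set.range (gn K G))

theorem vx_vx (x : V) : vx K G x * vx K G x = vx K G x := by
  have := RingQuot.mkAlgHom_rel K (Rel.vv (K := K) (G := G) x)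
  simpa [vx, gn] using this

theorem vx_ne {x y : V} (h : x ≠ y) : vx K G x * vx K G y = 0 := by
  have := RingQuot.mkAlgHom_rel K (Rel.vw (K := K) (G := G) x y h)
  simpa [vx, gn] using this

theorem s_ed (e : E) : vx K G (G.s e) * ed K G e = ed K G e := by
  have := RingQuot.mkAlgHom_rel K (Rel.se (K := K) (G := G) e)
  simpa [vx, ed, gn] using this

theorem ed_r (e : E) : ed K G e * vx K G (G.r e) = ed K G e := by
  have := RingQuot.mkAlgHom_rel K (Rel.er (K := K) (G := G) e)
  simpa [vx, ed, gn] using this

theorem r_gh (e : E) : vx K G (G.r e) * gh K G e = gh K G e := by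
  have := RingQuot.mkAlgHom_rel K (Rel.rg (K := K) (G := G) e)
  simpa [vx, gh, gn] using this

theorem gh_s (e : E) : gh K G e * vx K G (G.s e) = gh K G e := by
  have := RingQuot.mkAlgHom_rel K (Rel.gs (K := K) (G := G) e)
  simpa [vx, gh, gn] using this

theorem gh_ed (e : E) : gh K G e * ed K G e = vx K G (G.r e) := by
  have := RingQuot.mkAlgHom_rel K (Rel.ge (K := K) (G := G) e)
  simpa [vx, gh, ed, gn] using this

theorem gh_ed_ne {e f : E} (h : e ≠ f) : gh K G e * ed K G f = 0 := by
  have := RingQuot.mkAlgHom_rel K (Rel.gf (K := K) (G := G) e f h)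
  simpa [ed, gh, gn] using this

theorem ck_sum (x : V) (S : Finset E) (h : ∀ e, e ∈ S ↔ G.s e = x) (hne : S.Nonempty) :
    vx K G x = ∑ e ∈ S, ed K G e * gh K G e := by
  have := RingQuot.mkAlgHom_rel K (Rel.ck (K := K) (G := G) x S h hne)
  simpa [vx, ed, gh, gn] using this

/-- A family in a K-algebra satisfying the relations. -/
structure Fam (K : Type u) [CommRing K] {V : Type v} {E : Type w} (G : Gr V E)
    (A : Type u') [Ring A] [Algebra K A] where
  p : V → A
  a : E → A
  b : E → A
  vv : ∀ x, p x * p x = p x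
  vw : ∀ x y, x ≠ y → p x * p y = 0
  se : ∀ e, p (G.s e) * a e = a e
  er : ∀ e, a e * p (G.r e) = a e
  rg : ∀ e, p (G.r e) * b e = b e
  gs : ∀ e, b e * p (G.s e) = b e
  ge : ∀ e, b e * a e = p (G.r e)
  gf : ∀ e f, e ≠ f → b e * a f = 0
  ck : ∀ (x : V) (S : Finset E), (∀ e, e ∈ S ↔ G.s e = x) → S.Nonempty → p x = ∑ e ∈ S, a e * b e

/-- the map on generators given by a family -/
def Fam.fn {A : Type u'} [Ring A] [Algebra K A] (F : Fam K G A) : Gen V E → A
  | .vx x => F.p x
  | .ed e => F.a e
  | .gh e => F.b e

/-- the homomorphism from the free algebra given by a family -/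
noncomputable def Fam.pre {A : Type u'} [Ring A] [Algebra K A] (F : Fam K G A) :
    FreeAlgebra K (Gen V E) →ₐ[K] A := FreeAlgebra.lift K F.fn

theorem Fam.pre_rel {A : Type u'} [Ring A] [Algebra K A] (F : Fam K G A) :
    ∀ ⦃x y : FreeAlgebra K (Gen V E)⦄, Rel K G x y → F.pre x = F.pre y := by
  intro x y h
  induction h with
  | vv x => simpa [Fam.pre, Fam.fn] using F.vv x
  | vw x y h => simpa [Fam.pre, Fam.fn] using F.vw x y h
  | se e => simpa [Fam.pre, Fam.fn] using F.se e
  | er e => simpa [Fam.pre, Fam.fn] using F.er e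
  | rg e => simpa [Fam.pre, Fam.fn] using F.rg e
  | gs e => simpa [Fam.pre, Fam.fn] using F.gs e
  | ge e => simpa [Fam.pre, Fam.fn] using F.ge e
  | gf e f h => simpa [Fam.pre, Fam.fn] using F.gf e f h
  | ck x S h hne => simpa [Fam.pre, Fam.fn] using F.ck x S h hne

/-- the universal property -/
noncomputable def Fam.lift {A : Type u'} [Ring A] [Algebra K A] (F : Fam K G A) : UA K G →ₐ[K] A :=
  RingQuot.preLiftAlgHom K F.pre_rel

theorem Fam.lift_eq {A : Type u'} [Ring A] [Algebra K A] (F : Fam K G A) :
    F.lift = RingQuot.liftAlgHom K ⟨F.pre, F.pre_rel⟩ := by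
  rw [RingQuot.liftAlgHom_def]; rfl

@[simp] theorem Fam.lift_gn {A : Type u'} [Ring A] [Algebra K A] (F : Fam K G A) (g : Gen V E) :
    F.lift (gn K G g) = F.fn g := by
  simp [Fam.lift_eq, Fam.pre, gn]

@[simp] theorem Fam.lift_vx {A : Type u'} [Ring A] [Algebra K A] (F : Fam K G A) (x : V) :
    F.lift (vx K G x) = F.p x := F.lift_gn _

@[simp] theorem Fam.lift_ed {A : Type u'} [Ring A] [Algebra K A] (F : Fam K G A) (e : E) :
    F.lift (ed K G e) = F.a e := F.lift_gn _

@[simp] theorem Fam.lift_gh {A : Type u'} [Ring A] [Algebra K A] (F : Fam K G A) (e : E) :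
    F.lift (gh K G e) = F.b e := F.lift_gn _

theorem hom_ext {A : Type u'} [Ring A] [Algebra K A] {f g : UA K G →ₐ[K] A}
    (hv : ∀ x, f (vx K G x) = g (vx K G x)) (he : ∀ e, f (ed K G e) = g (ed K G e))
    (hg : ∀ e, f (gh K G e) = g (gh K G e)) : f = g := by
  apply RingQuot.ringQuot_ext'
  apply FreeAlgebra.hom_ext
  funext a
  cases a with
  | vx x => exact hv x
  | ed e => exact he e
  | gh e => exact hg e

/-- induction on elements -/
theorem UA.ind {P : UA K G → Prop} (hK : ∀ k : K, P (algebraMap K _ k))
    (hv : ∀ x, P (vx K G x)) (he : ∀ e, P (ed K G e)) (hg : ∀ e, P (gh K G e))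
    (hadd : ∀ a b, P a → P b → P (a + b)) (hmul : ∀ a b, P a → P b → P (a * b)) (a : UA K G) :
    P a := by
  obtain ⟨b, rfl⟩ := RingQuot.mkAlgHom_surjective K (Rel K G) a
  induction b using FreeAlgebra.induction with
  | grade0 r => simpa using hK r
  | grade1 x =>
    cases x with
    | vx x => exact hv x
    | ed e => exact he e
    | gh e => exact hg e
  | mul a b ha hb => rw [map_mul]; exact hmul _ _ ha hb
  | add a b ha hb => rw [map_add]; exact hadd _ _ ha hb

end basic

/-! ### The involution -/

/-- The opposite algebra with conjugated scalars. -/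
def CO (A : Type u') := Aᵐᵒᵖ

instance (A : Type u') [Ring A] : Ring (CO A) := inferInstanceAs (Ring Aᵐᵒᵖ)

def CO.op {A : Type u'} (x : A) : CO A := MulOpposite.op x
def CO.unop {A : Type u'} (x : CO A) : A := MulOpposite.unop x

theorem CO.op_mul {A : Type u'} [Ring A] (x y : A) : CO.op (x * y) = CO.op y * CO.op x := rfl
theorem CO.unop_mul {A : Type u'} [Ring A] (x y : CO A) : (x * y).unop = y.unop * x.unop := rfl
theorem CO.unop_add {A : Type u'} [Ring A] (x y : CO A) : (x + y).unop = x.unop + y.unop := rfl
theorem CO.op_add {A : Type u'} [Ring A] (x y : A) : CO.op (x + y) = CO.op x + CO.op y := rfl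
theorem CO.op_zero {A : Type u'} [Ring A] : (CO.op (0 : A)) = 0 := rfl

noncomputable instance (K : Type u) [CommRing K] [StarRing K] (A : Type u') [Ring A] [Algebra K A] :
    Algebra K (CO A) :=
  ((algebraMap K Aᵐᵒᵖ).comp (starRingEnd K)).toAlgebra' (by
    intro c x
    exact Algebra.commutes (A := Aᵐᵒᵖ) (starRingEnd K c) x)

theorem CO.algebraMap_unop (K : Type u) [CommRing K] [StarRing K] (A : Type u') [Ring A] [Algebra K A]
    (k : K) : (algebraMap K (CO A) k).unop = algebraMap K A (star k) := rfl

theorem CO.op_sum {A : Type u'} [Ring A] {I : Type w'} (S : Finset I) (f : I → A) :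
    CO.op (∑ i ∈ S, f i) = ∑ i ∈ S, CO.op (f i) := by
  classical
  induction S using Finset.induction_on with
  | empty => simp [CO.op_zero]
  | insert a S ha ih => rw [Finset.sum_insert ha, Finset.sum_insert ha, CO.op_add, ih]

section star

variable {K : Type u} [CommRing K] [StarRing K] {V : Type v} {E : Type w} {G : Gr V E}

noncomputable def starFam (K : Type u) [CommRing K] [StarRing K] {V : Type v} {E : Type w}
    (G : Gr V E) : Fam K G (CO (UA K G)) where
  p x := CO.op (vx K G x)
  a e := CO.op (gh K G e)
  b e := CO.op (ed K G e)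
  vv x := by rw [← CO.op_mul, vx_vx]
  vw x y h := by rw [← CO.op_mul, vx_ne h.symm, CO.op_zero]
  se e := by rw [← CO.op_mul, gh_s]
  er e := by rw [← CO.op_mul, r_gh]
  rg e := by rw [← CO.op_mul, ed_r]
  gs e := by rw [← CO.op_mul, s_ed]
  ge e := by rw [← CO.op_mul, gh_ed]
  gf e f h := by rw [← CO.op_mul, gh_ed_ne h.symm, CO.op_zero]
  ck x S h hne := by
    rw [ck_sum x S h hne, CO.op_sum]
    exact Finset.sum_congr rfl fun e _ => by rw [CO.op_mul]

noncomputable instance : Star (UA K G) := ⟨fun x => ((starFam K G).lift x).unop⟩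

theorem star_def (x : UA K G) : star x = ((starFam K G).lift x).unop := rfl

@[simp] theorem star_vx (x : V) : star (vx K G x) = vx K G x := by
  rw [star_def, Fam.lift_vx]; rfl

@[simp] theorem star_ed (e : E) : star (ed K G e) = gh K G e := by
  rw [star_def, Fam.lift_ed]; rfl

@[simp] theorem star_gh (e : E) : star (gh K G e) = ed K G e := by
  rw [star_def, Fam.lift_gh]; rfl

theorem star_alg (k : K) : star (algebraMap K (UA K G) k) = algebraMap K _ (star k) := by
  rw [star_def, AlgHom.commutes, CO.algebraMap_unop]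

noncomputable instance : StarRing (UA K G) where
  star_mul a b := by simp only [star_def, map_mul, CO.unop_mul]
  star_add a b := by simp only [star_def, map_add, CO.unop_add]
  star_involutive a := by
    have hm : ∀ a b : UA K G, star (a * b) = star b * star a := fun a b => by
      simp only [star_def, map_mul, CO.unop_mul]
    have ha : ∀ a b : UA K G, star (a + b) = star a + star b := fun a b => by
      simp only [star_def, map_add, CO.unop_add]
    induction a using UA.ind with
    | hK k => rw [star_alg, star_alg, star_star]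
    | hv x => rw [star_vx, star_vx]
    | he e => rw [star_ed, star_gh]
    | hg e => rw [star_gh, star_ed]
    | hadd a b h1 h2 => rw [ha, ha, h1, h2]
    | hmul a b h1 h2 => rw [hm, hm, h1, h2]

theorem star_smul' (k : K) (x : UA K G) : star (k • x) = star k • star x := by
  rw [Algebra.smul_def, star_mul, star_alg, Algebra.smul_def]
  exact (Algebra.commutes _ _).symm

end star

/-! ### Graphs: reachability, exits -/

section graph

variable {V : Type v} {E : Type w}

/-- there is a path from x to y -/
def GRch (G : Gr V E) : V → V → Prop :=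
  Relation.ReflTransGen fun x y => ∃ e, G.s e = x ∧ G.r e = y

/-- No cycle has an exit: if the edge e lies on a cycle (its range reaches its source), it is the
only edge with its source. -/
def NoExit (G : Gr V E) : Prop :=
  ∀ e g : E, G.s g = G.s e → GRch G (G.r e) (G.s e) → g = e

/-- every vertex emits at most countably many edges -/
def RowCountable (G : Gr V E) : Prop := ∀ x, {e | G.s e = x}.Countable

end graph

end Pool.Agent.Work.MP_2b4d3b_al.NE
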