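import Pool.Agent.Work.MP_2b4d3b_al.NE.Defs
import Pool.Agent.Work.MP_2b4d3b_al.NE.HerC

/-
PROOF. gensOf Z G N is countable: vertices in N, edges with source in N (a countable union of countable sets: RowCountable). A non-unital
subalgebra over Z generated by a countable set is countable: it is the Z-span of the countable set of nonempty words (products of
lists), and the span over Z of a countable set is countable (image of the finitely supported functions, Finsupp.countable); or use
countability of FreeNonUnital... / Algebra.adjoin: NonUnitalAlgebra.adjoin Z s is contained in Algebra.adjoin Z s, which is the range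
of FreeAlgebra Z s or MvPolynomial-like countable ring; e.g. FreeRing s is countable? Use the word description if nothing is there.
-/

set_option linter.unusedVariables false
set_option linter.style.longLine false
set_option linter.unusedSectionVars false

namespace Pool.Agent.Work.MP_2b4d3b_al.NE

universe u v w u' v' w'

open Finset

variable {V : Type v} {E : Type w} {G : Gr V E}

private theorem gensOf_countable (hR : RowCountable G) {N : Set V} (cN : N.Countable) :
    (gensOf ℤ G N).Countable := by
  have h1 : {e | G.s e ∈ N}.Countable := by
    have : {e | G.s e ∈ N} = ⋃ x ∈ N, {e | G.s e = x} := by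
      ext e; simp
    rw [this]
    exact cN.biUnion fun x _ => hR x
  refine ((cN.image (vx ℤ G)).union ((h1.image (ed ℤ G)).union (h1.image (gh ℤ G)))).mono ?_
  rintro a (⟨x, hx, rfl⟩ | ⟨e, he, rfl | rfl⟩)
  · exact Or.inl ⟨x, hx, rfl⟩
  · exact Or.inr (Or.inl ⟨e, he, rfl⟩)
  · exact Or.inr (Or.inr ⟨e, he, rfl⟩)

private theorem adjoin_countable {A : Type u} [Ring A] [Algebra ℤ A] {s : Set A}
    (hs : s.Countable) : (Algebra.adjoin ℤ s : Set A).Countable := by
  have h := Algebra.lift_cardinalMk_adjoin_le ℤ s
  rw [← Cardinal.le_aleph0_iff_set_countable]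
  have h2 : Cardinal.lift.{0} (Cardinal.mk (Algebra.adjoin ℤ s)) ≤ Cardinal.aleph0 := by
    refine h.trans ?_
    simp only [Cardinal.lift_id', sup_le_iff]
    refine ⟨⟨?_, ?_⟩, le_rfl⟩
    · simp
    · simpa using Cardinal.le_aleph0_iff_set_countable.2 hs
  simpa using h2

theorem cor_countable (hR : RowCountable G) {N : Set V} (hN : Her G N) (cN : N.Countable) :
    (Cor ℤ G N).Countable := by
  rw [cor_eq_adjoin hN]
  refine (adjoin_countable (gensOf_countable hR cN)).mono ?_
  exact NonUnitalAlgebra.adjoin_le_algebra_adjoin ℤ _

end Pool.Agent.Work.MP_2b4d3b_al.NE
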