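import Mathlib
import Pool.Agent.Work.MP_2b4d3b_al.NE.Core

/-!
Paths, corners, matrix systems, stages, partial isomorphisms (fixed file, nothing to prove here).
-/

set_option linter.unusedVariables false
set_option linter.style.longLine false
set_option linter.unusedSectionVars false

namespace Pool.Agent.Work.MP_2b4d3b_al.NE

universe u v w u' v' w'

/-! ### Graphs: reachability, cycles -/

section graph

variable {V : Type v} {E : Type w}

/-- x lies on a cycle -/
def Cyc (G : Gr V E) (x : V) : Prop := ∃ e, G.s e = x ∧ GRch G (G.r e) x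

/-- l is a path from x to y -/
def Pth (G : Gr V E) : V → List E → V → Prop
  | x, [], y => x = y
  | x, e :: l, y => G.s e = x ∧ Pth G (G.r e) l y

/-- l is the cycle at x: a nonempty path from x to x which does not return to x before its end -/
def Ret (G : Gr V E) (x : V) (l : List E) : Prop :=
  l ≠ [] ∧ Pth G x l x ∧ ∀ l1 l2, l = l1 ++ l2 → l1 ≠ [] → l2 ≠ [] → ¬ Pth G x l1 x

/-- hereditary sets of vertices -/
def Her (G : Gr V E) (H : Set V) : Prop := ∀ e, G.s e ∈ H → G.r e ∈ H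

/-- the vertex x is regular and all its edges belong to T -/
def Cl (G : Gr V E) (T : Finset E) (x : V) : Prop :=
  ∃ Q : Finset E, (∀ e, e ∈ Q ↔ G.s e = x) ∧ Q.Nonempty ∧ Q ⊆ T

/-- the edges in T with source in W on cycles are all there (for graphs without exits) -/
def CycSat (G : Gr V E) (W : Finset V) (T : Finset E) : Prop :=
  ∀ e, G.s e ∈ W → Cyc G (G.s e) → e ∈ T

/-- the source and the range of the edges in T belong to W -/
def Ends (G : Gr V E) (W : Finset V) (T : Finset E) : Prop := ∀ e ∈ T, G.s e ∈ W ∧ G.r e ∈ W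

/-- regular vertices: they emit at least one and only finitely many edges -/
def Regu (G : Gr V E) (x : V) : Prop := ∃ Q : Finset E, (∀ e, e ∈ Q ↔ G.s e = x) ∧ Q.Nonempty

/-- a finite subgraph inside N, containing the cycles through its vertices -/
def Nice (G : Gr V E) (N : Set V) (W : Finset V) (T : Finset E) : Prop :=
  (∀ x ∈ W, x ∈ N) ∧ CycSat G W T ∧ Ends G W T

end graph

/-! ### Corners -/

section corner

variable {V : Type v} {E : Type w}

/-- the sum of the vertices in W -/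
noncomputable def eW (K : Type u) [CommRing K] (G : Gr V E) (W : Finset V) : UA K G :=
  ∑ x ∈ W, vx K G x

/-- the corner of a set N of vertices: the elements a = e a e, e a finite sum of vertices in N -/
def Cor (K : Type u) [CommRing K] (G : Gr V E) (N : Set V) : Set (UA K G) :=
  {a | ∃ W : Finset V, (∀ x ∈ W, x ∈ N) ∧ eW K G W * a * eW K G W = a}

/-- the generators with vertices in N: vertices in N, edges and ghost edges with source in N -/
def gensOf (K : Type u) [CommRing K] (G : Gr V E) (N : Set V) : Set (UA K G) :=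
  {a | (∃ x ∈ N, a = vx K G x) ∨ ∃ e, G.s e ∈ N ∧ (a = ed K G e ∨ a = gh K G e)}

end corner

/-! ### Matrix systems -/

/-- A finite system of matrix units with unitaries in a ring with involution: the elements
`c i x(b i)^k star (c j)` with `b i = b j` multiply like matrix units over `Z[x, 1/x]`.
`b i` is the base index of the block of `i`, `lau` marks the blocks of Laurent type
(only its value at the base counts). -/
structure Sys (R : Type u) [Ring R] [StarRing R] where
  I : Type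
  fI : Fintype I
  dI : DecidableEq I
  b : I → I
  lau : I → Prop
  c : I → R
  x : I → R
  bb : ∀ i, b (b i) = b i
  cc : ∀ i, star (c i) * c i = c (b i)
  co : ∀ i j, i ≠ j → star (c i) * c j = 0
  cb : ∀ i, c i * c (b i) = c i
  cx : ∀ i, c (b i) * x (b i) = x (b i)
  xs : ∀ i, x (b i) * star (x (b i)) = c (b i)
  sx : ∀ i, star (x (b i)) * x (b i) = c (b i)
  xl : ∀ i, ¬ lau (b i) → x (b i) = c (b i)

attribute [instance] Sys.fI Sys.dI

section sys

variable {R : Type u} [Ring R] [StarRing R]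

/-- integer powers of a unitary x of the corner of p -/
def zp {R : Type u} [Ring R] [StarRing R] (p x : R) : ℤ → R
  | Int.ofNat n => p * x ^ n
  | Int.negSucc n => p * star x ^ (n + 1)

/-- powers of the unitary of the block of base o -/
def Sys.xp (σ : Sys R) (o : σ.I) : ℤ → R := zp (σ.c o) (σ.x o)

/-- the index set of the basis -/
def Sys.Bx (σ : Sys R) : Type :=
  {t : σ.I × σ.I × ℤ // σ.b t.1 = σ.b t.2.1 ∧ (σ.lau (σ.b t.1) ∨ t.2.2 = 0)}

/-- the basis -/
def Sys.w (σ : Sys R) (t : σ.Bx) : R :=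
  σ.c t.1.1 * σ.xp (σ.b t.1.1) t.1.2.2 * star (σ.c t.1.2.1)

/-- its linear span over k -/
def Sys.spn (k : Type v) [CommRing k] [Algebra k R] (σ : Sys R) : Submodule k R :=
  Submodule.span k (Set.range σ.w)

/-- the diagonal projections -/
def Sys.dg (σ : Sys R) (D : Finset σ.I) : R := ∑ i ∈ D, σ.c i * star (σ.c i)

/-- the value of a Laurent polynomial at the unitary of the block of base o -/
def Sys.lv (k : Type v) [CommRing k] [Algebra k R] (σ : Sys R) (o : σ.I)
    (f : LaurentPolynomial k) : R := f.coeff.sum fun n a => a • σ.xp o n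

/-- the block matrices: entries vanish unless the blocks agree, entries in the blocks which are
not of Laurent type are constants -/
def Sys.BM (k : Type v) [CommRing k] (σ : Sys R) : Set (Matrix σ.I σ.I (LaurentPolynomial k)) :=
  {A | ∀ i j, A i j ≠ 0 → σ.b i = σ.b j ∧ (σ.lau (σ.b i) ∨ ∃ a : k, A i j = LaurentPolynomial.C a)}

/-- the value of a block matrix -/
def Sys.ev (k : Type v) [CommRing k] [Algebra k R] (σ : Sys R)
    (A : Matrix σ.I σ.I (LaurentPolynomial k)) : R :=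
  ∑ i, ∑ j, σ.c i * σ.lv k (σ.b i) (A i j) * star (σ.c j)

/-- the ring generated by the system -/
def Sys.rng (σ : Sys R) : NonUnitalSubring R :=
  NonUnitalSubring.closure {a | ∃ i, a = σ.c i ∨ a = star (σ.c i) ∨ a = σ.x (σ.b i) ∨
    a = star (σ.x (σ.b i))}

/-- linear independence of the basis over k -/
def Sys.Ind (k : Type v) [CommRing k] [Algebra k R] (σ : Sys R) : Prop :=
  ∀ f : σ.Bx →₀ k, (f.sum fun t a => a • σ.w t) = 0 → f = 0

/-- linear independence of the powers of the unitaries in the base corners -/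
def Sys.BInd (k : Type v) [CommRing k] [Algebra k R] (σ : Sys R) : Prop :=
  (∀ i, ∀ a : k, a • σ.c (σ.b i) = 0 → a = 0) ∧
    ∀ i, σ.lau (σ.b i) → ∀ f : ℤ →₀ k, (f.sum fun n a => a • σ.xp (σ.b i) n) = 0 → f = 0

/-- image of a system under a homomorphism of rings with involution -/
def Sys.map {R' : Type v} [Ring R'] [StarRing R'] (σ : Sys R) (φ : R →+* R')
    (hφ : ∀ a, φ (star a) = star (φ a)) : Sys R' where
  I := σ.I
  fI := σ.fI
  dI := σ.dI
  b := σ.b
  lau := σ.lau
  c i := φ (σ.c i)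
  x i := φ (σ.x i)
  bb := σ.bb
  cc i := by rw [← hφ, ← map_mul, σ.cc]
  co i j h := by rw [← hφ, ← map_mul, σ.co i j h, map_zero]
  cb i := by rw [← map_mul, σ.cb]
  cx i := by rw [← map_mul, σ.cx]
  xs i := by rw [← hφ, ← map_mul, σ.xs]
  sx i := by rw [← hφ, ← map_mul, σ.sx]
  xl i h := by rw [σ.xl i h]

end sys

section prodsys

variable {R : Type u} [Ring R] [StarRing R] {R' : Type v} [Ring R'] [StarRing R']

/-- first coordinates of a system in a product -/
def Sys.fst (σ : Sys (R × R')) : Sys R := σ.map (RingHom.fst R R') fun _ => rfl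

/-- second coordinates of a system in a product -/
def Sys.snd (σ : Sys (R × R')) : Sys R' := σ.map (RingHom.snd R R') fun _ => rfl

end prodsys

section lift

variable {R : Type u} [Ring R] [StarRing R] {R' : Type v} [Ring R'] [StarRing R']

/-- d, y satisfy the relations of a system with the indices of τ -/
structure Lf (τ : Sys R') (d y : τ.I → R) : Prop where
  cc : ∀ i, star (d i) * d i = d (τ.b i)
  co : ∀ i j, i ≠ j → star (d i) * d j = 0
  cb : ∀ i, d i * d (τ.b i) = d i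
  cx : ∀ i, d (τ.b i) * y (τ.b i) = y (τ.b i)
  xs : ∀ i, y (τ.b i) * star (y (τ.b i)) = d (τ.b i)
  sx : ∀ i, star (y (τ.b i)) * y (τ.b i) = d (τ.b i)
  xl : ∀ i, ¬ τ.lau (τ.b i) → y (τ.b i) = d (τ.b i)

/-- the system with entries (d i, c i), (y i, x i) in the product -/
def Sys.prd (τ : Sys R') (d y : τ.I → R) (h : Lf τ d y) : Sys (R × R') where
  I := τ.I
  fI := τ.fI
  dI := τ.dI
  b := τ.b
  lau := τ.lau
  c i := (d i, τ.c i)
  x i := (y i, τ.x i)
  bb := τ.bb
  cc i := Prod.ext (h.cc i) (τ.cc i)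
  co i j hij := Prod.ext (h.co i j hij) (τ.co i j hij)
  cb i := Prod.ext (h.cb i) (τ.cb i)
  cx i := Prod.ext (h.cx i) (τ.cx i)
  xs i := Prod.ext (h.xs i) (τ.xs i)
  sx i := Prod.ext (h.sx i) (τ.sx i)
  xl i hi := Prod.ext (h.xl i hi) (τ.xl i hi)

/-- the system itself as a lift -/
theorem Sys.lf (τ : Sys R') : Lf τ τ.c τ.x where
  cc := τ.cc
  co := τ.co
  cb := τ.cb
  cx := τ.cx
  xs := τ.xs
  sx := τ.sx
  xl := τ.xl

end lift

/-! ### Families and stages -/

section stage

variable {R : Type u} [Ring R] [StarRing R] {V : Type v} {E : Type w}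

/-- a family for the finite subgraph (W, T) of G in a ring with involution -/
structure IsFam (G : Gr V E) (W : Finset V) (T : Finset E) (P : V → R) (S : E → R) : Prop where
  ends : Ends G W T
  pp : ∀ x ∈ W, P x * P x = P x
  ps : ∀ x ∈ W, star (P x) = P x
  pq : ∀ x ∈ W, ∀ y ∈ W, x ≠ y → P x * P y = 0
  sS : ∀ e ∈ T, P (G.s e) * S e = S e
  Sr : ∀ e ∈ T, S e * P (G.r e) = S e
  SS : ∀ e ∈ T, star (S e) * S e = P (G.r e)
  Sg : ∀ e ∈ T, ∀ g ∈ T, e ≠ g → star (S e) * S g = 0
  ck : ∀ x ∈ W, ∀ Q : Finset E, (∀ e, e ∈ Q ↔ G.s e = x) → Q.Nonempty → Q ⊆ T →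
    P x = ∑ e ∈ Q, S e * star (S e)

/-- the element of a path -/
def wd (S : E → R) (l : List E) : R := (l.map S).prod

/-- the generators of the stage -/
def gset (W : Finset V) (T : Finset E) (P : V → R) (S : E → R) : Set R :=
  {a | (∃ x ∈ W, a = P x) ∨ (∃ e ∈ T, a = S e) ∨ ∃ e ∈ T, a = star (S e)}

open Classical in
/-- σ describes the ring generated by the family P, S of the finite subgraph (W, T); st is the
starting vertex of an index. -/
structure Stg (G : Gr V E) (W : Finset V) (T : Finset E) (P : V → R) (S : E → R)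
    (σ : Sys R) (st : σ.I → V) : Prop where
  stW : ∀ i, st i ∈ W
  sum : ∀ x ∈ W, P x = σ.dg (Finset.univ.filter fun i => st i = x)
  rch : ∀ i, GRch G (st i) (st (σ.b i))
  lauB : ∀ i, σ.lau (σ.b i) → σ.c (σ.b i) = P (st (σ.b i)) ∧
    ∃ l, Ret G (st (σ.b i)) l ∧ σ.x (σ.b i) = P (st (σ.b i)) * wd S l
  opB : ∀ i, ¬ σ.lau (σ.b i) → ¬ Cyc G (st (σ.b i)) ∧ ¬ Cl G T (st (σ.b i)) ∧
    σ.c (σ.b i) = P (st (σ.b i)) -
      ∑ g ∈ T.filter (fun g => G.s g = st (σ.b i)), S g * star (S g)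
  opU : ∀ i j, ¬ σ.lau (σ.b i) → ¬ σ.lau (σ.b j) → st (σ.b i) = st (σ.b j) → σ.b i = σ.b j
  opE : ∀ x ∈ W, ¬ Cyc G x → ¬ Cl G T x → ∃ i, σ.b i = i ∧ ¬ σ.lau i ∧ st i = x
  cyc : ∀ x ∈ W, Cyc G x → ∃ i, st i = x ∧ σ.lau (σ.b i) ∧ P x = σ.c i * star (σ.c i) ∧
    ∀ l, Ret G x l → P x * wd S l = σ.c i * σ.x (σ.b i) * star (σ.c i)
  edge : ∀ e ∈ T, S e ∈ σ.rng
  gen : ∀ i, σ.c i ∈ NonUnitalSubring.closure (gset W T P S) ∧
    σ.x (σ.b i) ∈ NonUnitalSubring.closure (gset W T P S)

end stage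

section bi

variable {V : Type v} {E : Type w} (K : Type u) [CommRing K] [StarRing K] (G : Gr V E)

/-- the vertices over Z and over K -/
noncomputable def bP (x : V) : UA ℤ G × UA K G := (vx ℤ G x, vx K G x)

/-- the edges over Z and over K -/
noncomputable def bS (e : E) : UA ℤ G × UA K G := (ed ℤ G e, ed K G e)

/-- a stage of L_Z(G) and L_K(G) with the same indices -/
structure BStg (W : Finset V) (T : Finset E) (σ : Sys (UA ℤ G × UA K G)) (st : σ.I → V) : Prop where
  sat : CycSat G W T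
  ends : Ends G W T
  stg : Stg G W T (bP K G) (bS K G) σ st
  indZ : σ.fst.Ind ℤ
  indK : σ.snd.Ind K

end bi

/-! ### Equivalence of idempotents -/

/-- p and q are equivalent by elements of C -/
def Mv {R : Type u} [Mul R] (C : Set R) (p q : R) : Prop :=
  ∃ a ∈ C, ∃ b ∈ C, a * b = p ∧ b * a = q ∧ p * a = a ∧ a * q = a ∧ q * b = b ∧ b * p = b

/-- projections of a ring with involution -/
def IsPrj {R : Type u} [Mul R] [Star R] (p : R) : Prop := p * p = p ∧ star p = p

/-- the canonical ring homomorphism from the algebra over Z to the algebra over K -/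
noncomputable def io (K : Type u) [CommRing K] {V : Type v} {E : Type w} (G : Gr V E) :
    UA ℤ G →ₐ[ℤ] UA K G :=
  Fam.lift { p := vx K G, a := ed K G, b := gh K G, vv := vx_vx, vw := fun x y h => vx_ne h,
             se := s_ed, er := ed_r, rg := r_gh, gs := gh_s, ge := gh_ed,
             gf := fun e f h => gh_ed_ne h, ck := ck_sum }

/-- x is the canonical generator of the corner of the projection p (p is *-equivalent to a vertex on
a cycle) -/
def LauGen {V : Type v} {E : Type w} (G : Gr V E) (p x : UA ℤ G) : Prop :=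
  ∃ y l, Ret G y l ∧ ∃ s, s ∈ LP ℤ G ∧ s * star s = p ∧ star s * s = vx ℤ G y ∧
    s * vx ℤ G y = s ∧ x = s * (vx ℤ G y * wd (ed ℤ G) l) * star s

section two

variable {V : Type v} {E : Type w} {V' : Type v'} {E' : Type w'}

/-- exchange of the coordinates -/
def sw {A : Type u} {B : Type u'} [NonUnitalNonAssocRing A] [NonUnitalNonAssocRing B]
    (S : NonUnitalSubring (A × B)) : NonUnitalSubring (B × A) where
  carrier := {t | (t.2, t.1) ∈ S}
  mul_mem' := fun ha hb => S.mul_mem ha hb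
  add_mem' := fun ha hb => S.add_mem ha hb
  zero_mem' := S.zero_mem
  neg_mem' := fun ha => S.neg_mem ha

/-- S is the graph of an isomorphism between A and B -/
structure GIso {R : Type u} {R' : Type u'} [NonUnitalNonAssocRing R] [NonUnitalNonAssocRing R']
    (S : NonUnitalSubring (R × R')) (A : Set R) (B : Set R') : Prop where
  m1 : ∀ a b, (a, b) ∈ S → a ∈ A
  m2 : ∀ a b, (a, b) ∈ S → b ∈ B
  t1 : ∀ a ∈ A, ∃ b, (a, b) ∈ S
  t2 : ∀ b ∈ B, ∃ a, (a, b) ∈ S
  z1 : ∀ a, (a, 0) ∈ S → a = 0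
  z2 : ∀ b, (0, b) ∈ S → b = 0

variable {K₁ : Type u} [Field K₁] {K₂ : Type u'} [Field K₂] {G : Gr V E} {F : Gr V' E'}

/-- the projections p over Z of G and q over Z of F correspond to each other under the ring
isomorphism with graph Φ, up to equivalence -/
def Eqf (Φ : NonUnitalSubring (UA K₁ G × UA K₂ F)) (p : UA ℤ G) (q : UA ℤ F) : Prop :=
  ∃ r, (io K₁ G p, r) ∈ Φ ∧ Mv (LP K₂ F : Set (UA K₂ F)) r (io K₂ F q)

/-- good partial *-isomorphisms between L_Z(G) and L_Z(F) -/
structure Good (Φ : NonUnitalSubring (UA K₁ G × UA K₂ F))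
    (S : NonUnitalSubring (UA ℤ G × UA ℤ F)) : Prop where
  mL : ∀ a b, (a, b) ∈ S → a ∈ LP ℤ G ∧ b ∈ LP ℤ F
  st : ∀ a b, (a, b) ∈ S → (star a, star b) ∈ S
  z1 : ∀ a, (a, 0) ∈ S → a = 0
  z2 : ∀ b, (0, b) ∈ S → b = 0
  eq : ∀ p q, (p, q) ∈ S → IsPrj p → Eqf Φ p q
  lg : ∀ p q x y, (p, q) ∈ S → (x, y) ∈ S → (LauGen G p x ↔ LauGen F q y)

/-- A is the ring of a stage of G inside N -/
def GTp (G : Gr V E) (N : Set V) (A : Set (UA ℤ G)) : Prop :=
  ∃ (W : Finset V) (T : Finset E) (σ : Sys (UA ℤ G)) (st : σ.I → V),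
    Nice G N W T ∧ Stg G W T (vx ℤ G) (ed ℤ G) σ st ∧ σ.Ind ℤ ∧ A = (σ.rng : Set (UA ℤ G))

/-- S is compatible with the isomorphism S0 of the corners of H and H' -/
structure Cpt (H : Set V) (H' : Set V') (S0 S : NonUnitalSubring (UA ℤ G × UA ℤ F)) : Prop where
  c1 : ∀ a b, (a, b) ∈ S → a ∈ Cor ℤ G H → (a, b) ∈ S0
  c2 : ∀ a b, (a, b) ∈ S → b ∈ Cor ℤ F H' → (a, b) ∈ S0
  c3 : ∀ a b, (a, b) ∈ S → (a ∈ Cor ℤ G Hᶜ ↔ b ∈ Cor ℤ F H'ᶜ)

/-- the relative situation: N, M hereditary, H, H' hereditary parts of them, Φ the graph of an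
isomorphism of the algebras over fields which respects the corners of H, H' and N, M; S0 a good
*-isomorphism of the corners of H, H' over Z -/
structure Rel4 (Φ : NonUnitalSubring (UA K₁ G × UA K₂ F)) (N H : Set V) (M H' : Set V')
    (S0 : NonUnitalSubring (UA ℤ G × UA ℤ F)) : Prop where
  nG : NoExit G
  nF : NoExit F
  iso : GIso Φ (LP K₁ G : Set (UA K₁ G)) (LP K₂ F : Set (UA K₂ F))
  hN : Her G N
  hH : Her G H
  hM : Her F M
  hH' : Her F H'
  HN : H ⊆ N
  HM : H' ⊆ M
  fN : ∀ a b, (a, b) ∈ Φ → (a ∈ Cor K₁ G N ↔ b ∈ Cor K₂ F M)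
  fH : ∀ a b, (a, b) ∈ Φ → (a ∈ Cor K₁ G H ↔ b ∈ Cor K₂ F H')
  good : Good Φ S0
  isoS : GIso S0 (Cor ℤ G H) (Cor ℤ F H')

/-- a lift d, y to G of the system τ of a stage of F, compatible with S0 and Φ -/
structure ExData (Φ : NonUnitalSubring (UA K₁ G × UA K₂ F)) (N H : Set V) (H' : Set V')
    (S0 : NonUnitalSubring (UA ℤ G × UA ℤ F)) (τ : Sys (UA ℤ F)) (st : τ.I → V')
    (d y : τ.I → UA ℤ G) : Prop where
  lf : Lf τ d y
  dN : ∀ i, d i ∈ Cor ℤ G N ∧ y (τ.b i) ∈ Cor ℤ G N
  dH : ∀ i, st i ∈ H' → (d i, τ.c i) ∈ S0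
  yH : ∀ i, st (τ.b i) ∈ H' → (y (τ.b i), τ.x (τ.b i)) ∈ S0
  dO : ∀ i, st i ∉ H' → d i * star (d i) ∈ Cor ℤ G (N \ H)
  eq : ∀ i, Eqf Φ (d (τ.b i)) (τ.c (τ.b i))
  lg : ∀ i, τ.lau (τ.b i) → LauGen G (d (τ.b i)) (y (τ.b i))

end two

section conj

variable {V : Type v} {E : Type w} {G : Gr V E}

/-- a second copy d, y of the system σ of a stage of G inside N, which agrees with it on H -/
structure CjData (K : Type u) [Field K] (N H : Set V) (σ : Sys (UA ℤ G)) (st : σ.I → V)
    (d y : σ.I → UA ℤ G) : Prop where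
  lf : Lf σ d y
  dN : ∀ i, d i ∈ Cor ℤ G N ∧ y (σ.b i) ∈ Cor ℤ G N
  h1 : ∀ i, st i ∈ H → d i = σ.c i
  h2 : ∀ i, st (σ.b i) ∈ H → y (σ.b i) = σ.x (σ.b i)
  hd : ∀ i, st i ∉ H → d i * star (d i) ∈ Cor ℤ G Hᶜ
  hm : ∀ i, Mv (LP K G : Set (UA K G)) (io K G (σ.c (σ.b i))) (io K G (d (σ.b i)))
  hl : ∀ i, σ.lau (σ.b i) → LauGen G (d (σ.b i)) (y (σ.b i))

end conj

end Pool.Agent.Work.MP_2b4d3b_al.NE
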