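import Pool.Agent.Work.MP_2b4d3b_al.NE.Defs
import Pool.Agent.Work.MP_2b4d3b_al.NE.SwL
import Pool.Agent.Work.MP_2b4d3b_al.NE.LiftL

/-
Lifting a family of orthogonal projections of F to G. PROOF. Let (f i, io K2 F (p i)) in Φ (t2: io (p i) in LP). The f i are orthogonal
idempotents (z1). io (p i) in Cor K2 F (M \ H') (io_Cor), so f i in Cor K1 G (N \ H) (cor_compl). lift_orth with Z = N \ H: projections q i
in Cor Z G (N \ H), orthogonal, Mv (LP K1 G) (f i) (io (q i)). Transport by Φ (Mv_graph): (io (q i), r) in Φ, Mv (LP K2 F) (io (p i)) r, so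
Eqf Φ (q i) (p i) (Mv_symm).
-/

set_option linter.unusedVariables false
set_option linter.style.longLine false
set_option linter.unusedSectionVars false

namespace Pool.Agent.Work.MP_2b4d3b_al.NE

universe u v w u' v' w'

open Finset

variable {K₁ : Type u} [Field K₁] {K₂ : Type u'} [Field K₂] {V : Type v} {E : Type w}
  {V' : Type v'} {E' : Type w'} {G : Gr V E} {F : Gr V' E'}
  {Φ : NonUnitalSubring (UA K₁ G × UA K₂ F)} {N H : Set V} {M H' : Set V'}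
  {S0 : NonUnitalSubring (UA ℤ G × UA ℤ F)}

theorem ex_proj (h : Rel4 Φ N H M H' S0) {m : ℕ} (p : Fin m → UA ℤ F)
    (hp : ∀ i, p i ∈ Cor ℤ F (M \ H') ∧ IsPrj (p i)) (orth : ∀ i j, i ≠ j → p i * p j = 0) :
    ∃ q : Fin m → UA ℤ G, (∀ i, q i ∈ Cor ℤ G (N \ H) ∧ IsPrj (q i)) ∧
      (∀ i j, i ≠ j → q i * q j = 0) ∧ ∀ i, Eqf Φ (q i) (p i) := by
  have hcor : ∀ i, io K₂ F (p i) ∈ Cor K₂ F (M \ H') := fun i => io_Cor (hp i).1
  have hex : ∀ i, ∃ f, (f, io K₂ F (p i)) ∈ Φ := fun i => h.iso.t2 _ (Cor_le_LP (hcor i))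
  choose f hf using hex
  have hidem : ∀ i, f i * f i = f i := by
    intro i
    have h1 : (f i * f i, io K₂ F (p i) * io K₂ F (p i)) ∈ Φ := Φ.mul_mem (hf i) (hf i)
    rw [← map_mul, (hp i).2.1] at h1
    exact (giso_uniq (b' := io K₂ F (p i)) h.iso).2 h1 (hf i)
  have horth : ∀ i j, i ≠ j → f i * f j = 0 := by
    intro i j hij
    have h1 : (f i * f j, io K₂ F (p i) * io K₂ F (p j)) ∈ Φ := Φ.mul_mem (hf i) (hf j)
    rw [← map_mul, orth i j hij, map_zero] at h1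
    exact h.iso.z1 _ h1
  have hfc : ∀ i, f i ∈ Cor K₁ G (N \ H) := fun i => (cor_compl h (hf i)).2 (hcor i)
  obtain ⟨q, hq1, hq2, hq3⟩ := lift_orth h.nG K₁ f hfc hidem horth
  refine ⟨q, hq1, hq2, fun i => ?_⟩
  obtain ⟨r, hr⟩ := h.iso.t1 (io K₁ G (q i)) (Cor_le_LP (io_Cor (hq1 i).1))
  exact ⟨r, hr, Mv_symm (Mv_graph h.iso (hf i) hr (hq3 i))⟩

end Pool.Agent.Work.MP_2b4d3b_al.NE
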