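import Pool.Agent.Work.MP_2b4d3b_al.NE.Defs
import Pool.Agent.Work.MP_2b4d3b_al.NE.Loc
import Pool.Agent.Work.MP_2b4d3b_al.NE.LauPid
import Pool.Agent.Work.MP_2b4d3b_al.NE.MvB
import Pool.Agent.Work.MP_2b4d3b_al.NE.LiftL

/-
The corner of a cyclic vertex over a field K. PROOF. let _ : StarRing K := starRingOfComm. For finitely many elements of LP K G there is a stage
σ (Loc.loc, N = univ, W0 = {y}, B = the elements) with them in σ.snd.spn K. By Stg.cyc (for bstg_snd) there is i with st i = y, lau (b i),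
vx K G y = c_i c_i* and vx y * wd (ed) l = c_i x_(b i) c_i*. corner_elt: the elements of the corner of vx y are c_i lv(f) c_i*.
corK_prim: e1 = c_i lv(f) c_i*, e2 = c_i lv(g) c_i* (e1 = vx y e1 vx y since e1 = e1 (e1 + e2)), products: c_i lv(f g) c_i* = 0 so lv (f g) = 0
(multiply by c_i*, c_i) and f g = 0 (lv_inj), LaurentPolynomial K is a domain. cor_not_unit: io (vx y + X) = c_i lv(1 + T) c_i*
(io_vx, io_wd), nonzero by lv_inj and one_add_T_ne; if it times z is vx y, then z' = vx y z vx y = c_i lv(g) c_i* and (1 + T) g = 1 by lv_inj: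
one_add_T_unit.
-/

set_option linter.unusedVariables false
set_option linter.style.longLine false
set_option linter.unusedSectionVars false

namespace Pool.Agent.Work.MP_2b4d3b_al.NE

universe u v w u' v' w'

open Finset

variable {V : Type v} {E : Type w} {G : Gr V E}

private theorem stgK (K : Type u) [Field K] [StarRing K] (hG : NoExit G) {y : V} (hy : Cyc G y)
    (B : Finset (UA K G)) (hB : ∀ b ∈ B, b ∈ LP K G) :
    ∃ (σ : Sys (UA K G)) (i : σ.I), σ.Ind K ∧ σ.lau (σ.b i) ∧
      vx K G y = σ.c i * star (σ.c i) ∧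
      (∀ l, Ret G y l → vx K G y * wd (ed K G) l = σ.c i * σ.x (σ.b i) * star (σ.c i)) ∧
      ∀ b ∈ B, b ∈ σ.spn K := by
  obtain ⟨W, T, σ, st, hn, hW, hb, -, hB'⟩ := loc K hG (N := Set.univ)
    (fun _ _ => Set.mem_univ _) {y} (fun _ _ => Set.mem_univ _) ∅
    (fun a ha => absurd ha (Finset.notMem_empty a)) B
    (fun b hb => by rw [← LP_eq_Cor]; exact hB b hb)
  have hs := bstg_snd hb
  obtain ⟨i, h1, h2, h3, h4⟩ := hs.cyc y (hW (Finset.mem_singleton_self y)) hy
  exact ⟨σ.snd, i, hb.indK, h2, h3, h4, hB'⟩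

/-- strip the partial isometry -/
private theorem strip {K : Type u} [Field K] [StarRing K] (σ : Sys (UA K G)) (i : σ.I)
    (f : LaurentPolynomial K) :
    star (σ.c i) * (σ.c i * σ.lv K (σ.b i) f * star (σ.c i)) * σ.c i = σ.lv K (σ.b i) f := by
  have h1 : star (σ.c i) * (σ.c i * σ.lv K (σ.b i) f * star (σ.c i)) * σ.c i =
      (star (σ.c i) * σ.c i) * σ.lv K (σ.b i) f * (star (σ.c i) * σ.c i) := by
    simp only [mul_assoc]
  rw [h1, σ.cc, (c_lv σ (σ.bb i) f).1, (c_lv σ (σ.bb i) f).2]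

theorem corK_prim (hG : NoExit G) (K : Type u) [Field K] {y : V} (hy : Cyc G y) {e1 e2 : UA K G}
    (h1 : e1 ∈ LP K G) (h2 : e2 ∈ LP K G) (i1 : e1 * e1 = e1) (i2 : e2 * e2 = e2)
    (ho : e1 * e2 = 0 ∧ e2 * e1 = 0) (hs : e1 + e2 = vx K G y) : e1 = 0 ∨ e2 = 0 := by
  classical
  let _ : StarRing K := starRingOfComm
  obtain ⟨σ, i, hI, hl, hv, -, hB⟩ := stgK K hG hy {e1, e2} (by
    intro b hb
    rcases Finset.mem_insert.1 hb with rfl | hb
    · exact h1
    · rw [Finset.mem_singleton.1 hb]; exact h2)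
  have b1 := hB e1 (by simp)
  have b2 := hB e2 (by simp)
  have e1v : vx K G y * e1 * vx K G y = e1 := by
    rw [← hs, add_mul, i1, ho.2, add_zero, mul_add, i1, ho.1, add_zero]
  have e2v : vx K G y * e2 * vx K G y = e2 := by
    rw [← hs, add_mul, i2, ho.1, zero_add, mul_add, i2, ho.2, zero_add]
  obtain ⟨f, hf, ef⟩ := corner_elt (k := K) σ i b1
  obtain ⟨g, hg, eg⟩ := corner_elt (k := K) σ i b2
  rw [← hv, e1v] at ef
  rw [← hv, e2v] at eg
  have hz : σ.lv K (σ.b i) (f * g) = 0 := by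
    rw [← strip σ i (f * g), ← corner_mul, ← ef, ← eg, ho.1, mul_zero, zero_mul]
  have hfg := lv_inj σ hI i (Or.inl hl) hz
  rcases mul_eq_zero.1 hfg with h | h
  · left
    rw [ef, h, lv_zero, mul_zero, zero_mul]
  · right
    rw [eg, h, lv_zero, mul_zero, zero_mul]

private theorem pth_grch {l : List E} : ∀ {x y : V}, Pth G x l y → GRch G x y := by
  induction l with
  | nil =>
    intro x y h
    have h' : x = y := h
    rw [h']
    exact Relation.ReflTransGen.refl
  | cons e l ih =>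
    intro x y h
    exact Relation.ReflTransGen.head ⟨e, h.1, rfl⟩ (ih h.2)

private theorem ret_cyc' {y : V} {l : List E} (hl : Ret G y l) : Cyc G y := by
  obtain ⟨h1, h2, -⟩ := hl
  cases l with
  | nil => exact absurd rfl h1
  | cons e l => exact ⟨e, h2.1, pth_grch h2.2⟩

theorem cor_not_unit (hG : NoExit G) (K : Type u) [Field K] {y : V} {l : List E}
    (hl : Ret G y l) : io K G (vx ℤ G y + vx ℤ G y * wd (ed ℤ G) l) ≠ 0 ∧
      ∀ z ∈ LP K G, io K G (vx ℤ G y + vx ℤ G y * wd (ed ℤ G) l) * z ≠ vx K G y := by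
  classical
  let _ : StarRing K := starRingOfComm
  have hy : Cyc G y := ret_cyc' hl
  have key : ∀ (σ : Sys (UA K G)) (i : σ.I), vx K G y = σ.c i * star (σ.c i) →
      (∀ l, Ret G y l → vx K G y * wd (ed K G) l = σ.c i * σ.x (σ.b i) * star (σ.c i)) →
      io K G (vx ℤ G y + vx ℤ G y * wd (ed ℤ G) l) =
        σ.c i * σ.lv K (σ.b i) (1 + LaurentPolynomial.T 1) * star (σ.c i) := by
    intro σ i hv hx
    have hone : σ.lv K (σ.b i) (1 : LaurentPolynomial K) = σ.c (σ.b i) := by
      rw [← LaurentPolynomial.T_zero, lv_T, xp_zero σ (σ.bb i)]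
    rw [map_add, map_mul, io_vx, io_wd, hx l hl, hv, lv_add, hone, lv_T, xp_one σ (σ.bb i),
      mul_add, add_mul, σ.cb]
  constructor
  · obtain ⟨σ, i, hI, hl', hv, hx, -⟩ := stgK K hG hy ∅
      (fun a ha => absurd ha (Finset.notMem_empty a))
    intro h0
    have hz : σ.lv K (σ.b i) (1 + LaurentPolynomial.T 1) = 0 := by
      rw [← strip σ i, ← key σ i hv hx, h0, mul_zero, zero_mul]
    exact one_add_T_ne K (lv_inj σ hI i (Or.inl hl') hz)
  · intro z hz he
    obtain ⟨σ, i, hI, hl', hv, hx, hB⟩ := stgK K hG hy {z}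
      (fun b hb => by rw [Finset.mem_singleton.1 hb]; exact hz)
    have bz := hB z (by simp)
    obtain ⟨g, hg, eg⟩ := corner_elt (k := K) σ i bz
    have hone : σ.lv K (σ.b i) (1 : LaurentPolynomial K) = σ.c (σ.b i) := by
      rw [← LaurentPolynomial.T_zero, lv_T, xp_zero σ (σ.bb i)]
    have hk := key σ i hv hx
    set a := io K G (vx ℤ G y + vx ℤ G y * wd (ed ℤ G) l) with ha
    have hvv : vx K G y * vx K G y = vx K G y := vx_vx y
    have hcv : star (σ.c i) * vx K G y = star (σ.c i) := by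
      rw [hv, ← mul_assoc, σ.cc]
      have := congrArg star (σ.cb i)
      rw [star_mul, (c_base σ (σ.bb i)).1] at this
      exact this
    have hav : a * vx K G y = a := by
      rw [hk, mul_assoc, hcv]
    have h3 : a * (vx K G y * z * vx K G y) = vx K G y := by
      rw [← mul_assoc, ← mul_assoc, hav, he, hvv]
    rw [hv, eg, hk, corner_mul] at h3
    have h4 : σ.lv K (σ.b i) ((1 + LaurentPolynomial.T 1) * g - 1) = 0 := by
      have h5 : σ.lv K (σ.b i) ((1 + LaurentPolynomial.T 1) * g) = σ.lv K (σ.b i) 1 := by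
        rw [← strip σ i ((1 + LaurentPolynomial.T 1) * g), h3, hone, ← σ.cc i]
        rw [← mul_assoc, σ.cc i, mul_assoc, σ.cc i, (c_base σ (σ.bb i)).2]
      have h6 : (1 + LaurentPolynomial.T 1) * g =
          ((1 + LaurentPolynomial.T 1) * g - 1) + 1 := by rw [sub_add_cancel]
      have h7 := lv_add (k := K) σ (σ.b i) ((1 + LaurentPolynomial.T 1) * g - 1) 1
      rw [← h6, h5] at h7
      exact left_eq_add.1 (by rw [add_comm] at h7; exact h7)
    exact one_add_T_unit K g (sub_eq_zero.1 (lv_inj σ hI i (Or.inl hl') h4))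

end Pool.Agent.Work.MP_2b4d3b_al.NE
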