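import Pool.Agent.Work.MP_2b4d3b_al.NE.Defs
import Pool.Agent.Work.MP_2b4d3b_al.NE.LauB
import Pool.Agent.Work.MP_2b4d3b_al.NE.LauK
import Pool.Agent.Work.MP_2b4d3b_al.NE.EqfB

/-
Let LauGen G p x with y, l, s, X = vx y * wd l and Eqf Φ p q: (io p, r) in Φ, a, b in LP K2 F with a b = r, b a = io q, r a = a = a io q,
io q b = b = b r (Mv).
PROOF. lt_prim: suppose q = q1 + q2, orthogonal projections in LP Z F. Put f_k = a (io q_k) b: orthogonal idempotents of LP K2 F with sum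
a io q b = a b = r (f1 f2 = a io q1 (b a) io q2 b = a io q1 io q2 b = 0). Preimages g_k in LP K1 G (t2): orthogonal idempotents with sum io p
(z1). e_k = (io s)* g_k io s, i.e. io (star s) * g_k * io s: orthogonal idempotents with sum vx K1 G y (io s io s* = io p; g_k io p = g_k).
corK_prim: one of them is 0, so g_k = io p g_k io p = io s e_k io s* = 0, f_k = 0, io q_k = io q io q_k io q = b f_k a = 0 (b a = io q), so q_k = 0 by
io_prj_ne. (Over K1 without star use io (star s).)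
lt_elt: z0 = io (p + x) in LP K1 G, (z0, z1) in Φ, z2 = b z1 a. Properties: io q z2 = z2 = z2 io q. z2 <> 0: else z1 = r z1 r = a z2 b = 0,
z0 = 0 (z1 clause), io (vx y + X) = io s* z0 io s = 0, contradiction to cor_not_unit. If z2 z' = io q with z' in LP K2 F (replace z' by io q z' io q):
z1 (a z' b) = (a z2 b)(a z' b) = a z2 io q z' b = a io q b = r; preimage w of a z' b in LP K1 G: z0 w = io p, and then io (vx y + X) * (io s* w io s) =
io s* z0 io s io s* w io s = io s* z0 io p w io s = io s* io p io s = vx y (take w = io p w: a z' b = r (a z' b)): contradiction to cor_not_unit.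
-/

set_option linter.unusedVariables false
set_option linter.style.longLine false
set_option linter.unusedSectionVars false

namespace Pool.Agent.Work.MP_2b4d3b_al.NE

universe u v w u' v' w'

open Finset

variable {K₁ : Type u} [Field K₁] {K₂ : Type u'} [Field K₂] {V : Type v} {E : Type w}
  {V' : Type v'} {E' : Type w'} {G : Gr V E} {F : Gr V' E'}
  {Φ : NonUnitalSubring (UA K₁ G × UA K₂ F)}

private theorem lt_rch {x y : V} {l : List E} (h : Pth G x l y) : GRch G x y := by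
  induction l generalizing x with
  | nil =>
    have h1 : x = y := h
    rw [h1]
    exact Relation.ReflTransGen.refl
  | cons e l ih => exact Relation.ReflTransGen.head ⟨e, h.1, rfl⟩ (ih h.2)

private theorem lt_cyc {y : V} {l : List E} (hl : Ret G y l) : Cyc G y := by
  obtain ⟨h1, h2, -⟩ := hl
  cases l with
  | nil => exact absurd rfl h1
  | cons e l => exact ⟨e, h2.1, lt_rch h2.2⟩

theorem lt_prim (hG : NoExit G) (hF : NoExit F)
    (iso : GIso Φ (LP K₁ G : Set (UA K₁ G)) (LP K₂ F : Set (UA K₂ F))) {p x : UA ℤ G}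
    {q : UA ℤ F} (hq : q ∈ LP ℤ F) (qq : IsPrj q) (h : Eqf Φ p q) (hx : LauGen G p x)
    {q1 q2 : UA ℤ F} (h1 : q1 ∈ LP ℤ F) (h2 : q2 ∈ LP ℤ F) (p1 : IsPrj q1) (p2 : IsPrj q2)
    (ho : q1 * q2 = 0) (hs : q1 + q2 = q) : q1 = 0 ∨ q2 = 0 := by
  obtain ⟨r, hr, a, ha, b, hb, m1, m2, m3, m4, m5, m6⟩ := h
  obtain ⟨y, l, hl, s, hsL, e1, e2, e3, e4⟩ := hx
  have ha' : a ∈ LP K₂ F := ha
  have hb' : b ∈ LP K₂ F := hb
  have ho' : q2 * q1 = 0 := by
    have h3 := congrArg star ho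
    rw [star_mul, p1.2, p2.2, star_zero] at h3
    exact h3
  have a1 : q1 * q = q1 := by rw [← hs, mul_add, p1.1, ho, add_zero]
  have a2 : q * q1 = q1 := by rw [← hs, add_mul, p1.1, ho', add_zero]
  have b1 : q2 * q = q2 := by rw [← hs, mul_add, p2.1, ho', zero_add]
  have b2 : q * q2 = q2 := by rw [← hs, add_mul, p2.1, ho, zero_add]
  -- products of the transported elements
  have fmul : ∀ u v : UA ℤ F, u * q = u →
      (a * io K₂ F u * b) * (a * io K₂ F v * b) = a * io K₂ F (u * v) * b := by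
    intro u v hu
    have h3 : (a * io K₂ F u * b) * (a * io K₂ F v * b) =
        a * (io K₂ F u * (b * a) * io K₂ F v) * b := by
      simp only [mul_assoc]
    rw [h3, m2, ← map_mul, hu, ← map_mul]
  obtain ⟨g1, hg1⟩ := iso.t2 (a * io K₂ F q1 * b) (mul_mem_LP_left _ hb')
  obtain ⟨g2, hg2⟩ := iso.t2 (a * io K₂ F q2 * b) (mul_mem_LP_left _ hb')
  have uniq : ∀ u v : UA K₁ G, ∀ w : UA K₂ F, (u, w) ∈ Φ → (v, w) ∈ Φ → u = v := by
    intro u v w hu hv
    have h3 := Φ.sub_mem hu hv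
    have h4 : (u - v, (0 : UA K₂ F)) ∈ Φ := by
      have h5 : (u, w) - (v, w) = (u - v, (0 : UA K₂ F)) := by
        rw [Prod.mk_sub_mk, sub_self]
      rw [← h5]
      exact h3
    exact sub_eq_zero.mp (iso.z1 _ h4)
  have gm : ∀ u v : UA ℤ F, ∀ g g' : UA K₁ G, u * q = u → (g, a * io K₂ F u * b) ∈ Φ →
      (g', a * io K₂ F v * b) ∈ Φ → (g * g', a * io K₂ F (u * v) * b) ∈ Φ := by
    intro u v g g' hu h3 h4
    have h5 := Φ.mul_mem h3 h4
    rw [← fmul u v hu]
    exact h5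
  have z0 : a * io K₂ F (0 : UA ℤ F) * b = 0 := by rw [map_zero, mul_zero, zero_mul]
  have i1 : g1 * g1 = g1 := by
    refine uniq _ _ _ (gm q1 q1 g1 g1 a1 hg1 hg1) ?_
    rw [p1.1]
    exact hg1
  have i2 : g2 * g2 = g2 := by
    refine uniq _ _ _ (gm q2 q2 g2 g2 b1 hg2 hg2) ?_
    rw [p2.1]
    exact hg2
  have o12 : g1 * g2 = 0 := by
    have h3 := gm q1 q2 g1 g2 a1 hg1 hg2
    rw [ho, z0] at h3
    exact iso.z1 _ h3
  have o21 : g2 * g1 = 0 := by
    have h3 := gm q2 q1 g2 g1 b1 hg2 hg1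
    rw [ho', z0] at h3
    exact iso.z1 _ h3
  have sm : g1 + g2 = io K₁ G p := by
    refine uniq _ _ r ?_ hr
    have h3 := Φ.add_mem hg1 hg2
    have h4 : (g1, a * io K₂ F q1 * b) + (g2, a * io K₂ F q2 * b) = (g1 + g2, r) := by
      rw [Prod.mk_add_mk, ← add_mul, ← mul_add, ← map_add, hs, m4, m1]
    rw [← h4]
    exact h3
  have c1 : g1 * io K₁ G p = g1 := by rw [← sm, mul_add, i1, o12, add_zero]
  have c2 : io K₁ G p * g1 = g1 := by rw [← sm, add_mul, i1, o21, add_zero]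
  have d1 : g2 * io K₁ G p = g2 := by rw [← sm, mul_add, i2, o21, zero_add]
  have d2 : io K₁ G p * g2 = g2 := by rw [← sm, add_mul, i2, o12, zero_add]
  have hS : io K₁ G s * io K₁ G (star s) = io K₁ G p := by rw [← map_mul, e1]
  have hS' : io K₁ G (star s) * io K₁ G p * io K₁ G s = vx K₁ G y := by
    rw [← map_mul, ← map_mul, ← e1, ← mul_assoc, e2, mul_assoc, e2, vx_vx, io_vx]
  have emul : ∀ u v : UA K₁ G, u * io K₁ G p = u →
      (io K₁ G (star s) * u * io K₁ G s) * (io K₁ G (star s) * v * io K₁ G s) =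
        io K₁ G (star s) * (u * v) * io K₁ G s := by
    intro u v hu
    have h3 : (io K₁ G (star s) * u * io K₁ G s) * (io K₁ G (star s) * v * io K₁ G s) =
        io K₁ G (star s) * (u * (io K₁ G s * io K₁ G (star s)) * v) * io K₁ G s := by
      simp only [mul_assoc]
    rw [h3, hS, hu]
  have hsL' : io K₁ G s ∈ LP K₁ G := io_mem hsL
  have hc := corK_prim hG K₁ (lt_cyc hl) (e1 := io K₁ G (star s) * g1 * io K₁ G s)
    (e2 := io K₁ G (star s) * g2 * io K₁ G s)
    (mul_mem_LP_left _ hsL') (mul_mem_LP_left _ hsL')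
    (by rw [emul _ _ c1, i1]) (by rw [emul _ _ d1, i2])
    ⟨by rw [emul _ _ c1, o12, mul_zero, zero_mul], by rw [emul _ _ d1, o21, mul_zero, zero_mul]⟩
    (by rw [← add_mul, ← mul_add, sm, hS'])
  have back : ∀ (u : UA ℤ F) (g : UA K₁ G), u ∈ LP ℤ F → IsPrj u → u * q = u → q * u = u →
      (g, a * io K₂ F u * b) ∈ Φ → g * io K₁ G p = g → io K₁ G p * g = g →
      io K₁ G (star s) * g * io K₁ G s = 0 → u = 0 := by
    intro u g hu pu k1 k2 hg k3 k4 k5
    have h3 : g = 0 := by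
      have h4 : io K₁ G s * (io K₁ G (star s) * g * io K₁ G s) * io K₁ G (star s) =
          (io K₁ G s * io K₁ G (star s)) * g * (io K₁ G s * io K₁ G (star s)) := by
        simp only [mul_assoc]
      rw [k5, mul_zero, zero_mul, hS, k4, k3] at h4
      exact h4.symm
    rw [h3] at hg
    have h5 := iso.z2 _ hg
    refine io_prj_ne hF K₂ hu pu ?_
    have h6 : b * (a * io K₂ F u * b) * a = (b * a) * io K₂ F u * (b * a) := by
      simp only [mul_assoc]
    rw [h5, mul_zero, zero_mul, m2, ← map_mul, ← map_mul, k2, k1] at h6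
    exact h6.symm
  rcases hc with hc | hc
  · exact Or.inl (back q1 g1 h1 p1 a1 a2 hg1 c1 c2 hc)
  · exact Or.inr (back q2 g2 h2 p2 b1 b2 hg2 d1 d2 hc)

theorem lt_elt (hG : NoExit G) (hF : NoExit F)
    (iso : GIso Φ (LP K₁ G : Set (UA K₁ G)) (LP K₂ F : Set (UA K₂ F))) {p x : UA ℤ G}
    {q : UA ℤ F} (hq : q ∈ LP ℤ F) (qq : IsPrj q) (h : Eqf Φ p q) (hx : LauGen G p x) :
    ∃ z ∈ LP K₂ F, z ≠ 0 ∧ io K₂ F q * z = z ∧ z * io K₂ F q = z ∧
      ∀ z' ∈ LP K₂ F, z * z' ≠ io K₂ F q := by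
  obtain ⟨bp, hpL, hxL, bx1, bx2, -, -⟩ := lg_basic hG hx
  obtain ⟨r, hr, a, ha, b, hb, m1, m2, m3, m4, m5, m6⟩ := h
  obtain ⟨y, l, hl, s, hsL, e1, e2, e3, e4⟩ := hx
  have ha' : a ∈ LP K₂ F := ha
  have hb' : b ∈ LP K₂ F := hb
  have uniq : ∀ u v : UA K₁ G, ∀ w : UA K₂ F, (u, w) ∈ Φ → (v, w) ∈ Φ → u = v := by
    intro u v w hu hv
    have h3 := Φ.sub_mem hu hv
    have h4 : (u - v, (0 : UA K₂ F)) ∈ Φ := by
      have h5 : (u, w) - (v, w) = (u - v, (0 : UA K₂ F)) := by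
        rw [Prod.mk_sub_mk, sub_self]
      rw [← h5]
      exact h3
    exact sub_eq_zero.mp (iso.z1 _ h4)
  have uniq' : ∀ u : UA K₁ G, ∀ v w : UA K₂ F, (u, v) ∈ Φ → (u, w) ∈ Φ → v = w := by
    intro u v w hu hv
    have h3 := Φ.sub_mem hu hv
    have h4 : ((0 : UA K₁ G), v - w) ∈ Φ := by
      have h5 : (u, v) - (u, w) = ((0 : UA K₁ G), v - w) := by
        rw [Prod.mk_sub_mk, sub_self]
      rw [← h5]
      exact h3
    exact sub_eq_zero.mp (iso.z2 _ h4)
  have hz0 : io K₁ G (p + x) ∈ LP K₁ G := io_mem (add_mem hpL hxL)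
  obtain ⟨z1, hz1⟩ := iso.t1 _ hz0
  have k1 : io K₁ G p * io K₁ G (p + x) = io K₁ G (p + x) := by
    rw [← map_mul, mul_add, bp.1, bx1]
  have k2 : io K₁ G (p + x) * io K₁ G p = io K₁ G (p + x) := by
    rw [← map_mul, add_mul, bp.1, bx2]
  have k3 : r * z1 = z1 := by
    refine uniq' (io K₁ G (p + x)) _ _ ?_ hz1
    have h3 := Φ.mul_mem hr hz1
    have h4 : (io K₁ G p, r) * (io K₁ G (p + x), z1) = (io K₁ G (p + x), r * z1) := by
      rw [Prod.mk_mul_mk, k1]
    rw [← h4]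
    exact h3
  have k4 : z1 * r = z1 := by
    refine uniq' (io K₁ G (p + x)) _ _ ?_ hz1
    have h3 := Φ.mul_mem hz1 hr
    have h4 : (io K₁ G (p + x), z1) * (io K₁ G p, r) = (io K₁ G (p + x), z1 * r) := by
      rw [Prod.mk_mul_mk, k2]
    rw [← h4]
    exact h3
  obtain ⟨r1, r2, r3⟩ := ret_unit hG hl
  have hX : star s * (p + x) * s = vx ℤ G y + vx ℤ G y * wd (ed ℤ G) l := by
    have h3 : star s * p * s = vx ℤ G y := by
      rw [← e1, ← mul_assoc, e2, mul_assoc, e2, vx_vx]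
    have h4 : star s * x * s = vx ℤ G y * wd (ed ℤ G) l := by
      have h5 : star s * x * s =
          (star s * s) * (vx ℤ G y * wd (ed ℤ G) l) * (star s * s) := by
        rw [e4]
        simp only [mul_assoc]
      rw [h5, e2, ← mul_assoc (vx ℤ G y) (vx ℤ G y), vx_vx, r3]
    rw [mul_add, add_mul, h3, h4]
  have hX' : io K₁ G (vx ℤ G y + vx ℤ G y * wd (ed ℤ G) l) =
      io K₁ G (star s) * io K₁ G (p + x) * io K₁ G s := by
    rw [← hX, map_mul, map_mul]
  obtain ⟨n1, n2⟩ := cor_not_unit hG K₁ hl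
  have hS : io K₁ G s * io K₁ G (star s) = io K₁ G p := by rw [← map_mul, e1]
  have hS' : io K₁ G (star s) * io K₁ G p * io K₁ G s = vx K₁ G y := by
    rw [← map_mul, ← map_mul, ← e1, ← mul_assoc, e2, mul_assoc, e2, vx_vx, io_vx]
  refine ⟨b * z1 * a, mul_mem_LP_left _ ha', ?_, ?_, ?_, ?_⟩
  · intro h0
    have h3 : z1 = 0 := by
      have h4 : a * (b * z1 * a) * b = (a * b) * z1 * (a * b) := by
        simp only [mul_assoc]
      rw [h0, mul_zero, zero_mul, m1, k3, k4] at h4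
      exact h4.symm
    rw [h3] at hz1
    have h5 := iso.z1 _ hz1
    refine n1 ?_
    rw [hX', h5, mul_zero, zero_mul]
  · rw [← mul_assoc, ← mul_assoc, m5]
  · rw [mul_assoc, m4]
  · intro z' hz' h0
    obtain ⟨w, hw⟩ := iso.t2 (a * z' * b) (mul_mem_LP_left _ hb')
    have h3 : z1 * (a * z' * b) = r := by
      have h4 : r * z1 * (a * z' * b) = a * ((b * z1 * a) * z') * b := by
        rw [← m1]
        simp only [mul_assoc]
      rw [k3, h0, m4, m1] at h4
      exact h4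
    have h5 : io K₁ G (p + x) * w = io K₁ G p := by
      refine uniq _ _ r ?_ hr
      have h6 := Φ.mul_mem hz1 hw
      have h7 : (io K₁ G (p + x), z1) * (w, a * z' * b) = (io K₁ G (p + x) * w, r) := by
        rw [Prod.mk_mul_mk, h3]
      rw [← h7]
      exact h6
    refine n2 (io K₁ G (star s) * w * io K₁ G s) (mul_mem_LP_left _ (io_mem hsL)) ?_
    have h8 : io K₁ G (star s) * io K₁ G (p + x) * io K₁ G s *
        (io K₁ G (star s) * w * io K₁ G s) = io K₁ G (star s) *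
          (io K₁ G (p + x) * (io K₁ G s * io K₁ G (star s)) * w) * io K₁ G s := by
      simp only [mul_assoc]
    rw [hX', h8, hS, k2, h5, hS']

end Pool.Agent.Work.MP_2b4d3b_al.NE
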