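import Pool.Agent.Work.MP_2b4d3b_al.NE.Defs
import Pool.Agent.Work.MP_2b4d3b_al.NE.LauT1
import Pool.Agent.Work.MP_2b4d3b_al.NE.LiftL
import Pool.Agent.Work.MP_2b4d3b_al.NE.PrjD

/-
Transfer of Laurent corners. PROOF. z from lt_elt. letI : StarRing K2 := starRingOfComm. A stage of F (Loc.loc, N = univ) with q in σ.fst.rng and
z in σ.snd.spn K2: q = dg D (PrjD). D is not empty (else q = 0, io q = 0, z = 0). If D had two elements, q = dg {i} + dg (D \ {i}) would be a
sum of two nonzero orthogonal projections: lt_prim, dg_inj. So D = {i}, q = c_i c_i*. If lau (b i): LauGen F q (c_i x_(b i) c_i*) by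
Stg.lauB (bstg_fst), lg_star and lg_trans with r = c_i. If not lau (b i): io q = snd c_i c_i* (bstg_io_dg) and z = io q z io q =
c_i lv(C κ) c_i* = κ • io q (corner_elt, lv_C), κ <> 0 as z <> 0, so z * (κ^-1 • io q) = io q: contradiction. lau_transfer': apply lau_transfer to sw Φ
(giso_sw, eqf_swap; q in LP by lg_basic).
-/

set_option linter.unusedVariables false
set_option linter.style.longLine false
set_option linter.unusedSectionVars false

namespace Pool.Agent.Work.MP_2b4d3b_al.NE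

universe u v w u' v' w'

open Finset

variable {K₁ : Type u} [Field K₁] {K₂ : Type u'} [Field K₂] {V : Type v} {E : Type w}
  {V' : Type v'} {E' : Type w'} {G : Gr V E} {F : Gr V' E'}
  {Φ : NonUnitalSubring (UA K₁ G × UA K₂ F)}

private theorem lt_mem {K : Type u} [CommRing K] [StarRing K] {V : Type v} {E : Type w}
    {G : Gr V E} {W : Finset V} {T : Finset E} {σ : Sys (UA K G)} {st : σ.I → V}
    (h : Stg G W T (vx K G) (ed K G) σ st) (D : Finset σ.I) : σ.dg D ∈ LP K G :=
  spn_le_LP K h (dg_mem (k := K) σ D)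

private theorem lt_empty {R : Type u} [Ring R] [StarRing R] (σ : Sys R) :
    σ.dg (∅ : Finset σ.I) = 0 := by
  unfold Sys.dg
  exact Finset.sum_empty

private theorem lt_sing {R : Type u} [Ring R] [StarRing R] (σ : Sys R) (i : σ.I) :
    σ.dg {i} = σ.c i * star (σ.c i) := by
  unfold Sys.dg
  exact Finset.sum_singleton _ _

private theorem lt_ccc {R : Type u} [Ring R] [StarRing R] (σ : Sys R) (i : σ.I) :
    σ.c i * σ.c (σ.b i) * star (σ.c i) = σ.c i * star (σ.c i) := by
  rw [σ.cb i]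

theorem lau_transfer (hG : NoExit G) (hF : NoExit F)
    (iso : GIso Φ (LP K₁ G : Set (UA K₁ G)) (LP K₂ F : Set (UA K₂ F))) {p x : UA ℤ G}
    {q : UA ℤ F} (hq : q ∈ LP ℤ F) (qq : IsPrj q) (h : Eqf Φ p q) (hx : LauGen G p x) :
    ∃ y, LauGen F q y := by
  classical
  obtain ⟨z, hz, hz0, hz1, hz2, hz3⟩ := lt_elt hG hF iso hq qq h hx
  let _ : StarRing K₂ := starRingOfComm
  have hun : Her F (Set.univ : Set V') := fun _ _ => Set.mem_univ _
  obtain ⟨W, T, σ, st, hN, -, hB, hA, hBs⟩ := loc K₂ hF hun ∅ (by simp) {q} (by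
      intro a ha
      rw [Finset.mem_singleton] at ha
      subst ha
      rw [← LP_eq_Cor]
      exact hq) {z} (by
      intro a ha
      rw [Finset.mem_singleton] at ha
      subst ha
      rw [← LP_eq_Cor]
      exact hz)
  have hq' : q ∈ σ.fst.rng := hA q (Finset.mem_singleton_self q)
  have hz' : z ∈ σ.snd.spn K₂ := hBs z (Finset.mem_singleton_self z)
  have hs1 := bstg_fst hB
  have hs2 := bstg_snd hB
  obtain ⟨D, hD⟩ := prj_diag σ.fst hB.indZ hq' qq
  have hDne : D.Nonempty := by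
    rw [Finset.nonempty_iff_ne_empty]
    rintro rfl
    rw [lt_empty] at hD
    apply hz0
    rw [← hz1, hD, map_zero, zero_mul]
  obtain ⟨i, hi⟩ := hDne
  have hDi : D = {i} := by
    have hsub : ({i} : Finset σ.fst.I) ⊆ D := by
      intro j hj
      rw [Finset.mem_singleton] at hj
      rw [hj]; exact hi
    have hsd := dg_sdiff σ.fst hsub
    have hor : σ.fst.dg {i} * σ.fst.dg (D \ {i}) = 0 := by
      rw [dg_mul, Finset.inter_sdiff_self, lt_empty]
    have hsum : σ.fst.dg {i} + σ.fst.dg (D \ {i}) = q := by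
      rw [hsd, hD]; abel
    rcases lt_prim hG hF iso hq qq h hx (lt_mem hs1 {i}) (lt_mem hs1 (D \ {i})) (dg_prj _ _)
      (dg_prj _ _) hor hsum with h0 | h0
    · exfalso
      rw [← lt_empty σ.fst] at h0
      have := dg_inj (k := ℤ) σ.fst hB.indZ h0
      exact Finset.singleton_ne_empty i this
    · rw [← lt_empty σ.fst] at h0
      have := dg_inj (k := ℤ) σ.fst hB.indZ h0
      apply Finset.Subset.antisymm _ hsub
      exact Finset.sdiff_eq_empty_iff_subset.mp this
  rw [hDi, lt_sing] at hD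
  by_cases hl : σ.fst.lau (σ.fst.b i)
  · obtain ⟨hc, l, hr, hxx⟩ := hs1.lauB i hl
    have hlg := lg_star hF hr
    rw [← hxx, ← hc] at hlg
    have hci : σ.fst.c i ∈ LP ℤ F := spn_le_LP ℤ hs1 (c_mem_spn σ.fst i).1
    exact ⟨_, lg_trans hlg hci hD.symm (σ.fst.cc i) qq.1⟩
  · exfalso
    have hio : io K₂ F q = σ.snd.c i * star (σ.snd.c i) := by
      have h1 := bstg_io_dg hB {i}
      have h2 := lt_sing σ.fst i
      have h3 := lt_sing σ.snd i
      rw [hD, ← h2]
      exact h1.trans h3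
    obtain ⟨f, hf, hfe⟩ := corner_elt (k := K₂) σ.snd i hz'
    rcases hf with hf | ⟨κ, rfl⟩
    · exact hl hf
    · have hzz : z = κ • io K₂ F q := by
        have h1 : z = io K₂ F q * z * io K₂ F q := by rw [hz1, hz2]
        rw [h1, hio, hfe, lv_C σ.snd (σ.snd.bb i), mul_smul_comm, smul_mul_assoc]
        exact congrArg (κ • ·) (lt_ccc σ.snd i)
      have hκ : κ ≠ 0 := by
        rintro rfl
        apply hz0
        rw [hzz, zero_smul]
      apply hz3 (κ⁻¹ • io K₂ F q) (SMulMemClass.smul_mem _ (io_mem hq))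
      rw [mul_smul_comm, hz2, hzz, smul_smul, inv_mul_cancel₀ hκ, one_smul]

theorem lau_transfer' (hG : NoExit G) (hF : NoExit F)
    (iso : GIso Φ (LP K₁ G : Set (UA K₁ G)) (LP K₂ F : Set (UA K₂ F))) {p : UA ℤ G}
    {q y : UA ℤ F} (hp : p ∈ LP ℤ G) (pp : IsPrj p) (h : Eqf Φ p q) (hy : LauGen F q y) :
    ∃ x, LauGen G p x := by
  have hq : q ∈ LP ℤ F := (lg_basic hF hy).2.1
  exact lau_transfer hF hG (giso_sw iso) hp pp (eqf_swap iso hq h) hy

end Pool.Agent.Work.MP_2b4d3b_al.NE
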