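import Pool.Agent.Work.MP_2b4d3b_al.NE.Defs
import Pool.Agent.Work.MP_2b4d3b_al.NE.ExA
import Pool.Agent.Work.MP_2b4d3b_al.NE.LauT
import Pool.Agent.Work.MP_2b4d3b_al.NE.StageInd
import Pool.Agent.Work.MP_2b4d3b_al.NE.StageM

/-
The lift of a system of F to G. PROOF. st i in H' implies st (b i) in H' (rch, her_rch). (1) Indices with st i in H': c_i in Cor Z F H' (stg_cor),
d_i = the preimage under S0 (isoS.t2), (d_i, c_i) in S0; y for a base o with st o in H': preimage of x_o. (2) Indices with st i not in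
H': p_i = c_i c_i* in Cor Z F (M \ H') (stg_cor_prj with st i in W in M), orthogonal projections; ex_proj (enumerate these indices by Fin m)
gives q_i in Cor Z G (N \ H), orthogonal, Eqf (q_i) (p_i). (2a) bases o with st o not in H' (then p_o = c_o): d_o = q_o. If lau o:
LauGen F c_o x_o (Stg.lauB, lg_star), so lau_transfer' gives y_o with LauGen G q_o y_o; if not lau: y_o = d_o. (2b) i with st i not in
H', b i = o <> i: d_o is a projection with Eqf d_o c_o (case old base: Good.eq of S0 for (d_o, c_o), d_o a projection since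
c_o is and S0 is injective; new base: above). p_i and c_o are *-equivalent by c_i, so Eqf Φ (d_o) (p_i) (eqf_eqv with t = d_o), and Eqf
(q_i)(p_i): eqf_uniq_left: Mv (io q_i)(io d_o); mv_std: s in LP with s s* = q_i, s* s = d_o, q_i s = s = s d_o. d_i = s.
Relations Lf: cc: by construction (for i a new base itself q_o q_o = q_o). co: both st i, st j in H': S0 injective; both outside: d_i* d_j =
d_i* q_i q_j d_j = 0; mixed: d_i in Cor H (isoS.m1), q_j in Cor (N \ H): Cor_disj. cb: d_i d_(b i) = d_i. cx, xs, sx: S0 / lg_basic. xl: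
not lau: new base by definition, old base: x_o = c_o (τ.xl) so y_o = d_o by injectivity of S0. Corner membership: d_i = q_i d_i d_o with q_i,
d_o in Cor N (Cor H in Cor N by HN), Cor_mid. LauGen for old lau bases: (d_o, c_o), (y_o, x_o) in S0 and Good.lg. y only matters at bases.
-/

set_option linter.unusedVariables false
set_option linter.style.longLine false
set_option linter.unusedSectionVars false

namespace Pool.Agent.Work.MP_2b4d3b_al.NE

universe u v w u' v' w'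

open Finset

variable {K₁ : Type u} [Field K₁] {K₂ : Type u'} [Field K₂] {V : Type v} {E : Type w}
  {V' : Type v'} {E' : Type w'} {G : Gr V E} {F : Gr V' E'}
  {Φ : NonUnitalSubring (UA K₁ G × UA K₂ F)} {N H : Set V} {M H' : Set V'}
  {S0 : NonUnitalSubring (UA ℤ G × UA ℤ F)}

private theorem cprj (τ : Sys (UA ℤ F)) (i : τ.I) : IsPrj (τ.c i * star (τ.c i)) := by
  refine ⟨?_, by rw [star_mul, star_star]⟩
  rw [mul_assoc, ← mul_assoc (star (τ.c i)), τ.cc, ← mul_assoc, τ.cb]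

private theorem cort (τ : Sys (UA ℤ F)) {i j : τ.I} (h : i ≠ j) :
    (τ.c i * star (τ.c i)) * (τ.c j * star (τ.c j)) = 0 := by
  rw [mul_assoc, ← mul_assoc (star (τ.c i)), τ.co i j h, zero_mul, mul_zero]

/-- the projections for the indices outside of H' -/
private theorem exq (h : Rel4 Φ N H M H' S0) {W : Finset V'} {T : Finset E'} {τ : Sys (UA ℤ F)}
    {st : τ.I → V'} (hn : Nice F M W T) (hs : Stg F W T (vx ℤ F) (ed ℤ F) τ st) :
    ∃ q : τ.I → UA ℤ G, (∀ i, st i ∉ H' → q i ∈ Cor ℤ G (N \ H) ∧ IsPrj (q i) ∧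
      Eqf Φ (q i) (τ.c i * star (τ.c i))) ∧
      ∀ i j, st i ∉ H' → st j ∉ H' → i ≠ j → q i * q j = 0 := by
  classical
  let e := (Fintype.equivFin {i : τ.I // st i ∉ H'}).symm
  obtain ⟨q, h1, h2, h3⟩ := ex_proj h
    (fun k : Fin (Fintype.card {i : τ.I // st i ∉ H'}) => τ.c (e k).1 * star (τ.c (e k).1))
    (fun k => ⟨stg_cor_prj hs ⟨hn.1 _ (hs.stW _), (e k).2⟩, cprj τ _⟩)
    (fun k l hkl => cort τ fun h0 => hkl (e.injective (Subtype.ext h0)))
  refine ⟨fun i => if hi : st i ∉ H' then q (e.symm ⟨i, hi⟩) else 0, fun i hi => ?_,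
    fun i j hi hj hij => ?_⟩
  · have h4 := h3 (e.symm ⟨i, hi⟩)
    simp only [Equiv.apply_symm_apply] at h4
    simp only [dif_pos hi]
    exact ⟨(h1 _).1, (h1 _).2, h4⟩
  · simp only [dif_pos hi, dif_pos hj]
    refine h2 _ _ fun h0 => hij ?_
    have h5 := e.symm.injective h0
    exact congrArg Subtype.val h5

/-- the data at a base -/
private structure PB (Φ : NonUnitalSubring (UA K₁ G × UA K₂ F)) (N : Set V) (H' : Set V')
    (S0 : NonUnitalSubring (UA ℤ G × UA ℤ F)) (τ : Sys (UA ℤ F)) (st : τ.I → V')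
    (q : τ.I → UA ℤ G) (o : τ.I) (d y : UA ℤ G) : Prop where
  h1 : st o ∈ H' → (d, τ.c o) ∈ S0 ∧ (y, τ.x o) ∈ S0
  h2 : st o ∉ H' → d = q o
  pr : IsPrj d
  dN : d ∈ Cor ℤ G N
  yN : y ∈ Cor ℤ G N
  eq : Eqf Φ d (τ.c o)
  lg : τ.lau o → LauGen G d y
  nl : ¬ τ.lau o → y = d
  dy : d * y = y
  ys : y * star y = d
  sy : star y * y = d

private theorem exB (h : Rel4 Φ N H M H' S0) {W : Finset V'} {T : Finset E'} {τ : Sys (UA ℤ F)}
    {st : τ.I → V'} (hn : Nice F M W T) (hs : Stg F W T (vx ℤ F) (ed ℤ F) τ st)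
    {q : τ.I → UA ℤ G} (hq : ∀ i, st i ∉ H' → q i ∈ Cor ℤ G (N \ H) ∧ IsPrj (q i) ∧
      Eqf Φ (q i) (τ.c i * star (τ.c i))) {o : τ.I} (ho : τ.b o = o) :
    ∃ d y, PB Φ N H' S0 τ st q o d y := by
  obtain ⟨c1, c2⟩ := c_base (σ := τ) ho
  have hlau : τ.lau o → LauGen F (τ.c o) (τ.x o) := by
    intro hl
    have h3 := hs.lauB o (by rw [ho]; exact hl)
    rw [ho] at h3
    obtain ⟨h4, l, h5, h6⟩ := h3
    rw [h4, h6]
    exact lg_star h.nF h5
  by_cases hi : st o ∈ H'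
  · have h3 := stg_cor hs h.hH' hi
    rw [ho] at h3
    obtain ⟨d, hd⟩ := h.isoS.t2 _ h3.1
    obtain ⟨y, hy⟩ := h.isoS.t2 _ h3.2
    have hsd : (star d, τ.c o) ∈ S0 := by
      have h4 := h.good.st _ _ hd
      rwa [c1] at h4
    have hsy := h.good.st _ _ hy
    have hdd : (d * d, τ.c o) ∈ S0 := by
      have h4 := S0.mul_mem hd hd
      rwa [Prod.mk_mul_mk, c2] at h4
    have e1 : d * d = d := (giso_uniq h.isoS (b' := 0)).2 hdd hd
    have e2 : star d = d := (giso_uniq h.isoS (b' := 0)).2 hsd hd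
    have hdy : (d * y, τ.x o) ∈ S0 := by
      have h4 := S0.mul_mem hd hy
      have h5 := τ.cx o
      rw [ho] at h5
      rwa [Prod.mk_mul_mk, h5] at h4
    have hys : (y * star y, τ.c o) ∈ S0 := by
      have h4 := S0.mul_mem hy hsy
      have h5 := τ.xs o
      rw [ho] at h5
      rwa [Prod.mk_mul_mk, h5] at h4
    have hsy' : (star y * y, τ.c o) ∈ S0 := by
      have h4 := S0.mul_mem hsy hy
      have h5 := τ.sx o
      rw [ho] at h5
      rwa [Prod.mk_mul_mk, h5] at h4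
    refine ⟨d, y, ⟨fun _ => ⟨hd, hy⟩, fun h0 => absurd hi h0, ⟨e1, e2⟩,
      Cor_mono h.HN (h.isoS.m1 _ _ hd), Cor_mono h.HN (h.isoS.m1 _ _ hy),
      h.good.eq _ _ hd ⟨e1, e2⟩, fun hl => (h.good.lg _ _ _ _ hd hy).2 (hlau hl), fun hl => ?_,
      (giso_uniq h.isoS (b' := 0)).2 hdy hy, (giso_uniq h.isoS (b' := 0)).2 hys hd,
      (giso_uniq h.isoS (b' := 0)).2 hsy' hd⟩⟩
    have h5 := τ.xl o (by rw [ho]; exact hl)
    rw [ho] at h5
    rw [h5] at hy
    exact (giso_uniq h.isoS (b' := 0)).2 hy hd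
  · obtain ⟨q1, q2, q3⟩ := hq o hi
    rw [c1, c2] at q3
    have qN : q o ∈ Cor ℤ G N := Cor_mono Set.sdiff_subset q1
    have qL : q o ∈ LP ℤ G := Cor_le_LP q1
    by_cases hl : τ.lau o
    · obtain ⟨y, hy⟩ := lau_transfer' h.nG h.nF h.iso qL q2 q3 (hlau hl)
      obtain ⟨l1, l2, l3, l4, l5, l6, l7⟩ := lg_basic h.nG hy
      refine ⟨q o, y, ⟨fun h0 => absurd h0 hi, fun _ => rfl, q2, qN, ?_, q3, fun _ => hy,
        fun h0 => absurd hl h0, l4, l6, l7⟩⟩
      have h5 := Cor_mid qN y qN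
      rwa [l4, l5] at h5
    · refine ⟨q o, q o, ⟨fun h0 => absurd h0 hi, fun _ => rfl, q2, qN, qN, q3,
        fun h0 => absurd h0 hl, fun _ => rfl, q2.1, ?_, ?_⟩⟩
      · rw [q2.2, q2.1]
      · rw [q2.2, q2.1]

/-- the data at an index -/
private structure PD (N : Set V) (H' : Set V')
    (S0 : NonUnitalSubring (UA ℤ G × UA ℤ F)) (τ : Sys (UA ℤ F)) (st : τ.I → V')
    (q dB : τ.I → UA ℤ G) (i : τ.I) (d : UA ℤ G) : Prop where
  hb : τ.b i = i → d = dB i
  cc : star d * d = dB (τ.b i)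
  cb : d * dB (τ.b i) = d
  h1 : st i ∈ H' → (d, τ.c i) ∈ S0
  h2 : st i ∉ H' → d * star d = q i ∧ q i * d = d
  dN : d ∈ Cor ℤ G N

private theorem exD (h : Rel4 Φ N H M H' S0) {W : Finset V'} {T : Finset E'} {τ : Sys (UA ℤ F)}
    {st : τ.I → V'} (hn : Nice F M W T) (hs : Stg F W T (vx ℤ F) (ed ℤ F) τ st)
    {q : τ.I → UA ℤ G} (hq : ∀ i, st i ∉ H' → q i ∈ Cor ℤ G (N \ H) ∧ IsPrj (q i) ∧
      Eqf Φ (q i) (τ.c i * star (τ.c i))) {dB yB : τ.I → UA ℤ G}
    (hB : ∀ o, τ.b o = o → PB Φ N H' S0 τ st q o (dB o) (yB o)) (i : τ.I) :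
    ∃ d, PD N H' S0 τ st q dB i d := by
  have B := hB (τ.b i) (τ.bb i)
  by_cases hb : τ.b i = i
  · have B' := B
    rw [hb] at B'
    refine ⟨dB i, ⟨fun _ => rfl, ?_, ?_, fun h0 => (B'.h1 h0).1, fun h0 => ?_, B'.dN⟩⟩
    · rw [hb, B'.pr.2, B'.pr.1]
    · rw [hb, B'.pr.1]
    · have h2 := B'.h2 h0
      have h3 := (hq i h0).2.1
      rw [h2]
      exact ⟨by rw [h3.2, h3.1], h3.1⟩
  · by_cases hi : st i ∈ H'
    · have h3 := stg_cor hs h.hH' hi
      obtain ⟨d, hd⟩ := h.isoS.t2 _ h3.1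
      have hbi : st (τ.b i) ∈ H' := her_rch h.hH' hi (hs.rch i)
      have B1 := (B.h1 hbi).1
      have hsd := h.good.st _ _ hd
      have hcc : (star d * d, τ.c (τ.b i)) ∈ S0 := by
        have h4 := S0.mul_mem hsd hd
        rwa [Prod.mk_mul_mk, τ.cc i] at h4
      have hcb : (d * dB (τ.b i), τ.c i) ∈ S0 := by
        have h4 := S0.mul_mem hd B1
        rwa [Prod.mk_mul_mk, τ.cb i] at h4
      exact ⟨d, ⟨fun h0 => absurd h0 hb, (giso_uniq h.isoS (b' := 0)).2 hcc B1,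
        (giso_uniq h.isoS (b' := 0)).2 hcb hd, fun _ => hd, fun h0 => absurd hi h0,
        Cor_mono h.HN (h.isoS.m1 _ _ hd)⟩⟩
    · obtain ⟨q1, q2, q3⟩ := hq i hi
      have hc := c_base (σ := τ) (τ.bb i)
      have cL : τ.c i ∈ LP ℤ F := Cor_le_LP
        (stg_cor hs (N := Set.univ) (fun _ _ => Set.mem_univ _) (Set.mem_univ (st i))).1
      have pL : τ.c i * star (τ.c i) ∈ LP ℤ F := mul_mem_LP_right cL _
      have dL : dB (τ.b i) ∈ LP ℤ G := Cor_le_LP B.dN
      have e1 : Eqf Φ (dB (τ.b i)) (τ.c i * star (τ.c i)) :=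
        eqf_eqv h.iso B.eq B.pr B.pr ⟨hc.2, hc.1⟩ (cprj τ i) dL cL
          (by rw [B.pr.2, B.pr.1]) (by rw [B.pr.2, B.pr.1]) rfl (τ.cc i)
      have e2 := eqf_uniq_left h.iso pL q3 e1
      obtain ⟨s, s1, s2, s3, s4, s5⟩ := mv_std h.nG K₁ (Cor_le_LP q1) dL q2 B.pr e2
      refine ⟨s, ⟨fun h0 => absurd h0 hb, s3, s5, fun h0 => absurd h0 hi, fun _ => ⟨s2, s4⟩, ?_⟩⟩
      have h5 := Cor_mid (Cor_mono Set.sdiff_subset q1) s B.dN
      rwa [s4, s5] at h5

theorem ex_data (h : Rel4 Φ N H M H' S0) {W : Finset V'} {T : Finset E'} {τ : Sys (UA ℤ F)}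
    {st : τ.I → V'} (hn : Nice F M W T) (hs : Stg F W T (vx ℤ F) (ed ℤ F) τ st) :
    ∃ d y : τ.I → UA ℤ G, ExData Φ N H H' S0 τ st d y := by
  obtain ⟨q, hq, hqo⟩ := exq h hn hs
  have hB0 : ∀ o, ∃ d y, τ.b o = o → PB Φ N H' S0 τ st q o d y := by
    intro o
    by_cases ho : τ.b o = o
    · obtain ⟨d, y, hd⟩ := exB h hn hs hq ho
      exact ⟨d, y, fun _ => hd⟩
    · exact ⟨0, 0, fun h0 => absurd h0 ho⟩
  choose dB yB hB using hB0
  choose d hd using exD h hn hs hq hB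
  have hdb : ∀ i, d (τ.b i) = dB (τ.b i) := fun i => (hd (τ.b i)).hb (τ.bb i)
  have hBb : ∀ i, PB Φ N H' S0 τ st q (τ.b i) (dB (τ.b i)) (yB (τ.b i)) :=
    fun i => hB _ (τ.bb i)
  have hdis : Disjoint H (N \ H) := Set.disjoint_sdiff_right
  refine ⟨d, yB, ⟨⟨fun i => ?_, fun i j hij => ?_, fun i => ?_, fun i => ?_, fun i => ?_,
    fun i => ?_, fun i hi => ?_⟩, fun i => ⟨(hd i).dN, (hBb i).yN⟩, fun i hi => (hd i).h1 hi,
    fun i hi => ((hBb i).h1 hi).2, fun i hi => ?_, fun i => ?_, fun i hi => ?_⟩⟩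
  · rw [hdb]
    exact (hd i).cc
  · by_cases hi : st i ∈ H'
    · have h1 := (hd i).h1 hi
      by_cases hj : st j ∈ H'
      · have h2 := (hd j).h1 hj
        have h3 := S0.mul_mem (h.good.st _ _ h1) h2
        rw [Prod.mk_mul_mk, τ.co i j hij] at h3
        exact h.good.z1 _ h3
      · have h2 := (hd j).h2 hj
        have h3 : star (d i) * q j = 0 := Cor_disj hdis (Cor_star (h.isoS.m1 _ _ h1)) (hq j hj).1
        rw [← h2.2, ← mul_assoc, h3, zero_mul]
    · have h1 := (hd i).h2 hi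
      have h1' : star (d i) = star (d i) * q i := by
        have h3 := congrArg star h1.2
        rw [star_mul, (hq i hi).2.1.2] at h3
        exact h3.symm
      by_cases hj : st j ∈ H'
      · have h2 := (hd j).h1 hj
        have h3 : q i * d j = 0 := Cor_disj hdis.symm (hq i hi).1 (h.isoS.m1 _ _ h2)
        rw [h1', mul_assoc, h3, mul_zero]
      · have h2 := (hd j).h2 hj
        rw [h1', ← h2.2, mul_assoc, ← mul_assoc (q i), hqo i j hi hj hij, zero_mul, mul_zero]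
  · rw [hdb]
    exact (hd i).cb
  · rw [hdb]
    exact (hBb i).dy
  · rw [hdb]
    exact (hBb i).ys
  · rw [hdb]
    exact (hBb i).sy
  · rw [hdb]
    exact (hBb i).nl hi
  · rw [((hd i).h2 hi).1]
    exact (hq i hi).1
  · rw [hdb]
    exact (hBb i).eq
  · rw [hdb]
    exact (hBb i).lg hi

end Pool.Agent.Work.MP_2b4d3b_al.NE
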