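import Pool.Agent.Work.MP_2b4d3b_al.NE.Defs
import Pool.Agent.Work.MP_2b4d3b_al.NE.LauB
import Pool.Agent.Work.MP_2b4d3b_al.NE.LauU
import Pool.Agent.Work.MP_2b4d3b_al.NE.EqfB
import Pool.Agent.Work.MP_2b4d3b_al.NE.PrjD

/-
The ring of a system in the product is a good partial isomorphism. Let A = τ.fst, B = τ.snd.
PROOF. Bases: (c_(b i)).1 is a projection (c_base) <> 0 (h0), so torsion free (prj_torsion); if lau (b i), the powers of the unitary are
independent (lg_ind; xp = zp (c) (x)). So A.BInd Z, A.Ind Z. The second coordinate: eqf_zero gives (c_(b i)).2 <> 0, the same. Elements of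
τ.rng are (A.ev M, B.ev M) with M in BM Z (mem_rng_iff for τ, ev_map for fst, snd: same index type, same matrices). mL: basis
elements are products of elements of LP. st: spn_star. z1: (a, 0): B.ev M = 0, so M = 0 (ev_inj), a = 0. z2 the same.
eq: (p, q) with p a projection: p = A.dg D (PrjD), p = A.ev M, so M = diag D (ev_diag, ev_inj) and q = B.dg D. For i in D:
Eqf (c_i c_i*).1 (c_i c_i*).2 from the base by eqf_eqv (t = (c_i).1, s = (c_i).2); sum over D by eqf_add (Finset induction, orthogonality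
by co), starting with eqf_zero_zero.
lg: (p, q), (x, y) in rng with LauGen F-or-G. Let LauGen G p x. p is a projection (lg_basic), p = A.dg D, q = B.dg D. D has one element:
not empty (lg_ne), and two elements would split p (lg_prim; both parts nonzero since A is independent): D = {i}. x = p x p in A.rng, so
x = c_i lv(f) c_i* (corner_elt); if not lau (b i), f is a constant n and x = n • p, impossible (lg_scal). So lau (b i); by hl and lg_trans
(r = c_i) LauGen G p (c_i x_(b i) c_i*), by lg_uniq x = (c_i x_(b i) c_i*).1; so x = A.ev (single i i (T 1)), and the matrix of (x, y) is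
single i i (T 1) (ev_inj), y = (c_i x_(b i) c_i*).2, which is LauGen F q y by hl and lg_trans. The other direction is symmetric.
-/

set_option linter.unusedVariables false
set_option linter.style.longLine false
set_option linter.unusedSectionVars false

namespace Pool.Agent.Work.MP_2b4d3b_al.NE

universe u v w u' v' w'

open Finset

variable {K₁ : Type u} [Field K₁] {K₂ : Type u'} [Field K₂] {V : Type v} {E : Type w}
  {V' : Type v'} {E' : Type w'} {G : Gr V E} {F : Gr V' E'}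
  {Φ : NonUnitalSubring (UA K₁ G × UA K₂ F)}

private theorem gs_gen_mem {σ : Sys (UA ℤ G)} (hc : ∀ i, σ.c i ∈ LP ℤ G)
    (hx : ∀ i, σ.x (σ.b i) ∈ LP ℤ G) {a : UA ℤ G} (ha : a ∈ σ.rng) : a ∈ LP ℤ G := by
  induction ha using NonUnitalSubring.closure_induction with
  | mem a ha =>
    obtain ⟨i, h | h | h | h⟩ := ha
    · rw [h]; exact hc i
    · rw [h]; exact star_mem_LP (hc i)
    · rw [h]; exact hx i
    · rw [h]; exact star_mem_LP (hx i)
  | zero => exact (LP ℤ G).zero_mem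
  | add a b _ _ ha hb => exact (LP ℤ G).add_mem ha hb
  | neg a _ ha => exact neg_mem ha
  | mul a b _ _ ha hb => exact (LP ℤ G).mul_mem ha hb

private theorem gs_sing {R : Type u} [Ring R] [StarRing R] (σ : Sys R) (i : σ.I) :
    σ.dg {i} = σ.c i * star (σ.c i) := by
  unfold Sys.dg
  exact Finset.sum_singleton _ _

private theorem gs_empty {R : Type u} [Ring R] [StarRing R] (σ : Sys R) :
    σ.dg (∅ : Finset σ.I) = 0 := by
  unfold Sys.dg
  exact Finset.sum_empty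

private theorem gs_insert {R : Type u} [Ring R] [StarRing R] (σ : Sys R) {i : σ.I}
    {D : Finset σ.I} (hi : i ∉ D) : σ.dg (insert i D) = σ.c i * star (σ.c i) + σ.dg D ∧
      σ.c i * star (σ.c i) * σ.dg D = 0 ∧ σ.dg D * (σ.c i * star (σ.c i)) = 0 := by
  have hdis : Disjoint ({i} : Finset σ.I) D := Finset.disjoint_singleton_left.mpr hi
  refine ⟨?_, ?_, ?_⟩
  · rw [Finset.insert_eq, dg_union σ hdis, gs_sing]
  · rw [← gs_sing, dg_mul, Finset.disjoint_iff_inter_eq_empty.mp hdis, gs_empty]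
  · rw [← gs_sing, dg_mul, Finset.disjoint_iff_inter_eq_empty.mp hdis.symm, gs_empty]

private theorem gs_congr {p p' : UA ℤ G} {q q' : UA ℤ F} (h1 : p = p') (h2 : q = q')
    (h : Eqf Φ p' q') : Eqf Φ p q := by
  rw [h1, h2]; exact h

private theorem gs_prj_one {R : Type u} [Ring R] [StarRing R] (σ : Sys R) (i : σ.I) :
    IsPrj (σ.c i * star (σ.c i)) := by
  rw [← gs_sing]
  exact dg_prj σ {i}

private theorem gs_base_prj {R : Type u} [Ring R] [StarRing R] (σ : Sys R) (i : σ.I) :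
    IsPrj (σ.c (σ.b i)) :=
  ⟨(c_base σ (σ.bb i)).2, (c_base σ (σ.bb i)).1⟩

private theorem gs_ev_one {R : Type u} [Ring R] [StarRing R] [Algebra ℤ R] (σ : Sys R) (i : σ.I) :
    σ.ev ℤ (Matrix.single i i 1) = σ.c i * star (σ.c i) := by
  rw [ev_single, ← map_one (LaurentPolynomial.C (R := ℤ)), lv_C σ (σ.bb i), Algebra.smul_def,
    map_one, one_mul, σ.cb i]

private theorem gs_ev_T {R : Type u} [Ring R] [StarRing R] [Algebra ℤ R] (σ : Sys R) (i : σ.I) :
    σ.ev ℤ (Matrix.single i i (LaurentPolynomial.T 1)) =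
      σ.c i * σ.x (σ.b i) * star (σ.c i) := by
  rw [ev_single, lv_T, xp_one σ (σ.bb i)]

private theorem gs_bm_one {R : Type u} [Ring R] [StarRing R] (σ : Sys R) (i : σ.I) :
    (Matrix.single i i 1 : Matrix σ.I σ.I (LaurentPolynomial ℤ)) ∈ σ.BM ℤ :=
  BM_single σ rfl (Or.inr ⟨1, (map_one _).symm⟩)

private theorem gs_bm_T {R : Type u} [Ring R] [StarRing R] (σ : Sys R) (i : σ.I)
    (h : σ.lau (σ.b i)) :
    (Matrix.single i i (LaurentPolynomial.T 1) : Matrix σ.I σ.I (LaurentPolynomial ℤ)) ∈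
      σ.BM ℤ :=
  BM_single σ rfl (Or.inl h)

private theorem gs_ind (hG : NoExit G) (σ : Sys (UA ℤ G)) (hc : ∀ i, σ.c i ∈ LP ℤ G)
    (h0 : ∀ i, σ.c (σ.b i) ≠ 0)
    (hl : ∀ i, σ.lau (σ.b i) → LauGen G (σ.c (σ.b i)) (σ.x (σ.b i))) : σ.Ind ℤ := by
  apply ind_of_bind
  refine ⟨fun i a ha => ?_, fun i hi f hf => ?_⟩
  · exact prj_torsion hG (hc (σ.b i)) (gs_base_prj σ i) (h0 i) ha
  · exact lg_ind hG (hl i hi) f hf

private theorem gs_lg_of (σ : Sys (UA ℤ G)) (hc : ∀ i, σ.c i ∈ LP ℤ G)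
    (hl : ∀ i, σ.lau (σ.b i) → LauGen G (σ.c (σ.b i)) (σ.x (σ.b i))) (i : σ.I)
    (hi : σ.lau (σ.b i)) :
    LauGen G (σ.c i * star (σ.c i)) (σ.c i * σ.x (σ.b i) * star (σ.c i)) :=
  lg_trans (hl i hi) (hc i) rfl (σ.cc i) (gs_prj_one σ i).1

private theorem gs_lg_iff (hG : NoExit G) (σ : Sys (UA ℤ G)) (hc : ∀ i, σ.c i ∈ LP ℤ G)
    (hx : ∀ i, σ.x (σ.b i) ∈ LP ℤ G) (hI : σ.Ind ℤ)
    (hl : ∀ i, σ.lau (σ.b i) → LauGen G (σ.c (σ.b i)) (σ.x (σ.b i)))
    {M N : Matrix σ.I σ.I (LaurentPolynomial ℤ)} (hM : M ∈ σ.BM ℤ) (hN : N ∈ σ.BM ℤ) :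
    LauGen G (σ.ev ℤ M) (σ.ev ℤ N) ↔
      ∃ i, σ.lau (σ.b i) ∧ M = Matrix.single i i 1 ∧
        N = Matrix.single i i (LaurentPolynomial.T 1) := by
  constructor
  · intro h
    obtain ⟨pp, -, -, px, xp, -, -⟩ := lg_basic hG h
    have hMr : σ.ev ℤ M ∈ σ.rng := (mem_rng_iff σ).mpr ⟨M, hM, rfl⟩
    have hNs : σ.ev ℤ N ∈ σ.spn ℤ := (mem_spn_iff σ).mpr ⟨N, hN, rfl⟩
    obtain ⟨D, hD⟩ := prj_diag σ hI hMr pp
    have hdm : ∀ D' : Finset σ.I, σ.dg D' ∈ LP ℤ G := fun D' =>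
      gs_gen_mem hc hx (dg_rng σ D')
    have hDne : D.Nonempty := by
      rw [Finset.nonempty_iff_ne_empty]
      rintro rfl
      rw [gs_empty] at hD
      exact lg_ne h hD
    obtain ⟨i, hi⟩ := hDne
    have hDi : D = {i} := by
      have hsub : ({i} : Finset σ.I) ⊆ D := by
        intro j hj
        rw [Finset.mem_singleton] at hj
        rw [hj]; exact hi
      have hsd := dg_sdiff σ hsub
      have hor : σ.dg {i} * σ.dg (D \ {i}) = 0 := by
        rw [dg_mul, Finset.inter_sdiff_self, gs_empty]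
      have hsum : σ.dg {i} + σ.dg (D \ {i}) = σ.ev ℤ M := by
        rw [hsd, hD]; abel
      rcases lg_prim hG h (hdm {i}) (hdm (D \ {i})) (dg_prj _ _) (dg_prj _ _) hor hsum with h0 | h0
      · exfalso
        rw [← gs_empty σ] at h0
        have := dg_inj (k := ℤ) σ hI h0
        exact Finset.singleton_ne_empty i this
      · rw [← gs_empty σ] at h0
        have := dg_inj (k := ℤ) σ hI h0
        apply Finset.Subset.antisymm _ hsub
        exact Finset.sdiff_eq_empty_iff_subset.mp this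
    rw [hDi, gs_sing] at hD
    have hMe : M = Matrix.single i i 1 := by
      apply ev_inj σ hI hM (gs_bm_one σ i)
      rw [gs_ev_one, hD]
    obtain ⟨f, hf, hfe⟩ := corner_elt (k := ℤ) σ i hNs
    rw [← hD, px, xp] at hfe
    have hlau : σ.lau (σ.b i) := by
      rcases hf with hf | ⟨n, rfl⟩
      · exact hf
      · exfalso
        rw [lv_C σ (σ.bb i), mul_smul_comm, smul_mul_assoc, σ.cb i, ← hD] at hfe
        exact lg_scal hG h n hfe
    refine ⟨i, hlau, hMe, ?_⟩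
    have h2 := gs_lg_of σ hc hl i hlau
    rw [← hD] at h2
    have h3 := lg_uniq hG h h2
    apply ev_inj σ hI hN (gs_bm_T σ i hlau)
    rw [gs_ev_T, h3]
  · rintro ⟨i, hi, rfl, rfl⟩
    rw [gs_ev_one, gs_ev_T]
    exact gs_lg_of σ hc hl i hi

theorem good_sys (hG : NoExit G) (hF : NoExit F)
    (iso : GIso Φ (LP K₁ G : Set (UA K₁ G)) (LP K₂ F : Set (UA K₂ F)))
    (τ : Sys (UA ℤ G × UA ℤ F)) (hc : ∀ i, (τ.c i).1 ∈ LP ℤ G ∧ (τ.c i).2 ∈ LP ℤ F)
    (hx : ∀ i, (τ.x (τ.b i)).1 ∈ LP ℤ G ∧ (τ.x (τ.b i)).2 ∈ LP ℤ F)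
    (h0 : ∀ i, (τ.c (τ.b i)).1 ≠ 0) (he : ∀ i, Eqf Φ (τ.c (τ.b i)).1 (τ.c (τ.b i)).2)
    (hl : ∀ i, τ.lau (τ.b i) → LauGen G (τ.c (τ.b i)).1 (τ.x (τ.b i)).1 ∧
      LauGen F (τ.c (τ.b i)).2 (τ.x (τ.b i)).2) :
    Good Φ τ.rng ∧ τ.fst.Ind ℤ ∧ τ.snd.Ind ℤ := by
  classical
  have hcA : ∀ i, τ.fst.c i ∈ LP ℤ G := fun i => (hc i).1
  have hcB : ∀ i, τ.snd.c i ∈ LP ℤ F := fun i => (hc i).2
  have hxA : ∀ i, τ.fst.x (τ.fst.b i) ∈ LP ℤ G := fun i => (hx i).1
  have hxB : ∀ i, τ.snd.x (τ.snd.b i) ∈ LP ℤ F := fun i => (hx i).2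
  have hlA : ∀ i, τ.fst.lau (τ.fst.b i) → LauGen G (τ.fst.c (τ.fst.b i)) (τ.fst.x (τ.fst.b i)) :=
    fun i hi => (hl i hi).1
  have hlB : ∀ i, τ.snd.lau (τ.snd.b i) → LauGen F (τ.snd.c (τ.snd.b i)) (τ.snd.x (τ.snd.b i)) :=
    fun i hi => (hl i hi).2
  have h0A : ∀ i, τ.fst.c (τ.fst.b i) ≠ 0 := h0
  have h0B : ∀ i, τ.snd.c (τ.snd.b i) ≠ 0 := by
    intro i hi
    exact h0 i ((eqf_zero hG hF iso (hcA (τ.b i)) (hcB (τ.b i)) (gs_base_prj τ.fst i)
      (gs_base_prj τ.snd i) (he i)).mpr hi)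
  have hIA : τ.fst.Ind ℤ := gs_ind hG τ.fst hcA h0A hlA
  have hIB : τ.snd.Ind ℤ := gs_ind hF τ.snd hcB h0B hlB
  have key : ∀ a b, (a, b) ∈ τ.rng → ∃ M : Matrix τ.I τ.I (LaurentPolynomial ℤ), M ∈ τ.BM ℤ ∧
      τ.fst.ev ℤ M = a ∧ τ.snd.ev ℤ M = b := by
    intro a b hab
    obtain ⟨M, hM, hMe⟩ := (mem_rng_iff τ).mp hab
    refine ⟨M, hM, ?_, ?_⟩
    · have := ev_map τ (RingHom.fst (UA ℤ G) (UA ℤ F)) (fun _ => rfl) M
      rw [hMe] at this
      exact this
    · have := ev_map τ (RingHom.snd (UA ℤ G) (UA ℤ F)) (fun _ => rfl) M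
      rw [hMe] at this
      exact this
  refine ⟨⟨?_, ?_, ?_, ?_, ?_, ?_⟩, hIA, hIB⟩
  · intro a b hab
    exact ⟨gs_gen_mem hcA hxA (rng_map τ (RingHom.fst (UA ℤ G) (UA ℤ F)) (fun _ => rfl) hab),
      gs_gen_mem hcB hxB (rng_map τ (RingHom.snd (UA ℤ G) (UA ℤ F)) (fun _ => rfl) hab)⟩
  · intro a b hab
    exact rng_star τ hab
  · intro a hab
    obtain ⟨M, hM, hMa, hMb⟩ := key a 0 hab
    have : M = 0 := ev_inj τ.snd hIB hM (BM_zero τ.snd) (hMb.trans (ev_zero τ.snd).symm)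
    rw [← hMa, this]
    exact ev_zero τ.fst
  · intro b hab
    obtain ⟨M, hM, hMa, hMb⟩ := key 0 b hab
    have : M = 0 := ev_inj τ.fst hIA hM (BM_zero τ.fst) (hMa.trans (ev_zero τ.fst).symm)
    rw [← hMb, this]
    exact ev_zero τ.snd
  · intro p q hpq pp
    obtain ⟨M, hM, hMp, hMq⟩ := key p q hpq
    have hpr : p ∈ τ.fst.rng := rng_map τ (RingHom.fst (UA ℤ G) (UA ℤ F)) (fun _ => rfl) hpq
    obtain ⟨D, hD⟩ := prj_diag τ.fst hIA hpr pp
    have hMD : M = Matrix.diagonal fun i => if i ∈ D then (1 : LaurentPolynomial ℤ) else 0 := by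
      apply ev_inj τ.fst hIA hM (BM_diag τ.fst D)
      rw [ev_diag, hMp, hD]
    have hq : q = τ.snd.dg D := by
      rw [← hMq, hMD]
      exact ev_diag τ.snd D
    rw [hD, hq]
    have main : ∀ D : Finset τ.I, Eqf Φ (τ.fst.dg D) (τ.snd.dg D) := by
      intro D
      induction D using Finset.induction_on with
      | empty =>
        exact gs_congr (gs_empty τ.fst) (gs_empty τ.snd) (eqf_zero_zero iso)
      | insert i D hi ih =>
        obtain ⟨a1, a2, a3⟩ := gs_insert τ.fst hi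
        obtain ⟨b1, b2, b3⟩ := gs_insert τ.snd hi
        refine gs_congr a1 b1 (eqf_add iso ?_ ih ⟨a2, a3⟩ ⟨b2, b3⟩)
        exact eqf_eqv iso (he i) (gs_base_prj τ.fst i) (gs_prj_one τ.fst i)
          (gs_base_prj τ.snd i) (gs_prj_one τ.snd i) (hcA i) (hcB i) rfl (τ.fst.cc i) rfl
          (τ.snd.cc i)
    exact main D
  · intro p q x y hpq hxy
    obtain ⟨M, hM, hMp, hMq⟩ := key p q hpq
    obtain ⟨N, hN, hNx, hNy⟩ := key x y hxy
    have h1 := gs_lg_iff hG τ.fst hcA hxA hIA hlA hM hN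
    have h2 := gs_lg_iff hF τ.snd hcB hxB hIB hlB hM hN
    rw [hMp, hNx] at h1
    rw [hMq, hNy] at h2
    exact h1.trans h2.symm

end Pool.Agent.Work.MP_2b4d3b_al.NE
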