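import Pool.Agent.Work.MP_2b4d3b_al.NE.Defs
import Pool.Agent.Work.MP_2b4d3b_al.NE.StageInd
import Pool.Agent.Work.MP_2b4d3b_al.NE.StageM
import Pool.Agent.Work.MP_2b4d3b_al.NE.GoodS

/-
PROOF. ρ = τ.prd d y hd.lf : Sys (UA Z G x UA Z F), good_sys for ρ. hc, hx: Cor_le_LP for d, y (hd.dN); F side: stg_cor with N = univ. h0: c_(b i) is
not 0 (stg_bind for F: BInd Z with a = 1), Eqf (d_(b i)) (c_(b i)), both projections (c_base for τ; hd.lf.cc at b i), so d_(b i) <> 0 by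
eqf_zero. he: hd.eq. hl: hd.lg and Stg.lauB + lg_star for F.
-/

set_option linter.unusedVariables false
set_option linter.style.longLine false
set_option linter.unusedSectionVars false

namespace Pool.Agent.Work.MP_2b4d3b_al.NE

universe u v w u' v' w'

open Finset

variable {K₁ : Type u} [Field K₁] {K₂ : Type u'} [Field K₂] {V : Type v} {E : Type w}
  {V' : Type v'} {E' : Type w'} {G : Gr V E} {F : Gr V' E'}
  {Φ : NonUnitalSubring (UA K₁ G × UA K₂ F)} {N H : Set V} {M H' : Set V'}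
  {S0 : NonUnitalSubring (UA ℤ G × UA ℤ F)}

theorem ex_good (h : Rel4 Φ N H M H' S0) {W : Finset V'} {T : Finset E'} {τ : Sys (UA ℤ F)}
    {st : τ.I → V'} (hn : Nice F M W T) (hs : Stg F W T (vx ℤ F) (ed ℤ F) τ st)
    {d y : τ.I → UA ℤ G} (hd : ExData Φ N H H' S0 τ st d y) :
    Good Φ (τ.prd d y hd.lf).rng ∧ (τ.prd d y hd.lf).fst.Ind ℤ ∧ (τ.prd d y hd.lf).snd.Ind ℤ := by
  have hun : Her F (Set.univ : Set V') := fun e _ => Set.mem_univ _
  have hcor : ∀ i, τ.c i ∈ LP ℤ F ∧ τ.x (τ.b i) ∈ LP ℤ F := fun i =>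
    ⟨Cor_le_LP (stg_cor hs hun (Set.mem_univ (st i))).1,
      Cor_le_LP (stg_cor hs hun (Set.mem_univ (st i))).2⟩
  have hprj : ∀ i, IsPrj (d (τ.b i)) := by
    intro i
    have h1 : star (d (τ.b i)) * d (τ.b i) = d (τ.b i) := by
      have h2 := hd.lf.cc (τ.b i)
      rwa [τ.bb] at h2
    have h3 : star (d (τ.b i)) = d (τ.b i) := by
      have h4 := congrArg star h1
      rw [star_mul, star_star, h1] at h4
      exact h4.symm
    refine ⟨?_, h3⟩
    conv_lhs => rw [← h3]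
    rw [h3] at h1 ⊢
    exact h1
  refine good_sys h.nG h.nF h.iso (τ.prd d y hd.lf) (fun i => ⟨Cor_le_LP (hd.dN i).1, (hcor i).1⟩)
    (fun i => ⟨Cor_le_LP (hd.dN i).2, (hcor i).2⟩) ?_ (fun i => hd.eq i) ?_
  · intro i
    have h1 := ((stg_bind ℤ h.nF hs).1.1 i 1)
    have h2 : τ.c (τ.b i) ≠ 0 := by
      intro h3
      rw [h3, smul_zero] at h1
      exact one_ne_zero (h1 rfl)
    have h3 := eqf_zero h.nG h.nF h.iso (Cor_le_LP (hd.dN (τ.b i)).1) (hcor (τ.b i)).1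
      (hprj i) ⟨(c_base τ (τ.bb i)).2, (c_base τ (τ.bb i)).1⟩ (hd.eq i)
    exact fun h4 => h2 (h3.1 h4)
  · intro i hi
    refine ⟨hd.lg i hi, ?_⟩
    obtain ⟨h1, l, hl, h2⟩ := hs.lauB i hi
    have h3 := lg_star h.nF hl
    rw [← h1] at h3
    rw [← h1] at h2
    rw [← h2] at h3
    exact h3

end Pool.Agent.Work.MP_2b4d3b_al.NE
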