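import Pool.Agent.Work.MP_2b4d3b_al.NE.Defs
import Pool.Agent.Work.MP_2b4d3b_al.NE.StageInd
import Pool.Agent.Work.MP_2b4d3b_al.NE.StageM
import Pool.Agent.Work.MP_2b4d3b_al.NE.ExC1

/-
Compatibility with S0. PROOF. ρ = τ.prd d y hd.lf, independent in both coordinates (ex_good). Elements of ρ.rng are
(ρ.fst.ev M0, ρ.snd.ev M0) with M0 in BM Z (mem_rng_iff for ρ in the product ring, ev_map), M0 = (f_ij). Let I_H = {i | st i in H'}; st i in H' implies
st (b i) in H' (rch, her_rch). For st i not in H' and a = ρ.fst.ev M0 in Cor Z G H: (d_i d_i*) a = 0 (dO, Cor_disj), and (d_i d_i*) a =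
ρ.fst.ev (single i i 1 * M0), so row i of M0 vanishes (ev_inj); also column i. If b = ρ.snd.ev M0 is in Cor Z F H' then c_i c_i*, in the corner of
{st i}, kills b, the same conclusion. So M0 is supported in I_H x I_H and (a, b) is the sum of the elements
(d_i, c_i) * (lv, lv) (f_ij) * star (d_j, c_j), where (d_i, c_i) in S0 (dH), powers of (y, x) at b i in S0 (yH, dH: st (b i) in H'; S0 is closed
under star: good.st): (a, b) in S0. This is c1, c2. c3: a in Cor Z G (H compl): for i in I_H: d_i in Cor H (dH, isoS.m1), so d_i d_i* a = 0 and row,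
column i vanish: M0 is supported outside I_H, so b is a sum of terms c_i .. c_j* with st i, st j not in H', killed by vx z, z in H'
(c_i = vx (st i) c_i, stg_vx): b in Cor (H' compl) (mem_Cor_iff). Conversely, b in Cor Z F (H' compl): c_i in Cor H' for i in I_H (dH, isoS.m2): the
same support, and d_i = (d_i d_i*) d_i with d_i d_i* in Cor (N \ H): a in Cor (H compl).
-/

set_option linter.unusedVariables false
set_option linter.style.longLine false
set_option linter.unusedSectionVars false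

namespace Pool.Agent.Work.MP_2b4d3b_al.NE

universe u v w u' v' w'

open Finset

variable {K₁ : Type u} [Field K₁] {K₂ : Type u'} [Field K₂] {V : Type v} {E : Type w}
  {V' : Type v'} {E' : Type w'} {G : Gr V E} {F : Gr V' E'}
  {Φ : NonUnitalSubring (UA K₁ G × UA K₂ F)} {N H : Set V} {M H' : Set V'}
  {S0 : NonUnitalSubring (UA ℤ G × UA ℤ F)}

private theorem ec_alg {R : Type u} [Ring R] [Algebra ℤ R] (S : NonUnitalSubring R) (n : ℤ)
    {a : R} (ha : a ∈ S) : algebraMap ℤ R n * a ∈ S := by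
  rw [eq_intCast, ← zsmul_eq_mul]
  exact zsmul_mem ha n

private theorem ec_pow {R : Type u} [Ring R] (S : NonUnitalSubring R) {p x : R} (hp : p ∈ S)
    (hx : x ∈ S) (n : ℕ) : p * x ^ n ∈ S := by
  induction n with
  | zero => rw [pow_zero, mul_one]; exact hp
  | succ n ih => rw [pow_succ, ← mul_assoc]; exact S.mul_mem ih hx

private theorem ec_lv {R : Type u} [Ring R] [StarRing R] [Algebra ℤ R] (σ : Sys R)
    (S : NonUnitalSubring R) {o : σ.I} (hc : σ.c o ∈ S) (hx : σ.x o ∈ S)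
    (hs : star (σ.x o) ∈ S) (f : LaurentPolynomial ℤ) : σ.lv ℤ o f ∈ S := by
  unfold Sys.lv
  apply sum_mem
  intro n _
  beta_reduce
  rw [Algebra.smul_def]
  apply ec_alg
  unfold Sys.xp
  cases n with
  | ofNat n => exact ec_pow S hc hx n
  | negSucc n => exact ec_pow S hc hs (n + 1)

private theorem ec_ev {R : Type u} [Ring R] [StarRing R] [Algebra ℤ R] (σ : Sys R)
    {C : R → Prop} (h0 : C 0) (hadd : ∀ a b, C a → C b → C (a + b))
    (M : Matrix σ.I σ.I (LaurentPolynomial ℤ))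
    (h : ∀ i j, M i j ≠ 0 → C (σ.c i * σ.lv ℤ (σ.b i) (M i j) * star (σ.c j))) :
    C (σ.ev ℤ M) := by
  unfold Sys.ev
  apply Finset.sum_induction _ C hadd h0
  intro i _
  apply Finset.sum_induction _ C hadd h0
  intro j _
  by_cases hij : M i j = 0
  · rw [hij, lv_zero, mul_zero, zero_mul]; exact h0
  · exact h i j hij

private theorem ec_ev_one {R : Type u} [Ring R] [StarRing R] [Algebra ℤ R] (σ : Sys R) (i : σ.I) :
    σ.ev ℤ (Matrix.single i i 1) = σ.c i * star (σ.c i) := by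
  rw [ev_single, ← map_one (LaurentPolynomial.C (R := ℤ)), lv_C σ (σ.bb i), Algebra.smul_def,
    map_one, one_mul, σ.cb i]

private theorem ec_bm_one {R : Type u} [Ring R] [StarRing R] (σ : Sys R) (i : σ.I) :
    (Matrix.single i i 1 : Matrix σ.I σ.I (LaurentPolynomial ℤ)) ∈ σ.BM ℤ :=
  BM_single σ rfl (Or.inr ⟨1, (map_one _).symm⟩)

private theorem ec_supp {R : Type u} [Ring R] [StarRing R] [Algebra ℤ R] (σ : Sys R)
    (hI : σ.Ind ℤ) {M : Matrix σ.I σ.I (LaurentPolynomial ℤ)} (hM : M ∈ σ.BM ℤ) {i : σ.I}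
    (h1 : σ.c i * star (σ.c i) * σ.ev ℤ M = 0) (h2 : σ.ev ℤ M * (σ.c i * star (σ.c i)) = 0)
    (j : σ.I) : M i j = 0 ∧ M j i = 0 := by
  constructor
  · have e : Matrix.single i i 1 * M = 0 := by
      apply ev_inj σ hI (BM_mul σ (ec_bm_one σ i) hM) (BM_zero σ)
      rw [ev_mul σ (ec_bm_one σ i) hM, ec_ev_one, h1, ev_zero]
    have := congrFun (congrFun e i) j
    rw [Matrix.single_mul_apply_same, one_mul] at this
    exact this
  · have e : M * Matrix.single i i 1 = 0 := by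
      apply ev_inj σ hI (BM_mul σ hM (ec_bm_one σ i)) (BM_zero σ)
      rw [ev_mul σ hM (ec_bm_one σ i), ec_ev_one, h2, ev_zero]
    have := congrFun (congrFun e j) i
    rw [Matrix.mul_single_apply_same, mul_one] at this
    exact this

private theorem ec_ccc {R : Type u} [Ring R] [StarRing R] (σ : Sys R) (i : σ.I) :
    σ.c i * star (σ.c i) * σ.c i = σ.c i := by
  rw [mul_assoc, σ.cc i, σ.cb i]

theorem ex_cpt (h : Rel4 Φ N H M H' S0) {W : Finset V'} {T : Finset E'} {τ : Sys (UA ℤ F)}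
    {st : τ.I → V'} (hn : Nice F M W T) (hs : Stg F W T (vx ℤ F) (ed ℤ F) τ st)
    {d y : τ.I → UA ℤ G} (hd : ExData Φ N H H' S0 τ st d y) :
    Cpt H H' S0 (τ.prd d y hd.lf).rng := by
  classical
  obtain ⟨-, hI1, hI2⟩ := ex_good h hn hs hd
  set ρ := τ.prd d y hd.lf with hρ
  have key : ∀ a b, (a, b) ∈ ρ.rng → ∃ M : Matrix ρ.I ρ.I (LaurentPolynomial ℤ), M ∈ ρ.BM ℤ ∧
      ρ.fst.ev ℤ M = a ∧ ρ.snd.ev ℤ M = b ∧ ρ.ev ℤ M = (a, b) := by
    intro a b hab
    obtain ⟨M, hM, hMe⟩ := (mem_rng_iff ρ).mp hab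
    refine ⟨M, hM, ?_, ?_, hMe⟩
    · have := ev_map ρ (RingHom.fst (UA ℤ G) (UA ℤ F)) (fun _ => rfl) M
      rw [hMe] at this
      exact this
    · have := ev_map ρ (RingHom.snd (UA ℤ G) (UA ℤ F)) (fun _ => rfl) M
      rw [hMe] at this
      exact this
  -- the two kinds of support conditions, from the two sides
  have s1 : ∀ (M : Matrix τ.I τ.I (LaurentPolynomial ℤ)), M ∈ ρ.BM ℤ → ∀ P : τ.I → Prop,
      (∀ i, ¬ P i → d i * star (d i) * ρ.fst.ev ℤ M = 0 ∧
        ρ.fst.ev ℤ M * (d i * star (d i)) = 0) → ∀ i j, M i j ≠ 0 → P i ∧ P j := by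
    intro M hM P hP i j hij
    constructor
    · by_contra hc
      exact hij (ec_supp ρ.fst hI1 hM (hP i hc).1 (hP i hc).2 j).1
    · by_contra hc
      exact hij (ec_supp ρ.fst hI1 hM (hP j hc).1 (hP j hc).2 i).2
  have s2 : ∀ (M : Matrix τ.I τ.I (LaurentPolynomial ℤ)), M ∈ ρ.BM ℤ → ∀ P : τ.I → Prop,
      (∀ i, ¬ P i → τ.c i * star (τ.c i) * ρ.snd.ev ℤ M = 0 ∧
        ρ.snd.ev ℤ M * (τ.c i * star (τ.c i)) = 0) → ∀ i j, M i j ≠ 0 → P i ∧ P j := by
    intro M hM P hP i j hij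
    constructor
    · by_contra hc
      exact hij (ec_supp ρ.snd hI2 hM (hP i hc).1 (hP i hc).2 j).1
    · by_contra hc
      exact hij (ec_supp ρ.snd hI2 hM (hP j hc).1 (hP j hc).2 i).2
  have hb : ∀ i, st i ∈ H' → st (τ.b i) ∈ H' := fun i hi => her_rch h.hH' hi (hs.rch i)
  have inS : ∀ (M : Matrix τ.I τ.I (LaurentPolynomial ℤ)),
      (∀ i j, M i j ≠ 0 → st i ∈ H' ∧ st j ∈ H') → ρ.ev ℤ M ∈ S0 := by
    intro M hM
    apply ec_ev ρ (C := fun a => a ∈ S0) S0.zero_mem (fun a b => S0.add_mem) M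
    intro i j hij
    obtain ⟨hi, hj⟩ := hM i j hij
    have c1 : ρ.c i ∈ S0 := hd.dH i hi
    have c2 : star (ρ.c j) ∈ S0 := h.good.st _ _ (hd.dH j hj)
    have c3 : ρ.lv ℤ (ρ.b i) (M i j) ∈ S0 := by
      apply ec_lv ρ S0
      · exact hd.dH (τ.b i) (hb i hi)
      · exact hd.yH i (hb i hi)
      · exact h.good.st _ _ (hd.yH i (hb i hi))
    exact S0.mul_mem (S0.mul_mem c1 c3) c2
  have dCor : ∀ i, st i ∈ H' → d i * star (d i) ∈ Cor ℤ G H := fun i hi =>
    Cor_mul (h.isoS.m1 _ _ (hd.dH i hi)) (Cor_star (h.isoS.m1 _ _ (hd.dH i hi)))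
  have cCor : ∀ i, st i ∈ H' → τ.c i * star (τ.c i) ∈ Cor ℤ F H' := fun i hi =>
    Cor_mul (h.isoS.m2 _ _ (hd.dH i hi)) (Cor_star (h.isoS.m2 _ _ (hd.dH i hi)))
  have cCor' : ∀ i, st i ∉ H' → τ.c i * star (τ.c i) ∈ Cor ℤ F H'ᶜ := fun i hi =>
    stg_cor_prj hs (N := H'ᶜ) hi
  have dCor' : ∀ i, st i ∉ H' → d i * star (d i) ∈ Cor ℤ G Hᶜ := fun i hi =>
    Cor_mono (fun x hx => hx.2) (hd.dO i hi)
  have djG : Disjoint H Hᶜ := disjoint_compl_right
  have djF : Disjoint H' H'ᶜ := disjoint_compl_right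
  refine ⟨?_, ?_, ?_⟩
  · intro a b hab ha
    obtain ⟨M, hM, hMa, hMb, hMe⟩ := key a b hab
    rw [← hMe]
    apply inS M
    apply s1 M hM
    intro i hi
    rw [hMa]
    exact ⟨Cor_disj djG.symm (dCor' i hi) ha, Cor_disj djG ha (dCor' i hi)⟩
  · intro a b hab hb'
    obtain ⟨M, hM, hMa, hMb, hMe⟩ := key a b hab
    rw [← hMe]
    apply inS M
    apply s2 M hM
    intro i hi
    rw [hMb]
    exact ⟨Cor_disj djF.symm (cCor' i hi) hb', Cor_disj djF hb' (cCor' i hi)⟩
  · intro a b hab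
    obtain ⟨M, hM, hMa, hMb, hMe⟩ := key a b hab
    constructor
    · intro ha
      have hsup : ∀ i j, M i j ≠ 0 → st i ∉ H' ∧ st j ∉ H' := by
        apply s1 M hM
        intro i hi
        rw [not_not] at hi
        rw [hMa]
        exact ⟨Cor_disj djG (dCor i hi) ha, Cor_disj djG.symm ha (dCor i hi)⟩
      rw [← hMb]
      apply ec_ev ρ.snd (C := fun a => a ∈ Cor ℤ F H'ᶜ) Cor_zero (fun a b => Cor_add) M
      intro i j hij
      obtain ⟨hi, hj⟩ := hsup i j hij
      have e := Cor_mid (cCor' i hi) (τ.c i * ρ.snd.lv ℤ (ρ.snd.b i) (M i j) * star (τ.c j))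
        (cCor' j hj)
      have e1 : τ.c i * star (τ.c i) * τ.c i = τ.c i := ec_ccc τ i
      have e2 : star (τ.c j) * (τ.c j * star (τ.c j)) = star (τ.c j) := by
        have := congrArg star (ec_ccc τ j)
        rw [star_mul, star_mul, star_star] at this
        exact this
      have e3 : τ.c i * star (τ.c i) * (τ.c i * ρ.snd.lv ℤ (ρ.snd.b i) (M i j) * star (τ.c j)) *
          (τ.c j * star (τ.c j)) = τ.c i * ρ.snd.lv ℤ (ρ.snd.b i) (M i j) * star (τ.c j) := by
        rw [mul_assoc (τ.c i) _ (star (τ.c j)), ← mul_assoc (τ.c i * star (τ.c i)) (τ.c i), e1,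
          mul_assoc (τ.c i), mul_assoc _ (star (τ.c j)) _, e2]
      rw [e3] at e
      exact e
    · intro hb'
      have hsup : ∀ i j, M i j ≠ 0 → st i ∉ H' ∧ st j ∉ H' := by
        apply s2 M hM
        intro i hi
        rw [not_not] at hi
        rw [hMb]
        exact ⟨Cor_disj djF (cCor i hi) hb', Cor_disj djF.symm hb' (cCor i hi)⟩
      rw [← hMa]
      apply ec_ev ρ.fst (C := fun a => a ∈ Cor ℤ G Hᶜ) Cor_zero (fun a b => Cor_add) M
      intro i j hij
      obtain ⟨hi, hj⟩ := hsup i j hij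
      have e := Cor_mid (dCor' i hi) (d i * ρ.fst.lv ℤ (ρ.fst.b i) (M i j) * star (d j))
        (dCor' j hj)
      have e1 : d i * star (d i) * d i = d i := ec_ccc ρ.fst i
      have e2 : star (d j) * (d j * star (d j)) = star (d j) := by
        have e4 : d j * star (d j) * d j = d j := ec_ccc ρ.fst j
        have := congrArg star e4
        rw [star_mul, star_mul, star_star] at this
        exact this
      have e3 : d i * star (d i) * (d i * ρ.fst.lv ℤ (ρ.fst.b i) (M i j) * star (d j)) *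
          (d j * star (d j)) = d i * ρ.fst.lv ℤ (ρ.fst.b i) (M i j) * star (d j) := by
        rw [mul_assoc (d i) _ (star (d j)), ← mul_assoc (d i * star (d i)) (d i), e1,
          mul_assoc (d i), mul_assoc _ (star (d j)) _, e2]
      rw [e3] at e
      exact e

end Pool.Agent.Work.MP_2b4d3b_al.NE
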