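import Pool.Agent.Work.MP_2b4d3b_al.NE.Defs
import Pool.Agent.Work.MP_2b4d3b_al.NE.ExB
import Pool.Agent.Work.MP_2b4d3b_al.NE.ExC1
import Pool.Agent.Work.MP_2b4d3b_al.NE.ExC2

/-
Existence of a good partial isomorphism onto a stage ring. PROOF. B = τ.rng for a stage τ of F in M (GTp). ex_data gives d, y;
S = (τ.prd d y _).rng; ex_good, ex_cpt. Elements of S: (a, b) in rng of the product system; second coordinates are exactly τ.rng = B
(rng_map, rng_map_surj for RingHom.snd, ρ.snd has the same generators as τ), first coordinates in Cor N (closure induction: d, y at bases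
in Cor N).
-/

set_option linter.unusedVariables false
set_option linter.style.longLine false
set_option linter.unusedSectionVars false

namespace Pool.Agent.Work.MP_2b4d3b_al.NE

universe u v w u' v' w'

open Finset

variable {K₁ : Type u} [Field K₁] {K₂ : Type u'} [Field K₂] {V : Type v} {E : Type w}
  {V' : Type v'} {E' : Type w'} {G : Gr V E} {F : Gr V' E'}
  {Φ : NonUnitalSubring (UA K₁ G × UA K₂ F)} {N H : Set V} {M H' : Set V'}
  {S0 : NonUnitalSubring (UA ℤ G × UA ℤ F)}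

theorem exist_good (h : Rel4 Φ N H M H' S0) {B : Set (UA ℤ F)} (hB : GTp F M B) :
    ∃ S : NonUnitalSubring (UA ℤ G × UA ℤ F), Good Φ S ∧ Cpt H H' S0 S ∧
      (∀ a b, (a, b) ∈ S → a ∈ Cor ℤ G N ∧ b ∈ B) ∧ ∀ b ∈ B, ∃ a, (a, b) ∈ S := by
  obtain ⟨W, T, τ, st, hn, hs, hI, rfl⟩ := hB
  obtain ⟨d, y, hd⟩ := ex_data h hn hs
  refine ⟨(τ.prd d y hd.lf).rng, (ex_good h hn hs hd).1, ex_cpt h hn hs hd, ?_, ?_⟩
  · have key : ∀ z ∈ (τ.prd d y hd.lf).rng, z.1 ∈ Cor ℤ G N ∧ z.2 ∈ τ.rng := by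
      intro z hz
      induction hz using NonUnitalSubring.closure_induction with
      | mem z hz =>
        obtain ⟨i, hi⟩ := hz
        rcases hi with rfl | rfl | rfl | rfl
        · exact ⟨(hd.dN i).1, NonUnitalSubring.subset_closure ⟨i, Or.inl rfl⟩⟩
        · exact ⟨Cor_star (hd.dN i).1, NonUnitalSubring.subset_closure ⟨i, Or.inr (Or.inl rfl)⟩⟩
        · exact ⟨(hd.dN i).2,
            NonUnitalSubring.subset_closure ⟨i, Or.inr (Or.inr (Or.inl rfl))⟩⟩
        · exact ⟨Cor_star (hd.dN i).2,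
            NonUnitalSubring.subset_closure ⟨i, Or.inr (Or.inr (Or.inr rfl))⟩⟩
      | zero => exact ⟨Cor_zero, τ.rng.zero_mem⟩
      | add x z _ _ hx hz => exact ⟨Cor_add hx.1 hz.1, τ.rng.add_mem hx.2 hz.2⟩
      | neg x _ hx => exact ⟨Cor_neg hx.1, τ.rng.neg_mem hx.2⟩
      | mul x z _ _ hx hz => exact ⟨Cor_mul hx.1 hz.1, τ.rng.mul_mem hx.2 hz.2⟩
    exact fun a b hab => key (a, b) hab
  · intro b hb
    have hb' : b ∈ τ.rng := hb
    induction hb' using NonUnitalSubring.closure_induction with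
    | mem z hz =>
      obtain ⟨i, hi⟩ := hz
      rcases hi with rfl | rfl | rfl | rfl
      · exact ⟨d i, NonUnitalSubring.subset_closure ⟨i, Or.inl rfl⟩⟩
      · exact ⟨star (d i), NonUnitalSubring.subset_closure ⟨i, Or.inr (Or.inl rfl)⟩⟩
      · exact ⟨y (τ.b i), NonUnitalSubring.subset_closure ⟨i, Or.inr (Or.inr (Or.inl rfl))⟩⟩
      · exact ⟨star (y (τ.b i)),
          NonUnitalSubring.subset_closure ⟨i, Or.inr (Or.inr (Or.inr rfl))⟩⟩
    | zero => exact ⟨0, NonUnitalSubring.zero_mem _⟩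
    | add x z hx' hz' hx hz =>
      obtain ⟨a, ha⟩ := hx hx'
      obtain ⟨c, hc⟩ := hz hz'
      exact ⟨a + c, NonUnitalSubring.add_mem _ ha hc⟩
    | neg x hx' hx =>
      obtain ⟨a, ha⟩ := hx hx'
      exact ⟨-a, NonUnitalSubring.neg_mem _ ha⟩
    | mul x z hx' hz' hx hz =>
      obtain ⟨a, ha⟩ := hx hx'
      obtain ⟨c, hc⟩ := hz hz'
      exact ⟨a * c, NonUnitalSubring.mul_mem _ ha hc⟩

end Pool.Agent.Work.MP_2b4d3b_al.NE
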