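import Pool.Agent.Work.MP_2b4d3b_al.NE.Defs
import Pool.Agent.Work.MP_2b4d3b_al.NE.Loc
import Pool.Agent.Work.MP_2b4d3b_al.NE.ExC
import Pool.Agent.Work.MP_2b4d3b_al.NE.CjD

/-
One step of the back and forth. PROOF. A = σ.rng, a stage of G. The range of S is the subring generated by the images
of the generators c_i, star c_i, x_(b i), star of σ (S is the graph of a homomorphism on A). loc_gtp for F, M and the finite set of these
images (they are in Cor F M by rS) together with b0: B with GTp F M B, B in Cor F M, containing them; B is closed under the ring operations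
(B = τ.rng), so the range of S is in B. exist_good for B: S1. conj_good (h12 since ran S in B = ran S1): S'.
-/

set_option linter.unusedVariables false
set_option linter.style.longLine false
set_option linter.unusedSectionVars false

namespace Pool.Agent.Work.MP_2b4d3b_al.NE

universe u v w u' v' w'

open Finset

variable {K₁ : Type u} [Field K₁] {K₂ : Type u'} [Field K₂] {V : Type v} {E : Type w}
  {V' : Type v'} {E' : Type w'} {G : Gr V E} {F : Gr V' E'}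
  {Φ : NonUnitalSubring (UA K₁ G × UA K₂ F)} {N H : Set V} {M H' : Set V'}
  {S0 : NonUnitalSubring (UA ℤ G × UA ℤ F)}

theorem ext_right (h : Rel4 Φ N H M H' S0) {A : Set (UA ℤ G)} (hA : GTp G N A)
    {S : NonUnitalSubring (UA ℤ G × UA ℤ F)} (hS : Good Φ S) (cS : Cpt H H' S0 S)
    (dS : ∀ a b, (a, b) ∈ S → a ∈ A) (dS' : ∀ a ∈ A, ∃ b, (a, b) ∈ S)
    (rS : ∀ a b, (a, b) ∈ S → b ∈ Cor ℤ F M) (b0 : UA ℤ F) (hb0 : b0 ∈ Cor ℤ F M) :
    ∃ (B : Set (UA ℤ F)) (S' : NonUnitalSubring (UA ℤ G × UA ℤ F)), GTp F M B ∧ b0 ∈ B ∧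
      Good Φ S' ∧ Cpt H H' S0 S' ∧ (∀ a b, (a, b) ∈ S' → a ∈ Cor ℤ G N ∧ b ∈ B ∧ b ∈ Cor ℤ F M) ∧
      (∀ b ∈ B, ∃ a, (a, b) ∈ S') ∧ ∀ a b, (a, b) ∈ S → (a, b) ∈ S' := by
  classical
  obtain ⟨W, T, σ, st, hn, hs, hi, hAe⟩ := id hA
  have hmem : ∀ {a : UA ℤ G}, a ∈ A ↔ a ∈ σ.rng := fun {a} => by
    rw [hAe]
    rfl
  have hc : ∀ i, ∃ b, (σ.c i, b) ∈ S := fun i =>
    dS' _ (hmem.2 (NonUnitalSubring.subset_closure ⟨i, Or.inl rfl⟩))
  have hx : ∀ i, ∃ b, (σ.x (σ.b i), b) ∈ S := fun i =>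
    dS' _ (hmem.2 (NonUnitalSubring.subset_closure ⟨i, Or.inr (Or.inr (Or.inl rfl))⟩))
  choose bc hbc using hc
  choose bx hbx using hx
  obtain ⟨B, hB, h1, h2⟩ := loc_gtp h.nF h.hM
    (insert b0 (Finset.univ.image bc ∪ Finset.univ.image bx ∪
      (Finset.univ.image fun i => star (bc i)) ∪ (Finset.univ.image fun i => star (bx i)))) (by
      intro b hb
      simp only [Finset.mem_insert, Finset.mem_union, Finset.mem_image, Finset.mem_univ,
        true_and] at hb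
      rcases hb with rfl | ((⟨i, rfl⟩ | ⟨i, rfl⟩) | ⟨i, rfl⟩) | ⟨i, rfl⟩
      · exact hb0
      · exact rS _ _ (hbc i)
      · exact rS _ _ (hbx i)
      · exact rS _ _ (hS.st _ _ (hbc i))
      · exact rS _ _ (hS.st _ _ (hbx i)))
  simp only [Finset.mem_insert, Finset.mem_union, Finset.mem_image, Finset.mem_univ,
        true_and] at h1
  have hran : ∀ a ∈ σ.rng, ∀ b, (a, b) ∈ S → b ∈ B := by
    obtain ⟨W', T', τ, st', hn', hs', hi', hBe⟩ := id hB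
    have hmB : ∀ {b : UA ℤ F}, b ∈ B ↔ b ∈ τ.rng := fun {b} => by
      rw [hBe]
      rfl
    have uni : ∀ (a : UA ℤ G) (b b' : UA ℤ F), (a, b) ∈ S → (a, b') ∈ S → b = b' := by
      intro a b b' e1 e2
      have h3 := S.sub_mem e1 e2
      have h4 : ((0 : UA ℤ G), b - b') ∈ S := by
        have h5 : ((0 : UA ℤ G), b - b') = (a, b) - (a, b') := Prod.ext (sub_self a).symm rfl
        rw [h5]
        exact h3
      exact sub_eq_zero.1 (hS.z2 _ h4)
    intro a ha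
    refine NonUnitalSubring.closure_induction (p := fun a _ => ∀ b, (a, b) ∈ S → b ∈ B)
      ?_ ?_ ?_ ?_ ?_ ha
    · rintro g ⟨i, rfl | rfl | rfl | rfl⟩ b hb
      · rw [uni _ _ _ hb (hbc i)]
        exact h1 _ (Or.inr (Or.inl (Or.inl (Or.inl ⟨i, rfl⟩))))
      · rw [uni _ _ _ hb (hS.st _ _ (hbc i))]
        exact h1 _ (Or.inr (Or.inl (Or.inr ⟨i, rfl⟩)))
      · rw [uni _ _ _ hb (hbx i)]
        exact h1 _ (Or.inr (Or.inl (Or.inl (Or.inr ⟨i, rfl⟩))))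
      · rw [uni _ _ _ hb (hS.st _ _ (hbx i))]
        exact h1 _ (Or.inr (Or.inr ⟨i, rfl⟩))
    · intro b hb
      rw [hS.z2 _ hb]
      exact hmB.2 τ.rng.zero_mem
    · intro a1 a2 m1 m2 e1 e2 b hb
      obtain ⟨b1, f1⟩ := dS' a1 (hmem.2 m1)
      obtain ⟨b2, f2⟩ := dS' a2 (hmem.2 m2)
      rw [uni _ _ _ hb (S.add_mem f1 f2)]
      exact hmB.2 (τ.rng.add_mem (hmB.1 (e1 _ f1)) (hmB.1 (e2 _ f2)))
    · intro a1 m1 e1 b hb
      obtain ⟨b1, f1⟩ := dS' a1 (hmem.2 m1)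
      rw [uni _ _ _ hb (S.neg_mem f1)]
      exact hmB.2 (τ.rng.neg_mem (hmB.1 (e1 _ f1)))
    · intro a1 a2 m1 m2 e1 e2 b hb
      obtain ⟨b1, f1⟩ := dS' a1 (hmem.2 m1)
      obtain ⟨b2, f2⟩ := dS' a2 (hmem.2 m2)
      rw [uni _ _ _ hb (S.mul_mem f1 f2)]
      exact hmB.2 (τ.rng.mul_mem (hmB.1 (e1 _ f1)) (hmB.1 (e2 _ f2)))
  obtain ⟨S1, s1, s2, s3, s4⟩ := exist_good h hB
  obtain ⟨S', t1, t2, t3, t4, t5⟩ := conj_good h hA hS cS dS dS' s1 s2
    (fun a b hab => (s3 a b hab).1)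
    (fun a b hab => s4 b (hran a (hmem.1 (dS a b hab)) b hab))
  refine ⟨B, S', hB, h1 _ (Or.inl rfl), t1, t2, ?_, ?_, t5⟩
  · intro a b hab
    obtain ⟨a', ha'⟩ := (t4 b).1 ⟨a, hab⟩
    have e := (s3 a' b ha').2
    exact ⟨t3 a b hab, e, h2 b e⟩
  · intro b hb
    exact (t4 b).2 (s4 b hb)

end Pool.Agent.Work.MP_2b4d3b_al.NE
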