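import Pool.Agent.Work.MP_2b4d3b_al.NE.Defs
import Pool.Agent.Work.MP_2b4d3b_al.NE.HerC
import Pool.Agent.Work.MP_2b4d3b_al.NE.Famil
import Pool.Agent.Work.MP_2b4d3b_al.NE.StageInd

/-
The glued family. For x in H take P x = the pair (vx x, b) in S1; for x in N \ H the pair in S2 (t1); for e with s e in H the pair (ed e, b) in S1; for
s e in N \ H the pair in S2; otherwise (0, 0). By agree the pairs with x in N ∩ H are also in S2 (the pair (vx x, b') in S2 is in S1, so b' = b).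
PROOF of GluF: clear. glue_isfam: for every nice (W, T) in H ∪ N: IsFam G W T P S. First coordinates: fam_LP. Second coordinates: a relation which
only involves elements of S1 (or only of S2) holds since the difference of the two sides is a pair (0, w) in S1, so w = 0 (z2; S1 is closed
under star). Mixed relations: pq for x in H, y in N \ H: the second coordinate of P x is in Cor F H' (i1.m2), that of P y in Cor F (H' compl)
(comp, vx y in Cor (H compl)): Cor_disj. Sg for s e in H, s g in N \ H: star (S e) S g = star (S e) P (s e) P (s g) S g = 0. sS, Sr, SS: the range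
of an edge with source in H (N) is in H (N), all in S1 (S2). ck at x: all edges at x have source x.
-/

set_option linter.unusedVariables false
set_option linter.style.longLine false
set_option linter.unusedSectionVars false

namespace Pool.Agent.Work.MP_2b4d3b_al.NE

universe u v w u' v' w'

open Finset

variable {K₁ : Type u} [Field K₁] {K₂ : Type u'} [Field K₂] {V : Type v} {E : Type w}
  {V' : Type v'} {E' : Type w'} {G : Gr V E} {F : Gr V' E'}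
  {Φ : NonUnitalSubring (UA K₁ G × UA K₂ F)} {N H : Set V} {M H' : Set V'}
  {S1 S2 : NonUnitalSubring (UA ℤ G × UA ℤ F)}

/-- a family for the graph over H ∪ N in the product ring -/
structure GluF (N H : Set V) (S1 S2 : NonUnitalSubring (UA ℤ G × UA ℤ F)) (P : V → UA ℤ G × UA ℤ F)
    (S : E → UA ℤ G × UA ℤ F) : Prop where
  p1 : ∀ x ∈ H, P x ∈ S1 ∧ (P x).1 = vx ℤ G x
  p2 : ∀ x ∈ N, P x ∈ S2 ∧ (P x).1 = vx ℤ G x
  s1 : ∀ e, G.s e ∈ H → S e ∈ S1 ∧ (S e).1 = ed ℤ G e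
  s2 : ∀ e, G.s e ∈ N → S e ∈ S2 ∧ (S e).1 = ed ℤ G e

private theorem eq_of {S0 : NonUnitalSubring (UA ℤ G × UA ℤ F)} {A : Set (UA ℤ G)}
    {B : Set (UA ℤ F)} (i : GIso S0 A B) {s t : UA ℤ G × UA ℤ F} (hs : s ∈ S0) (ht : t ∈ S0)
    (h : s.1 = t.1) : s = t := by
  have h1 : s - t ∈ S0 := S0.sub_mem hs ht
  have h2 : s - t = (0, s.2 - t.2) := Prod.ext (by rw [Prod.fst_sub, h, sub_self]) rfl
  rw [h2] at h1
  have h3 := i.z2 _ h1
  exact Prod.ext h (sub_eq_zero.1 h3)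

/-- the relations on one side -/
private theorem side {S0 : NonUnitalSubring (UA ℤ G × UA ℤ F)} {N0 : Set V} {B : Set (UA ℤ F)}
    (g : Good Φ S0) (i : GIso S0 (Cor ℤ G N0) B) (hN0 : Her G N0)
    {P : V → UA ℤ G × UA ℤ F} {S : E → UA ℤ G × UA ℤ F}
    (hP : ∀ x ∈ N0, P x ∈ S0 ∧ (P x).1 = vx ℤ G x)
    (hS : ∀ e, G.s e ∈ N0 → S e ∈ S0 ∧ (S e).1 = ed ℤ G e) :
    (∀ x ∈ N0, P x * P x = P x) ∧ (∀ x ∈ N0, star (P x) = P x) ∧
    (∀ x ∈ N0, ∀ y ∈ N0, x ≠ y → P x * P y = 0) ∧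
    (∀ e, G.s e ∈ N0 → P (G.s e) * S e = S e) ∧
    (∀ e, G.s e ∈ N0 → S e * P (G.r e) = S e) ∧
    (∀ e, G.s e ∈ N0 → star (S e) * S e = P (G.r e)) ∧
    (∀ e g, G.s e ∈ N0 → G.s g ∈ N0 → e ≠ g → star (S e) * S g = 0) ∧
    (∀ x ∈ N0, ∀ Q : Finset E, (∀ e, e ∈ Q ↔ G.s e = x) → Q.Nonempty →
      P x = ∑ e ∈ Q, S e * star (S e)) := by
  have hst : ∀ t, t ∈ S0 → star t ∈ S0 := fun t ht => g.st t.1 t.2 ht
  have hs1 : ∀ e, G.s e ∈ N0 → (star (S e)).1 = gh ℤ G e := by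
    intro e he
    rw [Prod.fst_star, (hS e he).2, star_ed]
  refine ⟨?_, ?_, ?_, ?_, ?_, ?_, ?_, ?_⟩
  · intro x hx
    refine eq_of i (S0.mul_mem (hP x hx).1 (hP x hx).1) (hP x hx).1 ?_
    rw [Prod.fst_mul, (hP x hx).2, vx_vx]
  · intro x hx
    refine eq_of i (hst _ (hP x hx).1) (hP x hx).1 ?_
    rw [Prod.fst_star, (hP x hx).2, star_vx]
  · intro x hx y hy hxy
    refine eq_of i (S0.mul_mem (hP x hx).1 (hP y hy).1) S0.zero_mem ?_
    rw [Prod.fst_mul, (hP x hx).2, (hP y hy).2, vx_ne hxy, Prod.fst_zero]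
  · intro e he
    refine eq_of i (S0.mul_mem (hP _ he).1 (hS e he).1) (hS e he).1 ?_
    rw [Prod.fst_mul, (hP _ he).2, (hS e he).2, s_ed]
  · intro e he
    have hr := hN0 e he
    refine eq_of i (S0.mul_mem (hS e he).1 (hP _ hr).1) (hS e he).1 ?_
    rw [Prod.fst_mul, (hP _ hr).2, (hS e he).2, ed_r]
  · intro e he
    have hr := hN0 e he
    refine eq_of i (S0.mul_mem (hst _ (hS e he).1) (hS e he).1) (hP _ hr).1 ?_
    rw [Prod.fst_mul, hs1 e he, (hP _ hr).2, (hS e he).2, gh_ed]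
  · intro e g he hg heg
    refine eq_of i (S0.mul_mem (hst _ (hS e he).1) (hS g hg).1) S0.zero_mem ?_
    rw [Prod.fst_mul, hs1 e he, (hS g hg).2, gh_ed_ne heg, Prod.fst_zero]
  · intro x hx Q hQ hne
    have hm : ∀ e ∈ Q, G.s e ∈ N0 := fun e he => ((hQ e).1 he) ▸ hx
    refine eq_of i (hP x hx).1 (sum_mem fun e he =>
      S0.mul_mem (hS e (hm e he)).1 (hst _ (hS e (hm e he)).1)) ?_
    rw [Prod.fst_sum, (hP x hx).2, ck_sum x Q hQ hne]
    refine Finset.sum_congr rfl fun e he => ?_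
    rw [Prod.fst_mul, (hS e (hm e he)).2, hs1 e (hm e he)]

private theorem pq_mix {P : V → UA ℤ G × UA ℤ F}
    (i1 : GIso S1 (Cor ℤ G H) (Cor ℤ F H'))
    (comp : ∀ a b, (a, b) ∈ S2 → a ∈ Cor ℤ G Hᶜ → b ∈ Cor ℤ F H'ᶜ)
    (h1 : ∀ x ∈ H, P x ∈ S1 ∧ (P x).1 = vx ℤ G x)
    (h2 : ∀ x ∈ N, P x ∈ S2 ∧ (P x).1 = vx ℤ G x) {x y : V} (hx : x ∈ H) (hy : y ∈ N)
    (hy' : y ∉ H) : P x * P y = 0 ∧ P y * P x = 0 := by
  have hxy : x ≠ y := fun h => hy' (h ▸ hx)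
  have hb : (P x).2 ∈ Cor ℤ F H' := i1.m2 (P x).1 (P x).2 (h1 x hx).1
  have hc : (P y).2 ∈ Cor ℤ F H'ᶜ := by
    refine comp (P y).1 (P y).2 (h2 y hy).1 ?_
    rw [(h2 y hy).2]
    exact vx_mem_Cor hy'
  constructor
  · refine Prod.ext ?_ ?_
    · rw [Prod.fst_mul, (h1 x hx).2, (h2 y hy).2, vx_ne hxy, Prod.fst_zero]
    · rw [Prod.snd_mul, Prod.snd_zero]
      exact Cor_disj disjoint_compl_right hb hc
  · refine Prod.ext ?_ ?_
    · rw [Prod.fst_mul, (h1 x hx).2, (h2 y hy).2, vx_ne hxy.symm, Prod.fst_zero]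
    · rw [Prod.snd_mul, Prod.snd_zero]
      exact Cor_disj disjoint_compl_left hc hb

theorem gluf_exists (hG : NoExit G) (hF : NoExit F)
    (iso : GIso Φ (LP K₁ G : Set (UA K₁ G)) (LP K₂ F : Set (UA K₂ F))) (hH : Her G H)
    (hN : Her G N) (g1 : Good Φ S1) (i1 : GIso S1 (Cor ℤ G H) (Cor ℤ F H')) (g2 : Good Φ S2)
    (i2 : GIso S2 (Cor ℤ G N) (Cor ℤ F M))
    (agree : ∀ a b, (a, b) ∈ S2 → a ∈ Cor ℤ G H → (a, b) ∈ S1)
    (comp : ∀ a b, (a, b) ∈ S2 → a ∈ Cor ℤ G Hᶜ → b ∈ Cor ℤ F H'ᶜ) :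
    ∃ (P : V → UA ℤ G × UA ℤ F) (S : E → UA ℤ G × UA ℤ F), GluF N H S1 S2 P S := by
  classical
  have hf1 : ∀ a, ∃ b, a ∈ Cor ℤ G H → (a, b) ∈ S1 := by
    intro a
    by_cases h : a ∈ Cor ℤ G H
    · obtain ⟨b, hb⟩ := i1.t1 a h
      exact ⟨b, fun _ => hb⟩
    · exact ⟨0, fun h1 => absurd h1 h⟩
  have hf2 : ∀ a, ∃ b, a ∈ Cor ℤ G N → (a, b) ∈ S2 := by
    intro a
    by_cases h : a ∈ Cor ℤ G N
    · obtain ⟨b, hb⟩ := i2.t1 a h
      exact ⟨b, fun _ => hb⟩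
    · exact ⟨0, fun h1 => absurd h1 h⟩
  choose f1 hf1 using hf1
  choose f2 hf2 using hf2
  have hag : ∀ a, a ∈ Cor ℤ G H → a ∈ Cor ℤ G N → (a, f1 a) ∈ S2 := by
    intro a ha hb
    have h1 := agree a (f2 a) (hf2 a hb) ha
    have h2 : ((a, f2 a) : UA ℤ G × UA ℤ F) = (a, f1 a) := eq_of i1 h1 (hf1 a ha) rfl
    rw [← h2]
    exact hf2 a hb
  refine ⟨fun x => (vx ℤ G x, if x ∈ H then f1 (vx ℤ G x) else f2 (vx ℤ G x)),
    fun e => (ed ℤ G e, if G.s e ∈ H then f1 (ed ℤ G e) else f2 (ed ℤ G e)), ?_, ?_, ?_, ?_⟩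
  · intro x hx
    refine ⟨?_, rfl⟩
    simp only [if_pos hx]
    exact hf1 _ (vx_mem_Cor hx)
  · intro x hx
    refine ⟨?_, rfl⟩
    by_cases hxH : x ∈ H
    · simp only [if_pos hxH]
      exact hag _ (vx_mem_Cor hxH) (vx_mem_Cor hx)
    · simp only [if_neg hxH]
      exact hf2 _ (vx_mem_Cor hx)
  · intro e he
    refine ⟨?_, rfl⟩
    simp only [if_pos he]
    exact hf1 _ (ed_mem_Cor hH he).1
  · intro e he
    refine ⟨?_, rfl⟩
    by_cases heH : G.s e ∈ H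
    · simp only [if_pos heH]
      exact hag _ (ed_mem_Cor hH heH).1 (ed_mem_Cor hN he).1
    · simp only [if_neg heH]
      exact hf2 _ (ed_mem_Cor hN he).1

theorem glue_isfam (hG : NoExit G) (hF : NoExit F)
    (iso : GIso Φ (LP K₁ G : Set (UA K₁ G)) (LP K₂ F : Set (UA K₂ F))) (hH : Her G H)
    (hN : Her G N) (g1 : Good Φ S1) (i1 : GIso S1 (Cor ℤ G H) (Cor ℤ F H')) (g2 : Good Φ S2)
    (i2 : GIso S2 (Cor ℤ G N) (Cor ℤ F M))
    (agree : ∀ a b, (a, b) ∈ S2 → a ∈ Cor ℤ G H → (a, b) ∈ S1)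
    (comp : ∀ a b, (a, b) ∈ S2 → a ∈ Cor ℤ G Hᶜ → b ∈ Cor ℤ F H'ᶜ)
    {P : V → UA ℤ G × UA ℤ F} {S : E → UA ℤ G × UA ℤ F} (hP : GluF N H S1 S2 P S) {W : Finset V}
    {T : Finset E} (hn : Nice G (H ∪ N) W T) : IsFam G W T P S := by
  classical
  obtain ⟨a1, a2, a3, a4, a5, a6, a7, a8⟩ := side g1 i1 hH hP.p1 hP.s1
  obtain ⟨b1, b2, b3, b4, b5, b6, b7, b8⟩ := side g2 i2 hN hP.p2 hP.s2
  have hps : ∀ x, x ∈ H ∪ N → star (P x) = P x := by
    rintro x (hx | hx)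
    · exact a2 x hx
    · exact b2 x hx
  have hpq : ∀ x, x ∈ H ∪ N → ∀ y, y ∈ H ∪ N → x ≠ y → P x * P y = 0 := by
    intro x hx y hy hxy
    by_cases hxH : x ∈ H
    · by_cases hyH : y ∈ H
      · exact a3 x hxH y hyH hxy
      · exact (pq_mix i1 comp hP.p1 hP.p2 hxH (hy.resolve_left hyH) hyH).1
    · by_cases hyH : y ∈ H
      · exact (pq_mix i1 comp hP.p1 hP.p2 hyH (hx.resolve_left hxH) hxH).2
      · exact b3 x (hx.resolve_left hxH) y (hy.resolve_left hyH) hxy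
  have hsS : ∀ e, G.s e ∈ H ∪ N → P (G.s e) * S e = S e := by
    rintro e (he | he)
    · exact a4 e he
    · exact b4 e he
  have hW : ∀ x ∈ W, x ∈ H ∪ N := hn.1
  have hT : ∀ e ∈ T, G.s e ∈ H ∪ N := fun e he => hW _ (hn.2.2 e he).1
  have hmix : ∀ e g, G.s e ∈ H ∪ N → G.s g ∈ H ∪ N → G.s e ≠ G.s g → star (S e) * S g = 0 := by
    intro e g he hg hne
    have h1 : star (S e) * P (G.s e) = star (S e) := by
      have h2 := congrArg star (hsS e he)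
      rw [star_mul, hps _ he] at h2
      exact h2
    rw [← h1, ← hsS g hg, mul_assoc, ← mul_assoc (P (G.s e)), hpq _ he _ hg hne, zero_mul,
      mul_zero]
  refine ⟨hn.2.2, ?_, fun x hx => hps x (hW x hx),
    fun x hx y hy hxy => hpq x (hW x hx) y (hW y hy) hxy, fun e he => hsS e (hT e he), ?_, ?_, ?_,
    ?_⟩
  · intro x hx
    rcases hW x hx with h | h
    · exact a1 x h
    · exact b1 x h
  · intro e he
    rcases hT e he with h | h
    · exact a5 e h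
    · exact b5 e h
  · intro e he
    rcases hT e he with h | h
    · exact a6 e h
    · exact b6 e h
  · intro e he g hg heg
    by_cases hs : G.s e = G.s g
    · rcases hT e he with h | h
      · exact a7 e g h (hs ▸ h) heg
      · exact b7 e g h (hs ▸ h) heg
    · exact hmix e g (hT e he) (hT g hg) hs
  · intro x hx Q hQ hne _
    rcases hW x hx with h | h
    · exact a8 x h Q hQ hne
    · exact b8 x h Q hQ hne

end Pool.Agent.Work.MP_2b4d3b_al.NE
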