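import Pool.Agent.Work.MP_2b4d3b_al.NE.Defs
import Pool.Agent.Work.MP_2b4d3b_al.NE.GlA1
import Pool.Agent.Work.MP_2b4d3b_al.NE.GoodS
import Pool.Agent.Work.MP_2b4d3b_al.NE.StageM
import Pool.Agent.Work.MP_2b4d3b_al.NE.LauB

/-
The stages of the glued family are good. PROOF. good_sys for τ. hc, hx: gen: entries are in the closure of gset; P x, S e are in S1 or S2, so in LP x LP
(g1.mL, g2.mL; W in H ∪ N). h0: τ.fst is a stage of UA Z G: stg_map with RingHom.fst gives Stg G W T (fun x => (P x).1) (fun e => (S e).1), and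
these functions agree with vx Z G, ed Z G on W, T (sources of T in W, in H ∪ N), so Stg G W T (vx Z G) (ed Z G) τ.fst st (congruence of all
clauses on W and T; for lauB the edges of the cycle are in T by pth_edges). stg_bind: BInd Z, a = 1: c_(b i).1 is not 0. he, hl: let
x = st (b i) in W, say x in H (else N with S2). Not lau: c_(b i) = P x - sum over g in T with s g = x of S g S g* is in S1, a projection
(c_base), first coordinate a projection: g1.eq. Lau: c_(b i) = P x in S1, x-value = P x * wd S l in S1 (the sources of the edges of the cycle are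
in H by heredity), LauGen G (vx x) (vx x * wd (ed) l) by lg_star, LauGen F of the second coordinates by g1.lg.
-/

set_option autoImplicit false
set_option linter.unusedVariables false
set_option linter.style.longLine false
set_option linter.unusedSectionVars false

namespace Pool.Agent.Work.MP_2b4d3b_al.NE

universe u v w u' v' w'

open Finset

variable {K₁ : Type u} [Field K₁] {K₂ : Type u'} [Field K₂] {V : Type v} {E : Type w}
  {V' : Type v'} {E' : Type w'} {G : Gr V E} {F : Gr V' E'}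
  {Φ : NonUnitalSubring (UA K₁ G × UA K₂ F)} {N H : Set V} {M H' : Set V'}
  {S1 S2 : NonUnitalSubring (UA ℤ G × UA ℤ F)}

private theorem gl2_rch {x y : V} {l : List E} (h : Pth G x l y) : GRch G x y := by
  induction l generalizing x with
  | nil =>
    have h1 : x = y := h
    rw [h1]
    exact Relation.ReflTransGen.refl
  | cons e l ih => exact Relation.ReflTransGen.head ⟨e, h.1, rfl⟩ (ih h.2)

private theorem gl2_cyc {y : V} {l : List E} (hl : Ret G y l) : Cyc G y := by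
  obtain ⟨h1, h2, -⟩ := hl
  cases l with
  | nil => exact absurd rfl h1
  | cons e l => exact ⟨e, h2.1, gl2_rch h2.2⟩

/-- stages only depend on the values of the family on the finite subgraph -/
private theorem gl2_congr {R : Type u} [Ring R] [StarRing R] (hG : NoExit G) {W : Finset V}
    {T : Finset E} (hs : CycSat G W T) (hE : Ends G W T) {P P' : V → R} {S S' : E → R}
    (hP : ∀ x ∈ W, P x = P' x) (hS : ∀ e ∈ T, S e = S' e) {σ : Sys R} {st : σ.I → V}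
    (h : Stg G W T P S σ st) : Stg G W T P' S' σ st := by
  classical
  have hw : ∀ x ∈ W, ∀ l, Ret G x l → wd S l = wd S' l := by
    intro x hx l hl
    have h1 := (pth_edges hG hs hE hx (gl2_cyc hl) hl.2.1).1
    unfold wd
    congr 1
    exact List.map_congr_left fun e he => hS e (h1 e he)
  have hg : gset W T P S = gset W T P' S' := by
    ext a
    constructor
    · rintro (⟨x, hx, rfl⟩ | ⟨e, he, rfl⟩ | ⟨e, he, rfl⟩)
      · exact Or.inl ⟨x, hx, hP x hx⟩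
      · exact Or.inr (Or.inl ⟨e, he, hS e he⟩)
      · exact Or.inr (Or.inr ⟨e, he, by rw [hS e he]⟩)
    · rintro (⟨x, hx, rfl⟩ | ⟨e, he, rfl⟩ | ⟨e, he, rfl⟩)
      · exact Or.inl ⟨x, hx, (hP x hx).symm⟩
      · exact Or.inr (Or.inl ⟨e, he, (hS e he).symm⟩)
      · exact Or.inr (Or.inr ⟨e, he, by rw [hS e he]⟩)
  refine ⟨h.stW, ?_, h.rch, ?_, ?_, h.opU, h.opE, ?_, ?_, ?_⟩
  · intro x hx
    rw [← hP x hx]
    exact h.sum x hx
  · intro i hi
    obtain ⟨h1, l, hl, h2⟩ := h.lauB i hi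
    have hx := h.stW (σ.b i)
    refine ⟨by rw [← hP _ hx]; exact h1, l, hl, ?_⟩
    rw [← hP _ hx, ← hw _ hx l hl]
    exact h2
  · intro i hi
    obtain ⟨h1, h2, h3⟩ := h.opB i hi
    refine ⟨h1, h2, ?_⟩
    rw [h3, hP _ (h.stW _)]
    congr 1
    refine sum_congr rfl fun g hg => ?_
    rw [hS g (mem_filter.1 hg).1]
  · intro x hx hc
    obtain ⟨i, h1, h2, h3, h4⟩ := h.cyc x hx hc
    refine ⟨i, h1, h2, ?_, fun l hl => ?_⟩
    · rw [← hP x hx]
      exact h3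
    · rw [← hP x hx, ← hw x hx l hl]
      exact h4 l hl
  · intro e he
    rw [← hS e he]
    exact h.edge e he
  · intro i
    rw [← hg]
    exact h.gen i

private theorem gl2_wd {H0 : Set V} {S0 : NonUnitalSubring (UA ℤ G × UA ℤ F)} (hH0 : Her G H0)
    {S : E → UA ℤ G × UA ℤ F} (s0 : ∀ e, G.s e ∈ H0 → S e ∈ S0 ∧ (S e).1 = ed ℤ G e)
    {x y : V} {l : List E} (hl : Pth G x l y) (hx : x ∈ H0) :
    (∀ a ∈ S0, a * wd S l ∈ S0) ∧ (wd S l).1 = wd (ed ℤ G) l := by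
  induction l generalizing x with
  | nil =>
    refine ⟨fun a ha => ?_, rfl⟩
    have h1 : wd S ([] : List E) = 1 := rfl
    rw [h1, mul_one]
    exact ha
  | cons e l ih =>
    have h0 : G.s e ∈ H0 := by
      rw [hl.1]
      exact hx
    obtain ⟨h1, h2⟩ := ih hl.2 (hH0 e h0)
    have h3 : wd S (e :: l) = S e * wd S l := rfl
    have h4 : wd (ed ℤ G) (e :: l) = ed ℤ G e * wd (ed ℤ G) l := rfl
    refine ⟨fun a ha => ?_, ?_⟩
    · rw [h3, ← mul_assoc]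
      exact h1 _ (S0.mul_mem ha (s0 e h0).1)
    · rw [h3, h4, Prod.fst_mul, h2, (s0 e h0).2]

private theorem gl2_part (hG : NoExit G) {H0 : Set V} {S0 : NonUnitalSubring (UA ℤ G × UA ℤ F)}
    (hH0 : Her G H0) (g0 : Good Φ S0) {P : V → UA ℤ G × UA ℤ F} {S : E → UA ℤ G × UA ℤ F}
    (p0 : ∀ x ∈ H0, P x ∈ S0 ∧ (P x).1 = vx ℤ G x)
    (s0 : ∀ e, G.s e ∈ H0 → S e ∈ S0 ∧ (S e).1 = ed ℤ G e) {W : Finset V} {T : Finset E}
    {τ : Sys (UA ℤ G × UA ℤ F)} {st : τ.I → V} (hs : Stg G W T P S τ st) (i : τ.I)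
    (hi : st (τ.b i) ∈ H0) :
    Eqf Φ (τ.c (τ.b i)).1 (τ.c (τ.b i)).2 ∧ (τ.lau (τ.b i) →
      LauGen G (τ.c (τ.b i)).1 (τ.x (τ.b i)).1 ∧ LauGen F (τ.c (τ.b i)).2 (τ.x (τ.b i)).2) := by
  classical
  obtain ⟨p1, p2⟩ := p0 _ hi
  have hpr : IsPrj (τ.c (τ.b i)).1 := by
    obtain ⟨h1, h2⟩ := c_base τ (τ.bb i)
    exact ⟨congrArg Prod.fst h2, congrArg Prod.fst h1⟩
  by_cases hla : τ.lau (τ.b i)
  · obtain ⟨h1, l, hl, h2⟩ := hs.lauB i hla
    obtain ⟨h3, h4⟩ := gl2_wd hH0 s0 hl.2.1 hi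
    have hcm : τ.c (τ.b i) ∈ S0 := by
      rw [h1]
      exact p1
    have hxm : τ.x (τ.b i) ∈ S0 := by
      rw [h2]
      exact h3 _ p1
    refine ⟨g0.eq _ _ hcm hpr, fun _ => ?_⟩
    have hLG : LauGen G (τ.c (τ.b i)).1 (τ.x (τ.b i)).1 := by
      rw [h1, h2, Prod.fst_mul, p2, h4]
      exact lg_star hG hl
    exact ⟨hLG, (g0.lg _ _ _ _ hcm hxm).1 hLG⟩
  · obtain ⟨-, -, h3⟩ := hs.opB i hla
    have hcm : τ.c (τ.b i) ∈ S0 := by
      rw [h3]
      refine S0.sub_mem p1 (sum_mem fun g hg => ?_)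
      have h4 : G.s g ∈ H0 := by
        rw [(mem_filter.1 hg).2]
        exact hi
      have h5 := (s0 g h4).1
      exact S0.mul_mem h5 (g0.st _ _ h5)
    exact ⟨g0.eq _ _ hcm hpr, fun h => absurd h hla⟩

theorem glue_stage (hG : NoExit G) (hF : NoExit F)
    (iso : GIso Φ (LP K₁ G : Set (UA K₁ G)) (LP K₂ F : Set (UA K₂ F))) (hH : Her G H)
    (hN : Her G N) (g1 : Good Φ S1) (i1 : GIso S1 (Cor ℤ G H) (Cor ℤ F H')) (g2 : Good Φ S2)
    (i2 : GIso S2 (Cor ℤ G N) (Cor ℤ F M))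
    (agree : ∀ a b, (a, b) ∈ S2 → a ∈ Cor ℤ G H → (a, b) ∈ S1)
    (comp : ∀ a b, (a, b) ∈ S2 → a ∈ Cor ℤ G Hᶜ → b ∈ Cor ℤ F H'ᶜ)
    {P : V → UA ℤ G × UA ℤ F} {S : E → UA ℤ G × UA ℤ F} (hP : GluF N H S1 S2 P S) {W : Finset V}
    {T : Finset E} (hn : Nice G (H ∪ N) W T) {τ : Sys (UA ℤ G × UA ℤ F)} {st : τ.I → V}
    (hs : Stg G W T P S τ st) : Good Φ τ.rng := by
  -- vertices and edges
  have hPm : ∀ x ∈ W, ((P x).1 ∈ LP ℤ G ∧ (P x).2 ∈ LP ℤ F) ∧ (P x).1 = vx ℤ G x := by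
    intro x hx
    rcases hn.1 x hx with h | h
    · exact ⟨g1.mL _ _ (hP.p1 x h).1, (hP.p1 x h).2⟩
    · exact ⟨g2.mL _ _ (hP.p2 x h).1, (hP.p2 x h).2⟩
  have hSm : ∀ e ∈ T, ((S e).1 ∈ LP ℤ G ∧ (S e).2 ∈ LP ℤ F) ∧ (S e).1 = ed ℤ G e := by
    intro e he
    rcases hn.1 _ (hn.2.2 e he).1 with h | h
    · exact ⟨g1.mL _ _ (hP.s1 e h).1, (hP.s1 e h).2⟩
    · exact ⟨g2.mL _ _ (hP.s2 e h).1, (hP.s2 e h).2⟩
  have hcl : ∀ a ∈ NonUnitalSubring.closure (gset W T P S), a.1 ∈ LP ℤ G ∧ a.2 ∈ LP ℤ F := by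
    intro a ha
    induction ha using NonUnitalSubring.closure_induction with
    | mem a ha =>
      rcases ha with ⟨x, hx, rfl⟩ | ⟨e, he, rfl⟩ | ⟨e, he, rfl⟩
      · exact (hPm x hx).1
      · exact (hSm e he).1
      · exact ⟨star_mem_LP (hSm e he).1.1, star_mem_LP (hSm e he).1.2⟩
    | zero => exact ⟨zero_mem _, zero_mem _⟩
    | add a b _ _ ha hb => exact ⟨add_mem ha.1 hb.1, add_mem ha.2 hb.2⟩
    | neg a _ ha => exact ⟨neg_mem ha.1, neg_mem ha.2⟩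
    | mul a b _ _ ha hb => exact ⟨mul_mem ha.1 hb.1, mul_mem ha.2 hb.2⟩
  have hst : Stg G W T (vx ℤ G) (ed ℤ G) τ.fst st := by
    have h1 := stg_map hs (RingHom.fst (UA ℤ G) (UA ℤ F)) (fun _ => rfl)
    exact gl2_congr hG hn.2.1 hn.2.2 (fun x hx => (hPm x hx).2) (fun e he => (hSm e he).2) h1
  have hpart : ∀ i, Eqf Φ (τ.c (τ.b i)).1 (τ.c (τ.b i)).2 ∧ (τ.lau (τ.b i) →
      LauGen G (τ.c (τ.b i)).1 (τ.x (τ.b i)).1 ∧ LauGen F (τ.c (τ.b i)).2 (τ.x (τ.b i)).2) := by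
    intro i
    rcases hn.1 _ (hs.stW (τ.b i)) with h | h
    · exact gl2_part hG hH g1 hP.p1 hP.s1 hs i h
    · exact gl2_part hG hN g2 hP.p2 hP.s2 hs i h
  refine (good_sys hG hF iso τ (fun i => hcl _ (hs.gen i).1) (fun i => hcl _ (hs.gen i).2) ?_
    (fun i => (hpart i).1) (fun i => (hpart i).2)).1
  intro i h0
  have h1 := (stg_bind ℤ hG hst).1.1 i 1
  have h2 : (1 : ℤ) • τ.fst.c (τ.fst.b i) = 0 := by
    rw [one_smul]
    exact h0
  exact one_ne_zero (h1 h2)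

end Pool.Agent.Work.MP_2b4d3b_al.NE
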