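import Pool.Agent.Work.MP_2b4d3b_al.NE.Defs
import Pool.Agent.Work.MP_2b4d3b_al.NE.GlA2
import Pool.Agent.Work.MP_2b4d3b_al.NE.NiceS
import Pool.Agent.Work.MP_2b4d3b_al.NE.StageM

/-
Gluing two good isomorphisms. PROOF. gluf_exists: P, S. For every nice (W, T) in H ∪ N: IsFam (glue_isfam), stage_exists (StageThm via StageInd), so
Good Φ τ.rng (glue_stage) and τ.rng = closure (gset W T P S) (stg_mem). Every element of S1 is in closure (gset W T P S) for some
nice (W, T) (and all larger ones): for (a, b) in S1, a in Cor Z G H: by cor_ind for H there is b' with (a, b') in S1 and in such a closure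
(generators: P x, S e, star (S e) for sources in H: nice_exists; sums and products: nice_union), and b' = b (z2). Likewise for S2 and N. So finitely
many elements of S = closure (S1 ∪ S2) lie in one closure (gset W T P S) (closure_induction, nice_union, monotonicity of gset), and conversely
closure (gset W T P S) is contained in S (P x, S e in S1 ∪ S2; stars: Good.st). All clauses of Good Φ S concern at most two elements: they hold
since they hold in τ.rng.
-/

set_option linter.unusedVariables false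
set_option linter.style.longLine false
set_option linter.unusedSectionVars false

namespace Pool.Agent.Work.MP_2b4d3b_al.NE

universe u v w u' v' w'

open Finset

variable {K₁ : Type u} [Field K₁] {K₂ : Type u'} [Field K₂] {V : Type v} {E : Type w}
  {V' : Type v'} {E' : Type w'} {G : Gr V E} {F : Gr V' E'}
  {Φ : NonUnitalSubring (UA K₁ G × UA K₂ F)} {N H : Set V} {M H' : Set V'}
  {S1 S2 : NonUnitalSubring (UA ℤ G × UA ℤ F)}

private theorem gset_mono {R : Type u} [Ring R] [StarRing R] {W W' : Finset V} {T T' : Finset E}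
    (hW : W ⊆ W') (hT : T ⊆ T') (P : V → R) (S : E → R) : gset W T P S ⊆ gset W' T' P S := by
  rintro a (⟨x, hx, rfl⟩ | ⟨e, he, rfl⟩ | ⟨e, he, rfl⟩)
  · exact Or.inl ⟨x, hW hx, rfl⟩
  · exact Or.inr (Or.inl ⟨e, hT he, rfl⟩)
  · exact Or.inr (Or.inr ⟨e, hT he, rfl⟩)

/-- the element lies in the ring generated by a nice subgraph -/
private def InN (G : Gr V E) (M : Set V) {R : Type u} [Ring R] [StarRing R] (P : V → R) (S : E → R)
    (a : R) : Prop :=
  ∃ (W : Finset V) (T : Finset E), Nice G M W T ∧ a ∈ NonUnitalSubring.closure (gset W T P S)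

private theorem inN_two {R : Type u} [Ring R] [StarRing R] {M : Set V} {P : V → R} {S : E → R}
    {a b : R} (ha : InN G M P S a) (hb : InN G M P S b) :
    ∃ (W : Finset V) (T : Finset E), Nice G M W T ∧
      a ∈ NonUnitalSubring.closure (gset W T P S) ∧
      b ∈ NonUnitalSubring.closure (gset W T P S) := by
  classical
  obtain ⟨W, T, h1, h2⟩ := ha
  obtain ⟨W', T', h3, h4⟩ := hb
  refine ⟨W ∪ W', T ∪ T', nice_union h1 h3, ?_, ?_⟩
  · exact NonUnitalSubring.closure_mono
      (gset_mono Finset.subset_union_left Finset.subset_union_left P S) h2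
  · exact NonUnitalSubring.closure_mono
      (gset_mono Finset.subset_union_right Finset.subset_union_right P S) h4

private theorem inN_add {R : Type u} [Ring R] [StarRing R] {M : Set V} {P : V → R} {S : E → R}
    {a b : R} (ha : InN G M P S a) (hb : InN G M P S b) : InN G M P S (a + b) := by
  obtain ⟨W, T, h1, h2, h3⟩ := inN_two ha hb
  exact ⟨W, T, h1, add_mem h2 h3⟩

private theorem inN_mul {R : Type u} [Ring R] [StarRing R] {M : Set V} {P : V → R} {S : E → R}
    {a b : R} (ha : InN G M P S a) (hb : InN G M P S b) : InN G M P S (a * b) := by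
  obtain ⟨W, T, h1, h2, h3⟩ := inN_two ha hb
  exact ⟨W, T, h1, mul_mem h2 h3⟩

private theorem inN_zero {R : Type u} [Ring R] [StarRing R] {M : Set V} {P : V → R} {S : E → R} :
    InN G M P S (0 : R) := by
  refine ⟨∅, ∅, ⟨?_, ?_, ?_⟩, zero_mem _⟩
  · intro x hx; simp at hx
  · intro e he; simp at he
  · intro e he; simp at he

private theorem inN_vx (hG : NoExit G) {R : Type u} [Ring R] [StarRing R] {M : Set V}
    (hM : Her G M) {P : V → R} {S : E → R} {x : V} (hx : x ∈ M) : InN G M P S (P x) := by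
  obtain ⟨W, T, h1, h2, h3⟩ := nice_exists hG hM {x} ∅ (by simpa using hx) (by simp)
  exact ⟨W, T, h1, NonUnitalSubring.subset_closure (Or.inl ⟨x, h2 (by simp), rfl⟩)⟩

private theorem inN_ed (hG : NoExit G) {R : Type u} [Ring R] [StarRing R] {M : Set V}
    (hM : Her G M) {P : V → R} {S : E → R} {e : E} (he : G.s e ∈ M) :
    InN G M P S (S e) ∧ InN G M P S (star (S e)) := by
  obtain ⟨W, T, h1, h2, h3⟩ := nice_exists hG hM ∅ {e} (by simp) (by simpa using he)
  exact ⟨⟨W, T, h1, NonUnitalSubring.subset_closure (Or.inr (Or.inl ⟨e, h3 (by simp), rfl⟩))⟩,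
    ⟨W, T, h1, NonUnitalSubring.subset_closure (Or.inr (Or.inr ⟨e, h3 (by simp), rfl⟩))⟩⟩

private theorem inN_mono {R : Type u} [Ring R] [StarRing R] {M M' : Set V} (h : M ⊆ M')
    {P : V → R} {S : E → R} {a : R} (ha : InN G M P S a) : InN G M' P S a := by
  obtain ⟨W, T, h1, h2⟩ := ha
  exact ⟨W, T, nice_mono h h1, h2⟩

/-- all elements of a good isomorphism of a corner lie in the rings of nice subgraphs -/
private theorem inN_S (hG : NoExit G) {M : Set V} {M' : Set V'} (hM : Her G M)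
    {Q : NonUnitalSubring (UA ℤ G × UA ℤ F)} (g : Good Φ Q)
    (i : GIso Q (Cor ℤ G M) (Cor ℤ F M')) {P : V → UA ℤ G × UA ℤ F} {S : E → UA ℤ G × UA ℤ F}
    (hp : ∀ x ∈ M, P x ∈ Q ∧ (P x).1 = vx ℤ G x)
    (hs : ∀ e, G.s e ∈ M → S e ∈ Q ∧ (S e).1 = ed ℤ G e) {t : UA ℤ G × UA ℤ F} (ht : t ∈ Q) :
    InN G M P S t := by
  have key : ∀ a ∈ Cor ℤ G M, ∃ b, (a, b) ∈ Q ∧ InN G M P S (a, b) := by
    intro a ha
    refine cor_ind (P := fun a => ∃ b, (a, b) ∈ Q ∧ InN G M P S (a, b)) hM ?_ ?_ ?_ ?_ ?_ ?_ ?_ ha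
    · intro x hx
      refine ⟨(P x).2, ?_, ?_⟩
      · rw [← (hp x hx).2]
        exact (hp x hx).1
      · rw [← (hp x hx).2]
        exact inN_vx hG hM hx
    · intro e he
      refine ⟨(S e).2, ?_, ?_⟩
      · rw [← (hs e he).2]
        exact (hs e he).1
      · rw [← (hs e he).2]
        exact (inN_ed hG hM he).1
    · intro e he
      have h1 : (gh ℤ G e, star (S e).2) = star (S e) := by
        refine Prod.ext ?_ rfl
        show gh ℤ G e = star (S e).1
        rw [(hs e he).2, star_ed]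
      refine ⟨star (S e).2, ?_, ?_⟩
      · rw [h1]
        exact g.st _ _ (hs e he).1
      · rw [h1]
        exact (inN_ed hG hM he).2
    · exact ⟨0, Q.zero_mem, inN_zero⟩
    · rintro a b ⟨c, h1, h2⟩ ⟨d, h3, h4⟩
      exact ⟨c + d, Q.add_mem h1 h3, inN_add h2 h4⟩
    · rintro a b ⟨c, h1, h2⟩ ⟨d, h3, h4⟩
      exact ⟨c * d, Q.mul_mem h1 h3, inN_mul h2 h4⟩
    · rintro k a ⟨c, h1, W, T, h2, h3⟩
      exact ⟨k • c, zsmul_mem h1 k, W, T, h2, zsmul_mem h3 k⟩
  obtain ⟨a, b⟩ := t
  obtain ⟨b', h1, h2⟩ := key a (i.m1 a b ht)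
  have h3 : ((0 : UA ℤ G), b - b') ∈ Q := by
    have h4 := Q.sub_mem ht h1
    rw [Prod.mk_sub_mk, sub_self] at h4
    exact h4
  have h5 : b = b' := sub_eq_zero.1 (i.z2 _ h3)
  rw [h5]
  exact h2

theorem glue_good (hG : NoExit G) (hF : NoExit F)
    (iso : GIso Φ (LP K₁ G : Set (UA K₁ G)) (LP K₂ F : Set (UA K₂ F))) (hH : Her G H)
    (hN : Her G N) (g1 : Good Φ S1) (i1 : GIso S1 (Cor ℤ G H) (Cor ℤ F H')) (g2 : Good Φ S2)
    (i2 : GIso S2 (Cor ℤ G N) (Cor ℤ F M))
    (agree : ∀ a b, (a, b) ∈ S2 → a ∈ Cor ℤ G H → (a, b) ∈ S1)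
    (comp : ∀ a b, (a, b) ∈ S2 → a ∈ Cor ℤ G Hᶜ → b ∈ Cor ℤ F H'ᶜ) :
    Good Φ (NonUnitalSubring.closure ((S1 : Set (UA ℤ G × UA ℤ F)) ∪ S2)) := by
  obtain ⟨P, S, hP⟩ := gluf_exists hG hF iso hH hN g1 i1 g2 i2 agree comp
  have hU : Her G (H ∪ N) := by
    intro e he
    rcases he with he | he
    · exact Or.inl (hH e he)
    · exact Or.inr (hN e he)
  have hgood : ∀ (W : Finset V) (T : Finset E), Nice G (H ∪ N) W T →
      Good Φ (NonUnitalSubring.closure (gset W T P S)) := by
    intro W T hn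
    have hfam := glue_isfam hG hF iso hH hN g1 i1 g2 i2 agree comp hP hn
    obtain ⟨τ, st, hst⟩ := stage_exists hG hfam hn.2.1
    have h1 := glue_stage hG hF iso hH hN g1 i1 g2 i2 agree comp hP hn hst
    rw [(stg_mem hst).2.2] at h1
    exact h1
  have hle : ∀ (W : Finset V) (T : Finset E), Nice G (H ∪ N) W T →
      NonUnitalSubring.closure (gset W T P S) ≤
        NonUnitalSubring.closure ((S1 : Set (UA ℤ G × UA ℤ F)) ∪ S2) := by
    intro W T hn
    rw [NonUnitalSubring.closure_le]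
    rintro a (⟨x, hx, rfl⟩ | ⟨e, he, rfl⟩ | ⟨e, he, rfl⟩)
    · rcases hn.1 x hx with h | h
      · exact NonUnitalSubring.subset_closure (Or.inl (hP.p1 x h).1)
      · exact NonUnitalSubring.subset_closure (Or.inr (hP.p2 x h).1)
    · rcases hn.1 _ (hn.2.2 e he).1 with h | h
      · exact NonUnitalSubring.subset_closure (Or.inl (hP.s1 e h).1)
      · exact NonUnitalSubring.subset_closure (Or.inr (hP.s2 e h).1)
    · rcases hn.1 _ (hn.2.2 e he).1 with h | h
      · exact NonUnitalSubring.subset_closure (Or.inl (g1.st _ _ (hP.s1 e h).1))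
      · exact NonUnitalSubring.subset_closure (Or.inr (g2.st _ _ (hP.s2 e h).1))
  have hin : ∀ t ∈ NonUnitalSubring.closure ((S1 : Set (UA ℤ G × UA ℤ F)) ∪ S2),
      InN G (H ∪ N) P S t := by
    intro t ht
    induction ht using NonUnitalSubring.closure_induction with
    | mem t ht =>
      rcases ht with ht | ht
      · exact inN_mono Set.subset_union_left (inN_S hG hH g1 i1 hP.p1 hP.s1 ht)
      · exact inN_mono Set.subset_union_right (inN_S hG hN g2 i2 hP.p2 hP.s2 ht)
    | zero => exact inN_zero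
    | add a b _ _ ha hb => exact inN_add ha hb
    | neg a _ ha =>
      obtain ⟨W, T, h1, h2⟩ := ha
      exact ⟨W, T, h1, neg_mem h2⟩
    | mul a b _ _ ha hb => exact inN_mul ha hb
  refine ⟨?_, ?_, ?_, ?_, ?_, ?_⟩
  · intro a b hab
    obtain ⟨W, T, h1, h2⟩ := hin _ hab
    exact (hgood W T h1).mL a b h2
  · intro a b hab
    obtain ⟨W, T, h1, h2⟩ := hin _ hab
    exact hle W T h1 ((hgood W T h1).st a b h2)
  · intro a hab
    obtain ⟨W, T, h1, h2⟩ := hin _ hab
    exact (hgood W T h1).z1 a h2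
  · intro b hab
    obtain ⟨W, T, h1, h2⟩ := hin _ hab
    exact (hgood W T h1).z2 b h2
  · intro p q hpq hp
    obtain ⟨W, T, h1, h2⟩ := hin _ hpq
    exact (hgood W T h1).eq p q h2 hp
  · intro p q x y hpq hxy
    obtain ⟨W, T, h1, h2, h3⟩ := inN_two (hin _ hpq) (hin _ hxy)
    exact (hgood W T h1).lg p q x y h2 h3

end Pool.Agent.Work.MP_2b4d3b_al.NE
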