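import Pool.Agent.Work.MP_2b4d3b_al.NE.Defs
import Pool.Agent.Work.MP_2b4d3b_al.NE.GlA
import Pool.Agent.Work.MP_2b4d3b_al.NE.SwL

/-
The glued isomorphism is onto the corners. PROOF. S = closure (S1 ∪ S2) is good (glue_good). m1: the first coordinates: S1, S2 have first
coordinates in Cor H, Cor N, contained in Cor (H ∪ N), closed under the operations (closure_induction). m2 the same. t1: the set of a in
Cor (H ∪ N) such that some b has (a, b) in S is closed under sums, products, integer multiples and contains Cor H and Cor N, so it is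
everything (cor_union / cor_ind for the hereditary set H ∪ N: generators with source in H or N). t2: the same for F (H', M
hereditary). z1, z2 from Good.
corner_union: (a, b) in Φ with a in Cor (H ∪ N): a = e a e with e = eW W, W in H ∪ N; e is a sum of vertices, each in Cor H or Cor N, so the
image e' of e is a sum of elements of Cor H' and Cor M, in Cor (H' ∪ M), and b = e' b e' (uniqueness) is in Cor (H' ∪ M) by Cor_mid.
The converse is symmetric.
-/

set_option linter.unusedVariables false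
set_option linter.style.longLine false
set_option linter.unusedSectionVars false

namespace Pool.Agent.Work.MP_2b4d3b_al.NE

universe u v w u' v' w'

open Finset

variable {K₁ : Type u} [Field K₁] {K₂ : Type u'} [Field K₂] {V : Type v} {E : Type w}
  {V' : Type v'} {E' : Type w'} {G : Gr V E} {F : Gr V' E'}
  {Φ : NonUnitalSubring (UA K₁ G × UA K₂ F)} {N H : Set V} {M H' : Set V'}
  {S1 S2 : NonUnitalSubring (UA ℤ G × UA ℤ F)}

private theorem glb_dir {K₁ : Type u} [Field K₁] {K₂ : Type u'} [Field K₂] {V : Type v}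
    {E : Type w} {V' : Type v'} {E' : Type w'} {G : Gr V E} {F : Gr V' E'}
    {Φ : NonUnitalSubring (UA K₁ G × UA K₂ F)} {N H : Set V} {M H' : Set V'}
    (iso : GIso Φ (LP K₁ G : Set (UA K₁ G)) (LP K₂ F : Set (UA K₂ F)))
    (fH : ∀ a b, (a, b) ∈ Φ → a ∈ Cor K₁ G H → b ∈ Cor K₂ F H')
    (fN : ∀ a b, (a, b) ∈ Φ → a ∈ Cor K₁ G N → b ∈ Cor K₂ F M) (a : UA K₁ G) (b : UA K₂ F)
    (hab : (a, b) ∈ Φ) (ha : a ∈ Cor K₁ G (H ∪ N)) : b ∈ Cor K₂ F (H' ∪ M) := by
  classical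
  obtain ⟨W, hW, hWa⟩ := ha
  have h1 : ∀ W : Finset V, (∀ x ∈ W, x ∈ H ∪ N) →
      ∃ e' ∈ Cor K₂ F (H' ∪ M), (eW K₁ G W, e') ∈ Φ := by
    intro W
    induction W using Finset.induction_on with
    | empty =>
      intro _
      refine ⟨0, Cor_zero, ?_⟩
      have h2 : eW K₁ G (∅ : Finset V) = 0 := Finset.sum_empty
      rw [h2]
      exact zero_mem Φ
    | insert x W hx ih =>
      intro h
      obtain ⟨e', he', h2⟩ := ih fun y hy => h y (Finset.mem_insert_of_mem hy)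
      obtain ⟨c, hc⟩ := iso.t1 (vx K₁ G x) (vx_mem x)
      have h3 : c ∈ Cor K₂ F (H' ∪ M) := by
        rcases h x (Finset.mem_insert_self x W) with h4 | h4
        · exact Cor_mono Set.subset_union_left (fH _ _ hc (vx_mem_Cor h4))
        · exact Cor_mono Set.subset_union_right (fN _ _ hc (vx_mem_Cor h4))
      refine ⟨c + e', Cor_add h3 he', ?_⟩
      have h5 : eW K₁ G (insert x W) = vx K₁ G x + eW K₁ G W := Finset.sum_insert hx
      rw [h5]
      exact Φ.add_mem hc h2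
  obtain ⟨e', he', h2⟩ := h1 W hW
  have h3 : (eW K₁ G W * a * eW K₁ G W, e' * b * e') ∈ Φ := Φ.mul_mem (Φ.mul_mem h2 hab) h2
  rw [hWa] at h3
  have h4 : ((a, b) - (a, e' * b * e') : UA K₁ G × UA K₂ F) ∈ Φ := Φ.sub_mem hab h3
  have h5 : ((a, b) - (a, e' * b * e') : UA K₁ G × UA K₂ F) = (0, b - e' * b * e') := by
    rw [Prod.mk_sub_mk, sub_self]
  rw [h5] at h4
  have h6 := iso.z2 _ h4
  rw [sub_eq_zero] at h6
  rw [h6]
  exact Cor_mid he' b he'

theorem glue (hG : NoExit G) (hF : NoExit F)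
    (iso : GIso Φ (LP K₁ G : Set (UA K₁ G)) (LP K₂ F : Set (UA K₂ F))) (hH : Her G H)
    (hN : Her G N) (hH' : Her F H') (hM : Her F M) (g1 : Good Φ S1)
    (i1 : GIso S1 (Cor ℤ G H) (Cor ℤ F H')) (g2 : Good Φ S2)
    (i2 : GIso S2 (Cor ℤ G N) (Cor ℤ F M))
    (agree : ∀ a b, (a, b) ∈ S2 → a ∈ Cor ℤ G H → (a, b) ∈ S1)
    (comp : ∀ a b, (a, b) ∈ S2 → a ∈ Cor ℤ G Hᶜ → b ∈ Cor ℤ F H'ᶜ) :
    ∃ S : NonUnitalSubring (UA ℤ G × UA ℤ F), Good Φ S ∧
      GIso S (Cor ℤ G (H ∪ N)) (Cor ℤ F (H' ∪ M)) ∧ S1 ≤ S ∧ S2 ≤ S := by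
  have hg := glue_good hG hF iso hH hN g1 i1 g2 i2 agree comp
  have hle1 : S1 ≤ NonUnitalSubring.closure ((S1 : Set (UA ℤ G × UA ℤ F)) ∪ S2) :=
    fun t ht => NonUnitalSubring.subset_closure (Or.inl ht)
  have hle2 : S2 ≤ NonUnitalSubring.closure ((S1 : Set (UA ℤ G × UA ℤ F)) ∪ S2) :=
    fun t ht => NonUnitalSubring.subset_closure (Or.inr ht)
  refine ⟨_, hg, ?_, hle1, hle2⟩
  have hHN : Her G (H ∪ N) := by
    intro e he
    rcases he with he | he
    · exact Or.inl (hH e he)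
    · exact Or.inr (hN e he)
  have hHM : Her F (H' ∪ M) := by
    intro e he
    rcases he with he | he
    · exact Or.inl (hH' e he)
    · exact Or.inr (hM e he)
  let T : NonUnitalSubring (UA ℤ G × UA ℤ F) :=
    { carrier := {t | t.1 ∈ Cor ℤ G (H ∪ N) ∧ t.2 ∈ Cor ℤ F (H' ∪ M)}
      mul_mem' := fun ha hb => ⟨Cor_mul ha.1 hb.1, Cor_mul ha.2 hb.2⟩
      add_mem' := fun ha hb => ⟨Cor_add ha.1 hb.1, Cor_add ha.2 hb.2⟩
      zero_mem' := ⟨Cor_zero, Cor_zero⟩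
      neg_mem' := fun ha => ⟨Cor_neg ha.1, Cor_neg ha.2⟩ }
  have hT : NonUnitalSubring.closure ((S1 : Set (UA ℤ G × UA ℤ F)) ∪ S2) ≤ T := by
    refine NonUnitalSubring.closure_le.mpr ?_
    rintro ⟨a, b⟩ (h | h)
    · exact ⟨Cor_mono Set.subset_union_left (i1.m1 a b h),
        Cor_mono Set.subset_union_left (i1.m2 a b h)⟩
    · exact ⟨Cor_mono Set.subset_union_right (i2.m1 a b h),
        Cor_mono Set.subset_union_right (i2.m2 a b h)⟩
  have ft1 : ∀ a, a ∈ Cor ℤ G H ∨ a ∈ Cor ℤ G N →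
      ∃ b, (a, b) ∈ NonUnitalSubring.closure ((S1 : Set (UA ℤ G × UA ℤ F)) ∪ S2) := by
    rintro a (h | h)
    · obtain ⟨b, hb⟩ := i1.t1 a h
      exact ⟨b, hle1 hb⟩
    · obtain ⟨b, hb⟩ := i2.t1 a h
      exact ⟨b, hle2 hb⟩
  have ft2 : ∀ b, b ∈ Cor ℤ F H' ∨ b ∈ Cor ℤ F M →
      ∃ a, (a, b) ∈ NonUnitalSubring.closure ((S1 : Set (UA ℤ G × UA ℤ F)) ∪ S2) := by
    rintro b (h | h)
    · obtain ⟨a, ha⟩ := i1.t2 b h
      exact ⟨a, hle1 ha⟩
    · obtain ⟨a, ha⟩ := i2.t2 b h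
      exact ⟨a, hle2 ha⟩
  refine ⟨fun a b h => (hT h).1, fun a b h => (hT h).2, ?_, ?_, hg.z1, hg.z2⟩
  · intro a ha
    refine cor_ind (P := fun a => ∃ b,
      (a, b) ∈ NonUnitalSubring.closure ((S1 : Set (UA ℤ G × UA ℤ F)) ∪ S2)) hHN
      ?_ ?_ ?_ ?_ ?_ ?_ ?_ ha
    · intro x hx
      refine ft1 _ ?_
      rcases hx with hx | hx
      · exact Or.inl (vx_mem_Cor hx)
      · exact Or.inr (vx_mem_Cor hx)
    · intro e he
      refine ft1 _ ?_
      rcases he with he | he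
      · exact Or.inl (ed_mem_Cor hH he).1
      · exact Or.inr (ed_mem_Cor hN he).1
    · intro e he
      refine ft1 _ ?_
      rcases he with he | he
      · exact Or.inl (ed_mem_Cor hH he).2
      · exact Or.inr (ed_mem_Cor hN he).2
    · exact ⟨0, zero_mem _⟩
    · rintro a b ⟨c, hc⟩ ⟨d, hd⟩
      exact ⟨c + d, add_mem hc hd⟩
    · rintro a b ⟨c, hc⟩ ⟨d, hd⟩
      exact ⟨c * d, mul_mem hc hd⟩
    · rintro k a ⟨c, hc⟩
      exact ⟨k • c, zsmul_mem hc k⟩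
  · intro a ha
    refine cor_ind (P := fun b => ∃ a,
      (a, b) ∈ NonUnitalSubring.closure ((S1 : Set (UA ℤ G × UA ℤ F)) ∪ S2)) hHM
      ?_ ?_ ?_ ?_ ?_ ?_ ?_ ha
    · intro x hx
      refine ft2 _ ?_
      rcases hx with hx | hx
      · exact Or.inl (vx_mem_Cor hx)
      · exact Or.inr (vx_mem_Cor hx)
    · intro e he
      refine ft2 _ ?_
      rcases he with he | he
      · exact Or.inl (ed_mem_Cor hH' he).1
      · exact Or.inr (ed_mem_Cor hM he).1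
    · intro e he
      refine ft2 _ ?_
      rcases he with he | he
      · exact Or.inl (ed_mem_Cor hH' he).2
      · exact Or.inr (ed_mem_Cor hM he).2
    · exact ⟨0, zero_mem _⟩
    · rintro a b ⟨c, hc⟩ ⟨d, hd⟩
      exact ⟨c + d, add_mem hc hd⟩
    · rintro a b ⟨c, hc⟩ ⟨d, hd⟩
      exact ⟨c * d, mul_mem hc hd⟩
    · rintro k a ⟨c, hc⟩
      exact ⟨k • c, zsmul_mem hc k⟩

theorem corner_union (iso : GIso Φ (LP K₁ G : Set (UA K₁ G)) (LP K₂ F : Set (UA K₂ F)))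
    (fH : ∀ a b, (a, b) ∈ Φ → (a ∈ Cor K₁ G H ↔ b ∈ Cor K₂ F H'))
    (fN : ∀ a b, (a, b) ∈ Φ → (a ∈ Cor K₁ G N ↔ b ∈ Cor K₂ F M)) (a : UA K₁ G) (b : UA K₂ F)
    (hab : (a, b) ∈ Φ) : a ∈ Cor K₁ G (H ∪ N) ↔ b ∈ Cor K₂ F (H' ∪ M) := by
  constructor
  · exact glb_dir iso (fun a b h => (fH a b h).mp) (fun a b h => (fN a b h).mp) a b hab
  · have iso' : GIso (sw Φ) (LP K₂ F : Set (UA K₂ F)) (LP K₁ G : Set (UA K₁ G)) :=
      ⟨fun a b h => iso.m2 b a h, fun a b h => iso.m1 b a h, fun a ha => iso.t2 a ha,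
        fun b hb => iso.t1 b hb, fun a h => iso.z2 a h, fun b h => iso.z1 b h⟩
    exact glb_dir iso' (fun a b h => (fH b a h).mpr) (fun a b h => (fN b a h).mpr) b a hab

end Pool.Agent.Work.MP_2b4d3b_al.NE
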