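import Pool.Agent.Work.MP_2b4d3b_al.NE.Defs
import Pool.Agent.Work.MP_2b4d3b_al.NE.Loc
import Pool.Agent.Work.MP_2b4d3b_al.NE.RankS
import Pool.Agent.Work.MP_2b4d3b_al.NE.RepC
import Pool.Agent.Work.MP_2b4d3b_al.NE.MvB
import Pool.Agent.Work.MP_2b4d3b_al.NE.LiftL

/-
No exits is a property of the ring. PROOF. Suppose F has an edge e on a cycle (r e reaches s e) and g with s g = s e, g <> e. Let
x = s e and l = e :: l' a closed path at x; A = wd (ed) l * vx x (in vx x LP vx x), B = vx x * wd (gh) l.reverse in UA K2 F: B * A = vx x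
(gh_ed). A * B <> vx x: gh g * A = 0 since gh g * ed e = 0, so gh g = gh g * vx x = gh g * A * B = 0 would give vx (r g) = gh g * ed g = 0,
contradicting vx_torsion (RepC, a = 1). Transport by Φ: preimages a, b, e0 of A, B, vx x in LP K1 G (t2; the relations B A = E, E E = E,
E A = A = A E etc. hold by z1 for the preimages), a * b <> e0. But a, b, e0 lie in σ.snd.spn K1 of a stage (Loc.loc, N = univ) which is
independent, so a * b = e0 by fin_sys: contradiction.
-/

set_option linter.unusedVariables false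
set_option linter.style.longLine false
set_option linter.unusedSectionVars false

namespace Pool.Agent.Work.MP_2b4d3b_al.NE

universe u v w u' v' w'

open Finset

private theorem noext_pth {K : Type u} [CommRing K] {V : Type v} {E : Type w} {G : Gr V E}
    {y : V} : ∀ (l : List E) (x : V), Pth G x l y → ∃ a b : UA K G, a ∈ LP K G ∧ b ∈ LP K G ∧
      vx K G x * a = a ∧ a * vx K G y = a ∧ vx K G y * b = b ∧ b * vx K G x = b ∧
      b * a = vx K G y := by
  intro l
  induction l with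
  | nil =>
    intro x hx
    obtain rfl : x = y := hx
    exact ⟨vx K G x, vx K G x, vx_mem x, vx_mem x, vx_vx x, vx_vx x, vx_vx x, vx_vx x, vx_vx x⟩
  | cons e l ih =>
    intro x hx
    obtain ⟨h1, h2⟩ := hx
    subst h1
    obtain ⟨a, b, ha, hb, h3, h4, h5, h6, h7⟩ := ih (G.r e) h2
    refine ⟨ed K G e * a, b * gh K G e, mul_mem (ed_mem e) ha, mul_mem hb (gh_mem e), ?_, ?_, ?_,
      ?_, ?_⟩
    · rw [← mul_assoc, s_ed]
    · rw [mul_assoc, h4]
    · rw [← mul_assoc, h5]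
    · rw [mul_assoc, gh_s]
    · rw [mul_assoc, ← mul_assoc (gh K G e), gh_ed, h3, h7]

theorem noexit_transfer {K₁ : Type u} [Field K₁] {K₂ : Type u'} [Field K₂] {V : Type v}
    {E : Type w} {V' : Type v'} {E' : Type w'} {G : Gr V E} {F : Gr V' E'}
    {Φ : NonUnitalSubring (UA K₁ G × UA K₂ F)}
    (iso : GIso Φ (LP K₁ G : Set (UA K₁ G)) (LP K₂ F : Set (UA K₂ F))) (hG : NoExit G) :
    NoExit F := by
  classical
  intro e g hge hr
  by_contra hne
  obtain ⟨l, hl⟩ := rch_iff.1 hr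
  obtain ⟨A', B', hA', hB', h3, h4, h5, h6, h7⟩ := noext_pth (K := K₂) l (F.r e) hl
  -- the two elements of the algebra of `F`
  obtain ⟨A, hAd⟩ : ∃ A, A = ed K₂ F e * A' := ⟨_, rfl⟩
  obtain ⟨B, hBd⟩ : ∃ B, B = B' * gh K₂ F e := ⟨_, rfl⟩
  obtain ⟨X, hX⟩ : ∃ X, X = vx K₂ F (F.s e) := ⟨_, rfl⟩
  have mA : A ∈ LP K₂ F := hAd ▸ mul_mem (ed_mem e) hA'
  have mB : B ∈ LP K₂ F := hBd ▸ mul_mem hB' (gh_mem e)
  have mX : X ∈ LP K₂ F := hX ▸ vx_mem _
  have XA : X * A = A := by rw [hX, hAd, ← mul_assoc, s_ed]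
  have AX : A * X = A := by rw [hX, hAd, mul_assoc, h4]
  have XB : X * B = B := by rw [hX, hBd, ← mul_assoc, h5]
  have BX : B * X = B := by rw [hX, hBd, mul_assoc, gh_s]
  have BA : B * A = X := by
    rw [hX, hAd, hBd, mul_assoc, ← mul_assoc (gh K₂ F e), gh_ed, h3, h7]
  have XX : X * X = X := by rw [hX, vx_vx]
  have AB : A * B ≠ X := by
    intro h
    have hg0 : gh K₂ F g * A = 0 := by
      rw [hAd, ← mul_assoc, gh_ed_ne hne, zero_mul]
    have hg1 : gh K₂ F g = 0 := by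
      have h8 : gh K₂ F g * X = gh K₂ F g := by rw [hX, ← hge, gh_s]
      rw [← h8, ← h, ← mul_assoc, hg0, zero_mul]
    have hg2 : (1 : K₂) • vx K₂ F (F.r g) = 0 := by
      rw [one_smul, ← gh_ed, hg1, zero_mul]
    exact one_ne_zero (vx_torsion (F.r g) (1 : K₂) hg2)
  -- preimages
  obtain ⟨a, ha⟩ := iso.t2 A mA
  obtain ⟨b, hb⟩ := iso.t2 B mB
  obtain ⟨x, hx⟩ := iso.t2 X mX
  have huniq : ∀ c d : UA K₁ G, ∀ C : UA K₂ F, (c, C) ∈ Φ → (d, C) ∈ Φ → c = d := by
    intro c d C hc hd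
    have h8 : (c - d, (0 : UA K₂ F)) ∈ Φ := by
      have h9 := sub_mem hc hd
      rwa [Prod.mk_sub_mk, sub_self] at h9
    exact sub_eq_zero.1 (iso.z1 _ h8)
  have huniq2 : ∀ (c : UA K₁ G) (C D : UA K₂ F), (c, C) ∈ Φ → (c, D) ∈ Φ → C = D := by
    intro c C D hc hd
    have h8 : ((0 : UA K₁ G), C - D) ∈ Φ := by
      have h9 := sub_mem hc hd
      rwa [Prod.mk_sub_mk, sub_self] at h9
    exact sub_eq_zero.1 (iso.z2 _ h8)
  have hmul : ∀ (c d : UA K₁ G) (C D : UA K₂ F), (c, C) ∈ Φ → (d, D) ∈ Φ →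
      (c * d, C * D) ∈ Φ := by
    intro c d C D hc hd
    exact mul_mem hc hd
  have xa : x * a = a := huniq _ _ A (by have := hmul x a X A hx ha; rwa [XA] at this) ha
  have ax : a * x = a := huniq _ _ A (by have := hmul a x A X ha hx; rwa [AX] at this) ha
  have xb : x * b = b := huniq _ _ B (by have := hmul x b X B hx hb; rwa [XB] at this) hb
  have bx : b * x = b := huniq _ _ B (by have := hmul b x B X hb hx; rwa [BX] at this) hb
  have ba : b * a = x := huniq _ _ X (by have := hmul b a B A hb ha; rwa [BA] at this) hx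
  have xx : x * x = x := huniq _ _ X (by have := hmul x x X X hx hx; rwa [XX] at this) hx
  have hcor : ∀ c ∈ (LP K₁ G : Set (UA K₁ G)), c ∈ Cor K₁ G Set.univ := by
    intro c hc
    rw [← LP_eq_Cor]
    exact hc
  letI : StarRing K₁ := starRingOfComm
  obtain ⟨W, T, σ, st, -, -, hB, -, hspn⟩ := loc K₁ hG (N := Set.univ) (fun _ _ => Set.mem_univ _) ∅
    (fun y hy => Set.mem_univ y) ∅ (fun y hy => absurd hy (Finset.notMem_empty y)) {a, b, x}
    (by
      intro c hc
      simp only [Finset.mem_insert, Finset.mem_singleton] at hc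
      rcases hc with rfl | rfl | rfl
      · exact hcor _ (iso.m1 _ _ ha)
      · exact hcor _ (iso.m1 _ _ hb)
      · exact hcor _ (iso.m1 _ _ hx))
  have hab : a * b = x := fin_sys σ.snd hB.indK (hspn a (by simp)) (hspn b (by simp))
    (hspn x (by simp)) ba xx xa ax xb bx
  refine AB (huniq2 x _ _ ?_ hx)
  have h9 := hmul a b A B ha hb
  rwa [hab] at h9

end Pool.Agent.Work.MP_2b4d3b_al.NE
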