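import Pool.Agent.Work.MP_2b4d3b_al.NE.Defs
import Pool.Agent.Work.MP_2b4d3b_al.NE.HerC
import Pool.Agent.Work.MP_2b4d3b_al.NE.Close
import Pool.Agent.Work.MP_2b4d3b_al.NE.RepC
import Pool.Agent.Work.MP_2b4d3b_al.NE.MvB

/-
Row countability is a property of the ring. PROOF. Let x in V' and the edges g with s g = x. The elements ed g * gh g are pairwise
orthogonal nonzero idempotents (nonzero: gh g (ed g gh g) ed g = vx (r g) is not 0, vx_torsion). Let f_g be their preimages in LP K1 G under Φ
(t2), e the preimage of vx x: pairwise orthogonal nonzero idempotents with e f_g e = f_g. A finite W with eW W e = e = e eW W, and the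
countable hereditary closure N of W (her_closure). So all f_g are in Cor K1 G N = adjoin K1 (gensOf N) (cor_eq_adjoin), which is the
K1-span of the countable set of nonempty words in the countable set gensOf K1 G N (N countable, rG). Nonzero orthogonal
idempotents are K1-linearly independent (multiply a relation by f_j; K1 is a field), and g -> f_g is injective. A linearly independent family in
the span of a countable set is countable (LinearIndependent.cardinal_le_rank or LinearIndependent with rank_span_le, Cardinal.mk_le_aleph0).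
-/

set_option autoImplicit false
set_option linter.unusedVariables false
set_option linter.style.longLine false
set_option linter.unusedSectionVars false

namespace Pool.Agent.Work.MP_2b4d3b_al.NE

universe u v w u' v' w'

open Finset

private theorem row_gens {K : Type u} [CommRing K] {V : Type v} {E : Type w} {G : Gr V E}
    (rG : RowCountable G) {N : Set V} (hN : N.Countable) : (gensOf K G N).Countable := by
  have h1 : {e | G.s e ∈ N}.Countable := by
    have h2 : {e | G.s e ∈ N} = ⋃ x ∈ N, {e | G.s e = x} := by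
      ext e
      simp
    rw [h2]
    exact hN.biUnion fun x _ => rG x
  have h3 : gensOf K G N ⊆ (vx K G '' N) ∪ ((ed K G '' {e | G.s e ∈ N}) ∪
      (gh K G '' {e | G.s e ∈ N})) := by
    rintro a (⟨x, hx, rfl⟩ | ⟨e, he, rfl | rfl⟩)
    · exact Or.inl ⟨x, hx, rfl⟩
    · exact Or.inr (Or.inl ⟨e, he, rfl⟩)
    · exact Or.inr (Or.inr ⟨e, he, rfl⟩)
  exact ((hN.image _).union ((h1.image _).union (h1.image _))).mono h3

private theorem row_span {K : Type u} [CommRing K] {V : Type v} {E : Type w} {G : Gr V E}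
    (rG : RowCountable G) {N : Set V} (hN : N.Countable) (hH : Her G N) :
    ∃ C : Set (UA K G), C.Countable ∧ ∀ a ∈ Cor K G N, a ∈ Submodule.span K C := by
  have hc : Countable ↥(gensOf K G N) := (row_gens rG hN).to_subtype
  obtain ⟨C, hC⟩ : ∃ C : Set (UA K G), C = Set.range fun l : List ↥(gensOf K G N) =>
    (l.map Subtype.val).prod := ⟨_, rfl⟩
  have hCc : C.Countable := by
    rw [hC]
    exact Set.countable_range _
  have hgen : ∀ a ∈ gensOf K G N, a ∈ Submodule.span K C := by
    intro a ha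
    refine Submodule.subset_span ?_
    rw [hC]
    exact ⟨[⟨a, ha⟩], by simp⟩
  refine ⟨C, hCc, fun a ha => ?_⟩
  refine cor_ind (P := fun a => a ∈ Submodule.span K C) hH ?_ ?_ ?_ ?_ ?_ ?_ ?_ ha
  · exact fun x hx => hgen _ (Or.inl ⟨x, hx, rfl⟩)
  · exact fun e he => hgen _ (Or.inr ⟨e, he, Or.inl rfl⟩)
  · exact fun e he => hgen _ (Or.inr ⟨e, he, Or.inr rfl⟩)
  · exact Submodule.zero_mem _
  · exact fun a b h1 h2 => Submodule.add_mem _ h1 h2
  · intro a b h1 h2
    have h3 := Submodule.mul_mem_mul h1 h2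
    rw [Submodule.span_mul_span] at h3
    refine Submodule.span_mono ?_ h3
    rintro _ ⟨c, hc, d, hd, rfl⟩
    rw [hC] at hc hd ⊢
    obtain ⟨l, rfl⟩ := hc
    obtain ⟨l', rfl⟩ := hd
    exact ⟨l ++ l', by simp⟩
  · exact fun k a h1 => Submodule.smul_mem _ k h1

theorem row_transfer {K₁ : Type u} [Field K₁] {K₂ : Type u'} [Field K₂] {V : Type v} {E : Type w}
    {V' : Type v'} {E' : Type w'} {G : Gr V E} {F : Gr V' E'}
    {Φ : NonUnitalSubring (UA K₁ G × UA K₂ F)}
    (iso : GIso Φ (LP K₁ G : Set (UA K₁ G)) (LP K₂ F : Set (UA K₂ F))) (rG : RowCountable G) :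
    RowCountable F := by
  intro x
  have hq : ∀ g : E', ∃ a, (a, ed K₂ F g * gh K₂ F g) ∈ Φ := fun g =>
    iso.t2 _ (mul_mem_LP_left _ (gh_mem g))
  choose f hf using hq
  obtain ⟨e, he⟩ := iso.t2 _ (vx_mem (K := K₂) (G := F) x)
  have heL : e ∈ LP K₁ G := iso.m1 _ _ he
  have heC : e ∈ Cor K₁ G Set.univ := by
    rw [← LP_eq_Cor]
    exact heL
  obtain ⟨W, -, hW⟩ := Cor_fin ({e} : Finset (UA K₁ G)) (N := Set.univ) (by
    intro a ha
    rw [mem_singleton] at ha
    rw [ha]
    exact heC)
  obtain ⟨hW1, hW2⟩ := hW e (mem_singleton_self e)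
  obtain ⟨N, hWN, hNc, hNH⟩ := her_closure rG (A := (↑W : Set V)) W.countable_toSet
  obtain ⟨C, hCc, hC⟩ := row_span (K := K₁) rG hNc hNH
  -- equality of first coordinates
  have hz : ∀ a a' b, (a, b) ∈ Φ → (a', b) ∈ Φ → a = a' := by
    intro a a' b h1 h2
    have h3 := Φ.sub_mem h1 h2
    rw [Prod.mk_sub_mk, sub_self] at h3
    exact sub_eq_zero.1 (iso.z1 _ h3)
  have hfe : ∀ g, F.s g = x → e * f g * e = f g := by
    intro g hg
    refine hz _ _ (ed K₂ F g * gh K₂ F g) ?_ (hf g)
    have h3 := Φ.mul_mem (Φ.mul_mem he (hf g)) he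
    rw [Prod.mk_mul_mk, Prod.mk_mul_mk] at h3
    have h4 : vx K₂ F x * (ed K₂ F g * gh K₂ F g) * vx K₂ F x = ed K₂ F g * gh K₂ F g := by
      rw [← hg, ← mul_assoc, s_ed, mul_assoc, gh_s]
    rw [h4] at h3
    exact h3
  have hff : ∀ g, f g * f g = f g := by
    intro g
    refine hz _ _ (ed K₂ F g * gh K₂ F g) ?_ (hf g)
    have h3 := Φ.mul_mem (hf g) (hf g)
    rw [Prod.mk_mul_mk] at h3
    have h4 : ed K₂ F g * gh K₂ F g * (ed K₂ F g * gh K₂ F g) = ed K₂ F g * gh K₂ F g := by
      rw [mul_assoc, ← mul_assoc (gh K₂ F g), gh_ed, r_gh]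
    rw [h4] at h3
    exact h3
  have hfo : ∀ g g', g ≠ g' → f g * f g' = 0 := by
    intro g g' hne
    have h3 := Φ.mul_mem (hf g) (hf g')
    rw [Prod.mk_mul_mk] at h3
    have h4 : ed K₂ F g * gh K₂ F g * (ed K₂ F g' * gh K₂ F g') = 0 := by
      rw [mul_assoc, ← mul_assoc (gh K₂ F g), gh_ed_ne hne, zero_mul, mul_zero]
    rw [h4] at h3
    exact iso.z1 _ h3
  have hf0 : ∀ g, f g ≠ 0 := by
    intro g h0
    have h3 := hf g
    rw [h0] at h3
    have h4 := iso.z2 _ h3
    have h5 : vx K₂ F (F.r g) = 0 := by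
      have h6 : gh K₂ F g * (ed K₂ F g * gh K₂ F g) * ed K₂ F g = vx K₂ F (F.r g) := by
        rw [← mul_assoc, gh_ed, mul_assoc, gh_ed, vx_vx]
      rw [← h6, h4, mul_zero, zero_mul]
    exact one_ne_zero (vx_torsion (K := K₂) (G := F) (F.r g) 1 (by rw [h5, smul_zero]))
  have hfC : ∀ g, F.s g = x → f g ∈ Cor K₁ G N := by
    intro g hg
    refine ⟨W, fun y hy => hWN hy, ?_⟩
    rw [← hfe g hg]
    calc eW K₁ G W * (e * f g * e) * eW K₁ G W
        = (eW K₁ G W * e) * f g * (e * eW K₁ G W) := by noncomm_ring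
      _ = e * f g * e := by rw [hW1, hW2]
  -- the family in the span of `C`
  obtain ⟨v, hv⟩ : ∃ v : {g // F.s g = x} → Submodule.span K₁ C, ∀ g, (v g : UA K₁ G) = f g.1 :=
    ⟨fun g => ⟨f g.1, hC _ (hfC g.1 g.2)⟩, fun _ => rfl⟩
  have hli : LinearIndependent K₁ v := by
    rw [linearIndependent_iff'ₛ]
    intro s c d hs i hi
    have h1 : ∑ j ∈ s, c j • f j.1 = ∑ j ∈ s, d j • f j.1 := by
      have h2 := congrArg (Submodule.subtype (Submodule.span K₁ C)) hs
      rw [map_sum, map_sum] at h2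
      refine Eq.trans (sum_congr rfl fun j _ => ?_) (h2.trans (sum_congr rfl fun j _ => ?_))
      · rw [map_smul, Submodule.subtype_apply, hv]
      · rw [map_smul, Submodule.subtype_apply, hv]
    have h5 : ∀ c : {g // F.s g = x} → K₁, (∑ j ∈ s, c j • f j.1) * f i.1 = c i • f i.1 := by
      intro c
      rw [sum_mul, sum_eq_single i]
      · rw [smul_mul_assoc, hff]
      · intro j _ hji
        rw [smul_mul_assoc, hfo j.1 i.1 (fun h => hji (Subtype.ext h)), smul_zero]
      · intro h
        exact absurd hi h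
    have h3 : (c i - d i) • f i.1 = 0 := by
      have h6 : (c i - d i) • f i.1 + d i • f i.1 = c i • f i.1 := by
        rw [← add_smul, sub_add_cancel]
      have h7 : c i • f i.1 = d i • f i.1 := by
        rw [← h5 c, ← h5 d, h1]
      rw [h7] at h6
      exact add_eq_right.1 h6
    exact sub_eq_zero.1 ((smul_eq_zero.1 h3).resolve_right (hf0 i.1))
  have h1 := hli.cardinal_lift_le_rank
  have h2 : Module.rank K₁ (Submodule.span K₁ C) ≤ Cardinal.aleph0 :=
    (rank_span_le C).trans (Cardinal.le_aleph0_iff_set_countable.2 hCc)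
  have h3 : Cardinal.mk {g // F.s g = x} ≤ Cardinal.aleph0 := by
    have h4 := h1.trans (Cardinal.lift_le.2 h2)
    rw [Cardinal.lift_aleph0, Cardinal.lift_le_aleph0] at h4
    exact h4
  exact Cardinal.le_aleph0_iff_set_countable.1 h3

end Pool.Agent.Work.MP_2b4d3b_al.NE
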