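import Pool.Agent.Work.MP_2b4d3b_al.NE.Defs
import Pool.Agent.Work.MP_2b4d3b_al.NE.Ext
import Pool.Agent.Work.MP_2b4d3b_al.NE.SwL
import Pool.Agent.Work.MP_2b4d3b_al.NE.LauB

/-
One round of the back and forth, and the start. PROOF. seq_start: the stage with W = empty, T = empty, index type Empty: A = {0} = rng; S = ⊥ = {(0, 0)}:
Good: eqf_zero_zero for the projection 0 (first coordinate 0), LauGen G 0 x false by lg_ne on both sides (the pair (p, q) = (0, 0)), Cpt trivial
(0 in every corner; (0, 0) in S0).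
seq_step: ext_right with b0 gives B, S' with range B; then ext_right for the exchanged situation (rel4_sw h; sw Φ; domain of sw S' is B, good_sw,
cpt_sw, range in Cor N) with a0 gives A', S'' and sw S'' is the result (sw_sw; good_sw for sw Φ and giso_sw; Cpt back by cpt_sw).
-/

set_option linter.unusedVariables false
set_option linter.style.longLine false
set_option linter.unusedSectionVars false

namespace Pool.Agent.Work.MP_2b4d3b_al.NE

universe u v w u' v' w'

open Finset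

variable {K₁ : Type u} [Field K₁] {K₂ : Type u'} [Field K₂] {V : Type v} {E : Type w}
  {V' : Type v'} {E' : Type w'} {G : Gr V E} {F : Gr V' E'}
  {Φ : NonUnitalSubring (UA K₁ G × UA K₂ F)} {N H : Set V} {M H' : Set V'}
  {S0 : NonUnitalSubring (UA ℤ G × UA ℤ F)}

private theorem zero_cor (K : Type u) [CommRing K] {V : Type v} {E : Type w} (G : Gr V E)
    (N : Set V) : (0 : UA K G) ∈ Cor K G N :=
  ⟨∅, fun x hx => absurd hx (Finset.notMem_empty x), by simp⟩

private noncomputable def emptySys {V : Type v} {E : Type w} (G : Gr V E) : Sys (UA ℤ G) where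
  I := Empty
  fI := inferInstance
  dI := inferInstance
  b i := i.elim
  lau i := i.elim
  c i := i.elim
  x i := i.elim
  bb i := i.elim
  cc i := i.elim
  co i := i.elim
  cb i := i.elim
  cx i := i.elim
  xs i := i.elim
  sx i := i.elim
  xl i := i.elim

private theorem emptySys_rng {V : Type v} {E : Type w} (G : Gr V E) {a : UA ℤ G}
    (ha : a ∈ (emptySys G).rng) : a = 0 := by
  have h : (emptySys G).rng ≤ ⊥ := by
    refine NonUnitalSubring.closure_le.2 ?_
    rintro x ⟨i, _⟩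
    exact (i : Empty).elim
  exact NonUnitalSubring.mem_bot.1 (h ha)

private theorem empty_gtp {V : Type v} {E : Type w} (G : Gr V E) (N : Set V) :
    GTp G N ((emptySys G).rng : Set (UA ℤ G)) := by
  classical
  refine ⟨∅, ∅, emptySys G, fun i => (i : Empty).elim, ⟨?_, ?_, ?_⟩, ?_, ?_, rfl⟩
  · intro x hx; exact absurd hx (Finset.notMem_empty x)
  · intro e he; exact absurd he (Finset.notMem_empty _)
  · intro e he; exact absurd he (Finset.notMem_empty _)
  · exact
      { stW := fun i => (i : Empty).elim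
        sum := fun x hx => absurd hx (Finset.notMem_empty x)
        rch := fun i => (i : Empty).elim
        lauB := fun i => (i : Empty).elim
        opB := fun i => (i : Empty).elim
        opU := fun i => (i : Empty).elim
        opE := fun x hx => absurd hx (Finset.notMem_empty x)
        cyc := fun x hx => absurd hx (Finset.notMem_empty x)
        edge := fun x hx => absurd hx (Finset.notMem_empty x)
        gen := fun i => (i : Empty).elim }
  · intro f _
    ext t
    exact (t.1.1 : Empty).elim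

/-- a state of the back and forth -/
def SeqSt (Φ : NonUnitalSubring (UA K₁ G × UA K₂ F)) (N H : Set V) (M H' : Set V')
    (S0 : NonUnitalSubring (UA ℤ G × UA ℤ F)) (S : NonUnitalSubring (UA ℤ G × UA ℤ F)) : Prop :=
  Good Φ S ∧ Cpt H H' S0 S ∧ ∃ A : Set (UA ℤ G), GTp G N A ∧
    (∀ a b, (a, b) ∈ S → a ∈ A ∧ a ∈ Cor ℤ G N ∧ b ∈ Cor ℤ F M) ∧ ∀ a ∈ A, ∃ b, (a, b) ∈ S

theorem seq_start (h : Rel4 Φ N H M H' S0) :
    ∃ S : NonUnitalSubring (UA ℤ G × UA ℤ F), SeqSt Φ N H M H' S0 S := by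
  refine ⟨⊥, ?_, ?_, ((emptySys G).rng : Set (UA ℤ G)), empty_gtp G N, ?_, ?_⟩
  · refine ⟨?_, ?_, ?_, ?_, ?_, ?_⟩
    · intro a b hab
      have hab' : (a, b) = (0 : UA ℤ G × UA ℤ F) := NonUnitalSubring.mem_bot.1 hab
      obtain ⟨rfl, rfl⟩ := Prod.mk.inj hab'
      exact ⟨zero_mem _, zero_mem _⟩
    · intro a b hab
      have hab' : (a, b) = (0 : UA ℤ G × UA ℤ F) := NonUnitalSubring.mem_bot.1 hab
      obtain ⟨rfl, rfl⟩ := Prod.mk.inj hab'
      rw [star_zero, star_zero]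
      exact hab
    · intro a hab
      have hab' : (a, (0 : UA ℤ F)) = (0 : UA ℤ G × UA ℤ F) := NonUnitalSubring.mem_bot.1 hab
      exact (Prod.mk.inj hab').1
    · intro b hab
      have hab' : ((0 : UA ℤ G), b) = (0 : UA ℤ G × UA ℤ F) := NonUnitalSubring.mem_bot.1 hab
      exact (Prod.mk.inj hab').2
    · intro p q hab _
      have hab' : (p, q) = (0 : UA ℤ G × UA ℤ F) := NonUnitalSubring.mem_bot.1 hab
      obtain ⟨rfl, rfl⟩ := Prod.mk.inj hab'
      refine ⟨0, ?_, 0, zero_mem _, 0, zero_mem _, ?_⟩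
      · rw [map_zero]
        exact Φ.zero_mem
      · simp
    · intro p q x y hab _
      have hab' : (p, q) = (0 : UA ℤ G × UA ℤ F) := NonUnitalSubring.mem_bot.1 hab
      obtain ⟨rfl, rfl⟩ := Prod.mk.inj hab'
      exact ⟨fun hl => absurd rfl (lg_ne hl), fun hl => absurd rfl (lg_ne hl)⟩
  · refine ⟨?_, ?_, ?_⟩
    · intro a b hab _
      have hab' : (a, b) = (0 : UA ℤ G × UA ℤ F) := NonUnitalSubring.mem_bot.1 hab
      rw [hab']
      exact S0.zero_mem
    · intro a b hab _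
      have hab' : (a, b) = (0 : UA ℤ G × UA ℤ F) := NonUnitalSubring.mem_bot.1 hab
      rw [hab']
      exact S0.zero_mem
    · intro a b hab
      have hab' : (a, b) = (0 : UA ℤ G × UA ℤ F) := NonUnitalSubring.mem_bot.1 hab
      obtain ⟨rfl, rfl⟩ := Prod.mk.inj hab'
      exact ⟨fun _ => zero_cor _ _ _, fun _ => zero_cor _ _ _⟩
  · intro a b hab
    have hab' : (a, b) = (0 : UA ℤ G × UA ℤ F) := NonUnitalSubring.mem_bot.1 hab
    obtain ⟨rfl, rfl⟩ := Prod.mk.inj hab'
    exact ⟨NonUnitalSubring.zero_mem _, zero_cor _ _ _, zero_cor _ _ _⟩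
  · intro a ha
    have h0 := emptySys_rng G ha
    subst h0
    exact ⟨0, NonUnitalSubring.zero_mem _⟩

theorem seq_step (h : Rel4 Φ N H M H' S0) {S : NonUnitalSubring (UA ℤ G × UA ℤ F)}
    (hS : SeqSt Φ N H M H' S0 S) {a0 : UA ℤ G} (ha : a0 ∈ Cor ℤ G N) {b0 : UA ℤ F}
    (hb : b0 ∈ Cor ℤ F M) :
    ∃ S' : NonUnitalSubring (UA ℤ G × UA ℤ F), SeqSt Φ N H M H' S0 S' ∧ S ≤ S' ∧
      (∃ b, (a0, b) ∈ S') ∧ ∃ a, (a, b0) ∈ S' := by
  obtain ⟨hG, hC, A, hA, h1, h2⟩ := hS
  obtain ⟨B, S1, hB, hb0, hG1, hC1, hr1, hs1, hle1⟩ :=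
    ext_right h hA hG hC (fun a b hab => (h1 a b hab).1) h2 (fun a b hab => (h1 a b hab).2.2) b0 hb
  obtain ⟨A', S2, hA', ha0, hG2, hC2, hr2, hs2, hle2⟩ :=
    ext_right (rel4_sw h) hB (good_sw h.iso hG1) (cpt_sw hC1)
      (fun a b hab => (hr1 b a hab).2.1) hs1 (fun a b hab => (hr1 b a hab).1) a0 ha
  have hG3 : Good Φ (sw S2) := by
    have h3 := good_sw (rel4_sw h).iso hG2
    rwa [sw_sw] at h3
  have hC3 : Cpt H H' S0 (sw S2) := by
    have h3 := cpt_sw hC2
    rwa [sw_sw] at h3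
  refine ⟨sw S2, ⟨hG3, hC3, A', hA', ?_, ?_⟩, ?_, ?_, ?_⟩
  · intro a b hab
    obtain ⟨h3, h4, h5⟩ := hr2 b a hab
    exact ⟨h4, h5, h3⟩
  · intro a ha'
    obtain ⟨b, hb'⟩ := hs2 a ha'
    exact ⟨b, hb'⟩
  · rintro ⟨a, b⟩ hab
    exact hle2 b a (hle1 a b hab)
  · obtain ⟨b, hb'⟩ := hs2 a0 ha0
    exact ⟨b, hb'⟩
  · obtain ⟨a, ha'⟩ := hs1 b0 hb0
    exact ⟨a, hle2 b0 a ha'⟩

end Pool.Agent.Work.MP_2b4d3b_al.NE
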