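import Pool.Agent.Work.MP_2b4d3b_al.NE.Defs
import Pool.Agent.Work.MP_2b4d3b_al.NE.SeqA

/-
The countable case by back and forth. PROOF. Enumerate Cor Z G N by a : N -> _, Cor Z F M by b (countable, contain 0:
Set.Countable.exists_eq_range). Starting with seq_start iterate seq_step with a n, b n (Nat.rec on the subtype of states): an increasing
sequence S n with a n in the domain and b n in the range of S (n + 1). S = union (explicit carrier; directed). Good and Cpt of the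
union: every clause concerns at most two elements, which lie in one S n. GIso: m1, m2 from the states; t1, t2: a n, b n; z1, z2 from Good.
-/

set_option linter.unusedVariables false
set_option linter.style.longLine false
set_option linter.unusedSectionVars false

namespace Pool.Agent.Work.MP_2b4d3b_al.NE

universe u v w u' v' w'

open Finset

variable {K₁ : Type u} [Field K₁] {K₂ : Type u'} [Field K₂] {V : Type v} {E : Type w}
  {V' : Type v'} {E' : Type w'} {G : Gr V E} {F : Gr V' E'}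
  {Φ : NonUnitalSubring (UA K₁ G × UA K₂ F)} {N H : Set V} {M H' : Set V'}
  {S0 : NonUnitalSubring (UA ℤ G × UA ℤ F)}

private theorem zero_cor (K : Type u) [CommRing K] {V : Type v} {E : Type w} (G : Gr V E)
    (N : Set V) : (0 : UA K G) ∈ Cor K G N :=
  ⟨∅, fun x hx => absurd hx (Finset.notMem_empty x), by simp⟩

theorem seq_iso (h : Rel4 Φ N H M H' S0) (cN : (Cor ℤ G N).Countable)
    (cM : (Cor ℤ F M).Countable) :
    ∃ S : NonUnitalSubring (UA ℤ G × UA ℤ F), Good Φ S ∧ GIso S (Cor ℤ G N) (Cor ℤ F M) ∧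
      Cpt H H' S0 S := by
  classical
  obtain ⟨a, hea⟩ := cN.exists_eq_range ⟨0, zero_cor ℤ G N⟩
  obtain ⟨b, heb⟩ := cM.exists_eq_range ⟨0, zero_cor ℤ F M⟩
  have ha : ∀ n, a n ∈ Cor ℤ G N := fun n => hea ▸ Set.mem_range_self n
  have hb : ∀ n, b n ∈ Cor ℤ F M := fun n => heb ▸ Set.mem_range_self n
  obtain ⟨S1, hS1⟩ := seq_start h
  have hstep : ∀ (n : ℕ) (S : {S : NonUnitalSubring (UA ℤ G × UA ℤ F) // SeqSt Φ N H M H' S0 S}),
      ∃ S' : {S : NonUnitalSubring (UA ℤ G × UA ℤ F) // SeqSt Φ N H M H' S0 S},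
        S.1 ≤ S'.1 ∧ (∃ y, (a n, y) ∈ S'.1) ∧ ∃ x, (x, b n) ∈ S'.1 := by
    intro n S
    obtain ⟨S', h1, h2, h3, h4⟩ := seq_step h S.2 (ha n) (hb n)
    exact ⟨⟨S', h1⟩, h2, h3, h4⟩
  choose nx hnx1 hnx2 hnx3 using hstep
  let s : ℕ → {S : NonUnitalSubring (UA ℤ G × UA ℤ F) // SeqSt Φ N H M H' S0 S} :=
    fun n => Nat.rec ⟨S1, hS1⟩ (fun n S => nx n S) n
  have hs : ∀ n, s (n + 1) = nx n (s n) := fun n => rfl
  have hmono : ∀ m n, m ≤ n → (s m).1 ≤ (s n).1 := by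
    intro m n hmn
    induction n, hmn using Nat.le_induction with
    | base => exact le_rfl
    | succ n _ ih =>
      refine ih.trans ?_
      rw [hs n]
      exact hnx1 n (s n)
  have hmem : ∀ m n t, t ∈ (s m).1 → t ∈ (s (max m n)).1 :=
    fun m n t ht => hmono m _ (le_max_left m n) ht
  have hmem' : ∀ m n t, t ∈ (s n).1 → t ∈ (s (max m n)).1 :=
    fun m n t ht => hmono n _ (le_max_right m n) ht
  let U : NonUnitalSubring (UA ℤ G × UA ℤ F) :=
    { carrier := {t | ∃ n, t ∈ (s n).1}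
      mul_mem' := by
        rintro x y ⟨m, hx⟩ ⟨n, hy⟩
        exact ⟨max m n, mul_mem (hmem m n x hx) (hmem' m n y hy)⟩
      add_mem' := by
        rintro x y ⟨m, hx⟩ ⟨n, hy⟩
        exact ⟨max m n, add_mem (hmem m n x hx) (hmem' m n y hy)⟩
      zero_mem' := ⟨0, zero_mem _⟩
      neg_mem' := by
        rintro x ⟨m, hx⟩
        exact ⟨m, neg_mem hx⟩ }
  have hU : ∀ t, t ∈ U ↔ ∃ n, t ∈ (s n).1 := fun t => Iff.rfl
  refine ⟨U, ⟨?_, ?_, ?_, ?_, ?_, ?_⟩, ⟨?_, ?_, ?_, ?_, ?_, ?_⟩, ⟨?_, ?_, ?_⟩⟩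
  · intro x y hxy
    obtain ⟨n, hn⟩ := (hU _).1 hxy
    exact (s n).2.1.mL x y hn
  · intro x y hxy
    obtain ⟨n, hn⟩ := (hU _).1 hxy
    exact (hU _).2 ⟨n, (s n).2.1.st x y hn⟩
  · intro x hxy
    obtain ⟨n, hn⟩ := (hU _).1 hxy
    exact (s n).2.1.z1 x hn
  · intro x hxy
    obtain ⟨n, hn⟩ := (hU _).1 hxy
    exact (s n).2.1.z2 x hn
  · intro p q hxy hp
    obtain ⟨n, hn⟩ := (hU _).1 hxy
    exact (s n).2.1.eq p q hn hp
  · intro p q x y hpq hxy
    obtain ⟨m, hm⟩ := (hU _).1 hpq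
    obtain ⟨n, hn⟩ := (hU _).1 hxy
    exact (s (max m n)).2.1.lg p q x y (hmem m n _ hm) (hmem' m n _ hn)
  · intro x y hxy
    obtain ⟨n, hn⟩ := (hU _).1 hxy
    obtain ⟨_, _, A, _, h1, _⟩ := (s n).2
    exact (h1 x y hn).2.1
  · intro x y hxy
    obtain ⟨n, hn⟩ := (hU _).1 hxy
    obtain ⟨_, _, A, _, h1, _⟩ := (s n).2
    exact (h1 x y hn).2.2
  · intro x hx
    rw [hea] at hx
    obtain ⟨n, rfl⟩ := hx
    obtain ⟨y, hy⟩ := hnx2 n (s n)
    exact ⟨y, (hU _).2 ⟨n + 1, by rw [hs n]; exact hy⟩⟩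
  · intro y hy
    rw [heb] at hy
    obtain ⟨n, rfl⟩ := hy
    obtain ⟨x, hx⟩ := hnx3 n (s n)
    exact ⟨x, (hU _).2 ⟨n + 1, by rw [hs n]; exact hx⟩⟩
  · intro x hxy
    obtain ⟨n, hn⟩ := (hU _).1 hxy
    exact (s n).2.1.z1 x hn
  · intro x hxy
    obtain ⟨n, hn⟩ := (hU _).1 hxy
    exact (s n).2.1.z2 x hn
  · intro x y hxy hx
    obtain ⟨n, hn⟩ := (hU _).1 hxy
    exact (s n).2.2.1.c1 x y hn hx
  · intro x y hxy hx
    obtain ⟨n, hn⟩ := (hU _).1 hxy
    exact (s n).2.2.1.c2 x y hn hx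
  · intro x y hxy
    obtain ⟨n, hn⟩ := (hU _).1 hxy
    exact (s n).2.2.1.c3 x y hn

end Pool.Agent.Work.MP_2b4d3b_al.NE
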