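import Pool.Agent.Work.MP_2b4d3b_al.NE.Defs
import Pool.Agent.Work.MP_2b4d3b_al.NE.GlB
import Pool.Agent.Work.MP_2b4d3b_al.NE.Seq
import Pool.Agent.Work.MP_2b4d3b_al.NE.CountC
import Pool.Agent.Work.MP_2b4d3b_al.NE.Close

/-
The extension step for Zorn. PROOF. x not in H. close_up for x, H, H', S0 gives N, M. Put H1 = N ∩ H, H1' = M ∩ H',
S01 = {(a, b) in S0 | a in Cor Z G (N ∩ H)} (a subring: explicit carrier). Rel4 Φ N H1 M H1' S01: fH by Cor_inter from fH and fN; good: S01 is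
contained in S0, all clauses of Good are inherited (st: star a in Cor too); isoS: by the last clause of close_up. Corners are countable
(cor_countable). seq_iso: S2 with Good, GIso S2 (Cor N) (Cor M), Cpt H1 H1' S01 S2. agree: (a, b) in S2, a in Cor H, also in Cor N
(m1), so a in Cor (N ∩ H) and c1 gives (a, b) in S01, in S0. comp: (a, b) in S2, a in Cor (H compl), contained in Cor (H1 compl): c3 gives
b in Cor (H1' compl), and b in Cor M, so b in Cor (M ∩ (M ∩ H') compl), contained in Cor (H' compl). glue: S on H ∪ N. corner_union.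
-/

set_option linter.unusedVariables false
set_option linter.style.longLine false
set_option linter.unusedSectionVars false

namespace Pool.Agent.Work.MP_2b4d3b_al.NE

universe u v w u' v' w'

open Finset

variable {K₁ : Type u} [Field K₁] {K₂ : Type u'} [Field K₂] {V : Type v} {E : Type w}
  {V' : Type v'} {E' : Type w'} {G : Gr V E} {F : Gr V' E'}
  {Φ : NonUnitalSubring (UA K₁ G × UA K₂ F)}

theorem zorn_step (hG : NoExit G) (hF : NoExit F) (rG : RowCountable G) (rF : RowCountable F)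
    (iso : GIso Φ (LP K₁ G : Set (UA K₁ G)) (LP K₂ F : Set (UA K₂ F))) {H : Set V} {H' : Set V'}
    {S0 : NonUnitalSubring (UA ℤ G × UA ℤ F)} (hH : Her G H) (hH' : Her F H')
    (fH : ∀ a b, (a, b) ∈ Φ → (a ∈ Cor K₁ G H ↔ b ∈ Cor K₂ F H')) (g0 : Good Φ S0)
    (i0 : GIso S0 (Cor ℤ G H) (Cor ℤ F H')) {x : V} (hx : x ∉ H) :
    ∃ (H2 : Set V) (H2' : Set V') (S2 : NonUnitalSubring (UA ℤ G × UA ℤ F)), x ∈ H2 ∧ H ⊆ H2 ∧
      H' ⊆ H2' ∧ S0 ≤ S2 ∧ Her G H2 ∧ Her F H2' ∧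
      (∀ a b, (a, b) ∈ Φ → (a ∈ Cor K₁ G H2 ↔ b ∈ Cor K₂ F H2')) ∧ Good Φ S2 ∧
      GIso S2 (Cor ℤ G H2) (Cor ℤ F H2') := by
  obtain ⟨N, M, hxN, cN, cM, hN, hM, fN, fNH⟩ := close_up rG rF iso i0 x
  let S01 : NonUnitalSubring (UA ℤ G × UA ℤ F) :=
    { carrier := {t | t ∈ S0 ∧ t.1 ∈ Cor ℤ G (N ∩ H)}
      mul_mem' := fun ha hb => ⟨S0.mul_mem ha.1 hb.1, Cor_mul ha.2 hb.2⟩
      add_mem' := fun ha hb => ⟨S0.add_mem ha.1 hb.1, Cor_add ha.2 hb.2⟩
      zero_mem' := ⟨S0.zero_mem, Cor_zero⟩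
      neg_mem' := fun ha => ⟨S0.neg_mem ha.1, Cor_neg ha.2⟩ }
  have hS01 : ∀ a b, (a, b) ∈ S01 ↔ (a, b) ∈ S0 ∧ a ∈ Cor ℤ G (N ∩ H) := fun a b => Iff.rfl
  have hNH : Her G (N ∩ H) := fun e he => ⟨hN e he.1, hH e he.2⟩
  have hMH : Her F (M ∩ H') := fun e he => ⟨hM e he.1, hH' e he.2⟩
  have rel : Rel4 Φ N (N ∩ H) M (M ∩ H') S01 :=
    { nG := hG
      nF := hF
      iso := iso
      hN := hN
      hH := hNH
      hM := hM
      hH' := hMH
      HN := Set.inter_subset_left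
      HM := Set.inter_subset_left
      fN := fN
      fH := by
        intro a b hab
        rw [Cor_inter, Cor_inter, fN a b hab, fH a b hab]
      good :=
        { mL := fun a b h => g0.mL a b h.1
          st := fun a b h => ⟨g0.st a b h.1, Cor_star h.2⟩
          z1 := fun a h => g0.z1 a h.1
          z2 := fun b h => g0.z2 b h.1
          eq := fun p q h => g0.eq p q h.1
          lg := fun p q x y h1 h2 => g0.lg p q x y h1.1 h2.1 }
      isoS :=
        { m1 := fun a b h => h.2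
          m2 := fun a b h => (fNH a b h.1).mp h.2
          t1 := by
            intro a ha
            obtain ⟨b, hb⟩ := i0.t1 a (Cor_inter.mp ha).2
            exact ⟨b, hb, ha⟩
          t2 := by
            intro b hb
            obtain ⟨a, ha⟩ := i0.t2 b (Cor_inter.mp hb).2
            exact ⟨a, ha, (fNH a b ha).mpr hb⟩
          z1 := fun a h => i0.z1 a h.1
          z2 := fun b h => i0.z2 b h.1 } }
  obtain ⟨S2, good2, iso2, cpt⟩ := seq_iso rel (cor_countable rG hN cN) (cor_countable rF hM cM)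
  have agree : ∀ a b, (a, b) ∈ S2 → a ∈ Cor ℤ G H → (a, b) ∈ S0 := by
    intro a b h ha
    exact (cpt.c1 a b h (Cor_inter.mpr ⟨iso2.m1 a b h, ha⟩)).1
  have comp : ∀ a b, (a, b) ∈ S2 → a ∈ Cor ℤ G Hᶜ → b ∈ Cor ℤ F H'ᶜ := by
    intro a b h ha
    have h1 : a ∈ Cor ℤ G (N ∩ H)ᶜ :=
      Cor_mono (Set.compl_subset_compl.mpr Set.inter_subset_right) ha
    have h2 : b ∈ Cor ℤ F (M ∩ H')ᶜ := (cpt.c3 a b h).mp h1
    have h3 : b ∈ Cor ℤ F (M ∩ (M ∩ H')ᶜ) := Cor_inter.mpr ⟨iso2.m2 a b h, h2⟩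
    refine Cor_mono ?_ h3
    intro y hy hy'
    exact hy.2 ⟨hy.1, hy'⟩
  obtain ⟨S, hS, hi, h1, h2⟩ := glue hG hF iso hH hN hH' hM g0 i0 good2 iso2 agree comp
  refine ⟨H ∪ N, H' ∪ M, S, Or.inr hxN, Set.subset_union_left, Set.subset_union_left, h1, ?_, ?_,
    fun a b hab => corner_union iso fH fN a b hab, hS, hi⟩
  · intro e he
    rcases he with he | he
    · exact Or.inl (hH e he)
    · exact Or.inr (hN e he)
  · intro e he
    rcases he with he | he
    · exact Or.inl (hH' e he)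
    · exact Or.inr (hM e he)

end Pool.Agent.Work.MP_2b4d3b_al.NE
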