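import Pool.Agent.Work.MP_2b4d3b_al.NE.Defs
import Pool.Agent.Work.MP_2b4d3b_al.NE.ZornA
import Pool.Agent.Work.MP_2b4d3b_al.NE.RepC

/-
Zorn. PROOF. Triples t = (H, H', S0) as in zorn_step (Her, Her, fH, Good, GIso), ordered by H ⊆ H2, H' ⊆ H2', S0 ≤ S2 (use zorn_le_nonempty
or zorn_subset-like on a structure or subtype with this partial order, e.g. on Set V × Set V' × NonUnitalSubring .. with the product
order). The triple (∅, ∅, ⊥) works: Cor of ∅ is {0} (W = ∅, eW = 0), eqf_zero_zero, lg_ne for LauGen G 0 x. A nonempty chain has the upper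
bound (union, union, union) (the union of a directed family of subrings: explicit carrier or sSup with
NonUnitalSubring.coe_sSup_of_directedOn): Cor of a directed union is the union of the Cor (finite W); every clause concerns finitely many
elements. A maximal triple has H = univ by zorn_step. Then H' = univ: z in V', (r, vx z) in Φ with r in LP K1 G = Cor univ, so
vx z in Cor K2 F H'; if z were not in H' then vx z = vx z * vx z = 0 (mem_Cor_iff), against vx_torsion (a = 1). LP_eq_Cor.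
-/

set_option linter.unusedVariables false
set_option linter.style.longLine false
set_option linter.unusedSectionVars false

namespace Pool.Agent.Work.MP_2b4d3b_al.NE

universe u v w u' v' w'

open Finset

variable {K₁ : Type u} [Field K₁] {K₂ : Type u'} [Field K₂] {V : Type v} {E : Type w}
  {V' : Type v'} {E' : Type w'} {G : Gr V E} {F : Gr V' E'}
  {Φ : NonUnitalSubring (UA K₁ G × UA K₂ F)}

private theorem zb_empty {K : Type u} [CommRing K] {V : Type v} {E : Type w} {G : Gr V E}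
    {a : UA K G} : a ∈ Cor K G (∅ : Set V) ↔ a = 0 := by
  constructor
  · rintro ⟨W, hW, h⟩
    have h1 : W = ∅ := Finset.eq_empty_of_forall_notMem fun x hx => hW x hx
    have h2 : eW K G W = 0 := by
      rw [h1]
      exact Finset.sum_empty
    rw [← h, h2, zero_mul, zero_mul]
  · rintro rfl
    exact Cor_zero

private theorem zb_union {K : Type u} [CommRing K] {V : Type v} {E : Type w} {G : Gr V E}
    {α : Type w'} {c : Set α} (hn : c.Nonempty) {f : α → Set V}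
    (hc : DirectedOn (fun i j => f i ⊆ f j) c) {a : UA K G} :
    a ∈ Cor K G (⋃ i ∈ c, f i) ↔ ∃ i ∈ c, a ∈ Cor K G (f i) := by
  constructor
  · rintro ⟨W, hW, h⟩
    obtain ⟨i, hi, h1⟩ := DirectedOn.exists_mem_subset_of_finset_subset_biUnion hn hc
      (s := W) (fun x hx => hW x hx)
    exact ⟨i, hi, W, fun x hx => h1 hx, h⟩
  · rintro ⟨i, hi, h⟩
    exact Cor_mono (Set.subset_biUnion_of_mem (u := f) hi) h

theorem full_iso (hG : NoExit G) (hF : NoExit F) (rG : RowCountable G) (rF : RowCountable F)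
    (iso : GIso Φ (LP K₁ G : Set (UA K₁ G)) (LP K₂ F : Set (UA K₂ F))) :
    ∃ S : NonUnitalSubring (UA ℤ G × UA ℤ F), Good Φ S ∧
      GIso S (LP ℤ G : Set (UA ℤ G)) (LP ℤ F : Set (UA ℤ F)) := by
  classical
  let s : Set (Set V × Set V' × NonUnitalSubring (UA ℤ G × UA ℤ F)) :=
    {t | Her G t.1 ∧ Her F t.2.1 ∧
      (∀ a b, (a, b) ∈ Φ → (a ∈ Cor K₁ G t.1 ↔ b ∈ Cor K₂ F t.2.1)) ∧ Good Φ t.2.2 ∧
      GIso t.2.2 (Cor ℤ G t.1) (Cor ℤ F t.2.1)}
  have base : ((∅, ∅, ⊥) : Set V × Set V' × NonUnitalSubring (UA ℤ G × UA ℤ F)) ∈ s := by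
    have hb : ∀ a b, (a, b) ∈ (⊥ : NonUnitalSubring (UA ℤ G × UA ℤ F)) ↔ a = 0 ∧ b = 0 := by
      intro a b
      rw [NonUnitalSubring.mem_bot, Prod.mk_eq_zero]
    refine ⟨fun e he => he.elim, fun e he => he.elim, ?_, ?_, ?_⟩
    · intro a b hab
      change a ∈ Cor K₁ G (∅ : Set V) ↔ b ∈ Cor K₂ F (∅ : Set V')
      rw [zb_empty, zb_empty]
      constructor
      · rintro rfl
        exact iso.z2 b hab
      · rintro rfl
        exact iso.z1 a hab
    · change Good Φ (⊥ : NonUnitalSubring (UA ℤ G × UA ℤ F))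
      refine ⟨?_, ?_, ?_, ?_, ?_, ?_⟩
      · intro a b h
        obtain ⟨rfl, rfl⟩ := (hb a b).mp h
        exact ⟨zero_mem _, zero_mem _⟩
      · intro a b h
        obtain ⟨rfl, rfl⟩ := (hb a b).mp h
        rw [star_zero, star_zero]
        exact h
      · intro a h
        exact ((hb _ _).mp h).1
      · intro b h
        exact ((hb _ _).mp h).2
      · intro p q h _
        obtain ⟨rfl, rfl⟩ := (hb p q).mp h
        exact eqf_zero_zero iso
      · intro p q x y h _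
        obtain ⟨rfl, rfl⟩ := (hb p q).mp h
        exact ⟨fun h1 => (lg_ne h1 rfl).elim, fun h1 => (lg_ne h1 rfl).elim⟩
    · change GIso (⊥ : NonUnitalSubring (UA ℤ G × UA ℤ F)) (Cor ℤ G ∅) (Cor ℤ F ∅)
      refine ⟨?_, ?_, ?_, ?_, ?_, ?_⟩
      · intro a b h
        rw [((hb _ _).mp h).1]
        exact Cor_zero
      · intro a b h
        rw [((hb _ _).mp h).2]
        exact Cor_zero
      · intro a ha
        exact ⟨0, (hb _ _).mpr ⟨zb_empty.mp ha, rfl⟩⟩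
      · intro b hb'
        exact ⟨0, (hb _ _).mpr ⟨rfl, zb_empty.mp hb'⟩⟩
      · intro a h
        exact ((hb _ _).mp h).1
      · intro b h
        exact ((hb _ _).mp h).2
  have chain : ∀ c ⊆ s, IsChain (· ≤ ·) c → ∀ y ∈ c, ∃ ub ∈ s, ∀ z ∈ c, z ≤ ub := by
    intro c hcs hc y hy
    have hn : c.Nonempty := ⟨y, hy⟩
    have tot : ∀ t ∈ c, ∀ t' ∈ c, ∃ u ∈ c, t ≤ u ∧ t' ≤ u := by
      intro t ht t' ht'
      rcases hc.total ht ht' with h | h
      · exact ⟨t', ht', h, le_rfl⟩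
      · exact ⟨t, ht, le_rfl, h⟩
    have d1 : DirectedOn (fun i j : Set V × Set V' × NonUnitalSubring (UA ℤ G × UA ℤ F) =>
        i.1 ⊆ j.1) c := by
      intro t ht t' ht'
      obtain ⟨u, hu, h1, h2⟩ := tot t ht t' ht'
      exact ⟨u, hu, h1.1, h2.1⟩
    have d2 : DirectedOn (fun i j : Set V × Set V' × NonUnitalSubring (UA ℤ G × UA ℤ F) =>
        i.2.1 ⊆ j.2.1) c := by
      intro t ht t' ht'
      obtain ⟨u, hu, h1, h2⟩ := tot t ht t' ht'
      exact ⟨u, hu, h1.2.1, h2.2.1⟩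
    let U : NonUnitalSubring (UA ℤ G × UA ℤ F) :=
      { carrier := {z | ∃ t ∈ c, z ∈ t.2.2}
        mul_mem' := by
          rintro a b ⟨t, ht, ha⟩ ⟨t', ht', hb⟩
          obtain ⟨u, hu, h1, h2⟩ := tot t ht t' ht'
          exact ⟨u, hu, u.2.2.mul_mem (h1.2.2 ha) (h2.2.2 hb)⟩
        add_mem' := by
          rintro a b ⟨t, ht, ha⟩ ⟨t', ht', hb⟩
          obtain ⟨u, hu, h1, h2⟩ := tot t ht t' ht'
          exact ⟨u, hu, u.2.2.add_mem (h1.2.2 ha) (h2.2.2 hb)⟩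
        zero_mem' := ⟨y, hy, y.2.2.zero_mem⟩
        neg_mem' := by
          rintro a ⟨t, ht, ha⟩
          exact ⟨t, ht, t.2.2.neg_mem ha⟩ }
    refine ⟨(⋃ t ∈ c, t.1, ⋃ t ∈ c, t.2.1, U), ⟨?_, ?_, ?_, ?_, ?_⟩, ?_⟩
    · intro e he
      obtain ⟨t, ht, h⟩ := Set.mem_iUnion₂.mp he
      exact Set.mem_iUnion₂.mpr ⟨t, ht, (hcs ht).1 e h⟩
    · intro e he
      obtain ⟨t, ht, h⟩ := Set.mem_iUnion₂.mp he
      exact Set.mem_iUnion₂.mpr ⟨t, ht, (hcs ht).2.1 e h⟩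
    · intro a b hab
      change a ∈ Cor K₁ G (⋃ t ∈ c, t.1) ↔ b ∈ Cor K₂ F (⋃ t ∈ c, t.2.1)
      rw [zb_union hn d1, zb_union hn d2]
      constructor
      · rintro ⟨t, ht, h⟩
        exact ⟨t, ht, ((hcs ht).2.2.1 a b hab).mp h⟩
      · rintro ⟨t, ht, h⟩
        exact ⟨t, ht, ((hcs ht).2.2.1 a b hab).mpr h⟩
    · change Good Φ U
      refine ⟨?_, ?_, ?_, ?_, ?_, ?_⟩
      · rintro a b ⟨t, ht, h⟩
        exact (hcs ht).2.2.2.1.mL a b h
      · rintro a b ⟨t, ht, h⟩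
        exact ⟨t, ht, (hcs ht).2.2.2.1.st a b h⟩
      · rintro a ⟨t, ht, h⟩
        exact (hcs ht).2.2.2.1.z1 a h
      · rintro b ⟨t, ht, h⟩
        exact (hcs ht).2.2.2.1.z2 b h
      · rintro p q ⟨t, ht, h⟩ hp
        exact (hcs ht).2.2.2.1.eq p q h hp
      · rintro p q x y ⟨t, ht, h⟩ ⟨t', ht', h'⟩
        obtain ⟨u, hu, h1, h2⟩ := tot t ht t' ht'
        exact (hcs hu).2.2.2.1.lg p q x y (h1.2.2 h) (h2.2.2 h')
    · change GIso U (Cor ℤ G (⋃ t ∈ c, t.1)) (Cor ℤ F (⋃ t ∈ c, t.2.1))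
      refine ⟨?_, ?_, ?_, ?_, ?_, ?_⟩
      · rintro a b ⟨t, ht, h⟩
        exact (zb_union hn d1).mpr ⟨t, ht, (hcs ht).2.2.2.2.m1 a b h⟩
      · rintro a b ⟨t, ht, h⟩
        exact (zb_union hn d2).mpr ⟨t, ht, (hcs ht).2.2.2.2.m2 a b h⟩
      · intro a ha
        obtain ⟨t, ht, h⟩ := (zb_union hn d1).mp ha
        obtain ⟨b, hb⟩ := (hcs ht).2.2.2.2.t1 a h
        exact ⟨b, t, ht, hb⟩
      · intro b hb
        obtain ⟨t, ht, h⟩ := (zb_union hn d2).mp hb
        obtain ⟨a, ha⟩ := (hcs ht).2.2.2.2.t2 b h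
        exact ⟨a, t, ht, ha⟩
      · rintro a ⟨t, ht, h⟩
        exact (hcs ht).2.2.2.2.z1 a h
      · rintro b ⟨t, ht, h⟩
        exact (hcs ht).2.2.2.2.z2 b h
    · intro t ht
      refine ⟨?_, ?_, ?_⟩
      · exact Set.subset_biUnion_of_mem (u := fun t : Set V × Set V' ×
          NonUnitalSubring (UA ℤ G × UA ℤ F) => t.1) ht
      · exact Set.subset_biUnion_of_mem (u := fun t : Set V × Set V' ×
          NonUnitalSubring (UA ℤ G × UA ℤ F) => t.2.1) ht
      · exact fun z hz => ⟨t, ht, hz⟩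
  obtain ⟨⟨H, H', S0⟩, -, hm⟩ := zorn_le_nonempty₀ s chain _ base
  obtain ⟨⟨hH, hH', fH, g0, i0⟩, hmax⟩ := hm
  change Her G H at hH
  change Her F H' at hH'
  change ∀ a b, (a, b) ∈ Φ → (a ∈ Cor K₁ G H ↔ b ∈ Cor K₂ F H') at fH
  change Good Φ S0 at g0
  change GIso S0 (Cor ℤ G H) (Cor ℤ F H') at i0
  have hHu : H = Set.univ := by
    by_contra hcon
    obtain ⟨x, hx⟩ := (Set.ne_univ_iff_exists_notMem H).mp hcon
    obtain ⟨H2, H2', S2, hx2, h1, h2, h3, h4, h5, h6, h7, h8⟩ :=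
      zorn_step hG hF rG rF iso hH hH' fH g0 i0 hx
    have h9 : ((H2, H2', S2) : Set V × Set V' × NonUnitalSubring (UA ℤ G × UA ℤ F)) ∈ s :=
      ⟨h4, h5, h6, h7, h8⟩
    have h10 := hmax h9 ⟨h1, h2, h3⟩
    exact hx (h10.1 hx2)
  have hHu' : H' = Set.univ := by
    rw [Set.eq_univ_iff_forall]
    intro z
    by_contra hz
    obtain ⟨r, hr⟩ := iso.t2 (vx K₂ F z) (vx_mem z)
    have h1 : r ∈ Cor K₁ G H := by
      rw [hHu, ← LP_eq_Cor]
      exact iso.m1 _ _ hr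
    have h2 : vx K₂ F z ∈ Cor K₂ F H' := (fH _ _ hr).mp h1
    have h3 := ((mem_Cor_iff.mp h2).2 z hz).1
    rw [vx_vx] at h3
    have h4 := vx_torsion (K := K₂) (G := F) z 1 (by rw [h3, smul_zero])
    exact one_ne_zero h4
  refine ⟨S0, g0, ?_⟩
  rw [LP_eq_Cor, LP_eq_Cor, ← hHu, ← hHu']
  exact i0

end Pool.Agent.Work.MP_2b4d3b_al.NE
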