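import Pool.Agent.Work.MP_2b4d3b_al.NE.Defs
import Pool.Agent.Work.MP_2b4d3b_al.NE.NoExT
import Pool.Agent.Work.MP_2b4d3b_al.NE.RowT
import Pool.Agent.Work.MP_2b4d3b_al.NE.ZornB
import Pool.Agent.Work.MP_2b4d3b_al.NE.BaseCh

/-
PROOF. From the ring isomorphism φ : LP K1 G ≃+* LP K2 F define Φ = {(a, b) | exists h : a in LP, b = φ ⟨a, h⟩} (NonUnitalSubring), GIso Φ
(φ injective, surjective). noexit_transfer, row_transfer. full_iso, base_change (Good.st). The final map: LP K G ≃+* LP K F from f, g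
restricted; K-linear since f is an algebra homomorphism.
-/

set_option linter.unusedVariables false
set_option linter.style.longLine false
set_option linter.unusedSectionVars false

namespace Pool.Agent.Work.MP_2b4d3b_al.NE

universe u v w u' v' w'

open Finset

universe z

theorem main_ne {V : Type v} {E : Type w} {V' : Type v'} {E' : Type w'} (G : Gr V E) (F : Gr V' E')
    (rG : RowCountable G) (hG : NoExit G) (K₁ : Type u) [Field K₁] (K₂ : Type u') [Field K₂]
    (h : Nonempty (LP K₁ G ≃+* LP K₂ F)) :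
    NoExit F ∧ RowCountable F ∧ ∀ (K : Type z) [CommRing K] [StarRing K],
      ∃ f : LP K G ≃+* LP K F, (∀ (k : K) (a : LP K G), f (k • a) = k • f a) ∧
        ∀ a b : LP K G, (b : UA K G) = star (a : UA K G) →
          ((f b : LP K F) : UA K F) = star ((f a : LP K F) : UA K F) := by
  obtain ⟨φ⟩ := h
  let Φ : NonUnitalSubring (UA K₁ G × UA K₂ F) :=
    { carrier := {t | ∃ h : t.1 ∈ LP K₁ G, t.2 = ((φ ⟨t.1, h⟩ : LP K₂ F) : UA K₂ F)}
      mul_mem' := by
        rintro ⟨a, b⟩ ⟨a', b'⟩ ⟨h, hb⟩ ⟨h', hb'⟩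
        refine ⟨mul_mem h h', ?_⟩
        have h1 : (⟨a * a', mul_mem h h'⟩ : LP K₁ G) = ⟨a, h⟩ * ⟨a', h'⟩ := rfl
        change b * b' = ((φ ⟨a * a', mul_mem h h'⟩ : LP K₂ F) : UA K₂ F)
        rw [h1, map_mul]
        change b = _ at hb
        change b' = _ at hb'
        rw [hb, hb']
        rfl
      add_mem' := by
        rintro ⟨a, b⟩ ⟨a', b'⟩ ⟨h, hb⟩ ⟨h', hb'⟩
        refine ⟨add_mem h h', ?_⟩
        have h1 : (⟨a + a', add_mem h h'⟩ : LP K₁ G) = ⟨a, h⟩ + ⟨a', h'⟩ := rfl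
        change b + b' = ((φ ⟨a + a', add_mem h h'⟩ : LP K₂ F) : UA K₂ F)
        rw [h1, map_add]
        change b = _ at hb
        change b' = _ at hb'
        rw [hb, hb']
        rfl
      zero_mem' := by
        refine ⟨zero_mem _, ?_⟩
        have h1 : (⟨0, zero_mem _⟩ : LP K₁ G) = 0 := rfl
        change (0 : UA K₂ F) = ((φ ⟨0, zero_mem _⟩ : LP K₂ F) : UA K₂ F)
        rw [h1, map_zero]
        rfl
      neg_mem' := by
        rintro ⟨a, b⟩ ⟨h, hb⟩
        refine ⟨neg_mem h, ?_⟩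
        change -b = ((φ ⟨-a, neg_mem h⟩ : LP K₂ F) : UA K₂ F)
        have h2 : ((φ ⟨-a, neg_mem h⟩ : LP K₂ F) : UA K₂ F) +
            ((φ ⟨a, h⟩ : LP K₂ F) : UA K₂ F) = 0 := by
          have h3 : φ ⟨-a, neg_mem h⟩ + φ ⟨a, h⟩ = 0 := by
            have h4 : (⟨-a, neg_mem h⟩ : LP K₁ G) + ⟨a, h⟩ = 0 := Subtype.ext (neg_add_cancel a)
            rw [← map_add, h4, map_zero]
          exact congrArg Subtype.val h3
        change b = _ at hb
        rw [hb]
        exact (eq_neg_of_add_eq_zero_left h2).symm }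
  have hΦ : ∀ a b, (a, b) ∈ Φ ↔ ∃ h : a ∈ LP K₁ G, b = ((φ ⟨a, h⟩ : LP K₂ F) : UA K₂ F) :=
    fun a b => Iff.rfl
  have iso : GIso Φ (LP K₁ G : Set (UA K₁ G)) (LP K₂ F : Set (UA K₂ F)) := by
    refine ⟨?_, ?_, ?_, ?_, ?_, ?_⟩
    · rintro a b ⟨h, hb⟩
      exact h
    · rintro a b ⟨h, hb⟩
      change b = _ at hb
      rw [hb]
      exact (φ ⟨a, h⟩).2
    · intro a ha
      exact ⟨((φ ⟨a, ha⟩ : LP K₂ F) : UA K₂ F), ha, rfl⟩
    · intro b hb
      obtain ⟨a, ha⟩ := φ.surjective ⟨b, hb⟩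
      refine ⟨a, a.2, ?_⟩
      change b = ((φ a : LP K₂ F) : UA K₂ F)
      rw [ha]
    · rintro a ⟨h, hb⟩
      change (0 : UA K₂ F) = ((φ ⟨a, h⟩ : LP K₂ F) : UA K₂ F) at hb
      have h1 : φ ⟨a, h⟩ = 0 := Subtype.ext hb.symm
      have h2 : (⟨a, h⟩ : LP K₁ G) = 0 := (map_eq_zero_iff φ φ.injective).mp h1
      exact congrArg Subtype.val h2
    · rintro b ⟨h, hb⟩
      change b = ((φ ⟨0, h⟩ : LP K₂ F) : UA K₂ F) at hb
      have h1 : (⟨0, h⟩ : LP K₁ G) = 0 := rfl
      rw [h1, map_zero] at hb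
      exact hb
  have hF : NoExit F := noexit_transfer iso hG
  have rF : RowCountable F := row_transfer iso rG
  refine ⟨hF, rF, ?_⟩
  intro K _ _
  obtain ⟨S, hS, hiso⟩ := full_iso hG hF rG rF iso
  obtain ⟨f, g, h1, h2, h3⟩ := base_change hiso hS.st K
  refine ⟨{ toFun := fun a => ⟨f a, (h1 a a.2).1⟩
            invFun := fun b => ⟨g b, (h2 b b.2).1⟩
            left_inv := fun a => Subtype.ext (h1 a a.2).2
            right_inv := fun b => Subtype.ext (h2 b b.2).2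
            map_mul' := fun a b => Subtype.ext (map_mul f (a : UA K G) b)
            map_add' := fun a b => Subtype.ext (map_add f (a : UA K G) b) }, ?_, ?_⟩
  · intro k a
    exact Subtype.ext (map_smul f k (a : UA K G))
  · intro a b hab
    change f b = star (f a)
    rw [hab, h3]

end Pool.Agent.Work.MP_2b4d3b_al.NE
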